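import Pool.Agent.Lib.MP_ef3f0f_gt.U.E.SpecA
import Pool.Agent.Lib.MP_ef3f0f_gt.U.Z.inst
import Pool.Agent.Lib.MP_ef3f0f_gt.U.Z.O

set_option autoImplicit false
set_option linter.unusedSectionVars false

/-!
# MP_ef3f0f_gt, Theorem U, Part E: change of `v`, unordered germs
-/

namespace Pool.Agent.MPEF.U

open MeasureTheory Topology
open scoped ENNReal Pointwise

section AAaux

/-- The triangle inequality. -/
private lemma AA_abs (a b c : ℝ) : ab (a - b) ≤ ab (a - c) + ab (b - c) := by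
  unfold ab
  rw [← ENNReal.ofReal_add (abs_nonneg _) (abs_nonneg _)]
  apply ENNReal.ofReal_le_ofReal
  have h : a - b = (a - c) - (b - c) := by ring
  rw [h]
  exact abs_sub _ _

/-- Insertion of a fourth edge. -/
private lemma AA_sum {Γ : Type} (K1 K2 K3 K4 : Γ → ℝ≥0∞) (A : Γ → Γ → ℝ) (c1 C2 C3 : ℝ≥0∞)
    (h4 : c1 ≤ ∑' w, K4 w) (h2 : ∑' v, K2 v ≤ C2) (h3 : ∑' v, K3 v ≤ C3) :
    c1 * ∑' u, ∑' v, ∑' v', K1 u * K2 v * K3 v' * ab (A u v - A u v') ≤
      C3 * (∑' u, ∑' v, ∑' w, K1 u * K2 v * K4 w * ab (A u v - A u w)) +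
      C2 * (∑' u, ∑' v, ∑' w, K1 u * K3 v * K4 w * ab (A u v - A u w)) := by
  set X : Γ → Γ → ℝ≥0∞ := fun u v => ∑' w, K1 u * K2 v * K4 w * ab (A u v - A u w) with hX
  set Y : Γ → Γ → ℝ≥0∞ := fun u v => ∑' w, K1 u * K3 v * K4 w * ab (A u v - A u w) with hY
  have key : ∀ u v v', c1 * (K1 u * K2 v * K3 v' * ab (A u v - A u v')) ≤
      X u v * K3 v' + Y u v' * K2 v := by
    intro u v v'
    calc c1 * (K1 u * K2 v * K3 v' * ab (A u v - A u v'))
        ≤ (∑' w, K4 w) * (K1 u * K2 v * K3 v' * ab (A u v - A u v')) := by gcongr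
      _ = ∑' w, K4 w * (K1 u * K2 v * K3 v' * ab (A u v - A u v')) := ENNReal.tsum_mul_right.symm
      _ ≤ ∑' w, (K1 u * K2 v * K4 w * ab (A u v - A u w) * K3 v' +
            K1 u * K3 v' * K4 w * ab (A u v' - A u w) * K2 v) := by
          refine ENNReal.tsum_le_tsum fun w => ?_
          calc K4 w * (K1 u * K2 v * K3 v' * ab (A u v - A u v'))
              ≤ K4 w * (K1 u * K2 v * K3 v' * (ab (A u v - A u w) + ab (A u v' - A u w))) := by
                gcongr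
                exact AA_abs _ _ _
            _ = _ := by ring
      _ = X u v * K3 v' + Y u v' * K2 v := by
          rw [ENNReal.tsum_add, ENNReal.tsum_mul_right, ENNReal.tsum_mul_right]
  calc c1 * ∑' u, ∑' v, ∑' v', K1 u * K2 v * K3 v' * ab (A u v - A u v')
      = ∑' u, ∑' v, ∑' v', c1 * (K1 u * K2 v * K3 v' * ab (A u v - A u v')) := by
        rw [← ENNReal.tsum_mul_left]
        refine tsum_congr fun u => ?_
        rw [← ENNReal.tsum_mul_left]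
        refine tsum_congr fun v => ?_
        rw [← ENNReal.tsum_mul_left]
    _ ≤ ∑' u, ∑' v, ∑' v', (X u v * K3 v' + Y u v' * K2 v) :=
        ENNReal.tsum_le_tsum fun u => ENNReal.tsum_le_tsum fun v =>
          ENNReal.tsum_le_tsum fun v' => key u v v'
    _ = ∑' u, ((∑' v, X u v) * (∑' v, K3 v) + (∑' v, Y u v) * (∑' v, K2 v)) := by
        refine tsum_congr fun u => ?_
        calc ∑' v, ∑' v', (X u v * K3 v' + Y u v' * K2 v)
            = ∑' v, (X u v * (∑' v', K3 v') + (∑' v', Y u v') * K2 v) := by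
              refine tsum_congr fun v => ?_
              rw [ENNReal.tsum_add, ENNReal.tsum_mul_left, ENNReal.tsum_mul_right]
          _ = _ := by
              rw [ENNReal.tsum_add, ENNReal.tsum_mul_left, ENNReal.tsum_mul_right]
    _ = (∑' u, ∑' v, X u v) * (∑' v, K3 v) + (∑' u, ∑' v, Y u v) * (∑' v, K2 v) := by
        rw [ENNReal.tsum_add, ENNReal.tsum_mul_right, ENNReal.tsum_mul_right]
    _ ≤ C3 * (∑' u, ∑' v, X u v) + C2 * (∑' u, ∑' v, Y u v) := by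
        rw [mul_comm C3, mul_comm C2]
        gcongr

end AAaux

variable (P H : Type) [Group P] [Group H] [TopologicalSpace P] [TopologicalSpace H]
  [IsTopologicalGroup P] [IsTopologicalGroup H] [LocallyCompactSpace P] [LocallyCompactSpace H]
  [T2Space P] [T2Space H] [SecondCountableTopology P] [SecondCountableTopology H]
  [MeasurableSpace P] [MeasurableSpace H] [BorelSpace P] [BorelSpace H]

/-- Joint measurability of the inner sum. -/
private lemma AA_meas (D : Dat P H) (hc : Countable D.Γ) (K1 K2 K3 : P × H → ℝ≥0∞)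
    (h1 : Measurable K1) (h2 : Measurable K2) (h3 : Measurable K3)
    (ψ : P × H → D.Γ → D.Γ → ℝ) (hψ : ∀ u v, Measurable fun x => ψ x u v) :
    Measurable fun q : (P × H) × (P × H) => D.st3 K1 K2 K3 q.2 q.1
      fun u v w => ab (ψ q.2 u v - ψ q.2 u w) := by
  unfold Dat.st3
  refine Measurable.tsum fun u => Measurable.tsum fun v => Measurable.tsum fun w => ?_
  have hm : ∀ e : D.Γ, Measurable fun q : (P × H) × (P × H) => q.2⁻¹ * (e : P × H) * q.1 :=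
    fun e => Continuous.measurable (by fun_prop)
  refine (((h1.comp (hm u)).mul (h2.comp (hm v))).mul (h3.comp (hm w))).mul ?_
  unfold ab
  refine Measurable.ennreal_ofReal ?_
  exact continuous_abs.measurable.comp
    (((hψ u v).comp measurable_snd).sub ((hψ u w).comp measurable_snd))

/-- Integration of a pointwise estimate. -/
private lemma AA_int (hton : S_ton P H) (D : Dat P H) (hD : D.Ok) (hc : Countable D.Γ)
    (S : Set (P × H)) (hS : MeasurableSet S) (C : ℝ≥0∞)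
    (A0 A1 A2 : P × H → D.Γ → P × H → ℝ≥0∞)
    (h1 : ∀ g, Measurable fun q : (P × H) × (P × H) => A1 q.1 g q.2)
    (h2 : ∀ g, Measurable fun q : (P × H) × (P × H) => A2 q.1 g q.2)
    (h : ∀ z g x, A0 z g x ≤ C * (A1 z g x + A2 z g x)) :
    (D.IM fun z => D.lp S z fun g => D.IM fun x => A0 z g x) ≤
      C * ((D.IM fun z => D.lp S z fun g => D.IM fun x => A1 z g x) +
        D.IM fun z => D.lp S z fun g => D.IM fun x => A2 z g x) := by
  obtain ⟨t1, t2, t3, _, t5⟩ := hton D hD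
  have m1 : ∀ z g, Measurable fun x => A1 z g x := fun z g =>
    (h1 g).comp measurable_prodMk_left
  have m2 : ∀ z g, Measurable fun x => A2 z g x := fun z g =>
    (h2 g).comp measurable_prodMk_left
  have hi : ∀ z g, (D.IM fun x => A0 z g x) ≤
      C * ((D.IM fun x => A1 z g x) + D.IM fun x => A2 z g x) := by
    intro z g
    calc (D.IM fun x => A0 z g x) ≤ D.IM fun x => C * (A1 z g x + A2 z g x) := t5 _ _ (h z g)
      _ = C * D.IM fun x => A1 z g x + A2 z g x := t2 C _ ((m1 z g).add (m2 z g))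
      _ = _ := by rw [t3 _ (fun x => A2 z g x) (m1 z g)]
  have hl : ∀ z, (D.lp S z fun g => D.IM fun x => A0 z g x) ≤
      C * ((D.lp S z fun g => D.IM fun x => A1 z g x) +
        D.lp S z fun g => D.IM fun x => A2 z g x) := by
    intro z
    unfold Dat.lp
    rw [← ENNReal.tsum_add, ← ENNReal.tsum_mul_left]
    refine ENNReal.tsum_le_tsum fun g => ?_
    rw [← mul_add, mul_left_comm]
    exact mul_le_mul' le_rfl (hi z g)
  have hlm : ∀ A : P × H → D.Γ → P × H → ℝ≥0∞,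
      (∀ g, Measurable fun q : (P × H) × (P × H) => A q.1 g q.2) →
      Measurable fun z => D.lp S z fun g => D.IM fun x => A z g x := by
    intro A hA
    unfold Dat.lp
    refine Measurable.tsum fun g => Measurable.mul ?_ (t1 _ (hA g)).2
    exact (measurable_const.indicator hS).comp (Continuous.measurable (by fun_prop))
  calc (D.IM fun z => D.lp S z fun g => D.IM fun x => A0 z g x)
      ≤ D.IM fun z => C * ((D.lp S z fun g => D.IM fun x => A1 z g x) +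
          D.lp S z fun g => D.IM fun x => A2 z g x) := t5 _ _ hl
    _ = C * D.IM fun z => ((D.lp S z fun g => D.IM fun x => A1 z g x) +
          D.lp S z fun g => D.IM fun x => A2 z g x) := t2 C _ ((hlm A1 h1).add (hlm A2 h2))
    _ = _ := by rw [t3 _ (fun z => D.lp S z fun g => D.IM fun x => A2 z g x)
          (hlm A1 h1)]

/-- Neighbourhoods for positive triples. -/
private lemma AA_tri (G : PG P) (hG : G.Ok) (x y z g : P) (h : G.Tri x y (g⁻¹ * z)) :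
    ∃ V ∈ 𝓝 (1 : P), ∀ a ∈ V, ∀ b ∈ V, ∀ c ∈ V, ∀ d ∈ V,
      G.Tri (a * x) (b * y) ((d * g)⁻¹ * (c * z)) := by
  have hcont : Continuous fun q : (P × P) × (P × P) =>
      (q.1.1 * x, q.1.2 * y, (q.2.2 * g)⁻¹ * (q.2.1 * z)) := by fun_prop
  have hn : (fun q : (P × P) × (P × P) =>
      (q.1.1 * x, q.1.2 * y, (q.2.2 * g)⁻¹ * (q.2.1 * z))) ⁻¹'
        {q : P × P × P | G.Tri q.1 q.2.1 q.2.2} ∈ 𝓝 (((1 : P), (1 : P)), ((1 : P), (1 : P))) := by
    apply (hG.To.preimage hcont).mem_nhds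
    change G.Tri (1 * x) (1 * y) ((1 * g)⁻¹ * (1 * z))
    rw [one_mul, one_mul, one_mul, one_mul]
    exact h
  rw [nhds_prod_eq, nhds_prod_eq] at hn
  obtain ⟨A, hA, B, hB, hAB⟩ := Filter.mem_prod_iff.1 hn
  obtain ⟨A1, hA1, A2, hA2, hA12⟩ := Filter.mem_prod_iff.1 hA
  obtain ⟨B1, hB1, B2, hB2, hB12⟩ := Filter.mem_prod_iff.1 hB
  refine ⟨(A1 ∩ A2) ∩ (B1 ∩ B2), Filter.inter_mem (Filter.inter_mem hA1 hA2)
    (Filter.inter_mem hB1 hB2), fun a ha b hb c hc d hd => ?_⟩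
  exact hAB (Set.mk_mem_prod (hA12 (Set.mk_mem_prod ha.1.1 hb.1.2))
    (hB12 (Set.mk_mem_prod hc.2.1 hd.2.2)))

/-- Neighbourhoods for positive triples. -/
private lemma AA_tri0 (G : PG P) (hG : G.Ok) (x y z : P) (h : G.Tri x y z) :
    ∃ V ∈ 𝓝 (1 : P), ∀ a ∈ V, ∀ b ∈ V, ∀ c ∈ V, G.Tri (a * x) (b * y) (c * z) := by
  obtain ⟨V, hV, hT⟩ := AA_tri P G hG x y z 1 (by rw [inv_one, one_mul]; exact h)
  refine ⟨V, hV, fun a ha b hb c hc => ?_⟩
  have h1 := hT a ha b hb c hc 1 (mem_of_mem_nhds hV)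
  rw [one_mul, inv_one, one_mul] at h1
  exact h1

/-- A small compact neighbourhood for the conditions of `S_Al`. -/
private lemma AA_nhd (G : PG P) (hG : G.Ok) (s t s₂ k l b gc : P) (h1 : G.Tri s t s₂)
    (h2 : G.Tri b l k) (h3 : G.Tri b l (gc⁻¹ * k)) :
    ∃ V ∈ 𝓝 (1 : P), ∀ U : Set P, U ⊆ V →
      (∀ x ∈ (wn U s k).S, ∀ y ∈ (wn U t l).S, ∀ z ∈ (wn U s₂ b).S, G.Tri x y z) ∧
      (∀ x ∈ (wn U s k).K, ∀ y ∈ (wn U t l).K, ∀ z ∈ (wn U s₂ b).K,
        G.Tri z y x ∧ ∀ g ∈ U * {gc}, G.Tri z y (g⁻¹ * x)) := by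
  obtain ⟨V1, hV1, H1⟩ := AA_tri0 P G hG s t s₂ h1
  obtain ⟨V2, hV2, H2⟩ := AA_tri0 P G hG b l k h2
  obtain ⟨V3, hV3, H3⟩ := AA_tri P G hG b l k gc h3
  refine ⟨V1 ∩ (V2 ∩ V3), Filter.inter_mem hV1 (Filter.inter_mem hV2 hV3), fun U hU => ⟨?_, ?_⟩⟩
  · rintro _ ⟨a, ha, _, rfl, rfl⟩ _ ⟨a', ha', _, rfl, rfl⟩ _ ⟨a'', ha'', _, rfl, rfl⟩
    exact H1 a (hU ha).1 a' (hU ha').1 a'' (hU ha'').1
  · rintro _ ⟨a, ha, _, rfl, rfl⟩ _ ⟨a', ha', _, rfl, rfl⟩ _ ⟨a'', ha'', _, rfl, rfl⟩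
    refine ⟨H2 a'' (hU ha'').2.1 a' (hU ha').2.1 a (hU ha).2.1, ?_⟩
    rintro _ ⟨e, he, _, rfl, rfl⟩
    exact H3 a'' (hU ha'').2.2 a' (hU ha').2.2 a (hU ha).2.2 e (hU he).2.2

private lemma AA_wn (U : Set P) (hU : IsCompact U) (h1 : (1 : P) ∈ U) (s k : P) :
    (wn U s k).Ok where
  cS := ⟨1, h1, s, rfl, one_mul s⟩
  Sc := hU.mul isCompact_singleton
  Kc := hU.mul isCompact_singleton

private lemma AA_mem (U : Set P) (hU : U ∈ 𝓝 (1 : P)) (s : P) : U * {s} ∈ 𝓝 s := by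
  rw [Set.mul_singleton]
  have h := (Homeomorph.mulRight s).isOpenMap.image_mem_nhds hU
  change (fun x => x * s) '' U ∈ 𝓝 (1 * s) at h
  rw [one_mul] at h
  exact h

/-- The estimate for one range. -/
private lemma AA_est (hegm : S_egm P H) (hton : S_ton P H) (D : Dat P H) (G : PG P)
    (hF : Fc D G) (Q : Set P) (hQ : IsCompact Q) (c : ℕ) (eu ev ev' e₂ : Ec P) (hu : eu.Ok)
    (hv : ev.Ok) (hv' : ev'.Ok) (h2 : e₂.Ok) (R T₀ : ℕ) (c₁ : ℝ≥0∞) (hc0 : 0 < c₁)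
    (hc1 : ∀ n, T₀ ≤ n → ∀ x y, c₁ ≤ D.N (D.ke G e₂ R n) x y) :
    ∃ C : ℝ≥0∞, C ≠ ∞ ∧ ∀ (n : ℕ), T₀ ≤ n → ∀ (i : Fin 3 → ℕ) (φ : D.Γ → P → ℝ), Adm D G φ →
      FA D G Q c eu ev ev' R i φ ≤ C * (FA D G Q c eu ev e₂ R ![i 0, i 1, n] φ +
        FA D G Q c eu ev' e₂ R ![i 0, i 2, n] φ) := by
  obtain ⟨_, _, _, hcount, _⟩ := tinst P H D hF.ok
  obtain ⟨C2, hC2, hN2⟩ := hF.up ev.S ev.K hv.Sc hv.Kc R
  obtain ⟨C3, hC3, hN3⟩ := hF.up ev'.S ev'.K hv'.Sc hv'.Kc R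
  obtain ⟨g1, _, g3, _⟩ := hegm D G hF.ok hF.gok
  have hmin0 : min c₁ 1 ≠ 0 := (lt_min hc0 one_pos).ne'
  have hmint : min c₁ 1 ≠ ∞ := ne_top_of_le_ne_top ENNReal.one_ne_top (min_le_right _ _)
  refine ⟨(min c₁ 1)⁻¹ * (C2 + C3), ENNReal.mul_ne_top (ENNReal.inv_ne_top.2 hmin0)
    (ENNReal.add_ne_top.2 ⟨hC2, hC3⟩), fun n hn i φ hφ => ?_⟩
  have hS : MeasurableSet (Q ×ˢ (D.O ^ c)) := by
    refine hQ.isClosed.measurableSet.prod ?_
    rcases Nat.eq_zero_or_pos c with rfl | hc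
    · rw [pow_zero]
      exact isClosed_singleton.measurableSet
    · exact ((tO P H D hF.ok).1 c hc).measurableSet
  refine AA_int P H hton D hF.ok hcount _ hS _ _ _ _
    (fun g => AA_meas P H D hcount _ _ _ (g1 _ _ hu.Sc hu.Kc R _) (g1 _ _ hv.Sc hv.Kc R _)
      (g1 _ _ h2.Sc h2.Kc R _) (fun x u v => Dg G φ eu.c x g u v) (fun u v => g3 φ hφ _ g u v))
    (fun g => AA_meas P H D hcount _ _ _ (g1 _ _ hu.Sc hu.Kc R _) (g1 _ _ hv'.Sc hv'.Kc R _)
      (g1 _ _ h2.Sc h2.Kc R _) (fun x u v => Dg G φ eu.c x g u v) (fun u v => g3 φ hφ _ g u v)) ?_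
  intro z g x
  have key := AA_sum (fun u : D.Γ => D.ke G eu R (i 0) (x⁻¹ * (u : P × H) * z))
    (fun u : D.Γ => D.ke G ev R (i 1) (x⁻¹ * (u : P × H) * z))
    (fun u : D.Γ => D.ke G ev' R (i 2) (x⁻¹ * (u : P × H) * z))
    (fun u : D.Γ => D.ke G e₂ R n (x⁻¹ * (u : P × H) * z))
    (fun u v => Dg G φ eu.c x g u v) (min c₁ 1) C2 C3 ((min_le_left _ _).trans (hc1 n hn x z))
    (hN2 _ x z) (hN3 _ x z)
  have h3 : (min c₁ 1)⁻¹ * (min c₁ 1) = 1 := ENNReal.inv_mul_cancel hmin0 hmint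
  have hh : ∀ a b : ℝ≥0∞, min c₁ 1 * a ≤ b → a ≤ (min c₁ 1)⁻¹ * b := fun a b hab => by
    calc a = (min c₁ 1)⁻¹ * (min c₁ 1 * a) := by rw [← mul_assoc, h3, one_mul]
      _ ≤ _ := mul_le_mul' le_rfl hab
  rw [mul_assoc]
  refine hh _ _ (key.trans ?_)
  rw [mul_add]
  exact add_le_add (mul_le_mul' (le_add_self) le_rfl) (mul_le_mul' (le_self_add) le_rfl)

theorem tAA : S_Al P H → S_CTs P H → S_egm P H → S_ton P H → S_AD P → S_AA P H := by
  intro hAl hCTs hegm hton _hAD D G hF gc c s t t' k l l' b h1 h2 h3 h4 h5 h6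
  have hG := hF.gok
  obtain ⟨c₀, hc₀⟩ := hG.NT {s⁻¹ * t, s⁻¹ * t'} (Set.toFinite _).isCompact (by
    intro x hx
    rcases hx with rfl | hx
    · rw [← hG.Pl s, mul_one, mul_inv_cancel_left]
      exact h1
    · rw [Set.mem_singleton_iff.1 hx, ← hG.Pl s, mul_one, mul_inv_cancel_left]
      exact h2)
  have hT1 : G.Tri s t (s * c₀) := by
    have h := (hG.Tl s _ _ _).2 (hc₀ (s⁻¹ * t) (Set.mem_insert _ _))
    rw [mul_one, mul_inv_cancel_left] at h
    exact hG.Tc _ _ _ h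
  have hT2 : G.Tri s t' (s * c₀) := by
    have h := (hG.Tl s _ _ _).2 (hc₀ (s⁻¹ * t') (Set.mem_insert_of_mem _ rfl))
    rw [mul_one, mul_inv_cancel_left] at h
    exact hG.Tc _ _ _ h
  obtain ⟨V1, hV1, A1⟩ := AA_nhd P G hG s t (s * c₀) k l b gc hT1 h3 h4
  obtain ⟨V2, hV2, A2⟩ := AA_nhd P G hG s t' (s * c₀) k l' b gc hT2 h5 h6
  obtain ⟨U, hU, hUV, hUc⟩ := local_compact_nhds (Filter.inter_mem hV1 hV2)
  have hU1 : (1 : P) ∈ U := mem_of_mem_nhds hU
  obtain ⟨a1, a2⟩ := A1 U (hUV.trans Set.inter_subset_left)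
  obtain ⟨b1, b2⟩ := A2 U (hUV.trans Set.inter_subset_right)
  have hQ : IsCompact (U * {gc}) := hUc.mul isCompact_singleton
  have o1 := AA_wn P U hUc hU1 s k
  have o2 := AA_wn P U hUc hU1 t l
  have o3 := AA_wn P U hUc hU1 t' l'
  have o4 := AA_wn P U hUc hU1 (s * c₀) b
  have C1 := hAl D G hF (U * {gc}) c (wn U s k) (wn U t l) (wn U (s * c₀) b) hQ o1 o2 o4 a1 a2
  have C2 := hAl D G hF (U * {gc}) c (wn U s k) (wn U t' l') (wn U (s * c₀) b) hQ o1 o3 o4 b1 b2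
  refine ⟨U, hU, hUc, ?_⟩
  have hanti : ∀ (T T' r : ℕ) (i : Fin 3 → ℕ), T ≤ T' → okL 3 T' r i → okL 3 T r i :=
    fun T T' r i hTT hi j => ⟨(hi j).1, (Nat.add_le_add_left hTT _).trans (hi j).2⟩
  refine hCTs D G hF.ok hG 0 Bool (fun _ => Fin 3 → ℕ) (fun _ => okL 3)
    (fun j => FA D G (U * {gc}) c (wn U s k) (cond j (wn U t l) (wn U t' l'))
      (wn U (s * c₀) b)) (Fin 3 → ℕ) (okL 3) _ 0 (fun _ => hanti) ?_ hanti ?_
  · intro j
    cases j
    · exact C2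
    · exact C1
  · intro R T
    obtain ⟨T₀, c₁, hc0, hc1⟩ := hF.lo (s * c₀) b (U * {s * c₀}) (AA_mem P U hU _) (U * {b})
      (AA_mem P U hU _)
    obtain ⟨C, hC, hest⟩ := AA_est P H hegm hton D G hF (U * {gc}) hQ c (wn U s k) (wn U t l)
      (wn U t' l') (wn U (s * c₀) b) o1 o2 o3 o4 R T₀ c₁ hc0 (fun n hn => hc1 R n hn)
    refine ⟨C, max T₀ T, hC, fun r hr i' hi' => ?_⟩
    have hr1 : T₀ ≤ r := (le_max_left _ _).trans hr
    have hr2 : T ≤ r := (le_max_right _ _).trans hr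
    have hi := hanti T _ r i' (le_max_right T₀ T) hi'
    have h2r : RG T r (2 * r) := ⟨by omega, by omega⟩
    refine ⟨fun j => cond j ![i' 0, i' 1, 2 * r] ![i' 0, i' 2, 2 * r], ?_, ?_⟩
    · intro j
      cases j
      · intro m
        fin_cases m
        · exact hi 0
        · exact hi 2
        · exact h2r
      · intro m
        fin_cases m
        · exact hi 0
        · exact hi 1
        · exact h2r
    · intro φ hφ
      refine (hest (2 * r) (by omega) i' φ hφ).trans ?_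
      rw [Fintype.sum_bool]
      exact le_rfl

end Pool.Agent.MPEF.U
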