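import Pool.Agent.Lib.MP_ef3f0f_gt.U.E.SpecA
import Pool.Agent.Lib.MP_ef3f0f_gt.U.Z.inst
import Pool.Agent.Lib.MP_ef3f0f_gt.U.Z.O

set_option autoImplicit false
set_option linter.unusedSectionVars false

/-!
# MP_ef3f0f_gt, Theorem U, Part E, module Al: change of `v` in the effect
-/

namespace Pool.Agent.MPEF.U

open MeasureTheory Topology
open scoped ENNReal Pointwise

variable (P H : Type) [Group P] [Group H] [TopologicalSpace P] [TopologicalSpace H]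
  [IsTopologicalGroup P] [IsTopologicalGroup H] [LocallyCompactSpace P] [LocallyCompactSpace H]
  [T2Space P] [T2Space H] [SecondCountableTopology P] [SecondCountableTopology H]
  [MeasurableSpace P] [MeasurableSpace H] [BorelSpace P] [BorelSpace H]

theorem Al_ab (a b : ℝ) : ab (a - b) ≤ ab a + ab b := by
  unfold ab
  rw [← ENNReal.ofReal_add (abs_nonneg a) (abs_nonneg b)]
  exact ENNReal.ofReal_le_ofReal (abs_sub a b)

theorem Al_abm {α : Type} [MeasurableSpace α] {f : α → ℝ} (hf : Measurable f) :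
    Measurable fun x => ab (f x) := by
  unfold ab
  exact (hf.norm).ennreal_ofReal

/-- Measurability of the sum over three edges. -/
theorem Al_st (D : Dat P H) (hD : D.Ok) (K₀ K₁ K₂ : P × H → ℝ≥0∞) (h₀ : Measurable K₀)
    (h₁ : Measurable K₁) (h₂ : Measurable K₂) (B : D.Γ → D.Γ → D.Γ → P × H → ℝ≥0∞)
    (hB : ∀ u v w, Measurable (B u v w)) :
    Measurable fun q : (P × H) × (P × H) => D.st3 K₀ K₁ K₂ q.2 q.1 fun u v w => B u v w q.2 := by
  have hc : Countable D.Γ := (tinst P H D hD).2.2.2.1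
  have hm : ∀ u : D.Γ, Measurable fun q : (P × H) × (P × H) => q.2⁻¹ * (u : P × H) * q.1 := by
    intro u
    exact Continuous.measurable (by fun_prop)
  unfold Dat.st3
  refine Measurable.tsum fun u => Measurable.tsum fun v =>
    Measurable.tsum fun w => ?_
  exact (((h₀.comp (hm u)).mul (h₁.comp (hm v))).mul (h₂.comp (hm w))).mul
    ((hB u v w).comp measurable_snd)

/-- Measurability of the sum over the loops. -/
theorem Al_lp (hton : S_ton P H) (D : Dat P H) (hD : D.Ok) (S : Set (P × H)) (hS : MeasurableSet S)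
    (F : D.Γ → (P × H) × (P × H) → ℝ≥0∞) (hF : ∀ g, Measurable (F g)) :
    Measurable fun z => D.lp S z fun g => D.IM fun x => F g (z, x) := by
  have hc : Countable D.Γ := (tinst P H D hD).2.2.2.1
  have hm : ∀ g : D.Γ, Measurable fun z : P × H => z⁻¹ * (g : P × H) * z := by
    intro g
    exact Continuous.measurable (by fun_prop)
  unfold Dat.lp
  refine Measurable.tsum fun g => ?_
  exact (((measurable_const.indicator hS).comp (hm g))).mul ((hton D hD).1 _ (hF g)).2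

/-- Measurability of the set of loops. -/
theorem Al_S (D : Dat P H) (hD : D.Ok) (Q : Set P) (hQ : IsCompact Q) (c : ℕ) :
    MeasurableSet (Q ×ˢ (D.O ^ c)) := by
  refine hQ.measurableSet.prod ?_
  rcases Nat.eq_zero_or_pos c with h | h
  · subst h
    rw [pow_zero]
    exact measurableSet_singleton (1 : H)
  · exact ((tO P H D hD).1 c h).measurableSet

/-- Subadditivity of the functionals. -/
theorem Al_add (hton : S_ton P H) (D : Dat P H) (hD : D.Ok) (S : Set (P × H))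
    (hS : MeasurableSet S) (K₀ K₁ K₂ : P × H → ℝ≥0∞) (h₀ : Measurable K₀)
    (h₁ : Measurable K₁) (h₂ : Measurable K₂) (A B C : D.Γ → D.Γ → D.Γ → D.Γ → P × H → ℝ≥0∞)
    (hB : ∀ g u v w, Measurable (B g u v w))
    (hle : ∀ (z x : P × H) (g u v w : D.Γ), z⁻¹ * (g : P × H) * z ∈ S →
      K₀ (x⁻¹ * (u : P × H) * z) ≠ 0 → K₁ (x⁻¹ * (v : P × H) * z) ≠ 0 →
      K₂ (x⁻¹ * (w : P × H) * z) ≠ 0 → A g u v w x ≤ B g u v w x + C g u v w x) :
    (D.IM fun z => D.lp S z fun g => D.IM fun x => D.st3 K₀ K₁ K₂ x z fun u v w => A g u v w x) ≤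
      (D.IM fun z => D.lp S z fun g => D.IM fun x => D.st3 K₀ K₁ K₂ x z fun u v w => B g u v w x) +
      (D.IM fun z => D.lp S z fun g => D.IM fun x => D.st3 K₀ K₁ K₂ x z fun u v w => C g u v w x) := by
  obtain ⟨t1, t2, t3, t4, t5⟩ := hton D hD
  have mB := Al_lp P H hton D hD S hS (fun g q => D.st3 K₀ K₁ K₂ q.2 q.1 fun u v w => B g u v w q.2)
    (fun g => Al_st P H D hD K₀ K₁ K₂ h₀ h₁ h₂ (B g) (hB g))
  refine le_trans (t5 _ _ fun z => ?_) (le_of_eq (t3 _ _ mB))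
  unfold Dat.lp
  rw [← ENNReal.tsum_add]
  refine ENNReal.tsum_le_tsum fun g => ?_
  by_cases hg : z⁻¹ * (g : P × H) * z ∈ S
  · simp only [Set.indicator_of_mem hg, one_mul]
    have sB : Measurable fun x => D.st3 K₀ K₁ K₂ x z fun u v w => B g u v w x :=
      (Al_st P H D hD K₀ K₁ K₂ h₀ h₁ h₂ (B g) (hB g)).comp (measurable_const.prodMk measurable_id)
    refine le_trans (t5 _ _ fun x => ?_) (le_of_eq (t3 _ _ sB))
    unfold Dat.st3
    rw [← ENNReal.tsum_add]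
    refine ENNReal.tsum_le_tsum fun u => ?_
    rw [← ENNReal.tsum_add]
    refine ENNReal.tsum_le_tsum fun v => ?_
    rw [← ENNReal.tsum_add]
    refine ENNReal.tsum_le_tsum fun w => ?_
    rw [← mul_add]
    by_cases hK : K₀ (x⁻¹ * (u : P × H) * z) * K₁ (x⁻¹ * (v : P × H) * z) *
      K₂ (x⁻¹ * (w : P × H) * z) = 0
    · rw [hK, zero_mul, zero_mul]
    · have hK' := mul_ne_zero_iff.1 hK
      have hK'' := mul_ne_zero_iff.1 hK'.1
      gcongr
      exact hle z x g u v w hg hK''.1 hK''.2 hK'.2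
  · simp only [Set.indicator_of_notMem hg, zero_mul, add_zero, le_refl]

theorem Al_okL {T T' r : ℕ} {i : Fin 3 → ℕ} (h : T ≤ T') (hi : okL 3 T' r i) : okL 3 T r i := by
  intro j
  have := hi j
  unfold RG at this ⊢
  omega

/-- The support of the kernels. -/
theorem Al_supp (hAD : S_AD P) (D : Dat P H) (hD : D.Ok) (G : PG P) (hG : G.Ok) (R k : ℕ) :
    ∃ T : ℕ, ∀ n, T ≤ n → ∀ (e : Ec P) (g : P × H), D.ke G e R n g ≠ 0 → g.1 ∈ G.W e.S e.K k := by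
  have i1 := hD.haar₁
  have i2 := hD.right₁
  have i3 := hD.inv₁
  obtain ⟨T, hT⟩ := (hAD G D.μ₁ hG).2.2.2.1 R k
  refine ⟨T, fun n hn e g hg => hT n hn e.S e.K g.1 fun h0 => hg ?_⟩
  change eP D.μ₁ G e.S e.K R n g.1 * D.nu n g.2 = 0
  rw [h0, zero_mul]

theorem Al_ne {G : PG P} {S K : Set P} {k : ℕ} {g : P} (h : g ∈ G.W S K k) : K.Nonempty := by
  obtain ⟨s, _, t, _, q, hq, _⟩ := h
  exact ⟨q⁻¹ * G.w, hq⟩

theorem Al_P2 {G : PG P} (hG : G.Ok) {x y z : P} (h : G.Tri x y z) : G.Pos y z :=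
  hG.TP _ _ _ (hG.Tc _ _ _ h)

theorem Al_P3 {G : PG P} (hG : G.Ok) {x y z : P} (h : G.Tri x y z) : G.Pos z x :=
  hG.TP _ _ _ (hG.Tc _ _ _ (hG.Tc _ _ _ h))

/-- The windows of `u g`. -/
theorem Al_W {G : PG P} (hG : G.Ok) (hWr : S_Wr P) (Q : Set P) {S K : Set P} {k : ℕ} {g q : P}
    (hg : g ∈ G.W S K k) (hq : q ∈ Q) : g * q ∈ G.W S (Q⁻¹ * K) k := by
  obtain ⟨_, w2, _, w4⟩ := hWr G hG
  refine w2 S _ S (Q⁻¹ * K) k k (le_refl _) ?_ (le_refl _) (w4 S K k q g hg)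
  exact Set.mul_subset_mul_right (Set.singleton_subset_iff.2 (Set.inv_mem_inv.2 hq))

/-- Reversal for the pair of edges `(u, v)`. -/
theorem Al_rev (hphP : S_phP P H) (D : Dat P H) (G : PG P) (hG : G.Ok) (hF : G.OkF)
    (S₁ K₁ S₂ K₂ : Set P) (h1 : IsCompact S₁) (h2 : IsCompact K₁) (h3 : IsCompact S₂)
    (h4 : IsCompact K₂) (c c' : P) (hc : c ∈ S₁) (hc' : c' ∈ S₂)
    (hS : ∀ s ∈ S₁, ∀ s' ∈ S₂, G.Pos s s') (p : Prop)
    (hK : p → ∀ κ ∈ K₁, ∀ κ' ∈ K₂, G.Pos κ κ') :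
    ∃ k : ℕ, ∀ (x y : P × H) (u v : D.Γ),
      (x⁻¹ * (u : P × H) * y).1 ∈ G.W S₁ K₁ k → (x⁻¹ * (v : P × H) * y).1 ∈ G.W S₂ K₂ k → p →
      ∀ φ : D.Γ → P → ℝ, Adm D G φ →
        ph G φ (v * u⁻¹) (x.1 * c') = - ph G φ (u * v⁻¹) (x.1 * c) := by
  by_cases hp : p
  · obtain ⟨k, hk⟩ := hphP D G hG hF S₁ K₁ S₂ K₂ h1 h2 h3 h4 hS (hK hp)
    exact ⟨k, fun x y u v hu hv _ φ hφ => (hk x y u v hu hv φ hφ c hc c' hc').2⟩
  · exact ⟨0, fun x y u v _ _ h => absurd h hp⟩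

theorem tAl : S_TBd P H → S_phP P H → S_CTs P H → S_AD P → S_Wr P → S_egm P H → S_ton P H →
    S_Al P H := by
  intro hTBd hphP hCTs hAD hWr hegm hton D G hFc Q c eu ev ev' hQ heu hev hev' hT1 hT2
  have hD := hFc.ok
  have hG := hFc.gok
  have hGF := hFc.gf
  -- the reversals
  have hS13 : ∀ s ∈ eu.S, ∀ s' ∈ ev'.S, G.Pos s s' := fun s hs s' hs' =>
    (hG.Ps _ _).1 (Al_P3 P hG (hT1 s hs ev.c hev.cS s' hs'))
  obtain ⟨k1, hk1⟩ := Al_rev P H hphP D G hG hGF eu.S eu.K ev'.S ev'.K heu.Sc heu.Kc hev'.Sc hev'.Kc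
    eu.c ev'.c heu.cS hev'.cS hS13 ev.K.Nonempty (fun ⟨k', hk'⟩ κ hκ κ' hκ' =>
      Al_P3 P hG (hT2 κ hκ k' hk' κ' hκ').1)
  have hQK : IsCompact (Q⁻¹ * eu.K) := hQ.inv.mul heu.Kc
  obtain ⟨k2, hk2⟩ := Al_rev P H hphP D G hG hGF eu.S (Q⁻¹ * eu.K) ev'.S ev'.K heu.Sc hQK hev'.Sc
    hev'.Kc eu.c ev'.c heu.cS hev'.cS hS13 ev.K.Nonempty (fun ⟨k', hk'⟩ κ hκ κ' hκ' => by
      obtain ⟨q, hq, κ₀, hκ₀, rfl⟩ := hκ
      have h := (hT2 κ₀ hκ₀ k' hk' κ' hκ').2 q⁻¹ hq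
      rw [inv_inv] at h
      exact Al_P3 P hG h)
  set k := max k1 k2 with hk
  obtain ⟨_, w2, _, _⟩ := hWr G hG
  refine hCTs D G hD hG 0 Bool (fun _ => Fin 3 → ℕ) (fun _ => okL 3)
    (fun b => FT D G Q c (if b then ![true, false, false] else ![false, false, false])
      ![eu, ev, ev']) (Fin 3 → ℕ) (okL 3) (FA D G Q c eu ev ev') 0
    (fun _ T T' r i h hi => Al_okL h hi) ?_ (fun T T' r i h hi => Al_okL h hi) ?_
  · intro b
    have hok : ∀ i, ((![eu, ev, ev'] : Fin 3 → Ec P) i).Ok := by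
      intro i
      fin_cases i
      · exact heu
      · exact hev
      · exact hev'
    cases b with
    | true =>
      refine hTBd D G hD hG Q c _ _ hQ hok hT1 ?_
      intro k₀ hk₀ k₁ hk₁ k₂ hk₂ g₀ hg₀ g₁ _ g₂ _
      exact (hT2 k₀ hk₀ k₁ hk₁ k₂ hk₂).2 g₀ hg₀
    | false =>
      refine hTBd D G hD hG Q c _ _ hQ hok hT1 ?_
      intro k₀ hk₀ k₁ hk₁ k₂ hk₂ g₀ hg₀ g₁ _ g₂ _
      exact (hT2 k₀ hk₀ k₁ hk₁ k₂ hk₂).1
  · intro R T
    obtain ⟨T0, hT0⟩ := Al_supp P H hAD D hD G hG R k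
    refine ⟨1, max T T0, ENNReal.one_ne_top, fun r hr i hi => ⟨fun _ => i,
      fun _ => Al_okL (le_max_left _ _) hi, fun φ hφ => ?_⟩⟩
    have hlen : ∀ j, T0 ≤ i j := fun j =>
      le_trans (le_trans (le_max_right _ _) hr) (hi j).1
    rw [one_mul, Fintype.sum_bool]
    obtain ⟨e1, _, _, e4⟩ := hegm D G hD hG
    refine Al_add P H hton D hD _ (Al_S P H D hD Q hQ c) (D.ke G eu R (i 0)) (D.ke G ev R (i 1))
      (D.ke G ev' R (i 2)) (e1 _ _ heu.Sc heu.Kc _ _) (e1 _ _ hev.Sc hev.Kc _ _)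
      (e1 _ _ hev'.Sc hev'.Kc _ _)
      (fun g u v v' x => ab (Dg G φ eu.c x g u v - Dg G φ eu.c x g u v'))
      (fun g u v v' x => ab (dl G φ eu.c ev.c ev'.c x (u * g) v v'))
      (fun g u v v' x => ab (dl G φ eu.c ev.c ev'.c x u v v'))
      (fun g u v w => Al_abm (e4 φ hφ _ _ _ _ _ _)) ?_
    intro z x g u v v' hg hu hv hv'
    have hu' := hT0 _ (hlen 0) eu _ hu
    have hv1 := hT0 _ (hlen 1) ev _ hv
    have hv2 := hT0 _ (hlen 2) ev' _ hv'
    have hne : ev.K.Nonempty := Al_ne P hv1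
    have hgQ : (z⁻¹ * (g : P × H) * z).1 ∈ Q := hg.1
    have r1 := hk1 x z u v' (w2 _ _ _ _ k1 k (le_refl _) (le_refl _) (le_max_left _ _) hu')
      (w2 _ _ _ _ k1 k (le_refl _) (le_refl _) (le_max_left _ _) hv2) hne φ hφ
    have hug : (x⁻¹ * ((u * g : D.Γ) : P × H) * z).1 ∈ G.W eu.S (Q⁻¹ * eu.K) k := by
      have h1 : x⁻¹ * ((u * g : D.Γ) : P × H) * z =
          (x⁻¹ * (u : P × H) * z) * (z⁻¹ * (g : P × H) * z) := by
        rw [Subgroup.coe_mul]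
        group
      rw [h1]
      exact Al_W P hG hWr Q hu' hgQ
    have r2 := hk2 x z (u * g) v' (w2 _ _ _ _ k2 k (le_refl _) (le_refl _) (le_max_right _ _) hug)
      (w2 _ _ _ _ k2 k (le_refl _) (le_refl _) (le_max_right _ _) hv2) hne φ hφ
    have h2 : Dg G φ eu.c x g u v - Dg G φ eu.c x g u v' =
        dl G φ eu.c ev.c ev'.c x (u * g) v v' - dl G φ eu.c ev.c ev'.c x u v v' := by
      unfold Dg dl
      rw [r1, r2]
      ring
    change ab (Dg G φ eu.c x g u v - Dg G φ eu.c x g u v') ≤ _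
    rw [h2]
    exact Al_ab _ _

end Pool.Agent.MPEF.U
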