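import Pool.Agent.Lib.MP_ef3f0f_gt.U.E.SpecA

set_option autoImplicit false
set_option linter.unusedSectionVars false

/-! MP_ef3f0f_gt, Theorem U, Part E, module BB: change of u between germs which are not ordered. -/

namespace Pool.Agent.MPEF.U

open MeasureTheory Topology
open scoped ENNReal Pointwise

variable (P H : Type) [Group P] [Group H] [TopologicalSpace P] [TopologicalSpace H]
  [IsTopologicalGroup P] [IsTopologicalGroup H] [LocallyCompactSpace P] [LocallyCompactSpace H]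
  [T2Space P] [T2Space H] [SecondCountableTopology P] [SecondCountableTopology H]
  [MeasurableSpace P] [MeasurableSpace H] [BorelSpace P] [BorelSpace H]

private theorem BB_nhds (W : Set (P × P × P × P × P)) (hW : W ∈ 𝓝 (1, 1, 1, 1, 1)) :
    ∃ U ∈ 𝓝 (1 : P), ∀ a ∈ U, ∀ b ∈ U, ∀ c ∈ U, ∀ d ∈ U, ∀ e ∈ U, (a, b, c, d, e) ∈ W := by
  obtain ⟨A₁, h₁, B₁, k₁, j₁⟩ := mem_nhds_prod_iff.1 hW
  obtain ⟨A₂, h₂, B₂, k₂, j₂⟩ := mem_nhds_prod_iff.1 k₁
  obtain ⟨A₃, h₃, B₃, k₃, j₃⟩ := mem_nhds_prod_iff.1 k₂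
  obtain ⟨A₄, h₄, B₄, k₄, j₄⟩ := mem_nhds_prod_iff.1 k₃
  refine ⟨A₁ ∩ (A₂ ∩ (A₃ ∩ (A₄ ∩ B₄))), Filter.inter_mem h₁ (Filter.inter_mem h₂
    (Filter.inter_mem h₃ (Filter.inter_mem h₄ k₄))), ?_⟩
  intro a ha b hb c hc d hd e he
  exact j₁ ⟨ha.1, j₂ ⟨hb.2.1, j₃ ⟨hc.2.2.1, j₄ ⟨hd.2.2.2.1, he.2.2.2.2⟩⟩⟩⟩

private theorem BB_U (G : PG P) (hG : G.Ok) (gc s s₁ t k a l : P) (h0 : G.Tri s s₁ t)
    (h1 : G.Tri l a k) (h2 : G.Tri l (gc⁻¹ * a) (gc⁻¹ * k)) :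
    ∃ U ∈ 𝓝 (1 : P), ∀ a₁ ∈ U, ∀ a₂ ∈ U, ∀ a₃ ∈ U, ∀ a₄ ∈ U, ∀ a₅ ∈ U,
      G.Tri (a₁ * s) (a₂ * s₁) (a₃ * t) ∧ G.Tri (a₃ * l) (a₂ * a) (a₁ * k) ∧
        G.Tri (a₃ * l) ((a₄ * gc)⁻¹ * (a₂ * a)) ((a₅ * gc)⁻¹ * (a₁ * k)) := by
  have e1 : ∀ᶠ p : P × P × P × P × P in 𝓝 (1, 1, 1, 1, 1),
      G.Tri (p.1 * s) (p.2.1 * s₁) (p.2.2.1 * t) := by
    have hc : Continuous fun p : P × P × P × P × P =>
        ((p.1 * s, p.2.1 * s₁, p.2.2.1 * t) : P × P × P) := by fun_prop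
    refine hc.continuousAt.eventually (hG.To.mem_nhds ?_)
    show G.Tri (1 * s) (1 * s₁) (1 * t)
    rw [one_mul, one_mul, one_mul]
    exact h0
  have e2 : ∀ᶠ p : P × P × P × P × P in 𝓝 (1, 1, 1, 1, 1),
      G.Tri (p.2.2.1 * l) (p.2.1 * a) (p.1 * k) := by
    have hc : Continuous fun p : P × P × P × P × P =>
        ((p.2.2.1 * l, p.2.1 * a, p.1 * k) : P × P × P) := by fun_prop
    refine hc.continuousAt.eventually (hG.To.mem_nhds ?_)
    show G.Tri (1 * l) (1 * a) (1 * k)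
    rw [one_mul, one_mul, one_mul]
    exact h1
  have e3 : ∀ᶠ p : P × P × P × P × P in 𝓝 (1, 1, 1, 1, 1),
      G.Tri (p.2.2.1 * l) ((p.2.2.2.1 * gc)⁻¹ * (p.2.1 * a))
        ((p.2.2.2.2 * gc)⁻¹ * (p.1 * k)) := by
    have hc : Continuous fun p : P × P × P × P × P =>
        ((p.2.2.1 * l, (p.2.2.2.1 * gc)⁻¹ * (p.2.1 * a),
          (p.2.2.2.2 * gc)⁻¹ * (p.1 * k)) : P × P × P) := by fun_prop
    refine hc.continuousAt.eventually (hG.To.mem_nhds ?_)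
    show G.Tri (1 * l) ((1 * gc)⁻¹ * (1 * a)) ((1 * gc)⁻¹ * (1 * k))
    simp only [one_mul]
    exact h2
  obtain ⟨U, hU, h⟩ := BB_nhds P _ (e1.and (e2.and e3))
  exact ⟨U, hU, fun a₁ h₁ a₂ h₂ a₃ h₃ a₄ h₄ a₅ h₅ => h a₁ h₁ a₂ h₂ a₃ h₃ a₄ h₄ a₅ h₅⟩

private theorem BB_mS (D : Dat P H) (hD : D.Ok) (Q : Set P) (hQ : IsCompact Q) (c : ℕ) :
    MeasurableSet (Q ×ˢ (D.O ^ c)) := by
  refine hQ.measurableSet.prod ?_
  have hO : IsOpen D.O := isOpen_lt continuous_const hD.νc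
  cases c with
  | zero =>
    rw [pow_zero]
    exact (isClosed_singleton (x := (1 : H))).measurableSet
  | succ n =>
    rw [pow_succ]
    exact hO.mul_left.measurableSet

/-- Linearity of the outer integrals. -/
private theorem BB_lin (hton : S_ton P H) (D : Dat P H) (hD : D.Ok) (hcount : Countable D.Γ)
    (S : Set (P × H))
    (hS : MeasurableSet S) (c₁ c₂ : ℝ≥0∞) (h₁ : c₁ ≠ ∞) (h₂ : c₂ ≠ ∞)
    (F F₁ F₂ : P × H → D.Γ → P × H → ℝ≥0∞)
    (hF : ∀ z g x, F z g x ≤ c₁ * F₁ z g x + c₂ * F₂ z g x)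
    (hm : ∀ g, Measurable fun q : (P × H) × (P × H) => F₁ q.1 g q.2) :
    (D.IM fun z => D.lp S z fun g => D.IM fun x => F z g x) ≤
      c₁ * (D.IM fun z => D.lp S z fun g => D.IM fun x => F₁ z g x) +
      c₂ * (D.IM fun z => D.lp S z fun g => D.IM fun x => F₂ z g x) := by
  have hcm : ∀ (r : ℝ≥0∞), r ≠ ∞ → ∀ f : P × H → ℝ≥0∞, (D.IM fun x => r * f x) = r * D.IM f := by
    intro r hr f
    unfold Dat.IM
    rw [← lintegral_const_mul' _ _ hr]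
    refine lintegral_congr fun x => ?_
    ring
  have hadd : ∀ f g : P × H → ℝ≥0∞, Measurable f →
      (D.IM fun x => f x + g x) = D.IM f + D.IM g := by
    intro f g hf
    unfold Dat.IM
    have h := lintegral_add_left (μ := D.μ) (f := fun x => D.χ x * f x) (hD.χm.mul hf)
      (fun x => D.χ x * g x)
    rw [← h]
    refine lintegral_congr fun x => ?_
    ring
  have hmono : ∀ f g : P × H → ℝ≥0∞, (∀ x, f x ≤ g x) → D.IM f ≤ D.IM g := by
    intro f g hfg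
    unfold Dat.IM
    exact lintegral_mono fun x => mul_le_mul_right (hfg x) _
  have hi : ∀ g, Measurable fun z => D.IM fun x => F₁ z g x := fun g =>
    (((hton D hD).1 _ (hm g)).2)
  have hi1 : ∀ z g, Measurable fun x => F₁ z g x := fun z g =>
    (hm g).comp (measurable_prodMk_left)
  rw [← hcm c₁ h₁, ← hcm c₂ h₂, ← hadd]
  · refine hmono _ _ fun z => ?_
    unfold Dat.lp
    rw [← ENNReal.tsum_mul_left, ← ENNReal.tsum_mul_left, ← ENNReal.tsum_add]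
    refine ENNReal.tsum_le_tsum fun g => ?_
    have h5 : (D.IM fun x => F z g x) ≤
        c₁ * (D.IM fun x => F₁ z g x) + c₂ * D.IM fun x => F₂ z g x := by
      rw [← hcm c₁ h₁, ← hcm c₂ h₂, ← hadd _ _ ((hi1 z g).const_mul _)]
      exact hmono _ _ (hF z g)
    refine le_trans (mul_le_mul_right h5 _) (le_of_eq ?_)
    ring
  · refine Measurable.const_mul ?_ _
    unfold Dat.lp
    refine Measurable.tsum fun g => ?_
    refine Measurable.mul ?_ (hi g)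
    have hc : Measurable fun z : P × H => z⁻¹ * (g : P × H) * z := by fun_prop
    exact (measurable_const.indicator hS).comp hc

private theorem BB_core {Γ : Type} (p q r k : Γ → ℝ≥0∞) (A B E : Γ → Γ → ℝ)
    (a₀ C₁ C₂ : ℝ≥0∞) (h1 : ∑' u, p u ≤ C₁) (h2 : ∑' u, q u ≤ C₂) (h3 : a₀ ≤ ∑' w, k w) :
    a₀ * ∑' u, ∑' u', ∑' v, p u * q u' * r v * ab (A u v - B u' v) ≤
      C₂ * (∑' u, ∑' w, ∑' v, p u * k w * r v * ab (A u v - E w v)) +
      C₁ * ∑' u', ∑' w, ∑' v, q u' * k w * r v * ab (B u' v - E w v) := by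
  have htri : ∀ x y z : ℝ, ab (x - y) ≤ ab (x - z) + ab (y - z) := by
    intro x y z
    unfold ab
    rw [← ENNReal.ofReal_add (abs_nonneg _) (abs_nonneg _)]
    refine ENNReal.ofReal_le_ofReal ?_
    have h : x - y = (x - z) - (y - z) := by ring
    rw [h]
    exact abs_sub _ _
  calc a₀ * ∑' u, ∑' u', ∑' v, p u * q u' * r v * ab (A u v - B u' v)
      ≤ ∑' u, ∑' u', ∑' v, ∑' w, (p u * k w * r v * ab (A u v - E w v) * q u' +
          q u' * k w * r v * ab (B u' v - E w v) * p u) := by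
        rw [← ENNReal.tsum_mul_left]
        refine ENNReal.tsum_le_tsum fun u => ?_
        rw [← ENNReal.tsum_mul_left]
        refine ENNReal.tsum_le_tsum fun u' => ?_
        rw [← ENNReal.tsum_mul_left]
        refine ENNReal.tsum_le_tsum fun v => ?_
        refine le_trans (mul_le_mul_left h3 _) ?_
        rw [← ENNReal.tsum_mul_right]
        refine ENNReal.tsum_le_tsum fun w => ?_
        calc k w * (p u * q u' * r v * ab (A u v - B u' v))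
            ≤ k w * (p u * q u' * r v * (ab (A u v - E w v) + ab (B u' v - E w v))) :=
              mul_le_mul_right (mul_le_mul_right (htri _ _ _) _) _
          _ = p u * k w * r v * ab (A u v - E w v) * q u' +
              q u' * k w * r v * ab (B u' v - E w v) * p u := by ring
    _ = (∑' u, ∑' u', ∑' v, ∑' w, p u * k w * r v * ab (A u v - E w v) * q u') +
          ∑' u, ∑' u', ∑' v, ∑' w, q u' * k w * r v * ab (B u' v - E w v) * p u := by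
        simp_rw [ENNReal.tsum_add]
    _ = (∑' u', q u') * (∑' u, ∑' w, ∑' v, p u * k w * r v * ab (A u v - E w v)) +
          (∑' u, p u) * ∑' u', ∑' w, ∑' v, q u' * k w * r v * ab (B u' v - E w v) := by
        congr 1
        · rw [← ENNReal.tsum_mul_left]
          refine tsum_congr fun u => ?_
          rw [← ENNReal.tsum_mul_right]
          refine tsum_congr fun u' => ?_
          rw [ENNReal.tsum_comm, ← ENNReal.tsum_mul_left]
          refine tsum_congr fun w => ?_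
          rw [← ENNReal.tsum_mul_left]
          refine tsum_congr fun v => ?_
          ring
        · rw [ENNReal.tsum_comm, ← ENNReal.tsum_mul_left]
          refine tsum_congr fun u' => ?_
          rw [← ENNReal.tsum_mul_right]
          refine tsum_congr fun u => ?_
          rw [ENNReal.tsum_comm, ← ENNReal.tsum_mul_left]
          refine tsum_congr fun w => ?_
          rw [← ENNReal.tsum_mul_left]
          refine tsum_congr fun v => ?_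
          ring
    _ ≤ C₂ * (∑' u, ∑' w, ∑' v, p u * k w * r v * ab (A u v - E w v)) +
      C₁ * ∑' u', ∑' w, ∑' v, q u' * k w * r v * ab (B u' v - E w v) :=
        add_le_add (mul_le_mul_left h2 _) (mul_le_mul_left h1 _)

private theorem BB_meas (hMQ : S_MQ P H) (D : Dat P H) (hD : D.Ok) (G : PG P)
    (φ : D.Γ → P → ℝ) (hDm : ∀ (c : P) (g u v : D.Γ), Measurable fun x : P × H => Dg G φ c x g u v)
    (K₁ K₂ K₃ : P × H → ℝ≥0∞) (h₁ : Measurable K₁) (h₂ : Measurable K₂) (h₃ : Measurable K₃)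
    (s s' : P) (g : D.Γ) :
    Measurable fun q : (P × H) × (P × H) => D.st3 K₁ K₂ K₃ q.2 q.1
      (fun u w v => ab (Dg G φ s q.2 g u v - Dg G φ s' q.2 g w v)) := by
  obtain ⟨f, hf⟩ : ∃ f : P × H → D.Γ → D.Γ → D.Γ → ℝ≥0∞,
      f = fun x u w v => ab (Dg G φ s x g u v - Dg G φ s' x g w v) := ⟨_, rfl⟩
  have hfm : ∀ u w v, Measurable fun x => f x u w v := by
    intro u w v
    rw [hf]
    have h6 := (hDm s g u v).sub (hDm s' g w v)
    exact ENNReal.measurable_ofReal.comp (continuous_abs.measurable.comp h6)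
  have h5 : Measurable fun q : (P × H) × (P × H) => D.st3 K₁ K₂ K₃ q.1 q.2 (f q.1) :=
    ((hMQ D hD K₁ K₂ K₃ h₁ h₂ h₃).2.2 f hfm).1
  have hsw : Measurable (Prod.swap : (P × H) × (P × H) → (P × H) × (P × H)) := measurable_swap
  have h7 := h5.comp hsw
  rw [hf] at h7
  exact h7

theorem tBB : S_Be P H → S_CTs P H → S_egm P H → S_ton P H → S_AD P → S_inst P H → S_MQ P H →
    S_BB P H := by
  intro hBe hCTs hegm hton _hAD hinst hMQ D G hFc gc c s s' t k k' l a hst hst' h1 h2 h1' h2'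
  have hG := hFc.gok
  have hD := hFc.ok
  obtain ⟨-, -, -, hcount, -⟩ := hinst D hD
  obtain ⟨c₀, hc₀⟩ := hG.NT {t⁻¹ * s, t⁻¹ * s'} (Set.toFinite _).isCompact (by
    intro κ hκ
    have h3 : ∀ σ, G.Pos σ t → G.Pos 1 (t⁻¹ * σ) := by
      intro σ hσ
      have h4 := (hG.Pl t⁻¹ t σ).2 ((hG.Ps σ t).1 hσ)
      rwa [inv_mul_cancel] at h4
    rcases hκ with rfl | hκ
    · exact h3 s hst
    · rw [Set.mem_singleton_iff.1 hκ]
      exact h3 s' hst')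
  have hT : ∀ σ, t⁻¹ * σ ∈ ({t⁻¹ * s, t⁻¹ * s'} : Set P) → G.Tri σ (t * c₀) t := by
    intro σ hσ
    have h3 := (hG.Tl t _ _ _).2 (hc₀ _ hσ)
    rw [mul_one, mul_inv_cancel_left] at h3
    exact hG.Tc _ _ _ (hG.Tc _ _ _ h3)
  obtain ⟨U₁, hU₁, hU₁'⟩ := BB_U P G hG gc s (t * c₀) t k a l (hT s (Or.inl rfl)) h1 h2
  obtain ⟨U₂, hU₂, hU₂'⟩ := BB_U P G hG gc s' (t * c₀) t k' a l (hT s' (Or.inr rfl)) h1' h2'
  obtain ⟨s₁, hs₁⟩ : ∃ s₁, s₁ = t * c₀ := ⟨_, rfl⟩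
  rw [← hs₁] at hU₁' hU₂'
  obtain ⟨U, hU, hUs, hUc⟩ := local_compact_nhds (Filter.inter_mem hU₁ hU₂)
  refine ⟨U, hU, hUc, ?_⟩
  have hwc : ∀ x : P, IsCompact (U * {x}) := fun x => hUc.mul isCompact_singleton
  have hwn : ∀ x : P, U * {x} ∈ 𝓝 x := by
    intro x
    rw [Set.mul_singleton]
    have h := (Homeomorph.mulRight x).isOpenMap.image_mem_nhds hU
    have e : (Homeomorph.mulRight x) 1 = x := one_mul _
    rw [e] at h
    exact h
  have hOk : ∀ x y : P, (wn U x y).Ok := fun x y =>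
    ⟨mem_of_mem_nhds (hwn x), hwc x, hwc y⟩
  have hb : ∀ σ κ : P, (∀ a₁ ∈ U, ∀ a₂ ∈ U, ∀ a₃ ∈ U, ∀ a₄ ∈ U, ∀ a₅ ∈ U,
      G.Tri (a₁ * σ) (a₂ * s₁) (a₃ * t) ∧ G.Tri (a₃ * l) (a₂ * a) (a₁ * κ) ∧
        G.Tri (a₃ * l) ((a₄ * gc)⁻¹ * (a₂ * a)) ((a₅ * gc)⁻¹ * (a₁ * κ))) →
      CT D G 0 (okL 3) (FB D G (U * {gc}) c (wn U σ κ) (wn U s₁ a) (wn U t l)) := by
    intro σ κ h
    have w1 : ∀ s ∈ (wn U σ κ).S, ∀ s' ∈ (wn U s₁ a).S, ∀ s'' ∈ (wn U t l).S,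
        G.Tri s s' s'' := by
      rintro _ ⟨x, hx, _, rfl, rfl⟩ _ ⟨y, hy, _, rfl, rfl⟩ _ ⟨z, hz, _, rfl, rfl⟩
      exact (h x hx y hy z hz x hx x hx).1
    have w2 : ∀ k ∈ (wn U σ κ).K, ∀ k' ∈ (wn U s₁ a).K, ∀ k'' ∈ (wn U t l).K,
        G.Tri k'' k' k ∧ ∀ g ∈ U * {gc}, ∀ g' ∈ U * {gc}, G.Tri k'' (g'⁻¹ * k') (g⁻¹ * k) := by
      rintro _ ⟨x, hx, _, rfl, rfl⟩ _ ⟨y, hy, _, rfl, rfl⟩ _ ⟨z, hz, _, rfl, rfl⟩
      refine ⟨(h x hx y hy z hz x hx x hx).2.1, ?_⟩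
      rintro _ ⟨g, hg, _, rfl, rfl⟩ _ ⟨g', hg', _, rfl, rfl⟩
      exact (h x hx y hy z hz g' hg' g hg).2.2
    have w3 := hBe D G hFc (U * {gc} : Set P) c (wn U σ κ) (wn U s₁ a) (wn U t l) (hwc gc)
      (hOk σ κ) (hOk s₁ a) (hOk t l) w1 w2
    exact w3
  have hb1 := hb s k fun a₁ h₁ a₂ h₂ a₃ h₃ a₄ h₄ a₅ h₅ => hU₁' a₁ (hUs h₁).1 a₂ (hUs h₂).1
    a₃ (hUs h₃).1 a₄ (hUs h₄).1 a₅ (hUs h₅).1
  have hb2 := hb s' k' fun a₁ h₁ a₂ h₂ a₃ h₃ a₄ h₄ a₅ h₅ => hU₂' a₁ (hUs h₁).2 a₂ (hUs h₂).2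
    a₃ (hUs h₃).2 a₄ (hUs h₄).2 a₅ (hUs h₅).2
  have hanti : ∀ T T' r (i : Fin 3 → ℕ), T ≤ T' → okL 3 T' r i → okL 3 T r i := by
    intro T T' r i hTT h j
    exact ⟨(h j).1, le_trans (Nat.add_le_add_left hTT _) (h j).2⟩
  refine hCTs D G hD hG 0 Bool (fun _ => Fin 3 → ℕ) (fun _ => okL 3)
    (fun j => cond j (FB D G (U * {gc}) c (wn U s k) (wn U s₁ a) (wn U t l))
      (FB D G (U * {gc}) c (wn U s' k') (wn U s₁ a) (wn U t l))) (Fin 3 → ℕ) (okL 3) _ 0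
    (fun _ => hanti) ?_ hanti ?_
  · intro j
    cases j
    · exact hb2
    · exact hb1
  · intro R T₁
    obtain ⟨C₁, hC₁, hup₁⟩ := hFc.up (U * {s}) (U * {k}) (hwc s) (hwc k) R
    obtain ⟨C₂, hC₂, hup₂⟩ := hFc.up (U * {s'}) (U * {k'}) (hwc s') (hwc k') R
    obtain ⟨T₂, a₀, ha₀, hlo⟩ := hFc.lo s₁ a (U * {s₁}) (hwn s₁) (U * {a}) (hwn a)
    obtain ⟨a₁, ha₁, ha₁', ha₁t⟩ : ∃ a₁ : ℝ≥0∞, a₁ ≠ 0 ∧ a₁ ≤ a₀ ∧ a₁ ≠ ∞ :=
      ⟨min a₀ 1, by simp [ha₀.ne'], min_le_left _ _, by simp⟩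
    refine ⟨a₁⁻¹ * (C₁ + C₂), max T₁ T₂,
      ENNReal.mul_ne_top (ENNReal.inv_ne_top.2 ha₁) (ENNReal.add_ne_top.2 ⟨hC₁, hC₂⟩), ?_⟩
    intro r hr i' hi'
    have hr1 : T₁ ≤ r := le_trans (le_max_left _ _) hr
    have hr2 : T₂ ≤ r := le_trans (le_max_right _ _) hr
    have hi1 : okL 3 T₁ r i' := hanti _ _ _ _ (le_max_left _ _) hi'
    have h2r : RG T₁ r (2 * r) := ⟨by omega, by omega⟩
    refine ⟨fun j => cond j ![i' 0, 2 * r, i' 2] ![i' 1, 2 * r, i' 2], ?_, ?_⟩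
    · intro j
      cases j
      · intro m
        fin_cases m
        · exact hi1 1
        · exact h2r
        · exact hi1 2
      · intro m
        fin_cases m
        · exact hi1 0
        · exact h2r
        · exact hi1 2
    · intro φ hφ
      obtain ⟨hkm, -, hDm, -⟩ := hegm D G hD hG
      have hkw : ∀ (x y : P) (R n : ℕ), Measurable (D.ke G (wn U x y) R n) := by
        intro x y R n
        have h := hkm (U * {x} : Set P) (U * {y} : Set P) (hwc x) (hwc y) R n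
        exact h
      rw [Fintype.sum_bool]
      show FB D G (U * {gc}) c (wn U s k) (wn U s' k') (wn U t l) R i' φ ≤
        a₁⁻¹ * (C₁ + C₂) * (FB D G (U * {gc}) c (wn U s k) (wn U s₁ a) (wn U t l) R
          ![i' 0, 2 * r, i' 2] φ +
        FB D G (U * {gc}) c (wn U s' k') (wn U s₁ a) (wn U t l) R ![i' 1, 2 * r, i' 2] φ)
      have hcore : ∀ (z : P × H) (g : D.Γ) (x : P × H),
          D.st3 (D.ke G (wn U s k) R (i' 0)) (D.ke G (wn U s' k') R (i' 1))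
            (D.ke G (wn U t l) R (i' 2)) x z
            (fun u u' v => ab (Dg G φ s x g u v - Dg G φ s' x g u' v)) ≤
          (a₁⁻¹ * C₂) * D.st3 (D.ke G (wn U s k) R (i' 0)) (D.ke G (wn U s₁ a) R (2 * r))
            (D.ke G (wn U t l) R (i' 2)) x z
            (fun u w v => ab (Dg G φ s x g u v - Dg G φ s₁ x g w v)) +
          (a₁⁻¹ * C₁) * D.st3 (D.ke G (wn U s' k') R (i' 1)) (D.ke G (wn U s₁ a) R (2 * r))
            (D.ke G (wn U t l) R (i' 2)) x z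
            (fun u w v => ab (Dg G φ s' x g u v - Dg G φ s₁ x g w v)) := by
        intro z g x
        have h3 := BB_core (fun u : D.Γ => D.ke G (wn U s k) R (i' 0) (x⁻¹ * (u : P × H) * z))
          (fun u : D.Γ => D.ke G (wn U s' k') R (i' 1) (x⁻¹ * (u : P × H) * z))
          (fun u : D.Γ => D.ke G (wn U t l) R (i' 2) (x⁻¹ * (u : P × H) * z))
          (fun u : D.Γ => D.ke G (wn U s₁ a) R (2 * r) (x⁻¹ * (u : P × H) * z))
          (fun u v => Dg G φ s x g u v) (fun u v => Dg G φ s' x g u v)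
          (fun u v => Dg G φ s₁ x g u v) a₁ C₁ C₂ (hup₁ _ x z) (hup₂ _ x z)
          (le_trans ha₁' (hlo R (2 * r) (by omega) x z))
        have h4 := mul_le_mul_right h3 a₁⁻¹
        rw [← mul_assoc, ENNReal.inv_mul_cancel ha₁ ha₁t, one_mul, mul_add, ← mul_assoc,
          ← mul_assoc] at h4
        exact h4
      have hlin := BB_lin P H hton D hD hcount ((U * {gc}) ×ˢ (D.O ^ c))
        (BB_mS P H D hD _ (hwc gc) c) (a₁⁻¹ * C₂) (a₁⁻¹ * C₁)
        (ENNReal.mul_ne_top (ENNReal.inv_ne_top.2 ha₁) hC₂)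
        (ENNReal.mul_ne_top (ENNReal.inv_ne_top.2 ha₁) hC₁)
        (fun z g x => D.st3 (D.ke G (wn U s k) R (i' 0)) (D.ke G (wn U s' k') R (i' 1))
            (D.ke G (wn U t l) R (i' 2)) x z
            (fun u u' v => ab (Dg G φ s x g u v - Dg G φ s' x g u' v)))
        (fun z g x => D.st3 (D.ke G (wn U s k) R (i' 0)) (D.ke G (wn U s₁ a) R (2 * r))
            (D.ke G (wn U t l) R (i' 2)) x z
            (fun u w v => ab (Dg G φ s x g u v - Dg G φ s₁ x g w v)))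
        (fun z g x => D.st3 (D.ke G (wn U s' k') R (i' 1)) (D.ke G (wn U s₁ a) R (2 * r))
            (D.ke G (wn U t l) R (i' 2)) x z
            (fun u w v => ab (Dg G φ s' x g u v - Dg G φ s₁ x g w v))) hcore 
        (fun g => BB_meas P H hMQ D hD G φ (hDm φ hφ) _ _ _ (hkw _ _ _ _) (hkw _ _ _ _)
          (hkw _ _ _ _) s s₁ g)
      have hX : ∀ X Y Z : ℝ≥0∞, Z ≤ a₁⁻¹ * C₂ * X + a₁⁻¹ * C₁ * Y →
          Z ≤ a₁⁻¹ * (C₁ + C₂) * (X + Y) := by
        intro X Y Z h7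
        refine le_trans h7 ?_
        rw [mul_add]
        exact add_le_add (mul_le_mul_left (mul_le_mul_right le_add_self _) _)
          (mul_le_mul_left (mul_le_mul_right le_self_add _) _)
      exact hX _ _ _ hlin

end Pool.Agent.MPEF.U
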