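import Pool.Agent.Lib.MP_ef3f0f_gt.U.E.SpecA
import Pool.Agent.Lib.MP_ef3f0f_gt.U.E.Al

set_option autoImplicit false
set_option linter.unusedSectionVars false

/-!
# MP_ef3f0f_gt, Theorem U, Part E, module Be: change of `u` in the effect
-/

namespace Pool.Agent.MPEF.U

open MeasureTheory Topology
open scoped ENNReal Pointwise

variable (P H : Type) [Group P] [Group H] [TopologicalSpace P] [TopologicalSpace H]
  [IsTopologicalGroup P] [IsTopologicalGroup H] [LocallyCompactSpace P] [LocallyCompactSpace H]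
  [T2Space P] [T2Space H] [SecondCountableTopology P] [SecondCountableTopology H]
  [MeasurableSpace P] [MeasurableSpace H] [BorelSpace P] [BorelSpace H]

theorem tBe : S_TBd P H → S_phP P H → S_CTs P H → S_AD P → S_Wr P → S_egm P H → S_ton P H →
    S_Be P H := by
  intro hTBd hphP hCTs hAD hWr hegm hton D G hFc Q c eu eu' ev hQ heu heu' hev hT1 hT2
  have hD := hFc.ok
  have hG := hFc.gok
  have hGF := hFc.gf
  -- the reversals
  have hS13 : ∀ s ∈ eu.S, ∀ s' ∈ ev.S, G.Pos s s' := fun s hs s' hs' =>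
    (hG.Ps _ _).1 (Al_P3 P hG (hT1 s hs eu'.c heu'.cS s' hs'))
  obtain ⟨k1, hk1⟩ := Al_rev P H hphP D G hG hGF eu.S eu.K ev.S ev.K heu.Sc heu.Kc hev.Sc hev.Kc
    eu.c ev.c heu.cS hev.cS hS13 eu'.K.Nonempty (fun ⟨k', hk'⟩ κ hκ κ' hκ' =>
      Al_P3 P hG (hT2 κ hκ k' hk' κ' hκ').1)
  have hQK : IsCompact (Q⁻¹ * eu.K) := hQ.inv.mul heu.Kc
  obtain ⟨k2, hk2⟩ := Al_rev P H hphP D G hG hGF eu.S (Q⁻¹ * eu.K) ev.S ev.K heu.Sc hQK hev.Sc
    hev.Kc eu.c ev.c heu.cS hev.cS hS13 eu'.K.Nonempty (fun ⟨k', hk'⟩ κ hκ κ' hκ' => by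
      obtain ⟨q, hq, κ₀, hκ₀, rfl⟩ := hκ
      have h := (hT2 κ₀ hκ₀ k' hk' κ' hκ').2 q⁻¹ hq q⁻¹ hq
      rw [inv_inv] at h
      exact Al_P3 P hG h)
  set k := max k1 k2 with hk
  obtain ⟨_, w2, _, _⟩ := hWr G hG
  refine hCTs D G hD hG 0 Bool (fun _ => Fin 3 → ℕ) (fun _ => okL 3)
    (fun b => FT D G Q c (if b then ![false, false, false] else ![true, true, false])
      ![eu, eu', ev]) (Fin 3 → ℕ) (okL 3) (FB D G Q c eu eu' ev) 0
    (fun _ T T' r i h hi => Al_okL h hi) ?_ (fun T T' r i h hi => Al_okL h hi) ?_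
  · intro b
    have hok : ∀ i, ((![eu, eu', ev] : Fin 3 → Ec P) i).Ok := by
      intro i
      fin_cases i
      · exact heu
      · exact heu'
      · exact hev
    cases b with
    | true =>
      refine hTBd D G hD hG Q c _ _ hQ hok hT1 ?_
      intro k₀ hk₀ k₁ hk₁ k₂ hk₂ g₀ _ g₁ _ g₂ _
      exact (hT2 k₀ hk₀ k₁ hk₁ k₂ hk₂).1
    | false =>
      refine hTBd D G hD hG Q c _ _ hQ hok hT1 ?_
      intro k₀ hk₀ k₁ hk₁ k₂ hk₂ g₀ hg₀ g₁ hg₁ g₂ _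
      exact (hT2 k₀ hk₀ k₁ hk₁ k₂ hk₂).2 g₀ hg₀ g₁ hg₁
  · intro R T
    obtain ⟨T0, hT0⟩ := Al_supp P H hAD D hD G hG R k
    refine ⟨1, max T T0, ENNReal.one_ne_top, fun r hr i hi => ⟨fun _ => i,
      fun _ => Al_okL (le_max_left _ _) hi, fun φ hφ => ?_⟩⟩
    have hlen : ∀ j, T0 ≤ i j := fun j =>
      le_trans (le_trans (le_max_right _ _) hr) (hi j).1
    rw [one_mul, Fintype.sum_bool]
    obtain ⟨e1, _, _, e4⟩ := hegm D G hD hG
    refine Al_add P H hton D hD _ (Al_S P H D hD Q hQ c) (D.ke G eu R (i 0)) (D.ke G eu' R (i 1))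
      (D.ke G ev R (i 2)) (e1 _ _ heu.Sc heu.Kc _ _) (e1 _ _ heu'.Sc heu'.Kc _ _)
      (e1 _ _ hev.Sc hev.Kc _ _)
      (fun g u u' v x => ab (Dg G φ eu.c x g u v - Dg G φ eu'.c x g u' v))
      (fun g u u' v x => ab (dl G φ eu.c eu'.c ev.c x u u' v))
      (fun g u u' v x => ab (dl G φ eu.c eu'.c ev.c x (u * g) (u' * g) v))
      (fun g u v w => Al_abm (e4 φ hφ _ _ _ _ _ _)) ?_
    intro z x g u u' v hg hu hu1 hv
    have hu' := hT0 _ (hlen 0) eu _ hu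
    have hu2 := hT0 _ (hlen 1) eu' _ hu1
    have hv2 := hT0 _ (hlen 2) ev _ hv
    have hne : eu'.K.Nonempty := Al_ne P hu2
    have hgQ : (z⁻¹ * (g : P × H) * z).1 ∈ Q := hg.1
    have r1 := hk1 x z u v (w2 _ _ _ _ k1 k (le_refl _) (le_refl _) (le_max_left _ _) hu')
      (w2 _ _ _ _ k1 k (le_refl _) (le_refl _) (le_max_left _ _) hv2) hne φ hφ
    have hug : (x⁻¹ * ((u * g : D.Γ) : P × H) * z).1 ∈ G.W eu.S (Q⁻¹ * eu.K) k := by
      have h1 : x⁻¹ * ((u * g : D.Γ) : P × H) * z =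
          (x⁻¹ * (u : P × H) * z) * (z⁻¹ * (g : P × H) * z) := by
        rw [Subgroup.coe_mul]
        group
      rw [h1]
      exact Al_W P hG hWr Q hu' hgQ
    have r2 := hk2 x z (u * g) v (w2 _ _ _ _ k2 k (le_refl _) (le_refl _) (le_max_right _ _) hug)
      (w2 _ _ _ _ k2 k (le_refl _) (le_refl _) (le_max_right _ _) hv2) hne φ hφ
    have h2 : Dg G φ eu.c x g u v - Dg G φ eu'.c x g u' v =
        dl G φ eu.c eu'.c ev.c x u u' v - dl G φ eu.c eu'.c ev.c x (u * g) (u' * g) v := by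
      have h3 : u * g * (u' * g)⁻¹ = u * u'⁻¹ := by group
      unfold Dg dl
      rw [r1, r2, h3]
      ring
    change ab (Dg G φ eu.c x g u v - Dg G φ eu'.c x g u' v) ≤ _
    rw [h2]
    exact Al_ab _ _

end Pool.Agent.MPEF.U
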