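import Pool.Agent.Lib.MP_ef3f0f_gt.U.E.SpecA

set_option autoImplicit false
set_option linter.unusedSectionVars false

/-! MP_ef3f0f_gt, Theorem U, Part E, module CTs: sums of controlled functionals. -/

namespace Pool.Agent.MPEF.U

open MeasureTheory Topology
open scoped ENNReal Pointwise

variable (P H : Type) [Group P] [Group H] [TopologicalSpace P] [TopologicalSpace H]
  [IsTopologicalGroup P] [IsTopologicalGroup H] [LocallyCompactSpace P] [LocallyCompactSpace H]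
  [T2Space P] [T2Space H] [SecondCountableTopology P] [SecondCountableTopology H]
  [MeasurableSpace P] [MeasurableSpace H] [BorelSpace P] [BorelSpace H]

/-- The kernels of the edges are monotone in the range. -/
private theorem CTs_egm (hAD : S_AD P) (D : Dat P H) (hD : D.Ok) (G : PG P) (hG : G.Ok)
    (S K : Set P) {R R' : ℕ} (h : R ≤ R') (n : ℕ) (g : P × H) :
    D.eg G S K R n g ≤ D.eg G S K R' n g := by
  have := hD.haar₁
  have := hD.right₁
  have := hD.inv₁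
  show eP D.μ₁ G S K R n g.1 * D.nu n g.2 ≤ eP D.μ₁ G S K R' n g.1 * D.nu n g.2
  exact mul_le_mul_left ((hAD G D.μ₁ hG).1 S S K K R R' n subset_rfl subset_rfl h g.1) _

private theorem CTs_X3m (D : Dat P H) {K₀ K₁ K₂ K₀' K₁' K₂' : P × H → ℝ≥0∞}
    (h0 : ∀ g, K₀ g ≤ K₀' g) (h1 : ∀ g, K₁ g ≤ K₁' g) (h2 : ∀ g, K₂ g ≤ K₂' g)
    (f : P × H → D.Γ → D.Γ → D.Γ → ℝ≥0∞) : D.X3 K₀ K₁ K₂ f ≤ D.X3 K₀' K₁' K₂' f := by
  unfold Dat.X3 Dat.IM Dat.st3
  refine lintegral_mono fun x => mul_le_mul_right (lintegral_mono fun y =>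
    mul_le_mul_right ?_ _) _
  exact ENNReal.tsum_le_tsum fun u => ENNReal.tsum_le_tsum fun v => ENNReal.tsum_le_tsum fun w =>
    mul_le_mul_left (mul_le_mul' (mul_le_mul' (h0 _) (h1 _)) (h2 _)) _

private theorem CTs_EEm (hAD : S_AD P) (D : Dat P H) (hD : D.Ok) (G : PG P) (hG : G.Ok)
    (t : Th P) {R R' : ℕ} (h : R ≤ R') (r : ℕ) (φ : D.Γ → P → ℝ) :
    D.EE G t R r φ ≤ D.EE G t R' r φ := by
  unfold Dat.EE
  exact Finset.sum_le_sum fun n₀ _ => Finset.sum_le_sum fun n₁ _ => Finset.sum_le_sum fun n₂ _ =>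
    CTs_X3m P H D (CTs_egm P H hAD D hD G hG _ _ h _) (CTs_egm P H hAD D hD G hG _ _ h _)
      (CTs_egm P H hAD D hD G hG _ _ h _) _

private theorem CTs_ELm (hAD : S_AD P) (D : Dat P H) (hD : D.Ok) (G : PG P) (hG : G.Ok)
    (L : List (Th P)) {R R' : ℕ} (h : R ≤ R') (r : ℕ) (φ : D.Γ → P → ℝ) :
    D.EL G L R r φ ≤ D.EL G L R' r φ := by
  unfold Dat.EL
  exact List.sum_le_sum fun t _ => CTs_EEm P H hAD D hD G hG t h r φ

private theorem CTs_ELs (D : Dat P H) (G : PG P) {L L' : List (Th P)} (h : L.Sublist L')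
    (R r : ℕ) (φ : D.Γ → P → ℝ) : D.EL G L R r φ ≤ D.EL G L' R r φ := by
  unfold Dat.EL
  exact (h.map _).sum_le_sum (fun _ _ => zero_le)

theorem tCTs : S_AD P → S_CTs P H := by
  intro hAD D G hD hG p J _ ι ok F ι' ok' F' c hok hCT hok' hmain
  choose L c₀ hL hbd using hCT
  have hsub : ∀ j, (L j).Sublist ((Finset.univ.toList.map L).flatten) := fun j =>
    List.sublist_flatten_of_mem (List.mem_map.2 ⟨j, Finset.mem_toList.2 (Finset.mem_univ j), rfl⟩)
  refine ⟨(Finset.univ.toList.map L).flatten, c + ∑ j, c₀ j, ?_, ?_⟩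
  · intro t ht
    obtain ⟨l, hl, htl⟩ := List.mem_flatten.1 ht
    obtain ⟨j, -, rfl⟩ := List.mem_map.1 hl
    exact hL j t htl
  · intro R
    choose C T hC hb using fun j => hbd j (R + c)
    obtain ⟨C', T', hC', h'⟩ := hmain R (Finset.univ.sup T)
    refine ⟨C' * ∑ j, C j, max (Finset.univ.sup T) T',
      ENNReal.mul_ne_top hC' (ENNReal.sum_ne_top.2 fun j _ => hC j), ?_⟩
    intro r hr i' hi' φ hφ
    obtain ⟨i, hi, hF⟩ := h' r (le_trans (le_max_right _ _) hr) i'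
      (hok' _ _ _ _ (le_max_right _ _) hi')
    have hTj : ∀ j, T j ≤ Finset.univ.sup T := fun j => Finset.le_sup (Finset.mem_univ j)
    have hj : ∀ j, F j (R + c) (i j) φ ≤ C j * ((r : ℝ≥0∞) ^ p *
        D.EL G ((Finset.univ.toList.map L).flatten) (R + (c + ∑ j, c₀ j)) r φ) := by
      intro j
      have h1 := hb j r (le_trans (hTj j) (le_trans (le_max_left _ _) hr)) (i j)
        (hok j _ _ _ _ (hTj j) (hi j)) φ hφ
      refine le_trans h1 ?_
      rw [mul_assoc]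
      refine mul_le_mul_right (mul_le_mul_right ?_ _) _
      refine le_trans (CTs_ELs P H D G (hsub j) _ _ _) (CTs_ELm P H hAD D hD G hG _ ?_ _ _)
      have h2 : c₀ j ≤ ∑ j, c₀ j := Finset.single_le_sum (fun _ _ => Nat.zero_le _)
        (Finset.mem_univ j)
      omega
    calc F' R i' φ ≤ C' * ∑ j, F j (R + c) (i j) φ := hF φ hφ
      _ ≤ C' * ∑ j, C j * ((r : ℝ≥0∞) ^ p *
          D.EL G ((Finset.univ.toList.map L).flatten) (R + (c + ∑ j, c₀ j)) r φ) :=
          mul_le_mul_right (Finset.sum_le_sum fun j _ => hj j) _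
      _ = C' * (∑ j, C j) * (r : ℝ≥0∞) ^ p *
          D.EL G ((Finset.univ.toList.map L).flatten) (R + (c + ∑ j, c₀ j)) r φ := by
          rw [← Finset.sum_mul]
          simp only [mul_assoc]

end Pool.Agent.MPEF.U
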