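import Pool.Agent.Lib.MP_ef3f0f_gt.U.E.SpecC

set_option autoImplicit false
set_option linter.unusedSectionVars false

/-! MP_ef3f0f_gt, Theorem U, Part E, module CUs: sums of CU functionals. -/

namespace Pool.Agent.MPEF.U

open MeasureTheory Topology
open scoped ENNReal Pointwise

variable (P H : Type) [Group P] [Group H] [TopologicalSpace P] [TopologicalSpace H]
  [IsTopologicalGroup P] [IsTopologicalGroup H] [LocallyCompactSpace P] [LocallyCompactSpace H]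
  [T2Space P] [T2Space H] [SecondCountableTopology P] [SecondCountableTopology H]
  [MeasurableSpace P] [MeasurableSpace H] [BorelSpace P] [BorelSpace H]

/-- The kernels of the edges are monotone in the range. -/
private theorem CUs_egm (hAD : S_AD P) (D : Dat P H) (hD : D.Ok) (G : PG P) (hG : G.Ok)
    (S K : Set P) {R R' : ℕ} (h : R ≤ R') (n : ℕ) (g : P × H) :
    D.eg G S K R n g ≤ D.eg G S K R' n g := by
  have := hD.haar₁
  have := hD.right₁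
  have := hD.inv₁
  show eP D.μ₁ G S K R n g.1 * D.nu n g.2 ≤ eP D.μ₁ G S K R' n g.1 * D.nu n g.2
  exact mul_le_mul_left ((hAD G D.μ₁ hG).1 S S K K R R' n subset_rfl subset_rfl h g.1) _

private theorem CUs_X3m (D : Dat P H) {K₀ K₁ K₂ K₀' K₁' K₂' : P × H → ℝ≥0∞}
    (h0 : ∀ g, K₀ g ≤ K₀' g) (h1 : ∀ g, K₁ g ≤ K₁' g) (h2 : ∀ g, K₂ g ≤ K₂' g)
    (f : P × H → D.Γ → D.Γ → D.Γ → ℝ≥0∞) : D.X3 K₀ K₁ K₂ f ≤ D.X3 K₀' K₁' K₂' f := by
  unfold Dat.X3 Dat.IM Dat.st3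
  refine lintegral_mono fun x => mul_le_mul_right (lintegral_mono fun y =>
    mul_le_mul_right ?_ _) _
  exact ENNReal.tsum_le_tsum fun u => ENNReal.tsum_le_tsum fun v => ENNReal.tsum_le_tsum fun w =>
    mul_le_mul_left (mul_le_mul' (mul_le_mul' (h0 _) (h1 _)) (h2 _)) _

private theorem CUs_EEm (hAD : S_AD P) (D : Dat P H) (hD : D.Ok) (G : PG P) (hG : G.Ok)
    (t : Th P) {R R' : ℕ} (h : R ≤ R') (r : ℕ) (φ : D.Γ → P → ℝ) :
    D.EE G t R r φ ≤ D.EE G t R' r φ := by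
  unfold Dat.EE
  exact Finset.sum_le_sum fun n₀ _ => Finset.sum_le_sum fun n₁ _ => Finset.sum_le_sum fun n₂ _ =>
    CUs_X3m P H D (CUs_egm P H hAD D hD G hG _ _ h _) (CUs_egm P H hAD D hD G hG _ _ h _)
      (CUs_egm P H hAD D hD G hG _ _ h _) _

private theorem CUs_ELm (hAD : S_AD P) (D : Dat P H) (hD : D.Ok) (G : PG P) (hG : G.Ok)
    (L : List (Th P)) {R R' : ℕ} (h : R ≤ R') (r : ℕ) (φ : D.Γ → P → ℝ) :
    D.EL G L R r φ ≤ D.EL G L R' r φ := by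
  unfold Dat.EL
  exact List.sum_le_sum fun t _ => CUs_EEm P H hAD D hD G hG t h r φ

private theorem CUs_ELs (D : Dat P H) (G : PG P) {L L' : List (Th P)} (h : L.Sublist L')
    (R r : ℕ) (φ : D.Γ → P → ℝ) : D.EL G L R r φ ≤ D.EL G L' R r φ := by
  unfold Dat.EL
  exact (h.map _).sum_le_sum (fun _ _ => zero_le)

theorem tCUs : S_AD P → S_CUs P H := by
  intro hAD D G hD hG p F₁ F₂ F h₁ h₂ hmain
  obtain ⟨L₁, c₁, hL₁, hb₁⟩ := h₁
  obtain ⟨L₂, c₂, hL₂, hb₂⟩ := h₂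
  refine ⟨L₁ ++ L₂, c₁ + c₂, ?_, fun R => ?_⟩
  · intro t ht
    rcases List.mem_append.1 ht with h | h
    · exact hL₁ t h
    · exact hL₂ t h
  obtain ⟨U₁, hU₁, hK₁, b₁, hb₁⟩ := hb₁ R
  obtain ⟨U₂, hU₂, hK₂, b₂, hb₂⟩ := hb₂ R
  obtain ⟨U, hU, hK, b₀, hm⟩ := hmain R U₁ hU₁ U₂ hU₂ hK₁ hK₂
  refine ⟨U, hU, hK, max b₀ (max b₁ b₂), fun b hb => ?_⟩
  obtain ⟨C₁, T₁, hC₁, hf₁⟩ := hb₁ b (le_trans (le_trans (le_max_left _ _) (le_max_right _ _)) hb)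
  obtain ⟨C₂, T₂, hC₂, hf₂⟩ := hb₂ b (le_trans (le_trans (le_max_right _ _) (le_max_right _ _)) hb)
  obtain ⟨C, T', hC, hf⟩ := hm b (le_trans (le_max_left _ _) hb) (max T₁ T₂)
  refine ⟨C * (C₁ + C₂), max (max T₁ T₂) T', ENNReal.mul_ne_top hC
    (ENNReal.add_ne_top.2 ⟨hC₁, hC₂⟩), fun r hr d hd n m hok φ hφ => ?_⟩
  have hok' : okS T' r n m := by
    obtain ⟨a1, a2, a3, a4⟩ := hok
    have : T' ≤ max (max T₁ T₂) T' := le_max_right _ _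
    exact ⟨by omega, by omega, by omega, by omega⟩
  obtain ⟨n₁, m₁, n₂, m₂, o₁, o₂, hfin⟩ := hf r (le_trans (le_max_right _ _) hr) d hd n m hok'
  have hT1 : T₁ ≤ max T₁ T₂ := le_max_left _ _
  have hT2 : T₂ ≤ max T₁ T₂ := le_max_right _ _
  have hTr : max T₁ T₂ ≤ r := le_trans (le_max_left _ _) hr
  have o₁' : okS T₁ r n₁ m₁ := by
    obtain ⟨a1, a2, a3, a4⟩ := o₁
    exact ⟨by omega, by omega, by omega, by omega⟩
  have o₂' : okS T₂ r n₂ m₂ := by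
    obtain ⟨a1, a2, a3, a4⟩ := o₂
    exact ⟨by omega, by omega, by omega, by omega⟩
  have e₁ : F₁ U₁ d b n₁ m₁ φ ≤ C₁ * ((r : ℝ≥0∞) ^ p *
      D.EL G (L₁ ++ L₂) (R + (c₁ + c₂)) r φ) := by
    refine le_trans (hf₁ r (le_trans hT1 hTr) d hd n₁ m₁ o₁' φ hφ) ?_
    rw [mul_assoc]
    refine mul_le_mul_right (mul_le_mul_right ?_ _) _
    exact le_trans (CUs_ELs P H D G (List.sublist_append_left _ _) _ _ _)
      (CUs_ELm P H hAD D hD G hG _ (by omega) _ _)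
  have e₂ : F₂ U₂ d b n₂ m₂ φ ≤ C₂ * ((r : ℝ≥0∞) ^ p *
      D.EL G (L₁ ++ L₂) (R + (c₁ + c₂)) r φ) := by
    refine le_trans (hf₂ r (le_trans hT2 hTr) d hd n₂ m₂ o₂' φ hφ) ?_
    rw [mul_assoc]
    refine mul_le_mul_right (mul_le_mul_right ?_ _) _
    exact le_trans (CUs_ELs P H D G (List.sublist_append_right _ _) _ _ _)
      (CUs_ELm P H hAD D hD G hG _ (by omega) _ _)
  calc F U d b n m φ ≤ C * (F₁ U₁ d b n₁ m₁ φ + F₂ U₂ d b n₂ m₂ φ) := hfin φ hφ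
    _ ≤ C * (C₁ * ((r : ℝ≥0∞) ^ p * D.EL G (L₁ ++ L₂) (R + (c₁ + c₂)) r φ) +
        C₂ * ((r : ℝ≥0∞) ^ p * D.EL G (L₁ ++ L₂) (R + (c₁ + c₂)) r φ)) :=
        mul_le_mul_right (add_le_add e₁ e₂) _
    _ = C * (C₁ + C₂) * (r : ℝ≥0∞) ^ p * D.EL G (L₁ ++ L₂) (R + (c₁ + c₂)) r φ := by
        ring

end Pool.Agent.MPEF.U
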