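import Pool.Agent.Lib.MP_ef3f0f_gt.U.E.SpecC

set_option autoImplicit false
set_option linter.unusedSectionVars false

/-!
# MP_ef3f0f_gt, Theorem U, Part E: F7ac (change of x)
-/

namespace Pool.Agent.MPEF.U

open MeasureTheory Topology
open scoped ENNReal Pointwise

section Sums

variable {ι : Type*}

/-- Weighted sum. -/
private noncomputable def F7ac_E (m f : ι → ℝ≥0∞) : ℝ≥0∞ := ∑' i, m i * f i

private theorem F7ac_mono {m f g : ι → ℝ≥0∞} (h : ∀ i, m i ≠ 0 → f i ≤ g i) :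
    F7ac_E m f ≤ F7ac_E m g :=
  ENNReal.tsum_le_tsum fun i => by
    by_cases hm : m i = 0
    · simp [hm]
    · gcongr; exact h i hm

private theorem F7ac_add (m f g : ι → ℝ≥0∞) :
    F7ac_E m (fun i => f i + g i) = F7ac_E m f + F7ac_E m g := by
  unfold F7ac_E
  rw [← ENNReal.tsum_add]
  exact tsum_congr fun i => mul_add _ _ _

private theorem F7ac_mul (m f : ι → ℝ≥0∞) (c : ℝ≥0∞) :
    F7ac_E m (fun i => c * f i) = c * F7ac_E m f := by
  unfold F7ac_E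
  rw [← ENNReal.tsum_mul_left]
  exact tsum_congr fun i => mul_left_comm _ _ _

private theorem F7ac_cst (m : ι → ℝ≥0∞) (s : ℝ≥0∞) :
    F7ac_E m (fun _ => s) = (∑' i, m i) * s := ENNReal.tsum_mul_right

private theorem F7ac_comm {κ : Type*} (m : ι → ℝ≥0∞) (n : κ → ℝ≥0∞) (f : ι → κ → ℝ≥0∞) :
    F7ac_E m (fun i => F7ac_E n (fun j => f i j)) =
      F7ac_E n (fun j => F7ac_E m (fun i => f i j)) := by
  unfold F7ac_E
  simp only [← ENNReal.tsum_mul_left]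
  rw [ENNReal.tsum_comm]
  exact tsum_congr fun j => tsum_congr fun i => mul_left_comm _ _ _

private theorem F7ac_st {κ : Type*} (m : ι → ℝ≥0∞) (n : κ → ℝ≥0∞) (f : ι → κ → ℝ≥0∞) :
    ∑' i, ∑' j, m i * n j * f i j = F7ac_E m (fun i => F7ac_E n (fun j => f i j)) := by
  unfold F7ac_E
  refine tsum_congr fun i => ?_
  rw [← ENNReal.tsum_mul_left]
  exact tsum_congr fun j => mul_assoc _ _ _

private theorem F7ac_pt {Γ : Type*} [Group Γ] {a b a' b' e : Γ → ℝ≥0∞} {c A : ℝ≥0∞}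
    (f : Γ → Γ → Γ → Γ → ℝ≥0∞) (α β : Γ → Γ → Γ → ℝ≥0∞)
    (he : c ≤ ∑' i, e i) (hb' : ∑' i, b' i ≤ A) (ha : ∑' i, a i ≤ A)
    (h : ∀ u V u' V' k, e k ≠ 0 → a' u' ≠ 0 → b V ≠ 0 →
      f u V u' V' ≤ α u V (k * u') + β u' V' (k⁻¹ * V)) :
    c * F7ac_E a (fun u => F7ac_E b fun V => F7ac_E a' fun u' => F7ac_E b' fun V' =>
        f u V u' V') ≤
      A * (F7ac_E a (fun u => F7ac_E b fun V => F7ac_E e fun k => F7ac_E a' fun u' =>
          α u V (k * u')) +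
        F7ac_E a' (fun u' => F7ac_E b' fun V' => F7ac_E e fun k => F7ac_E b fun V =>
          β u' V' (k⁻¹ * V))) := by
  have s1 : c * F7ac_E a (fun u => F7ac_E b fun V => F7ac_E a' fun u' => F7ac_E b' fun V' =>
        f u V u' V') ≤
      F7ac_E a (fun u => F7ac_E b fun V => F7ac_E a' fun u' => F7ac_E b' fun V' =>
        F7ac_E e fun k => (α u V (k * u') + β u' V' (k⁻¹ * V))) := by
    simp only [← F7ac_mul]
    refine F7ac_mono fun u _ => F7ac_mono fun V hV => F7ac_mono fun u' hu' =>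
      F7ac_mono fun V' _ => ?_
    calc c * f u V u' V' ≤ (∑' i, e i) * f u V u' V' := by gcongr
      _ = F7ac_E e (fun _ => f u V u' V') := (F7ac_cst _ _).symm
      _ ≤ _ := F7ac_mono fun k hk => h u V u' V' k hk hu' hV
  refine s1.trans ?_
  have s2 : F7ac_E a (fun u => F7ac_E b fun V => F7ac_E a' fun u' => F7ac_E b' fun V' =>
        F7ac_E e fun k => (α u V (k * u') + β u' V' (k⁻¹ * V))) =
      F7ac_E a (fun u => F7ac_E b fun V => F7ac_E a' fun u' => F7ac_E b' fun _ =>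
        F7ac_E e fun k => α u V (k * u')) +
      F7ac_E a (fun _ => F7ac_E b fun V => F7ac_E a' fun u' => F7ac_E b' fun V' =>
        F7ac_E e fun k => β u' V' (k⁻¹ * V)) := by
    simp only [F7ac_add]
  rw [s2, mul_add]
  refine add_le_add ?_ ?_
  · have s3 : ∀ u V, F7ac_E a' (fun u' => F7ac_E b' fun _ => F7ac_E e fun k => α u V (k * u')) ≤
        A * F7ac_E e fun k => F7ac_E a' fun u' => α u V (k * u') := by
      intro u V
      rw [F7ac_comm e a', ← F7ac_mul]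
      refine F7ac_mono fun u' _ => ?_
      rw [F7ac_cst]
      gcongr
    calc F7ac_E a (fun u => F7ac_E b fun V => F7ac_E a' fun u' => F7ac_E b' fun _ =>
        F7ac_E e fun k => α u V (k * u'))
        ≤ F7ac_E a (fun u => F7ac_E b fun V => A * F7ac_E e fun k => F7ac_E a' fun u' =>
            α u V (k * u')) := F7ac_mono fun u _ => F7ac_mono fun V _ => s3 u V
      _ = _ := by simp only [F7ac_mul]
  · rw [F7ac_cst]
    have s4 : F7ac_E b (fun V => F7ac_E a' fun u' => F7ac_E b' fun V' =>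
        F7ac_E e fun k => β u' V' (k⁻¹ * V)) =
        F7ac_E a' (fun u' => F7ac_E b' fun V' => F7ac_E e fun k => F7ac_E b fun V =>
          β u' V' (k⁻¹ * V)) := by
      rw [F7ac_comm b a']
      congr 1; funext u'
      rw [F7ac_comm b b']
      congr 1; funext V'
      rw [F7ac_comm b e]
    rw [s4]
    gcongr

end Sums

section Int

variable {P H : Type} [Group P] [Group H] [TopologicalSpace P] [TopologicalSpace H]
  [IsTopologicalGroup P] [IsTopologicalGroup H] [LocallyCompactSpace P] [LocallyCompactSpace H]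
  [T2Space P] [T2Space H] [SecondCountableTopology P] [SecondCountableTopology H]
  [MeasurableSpace P] [MeasurableSpace H] [BorelSpace P] [BorelSpace H]

private theorem F7ac_IM (D : Dat P H) (hD : D.Ok) (f : P × H → ℝ≥0∞) :
    D.IM f = ∫⁻ x, f x ∂(D.μ.withDensity D.χ) := by
  unfold Dat.IM
  rw [lintegral_withDensity_eq_lintegral_mul_non_measurable _ hD.χm]
  · rfl
  · exact ae_of_all _ fun x => (hD.χ1 x).trans_lt ENNReal.one_lt_top

private theorem F7ac_ker {α : Type*} [MeasurableSpace α] {K : P × H → ℝ≥0∞} (hK : Measurable K)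
    {f g : α → P × H} (hf : Measurable f) (hg : Measurable g) (u : P × H) :
    Measurable fun q => K ((f q)⁻¹ * u * g q) := by
  have h : Continuous fun q : (P × H) × (P × H) => q.1⁻¹ * u * q.2 := by fun_prop
  exact hK.comp (h.measurable.comp (hf.prodMk hg))

private theorem F7ac_mE {α ι : Type*} [MeasurableSpace α] [Countable ι] {m f : α → ι → ℝ≥0∞}
    (hm : ∀ i, Measurable fun x => m x i) (hf : ∀ i, Measurable fun x => f x i) :
    Measurable fun x => F7ac_E (m x) (f x) :=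
  Measurable.tsum fun i => (hm i).mul (hf i)

private theorem F7ac_ab {α : Type*} [MeasurableSpace α] {f g : α → ℝ} (hf : Measurable f)
    (hg : Measurable g) : Measurable fun x => ab (f x - g x) := by
  unfold ab
  exact ENNReal.measurable_ofReal.comp (continuous_abs.measurable.comp (hf.sub hg))

private theorem F7ac_iE {α ι : Type*} [MeasurableSpace α] (ν : Measure α) [Countable ι]
    (m : ι → ℝ≥0∞) {f : α → ι → ℝ≥0∞} (hf : ∀ i, Measurable fun x => f x i) :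
    ∫⁻ x, F7ac_E m (f x) ∂ν = F7ac_E m fun i => ∫⁻ x, f x i ∂ν := by
  unfold F7ac_E
  rw [lintegral_tsum fun i => ((hf i).const_mul _).aemeasurable]
  exact tsum_congr fun i => lintegral_const_mul _ (hf i)

section Three

variable {X : Type*} [MeasurableSpace X] (ν : Measure X) [SFinite ν]

private theorem F7ac_add3 (f g : X → X → X → ℝ≥0∞)
    (hf : Measurable fun q : X × X × X => f q.1 q.2.1 q.2.2) (A : ℝ≥0∞)
    (hg : Measurable fun q : X × X × X => g q.1 q.2.1 q.2.2) :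
    ∫⁻ x, ∫⁻ x', ∫⁻ y, A * (f x x' y + g x x' y) ∂ν ∂ν ∂ν =
      A * (∫⁻ x, ∫⁻ x', ∫⁻ y, f x x' y ∂ν ∂ν ∂ν + ∫⁻ x, ∫⁻ x', ∫⁻ y, g x x' y ∂ν ∂ν ∂ν) := by
  have a1 : ∀ (h : X → X → X → ℝ≥0∞), (Measurable fun q : X × X × X => h q.1 q.2.1 q.2.2) →
      ∀ x x', Measurable fun y => h x x' y := fun h hh x x' =>
    hh.comp (measurable_const.prodMk (measurable_const.prodMk measurable_id))
  have a2 : ∀ (h : X → X → X → ℝ≥0∞), (Measurable fun q : X × X × X => h q.1 q.2.1 q.2.2) →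
      ∀ x, Measurable fun x' => ∫⁻ y, h x x' y ∂ν := fun h hh x =>
    Measurable.lintegral_prod_right' (f := fun q : X × X => h x q.1 q.2)
      (hh.comp (measurable_const.prodMk measurable_id))
  have a3 : ∀ (h : X → X → X → ℝ≥0∞), (Measurable fun q : X × X × X => h q.1 q.2.1 q.2.2) →
      Measurable fun x => ∫⁻ x', ∫⁻ y, h x x' y ∂ν ∂ν := fun h hh => by
    have h1 : Measurable fun q : X × X => ∫⁻ y, h q.1 q.2 y ∂ν :=
      Measurable.lintegral_prod_right' (f := fun q : (X × X) × X => h q.1.1 q.1.2 q.2)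
        (hh.comp ((measurable_fst.comp measurable_fst).prodMk
          ((measurable_snd.comp measurable_fst).prodMk measurable_snd)))
    exact h1.lintegral_prod_right'
  have lin : ∀ u v : X → ℝ≥0∞, Measurable u → Measurable v →
      ∫⁻ y, A * (u y + v y) ∂ν = A * (∫⁻ y, u y ∂ν + ∫⁻ y, v y ∂ν) := fun u v hu hv => by
    rw [← lintegral_add_left hu v]
    exact lintegral_const_mul _ (hu.add hv)
  have e1 : ∀ x x', ∫⁻ y, A * (f x x' y + g x x' y) ∂ν =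
      A * (∫⁻ y, f x x' y ∂ν + ∫⁻ y, g x x' y ∂ν) := fun x x' =>
    lin _ _ (a1 f hf x x') (a1 g hg x x')
  have e2 : ∀ x, ∫⁻ x', A * (∫⁻ y, f x x' y ∂ν + ∫⁻ y, g x x' y ∂ν) ∂ν =
      A * (∫⁻ x', ∫⁻ y, f x x' y ∂ν ∂ν + ∫⁻ x', ∫⁻ y, g x x' y ∂ν ∂ν) := fun x =>
    lin _ _ (a2 f hf x) (a2 g hg x)
  simp only [e1, e2]
  exact lin _ _ (a3 f hf) (a3 g hg)

private theorem F7ac_sw1 (f : X → X → X → ℝ≥0∞)
    (hf : Measurable fun q : X × X × X => f q.1 q.2.1 q.2.2) :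
    ∫⁻ x, ∫⁻ x', ∫⁻ y, f x x' y ∂ν ∂ν ∂ν = ∫⁻ x, ∫⁻ y, ∫⁻ x', f x x' y ∂ν ∂ν ∂ν := by
  refine lintegral_congr fun x => ?_
  refine lintegral_lintegral_swap ?_
  exact (hf.comp (measurable_const.prodMk measurable_id)).aemeasurable

private theorem F7ac_sw2 (f : X → X → X → ℝ≥0∞)
    (hf : Measurable fun q : X × X × X => f q.1 q.2.1 q.2.2) :
    ∫⁻ x, ∫⁻ x', ∫⁻ y, f x x' y ∂ν ∂ν ∂ν = ∫⁻ x', ∫⁻ y, ∫⁻ x, f x x' y ∂ν ∂ν ∂ν := by
  have h1 : Measurable fun q : X × X => ∫⁻ y, f q.1 q.2 y ∂ν :=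
    Measurable.lintegral_prod_right' (f := fun q : (X × X) × X => f q.1.1 q.1.2 q.2)
      (hf.comp ((measurable_fst.comp measurable_fst).prodMk
        ((measurable_snd.comp measurable_fst).prodMk measurable_snd)))
  rw [lintegral_lintegral_swap (f := fun x x' => ∫⁻ y, f x x' y ∂ν) h1.aemeasurable]
  refine lintegral_congr fun x' => ?_
  refine lintegral_lintegral_swap ?_
  exact (hf.comp (measurable_fst.prodMk (measurable_const.prodMk measurable_snd))).aemeasurable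

end Three

private theorem F7ac_int (D : Dat P H) (hD : D.Ok) [SigmaFinite D.μ] [Countable D.Γ]
    {Ku KV Ku' KV' Ke K₁ K₂ : P × H → ℝ≥0∞} (mu : Measurable Ku) (mV : Measurable KV)
    (mu' : Measurable Ku') (mV' : Measurable KV') (me : Measurable Ke)
    (ψ : P × H → D.Γ → D.Γ → ℝ) (hψ : ∀ u v, Measurable fun x => ψ x u v) {c A M : ℝ≥0∞}
    (hM : M ≠ ∞)
    (h1 : ∀ (x x' y : P × H) (e u' V : D.Γ), Ke (x⁻¹ * (e : P × H) * x') ≠ 0 →
      Ku' (x'⁻¹ * (u' : P × H) * y) ≠ 0 → KV (x⁻¹ * (V : P × H) * y) ≠ 0 →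
      ψ x (e * u') V = ψ x' u' (e⁻¹ * V))
    (h2 : ∀ x x', c ≤ D.N Ke x x') (h3 : ∀ x y, D.N KV' x y ≤ A) (h3' : ∀ x y, D.N Ku x y ≤ A)
    (h4 : ∀ (x y : P × H) (F : D.Γ → ℝ≥0∞), (D.IM fun x' => ∑' e : D.Γ, ∑' u' : D.Γ,
      Ke (x⁻¹ * (e : P × H) * x') * Ku' (x'⁻¹ * (u' : P × H) * y) * F (e * u')) ≤
        M * ∑' w : D.Γ, K₁ (x⁻¹ * (w : P × H) * y) * F w)
    (h5 : ∀ (x' y : P × H) (F : D.Γ → ℝ≥0∞), (D.IM fun x => ∑' e : D.Γ, ∑' V : D.Γ,
      Ke (x⁻¹ * (e : P × H) * x') * KV (x⁻¹ * (V : P × H) * y) * F (e⁻¹ * V)) ≤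
        M * ∑' W : D.Γ, K₂ (x'⁻¹ * (W : P × H) * y) * F W) :
    c * (D.IM fun x => D.IM fun x' => D.IM fun y => D.st2 Ku KV x y fun u V =>
      D.st2 Ku' KV' x' y fun u' V' => ab (ψ x u V - ψ x' u' V')) ≤
      A * (M * (D.IM fun x => D.IM fun y => ∑' V : D.Γ, KV (x⁻¹ * (V : P × H) * y) *
          D.st2 Ku K₁ x y fun u w => ab (ψ x u V - ψ x w V)) +
        M * (D.IM fun x => D.IM fun y => ∑' u : D.Γ, Ku' (x⁻¹ * (u : P × H) * y) *
          D.st2 KV' K₂ x y fun V' W => ab (ψ x u V' - ψ x u W))) := by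
  set ν := D.μ.withDensity D.χ with hν
  have hIM : ∀ f : P × H → ℝ≥0∞, D.IM f = ∫⁻ x, f x ∂ν := fun f => F7ac_IM D hD f
  simp only [hIM] at h4 h5 ⊢
  unfold Dat.st2
  -- the two auxiliary functions
  set S₁ : P × H → P × H → P × H → ℝ≥0∞ := fun x x' y =>
    F7ac_E (fun u : D.Γ => Ku (x⁻¹ * (u : P × H) * y)) fun u =>
      F7ac_E (fun V : D.Γ => KV (x⁻¹ * (V : P × H) * y)) fun V =>
        F7ac_E (fun e : D.Γ => Ke (x⁻¹ * (e : P × H) * x')) fun e =>
          F7ac_E (fun u' : D.Γ => Ku' (x'⁻¹ * (u' : P × H) * y)) fun u' =>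
            ab (ψ x u V - ψ x (e * u') V) with hS1
  set S₂ : P × H → P × H → P × H → ℝ≥0∞ := fun x x' y =>
    F7ac_E (fun u' : D.Γ => Ku' (x'⁻¹ * (u' : P × H) * y)) fun u' =>
      F7ac_E (fun V' : D.Γ => KV' (x'⁻¹ * (V' : P × H) * y)) fun V' =>
        F7ac_E (fun e : D.Γ => Ke (x⁻¹ * (e : P × H) * x')) fun e =>
          F7ac_E (fun V : D.Γ => KV (x⁻¹ * (V : P × H) * y)) fun V =>
            ab (ψ x' u' V' - ψ x' u' (e⁻¹ * V)) with hS2
  have m1 : Measurable fun q : (P × H) × (P × H) × (P × H) => q.1 := measurable_fst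
  have m2 : Measurable fun q : (P × H) × (P × H) × (P × H) => q.2.1 :=
    measurable_fst.comp measurable_snd
  have m3 : Measurable fun q : (P × H) × (P × H) × (P × H) => q.2.2 :=
    measurable_snd.comp measurable_snd
  have mS1 : Measurable fun q : (P × H) × (P × H) × (P × H) => S₁ q.1 q.2.1 q.2.2 := by
    refine F7ac_mE (fun u => F7ac_ker mu m1 m3 u) fun u => F7ac_mE (fun V => F7ac_ker mV m1 m3 V)
      fun V => F7ac_mE (fun e => F7ac_ker me m1 m2 e) fun e =>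
      F7ac_mE (fun u' => F7ac_ker mu' m2 m3 u') fun u' => ?_
    exact F7ac_ab ((hψ u V).comp m1) ((hψ (e * u') V).comp m1)
  have mS2 : Measurable fun q : (P × H) × (P × H) × (P × H) => S₂ q.1 q.2.1 q.2.2 := by
    refine F7ac_mE (fun u' => F7ac_ker mu' m2 m3 u') fun u' =>
      F7ac_mE (fun V' => F7ac_ker mV' m2 m3 V') fun V' => F7ac_mE (fun e => F7ac_ker me m1 m2 e)
      fun e => F7ac_mE (fun V => F7ac_ker mV m1 m3 V) fun V => ?_
    exact F7ac_ab ((hψ u' V').comp m2) ((hψ u' (e⁻¹ * V)).comp m2)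
  -- the first estimate
  have t1 : c * (∫⁻ x, ∫⁻ x', ∫⁻ y, ∑' u : D.Γ, ∑' V : D.Γ, Ku (x⁻¹ * (u : P × H) * y) *
      KV (x⁻¹ * (V : P × H) * y) * (∑' u' : D.Γ, ∑' V' : D.Γ, Ku' (x'⁻¹ * (u' : P × H) * y) *
      KV' (x'⁻¹ * (V' : P × H) * y) * ab (ψ x u V - ψ x' u' V')) ∂ν ∂ν ∂ν) ≤
      ∫⁻ x, ∫⁻ x', ∫⁻ y, A * (S₁ x x' y + S₂ x x' y) ∂ν ∂ν ∂ν := by
    have hpt : ∀ x x' y : P × H, c * (∑' u : D.Γ, ∑' V : D.Γ, Ku (x⁻¹ * (u : P × H) * y) *
      KV (x⁻¹ * (V : P × H) * y) * (∑' u' : D.Γ, ∑' V' : D.Γ, Ku' (x'⁻¹ * (u' : P × H) * y) *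
      KV' (x'⁻¹ * (V' : P × H) * y) * ab (ψ x u V - ψ x' u' V'))) ≤
        A * (S₁ x x' y + S₂ x x' y) := by
      intro x x' y
      simp only [F7ac_st]
      refine F7ac_pt (fun u V u' V' => ab (ψ x u V - ψ x' u' V'))
        (fun u V w => ab (ψ x u V - ψ x w V)) (fun u' V' W => ab (ψ x' u' V' - ψ x' u' W))
        (h2 x x') (h3 x' y) (h3' x y) ?_
      intro u V u' V' k hk hu' hV
      have hid := h1 x x' y k u' V hk hu' hV
      unfold ab
      rw [← ENNReal.ofReal_add (abs_nonneg _) (abs_nonneg _)]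
      refine ENNReal.ofReal_le_ofReal ?_
      rw [hid, abs_sub_comm (ψ x' u' V')]
      exact abs_sub_le _ _ _
    exact (lintegral_const_mul_le _ _).trans (lintegral_mono fun x =>
      (lintegral_const_mul_le _ _).trans (lintegral_mono fun x' =>
        (lintegral_const_mul_le _ _).trans (lintegral_mono fun y => hpt x x' y)))
  refine t1.trans ?_
  rw [F7ac_add3 ν S₁ S₂ mS1 A mS2]
  have hMM : ∀ g : P × H → P × H → ℝ≥0∞, ∫⁻ x, ∫⁻ y, M * g x y ∂ν ∂ν =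
      M * ∫⁻ x, ∫⁻ y, g x y ∂ν ∂ν := by
    intro g
    simp only [lintegral_const_mul' M _ hM]
  gcongr
  · -- first term
    rw [F7ac_sw1 ν S₁ mS1]
    have k1 : ∀ x y : P × H, ∫⁻ x', S₁ x x' y ∂ν ≤
        M * F7ac_E (fun V : D.Γ => KV (x⁻¹ * (V : P × H) * y)) fun V =>
          F7ac_E (fun u : D.Γ => Ku (x⁻¹ * (u : P × H) * y)) fun u =>
            F7ac_E (fun w : D.Γ => K₁ (x⁻¹ * (w : P × H) * y)) fun w =>
              ab (ψ x u V - ψ x w V) := by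
      intro x y
      have n1 : Measurable fun x' : P × H => x := measurable_const
      have n3 : Measurable fun x' : P × H => y := measurable_const
      have q1 : ∀ u V : D.Γ, Measurable fun x' : P × H =>
          F7ac_E (fun e : D.Γ => Ke (x⁻¹ * (e : P × H) * x')) fun e =>
          F7ac_E (fun u' : D.Γ => Ku' (x'⁻¹ * (u' : P × H) * y)) fun u' =>
            ab (ψ x u V - ψ x (e * u') V) := fun u V =>
        F7ac_mE (fun e => F7ac_ker me n1 measurable_id e) fun e =>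
          F7ac_mE (fun u' => F7ac_ker mu' measurable_id n3 u') fun u' => measurable_const
      rw [hS1]
      simp only
      rw [F7ac_iE ν _ fun u => F7ac_mE (m := fun (_ : P × H) (V : D.Γ) =>
        KV (x⁻¹ * (V : P × H) * y)) (fun V => measurable_const) fun V => q1 u V]
      rw [F7ac_comm (fun V : D.Γ => KV (x⁻¹ * (V : P × H) * y)), ← F7ac_mul]
      refine F7ac_mono fun u _ => ?_
      rw [F7ac_iE ν _ fun V => q1 u V, ← F7ac_mul]
      refine F7ac_mono fun V _ => ?_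
      have := h4 x y fun w => ab (ψ x u V - ψ x w V)
      simp only [F7ac_st] at this
      exact this
    rw [← hMM]
    refine lintegral_mono fun x => lintegral_mono fun y => (k1 x y).trans (le_of_eq ?_)
    simp only [F7ac_st]
    rfl
  · rw [F7ac_sw2 ν S₂ mS2]
    have k2 : ∀ x' y : P × H, ∫⁻ x, S₂ x x' y ∂ν ≤
        M * F7ac_E (fun u' : D.Γ => Ku' (x'⁻¹ * (u' : P × H) * y)) fun u' =>
          F7ac_E (fun V' : D.Γ => KV' (x'⁻¹ * (V' : P × H) * y)) fun V' =>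
            F7ac_E (fun W : D.Γ => K₂ (x'⁻¹ * (W : P × H) * y)) fun W =>
              ab (ψ x' u' V' - ψ x' u' W) := by
      intro x' y
      have n2 : Measurable fun x : P × H => x' := measurable_const
      have n3 : Measurable fun x : P × H => y := measurable_const
      have q2 : ∀ u' V' : D.Γ, Measurable fun x : P × H =>
          F7ac_E (fun e : D.Γ => Ke (x⁻¹ * (e : P × H) * x')) fun e =>
          F7ac_E (fun V : D.Γ => KV (x⁻¹ * (V : P × H) * y)) fun V =>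
            ab (ψ x' u' V' - ψ x' u' (e⁻¹ * V)) := fun u' V' =>
        F7ac_mE (fun e => F7ac_ker me measurable_id n2 e) fun e =>
          F7ac_mE (fun V => F7ac_ker mV measurable_id n3 V) fun V => measurable_const
      rw [hS2]
      simp only
      rw [F7ac_iE ν _ fun u' => F7ac_mE (m := fun (_ : P × H) (V' : D.Γ) =>
        KV' (x'⁻¹ * (V' : P × H) * y)) (fun V' => measurable_const) fun V' => q2 u' V']
      rw [← F7ac_mul]
      refine F7ac_mono fun u' _ => ?_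
      rw [F7ac_iE ν _ fun V' => q2 u' V', ← F7ac_mul]
      refine F7ac_mono fun V' _ => ?_
      have := h5 x' y fun W => ab (ψ x' u' V' - ψ x' u' W)
      simp only [F7ac_st] at this
      exact this
    rw [← hMM]
    refine lintegral_mono fun x => lintegral_mono fun y => (k2 x y).trans (le_of_eq ?_)
    simp only [F7ac_st]
    rfl


private theorem F7ac_mIM (D : Dat P H) {f g : P × H → ℝ≥0∞} (h : ∀ x, f x ≤ g x) :
    D.IM f ≤ D.IM g := by
  unfold Dat.IM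
  exact lintegral_mono fun x => by gcongr; exact h x

private theorem F7ac_tkne (D : Dat P H) {k : P → ℝ≥0∞} {n : ℕ} {g : P × H}
    (h : D.tk k n g ≠ 0) : k g.1 ≠ 0 := fun h0 => h (by simp [Dat.tk, h0])

private theorem F7ac_tkm (D : Dat P H) {k k' : P → ℝ≥0∞} (h : ∀ g, k g ≤ k' g) (n : ℕ)
    (g : P × H) : D.tk k n g ≤ D.tk k' n g := by
  unfold Dat.tk
  gcongr
  exact h _

private theorem F7ac_pos (G : PG P) (gok : G.Ok) :
    ∃ W ∈ 𝓝 (1 : P), ∀ u ∈ W, ∀ u' ∈ W, G.Pos (u * G.w) u' := by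
  have hc : Continuous fun q : P × P => (q.1 * G.w, q.2) := by fun_prop
  have ho : IsOpen {q : P × P | G.Pos (q.1 * G.w) q.2} := gok.Po.preimage hc
  have hm : ((1 : P), (1 : P)) ∈ {q : P × P | G.Pos (q.1 * G.w) q.2} := by
    show G.Pos (1 * G.w) 1
    rw [one_mul]
    exact (gok.Ps _ _).1 gok.P1
  obtain ⟨A, hA, B, hB, hAB⟩ := mem_nhds_prod_iff.1 (ho.mem_nhds hm)
  exact ⟨A ∩ B, Filter.inter_mem hA hB, fun u hu u' hu' =>
    hAB (Set.mk_mem_prod hu.1 hu'.2)⟩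

private theorem F7ac_uwi (G : PG P) {U U' : Set P} (h : U ⊆ interior U') :
    G.uw U ⊆ interior (G.uw U') :=
  (Set.mul_subset_mul_right h).trans (interior_maximal
    (Set.mul_subset_mul_right interior_subset) isOpen_interior.mul_right)

end Int

variable (P H : Type) [Group P] [Group H] [TopologicalSpace P] [TopologicalSpace H]
  [IsTopologicalGroup P] [IsTopologicalGroup H] [LocallyCompactSpace P] [LocallyCompactSpace H]
  [T2Space P] [T2Space H] [SecondCountableTopology P] [SecondCountableTopology H]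
  [MeasurableSpace P] [MeasurableSpace H] [BorelSpace P] [BorelSpace H]

theorem tF7ac : S_CUs P H → S_FUc P H → S_FVc P H → S_mer P H → S_ms1 P → S_ec P → S_phB P H →
    S_lod P H → S_egm P H → S_ton P H → S_DF P → S_AD P → S_inst P H → S_F7ac P H := by
  intro hCUs hFU hFV hmer hms1 hec hphB hlod hegm _hton hDF hAD hinst D G hF
  have hok := hF.ok
  have gok := hF.gok
  have := hok.haar₁
  have := hok.right₁
  have := hok.inv₁
  have hUn : Un D.μ₁ := ⟨hok.haar₁, hok.right₁, hok.inv₁⟩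
  obtain ⟨-, -, hσ, hcΓ, -⟩ := hinst D hok
  have := hσ
  have := hcΓ
  obtain ⟨ec1, ec2, -, -, ec5, -⟩ := hec G D.μ₁ hUn gok
  obtain ⟨hmono, -, -, hAD4, hAD5, -⟩ := hAD G D.μ₁ gok
  obtain ⟨-, dA, -, -, -, -, -, -, wan, Dpmo, dDp⟩ := hDF G gok
  obtain ⟨egm1, egm2, -⟩ := hegm D G hok gok
  refine hCUs D G hok gok 1 (FU D G) (FV D G) (F7a D G) (hFU D G hF) (hFV D G hF) ?_
  intro R U₁ hU₁ U₂ hU₂ cU₁ cU₂
  obtain ⟨Ut, hUt, sUt, cUt⟩ := local_compact_nhds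
    (Filter.inter_mem (interior_mem_nhds.2 hU₁) (interior_mem_nhds.2 hU₂))
  have sUt1 : Ut ⊆ interior U₁ := fun x hx => (sUt hx).1
  have sUt2 : Ut ⊆ interior U₂ := fun x hx => (sUt hx).2
  have cuw : ∀ {U : Set P}, IsCompact U → IsCompact (G.uw U) := fun h =>
    h.mul isCompact_singleton
  obtain ⟨V₁, hV₁, cV₁, C₁, hC₁, h₁⟩ := hms1 G D.μ₁ hUn gok Ut (G.uw Ut) U₁ (G.uw U₁) cUt
    (cuw cUt) sUt1 (F7ac_uwi G sUt1)
  obtain ⟨V₂, hV₂, cV₂, C₂, hC₂, h₂⟩ := hms1 G D.μ₁ hUn gok (G.uw Ut) Ut (G.uw U₂) U₂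
    (cuw cUt) cUt (F7ac_uwi G sUt2) sUt2
  obtain ⟨W₀, hW₀, hpos⟩ := F7ac_pos G gok
  obtain ⟨U, hU, sU, cU⟩ := local_compact_nhds
    (Filter.inter_mem (Filter.inter_mem hUt hV₁) (Filter.inter_mem hV₂ hW₀))
  have sUUt : U ⊆ Ut := fun x hx => (sU hx).1.1
  have sUV1 : U ⊆ V₁ := fun x hx => (sU hx).1.2
  have sUV2 : U ⊆ V₂ := fun x hx => (sU hx).2.1
  have sUW : U ⊆ W₀ := fun x hx => (sU hx).2.2
  have sUU1 : U ⊆ U₁ := sUUt.trans (sUt1.trans interior_subset)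
  have sUU2 : U ⊆ U₂ := sUUt.trans (sUt2.trans interior_subset)
  have uwm : ∀ {A B : Set P}, A ⊆ B → G.uw A ⊆ G.uw B := fun h => Set.mul_subset_mul_right h
  have h1U : (1 : P) ∈ U := mem_of_mem_nhds hU
  -- positivity
  have p1 : ∀ κ ∈ G.uw U, ∀ s ∈ U, G.Pos κ s := by
    rintro κ ⟨u, hu, w', hw', rfl⟩ s hs
    rw [Set.mem_singleton_iff] at hw'
    subst hw'
    exact hpos u (sUW hu) s (sUW hs)
  have p2 : ∀ s ∈ U, ∀ s' ∈ G.uw U * G.D1 ^ (2 * R), G.Pos s s' := by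
    rintro s hs s' ⟨κ, hκ, d, hd, rfl⟩
    rw [gok.Ps]
    exact (gok.Pr _ _ _ (gok.AB (dA _ hd))).2 (p1 κ hκ s hs)
  obtain ⟨kB, hB⟩ := hphB D G gok hF.gf U (G.uw U) U (G.uw U) (G.uw U * G.D1 ^ (2 * R)) U cU
    (cuw cU) cU (cuw cU) ((cuw cU).mul ((hDF G gok).1 _)) cU p1 p2 p1
  obtain ⟨TA, hTA⟩ := hAD4 0 kB
  obtain ⟨cl, Cl, Tl, hcl, hCl, hl⟩ := hlod D G hF U hU cU R
  obtain ⟨TD, hTD⟩ := dDp (2 * R) 0
  refine ⟨U, hU, cU, max (max Tl TA) 1, fun b hb T => ⟨cl⁻¹ * (Cl * (C₁ + C₂)),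
    T + b + Tl + TA + TD + 1, ?_, ?_⟩⟩
  · exact ENNReal.mul_ne_top (ENNReal.inv_ne_top.2 hcl.ne')
      (ENNReal.mul_ne_top hCl (ENNReal.add_ne_top.2 ⟨hC₁, hC₂⟩))
  intro r hr d hd n m hnm
  obtain ⟨o1, o2, o3, o4⟩ := hnm
  have hb1 : 1 ≤ b := le_trans (le_max_right _ _) hb
  have hbl : Tl ≤ b := le_trans (le_trans (le_max_left _ _) (le_max_left _ _)) hb
  have hbA : TA ≤ b := le_trans (le_trans (le_max_right _ _) (le_max_left _ _)) hb
  refine ⟨n + b, m, n, m + b, ⟨by omega, by omega, by omega, by omega⟩,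
    ⟨by omega, by omega, by omega, by omega⟩, fun φ hφ => ?_⟩
  have hdA : d ∈ G.A := dA _ hd
  have haN : ∀ N : ℕ, G.a ^ N ∈ G.A := fun N => G.A.pow_mem gok.aA N
  have haD : ∀ N : ℕ, G.a ^ N ∈ G.Dp 0 := fun N => Dpmo 0 N (Nat.zero_le _) (gok.Dpa N)
  have hwaw : ∀ N : ℕ, G.w * (G.a ^ N)⁻¹ * G.w = G.a ^ N := fun N => by
    rw [mul_assoc, ← wan, ← mul_assoc, gok.ww, one_mul]
  -- measurability
  have mch : ∀ N, Measurable (D.ch G U N) := fun N => egm1 U (G.uw U) cU (cuw cU) 0 N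
  have mbk : ∀ N, Measurable (D.bk G U d N) := fun N =>
    egm1 (G.uw U * ({d} : Set P)) U ((cuw cU).mul isCompact_singleton) cU 0 N
  have mψ : ∀ u v : D.Γ, Measurable fun x : P × H => pv G φ x u v := by
    intro u v
    have := egm2 φ hφ 1 (u * v⁻¹)
    simpa only [mul_one, pv] using this
  -- kernels
  have e1 : ∀ g, cvP D.μ₁ (eP D.μ₁ G U (G.uw U) 0 b) (eP D.μ₁ G U (G.uw U) 0 n) g ≤
      C₁ * eP D.μ₁ G U₁ (G.uw U₁) 0 (n + b) g := by
    intro g
    calc cvP D.μ₁ (eP D.μ₁ G U (G.uw U) 0 b) (eP D.μ₁ G U (G.uw U) 0 n) g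
        ≤ cvP D.μ₁ (ec D.μ₁ G Ut (G.uw V₁) (G.a ^ b)) (ec D.μ₁ G V₁ (G.uw Ut) (G.a ^ n)) g := by
          unfold cvP
          refine lintegral_mono fun q => ?_
          simp only
          rw [(ec1 U (G.uw U) 1 b q).2, (ec1 U (G.uw U) 1 n (q⁻¹ * g)).2]
          exact mul_le_mul' (ec5 _ _ _ _ _ _ sUUt (uwm sUV1)) (ec5 _ _ _ _ _ _ sUV1 (uwm sUUt))
      _ ≤ C₁ * ec D.μ₁ G U₁ (G.uw U₁) (G.a ^ b * G.a ^ n) g := (h₁ _ (haD b) _ (haD n) g).1
      _ = C₁ * eP D.μ₁ G U₁ (G.uw U₁) 0 (n + b) g := by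
          rw [(ec1 U₁ (G.uw U₁) 1 (n + b) g).2, ← pow_add, add_comm b n]
  have hdm : d * G.a ^ m ∈ G.Dp 0 := hTD m (by omega) d hd
  have e2 : ∀ g, cvP D.μ₁ (fun g => eP D.μ₁ G U (G.uw U) 0 b g⁻¹)
      (eP D.μ₁ G (G.uw U * {d}) U 0 m) g ≤
      C₂ * eP D.μ₁ G (G.uw U₂ * {d}) U₂ 0 (m + b) g := by
    intro g
    calc cvP D.μ₁ (fun g => eP D.μ₁ G U (G.uw U) 0 b g⁻¹) (eP D.μ₁ G (G.uw U * {d}) U 0 m) g
        ≤ cvP D.μ₁ (ec D.μ₁ G (G.uw Ut) V₂ (G.a ^ b)) (ec D.μ₁ G (G.uw V₂) Ut (d * G.a ^ m)) g := by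
          unfold cvP
          refine lintegral_mono fun q => ?_
          simp only
          rw [(ec1 U (G.uw U) 1 b q⁻¹).2, ec2, hwaw, (ec1 (G.uw U) U d m (q⁻¹ * g)).1]
          exact mul_le_mul' (ec5 _ _ _ _ _ _ (uwm sUUt) sUV2) (ec5 _ _ _ _ _ _ (uwm sUV2) sUUt)
      _ ≤ C₂ * ec D.μ₁ G (G.uw U₂) U₂ (G.a ^ b * (d * G.a ^ m)) g := (h₂ _ (haD b) _ hdm g).2
      _ = C₂ * eP D.μ₁ G (G.uw U₂ * {d}) U₂ 0 (m + b) g := by
          rw [(ec1 (G.uw U₂) U₂ d (m + b) g).1]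
          have : G.a ^ b * (d * G.a ^ m) = d * G.a ^ (m + b) := by
            rw [← mul_assoc, gok.comm _ (haN b) _ hdA, mul_assoc, ← pow_add, add_comm b m]
          rw [this]
  have mP1 : ∀ N, Measurable (eP D.μ₁ G U (G.uw U) 0 N) := fun N => hAD5 U (G.uw U) cU (cuw cU) 0 N
  have mP2 : ∀ N, Measurable (eP D.μ₁ G (G.uw U * {d}) U 0 N) := fun N =>
    hAD5 (G.uw U * {d}) U ((cuw cU).mul isCompact_singleton) cU 0 N
  have hMt : C₁ + C₂ ≠ ∞ := ENNReal.add_ne_top.2 ⟨hC₁, hC₂⟩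
  have key := F7ac_int D hok (Ku := D.ch G U (n + b)) (KV := D.bk G U d m) (Ku' := D.ch G U n)
    (KV' := D.bk G U d (m + b)) (Ke := D.ch G U b) (K₁ := D.ch G U₁ (n + b))
    (K₂ := D.bk G U₂ d (m + b)) (mch _) (mbk _) (mch _) (mbk _) (mch _) (pv G φ) mψ
    (c := cl) (A := Cl) (M := C₁ + C₂) hMt
    (by
      intro x x' y e u' V he hu' hV
      have w1 := hTA b hbA _ _ _ (F7ac_tkne D he)
      have w2 := hTA n (by omega) _ _ _ (F7ac_tkne D hu')
      have w3 := hTA m (by omega) _ _ _ (F7ac_tkne D hV)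
      have w3' : (x⁻¹ * (V : P × H) * y).1 ∈ G.W (G.uw U * G.D1 ^ (2 * R)) U kB := by
        obtain ⟨s, ⟨κ, hκ, d', hd', rfl⟩, t, ht, q, hq, hg⟩ := w3
        rw [Set.mem_singleton_iff] at hd'
        subst hd'
        exact ⟨_, Set.mul_mem_mul hκ hd, t, ht, q, hq, hg⟩
      have := hB x x' y e u' V w1 w2 w3' φ hφ 1 h1U 1 h1U
      simpa only [mul_one, pv] using this)
    (fun x x' => (hl d hd x x').2.2.1 b hbl) (fun x y => (hl d hd x y).2.1 _)
    (fun x y => (hl d hd x y).2.2.2.1 _)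
    (by
      intro x y F
      have := (hmer D hok (eP D.μ₁ G U (G.uw U) 0 b) (eP D.μ₁ G U (G.uw U) 0 n) b n (mP1 b)
        (mP1 n) hb1 (by omega) F).1 x y
      refine (le_of_eq this).trans ?_
      rw [← ENNReal.tsum_mul_left]
      refine ENNReal.tsum_le_tsum fun w => ?_
      rw [← mul_assoc]
      gcongr
      show _ * D.nu (b + n) _ ≤ _ * (_ * D.nu (n + b) _)
      rw [← mul_assoc, add_comm b n]
      gcongr
      exact (e1 _).trans (mul_le_mul' le_self_add le_rfl))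
    (by
      intro x' y F
      have := (hmer D hok (eP D.μ₁ G U (G.uw U) 0 b) (eP D.μ₁ G (G.uw U * {d}) U 0 m) b m (mP1 b)
        (mP2 m) hb1 (by omega) F).2 x' y
      refine (le_of_eq this).trans ?_
      rw [← ENNReal.tsum_mul_left]
      refine ENNReal.tsum_le_tsum fun w => ?_
      rw [← mul_assoc]
      gcongr
      show _ * D.nu (b + m) _ ≤ _ * (_ * D.nu (m + b) _)
      rw [← mul_assoc, add_comm b m]
      gcongr
      exact (e2 _).trans (mul_le_mul' le_add_self le_rfl))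
  have clt : cl ≠ ∞ := ne_top_of_le_ne_top hCl
    (((hl d hd 1 1).2.2.1 Tl le_rfl).trans ((hl d hd 1 1).2.2.2.1 Tl))
  have f1 : (D.IM fun x => D.IM fun y => ∑' V : D.Γ, D.bk G U d m (x⁻¹ * (V : P × H) * y) *
      D.st2 (D.ch G U (n + b)) (D.ch G U₁ (n + b)) x y fun u w =>
        ab (pv G φ x u V - pv G φ x w V)) ≤ FU D G U₁ d b (n + b) m φ := by
    unfold FU
    refine F7ac_mIM D fun x => F7ac_mIM D fun y => ENNReal.tsum_le_tsum fun V => ?_
    refine mul_le_mul' ?_ ?_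
    · exact F7ac_tkm D (hmono _ _ _ _ _ _ _ (Set.mul_subset_mul_right (uwm sUU1)) sUU1 le_rfl) _ _
    · unfold Dat.st2
      refine ENNReal.tsum_le_tsum fun u => ENNReal.tsum_le_tsum fun v => ?_
      gcongr
      exact F7ac_tkm D (hmono _ _ _ _ _ _ _ sUU1 (uwm sUU1) le_rfl) _ _
  have f2 : (D.IM fun x => D.IM fun y => ∑' u : D.Γ, D.ch G U n (x⁻¹ * (u : P × H) * y) *
      D.st2 (D.bk G U d (m + b)) (D.bk G U₂ d (m + b)) x y fun V' W =>
        ab (pv G φ x u V' - pv G φ x u W)) ≤ FV D G U₂ d b n (m + b) φ := by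
    unfold FV
    refine F7ac_mIM D fun x => F7ac_mIM D fun y => ENNReal.tsum_le_tsum fun V => ?_
    refine mul_le_mul' ?_ ?_
    · exact F7ac_tkm D (hmono _ _ _ _ _ _ _ sUU2 (uwm sUU2) le_rfl) _ _
    · unfold Dat.st2
      refine ENNReal.tsum_le_tsum fun u => ENNReal.tsum_le_tsum fun v => ?_
      gcongr
      exact F7ac_tkm D (hmono _ _ _ _ _ _ _ (Set.mul_subset_mul_right (uwm sUU2)) sUU2 le_rfl) _ _
  calc F7a D G U d b n m φ = cl⁻¹ * (cl * F7a D G U d b n m φ) := by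
        rw [← mul_assoc, ENNReal.inv_mul_cancel hcl.ne' clt, one_mul]
    _ ≤ cl⁻¹ * (Cl * ((C₁ + C₂) * FU D G U₁ d b (n + b) m φ +
          (C₁ + C₂) * FV D G U₂ d b n (m + b) φ)) := by
        refine mul_le_mul' le_rfl (key.trans (mul_le_mul' le_rfl (add_le_add ?_ ?_)))
        · exact mul_le_mul' le_rfl f1
        · exact mul_le_mul' le_rfl f2
    _ = _ := by ring

end Pool.Agent.MPEF.U
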