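import Pool.Agent.Lib.MP_ef3f0f_gt.U.E.SpecC

set_option autoImplicit false

/-!
# MP_ef3f0f_gt, Theorem U, Part E: change of `y` (`S_F7bc`)
-/

namespace Pool.Agent.MPEF.U

open MeasureTheory Topology
open scoped ENNReal Pointwise

private lemma F7bc_ab (a b c : ℝ) : ab (a - c) ≤ ab (a - b) + ab (b - c) := by
  unfold ab
  rw [← ENNReal.ofReal_add (abs_nonneg _) (abs_nonneg _)]
  exact ENNReal.ofReal_le_ofReal (abs_sub_le a b c)

private lemma F7bc_alg {Γ : Type} (a b α β : Γ → ℝ≥0∞) (S1 S2 : Γ → Γ → Γ → ℝ≥0∞)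
    (C : ℝ≥0∞) (hβ : ∑' v, β v ≤ C) (ha : ∑' v, a v ≤ C) :
    ∑' u, ∑' V, a u * b V * (∑' u', ∑' V', α u' * β V' * (S1 u V u' + S2 V u' V')) ≤
      C * (∑' u, ∑' V, a u * b V * ∑' u', α u' * S1 u V u') +
      C * (∑' u', ∑' V', α u' * β V' * ∑' V, b V * S2 V u' V') := by
  have h1 : ∀ u V, ∑' u', ∑' V', α u' * β V' * (S1 u V u' + S2 V u' V') ≤
      C * (∑' u', α u' * S1 u V u') + ∑' u', ∑' V', α u' * β V' * S2 V u' V' := by
    intro u V
    simp only [mul_add, ENNReal.tsum_add]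
    refine add_le_add ?_ le_rfl
    rw [← ENNReal.tsum_mul_left]
    refine ENNReal.tsum_le_tsum fun u' => ?_
    calc ∑' V', α u' * β V' * S1 u V u' = ∑' V', (α u' * S1 u V u') * β V' :=
          tsum_congr fun V' => by ring
      _ = (α u' * S1 u V u') * ∑' V', β V' := ENNReal.tsum_mul_left
      _ ≤ (α u' * S1 u V u') * C := by gcongr
      _ = C * (α u' * S1 u V u') := mul_comm _ _
  have h2 : ∑' u, ∑' V, a u * b V * (∑' u', ∑' V', α u' * β V' * S2 V u' V') ≤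
      C * (∑' u', ∑' V', α u' * β V' * ∑' V, b V * S2 V u' V') := by
    have e1 : ∑' u, ∑' V, a u * b V * (∑' u', ∑' V', α u' * β V' * S2 V u' V') =
        (∑' u, a u) * ∑' V, b V * (∑' u', ∑' V', α u' * β V' * S2 V u' V') := by
      rw [← ENNReal.tsum_mul_right]
      refine tsum_congr fun u => ?_
      rw [← ENNReal.tsum_mul_left]
      exact tsum_congr fun V => by ring
    have e2 : ∑' V, b V * (∑' u', ∑' V', α u' * β V' * S2 V u' V') =
        ∑' u', ∑' V', α u' * β V' * ∑' V, b V * S2 V u' V' := by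
      simp only [← ENNReal.tsum_mul_left]
      rw [ENNReal.tsum_comm]
      refine tsum_congr fun u' => ?_
      rw [ENNReal.tsum_comm]
      exact tsum_congr fun V' => tsum_congr fun V => by ring
    rw [e1, e2]
    gcongr
  calc ∑' u, ∑' V, a u * b V * (∑' u', ∑' V', α u' * β V' * (S1 u V u' + S2 V u' V'))
      ≤ ∑' u, ∑' V, a u * b V * (C * (∑' u', α u' * S1 u V u') +
          ∑' u', ∑' V', α u' * β V' * S2 V u' V') :=
        ENNReal.tsum_le_tsum fun u => ENNReal.tsum_le_tsum fun V => by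
          gcongr
          exact h1 u V
    _ = C * (∑' u, ∑' V, a u * b V * ∑' u', α u' * S1 u V u') +
        ∑' u, ∑' V, a u * b V * (∑' u', ∑' V', α u' * β V' * S2 V u' V') := by
        simp only [mul_add, ENNReal.tsum_add]
        congr 1
        rw [← ENNReal.tsum_mul_left]
        refine tsum_congr fun u => ?_
        rw [← ENNReal.tsum_mul_left]
        exact tsum_congr fun V => by ring
    _ ≤ _ := by gcongr

/-- Abstract form of the change of the end point. -/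
private lemma F7bc_core {Γ M : Type} [Group Γ] [Countable Γ] [MeasurableSpace M]
    (ρ : Measure M) [SFinite ρ] (A1 B1 A2 B2 A3 B3 : Γ → M → ℝ≥0∞) (E : Γ → M × M → ℝ≥0∞)
    (mA1 : ∀ u, Measurable (A1 u)) (mB1 : ∀ u, Measurable (B1 u))
    (mA2 : ∀ u, Measurable (A2 u)) (mB2 : ∀ u, Measurable (B2 u))
    (mE : ∀ e, Measurable (E e)) (q : Γ → ℝ) (c C C' : ℝ≥0∞) (hc : c ≠ 0) (hc' : c ≠ ∞)
    (hC' : C' ≠ ∞) (hE : ∀ y' y, c ≤ ∑' e, E e (y', y)) (hB2 : ∀ y', ∑' V, B2 V y' ≤ C)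
    (hA1 : ∀ y, ∑' u, A1 u y ≤ C)
    (hm1 : ∀ y (F : Γ → ℝ≥0∞), ∫⁻ y', ∑' u', ∑' e, A2 u' y' * E e (y', y) * F (u' * e) ∂ρ ≤
      C' * ∑' w, A3 w y * F w)
    (hm2 : ∀ y' (F : Γ → ℝ≥0∞), ∫⁻ y, ∑' V, ∑' e, B1 V y * E e (y', y) * F (V * e⁻¹) ∂ρ ≤
      C' * ∑' W, B3 W y' * F W) :
    ∫⁻ y, ∫⁻ y', ∑' u, ∑' V, A1 u y * B1 V y * (∑' u', ∑' V', A2 u' y' * B2 V' y' *
        ab (q (u * V⁻¹) - q (u' * V'⁻¹))) ∂ρ ∂ρ ≤
      c⁻¹ * (C * (C' * ∫⁻ y, ∑' u, ∑' V, A1 u y * B1 V y *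
          ∑' w, A3 w y * ab (q (u * V⁻¹) - q (w * V⁻¹)) ∂ρ) +
        C * (C' * ∫⁻ y', ∑' u', ∑' V', A2 u' y' * B2 V' y' *
          ∑' W, B3 W y' * ab (q (u' * W⁻¹) - q (u' * V'⁻¹)) ∂ρ)) := by
  -- the two pieces
  let T1 : M × M → ℝ≥0∞ := fun z => ∑' u, ∑' V, A1 u z.2 * B1 V z.2 *
    ∑' u', A2 u' z.1 * ∑' e, E e z * ab (q (u * V⁻¹) - q (u' * e * V⁻¹))
  let T2 : M × M → ℝ≥0∞ := fun z => ∑' u', ∑' V', A2 u' z.1 * B2 V' z.1 *
    ∑' V, B1 V z.2 * ∑' e, E e z * ab (q (u' * e * V⁻¹) - q (u' * V'⁻¹))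
  have mT1 : Measurable T1 := by
    refine Measurable.tsum fun u => Measurable.tsum fun V => ?_
    refine (((mA1 u).comp measurable_snd).mul ((mB1 V).comp measurable_snd)).mul ?_
    refine Measurable.tsum fun u' => ((mA2 u').comp measurable_fst).mul ?_
    exact Measurable.tsum fun e => (mE e).mul measurable_const
  have mT2 : Measurable T2 := by
    refine Measurable.tsum fun u => Measurable.tsum fun V => ?_
    refine (((mA2 u).comp measurable_fst).mul ((mB2 V).comp measurable_fst)).mul ?_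
    refine Measurable.tsum fun u' => ((mB1 u').comp measurable_snd).mul ?_
    exact Measurable.tsum fun e => (mE e).mul measurable_const
  -- pointwise bound
  have hpt : ∀ y y', ∑' u, ∑' V, A1 u y * B1 V y * (∑' u', ∑' V', A2 u' y' * B2 V' y' *
      ab (q (u * V⁻¹) - q (u' * V'⁻¹))) ≤ c⁻¹ * (C * T1 (y', y) + C * T2 (y', y)) := by
    intro y y'
    have h1 : c * (∑' u, ∑' V, A1 u y * B1 V y * (∑' u', ∑' V', A2 u' y' * B2 V' y' *
        ab (q (u * V⁻¹) - q (u' * V'⁻¹)))) ≤ C * T1 (y', y) + C * T2 (y', y) := by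
      refine le_trans ?_ (F7bc_alg (fun u => A1 u y) (fun V => B1 V y) (fun u => A2 u y')
        (fun V => B2 V y')
        (fun u V u' => ∑' e, E e (y', y) * ab (q (u * V⁻¹) - q (u' * e * V⁻¹)))
        (fun V u' V' => ∑' e, E e (y', y) * ab (q (u' * e * V⁻¹) - q (u' * V'⁻¹)))
        C (hB2 y') (hA1 y))
      rw [← ENNReal.tsum_mul_left]
      refine ENNReal.tsum_le_tsum fun u => ?_
      rw [← ENNReal.tsum_mul_left]
      refine ENNReal.tsum_le_tsum fun V => ?_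
      rw [mul_left_comm]
      refine mul_le_mul_right ?_ _
      rw [← ENNReal.tsum_mul_left]
      refine ENNReal.tsum_le_tsum fun u' => ?_
      rw [← ENNReal.tsum_mul_left]
      refine ENNReal.tsum_le_tsum fun V' => ?_
      rw [mul_left_comm]
      refine mul_le_mul_right ?_ _
      rw [← ENNReal.tsum_add]
      calc c * ab (q (u * V⁻¹) - q (u' * V'⁻¹))
          ≤ (∑' e, E e (y', y)) * ab (q (u * V⁻¹) - q (u' * V'⁻¹)) := by
            gcongr
            exact hE y' y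
        _ = ∑' e, E e (y', y) * ab (q (u * V⁻¹) - q (u' * V'⁻¹)) :=
            ENNReal.tsum_mul_right.symm
        _ ≤ _ := ENNReal.tsum_le_tsum fun e => by
            rw [← mul_add]
            gcongr
            exact F7bc_ab _ _ _
    calc _ = c⁻¹ * (c * _) := by rw [← mul_assoc, ENNReal.inv_mul_cancel hc hc', one_mul]
      _ ≤ _ := by gcongr
  -- the first piece
  have hT1 : ∫⁻ y, ∫⁻ y', T1 (y', y) ∂ρ ∂ρ ≤ C' * ∫⁻ y, ∑' u, ∑' V, A1 u y * B1 V y *
      ∑' w, A3 w y * ab (q (u * V⁻¹) - q (w * V⁻¹)) ∂ρ := by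
    rw [← lintegral_const_mul' _ _ hC']
    refine lintegral_mono fun y => ?_
    have m0 : ∀ (u V : Γ), Measurable fun y' => ∑' u', A2 u' y' *
        ∑' e, E e (y', y) * ab (q (u * V⁻¹) - q (u' * e * V⁻¹)) := fun u V =>
      Measurable.tsum fun u' => (mA2 u').mul (Measurable.tsum fun e =>
        ((mE e).comp (measurable_id.prodMk measurable_const)).mul measurable_const)
    calc ∫⁻ y', T1 (y', y) ∂ρ = ∑' u, ∑' V, A1 u y * B1 V y * ∫⁻ y', ∑' u', A2 u' y' *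
          ∑' e, E e (y', y) * ab (q (u * V⁻¹) - q (u' * e * V⁻¹)) ∂ρ := by
          show ∫⁻ y', ∑' u, ∑' V, A1 u y * B1 V y * ∑' u', A2 u' y' *
            ∑' e, E e (y', y) * ab (q (u * V⁻¹) - q (u' * e * V⁻¹)) ∂ρ = _
          rw [lintegral_tsum fun u => (Measurable.tsum fun V =>
            (m0 u V).const_mul (A1 u y * B1 V y)).aemeasurable]
          refine tsum_congr fun u => ?_
          rw [lintegral_tsum fun V => ((m0 u V).const_mul (A1 u y * B1 V y)).aemeasurable]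
          exact tsum_congr fun V => lintegral_const_mul _ (m0 u V)
      _ ≤ ∑' u, ∑' V, A1 u y * B1 V y *
          (C' * ∑' w, A3 w y * ab (q (u * V⁻¹) - q (w * V⁻¹))) :=
          ENNReal.tsum_le_tsum fun u => ENNReal.tsum_le_tsum fun V => by
            gcongr
            refine le_trans (le_of_eq ?_) (hm1 y fun w => ab (q (u * V⁻¹) - q (w * V⁻¹)))
            refine lintegral_congr fun y' => tsum_congr fun u' => ?_
            rw [← ENNReal.tsum_mul_left]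
            exact tsum_congr fun e => (mul_assoc _ _ _).symm
      _ = C' * ∑' u, ∑' V, A1 u y * B1 V y *
          ∑' w, A3 w y * ab (q (u * V⁻¹) - q (w * V⁻¹)) := by
          rw [← ENNReal.tsum_mul_left]
          refine tsum_congr fun u => ?_
          rw [← ENNReal.tsum_mul_left]
          exact tsum_congr fun V => mul_left_comm _ _ _
  have hT2 : ∫⁻ y, ∫⁻ y', T2 (y', y) ∂ρ ∂ρ ≤ C' * ∫⁻ y', ∑' u', ∑' V', A2 u' y' * B2 V' y' *
      ∑' W, B3 W y' * ab (q (u' * W⁻¹) - q (u' * V'⁻¹)) ∂ρ := by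
    rw [lintegral_lintegral_swap (f := fun y y' => T2 (y', y))
      (mT2.comp measurable_swap).aemeasurable, ← lintegral_const_mul' _ _ hC']
    refine lintegral_mono fun y' => ?_
    have m0 : ∀ (u' V' : Γ), Measurable fun y => ∑' V, B1 V y *
        ∑' e, E e (y', y) * ab (q (u' * e * V⁻¹) - q (u' * V'⁻¹)) := fun u' V' =>
      Measurable.tsum fun V => (mB1 V).mul (Measurable.tsum fun e =>
        ((mE e).comp (measurable_const.prodMk measurable_id)).mul measurable_const)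
    calc ∫⁻ y, T2 (y', y) ∂ρ = ∑' u', ∑' V', A2 u' y' * B2 V' y' * ∫⁻ y, ∑' V, B1 V y *
          ∑' e, E e (y', y) * ab (q (u' * e * V⁻¹) - q (u' * V'⁻¹)) ∂ρ := by
          show ∫⁻ y, ∑' u', ∑' V', A2 u' y' * B2 V' y' * ∑' V, B1 V y *
            ∑' e, E e (y', y) * ab (q (u' * e * V⁻¹) - q (u' * V'⁻¹)) ∂ρ = _
          rw [lintegral_tsum fun u => (Measurable.tsum fun V =>
            (m0 u V).const_mul (A2 u y' * B2 V y')).aemeasurable]
          refine tsum_congr fun u => ?_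
          rw [lintegral_tsum fun V => ((m0 u V).const_mul (A2 u y' * B2 V y')).aemeasurable]
          exact tsum_congr fun V => lintegral_const_mul _ (m0 u V)
      _ ≤ ∑' u', ∑' V', A2 u' y' * B2 V' y' *
          (C' * ∑' W, B3 W y' * ab (q (u' * W⁻¹) - q (u' * V'⁻¹))) :=
          ENNReal.tsum_le_tsum fun u' => ENNReal.tsum_le_tsum fun V' => by
            gcongr
            refine le_trans (le_of_eq ?_) (hm2 y' fun W => ab (q (u' * W⁻¹) - q (u' * V'⁻¹)))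
            refine lintegral_congr fun y => tsum_congr fun V => ?_
            rw [← ENNReal.tsum_mul_left]
            refine tsum_congr fun e => ?_
            rw [mul_inv_rev, inv_inv, mul_assoc u' e V⁻¹]
            exact (mul_assoc _ _ _).symm
      _ = C' * ∑' u', ∑' V', A2 u' y' * B2 V' y' *
          ∑' W, B3 W y' * ab (q (u' * W⁻¹) - q (u' * V'⁻¹)) := by
          rw [← ENNReal.tsum_mul_left]
          refine tsum_congr fun u => ?_
          rw [← ENNReal.tsum_mul_left]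
          exact tsum_congr fun V => mul_left_comm _ _ _
  have mi : ∀ y, Measurable fun y' => T1 (y', y) := fun y =>
    mT1.comp (measurable_id.prodMk measurable_const)
  have mi2 : ∀ y, Measurable fun y' => T2 (y', y) := fun y =>
    mT2.comp (measurable_id.prodMk measurable_const)
  calc _ ≤ ∫⁻ y, ∫⁻ y', c⁻¹ * (C * T1 (y', y) + C * T2 (y', y)) ∂ρ ∂ρ :=
        lintegral_mono fun y => lintegral_mono fun y' => hpt y y'
    _ = ∫⁻ y, c⁻¹ * (C * ∫⁻ y', T1 (y', y) ∂ρ + C * ∫⁻ y', T2 (y', y) ∂ρ) ∂ρ := by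
        refine lintegral_congr fun y => ?_
        rw [lintegral_const_mul' _ _ (ENNReal.inv_ne_top.2 hc),
          lintegral_add_left ((mi y).const_mul C), lintegral_const_mul _ (mi y),
          lintegral_const_mul _ (mi2 y)]
    _ = c⁻¹ * (C * ∫⁻ y, ∫⁻ y', T1 (y', y) ∂ρ ∂ρ + C * ∫⁻ y, ∫⁻ y', T2 (y', y) ∂ρ ∂ρ) := by
        rw [lintegral_const_mul' _ _ (ENNReal.inv_ne_top.2 hc),
          lintegral_add_left (mT1.lintegral_prod_left'.const_mul C),
          lintegral_const_mul _ mT1.lintegral_prod_left',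
          lintegral_const_mul _ mT2.lintegral_prod_left']
    _ ≤ _ := by gcongr

private lemma F7bc_uw {P : Type} [Group P] [TopologicalSpace P] [IsTopologicalGroup P]
    (G : PG P) {S S' : Set P} (h : S ⊆ interior S') : G.uw S ⊆ interior (G.uw S') := by
  have h1 : IsOpen (interior S' * {G.w}) := isOpen_interior.mul_right
  exact (Set.mul_subset_mul_right h).trans
    (interior_maximal (Set.mul_subset_mul_right interior_subset) h1)

private lemma F7bc_cv {P : Type} [Group P] [MeasurableSpace P] (μ : Measure P)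
    {k k' K K' : P → ℝ≥0∞} (h : ∀ g, k g ≤ K g) (h' : ∀ g, k' g ≤ K' g) (g : P) :
    cvP μ k k' g ≤ cvP μ K K' g :=
  lintegral_mono fun q => mul_le_mul' (h q) (h' _)

section

variable {P H : Type} [Group P] [Group H] [MeasurableSpace P] [MeasurableSpace H]

private lemma F7bc_tk (D : Dat P H) {k k' : P → ℝ≥0∞} (C : ℝ≥0∞) (h : ∀ g, k g ≤ C * k' g)
    (n : ℕ) (g : P × H) : D.tk k n g ≤ C * D.tk k' n g := by
  unfold Dat.tk
  rw [← mul_assoc]
  exact mul_le_mul' (h _) le_rfl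

private lemma F7bc_IM [TopologicalSpace P] [TopologicalSpace H] (D : Dat P H) (hD : D.Ok)
    (f : P × H → ℝ≥0∞) : D.IM f = ∫⁻ x, f x ∂(D.μ.withDensity D.χ) := by
  rw [lintegral_withDensity_eq_lintegral_mul_non_measurable _ hD.χm
    (Filter.Eventually.of_forall fun x => lt_of_le_of_lt (hD.χ1 x) ENNReal.one_lt_top)]
  rfl

private lemma F7bc_pr [TopologicalSpace P] [TopologicalSpace H] (D : Dat P H) (hD : D.Ok) :
    IsProbabilityMeasure (D.μ.withDensity D.χ) :=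
  ⟨by rw [withDensity_apply _ MeasurableSet.univ, Measure.restrict_univ, hD.mass]⟩

end

variable (P H : Type) [Group P] [Group H] [TopologicalSpace P] [TopologicalSpace H]
  [IsTopologicalGroup P] [IsTopologicalGroup H] [LocallyCompactSpace P] [LocallyCompactSpace H]
  [T2Space P] [T2Space H] [SecondCountableTopology P] [SecondCountableTopology H]
  [MeasurableSpace P] [MeasurableSpace H] [BorelSpace P] [BorelSpace H]

omit [IsTopologicalGroup P] [IsTopologicalGroup H] [T2Space P] [T2Space H] [BorelSpace P]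
  [BorelSpace H] in
private lemma F7bc_cnt (D : Dat P H) (hD : D.Ok) : Countable D.Γ := by
  have h : (D.Γ : Set (P × H)) ⊆ ⋃ n, {γ | γ ∈ D.Γ ∧ γ ∈ compactCovering (P × H) n} := by
    intro γ hγ
    have h1 : γ ∈ ⋃ n, compactCovering (P × H) n := by
      rw [iUnion_compactCovering]
      exact Set.mem_univ _
    obtain ⟨n, hn⟩ := Set.mem_iUnion.1 h1
    exact Set.mem_iUnion.2 ⟨n, hγ, hn⟩
  exact ((Set.countable_iUnion fun n =>
    (hD.disc _ (isCompact_compactCovering (P × H) n)).countable).mono h).to_subtype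

theorem tF7bc : S_CUs P H → S_FUc P H → S_FVc P H → S_mer P H → S_mer3 P H → S_ms1 P →
    S_ec P → S_lod P H → S_egm P H → S_ton P H → S_DF P → S_F7bc P H := by
  intro hCUs hFUc hFVc hmer hmer3 hms1 hec hlod hegm _hton hDF D G hF
  have hD := hF.ok
  have hG := hF.gok
  have hUn : Un D.μ₁ := ⟨hD.haar₁, hD.right₁, hD.inv₁⟩
  have hcnt : Countable D.Γ := F7bc_cnt P H D hD
  have hpr : IsProbabilityMeasure (D.μ.withDensity D.χ) := F7bc_pr D hD
  refine hCUs D G hD hG 1 (FU D G) (FV D G) (F7b D G) (hFUc D G hF) (hFVc D G hF) ?_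
  intro R U₁ hU₁ U₂ hU₂ cU₁ cU₂
  obtain ⟨-, -, -, -, -, -, -, -, hwa, hDp, hDT⟩ := hDF G hG
  obtain ⟨e1, e2, -, -, e5, -, -, e8⟩ := hec G D.μ₁ hUn hG
  obtain ⟨g1, g2, -, -⟩ := hegm D G hD hG
  have aDp : ∀ n : ℕ, G.a ^ n ∈ G.Dp 0 := fun n => hDp 0 n (Nat.zero_le n) (hG.Dpa n)
  have cw : ∀ S : Set P, IsCompact S → IsCompact (G.uw S) := fun S hS =>
    hS.mul isCompact_singleton
  -- the small neighbourhood
  obtain ⟨W, hW, hWs, cW⟩ := local_compact_nhds
    (Filter.inter_mem (interior_mem_nhds.2 hU₁) (interior_mem_nhds.2 hU₂))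
  have hW1 : W ⊆ interior U₁ := fun x hx => (hWs hx).1
  have hW2 : W ⊆ interior U₂ := fun x hx => (hWs hx).2
  obtain ⟨V₁, hV₁, cV₁, C₁, hC₁, hm₁⟩ := hms1 G D.μ₁ hUn hG W (G.uw W) U₁ (G.uw U₁) cW
    (cw W cW) hW1 (F7bc_uw G hW1)
  obtain ⟨V₂, hV₂, cV₂, C₂, hC₂, hm₂⟩ := hms1 G D.μ₁ hUn hG (G.uw W) W (G.uw U₂) U₂ (cw W cW)
    cW (F7bc_uw G hW2) hW2
  obtain ⟨U, hU, cU, hUW, hUV₁, hUV₂⟩ : ∃ U ∈ 𝓝 (1 : P), IsCompact U ∧ U ⊆ W ∧ U ⊆ V₁ ∧
      U ⊆ V₂ :=
    ⟨W ∩ (V₁ ∩ V₂), Filter.inter_mem hW (Filter.inter_mem hV₁ hV₂), cW.inter (cV₁.inter cV₂),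
      fun x hx => hx.1, fun x hx => hx.2.1, fun x hx => hx.2.2⟩
  have hUU₁ : U ⊆ U₁ := (hUW.trans hW1).trans interior_subset
  have hUU₂ : U ⊆ U₂ := (hUW.trans hW2).trans interior_subset
  have uwm : ∀ {S S' : Set P}, S ⊆ S' → G.uw S ⊆ G.uw S' := fun h =>
    Set.mul_subset_mul_right h
  refine ⟨U, hU, cU, ?_⟩
  obtain ⟨c, C, T₀, hc, hC, hl⟩ := hlod D G hF U hU cU R
  refine ⟨max T₀ 1, fun b hb T => ?_⟩
  obtain ⟨T₁, hT₁⟩ := hDT (2 * R) 0
  have hb0 : T₀ ≤ b := (le_max_left _ _).trans hb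
  have hb1 : 1 ≤ b := (le_max_right _ _).trans hb
  refine ⟨c⁻¹ * (C * (C₁ + C₂)), T + b + T₁ + 1, ENNReal.mul_ne_top
    (ENNReal.inv_ne_top.2 hc.ne') (ENNReal.mul_ne_top hC (ENNReal.add_ne_top.2 ⟨hC₁, hC₂⟩)), ?_⟩
  intro r _ d hd n m hok
  unfold okS at hok
  refine ⟨n + b, m, n, m + b, by unfold okS; omega, by unfold okS; omega, fun φ hφ => ?_⟩
  have hn1 : 1 ≤ n := by omega
  have hm1 : 1 ≤ m := by omega
  have hcC : c ≠ ∞ := by
    have h := ((hl d hd 1 1).2.2.1 b hb0).trans ((hl d hd 1 1).2.2.2.1 b)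
    exact ne_top_of_le_ne_top hC h
  -- comparison of kernels
  have chm : ∀ (S S' : Set P) (k : ℕ), S ⊆ S' → ∀ g, D.ch G S k g ≤ D.ch G S' k g := by
    intro S S' k h g
    refine (F7bc_tk D (k := eP D.μ₁ G S (G.uw S) 0 k) (k' := eP D.μ₁ G S' (G.uw S') 0 k) 1
      (fun g => ?_) k g).trans (le_of_eq (one_mul _))
    rw [one_mul, (e1 S (G.uw S) 1 k g).2, (e1 S' (G.uw S') 1 k g).2]
    exact e5 _ _ _ _ _ _ h (uwm h)
  have bkm : ∀ (S S' : Set P) (k : ℕ), S ⊆ S' → ∀ g, D.bk G S d k g ≤ D.bk G S' d k g := by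
    intro S S' k h g
    refine (F7bc_tk D (k := eP D.μ₁ G (G.uw S * {d}) S 0 k)
      (k' := eP D.μ₁ G (G.uw S' * {d}) S' 0 k) 1 (fun g => ?_) k g).trans (le_of_eq (one_mul _))
    rw [one_mul, (e1 (G.uw S) S d k g).1, (e1 (G.uw S') S' d k g).1]
    exact e5 _ _ _ _ _ _ (uwm h) h
  -- merging
  have hcv1 : ∀ g, cvP D.μ₁ (eP D.μ₁ G U (G.uw U) 0 n) (eP D.μ₁ G U (G.uw U) 0 b) g ≤
      C₁ * eP D.μ₁ G U₁ (G.uw U₁) 0 (n + b) g := by
    intro g
    refine (F7bc_cv D.μ₁ (K := ec D.μ₁ G W (G.uw V₁) (G.a ^ n))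
      (K' := ec D.μ₁ G V₁ (G.uw W) (G.a ^ b)) (fun g => ?_) (fun g => ?_) g).trans ?_
    · rw [(e1 U (G.uw U) 1 n g).2]
      exact e5 _ _ _ _ _ _ hUW (uwm hUV₁)
    · rw [(e1 U (G.uw U) 1 b g).2]
      exact e5 _ _ _ _ _ _ hUV₁ (uwm hUW)
    · refine (hm₁ _ (aDp n) _ (aDp b) g).1.trans (le_of_eq ?_)
      rw [← pow_add, ← (e1 U₁ (G.uw U₁) 1 (n + b) g).2]
  have hda : d * G.a ^ m ∈ G.Dp 0 := hT₁ m (by omega) d hd
  have hcv2 : ∀ g, cvP D.μ₁ (eP D.μ₁ G (G.uw U * {d}) U 0 m)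
      (fun g => eP D.μ₁ G U (G.uw U) 0 b g⁻¹) g ≤
      C₂ * eP D.μ₁ G (G.uw U₂ * {d}) U₂ 0 (m + b) g := by
    intro g
    have hw : G.w * (G.a ^ b)⁻¹ * G.w = G.a ^ b := by
      rw [mul_assoc, ← hwa b, ← mul_assoc, hG.ww, one_mul]
    refine (F7bc_cv D.μ₁ (K := ec D.μ₁ G (G.uw W) V₂ (d * G.a ^ m))
      (K' := ec D.μ₁ G (G.uw V₂) W (G.a ^ b)) (fun g => ?_) (fun g => ?_) g).trans ?_
    · rw [(e1 (G.uw U) U d m g).1]
      exact e5 _ _ _ _ _ _ (uwm hUW) hUV₂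
    · rw [(e1 U (G.uw U) 1 b g⁻¹).2, e2, hw]
      exact e5 _ _ _ _ _ _ (uwm hUV₂) hUW
    · refine (hm₂ _ hda _ (aDp b) g).2.trans (le_of_eq ?_)
      rw [mul_assoc, ← pow_add, ← (e1 (G.uw U₂) U₂ d (m + b) g).1]
  have mch : ∀ (S : Set P), IsCompact S → ∀ k, Measurable (D.ch G S k) := fun S hS k =>
    g1 _ _ hS (cw S hS) 0 k
  have mbk : ∀ (S : Set P), IsCompact S → ∀ k, Measurable (D.bk G S d k) := fun S hS k =>
    g1 _ _ ((cw S hS).mul isCompact_singleton) hS 0 k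
  have meP1 : ∀ k, Measurable (eP D.μ₁ G U (G.uw U) 0 k) := fun k => by
    have h : eP D.μ₁ G U (G.uw U) 0 k = ec D.μ₁ G U (G.uw U) (G.a ^ k) :=
      funext fun g => (e1 U (G.uw U) 1 k g).2
    rw [h]
    exact (e8 _ _ cU (cw U cU) _).1
  have meP2 : ∀ k, Measurable (eP D.μ₁ G (G.uw U * {d}) U 0 k) := fun k => by
    have h : eP D.μ₁ G (G.uw U * {d}) U 0 k = ec D.μ₁ G (G.uw U) U (d * G.a ^ k) :=
      funext fun g => (e1 (G.uw U) U d k g).1
    rw [h]
    exact (e8 _ _ (cw U cU) cU _).1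
  have mab : ∀ (u v w z : D.Γ), Measurable fun x : P × H => ab (pv G φ x u v - pv G φ x w z) := by
    intro u v w z
    have h1 : ∀ u v : D.Γ, Measurable fun x : P × H => pv G φ x u v := fun u v => by
      have h := g2 φ hφ 1 (u * v⁻¹)
      simp only [mul_one] at h
      exact h
    exact ENNReal.measurable_ofReal.comp ((h1 u v).sub (h1 w z)).abs
  -- the two functions of `x`
  let f1 : (P × H) × (P × H) → ℝ≥0∞ := fun z =>
    ∑' V : D.Γ, D.bk G U₁ d m (z.1⁻¹ * (V : P × H) * z.2) *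
      D.st2 (D.ch G U₁ (n + b)) (D.ch G U₁ (n + b)) z.1 z.2 fun u u' =>
        ab (pv G φ z.1 u V - pv G φ z.1 u' V)
  let f2 : (P × H) × (P × H) → ℝ≥0∞ := fun z =>
    ∑' u : D.Γ, D.ch G U₂ n (z.1⁻¹ * (u : P × H) * z.2) *
      D.st2 (D.bk G U₂ d (m + b)) (D.bk G U₂ d (m + b)) z.1 z.2 fun V V' =>
        ab (pv G φ z.1 u V - pv G φ z.1 u V')
  have mdisp : ∀ u : D.Γ, Measurable fun z : (P × H) × (P × H) =>
      z.1⁻¹ * (u : P × H) * z.2 := fun u =>
    ((continuous_fst.inv.mul continuous_const).mul continuous_snd).measurable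
  have mf1 : Measurable f1 := by
    refine Measurable.tsum fun V => ((mbk U₁ cU₁ m).comp (mdisp V)).mul ?_
    refine Measurable.tsum fun u => Measurable.tsum fun u' => ?_
    exact (((mch U₁ cU₁ _).comp (mdisp u)).mul ((mch U₁ cU₁ _).comp (mdisp u'))).mul
      ((mab u V u' V).comp measurable_fst)
  have mf2 : Measurable f2 := by
    refine Measurable.tsum fun u => ((mch U₂ cU₂ n).comp (mdisp u)).mul ?_
    refine Measurable.tsum fun V => Measurable.tsum fun V' => ?_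
    exact (((mbk U₂ cU₂ _).comp (mdisp V)).mul ((mbk U₂ cU₂ _).comp (mdisp V'))).mul
      ((mab u V u V').comp measurable_fst)
  have hFU : FU D G U₁ d b (n + b) m φ = ∫⁻ x, ∫⁻ y, f1 (x, y) ∂(D.μ.withDensity D.χ)
      ∂(D.μ.withDensity D.χ) := by
    unfold FU
    rw [F7bc_IM D hD]
    exact lintegral_congr fun x => F7bc_IM D hD _
  have hFV : FV D G U₂ d b n (m + b) φ = ∫⁻ x, ∫⁻ y, f2 (x, y) ∂(D.μ.withDensity D.χ)
      ∂(D.μ.withDensity D.χ) := by
    unfold FV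
    rw [F7bc_IM D hD]
    exact lintegral_congr fun x => F7bc_IM D hD _
  -- the estimate for fixed `x`
  have key : ∀ x : P × H, (D.IM fun y => D.IM fun y' =>
      D.st2 (D.ch G U (n + b)) (D.bk G U d m) x y fun u V =>
        D.st2 (D.ch G U n) (D.bk G U d (m + b)) x y' fun u' V' =>
          ab (pv G φ x u V - pv G φ x u' V')) ≤
      c⁻¹ * (C * (C₁ + C₂)) * (∫⁻ y, f1 (x, y) ∂(D.μ.withDensity D.χ) +
        ∫⁻ y, f2 (x, y) ∂(D.μ.withDensity D.χ)) := by
    intro x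
    have hIM : (D.IM fun y => D.IM fun y' =>
        D.st2 (D.ch G U (n + b)) (D.bk G U d m) x y fun u V =>
          D.st2 (D.ch G U n) (D.bk G U d (m + b)) x y' fun u' V' =>
            ab (pv G φ x u V - pv G φ x u' V')) =
        ∫⁻ y, ∫⁻ y', D.st2 (D.ch G U (n + b)) (D.bk G U d m) x y (fun u V =>
          D.st2 (D.ch G U n) (D.bk G U d (m + b)) x y' fun u' V' =>
            ab (pv G φ x u V - pv G φ x u' V')) ∂(D.μ.withDensity D.χ)
          ∂(D.μ.withDensity D.χ) := by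
      rw [F7bc_IM D hD]
      exact lintegral_congr fun y => F7bc_IM D hD _
    have mx : ∀ u : D.Γ, Measurable fun y : P × H => x⁻¹ * (u : P × H) * y := fun u =>
      (continuous_const.mul continuous_id).measurable
    have hcore := F7bc_core (D.μ.withDensity D.χ)
      (fun (u : D.Γ) y => D.ch G U (n + b) (x⁻¹ * (u : P × H) * y))
      (fun (V : D.Γ) y => D.bk G U d m (x⁻¹ * (V : P × H) * y))
      (fun (u : D.Γ) y => D.ch G U n (x⁻¹ * (u : P × H) * y))
      (fun (V : D.Γ) y => D.bk G U d (m + b) (x⁻¹ * (V : P × H) * y))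
      (fun (w : D.Γ) y => D.ch G U₁ (n + b) (x⁻¹ * (w : P × H) * y))
      (fun (W : D.Γ) y => D.bk G U₂ d (m + b) (x⁻¹ * (W : P × H) * y))
      (fun (e : D.Γ) z => D.ch G U b (z.1⁻¹ * (e : P × H) * z.2))
      (fun u => (mch U cU _).comp (mx u)) (fun u => (mbk U cU _).comp (mx u))
      (fun u => (mch U cU _).comp (mx u)) (fun u => (mbk U cU _).comp (mx u))
      (fun e => (mch U cU _).comp (mdisp e)) (fun l => ph G φ l x.1) c C (C₁ + C₂) hc.ne' hcC
      (ENNReal.add_ne_top.2 ⟨hC₁, hC₂⟩) (fun y' y => (hl d hd y' y).2.2.1 b hb0)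
      (fun y' => (hl d hd x y').2.1 (m + b)) (fun y => (hl d hd x y).2.2.2.1 (n + b))
      (fun y F => by
        have h := (hmer D hD (eP D.μ₁ G U (G.uw U) 0 n) (eP D.μ₁ G U (G.uw U) 0 b) n b
          (meP1 n) (meP1 b) hn1 hb1 F).1 x y
        rw [F7bc_IM D hD] at h
        refine (le_of_eq h).trans ?_
        rw [← ENNReal.tsum_mul_left]
        refine ENNReal.tsum_le_tsum fun w => ?_
        rw [← mul_assoc]
        refine mul_le_mul' ((F7bc_tk D C₁ hcv1 (n + b) _).trans ?_) le_rfl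
        exact mul_le_mul' le_self_add le_rfl)
      (fun y' F => by
        have h := hmer3 D hD (eP D.μ₁ G (G.uw U * {d}) U 0 m) (eP D.μ₁ G U (G.uw U) 0 b) m b
          (meP2 m) (meP1 b) hm1 hb1 F x y'
        rw [F7bc_IM D hD] at h
        refine (le_of_eq h).trans ?_
        rw [← ENNReal.tsum_mul_left]
        refine ENNReal.tsum_le_tsum fun w => ?_
        rw [← mul_assoc]
        refine mul_le_mul' ((F7bc_tk D C₂ hcv2 (m + b) _).trans ?_) le_rfl
        exact mul_le_mul' le_add_self le_rfl)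
    rw [hIM]
    refine le_trans hcore ?_
    have hI1 : ∀ y : P × H, (∑' u : D.Γ, ∑' V : D.Γ, D.ch G U (n + b) (x⁻¹ * (u : P × H) * y) *
        D.bk G U d m (x⁻¹ * (V : P × H) * y) * ∑' w : D.Γ,
          D.ch G U₁ (n + b) (x⁻¹ * (w : P × H) * y) *
            ab (ph G φ (u * V⁻¹) x.1 - ph G φ (w * V⁻¹) x.1)) ≤ f1 (x, y) := by
      intro y
      rw [ENNReal.tsum_comm]
      refine ENNReal.tsum_le_tsum fun V => ?_
      show _ ≤ D.bk G U₁ d m (x⁻¹ * (V : P × H) * y) * ∑' u : D.Γ, ∑' w : D.Γ,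
        D.ch G U₁ (n + b) (x⁻¹ * (u : P × H) * y) * D.ch G U₁ (n + b) (x⁻¹ * (w : P × H) * y) *
          ab (ph G φ (u * V⁻¹) x.1 - ph G φ (w * V⁻¹) x.1)
      rw [← ENNReal.tsum_mul_left]
      refine ENNReal.tsum_le_tsum fun u => ?_
      rw [← ENNReal.tsum_mul_left, ← ENNReal.tsum_mul_left]
      refine ENNReal.tsum_le_tsum fun w => ?_
      refine (mul_le_mul' (mul_le_mul' (chm U U₁ _ hUU₁ _) (bkm U U₁ _ hUU₁ _)) le_rfl).trans
        (le_of_eq ?_)
      ring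
    have hI2 : ∀ y : P × H, (∑' u : D.Γ, ∑' V' : D.Γ, D.ch G U n (x⁻¹ * (u : P × H) * y) *
        D.bk G U d (m + b) (x⁻¹ * (V' : P × H) * y) * ∑' W : D.Γ,
          D.bk G U₂ d (m + b) (x⁻¹ * (W : P × H) * y) *
            ab (ph G φ (u * W⁻¹) x.1 - ph G φ (u * V'⁻¹) x.1)) ≤ f2 (x, y) := by
      intro y
      refine ENNReal.tsum_le_tsum fun u => ?_
      show _ ≤ D.ch G U₂ n (x⁻¹ * (u : P × H) * y) * ∑' W : D.Γ, ∑' V' : D.Γ,
        D.bk G U₂ d (m + b) (x⁻¹ * (W : P × H) * y) *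
          D.bk G U₂ d (m + b) (x⁻¹ * (V' : P × H) * y) *
            ab (ph G φ (u * W⁻¹) x.1 - ph G φ (u * V'⁻¹) x.1)
      rw [ENNReal.tsum_comm (f := fun W V' : D.Γ =>
        D.bk G U₂ d (m + b) (x⁻¹ * (W : P × H) * y) *
          D.bk G U₂ d (m + b) (x⁻¹ * (V' : P × H) * y) *
            ab (ph G φ (u * W⁻¹) x.1 - ph G φ (u * V'⁻¹) x.1)), ← ENNReal.tsum_mul_left]
      refine ENNReal.tsum_le_tsum fun V' => ?_
      rw [← ENNReal.tsum_mul_left, ← ENNReal.tsum_mul_left]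
      refine ENNReal.tsum_le_tsum fun W => ?_
      refine (mul_le_mul' (mul_le_mul' (chm U U₂ _ hUU₂ _) (bkm U U₂ _ hUU₂ _)) le_rfl).trans
        (le_of_eq ?_)
      ring
    calc _ ≤ c⁻¹ * (C * ((C₁ + C₂) * ∫⁻ y, f1 (x, y) ∂(D.μ.withDensity D.χ)) +
          C * ((C₁ + C₂) * ∫⁻ y, f2 (x, y) ∂(D.μ.withDensity D.χ))) := by
          gcongr
          · exact hI1 _
          · exact hI2 _
      _ = _ := by ring
  unfold F7b
  rw [F7bc_IM D hD, hFU, hFV]
  calc _ ≤ ∫⁻ x, c⁻¹ * (C * (C₁ + C₂)) * (∫⁻ y, f1 (x, y) ∂(D.μ.withDensity D.χ) +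
        ∫⁻ y, f2 (x, y) ∂(D.μ.withDensity D.χ)) ∂(D.μ.withDensity D.χ) :=
        lintegral_mono fun x => key x
    _ = _ := by
        rw [lintegral_const_mul' _ _ (ENNReal.mul_ne_top (ENNReal.inv_ne_top.2 hc.ne')
          (ENNReal.mul_ne_top hC (ENNReal.add_ne_top.2 ⟨hC₁, hC₂⟩))),
          lintegral_add_left mf1.lintegral_prod_right']

end Pool.Agent.MPEF.U
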