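import Pool.Agent.Lib.MP_ef3f0f_gt.U.E.SpecC

set_option autoImplicit false

/-!
# MP_ef3f0f_gt, Theorem U, Part E, module `F7cc`: independent pairs
-/

namespace Pool.Agent.MPEF.U

open MeasureTheory Topology
open scoped ENNReal Pointwise

section Alg

variable {P H : Type} [Group P] [Group H] [MeasurableSpace P] [MeasurableSpace H]

private theorem F7cc_st2_add (D : Dat P H) (K₁ K₂ : P × H → ℝ≥0∞) (x y : P × H)
    (f g : D.Γ → D.Γ → ℝ≥0∞) : D.st2 K₁ K₂ x y (fun u v => f u v + g u v) =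
      D.st2 K₁ K₂ x y f + D.st2 K₁ K₂ x y g := by
  unfold Dat.st2
  simp only [mul_add, ENNReal.tsum_add]

private theorem F7cc_st2_mul (D : Dat P H) (K₁ K₂ : P × H → ℝ≥0∞) (x y : P × H)
    (f : D.Γ → D.Γ → ℝ≥0∞) (c : ℝ≥0∞) : D.st2 K₁ K₂ x y (fun u v => c * f u v) =
      c * D.st2 K₁ K₂ x y f := by
  unfold Dat.st2
  rw [← ENNReal.tsum_mul_left]
  refine tsum_congr fun u => ?_
  rw [← ENNReal.tsum_mul_left]
  refine tsum_congr fun v => ?_
  ring

private theorem F7cc_st2_mono (D : Dat P H) {K₁ K₂ K₁' K₂' : P × H → ℝ≥0∞}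
    (h1 : ∀ g, K₁ g ≤ K₁' g) (h2 : ∀ g, K₂ g ≤ K₂' g) (x y : P × H)
    {f g : D.Γ → D.Γ → ℝ≥0∞} (h : ∀ u v, f u v ≤ g u v) :
    D.st2 K₁ K₂ x y f ≤ D.st2 K₁' K₂' x y g :=
  ENNReal.tsum_le_tsum fun _ => ENNReal.tsum_le_tsum fun _ =>
    mul_le_mul' (mul_le_mul' (h1 _) (h2 _)) (h _ _)

private theorem F7cc_st2_const (D : Dat P H) (K₁ K₂ : P × H → ℝ≥0∞) (x y : P × H) (c : ℝ≥0∞) :
    D.st2 K₁ K₂ x y (fun _ _ => c) = D.N K₁ x y * D.N K₂ x y * c := by
  unfold Dat.st2 Dat.N
  rw [← ENNReal.tsum_mul_right, ← ENNReal.tsum_mul_right]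
  refine tsum_congr fun u => ?_
  rw [ENNReal.tsum_mul_right, ENNReal.tsum_mul_left]

private theorem F7cc_tri (a b c : ℝ) : ab (a - b) ≤ ab (a - c) + ab (b - c) := by
  unfold ab
  rw [← ENNReal.ofReal_add (abs_nonneg _) (abs_nonneg _)]
  apply ENNReal.ofReal_le_ofReal
  have h := abs_add_le (a - c) (c - b)
  rw [abs_sub_comm c b] at h
  have e : a - c + (c - b) = a - b := by ring
  rwa [e] at h

private theorem F7cc_pw (D : Dat P H) (K₁ K₂ K₃ K₄ : P × H → ℝ≥0∞) (c2 CC : ℝ≥0∞)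
    (hM : ∀ x y, D.N K₁ x y * D.N K₂ x y ≤ CC) (hm : ∀ x y, c2 ≤ D.N K₃ x y * D.N K₄ x y)
    (p : P × H → D.Γ → D.Γ → ℝ) (x y x' y' : P × H) :
    c2 * D.st2 K₁ K₂ x y (fun u V => D.st2 K₁ K₂ x' y' fun u' V' =>
        ab (p x u V - p x' u' V')) ≤
      CC * D.st2 K₁ K₂ x y (fun u V => D.st2 K₃ K₄ x' y fun u' V' =>
        ab (p x u V - p x' u' V')) +
      CC * D.st2 K₁ K₂ x' y' (fun u V => D.st2 K₃ K₄ x' y fun u' V' =>
        ab (p x' u V - p x' u' V')) := by
  have h1 : ∀ u V u' V', c2 * ab (p x u V - p x' u' V') ≤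
      D.st2 K₃ K₄ x' y (fun u'' V'' => ab (p x u V - p x' u'' V'')) +
      D.st2 K₃ K₄ x' y (fun u'' V'' => ab (p x' u' V' - p x' u'' V'')) := by
    intro u V u' V'
    calc c2 * ab (p x u V - p x' u' V')
        ≤ D.N K₃ x' y * D.N K₄ x' y * ab (p x u V - p x' u' V') := mul_le_mul' (hm _ _) le_rfl
      _ = D.st2 K₃ K₄ x' y (fun _ _ => ab (p x u V - p x' u' V')) :=
          (F7cc_st2_const D K₃ K₄ x' y _).symm
      _ ≤ D.st2 K₃ K₄ x' y (fun u'' V'' => ab (p x u V - p x' u'' V'') +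
            ab (p x' u' V' - p x' u'' V'')) :=
          F7cc_st2_mono D (fun _ => le_rfl) (fun _ => le_rfl) x' y fun _ _ => F7cc_tri _ _ _
      _ = _ := F7cc_st2_add D K₃ K₄ x' y _ _
  calc c2 * D.st2 K₁ K₂ x y (fun u V => D.st2 K₁ K₂ x' y' fun u' V' =>
        ab (p x u V - p x' u' V'))
      = D.st2 K₁ K₂ x y (fun u V => D.st2 K₁ K₂ x' y' fun u' V' =>
        c2 * ab (p x u V - p x' u' V')) := by
        rw [← F7cc_st2_mul]
        congr 1
        funext u V
        rw [← F7cc_st2_mul]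
    _ ≤ D.st2 K₁ K₂ x y (fun u V => D.st2 K₁ K₂ x' y' fun u' V' =>
        D.st2 K₃ K₄ x' y (fun u'' V'' => ab (p x u V - p x' u'' V'')) +
        D.st2 K₃ K₄ x' y (fun u'' V'' => ab (p x' u' V' - p x' u'' V''))) :=
        F7cc_st2_mono D (fun _ => le_rfl) (fun _ => le_rfl) x y fun u V =>
          F7cc_st2_mono D (fun _ => le_rfl) (fun _ => le_rfl) x' y' fun u' V' => h1 u V u' V'
    _ = D.st2 K₁ K₂ x y (fun u V => D.N K₁ x' y' * D.N K₂ x' y' *
          D.st2 K₃ K₄ x' y (fun u'' V'' => ab (p x u V - p x' u'' V'')) +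
        D.st2 K₁ K₂ x' y' (fun u' V' =>
          D.st2 K₃ K₄ x' y (fun u'' V'' => ab (p x' u' V' - p x' u'' V'')))) := by
        congr 1
        funext u V
        rw [F7cc_st2_add, F7cc_st2_const]
    _ = (D.N K₁ x' y' * D.N K₂ x' y') * D.st2 K₁ K₂ x y (fun u V =>
          D.st2 K₃ K₄ x' y (fun u'' V'' => ab (p x u V - p x' u'' V''))) +
        (D.N K₁ x y * D.N K₂ x y) * D.st2 K₁ K₂ x' y' (fun u' V' =>
          D.st2 K₃ K₄ x' y (fun u'' V'' => ab (p x' u' V' - p x' u'' V''))) := by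
        rw [F7cc_st2_add, F7cc_st2_mul, F7cc_st2_const]
    _ ≤ _ := add_le_add (mul_le_mul' (hM _ _) le_rfl) (mul_le_mul' (hM _ _) le_rfl)

private theorem F7cc_IM_mono (D : Dat P H) {f g : P × H → ℝ≥0∞} (h : ∀ x, f x ≤ g x) :
    D.IM f ≤ D.IM g :=
  lintegral_mono fun x => mul_le_mul' le_rfl (h x)

private theorem F7cc_IM_cmul (D : Dat P H) (c : ℝ≥0∞) (f : P × H → ℝ≥0∞) :
    c * D.IM f ≤ D.IM fun x => c * f x := by
  unfold Dat.IM
  refine le_trans (lintegral_const_mul_le c _) (le_of_eq ?_)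
  congr 1
  funext x
  ring

private theorem F7cc_iK {S S' : Set P} (h : S ⊆ S') (q : P) : iK S q ≤ iK S' q :=
  Set.indicator_le_indicator_of_subset h (fun _ => bot_le) q

private theorem F7cc_eg (D : Dat P H) (G : PG P) {S S' K K' : Set P} (hS : S ⊆ S') (hK : K ⊆ K')
    (R n : ℕ) (g : P × H) : D.eg G S K R n g ≤ D.eg G S' K' R n g := by
  unfold Dat.eg Dat.ed Dat.tk kk
  refine mul_le_mul' (lintegral_mono fun q => ?_) le_rfl
  exact mul_le_mul' (F7cc_iK (Set.mul_subset_mul_right hS) _) (F7cc_iK (fun a ha => hK ha) _)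

private theorem F7cc_meas_IM (D : Dat P H) (hχ : Measurable D.χ) [SFinite D.μ] {α : Type}
    [MeasurableSpace α] {f : α → P × H → ℝ≥0∞} (hf : Measurable fun q : α × (P × H) => f q.1 q.2) :
    Measurable fun a => D.IM (f a) := by
  unfold Dat.IM
  exact Measurable.lintegral_prod_right' (f := fun q : α × (P × H) => D.χ q.2 * f q.1 q.2)
    ((hχ.comp measurable_snd).mul hf)

end Alg

variable (P H : Type) [Group P] [Group H] [TopologicalSpace P] [TopologicalSpace H]
  [IsTopologicalGroup P] [IsTopologicalGroup H] [LocallyCompactSpace P] [LocallyCompactSpace H]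
  [T2Space P] [T2Space H] [SecondCountableTopology P] [SecondCountableTopology H]
  [MeasurableSpace P] [MeasurableSpace H] [BorelSpace P] [BorelSpace H]

variable {P H} in
omit [LocallyCompactSpace P] [LocallyCompactSpace H] [T2Space P] [T2Space H] in
private theorem F7cc_meas_st2 (D : Dat P H) [Countable D.Γ] {K₁ K₂ : P × H → ℝ≥0∞}
    (h1 : Measurable K₁) (h2 : Measurable K₂) {α : Type} [MeasurableSpace α] {a b : α → P × H}
    (ha : Measurable a) (hb : Measurable b) {f : α → D.Γ → D.Γ → ℝ≥0∞}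
    (hf : ∀ u v, Measurable fun q => f q u v) :
    Measurable fun q => D.st2 K₁ K₂ (a q) (b q) (f q) := by
  have hm : ∀ (u : P × H), Measurable fun q : α => (a q)⁻¹ * u * b q := fun u =>
    (ha.inv.mul_const u).mul hb
  unfold Dat.st2
  exact Measurable.tsum fun u => Measurable.tsum fun v =>
      ((h1.comp (hm u)).mul (h2.comp (hm v))).mul (hf u v)

variable {P H} in
omit [IsTopologicalGroup P] [IsTopologicalGroup H] [LocallyCompactSpace P]
  [LocallyCompactSpace H] [T2Space P] [T2Space H] [SecondCountableTopology P]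
  [SecondCountableTopology H] [BorelSpace P] [BorelSpace H] in
private theorem F7cc_IM4 (D : Dat P H) (hD : D.Ok) [SFinite D.μ]
    (t1 : ∀ f : (P × H) × (P × H) → ℝ≥0∞, Measurable f →
      (D.IM fun x => D.IM fun y => f (x, y)) = (D.IM fun y => D.IM fun x => f (x, y)) ∧
      Measurable fun x => D.IM fun y => f (x, y))
    (t2 : ∀ (c : ℝ≥0∞) (f : P × H → ℝ≥0∞), Measurable f → (D.IM fun x => c * f x) = c * D.IM f)
    (t3 : ∀ f g : P × H → ℝ≥0∞, Measurable f → (D.IM fun x => f x + g x) = D.IM f + D.IM g)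
    (A B : P × H → P × H → P × H → ℝ≥0∞)
    (hA : Measurable fun q : (P × H) × (P × H) × (P × H) => A q.1 q.2.1 q.2.2)
    (hB : Measurable fun q : (P × H) × (P × H) × (P × H) => B q.1 q.2.1 q.2.2) (CC : ℝ≥0∞) :
    (D.IM fun x => D.IM fun y => D.IM fun x' => D.IM fun y' =>
      CC * A x y x' + CC * B x' y' y) =
    CC * (D.IM fun x => D.IM fun x' => D.IM fun y => A x y x') +
      CC * (D.IM fun x' => D.IM fun y' => D.IM fun y => B x' y' y) := by
  have hχ := hD.χm
  have hIM1 : ∀ c : ℝ≥0∞, (D.IM fun _ => c) = c := by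
    intro c
    have h := t2 c (fun _ => 1) measurable_const
    have e : (D.IM fun _ => (1 : ℝ≥0∞)) = 1 := by
      unfold Dat.IM
      simp only [mul_one]
      exact hD.mass
    rw [e, mul_one] at h
    simpa only [mul_one] using h
  have s1 : ∀ x y x' : P × H, (D.IM fun y' => CC * A x y x' + CC * B x' y' y) =
      CC * A x y x' + CC * D.IM fun y' => B x' y' y := by
    intro x y x'
    rw [t3 (fun _ => CC * A x y x') (fun y' => CC * B x' y' y) measurable_const, hIM1]
    congr 1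
    exact t2 CC (fun y' => B x' y' y) (hB.comp (f := fun y' => (x', y', y)) (by fun_prop))
  have mB1 : Measurable fun q : (P × H) × (P × H) => D.IM fun y' => B q.1 y' q.2 :=
    F7cc_meas_IM D hχ (f := fun (q : (P × H) × (P × H)) y' => B q.1 y' q.2)
      (hB.comp (f := fun q : ((P × H) × (P × H)) × (P × H) => (q.1.1, q.2, q.1.2)) (by fun_prop))
  have s2 : ∀ x y : P × H, (D.IM fun x' => CC * A x y x' + CC * D.IM fun y' => B x' y' y) =
      CC * (D.IM fun x' => A x y x') + CC * D.IM fun x' => D.IM fun y' => B x' y' y := by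
    intro x y
    have mA : Measurable fun x' => A x y x' :=
      hA.comp (f := fun x' => (x, y, x')) (by fun_prop)
    rw [t3 (fun x' => CC * A x y x') (fun x' => CC * D.IM fun y' => B x' y' y)
      (mA.const_mul CC)]
    congr 1
    · exact t2 CC _ mA
    · exact t2 CC (fun x' => D.IM fun y' => B x' y' y)
        (mB1.comp (f := fun x' => (x', y)) (by fun_prop))
  have mB2 : Measurable fun y : P × H => D.IM fun x' => D.IM fun y' => B x' y' y :=
    F7cc_meas_IM D hχ (f := fun (y : P × H) x' => D.IM fun y' => B x' y' y)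
      (mB1.comp (f := fun q : (P × H) × (P × H) => (q.2, q.1)) (by fun_prop))
  have mA1 : Measurable fun q : (P × H) × (P × H) => D.IM fun x' => A q.1 q.2 x' :=
    F7cc_meas_IM D hχ (f := fun (q : (P × H) × (P × H)) x' => A q.1 q.2 x')
      (hA.comp (f := fun q : ((P × H) × (P × H)) × (P × H) => (q.1.1, q.1.2, q.2)) (by fun_prop))
  have s3 : ∀ x : P × H, (D.IM fun y => CC * (D.IM fun x' => A x y x') +
        CC * D.IM fun x' => D.IM fun y' => B x' y' y) =
      CC * (D.IM fun y => D.IM fun x' => A x y x') +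
        CC * D.IM fun y => D.IM fun x' => D.IM fun y' => B x' y' y := by
    intro x
    have mA : Measurable fun y => D.IM fun x' => A x y x' :=
      mA1.comp (f := fun y => (x, y)) (by fun_prop)
    rw [t3 (fun y => CC * D.IM fun x' => A x y x')
      (fun y => CC * D.IM fun x' => D.IM fun y' => B x' y' y) (mA.const_mul CC)]
    congr 1
    · exact t2 CC _ mA
    · exact t2 CC _ mB2
  have mA2 : Measurable fun x : P × H => D.IM fun y => D.IM fun x' => A x y x' :=
    F7cc_meas_IM D hχ (f := fun (x : P × H) y => D.IM fun x' => A x y x') mA1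
  have s4 : (D.IM fun x => CC * (D.IM fun y => D.IM fun x' => A x y x') +
        CC * D.IM fun y => D.IM fun x' => D.IM fun y' => B x' y' y) =
      CC * (D.IM fun x => D.IM fun y => D.IM fun x' => A x y x') +
        CC * D.IM fun y => D.IM fun x' => D.IM fun y' => B x' y' y := by
    rw [t3 (fun x => CC * D.IM fun y => D.IM fun x' => A x y x')
      (fun _ => CC * D.IM fun y => D.IM fun x' => D.IM fun y' => B x' y' y) (mA2.const_mul CC),
      hIM1]
    congr 1
    exact t2 CC _ mA2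
  have e1 : ∀ x : P × H, (D.IM fun y => D.IM fun x' => A x y x') =
      D.IM fun x' => D.IM fun y => A x y x' := fun x =>
    (t1 (fun q => A x q.1 q.2)
      (hA.comp (f := fun q : (P × H) × (P × H) => (x, q.1, q.2)) (by fun_prop))).1
  have e2 : (D.IM fun y => D.IM fun x' => D.IM fun y' => B x' y' y) =
      D.IM fun x' => D.IM fun y => D.IM fun y' => B x' y' y :=
    (t1 (fun q => D.IM fun y' => B q.2 y' q.1)
      (mB1.comp (f := fun q : (P × H) × (P × H) => (q.2, q.1)) (by fun_prop))).1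
  have e3 : ∀ x' : P × H, (D.IM fun y => D.IM fun y' => B x' y' y) =
      D.IM fun y' => D.IM fun y => B x' y' y := fun x' =>
    (t1 (fun q => B x' q.2 q.1)
      (hB.comp (f := fun q : (P × H) × (P × H) => (x', q.2, q.1)) (by fun_prop))).1
  simp only [s1, s2, s3]
  rw [s4, e2]
  simp only [e1, e3]

theorem tF7cc : S_CUs P H → S_F7ac P H → S_F7bc P H → S_lod P H → S_egm P H → S_ton P H →
    S_inst P H → S_F7cc P H := by
  intro hCUs ha hb hlod hegm hton hinst D G hF
  have hD := hF.ok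
  obtain ⟨_, _, hσ, hcount, -⟩ := hinst D hD
  obtain ⟨t1, t2, t3, -, -⟩ := hton D hD
  obtain ⟨g1, g2, -, -⟩ := hegm D G hD hF.gok
  refine hCUs D G hD hF.gok 1 (F7a D G) (F7b D G) (F7c D G) (ha D G hF) (hb D G hF) ?_
  intro R U₁ hU₁ U₂ hU₂ _ _
  obtain ⟨U, hU, hUs, hUc⟩ := local_compact_nhds (Filter.inter_mem hU₁ hU₂)
  refine ⟨U, hU, hUc, 0, ?_⟩
  intro b _ T
  obtain ⟨c, C, T₀, hc, hC, hl⟩ := hlod D G hF U hU hUc R
  refine ⟨(c * c)⁻¹ * (C * C), max T T₀, ?_, ?_⟩
  · refine ENNReal.mul_ne_top ?_ (ENNReal.mul_ne_top hC hC)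
    rw [ne_eq, ENNReal.inv_eq_top, mul_eq_zero, not_or]
    exact ⟨hc.ne', hc.ne'⟩
  intro r _ d hd n m hok
  obtain ⟨o1, o2, o3, o4⟩ := hok
  have hT1 : T ≤ max T T₀ := le_max_left _ _
  have hT2 : T₀ ≤ max T T₀ := le_max_right _ _
  refine ⟨n, m, n, m, ⟨by omega, by omega, by omega, by omega⟩,
    ⟨by omega, by omega, by omega, by omega⟩, ?_⟩
  intro φ hφ
  have huw : IsCompact (G.uw U) := hUc.mul isCompact_singleton
  have huwd : IsCompact (G.uw U * {d}) := huw.mul isCompact_singleton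
  have mch : ∀ k, Measurable (D.ch G U k) := fun k => g1 U (G.uw U) hUc huw 0 k
  have mbk : ∀ k, Measurable (D.bk G U d k) := fun k => g1 _ U huwd hUc 0 k
  have mpv : ∀ u v : D.Γ, Measurable fun x : P × H => pv G φ x u v := by
    intro u v
    have h := g2 φ hφ 1 (u * v⁻¹)
    unfold pv
    simpa only [mul_one] using h
  have hct : c ≠ ∞ := by
    have h3 := (hl d hd 1 1).1 T₀ le_rfl
    have h4 := (hl d hd 1 1).2.1 T₀
    exact ne_top_of_le_ne_top hC (le_trans h3 h4)
  have hM : ∀ x y, D.N (D.ch G U (n + b)) x y * D.N (D.bk G U d m) x y ≤ C * C := fun x y =>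
    mul_le_mul' ((hl d hd x y).2.2.2.1 _) ((hl d hd x y).2.1 _)
  have hm : ∀ x y, c * c ≤ D.N (D.ch G U n) x y * D.N (D.bk G U d (m + b)) x y := fun x y =>
    mul_le_mul' ((hl d hd x y).2.2.1 _ (by omega)) ((hl d hd x y).1 _ (by omega))
  have hpw := F7cc_pw D _ _ _ _ _ _ hM hm (pv G φ)
  have mab : ∀ (α : Type) [MeasurableSpace α] (f g : α → ℝ), Measurable f → Measurable g →
      Measurable fun q => ab (f q - g q) := fun α _ f g hf hg =>
    ((hf.sub hg).abs).ennreal_ofReal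
  have key : (c * c) * F7c D G U d b n m φ ≤
      (C * C) * F7a D G U d b n m φ + (C * C) * F7b D G U d b n m φ := by
    unfold F7c F7a F7b
    rw [← F7cc_IM4 D hD t1 t2 t3
      (fun x y x' => D.st2 (D.ch G U (n + b)) (D.bk G U d m) x y fun u V =>
        D.st2 (D.ch G U n) (D.bk G U d (m + b)) x' y fun u' V' =>
          ab (pv G φ x u V - pv G φ x' u' V'))
      (fun x y y' => D.st2 (D.ch G U (n + b)) (D.bk G U d m) x y fun u V =>
        D.st2 (D.ch G U n) (D.bk G U d (m + b)) x y' fun u' V' =>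
          ab (pv G φ x u V - pv G φ x u' V')) ?_ ?_]
    · refine le_trans (F7cc_IM_cmul D _ _) (F7cc_IM_mono D fun x => ?_)
      refine le_trans (F7cc_IM_cmul D _ _) (F7cc_IM_mono D fun y => ?_)
      refine le_trans (F7cc_IM_cmul D _ _) (F7cc_IM_mono D fun x' => ?_)
      refine le_trans (F7cc_IM_cmul D _ _) (F7cc_IM_mono D fun y' => ?_)
      exact hpw x y x' y'
    · refine F7cc_meas_st2 D (mch _) (mbk _) measurable_fst (measurable_fst.comp measurable_snd)
        fun u V => ?_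
      refine F7cc_meas_st2 D (mch _) (mbk _) (measurable_snd.comp measurable_snd)
        (measurable_fst.comp measurable_snd) fun u' V' => ?_
      exact mab _ _ _ ((mpv u V).comp measurable_fst)
        ((mpv u' V').comp (measurable_snd.comp measurable_snd))
    · refine F7cc_meas_st2 D (mch _) (mbk _) measurable_fst (measurable_fst.comp measurable_snd)
        fun u V => ?_
      refine F7cc_meas_st2 D (mch _) (mbk _) measurable_fst
        (measurable_snd.comp measurable_snd) fun u' V' => ?_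
      exact mab _ _ _ ((mpv u V).comp measurable_fst) ((mpv u' V').comp measurable_fst)
  have hsub1 : U ⊆ U₁ := fun q hq => (hUs hq).1
  have hsub2 : U ⊆ U₂ := fun q hq => (hUs hq).2
  have hch : ∀ (V : Set P), U ⊆ V → ∀ k g, D.ch G U k g ≤ D.ch G V k g := fun V h k g =>
    F7cc_eg D G h (Set.mul_subset_mul_right h) 0 k g
  have hbk : ∀ (V : Set P), U ⊆ V → ∀ k g, D.bk G U d k g ≤ D.bk G V d k g := fun V h k g =>
    F7cc_eg D G (Set.mul_subset_mul_right (Set.mul_subset_mul_right h)) h 0 k g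
  have hA : F7a D G U d b n m φ ≤ F7a D G U₁ d b n m φ := by
    unfold F7a
    exact F7cc_IM_mono D fun x => F7cc_IM_mono D fun x' => F7cc_IM_mono D fun y =>
      F7cc_st2_mono D (hch U₁ hsub1 _) (hbk U₁ hsub1 _) x y fun u V =>
        F7cc_st2_mono D (hch U₁ hsub1 _) (hbk U₁ hsub1 _) x' y fun _ _ => le_rfl
  have hB : F7b D G U d b n m φ ≤ F7b D G U₂ d b n m φ := by
    unfold F7b
    exact F7cc_IM_mono D fun x => F7cc_IM_mono D fun y => F7cc_IM_mono D fun y' =>
      F7cc_st2_mono D (hch U₂ hsub2 _) (hbk U₂ hsub2 _) x y fun u V =>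
        F7cc_st2_mono D (hch U₂ hsub2 _) (hbk U₂ hsub2 _) x y' fun _ _ => le_rfl
  have hcc0 : c * c ≠ 0 := mul_ne_zero hc.ne' hc.ne'
  have hcct : c * c ≠ ∞ := ENNReal.mul_ne_top hct hct
  calc F7c D G U d b n m φ = (c * c)⁻¹ * ((c * c) * F7c D G U d b n m φ) := by
        rw [← mul_assoc, ENNReal.inv_mul_cancel hcc0 hcct, one_mul]
    _ ≤ (c * c)⁻¹ * ((C * C) * F7a D G U d b n m φ + (C * C) * F7b D G U d b n m φ) :=
        mul_le_mul' le_rfl key
    _ ≤ (c * c)⁻¹ * ((C * C) * F7a D G U₁ d b n m φ + (C * C) * F7b D G U₂ d b n m φ) :=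
        mul_le_mul' le_rfl (add_le_add (mul_le_mul' le_rfl hA) (mul_le_mul' le_rfl hB))
    _ = (c * c)⁻¹ * (C * C) * (F7a D G U₁ d b n m φ + F7b D G U₂ d b n m φ) := by
        ring

end Pool.Agent.MPEF.U
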