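import Pool.Agent.Lib.MP_ef3f0f_gt.U.E.SpecB

set_option autoImplicit false

/-!
# MP_ef3f0f_gt, Theorem U, Part E: `FSc`, the conclusion of the telescoping
-/

namespace Pool.Agent.MPEF.U

open MeasureTheory Topology
open scoped ENNReal Pointwise

variable (P H : Type) [Group P] [Group H] [TopologicalSpace P] [TopologicalSpace H]
  [IsTopologicalGroup P] [IsTopologicalGroup H] [LocallyCompactSpace P] [LocallyCompactSpace H]
  [T2Space P] [T2Space H] [SecondCountableTopology P] [SecondCountableTopology H]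
  [MeasurableSpace P] [MeasurableSpace H] [BorelSpace P] [BorelSpace H]

omit [LocallyCompactSpace P] [T2Space P] [SecondCountableTopology P] [MeasurableSpace P]
  [BorelSpace P] in
private theorem FSc_uw (G : PG P) {U : Set P} (hU : U ∈ 𝓝 (1 : P)) : G.uw U ∈ 𝓝 G.w := by
  have h : (fun x : P => x * G.w⁻¹) ⁻¹' U ∈ 𝓝 G.w := by
    refine (continuous_id.mul continuous_const).continuousAt.preimage_mem_nhds ?_
    simpa using hU
  refine Filter.mem_of_superset h fun x hx => ?_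
  exact ⟨x * G.w⁻¹, hx, G.w, rfl, by simp⟩

theorem tFSc : S_Q1 P H → S_Sma P H → S_Smb P H → S_tele P H → S_pvp P H → S_egm P H →
    S_FSc P H := by
  intro hQ1 hSma hSmb htele hpvp hegm D G hF
  obtain ⟨UQ, hUQ, -, s₁, hQ⟩ := hQ1 D G hF
  obtain ⟨Uv, hUv, hUvc, Uc, hUc, hUcc, s₂, hb⟩ := hSmb D G hF UQ hUQ
  obtain ⟨T₀, cm, hcm, hlo⟩ := hF.lo 1 G.w Uc hUc (G.uw Uc) (FSc_uw P G hUc)
  obtain ⟨cp, hcp, hup⟩ := hF.up Uc (G.uw Uc) hUcc (hUcc.mul isCompact_singleton) 0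
  obtain ⟨U, hU, hUk, ha⟩ := hSma D G hF Uc hUc Uv hUv
  obtain ⟨s, hs1, hss₁, hss₂, hsT⟩ : ∃ s, 1 ≤ s ∧ s₁ ≤ s ∧ s₂ ≤ s ∧ T₀ ≤ s :=
    ⟨1 + s₁ + s₂ + T₀, by omega, by omega, by omega, by omega⟩
  obtain ⟨L, c₀, hL, hbd⟩ := hQ s hss₁
  refine ⟨U, hU, hUk, L, c₀, hL, fun R => ?_⟩
  obtain ⟨CQ, TQ, hCQ, hQb⟩ := hbd R
  obtain ⟨Ca, Ta, hCa, haR⟩ := ha s hs1 R
  obtain ⟨Cb, Tb, hCb, hbR⟩ := hb s hss₂ R
  have hcc : (cp / cm) ^ 2 ≠ ∞ := ENNReal.pow_ne_top (ENNReal.div_ne_top hcp hcm.ne')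
  refine ⟨Ca * ((cp / cm) ^ 2 * (8 * (Cb * CQ))), s + Ta + Tb + 2 * TQ + 4,
    ENNReal.mul_ne_top hCa (ENNReal.mul_ne_top hcc (ENNReal.mul_ne_top (by norm_num)
      (ENNReal.mul_ne_top hCb hCQ))), fun r hr i hi φ hφ => ?_⟩
  obtain ⟨hi0, hi1, hi2, hi3⟩ := hi
  obtain ⟨N, hN⟩ : ∃ N, i 0 = s + N := ⟨i 0 - s, by omega⟩
  have hN1 : 1 ≤ N := by omega
  have hNr : N ≤ 8 * r := by omega
  set a : ℕ := (N - 1 + i 1) / 2 with hadef
  set b : ℕ := N - 1 + i 1 - a with hbdef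
  have hab : a + b = N - 1 + i 1 := by omega
  have ha1 : r ≤ a := by omega
  have ha2 : a + TQ ≤ 4 * r := by omega
  have hb1 : r ≤ b := by omega
  have hb2 : b + TQ ≤ 4 * r := by omega
  let i' : Fin 2 → ℕ := ![a, b]
  have hi'0 : i' 0 = a := rfl
  have hi'1 : i' 1 = b := rfl
  have hok : okL 2 TQ r i' := by
    intro j
    fin_cases j
    · exact ⟨ha1, ha2⟩
    · exact ⟨hb1, hb2⟩
  have e1 := haR N (i 1) (by omega) (by omega) φ hφ i hN rfl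
  obtain ⟨p1, p2, p3⟩ := hpvp D G hF.ok hF.gok φ hφ
  obtain ⟨m1, -⟩ := hegm D G hF.ok hF.gok
  have e2 := htele D hF.ok G.a (D.eg G (G.uw Uv) Uv (2 * R) (i 1)) (D.ch G Uc s)
    (m1 _ _ (hUvc.mul isCompact_singleton) hUvc _ _)
    (m1 _ _ hUcc (hUcc.mul isCompact_singleton) _ _) N cm cp hN1 hcm hcp
    (fun x y => ⟨hlo 0 s hsT x y, hup s x y⟩) (pv G φ) p1 p2 p3
  have e3 : ∀ j ∈ Finset.range N, TT D ((opL D G.a)^[j] ((opR D G.a)^[N - 1 - j]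
      (D.eg G (G.uw Uv) Uv (2 * R) (i 1)))) (opF D G.a (D.ch G Uc s))
      (opB D G.a (D.ch G Uc s)) (pv G φ) ≤ Cb * (CQ * D.EL G L (R + c₀) r φ) := by
    intro j hj
    have hj' := Finset.mem_range.1 hj
    refine (hbR (i 1) (by omega) j (N - 1 - j) φ hφ i' (by rw [hi'0, hi'1]; omega)).trans ?_
    have e4 := hQb r (by omega) i' hok φ hφ
    rw [pow_zero, mul_one] at e4
    exact mul_le_mul_right e4 _
  have e5 : ∑ j ∈ Finset.range N, TT D ((opL D G.a)^[j] ((opR D G.a)^[N - 1 - j]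
      (D.eg G (G.uw Uv) Uv (2 * R) (i 1)))) (opF D G.a (D.ch G Uc s))
      (opB D G.a (D.ch G Uc s)) (pv G φ) ≤ (8 * r : ℝ≥0∞) * (Cb * (CQ * D.EL G L (R + c₀) r φ)) := by
    refine (Finset.sum_le_sum e3).trans ?_
    rw [Finset.sum_const, Finset.card_range, nsmul_eq_mul]
    refine mul_le_mul_left ?_ _
    have : ((N : ℕ) : ℝ≥0∞) ≤ ((8 * r : ℕ) : ℝ≥0∞) := by exact_mod_cast hNr
    simpa using this
  calc FS D G U R i φ ≤ Ca * TT D (D.eg G (G.uw Uv) Uv (2 * R) (i 1))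
        ((opF D G.a)^[N] (D.ch G Uc s)) ((opB D G.a)^[N] (D.ch G Uc s)) (pv G φ) := e1
    _ ≤ Ca * ((cp / cm) ^ 2 * ((8 * r : ℝ≥0∞) * (Cb * (CQ * D.EL G L (R + c₀) r φ)))) :=
        mul_le_mul_right (e2.trans (mul_le_mul_right e5 _)) _
    _ = Ca * ((cp / cm) ^ 2 * (8 * (Cb * CQ))) * (r : ℝ≥0∞) ^ 1 * D.EL G L (R + c₀) r φ := by
        ring

end Pool.Agent.MPEF.U
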