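import Pool.Agent.Lib.MP_ef3f0f_gt.U.E.SpecB

/-!
# MP_ef3f0f_gt, Theorem U, Part E: two forward edges
-/

set_option autoImplicit false
set_option linter.unusedSectionVars false

namespace Pool.Agent.MPEF.U

open MeasureTheory Topology
open scoped ENNReal Pointwise

section FUc

variable (P H : Type) [Group P] [Group H] [TopologicalSpace P] [TopologicalSpace H]
  [IsTopologicalGroup P] [IsTopologicalGroup H] [LocallyCompactSpace P] [LocallyCompactSpace H]
  [T2Space P] [T2Space H] [SecondCountableTopology P] [SecondCountableTopology H]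
  [MeasurableSpace P] [MeasurableSpace H] [BorelSpace P] [BorelSpace H]

private theorem FUc_IM (D : Dat P H) {f f' : P × H → ℝ≥0∞} (h : ∀ x, f x ≤ f' x) :
    D.IM f ≤ D.IM f' := by
  unfold Dat.IM
  exact lintegral_mono fun x => mul_le_mul_right (h x) _

theorem tFUc : S_FSc P H → S_ec P → S_FUc P H := by
  intro hFS hec D G hF
  obtain ⟨U, hU, hUc, L, c₀, hL, h⟩ := hFS D G hF
  have hUn : Un D.μ₁ := ⟨hF.ok.haar₁, hF.ok.right₁, hF.ok.inv₁⟩
  obtain ⟨e1, -, -, -, -, e6, -⟩ := hec G D.μ₁ hUn hF.gok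
  refine ⟨L, c₀, hL, fun R => ⟨U, hU, hUc, 0, fun b _ => ?_⟩⟩
  obtain ⟨C, T, hC, hle⟩ := h R
  refine ⟨C, T, hC, fun r hr d hd n m hok φ hφ => ?_⟩
  refine le_trans ?_ (hle r hr ![n, m] hok φ hφ)
  have hbk : ∀ g, D.bk G U d m g ≤ D.eg G (G.uw U) U (2 * R) m g := by
    intro g
    change eP D.μ₁ G (G.uw U * {d}) U 0 m g.1 * D.nu m g.2 ≤
      eP D.μ₁ G (G.uw U) U (2 * R) m g.1 * D.nu m g.2
    rw [(e1 (G.uw U) U d m g.1).1]
    exact mul_le_mul_left (e6 (G.uw U) U (2 * R) m d g.1 hd) _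
  unfold FU FS TT
  exact FUc_IM P H D fun x => FUc_IM P H D fun y => ENNReal.tsum_le_tsum fun V =>
    mul_le_mul_left (hbk _) _

end FUc

end Pool.Agent.MPEF.U
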