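import Pool.Agent.Lib.MP_ef3f0f_gt.U.E.SpecB

/-! # Theorem U, Part E, module FVc (helper47): two backward edges (exchange of roles) -/

set_option autoImplicit false
set_option linter.unusedSectionVars false

namespace Pool.Agent.MPEF.U

open MeasureTheory Topology
open scoped ENNReal Pointwise

variable (P H : Type) [Group P] [Group H] [TopologicalSpace P] [TopologicalSpace H]
  [IsTopologicalGroup P] [IsTopologicalGroup H] [LocallyCompactSpace P] [LocallyCompactSpace H]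
  [T2Space P] [T2Space H] [SecondCountableTopology P] [SecondCountableTopology H]
  [MeasurableSpace P] [MeasurableSpace H] [BorelSpace P] [BorelSpace H]

/-- The kernel of a backward edge becomes the kernel of a straight edge. -/
private theorem FVc_K (hec : S_ec P) (hAD : S_AD P) (G : PG P) (μ : Measure P) (hU : Un μ)
    (hG : G.Ok) (U U₂ : Set P) (d : P) (h₁ : ∀ e ∈ U, G.w * e * G.w ∈ U₂)
    (h₂ : ∀ e ∈ U, d⁻¹ * (G.w * e * G.w) * d ∈ U₂) (m : ℕ) (g : P) :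
    eP μ G (G.uw U * {d}) U 0 m (G.w * d * g * G.w) ≤ eP μ G U₂ (G.uw U₂) 0 m g := by
  have hww := hG.ww
  have hinv : G.w⁻¹ = G.w := inv_eq_of_mul_eq_one_left hww
  obtain ⟨-, -, -, h4, -⟩ := hec G μ hU hG
  have := hU.haar
  have := hU.right
  have := hU.inv
  obtain ⟨hm, -⟩ := hAD G μ hG
  rw [(h4 (G.uw U * {d}) U 0 m G.w (G.w * d * g)).2, (h4 (G.uw U * {d}) _ 0 m (G.w * d) g).1]
  refine hm _ _ _ _ _ _ _ ?_ ?_ (le_refl 0) g
  · rintro y ⟨x, hx, b, ⟨c, ⟨e, he, w, hw, rfl⟩, d', hd', rfl⟩, rfl⟩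
    have hx' : x = (G.w * d)⁻¹ := hx
    have hw' : w = G.w := hw
    have hd'' : d' = d := hd'
    subst hx' hw' hd''
    have h5 : (G.w * d')⁻¹ * (e * G.w * d') = d'⁻¹ * (G.w * e * G.w) * d' := by
      rw [mul_inv_rev, hinv]
      simp only [mul_assoc]
    change (G.w * d')⁻¹ * (e * G.w * d') ∈ U₂
    rw [h5]
    exact h₂ e he
  · rintro y ⟨x, hx, e, he, rfl⟩
    have hx' : x = G.w := hx
    subst hx'
    refine ⟨G.w * e * G.w, h₁ e he, G.w, rfl, ?_⟩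
    change G.w * e * G.w * G.w = G.w * e
    rw [mul_assoc, hww, mul_one]

/-- The kernel of a straight edge becomes the kernel of a backward edge. -/
private theorem FVc_V (hec : S_ec P) (hAD : S_AD P) (G : PG P) (μ : Measure P) (hU : Un μ)
    (hG : G.Ok) (U U₂ : Set P) (d : P) (R : ℕ) (hd : G.w * d⁻¹ * G.w ∈ G.D1 ^ R)
    (h₁ : ∀ e ∈ U, G.w * e * G.w ∈ U₂)
    (h₂ : ∀ e ∈ U, d⁻¹ * (G.w * e * G.w) * d ∈ U₂) (n : ℕ) (g : P) :
    eP μ G U (G.uw U) 0 n (G.w * d * g * G.w) ≤ eP μ G (G.uw U₂) U₂ R n g := by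
  have hww := hG.ww
  have hinv : G.w⁻¹ = G.w := inv_eq_of_mul_eq_one_left hww
  obtain ⟨e1, -, -, h4, -, e6, -⟩ := hec G μ hU hG
  have := hU.haar
  have := hU.right
  have := hU.inv
  obtain ⟨hm, -⟩ := hAD G μ hG
  rw [(h4 U (G.uw U) 0 n G.w (G.w * d * g)).2, (h4 U _ 0 n (G.w * d) g).1]
  have hstep : eP μ G (G.uw U₂ * {G.w * d⁻¹ * G.w}) U₂ 0 n g ≤ eP μ G (G.uw U₂) U₂ R n g := by
    rw [(e1 (G.uw U₂) U₂ (G.w * d⁻¹ * G.w) n g).1]
    exact e6 _ _ R n _ g hd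
  refine (hm _ _ _ _ _ _ _ ?_ ?_ (le_refl 0) g).trans hstep
  · rintro y ⟨x, hx, e, he, rfl⟩
    have hx' : x = (G.w * d)⁻¹ := hx
    subst hx'
    refine ⟨d⁻¹ * (G.w * e * G.w) * d * G.w, ⟨_, h₂ e he, G.w, rfl, rfl⟩,
      G.w * d⁻¹ * G.w, rfl, ?_⟩
    change d⁻¹ * (G.w * e * G.w) * d * G.w * (G.w * d⁻¹ * G.w) = (G.w * d)⁻¹ * e
    calc d⁻¹ * (G.w * e * G.w) * d * G.w * (G.w * d⁻¹ * G.w) =
        d⁻¹ * (G.w * e * G.w) * d * (G.w * G.w) * d⁻¹ * G.w := by simp only [mul_assoc]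
      _ = d⁻¹ * G.w * e * G.w * G.w := by
        rw [hww]
        group
      _ = (G.w * d)⁻¹ * e := by
        rw [mul_assoc _ G.w G.w, hww, mul_one, mul_inv_rev, hinv]
  · rintro y ⟨x, hx, b, ⟨e, he, w, hw, rfl⟩, rfl⟩
    have hx' : x = G.w := hx
    have hw' : w = G.w := hw
    subst hx' hw'
    change G.w * (e * G.w) ∈ U₂
    rw [← mul_assoc]
    exact h₁ e he

theorem tFVc : S_FSc P H → S_ec P → S_phP P H → S_phV P H → S_IM P H → S_AD P → S_DF P →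
    S_TB P → S_TTs P H → S_pvp P H → S_egm P H → S_FVc P H := by
  intro hFSc hec hphP _hphV _hIM hAD hDF hTB hTTs hpvp hegm D G hF
  have hD := hF.ok
  have hG := hF.gok
  have hh₁ := hD.haar₁
  have hr₁ := hD.right₁
  have hi₁ := hD.inv₁
  have hUn : Un D.μ₁ := ⟨hh₁, hr₁, hi₁⟩
  obtain ⟨dc, dA, d1, di, -, dw, -, -, -, -, -⟩ := hDF G hG
  have hww := hG.ww
  obtain ⟨U₂, hU₂, -, L, c₀, hL, hCT⟩ := hFSc D G hF
  refine ⟨L, c₀, hL, fun R => ?_⟩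
  obtain ⟨C, T, hC, hT⟩ := hCT R
  -- the window
  have hpos : {p : P × P | G.Pos p.1 (p.2 * G.w)} ∈ 𝓝 ((1 : P), (1 : P)) := by
    have hopen : IsOpen {p : P × P | G.Pos p.1 (p.2 * G.w)} :=
      hG.Po.preimage (continuous_fst.prodMk (continuous_snd.mul continuous_const))
    refine hopen.mem_nhds ?_
    change G.Pos 1 (1 * G.w)
    rw [one_mul]
    exact hG.P1
  rw [nhds_prod_eq, Filter.mem_prod_self_iff] at hpos
  obtain ⟨V₀, hV₀, hV₀'⟩ := hpos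
  obtain ⟨V₁, hV₁, hTV⟩ := (hTB G hG {1} U₂ isCompact_singleton
    (Set.singleton_subset_iff.2 (mem_interior_iff_mem_nhds.2 hU₂))).2.1 (G.D1 ^ (2 * R)) (dc _)
  have hV₁' : {e : P | G.w * e * G.w ∈ V₁} ∈ 𝓝 (1 : P) := by
    have hc : Continuous fun e : P => G.w * e * G.w := by fun_prop
    refine hc.continuousAt.preimage_mem_nhds ?_
    rw [mul_one, hww]
    exact hV₁
  obtain ⟨U, hU, hUsub, hUc⟩ := local_compact_nhds (Filter.inter_mem hV₀ hV₁')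
  have h₂ : ∀ d ∈ G.D1 ^ (2 * R), ∀ e ∈ U, d⁻¹ * (G.w * e * G.w) * d ∈ U₂ := by
    intro d hd e he
    have h5 := hTV (G.w * e * G.w) (hUsub he).2 1 rfl d⁻¹ (di _ d hd)
    rwa [one_mul, inv_inv] at h5
  have h₁ : ∀ e ∈ U, G.w * e * G.w ∈ U₂ := by
    intro e he
    have h5 := h₂ 1 (d1 _) e he
    rwa [inv_one, one_mul, mul_one] at h5
  have hPos : ∀ s ∈ U, ∀ s' ∈ G.uw U, G.Pos s s' := by
    rintro s hs s' ⟨e, he, w, rfl, rfl⟩
    exact hV₀' (Set.mk_mem_prod (hUsub hs).1 (hUsub he).1)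
  have hPos' : ∀ κ ∈ G.uw U, ∀ κ' ∈ U, G.Pos κ κ' := fun κ hκ κ' hκ' =>
    (hG.Ps _ _).1 (hPos κ' hκ' κ hκ)
  have hPosD : ∀ s ∈ U, ∀ s' ∈ G.uw U * G.D1 ^ (2 * R), G.Pos s s' := by
    rintro s hs s' ⟨e, he, d, hd, rfl⟩
    have h5 := (hG.Pr e s d (hG.AB (dA _ hd))).2 ((hG.Ps _ _).1 (hPos s hs e he))
    exact (hG.Ps _ _).1 h5
  have hUwc : IsCompact (G.uw U) := hUc.mul isCompact_singleton
  obtain ⟨k, hk⟩ := hphP D G hG hF.gf U (G.uw U) (G.uw U * G.D1 ^ (2 * R)) U hUc hUwc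
    (hUwc.mul (dc _)) hUc hPosD hPos'
  obtain ⟨-, -, -, hAD4, -, -⟩ := hAD G D.μ₁ hG
  obtain ⟨T₀, hT₀⟩ := hAD4 0 k
  refine ⟨U, hU, hUc, 0, fun b _ => ⟨C, max T T₀, hC, fun r hr d hd n m hnm φ hφ => ?_⟩⟩
  obtain ⟨hn, hm, hnm1, hnm2⟩ := hnm
  have hok : okS2 T r ![m, n] := by
    refine ⟨?_, ?_, ?_, ?_⟩
    · exact le_trans (le_max_left _ _) hm
    · exact le_trans (le_max_left _ _) hn
    · change 2 * r + T ≤ m + n
      have := le_max_left T T₀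
      omega
    · change m + n + T ≤ 8 * r
      have := le_max_left T T₀
      omega
  refine le_trans ?_ (hT r (le_trans (le_max_left _ _) hr) ![m, n] hok φ hφ)
  obtain ⟨hψm, hψe, -⟩ := hpvp D G hD hG φ hφ
  have hegm' := (hegm D G hD hG).1
  have hbc : IsCompact (G.uw U * {d}) := hUwc.mul isCompact_singleton
  have hchm : Measurable (D.ch G U n) := hegm' U (G.uw U) hUc hUwc 0 n
  have hbkm : Measurable (D.bk G U d m) := hegm' _ U hbc hUc 0 m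
  obtain ⟨ψ, hψdef⟩ : ∃ ψ : P × H → D.Γ → D.Γ → ℝ, ψ = fun x u v => pv G φ x v u := ⟨_, rfl⟩
  have hψm' : ∀ u v, Measurable fun x => ψ x u v := by
    intro u v
    rw [hψdef]
    exact hψm v u
  have hψe' : ∀ (γ γ' : D.Γ) (x) (u v : D.Γ),
      ψ ((γ : P × H) * x) (γ * u * γ') (γ * v * γ') = ψ x u v := by
    intro γ γ' x u v
    rw [hψdef]
    exact hψe γ γ' x v u
  have hFV : FV D G U d b n m φ = TT D (D.ch G U n) (D.bk G U d m) (D.bk G U d m) ψ := by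
    rw [hψdef]
    rfl
  have e₁ : (((G.w * d)⁻¹, 1) : P × H)⁻¹ = (G.w * d, 1) := by
    rw [Prod.inv_mk, inv_inv, inv_one]
  rw [hFV, (hTTs D hD _ _ _ hchm hbkm hbkm ψ hψm' hψe').1 ((G.w * d)⁻¹, 1) (G.w, 1), e₁]
  have hsh : ∀ K : P × H → ℝ≥0∞, Measurable K →
      Measurable fun g : P × H => K ((G.w * d, 1) * g * (G.w, 1)) := fun K hK =>
    hK.comp ((measurable_const_mul _).mul_const _)
  have hneg : FS D G U₂ R ![m, n] φ = TT D (D.eg G (G.uw U₂) U₂ (2 * R) n) (D.ch G U₂ m)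
      (D.ch G U₂ m) (fun x u v => - pv G φ x u v) := by
    have hab : ∀ s t : ℝ, ab (s - t) = ab (-s - -t) := by
      intro s t
      unfold ab
      rw [neg_sub_neg, abs_sub_comm]
    unfold FS TT
    simp only [← hab]
    rfl
  rw [hneg]
  refine ((hTTs D hD _ _ _ (hsh _ hchm) (hsh _ hbkm) (hsh _ hbkm)
    (fun x => ψ (x * ((G.w * d)⁻¹, 1)))
    (fun u v => (hψm' u v).comp (measurable_mul_const _))
    (fun γ γ' x u v => by rw [mul_assoc]; exact hψe' γ γ' _ u v)).2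
    (D.eg G (G.uw U₂) U₂ (2 * R) n) (D.ch G U₂ m) (D.ch G U₂ m)
    (fun x u v => - pv G φ x u v) 1 ENNReal.one_ne_top ?_ ?_).trans (one_mul _).le
  · intro g g' g''
    rw [one_mul]
    have hdw : G.w * d⁻¹ * G.w ∈ G.D1 ^ (2 * R) := dw _ _ (di _ d hd)
    have kk₁ : ∀ g : P × H, D.bk G U d m ((G.w * d, 1) * g * (G.w, 1)) ≤ D.ch G U₂ m g := by
      intro g
      change eP D.μ₁ G (G.uw U * {d}) U 0 m (G.w * d * g.1 * G.w) * D.nu m (1 * g.2 * 1) ≤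
        eP D.μ₁ G U₂ (G.uw U₂) 0 m g.1 * D.nu m g.2
      rw [one_mul, mul_one]
      exact mul_le_mul_left (FVc_K P hec hAD G D.μ₁ hUn hG U U₂ d h₁ (h₂ d hd) m g.1) _
    refine mul_le_mul' ?_ (mul_le_mul' (kk₁ g') (kk₁ g''))
    change eP D.μ₁ G U (G.uw U) 0 n (G.w * d * g.1 * G.w) * D.nu n (1 * g.2 * 1) ≤
      eP D.μ₁ G (G.uw U₂) U₂ (2 * R) n g.1 * D.nu n g.2
    rw [one_mul, mul_one]
    exact mul_le_mul_left (FVc_V P hec hAD G D.μ₁ hUn hG U U₂ d (2 * R) hdw h₁ (h₂ d hd) n g.1) _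
  · intro x y V u u' k₀ k₁ k₂
    have h1U : (1 : P) ∈ U := mem_of_mem_nhds hU
    have hxy : ∀ V : D.Γ, (x * ((G.w * d)⁻¹, 1))⁻¹ * (V : P × H) * (y * (G.w, 1)) =
        (G.w * d, 1) * (x⁻¹ * (V : P × H) * y) * (G.w, 1) := by
      intro V
      rw [mul_inv_rev, e₁]
      simp only [mul_assoc]
    have w₀ : ((x * ((G.w * d)⁻¹, 1))⁻¹ * (V : P × H) * (y * (G.w, 1))).1 ∈
        G.W U (G.uw U) k := by
      rw [hxy]
      exact hT₀ n (le_trans (le_max_right _ _) hn) _ _ _ (left_ne_zero_of_mul k₀)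
    have hW : ∀ u₀ : D.Γ, D.bk G U d m ((G.w * d, 1) * (x⁻¹ * (u₀ : P × H) * y) * (G.w, 1)) ≠ 0 →
        ψ (x * ((G.w * d)⁻¹, 1)) u₀ V = - pv G φ x u₀ V := by
      intro u₀ hu₀
      have w₁ : ((x * ((G.w * d)⁻¹, 1))⁻¹ * (u₀ : P × H) * (y * (G.w, 1))).1 ∈
          G.W (G.uw U * G.D1 ^ (2 * R)) U k := by
        rw [hxy]
        obtain ⟨s, hs, t, ht, q, hq, heq⟩ := hT₀ m (le_trans (le_max_right _ _) hm)
          (G.uw U * {d}) U _ (left_ne_zero_of_mul hu₀)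
        exact ⟨s, Set.mul_subset_mul_left (Set.singleton_subset_iff.2 hd) hs, t, ht, q, hq, heq⟩
      have h5 := (hk _ _ V u₀ w₀ w₁ φ hφ 1 h1U (1 * G.w * d)
        (Set.mul_mem_mul (Set.mul_mem_mul h1U rfl) hd)).2
      have h6 : (x * ((G.w * d)⁻¹, 1)).1 * (1 * G.w * d) = x.1 := by
        change x.1 * (G.w * d)⁻¹ * (1 * G.w * d) = x.1
        rw [one_mul, inv_mul_cancel_right]
      rw [h6, mul_one] at h5
      have h7 : ψ (x * ((G.w * d)⁻¹, 1)) u₀ V =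
          ph G φ (V * u₀⁻¹) (x * ((G.w * d)⁻¹, 1)).1 := by
        rw [hψdef]
        rfl
      have h8 : pv G φ x u₀ V = ph G φ (u₀ * V⁻¹) x.1 := rfl
      rw [h7, h8, h5, neg_neg]
    change ψ (x * ((G.w * d)⁻¹, 1)) u V - ψ (x * ((G.w * d)⁻¹, 1)) u' V = _
    rw [hW u k₁, hW u' k₂]

end Pool.Agent.MPEF.U
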