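import Pool.Agent.Lib.MP_ef3f0f_gt.U.E.SpecB
import Pool.Agent.Lib.MP_ef3f0f_gt.U.F.SpecD

set_option autoImplicit false

/-!
# MP_ef3f0f_gt, Theorem U, Part E (coercivity): the statements C (the constant)

Conventions as in `U/E/SpecA`, `SpecB`. A standard pair of lengths `(n, m)` from `x` to `y`: `u` of kernel `ch U n`, `V` of kernel `bk U d m`, `d ∈ D1^(2R)`; its
value is `pv x u V = ph (u V⁻¹) x.1`. `d` commutes with `a^b`. Intermediate windows: `CU` gives `U = U_R`; all functionals `FU, FV, F7a, ...` are monotone in `U`.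
-/

namespace Pool.Agent.MPEF.U

open MeasureTheory Topology
open scoped ENNReal Pointwise

variable (P H : Type) [Group P] [Group H] [TopologicalSpace P] [TopologicalSpace H]
  [IsTopologicalGroup P] [IsTopologicalGroup H] [LocallyCompactSpace P] [LocallyCompactSpace H]
  [T2Space P] [T2Space H] [SecondCountableTopology P] [SecondCountableTopology H]
  [MeasurableSpace P] [MeasurableSpace H] [BorelSpace P] [BorelSpace H]

/-- **CUs** (from `S_AD P`). Sums for `CU`. Proof. As `S_CTs`: `L = L₁ ++ L₂`, `c₀ = c₁ + c₂` (`EL` is monotone in the range and in the list). Given `R`: `U₁, b₁`, `U₂, b₂` for `R`; the hypothesis gives `U, b₀`; take `max b₀ b₁ b₂`; for `b` take `C₁, T₁`, `C₂, T₂`,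
then the hypothesis for `T = max T₁ T₂` gives `C, T'`; the new constants are `C (C₁ + C₂)` and `max T T'`. -/
def S_CUs : Prop :=
  ∀ (D : Dat P H) (G : PG P), D.Ok → G.Ok → ∀ (p : ℕ)
    (F₁ F₂ F : Set P → P → ℕ → ℕ → ℕ → (D.Γ → P → ℝ) → ℝ≥0∞), CU D G p okS F₁ → CU D G p okS F₂ →
    (∀ R : ℕ, ∀ U₁ ∈ 𝓝 (1 : P), ∀ U₂ ∈ 𝓝 (1 : P), IsCompact U₁ → IsCompact U₂ →
      ∃ U ∈ 𝓝 (1 : P), IsCompact U ∧ ∃ b₀ : ℕ, ∀ b, b₀ ≤ b → ∀ T : ℕ, ∃ (C : ℝ≥0∞) (T' : ℕ), C ≠ ∞ ∧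
        ∀ r, T' ≤ r → ∀ d ∈ G.D1 ^ (2 * R), ∀ n m, okS T' r n m → ∃ n₁ m₁ n₂ m₂,
          okS T r n₁ m₁ ∧ okS T r n₂ m₂ ∧ ∀ φ, Adm D G φ →
            F U d b n m φ ≤ C * (F₁ U₁ d b n₁ m₁ φ + F₂ U₂ d b n₂ m₂ φ)) →
    CU D G p okS F

/-- **lod** (from `S_NT1 P`, ec). Bounds for the kernels `bk`, uniformly in `d ∈ D1^(2R)`. Proof. Let `V` be a neighbourhood of `1` with `V V ⊆ U`. `S_NT1` for `D1^(2R)` and the neighbourhood `{v | w v⁻¹ w ∈ V}`: a finite net `F`, `d = v d'`, `d' ∈ F`, so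
`V w d' = V (w v⁻¹ w) w d ⊆ uw U * {d}`. `lo` for the finitely many windows `V * {w d'}` (a neighbourhood of `w d'`) and `U`. Upper bound: `bk U d m ≤ eg (uw U) U (2R) m` (`S_ec` (1), (6)) and `up`. -/
def S_lod : Prop :=
  ∀ (D : Dat P H) (G : PG P), Fc D G → ∀ U ∈ 𝓝 (1 : P), IsCompact U → ∀ R : ℕ,
    ∃ (c C : ℝ≥0∞) (T : ℕ), 0 < c ∧ C ≠ ∞ ∧ ∀ d ∈ G.D1 ^ (2 * R), ∀ x y,
      (∀ m, T ≤ m → c ≤ D.N (D.bk G U d m) x y) ∧ (∀ m, D.N (D.bk G U d m) x y ≤ C) ∧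
      (∀ n, T ≤ n → c ≤ D.N (D.ch G U n) x y) ∧ (∀ n, D.N (D.ch G U n) x y ≤ C) ∧
      ∀ m g, D.bk G U d m g ≤ D.eg G (G.uw U) U (2 * R) m g

/-- **F7ac** (from CUs, FUc, FVc, mer, ms1, ec, phB, lod, egm, ton, `S_DF P`, `S_AD P`). Change of `x`. Proof. `S_CUs` for `FU`, `FV`. `Ũ` a compact neighbourhood of `1` in the interior of `U₁ ∩ U₂`; `V` from `S_ms1` for `S₁ = Ũ`, `K₂ = uw Ũ`, `S₁' = U₁`, `K₂' = uw U₁`, and for `S₁ = uw Ũ`, `K₂ = Ũ`, `S₁' = uw U₂`, `K₂' = U₂`;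
`U ⊆ Ũ ∩ V` compact and small. Chord `e : x → x'` of kernel `ch U b`, `b ≥ b₀` (`N ≥ c`, `lo`). `|pv x u V - pv x' u' V'| ≤ |pv x u V - pv x (e u') V| + |pv x' u' (e⁻¹ V) - pv x' u' V'|`, because `pv x (e u') V = pv x' u' (e⁻¹ V)` (`S_phB`, windows `(U, uw U)`, `(U, uw U)`, `(uw U * D1^(2R), U)`; lengths `b ≥ b₀`, `n, m ≥ T`).
First term: drop `V'`; `S_mer` (1) and `S_ms1` (`s = a^b`, `s' = a^n`): `e u'` of kernel `ch U₁ (n + b)`: `≤ C FU(d; n + b, m)`. Second term: drop `u`; `S_mer` (2): the reversed kernel of `ch U b` is `ec (uw U) U (a^b)` (`S_ec` (2), `w (a^b)⁻¹ w = a^b`), and `bk U d m = ec (uw U) U (d a^m)`;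
second part of `S_ms1` (`s = a^b`, `s' = d a^m ∈ Dp 0` for `m ≥ T`): `e⁻¹ V` of kernel `bk U₂ d (m + b)`: `≤ C FV(d; n, m + b)`. -/
def S_F7ac : Prop := ∀ (D : Dat P H) (G : PG P), Fc D G → CU D G 1 okS (F7a D G)

/-- **F7bc** (from CUs, FUc, FVc, mer, mer3, ms1, ec, lod, egm, ton, `S_DF P`). Change of `y`. Proof. As F7ac with a chord `e : y' → y` of kernel `ch U b`: `pv x (u' e) V = pv x u' (V e⁻¹)` (the same group element), `|pv x u V - pv x u' V'| ≤ |pv x u V - pv x (u' e) V| + |pv x u' (V e⁻¹) - pv x u' V'|`.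
First term: `S_mer` (1) (sum over `y'`), `S_ms1`: `FU(d; n + b, m)` at `(x, y)`. Second term: `S_mer3` (sum over `y`): kernel `bk U d m` and the reversed kernel `ec (uw U) U (a^b)` of `ch U b`: second part of `S_ms1` (`s = d a^m`, `s' = a^b`): `bk U₂ d (m + b)`: `FV(d; n, m + b)` at `(x, y')`. -/
def S_F7bc : Prop := ∀ (D : Dat P H) (G : PG P), Fc D G → CU D G 1 okS (F7b D G)

/-- **F7cc** (from CUs, F7ac, F7bc, lod, egm, ton). Independent pairs. Proof. `U = ` a compact neighbourhood in the intersection of the two windows; insert a third pair `(x', y; u'', V'')` of lengths `(n, m + b)` (mass `≥ c`: `IM x'` is outside; `∑ ch ≥ c`, `∑ bk ≥ c`, `lod`, `n, m ≥ T`):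
`|pv x u V - pv x' u' V'| ≤ |pv x u V - pv x' u'' V''| + |pv x' u'' V'' - pv x' u' V'|`; first term `F7a` (drop `(y'; u', V')`: `IM y' = 1`, `up`), second term `F7b` at `(x', y'), (x', y)` (drop `(x; u, V)`). -/
def S_F7cc : Prop := ∀ (D : Dat P H) (G : PG P), Fc D G → CU D G 1 okS (F7c D G)

/-- **mn**. Mean value lemma. Proof (as `I/mean.lean`). Let `A = X2 (ofReal f)`, `B = X2 (ofReal (-f))`, `A = B ≠ ∞`. For `t > 0`: pointwise `t + ofReal(-f) ≤ |t - f| + ofReal(f)`; so `X2(1) t + B ≤ X2(|t - f|) + A`; cancel. `t < 0`: `-t`, `-f`. `t = 0` trivial. Additivity: measurability (`S_MQ`). -/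
def S_mn : Prop :=
  ∀ D : Dat P H, D.Ok → ∀ K₁ K₂ : P × H → ℝ≥0∞, Measurable K₁ → Measurable K₂ →
    ∀ f : P × H → D.Γ → D.Γ → ℝ, (∀ u v, Measurable fun x => f x u v) →
    D.X2 K₁ K₂ (fun x u v => ENNReal.ofReal (f x u v)) ≠ ∞ →
    D.X2 K₁ K₂ (fun x u v => ENNReal.ofReal (f x u v)) =
      D.X2 K₁ K₂ (fun x u v => ENNReal.ofReal (- f x u v)) →
    ∀ t : ℝ, D.X2 K₁ K₂ (fun _ _ _ => 1) * ab t ≤
      D.X2 K₁ K₂ (fun x u v => ab (t - f x u v))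

/-- **I7c** (from F7cc, mn, lod, `S_BAL`, `S_Fin`, egm, ton, `S_MQ`, ec). The value of the standard pairs. `NK` only for `S_Fin`.
Proof. `L, c₀` from `S_F7cc`; given `R`: `U` (WLOG small, compact: `Pos` on `U × uw U D1^(2R)` and `uw U × U`), `b = b₀`, `C`, `T`. For `r ≥ T'`, `d`, lengths `(n', m)` with `n' = n + b`. For fixed `(x, y; u, V)` let `t = pv x u V`. The second copy `(x', y')` with `K₁ = ch U n'`, `K₂ = bk U d m`, `f = pv`: `S_BAL` (`h = 1`), finite by `S_Fin`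
(`bk U d m ≤ eg (uw U) U (2R) m`, monotonicity). `S_mn`: `X2(1) |t| ≤ X2(|t - f|)`, `X2(1) ≥ c` (`lod`). Integrate over the first copy: `c PX ≤ F7c(d; n, m) ≤ C r E`. (`PX 1 ..` has `x.1 * 1`.) `okS T' r n' m` implies `okS T r n m` for `T' = T + 2 b`. -/
def S_I7c : Prop :=
  ∀ (D : Dat P H) (G : PG P), Fc D G → ∀ NK : Set (P → ℝ≥0∞), NiceOk NK → Equi D G NK → I7 D G

end Pool.Agent.MPEF.U
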