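import Pool.Agent.Lib.MP_ef3f0f_gt.U.F.All
import Pool.Agent.Lib.MP_ef3f0f_gt.U.E.SpecC

set_option autoImplicit false

/-! # MP_ef3f0f_gt, Theorem U, Part E: the standing hypotheses `Fc` from equidistribution -/

namespace Pool.Agent.MPEF.U

open MeasureTheory Topology
open scoped ENNReal Pointwise

variable (P H : Type) [Group P] [Group H] [TopologicalSpace P] [TopologicalSpace H]
  [IsTopologicalGroup P] [IsTopologicalGroup H] [LocallyCompactSpace P] [LocallyCompactSpace H]
  [T2Space P] [T2Space H] [SecondCountableTopology P] [SecondCountableTopology H]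
  [MeasurableSpace P] [MeasurableSpace H] [BorelSpace P] [BorelSpace H]

/-- The standing hypotheses of Part E. -/
theorem aFc (D : Dat P H) (hD : D.Ok) (G : PG P) (hG : G.Ok) (hF : G.OkF)
    (NK : Set (P → ℝ≥0∞)) (hN : NiceOk NK) (hE : Equi D G NK) : Fc D G := by
  have := hD.haar₁
  have := hD.right₁
  have := hD.inv₁
  refine ⟨hD, hG, hF, fun S K hS hK R => aUpG P H D hD G hG NK hN hE S K hS hK R, ?_⟩
  intro s k S hS K hK
  obtain ⟨c, T, hc, h⟩ := aLoG P H D hD G hG NK hN hE S K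
    ⟨s, mem_interior_iff_mem_nhds.2 hS⟩ ⟨k, mem_interior_iff_mem_nhds.2 hK⟩
  refine ⟨T, c, pos_iff_ne_zero.2 hc, fun R n hn x y => (h n hn x y).trans ?_⟩
  refine ENNReal.tsum_le_tsum fun u => ?_
  exact mul_le_mul_left ((aAD P G D.μ₁ hG).1 S S K K 0 R n subset_rfl subset_rfl (Nat.zero_le R) _) _

end Pool.Agent.MPEF.U
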