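import Pool.Agent.Lib.MP_ef3f0f_gt.U.E.SpecC

set_option autoImplicit false

/-!
# MP_ef3f0f_gt, Theorem U, Part E, I7c: the value of the standard pairs
-/

namespace Pool.Agent.MPEF.U

open MeasureTheory Topology
open scoped ENNReal Pointwise

section I7cAux

variable {P H : Type} [Group P] [Group H] [MeasurableSpace P] [MeasurableSpace H]

private theorem I7c_IMmono (D : Dat P H) {f g : P × H → ℝ≥0∞} (h : ∀ x, f x ≤ g x) :
    D.IM f ≤ D.IM g :=
  lintegral_mono fun x => mul_le_mul' le_rfl (h x)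

private theorem I7c_IMc (D : Dat P H) (c : ℝ≥0∞) (f : P × H → ℝ≥0∞) :
    c * D.IM f ≤ D.IM fun x => c * f x := by
  unfold Dat.IM
  refine (lintegral_const_mul_le c _).trans (le_of_eq ?_)
  congr 1
  funext x
  ring

private theorem I7c_IMadd (D : Dat P H) (f g : P × H → ℝ≥0∞) :
    D.IM f + D.IM g ≤ D.IM fun x => f x + g x := by
  unfold Dat.IM
  refine (le_lintegral_add _ _).trans (le_of_eq ?_)
  congr 1
  funext x
  rw [mul_add]

private theorem I7c_IMfin (D : Dat P H) {ι : Type} (s : Finset ι) (f : ι → P × H → ℝ≥0∞) :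
    ∑ i ∈ s, D.IM (f i) ≤ D.IM fun x => ∑ i ∈ s, f i x := by
  classical
  induction s using Finset.induction_on with
  | empty =>
    rw [Finset.sum_empty]
    exact zero_le
  | insert a s ha ih =>
    rw [Finset.sum_insert ha]
    refine (add_le_add le_rfl ih).trans ((I7c_IMadd D _ _).trans (le_of_eq ?_))
    congr 1
    funext x
    rw [Finset.sum_insert ha]

private theorem I7c_IMsum (D : Dat P H) {ι : Type} (f : ι → P × H → ℝ≥0∞) :
    ∑' i, D.IM (f i) ≤ D.IM fun x => ∑' i, f i x := by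
  rw [ENNReal.tsum_eq_iSup_sum]
  refine iSup_le fun s => ?_
  exact (I7c_IMfin D s f).trans (I7c_IMmono D fun x => ENNReal.sum_le_tsum s)

private theorem I7c_st2mono (D : Dat P H) {K₁ K₂ K₁' K₂' : P × H → ℝ≥0∞}
    (h₁ : ∀ g, K₁ g ≤ K₁' g) (h₂ : ∀ g, K₂ g ≤ K₂' g) (x y : P × H) {f f' : D.Γ → D.Γ → ℝ≥0∞}
    (h : ∀ u v, f u v ≤ f' u v) : D.st2 K₁ K₂ x y f ≤ D.st2 K₁' K₂' x y f' :=
  ENNReal.tsum_le_tsum fun u => ENNReal.tsum_le_tsum fun v =>
    mul_le_mul' (mul_le_mul' (h₁ _) (h₂ _)) (h u v)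

private theorem I7c_st2c (D : Dat P H) (K₁ K₂ : P × H → ℝ≥0∞) (x y : P × H) (c : ℝ≥0∞)
    (f : D.Γ → D.Γ → ℝ≥0∞) : c * D.st2 K₁ K₂ x y f = D.st2 K₁ K₂ x y fun u v => c * f u v := by
  unfold Dat.st2
  rw [← ENNReal.tsum_mul_left]
  refine tsum_congr fun u => ?_
  rw [← ENNReal.tsum_mul_left]
  refine tsum_congr fun v => ?_
  ring

private theorem I7c_st2IM (D : Dat P H) (K₁ K₂ : P × H → ℝ≥0∞) (x y : P × H)
    (h : D.Γ → D.Γ → P × H → ℝ≥0∞) :
    D.st2 K₁ K₂ x y (fun u v => D.IM (h u v)) ≤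
      D.IM fun z => D.st2 K₁ K₂ x y fun u v => h u v z := by
  unfold Dat.st2
  refine le_trans ?_ (I7c_IMsum D _)
  refine ENNReal.tsum_le_tsum fun u => ?_
  refine le_trans ?_ (I7c_IMsum D _)
  refine ENNReal.tsum_le_tsum fun v => ?_
  exact I7c_IMc D _ _

private theorem I7c_X2mono (D : Dat P H) {K₁ K₂ K₁' K₂' : P × H → ℝ≥0∞}
    (h₁ : ∀ g, K₁ g ≤ K₁' g) (h₂ : ∀ g, K₂ g ≤ K₂' g) {f f' : P × H → D.Γ → D.Γ → ℝ≥0∞}
    (h : ∀ x u v, f x u v ≤ f' x u v) : D.X2 K₁ K₂ f ≤ D.X2 K₁' K₂' f' :=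
  I7c_IMmono D fun x => I7c_IMmono D fun y => I7c_st2mono D h₁ h₂ x y (h x)

private theorem I7c_X2c (D : Dat P H) (K₁ K₂ : P × H → ℝ≥0∞) (c : ℝ≥0∞)
    (f : P × H → D.Γ → D.Γ → ℝ≥0∞) :
    c * D.X2 K₁ K₂ f ≤ D.X2 K₁ K₂ fun x u v => c * f x u v := by
  unfold Dat.X2
  refine (I7c_IMc D c _).trans (I7c_IMmono D fun x => ?_)
  refine (I7c_IMc D c _).trans (I7c_IMmono D fun y => ?_)
  exact (I7c_st2c D K₁ K₂ x y c _).le

private theorem I7c_st2one (D : Dat P H) (K₁ K₂ : P × H → ℝ≥0∞) (x y : P × H) :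
    D.st2 K₁ K₂ x y (fun _ _ => 1) = D.N K₁ x y * D.N K₂ x y := by
  unfold Dat.st2 Dat.N
  rw [← ENNReal.tsum_mul_right]
  refine tsum_congr fun u => ?_
  rw [← ENNReal.tsum_mul_left]
  refine tsum_congr fun v => ?_
  rw [mul_one]

private theorem I7c_X2one [TopologicalSpace P] [TopologicalSpace H] (D : Dat P H) (hD : D.Ok)
    (K₁ K₂ : P × H → ℝ≥0∞) (c : ℝ≥0∞) (h₁ : ∀ x y, c ≤ D.N K₁ x y) (h₂ : ∀ x y, c ≤ D.N K₂ x y) :
    c * c ≤ D.X2 K₁ K₂ fun _ _ _ => 1 := by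
  have h1 : D.IM (fun _ => (1 : ℝ≥0∞)) = 1 := by
    unfold Dat.IM
    simp only [mul_one]
    exact hD.mass
  have h2 : ∀ k : ℝ≥0∞, k ≤ D.IM fun _ => k := by
    intro k
    have h3 := I7c_IMc D k fun _ => 1
    rw [h1, mul_one] at h3
    simpa only [mul_one] using h3
  unfold Dat.X2
  refine (h2 (c * c)).trans (I7c_IMmono D fun x => ?_)
  refine (h2 (c * c)).trans (I7c_IMmono D fun y => ?_)
  rw [I7c_st2one]
  exact mul_le_mul' (h₁ x y) (h₂ x y)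

private theorem I7c_iK {S S' : Set P} (h : S ⊆ S') (q : P) : iK S q ≤ iK S' q :=
  Set.indicator_le_indicator_of_subset h (fun _ => zero_le) q

private theorem I7c_eg (D : Dat P H) (G : PG P) {S S' K K' : Set P} {R R' : ℕ} (n : ℕ)
    (hS : S * G.D1 ^ R ⊆ S' * G.D1 ^ R') (hK : K ⊆ K') (g : P × H) :
    D.eg G S K R n g ≤ D.eg G S' K' R' n g := by
  unfold Dat.eg Dat.ed Dat.tk
  refine mul_le_mul' ?_ le_rfl
  unfold kk
  refine lintegral_mono fun q => mul_le_mul' (I7c_iK hS q) (I7c_iK ?_ _)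
  intro z hz
  exact hK hz

/-- The independent pairs dominate the iterated mean. -/
private theorem I7c_F7c (D : Dat P H) (G : PG P) (U : Set P) (d : P) (b n m : ℕ)
    (φ : D.Γ → P → ℝ) (c : ℝ≥0∞)
    (h : ∀ t : ℝ, c * ab t ≤ D.X2 (D.ch G U (n + b)) (D.bk G U d m) fun x u v =>
      ab (t - pv G φ x u v)) :
    c * F7 D G U d b n m φ ≤ F7c D G U d b n m φ := by
  unfold F7 Dat.PX F7c
  refine (I7c_X2c D _ _ c _).trans ?_
  unfold Dat.X2
  refine I7c_IMmono D fun x => I7c_IMmono D fun y => ?_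
  have h1 : D.st2 (D.ch G U (n + b)) (D.bk G U d m) x y
      (fun u v => c * ab (ph G φ (u * v⁻¹) (x.1 * 1))) ≤
      D.st2 (D.ch G U (n + b)) (D.bk G U d m) x y fun u v =>
        D.IM fun x' => D.IM fun y' => D.st2 (D.ch G U (n + b)) (D.bk G U d m) x' y' fun u' v' =>
          ab (pv G φ x u v - pv G φ x' u' v') := by
    refine I7c_st2mono D (fun _ => le_rfl) (fun _ => le_rfl) x y fun u v => ?_
    rw [mul_one]
    exact h (pv G φ x u v)
  refine h1.trans ?_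
  refine (I7c_st2IM D _ _ x y _).trans (I7c_IMmono D fun x' => ?_)
  exact I7c_st2IM D _ _ x y _

private theorem I7c_F7cmono (D : Dat P H) (G : PG P) {U U' : Set P} (hU : U ⊆ U') (d : P)
    (b n m : ℕ) (φ : D.Γ → P → ℝ) : F7c D G U d b n m φ ≤ F7c D G U' d b n m φ := by
  have huw : G.uw U ⊆ G.uw U' := Set.mul_subset_mul_right hU
  have h1 : ∀ k g, D.ch G U k g ≤ D.ch G U' k g := fun k g =>
    I7c_eg D G k (Set.mul_subset_mul_right hU) huw g
  have h2 : ∀ g, D.bk G U d m g ≤ D.bk G U' d m g := fun g =>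
    I7c_eg D G m (Set.mul_subset_mul_right (Set.mul_subset_mul_right huw)) hU g
  unfold F7c
  refine I7c_IMmono D fun x => I7c_IMmono D fun y => I7c_IMmono D fun x' =>
    I7c_IMmono D fun y' => ?_
  exact I7c_st2mono D (h1 _) h2 x y fun u v => I7c_st2mono D (h1 _) h2 x' y' fun _ _ => le_rfl

end I7cAux

section I7c

variable (P H : Type) [Group P] [Group H] [TopologicalSpace P] [TopologicalSpace H]
  [IsTopologicalGroup P] [IsTopologicalGroup H] [LocallyCompactSpace P] [LocallyCompactSpace H]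
  [T2Space P] [T2Space H] [SecondCountableTopology P] [SecondCountableTopology H]
  [MeasurableSpace P] [MeasurableSpace H] [BorelSpace P] [BorelSpace H]

private theorem I7c_nbhd (G : PG P) (hG : G.Ok) (U : Set P) (hU : U ∈ 𝓝 (1 : P)) :
    ∃ V ∈ 𝓝 (1 : P), IsCompact V ∧ V ⊆ U ∧ ∀ u ∈ V, ∀ v ∈ G.uw V, G.Pos u v := by
  have hc : Continuous fun q : P × P => (q.1, q.2 * G.w) := by fun_prop
  have ho := hG.Po.preimage hc
  have h1 : ((1 : P), (1 : P)) ∈ (fun q : P × P => (q.1, q.2 * G.w)) ⁻¹'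
      {q : P × P | G.Pos q.1 q.2} := by
    show G.Pos 1 (1 * G.w)
    rw [one_mul]
    exact hG.P1
  obtain ⟨V₁, hV₁, V₂, hV₂, hVV⟩ := mem_nhds_prod_iff.1 (ho.mem_nhds h1)
  obtain ⟨V, hV, hVs, hVc⟩ := local_compact_nhds
    (Filter.inter_mem hU (Filter.inter_mem hV₁ hV₂))
  refine ⟨V, hV, hVc, fun v hv => (hVs hv).1, ?_⟩
  intro u hu v hv
  obtain ⟨v', hv', w', hw', rfl⟩ := Set.mem_mul.1 hv
  rw [Set.mem_singleton_iff.1 hw']
  exact hVV (Set.mk_mem_prod (hVs hu).2.1 (hVs hv').2.2)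

theorem tI7c : S_F7cc P H → S_mn P H → S_lod P H → S_BAL P H → S_Fin P H → S_egm P H →
    S_ton P H → S_MQ P H → S_ec P → S_I7c P H := by
  intro hF7 hmn hlod hBAL hFin hegm _hton _hMQ _hec D G hFc NK hNK hEq
  obtain ⟨L, c₀, hL, hR⟩ := hF7 D G hFc
  refine ⟨L, c₀, hL, fun R => ?_⟩
  obtain ⟨U₁, hU₁, hU₁c, b₀, hb⟩ := hR R
  obtain ⟨C, T, hC, hT⟩ := hb b₀ le_rfl
  obtain ⟨U, hU, hUc, hUU, hPos⟩ := I7c_nbhd P G hFc.gok U₁ hU₁
  have hPos' : ∀ v ∈ G.uw U, ∀ u ∈ U, G.Pos v u := fun v hv u hu =>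
    (hFc.gok.Ps u v).1 (hPos u hu v hv)
  have huwc : IsCompact (G.uw U) := hUc.mul isCompact_singleton
  obtain ⟨c, C', T₁, hc, hC', hlo⟩ := hlod D G hFc U hU hUc R
  obtain ⟨T₂, hT₂⟩ := hFin D hFc.ok G hFc.gok hFc.gf NK hNK hEq U (G.uw U) (G.uw U) U hUc huwc
    huwc hUc hPos hPos' (2 * R)
  obtain ⟨hem, hephm, -, -⟩ := hegm D G hFc.ok hFc.gok
  have hc0 : 0 < min c 1 := lt_min hc one_pos
  have hc1 : min c 1 ≠ ∞ := ne_top_of_le_ne_top ENNReal.one_ne_top (min_le_right _ _)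
  have hcc0 : min c 1 * min c 1 ≠ 0 := mul_ne_zero hc0.ne' hc0.ne'
  have hcc1 : min c 1 * min c 1 ≠ ∞ := ENNReal.mul_ne_top hc1 hc1
  refine ⟨U, hU, hUc, (min c 1 * min c 1)⁻¹ * C, T + T₁ + T₂ + b₀,
    ENNReal.mul_ne_top (ENNReal.inv_ne_top.2 hcc0) hC, ?_⟩
  intro r hr d hd n' m hn' hm hnm1 hnm2 φ hφ
  obtain ⟨n, rfl⟩ : ∃ n, n' = n + b₀ := ⟨n' - b₀, by omega⟩
  have hok : okS T r n m := ⟨by omega, by omega, by omega, by omega⟩
  have hmain := hT r (by omega) d hd n m hok φ hφ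
  have hK₁ : Measurable (D.ch G U (n + b₀)) := hem U (G.uw U) hUc huwc 0 (n + b₀)
  have hdc : IsCompact (G.uw U * ({d} : Set P)) := huwc.mul isCompact_singleton
  have hK₂ : Measurable (D.bk G U d m) :=
    hem (G.uw U * ({d} : Set P)) U hdc hUc 0 m
  have hfm : ∀ u v : D.Γ, Measurable fun x : P × H => pv G φ x u v := by
    intro u v
    have h1 := hephm φ hφ 1 (u * v⁻¹)
    simp only [mul_one] at h1
    exact h1
  have h1U : (1 : P) ∈ U := mem_of_mem_nhds hU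
  have hfin : D.X2 (D.ch G U (n + b₀)) (D.bk G U d m)
      (fun x u v => ENNReal.ofReal (pv G φ x u v)) ≠ ∞ := by
    refine ne_top_of_le_ne_top (hT₂ (n + b₀) m (by omega) (by omega) φ hφ 1 h1U) ?_
    unfold Dat.PX
    refine I7c_X2mono D (fun g => ?_) (fun g => (hlo d hd 1 1).2.2.2.2 m g) fun x u v => ?_
    · refine I7c_eg D G (n + b₀) ?_ subset_rfl g
      refine Set.mul_subset_mul_left ?_
      rw [pow_zero]
      intro z hz
      rw [Set.mem_one.1 hz]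
      exact Set.one_mem_pow hFc.gok.D11
    · rw [mul_one]
      exact ENNReal.ofReal_le_ofReal (le_abs_self _)
  have hbal : D.X2 (D.ch G U (n + b₀)) (D.bk G U d m)
      (fun x u v => ENNReal.ofReal (pv G φ x u v)) =
      D.X2 (D.ch G U (n + b₀)) (D.bk G U d m)
      (fun x u v => ENNReal.ofReal (- pv G φ x u v)) := by
    have h1 := hBAL D hFc.ok G hFc.gok φ hφ (D.ch G U (n + b₀)) (D.bk G U d m) hK₁ hK₂ 1
    simp only [mul_one] at h1
    exact h1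
  have hmean := hmn D hFc.ok (D.ch G U (n + b₀)) (D.bk G U d m) hK₁ hK₂ (pv G φ) hfm hfin hbal
  have hone : min c 1 * min c 1 ≤ D.X2 (D.ch G U (n + b₀)) (D.bk G U d m) fun _ _ _ => 1 := by
    refine I7c_X2one D hFc.ok _ _ _ (fun x y => ?_) fun x y => ?_
    · exact (min_le_left _ _).trans ((hlo d hd x y).2.2.1 _ (by omega))
    · exact (min_le_left _ _).trans ((hlo d hd x y).1 _ (by omega))
  have h1 : min c 1 * min c 1 * F7 D G U d b₀ n m φ ≤ C * (r : ℝ≥0∞) ^ 1 * D.EL G L (R + c₀) r φ :=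
    ((I7c_F7c D G U d b₀ n m φ _ fun t =>
      (mul_le_mul' hone le_rfl).trans (hmean t)).trans
        (I7c_F7cmono D G hUU d b₀ n m φ)).trans hmain
  rw [pow_one] at h1
  show F7 D G U d b₀ n m φ ≤ _
  calc F7 D G U d b₀ n m φ
      = (min c 1 * min c 1)⁻¹ * (min c 1 * min c 1 * F7 D G U d b₀ n m φ) := by
        rw [← mul_assoc, ENNReal.inv_mul_cancel hcc0 hcc1, one_mul]
    _ ≤ (min c 1 * min c 1)⁻¹ * (C * (r : ℝ≥0∞) * D.EL G L (R + c₀) r φ) :=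
        mul_le_mul' le_rfl h1
    _ = (min c 1 * min c 1)⁻¹ * C * (r : ℝ≥0∞) * D.EL G L (R + c₀) r φ := by ring

end I7c

end Pool.Agent.MPEF.U
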