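import Pool.Agent.Lib.MP_ef3f0f_gt.U.E.SpecA

set_option autoImplicit false
set_option linter.unusedSectionVars false

/-!
# MP_ef3f0f_gt, Theorem U, Part E: INS (insertion bound, finite cover)
-/

namespace Pool.Agent.MPEF.U

open MeasureTheory Topology
open scoped ENNReal Pointwise

section Cover

variable {P : Type} [Group P] [TopologicalSpace P] [IsTopologicalGroup P] [LocallyCompactSpace P]
  [T2Space P] [SecondCountableTopology P] [MeasurableSpace P] [BorelSpace P]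

private theorem INS_iK1 {S : Set P} {g : P} (h : g ∈ S) : iK S g = 1 := by
  simp [iK, h]

private theorem INS_iKle (S : Set P) (g : P) : iK S g ≤ 1 := by
  unfold iK
  by_cases h : g ∈ S <;> simp [h]

private theorem INS_iKne {S : Set P} {g : P} (h : iK S g ≠ 0) : g ∈ S := by
  by_contra hg
  exact h (by simp [iK, hg])

private theorem INS_iKm {S : Set P} (h : IsCompact S) : Measurable (iK S) :=
  measurable_const.indicator h.measurableSet

private theorem INS_ewc (G : PG P) {K : Set P} (hK : IsCompact K) : IsCompact (G.ew K) := by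
  have : G.ew K = (fun κ : P => G.w * κ⁻¹) '' K := by
    ext q
    constructor
    · intro hq
      refine ⟨q⁻¹ * G.w, hq, ?_⟩
      simp
    · rintro ⟨κ, hκ, rfl⟩
      show (G.w * κ⁻¹)⁻¹ * G.w ∈ K
      simpa using hκ
  rw [this]
  exact hK.image (by fun_prop)

private theorem INS_tsF {ι κ : Type*} [Fintype ι] (f : ι → κ → ℝ≥0∞) :
    ∑ j, ∑' u, f j u = ∑' u, ∑ j, f j u :=
  (Summable.tsum_finsetSum fun _ _ => ENNReal.summable).symm

/-- A cover of the product of the four windows. -/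
private theorem INS_cov (G : PG P) (μ : Measure P) (hD1 : ∀ R, IsCompact (G.D1 ^ R))
    {ι : Type} [Fintype ι] (A B C E : ι → Set P) (ε : ι → ℝ≥0∞) (S₁ K₁ S₂ K₂ : Set P) (R n m : ℕ)
    (cA : ∀ j, IsCompact (A j)) (cB : ∀ j, IsCompact (B j)) (cC : ∀ j, IsCompact (C j))
    (cE : ∀ j, IsCompact (E j))
    (h : ∀ s ∈ S₁, ∀ k ∈ K₁, ∀ t ∈ S₂, ∀ l ∈ K₂, ∃ j, 1 ≤ ε j ∧ s ∈ A j ∧ k ∈ B j ∧ t ∈ C j ∧
      l ∈ E j) (g₁ g₂ : P) :
    eP μ G S₁ K₁ R n g₁ * eP μ G S₂ K₂ R m g₂ ≤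
      ∑ j, ε j * (eP μ G (A j) (B j) R n g₁ * eP μ G (C j) (E j) R m g₂) := by
  set f : P → ℝ≥0∞ := fun q => iK (S₁ * G.D1 ^ R) q * iK (G.ew K₁) ((G.a ^ n)⁻¹ * q⁻¹ * g₁) with hf
  set f' : P → ℝ≥0∞ := fun q => iK (S₂ * G.D1 ^ R) q * iK (G.ew K₂) ((G.a ^ m)⁻¹ * q⁻¹ * g₂)
    with hf'
  set F : ι → P → ℝ≥0∞ := fun j q =>
    iK (A j * G.D1 ^ R) q * iK (G.ew (B j)) ((G.a ^ n)⁻¹ * q⁻¹ * g₁) with hF
  set F' : ι → P → ℝ≥0∞ := fun j q =>
    iK (C j * G.D1 ^ R) q * iK (G.ew (E j)) ((G.a ^ m)⁻¹ * q⁻¹ * g₂) with hF'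
  have mk : ∀ (n : ℕ) (g : P), Measurable fun q : P => (G.a ^ n)⁻¹ * q⁻¹ * g := by
    intro n g
    have : Continuous fun q : P => (G.a ^ n)⁻¹ * q⁻¹ * g := by fun_prop
    exact this.measurable
  have mF : ∀ j, Measurable (F j) := fun j =>
    (INS_iKm ((cA j).mul (hD1 R))).mul ((INS_iKm (INS_ewc G (cB j))).comp (mk n g₁))
  have mF' : ∀ j, Measurable (F' j) := fun j =>
    (INS_iKm ((cC j).mul (hD1 R))).mul ((INS_iKm (INS_ewc G (cE j))).comp (mk m g₂))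
  have hpt : ∀ q q', f q * f' q' ≤ ∑ j, ε j * (F j q * F' j q') := by
    intro q q'
    by_cases h0 : f q * f' q' = 0
    · rw [h0]; exact zero_le
    have a1 := left_ne_zero_of_mul h0
    have a2 := right_ne_zero_of_mul h0
    obtain ⟨s, hs, d, hd, rfl⟩ := INS_iKne (left_ne_zero_of_mul a1)
    have hk := INS_iKne (right_ne_zero_of_mul a1)
    obtain ⟨t, ht, d', hd', rfl⟩ := INS_iKne (left_ne_zero_of_mul a2)
    have hl := INS_iKne (right_ne_zero_of_mul a2)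
    obtain ⟨j, j0, j1, j2, j3, j4⟩ := h s hs _ hk t ht _ hl
    have e1 : F j (s * d) = 1 := by
      rw [hF]
      simp only
      rw [INS_iK1 (Set.mul_mem_mul j1 hd), one_mul]
      exact INS_iK1 j2
    have e2 : F' j (t * d') = 1 := by
      rw [hF']
      simp only
      rw [INS_iK1 (Set.mul_mem_mul j3 hd'), one_mul]
      exact INS_iK1 j4
    calc f (s * d) * f' (t * d') ≤ 1 := by
          calc f (s * d) * f' (t * d') ≤ (1 * 1) * (1 * 1) :=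
                mul_le_mul' (mul_le_mul' (INS_iKle _ _) (INS_iKle _ _))
                  (mul_le_mul' (INS_iKle _ _) (INS_iKle _ _))
            _ = 1 := by simp
      _ ≤ ε j * (F j (s * d) * F' j (t * d')) := by rw [e1, e2, mul_one, mul_one]; exact j0
      _ ≤ _ := Finset.single_le_sum (f := fun j => ε j * (F j (s * d) * F' j (t * d')))
          (fun _ _ => zero_le) (Finset.mem_univ j)
  calc eP μ G S₁ K₁ R n g₁ * eP μ G S₂ K₂ R m g₂ = (∫⁻ q, f q ∂μ) * ∫⁻ q', f' q' ∂μ := rfl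
    _ ≤ ∫⁻ q, f q * (∫⁻ q', f' q' ∂μ) ∂μ := lintegral_mul_const_le _ _
    _ ≤ ∫⁻ q, ∫⁻ q', f q * f' q' ∂μ ∂μ := lintegral_mono fun q => lintegral_const_mul_le _ _
    _ ≤ ∫⁻ q, ∫⁻ q', ∑ j, ε j * (F j q * F' j q') ∂μ ∂μ :=
        lintegral_mono fun q => lintegral_mono fun q' => hpt q q'
    _ = ∑ j, ε j * ((∫⁻ q, F j q ∂μ) * ∫⁻ q', F' j q' ∂μ) := by
        have e3 : ∀ q, ∫⁻ q', ∑ j, ε j * (F j q * F' j q') ∂μ =
            ∑ j, ε j * (F j q * ∫⁻ q', F' j q' ∂μ) := by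
          intro q
          rw [lintegral_finsetSum _ fun j _ => ((mF' j).const_mul _).const_mul _]
          refine Finset.sum_congr rfl fun j _ => ?_
          rw [lintegral_const_mul _ ((mF' j).const_mul _), lintegral_const_mul _ (mF' j)]
        simp only [e3]
        rw [lintegral_finsetSum _ fun j _ => ((mF j).mul_const _).const_mul _]
        refine Finset.sum_congr rfl fun j _ => ?_
        rw [lintegral_const_mul _ ((mF j).mul_const _), lintegral_mul_const _ (mF j)]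
    _ = _ := rfl

end Cover

section Int

variable {P H : Type} [Group P] [Group H] [TopologicalSpace P] [TopologicalSpace H]
  [IsTopologicalGroup P] [IsTopologicalGroup H] [LocallyCompactSpace P] [LocallyCompactSpace H]
  [T2Space P] [T2Space H] [SecondCountableTopology P] [SecondCountableTopology H]
  [MeasurableSpace P] [MeasurableSpace H] [BorelSpace P] [BorelSpace H]

private theorem INS_IM (D : Dat P H) (hD : D.Ok) (f : P × H → ℝ≥0∞) :
    D.IM f = ∫⁻ x, f x ∂(D.μ.withDensity D.χ) := by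
  unfold Dat.IM
  rw [lintegral_withDensity_eq_lintegral_mul_non_measurable _ hD.χm]
  · rfl
  · exact ae_of_all _ fun x => (hD.χ1 x).trans_lt ENNReal.one_lt_top

private theorem INS_ker {α : Type*} [MeasurableSpace α] {K : P × H → ℝ≥0∞} (hK : Measurable K)
    {f g : α → P × H} (hf : Measurable f) (hg : Measurable g) (u : P × H) :
    Measurable fun q => K ((f q)⁻¹ * u * g q) := by
  have h : Continuous fun q : (P × H) × (P × H) => q.1⁻¹ * u * q.2 := by fun_prop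
  exact hK.comp (h.measurable.comp (hf.prodMk hg))

private theorem INS_mst {α : Type*} [MeasurableSpace α] (D : Dat P H) [Countable D.Γ]
    {K₁ K₂ : P × H → ℝ≥0∞} (h₁ : Measurable K₁) (h₂ : Measurable K₂) {x y : α → P × H}
    (hx : Measurable x) (hy : Measurable y) {f : α → D.Γ → D.Γ → ℝ≥0∞}
    (hf : ∀ u v, Measurable fun a => f a u v) :
    Measurable fun a => D.st2 K₁ K₂ (x a) (y a) (f a) :=
  Measurable.tsum fun u => Measurable.tsum fun v =>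
    ((INS_ker h₁ hx hy u).mul (INS_ker h₂ hx hy v)).mul (hf u v)

private theorem INS_mab {α : Type*} [MeasurableSpace α] {f : α → ℝ} (hf : Measurable f) :
    Measurable fun x => ab (f x) := by
  unfold ab
  exact ENNReal.measurable_ofReal.comp (continuous_abs.measurable.comp hf)

/-- The finite cover for the functional `FE`. -/
private theorem INS_main (D : Dat P H) (G : PG P) (hD : D.Ok) [SigmaFinite D.μ] [Countable D.Γ]
    (hOm : ∀ c, MeasurableSet (D.O ^ c)) (φ : D.Γ → P → ℝ)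
    (hφm : ∀ (c : P) (g u v : D.Γ), Measurable fun x : P × H => Dg G φ c x g u v)
    {ι : Type} [Fintype ι] (Q : Set P) (Qj : ι → Set P) (cQj : ∀ j, IsCompact (Qj j)) (c : ℕ)
    (Ku Kv : P × H → ℝ≥0∞) (Kuj Kvj : ι → P × H → ℝ≥0∞)
    (mKu : ∀ j, Measurable (Kuj j)) (mKv : ∀ j, Measurable (Kvj j)) (c₁ : P) (cj : ι → P)
    (hker : ∀ γ ∈ Q, ∀ g₁ g₂ : P × H, Ku g₁ * Kv g₂ ≤
      ∑ j, iK (Qj j) γ * (Kuj j g₁ * Kvj j g₂))
    (hDg : ∀ (x z : P × H) (g u v : D.Γ), (z⁻¹ * (g : P × H) * z).1 ∈ Q →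
      Ku (x⁻¹ * (u : P × H) * z) ≠ 0 → Kv (x⁻¹ * (v : P × H) * z) ≠ 0 → ∀ j,
      Dg G φ c₁ x g u v = Dg G φ (cj j) x g u v) :
    (D.IM fun z => D.lp (Q ×ˢ (D.O ^ c)) z fun g => D.IM fun x => D.st2 Ku Kv x z fun u v =>
      ab (Dg G φ c₁ x g u v)) ≤
    ∑ j, D.IM fun z => D.lp (Qj j ×ˢ (D.O ^ c)) z fun g => D.IM fun x =>
      D.st2 (Kuj j) (Kvj j) x z fun u v => ab (Dg G φ (cj j) x g u v) := by
  set ν := D.μ.withDensity D.χ with hν
  have hIM : ∀ f : P × H → ℝ≥0∞, D.IM f = ∫⁻ x, f x ∂ν := fun f => INS_IM D hD f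
  simp only [hIM]
  -- measurability
  have mj : ∀ (j : ι) (g : D.Γ), Measurable fun q : (P × H) × (P × H) =>
      D.st2 (Kuj j) (Kvj j) q.2 q.1 fun u v => ab (Dg G φ (cj j) q.2 g u v) := by
    intro j g
    exact INS_mst D (mKu j) (mKv j) measurable_snd measurable_fst
      (f := fun (q : (P × H) × (P × H)) u v => ab (Dg G φ (cj j) q.2 g u v))
      fun u v => (INS_mab (hφm (cj j) g u v)).comp measurable_snd
  have mj1 : ∀ (j : ι) (g : D.Γ) (z : P × H), Measurable fun x : P × H =>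
      D.st2 (Kuj j) (Kvj j) x z fun u v => ab (Dg G φ (cj j) x g u v) := fun j g z =>
    (mj j g).comp (measurable_const.prodMk measurable_id)
  have mj2 : ∀ (j : ι) (g : D.Γ), Measurable fun z : P × H => ∫⁻ x,
      D.st2 (Kuj j) (Kvj j) x z (fun u v => ab (Dg G φ (cj j) x g u v)) ∂ν := fun j g =>
    (mj j g).lintegral_prod_right'
  have mj3 : ∀ (j : ι), Measurable fun z : P × H => D.lp (Qj j ×ˢ (D.O ^ c)) z fun g =>
      ∫⁻ x, D.st2 (Kuj j) (Kvj j) x z (fun u v => ab (Dg G φ (cj j) x g u v)) ∂ν := by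
    intro j
    unfold Dat.lp
    refine Measurable.tsum fun g => Measurable.mul ?_ (mj2 j g)
    exact INS_ker (K := (Qj j ×ˢ (D.O ^ c)).indicator fun _ => (1 : ℝ≥0∞))
      (measurable_const.indicator ((cQj j).measurableSet.prod (hOm c))) measurable_id
      measurable_id g
  rw [← lintegral_finsetSum _ fun j _ => mj3 j]
  refine lintegral_mono fun z => ?_
  have hz : ∀ g : D.Γ, (Q ×ˢ (D.O ^ c)).indicator (fun _ => (1 : ℝ≥0∞)) (z⁻¹ * (g : P × H) * z) *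
      ∫⁻ x, D.st2 Ku Kv x z (fun u v => ab (Dg G φ c₁ x g u v)) ∂ν ≤
      ∑ j, (Qj j ×ˢ (D.O ^ c)).indicator (fun _ => (1 : ℝ≥0∞)) (z⁻¹ * (g : P × H) * z) *
        ∫⁻ x, D.st2 (Kuj j) (Kvj j) x z (fun u v => ab (Dg G φ (cj j) x g u v)) ∂ν := by
    intro g
    by_cases hg : z⁻¹ * (g : P × H) * z ∈ Q ×ˢ (D.O ^ c)
    · rw [Set.indicator_of_mem hg, one_mul]
      have hγ : (z⁻¹ * (g : P × H) * z).1 ∈ Q := hg.1
      have e1 : ∀ j, (Qj j ×ˢ (D.O ^ c)).indicator (fun _ => (1 : ℝ≥0∞)) (z⁻¹ * (g : P × H) * z) =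
          iK (Qj j) (z⁻¹ * (g : P × H) * z).1 := by
        intro j
        unfold iK
        by_cases hj : (z⁻¹ * (g : P × H) * z).1 ∈ Qj j
        · rw [Set.indicator_of_mem hj, Set.indicator_of_mem (Set.mk_mem_prod hj hg.2)]
        · rw [Set.indicator_of_notMem hj, Set.indicator_of_notMem fun h => hj h.1]
      simp only [e1]
      calc ∫⁻ x, D.st2 Ku Kv x z (fun u v => ab (Dg G φ c₁ x g u v)) ∂ν
          ≤ ∫⁻ x, ∑ j, iK (Qj j) (z⁻¹ * (g : P × H) * z).1 *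
            D.st2 (Kuj j) (Kvj j) x z (fun u v => ab (Dg G φ (cj j) x g u v)) ∂ν := by
            refine lintegral_mono fun x => ?_
            show D.st2 Ku Kv x z (fun u v => ab (Dg G φ c₁ x g u v)) ≤
              ∑ j, iK (Qj j) (z⁻¹ * (g : P × H) * z).1 *
                D.st2 (Kuj j) (Kvj j) x z (fun u v => ab (Dg G φ (cj j) x g u v))
            unfold Dat.st2
            simp only [← ENNReal.tsum_mul_left]
            rw [INS_tsF]
            refine ENNReal.tsum_le_tsum fun u => ?_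
            rw [INS_tsF]
            refine ENNReal.tsum_le_tsum fun v => ?_
            by_cases h0 : Ku (x⁻¹ * (u : P × H) * z) * Kv (x⁻¹ * (v : P × H) * z) = 0
            · rw [h0, zero_mul]; exact zero_le
            have hd := hDg x z g u v hγ (left_ne_zero_of_mul h0) (right_ne_zero_of_mul h0)
            calc Ku (x⁻¹ * (u : P × H) * z) * Kv (x⁻¹ * (v : P × H) * z) *
                ab (Dg G φ c₁ x g u v) ≤
                (∑ j, iK (Qj j) (z⁻¹ * (g : P × H) * z).1 * (Kuj j (x⁻¹ * (u : P × H) * z) *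
                  Kvj j (x⁻¹ * (v : P × H) * z))) * ab (Dg G φ c₁ x g u v) :=
                  mul_le_mul' (hker _ hγ _ _) le_rfl
              _ = _ := by
                  rw [Finset.sum_mul]
                  refine Finset.sum_congr rfl fun j _ => ?_
                  rw [hd j, mul_assoc]
        _ = _ := by
            rw [lintegral_finsetSum _ fun j _ => (mj1 j g z).const_mul _]
            exact Finset.sum_congr rfl fun j _ => lintegral_const_mul _ (mj1 j g z)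
    · rw [Set.indicator_of_notMem hg, zero_mul]
      exact zero_le
  show D.lp (Q ×ˢ (D.O ^ c)) z (fun g => ∫⁻ x, D.st2 Ku Kv x z
      (fun u v => ab (Dg G φ c₁ x g u v)) ∂ν) ≤ ∑ j, D.lp (Qj j ×ˢ (D.O ^ c)) z fun g =>
      ∫⁻ x, D.st2 (Kuj j) (Kvj j) x z (fun u v => ab (Dg G φ (cj j) x g u v)) ∂ν
  unfold Dat.lp
  rw [INS_tsF]
  exact ENNReal.tsum_le_tsum fun g => hz g

private theorem INS_O (D : Dat P H) (hD : D.Ok) (c : ℕ) : MeasurableSet (D.O ^ c) := by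
  have hO : IsOpen D.O := isOpen_lt continuous_const hD.νc
  cases c with
  | zero =>
    rw [pow_zero]
    exact (isClosed_singleton (x := (1 : H))).measurableSet
  | succ n =>
    rw [pow_succ]
    exact (hO.mul_left (s := D.O ^ n)).measurableSet

private theorem INS_tkne (D : Dat P H) {k : P → ℝ≥0∞} {n : ℕ} {g : P × H}
    (h : D.tk k n g ≠ 0) : k g.1 ≠ 0 := fun h0 => h (by simp [Dat.tk, h0])

private theorem INS_okm {T T' r : ℕ} {i : Fin 2 → ℕ} (h : T ≤ T') (hi : okL 2 T' r i) :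
    okL 2 T r i := fun j => ⟨(hi j).1, by have := (hi j).2; omega⟩

private theorem INS_gen (hCTs : S_CTs P H) (hphP : S_phP P H) (hAD : S_AD P) (hWr : S_Wr P)
    (hegm : S_egm P H) (hinst : S_inst P H) (D : Dat P H) (G : PG P) (hF : Fc D G)
    {Q S₁ K₁ S₂ K₂ : Set P} (cQ : IsCompact Q) (cS₁ : IsCompact S₁) (cK₁ : IsCompact K₁)
    (cS₂ : IsCompact S₂) (cK₂ : IsCompact K₂) (c : ℕ) {c₁ c₂ : P} (hc₁ : c₁ ∈ S₁)
    (hZ : ∀ g ∈ Q, ∀ k ∈ K₁, ∀ l ∈ K₂, Zer D G g c k l)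
    (hP : ∀ s ∈ S₁, ∀ t ∈ S₂, G.Pos s t) (hK : ∀ k ∈ K₁, ∀ l ∈ K₂, G.Pos k l)
    (hQK : ∀ k ∈ Q⁻¹ * K₁, ∀ l ∈ K₂, G.Pos k l) (hD1 : ∀ R, IsCompact (G.D1 ^ R)) :
    CT D G 0 (okL 2) (FE D G Q c ⟨c₁, S₁, K₁⟩ ⟨c₂, S₂, K₂⟩) := by
  classical
  have hok := hF.ok
  have gok := hF.gok
  have := hok.haar₁
  have := hok.right₁
  have := hok.inv₁
  obtain ⟨-, -, hσ, hcΓ, -⟩ := hinst D hok
  have := hσ
  have := hcΓ
  obtain ⟨-, -, -, hAD4, -, -⟩ := hAD G D.μ₁ gok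
  obtain ⟨egm1, -, egm3, -⟩ := hegm D G hok gok
  have hx : ∀ x : P × P × P × P × P, x ∈ Q ×ˢ S₁ ×ˢ K₁ ×ˢ S₂ ×ˢ K₂ →
      ∃ U ∈ 𝓝 (1 : P), IsCompact U ∧ CT D G 0 (okL 2)
        (FE D G (U * {x.1}) c (wn U x.2.1 x.2.2.1) (wn U x.2.2.2.1 x.2.2.2.2)) :=
    fun x hx => hZ x.1 hx.1 x.2.2.1 hx.2.2.1 x.2.2.2.2 hx.2.2.2.2 x.2.1 x.2.2.2.1
      (hP _ hx.2.1 _ hx.2.2.2.1)
  choose! V hV cV hCT using hx
  have cK : IsCompact (Q ×ˢ S₁ ×ˢ K₁ ×ˢ S₂ ×ˢ K₂) := cQ.prod (cS₁.prod (cK₁.prod (cS₂.prod cK₂)))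
  obtain ⟨t, ht, htc⟩ := cK.elim_nhds_subcover
    (fun x => (V x * {x.1}) ×ˢ (V x * {x.2.1}) ×ˢ (V x * {x.2.2.1}) ×ˢ (V x * {x.2.2.2.1}) ×ˢ
      (V x * {x.2.2.2.2})) (fun x hx => by
      have h1 := hV x hx
      exact prod_mem_nhds (mul_singleton_mem_nhds_of_nhds_one _ h1)
        (prod_mem_nhds (mul_singleton_mem_nhds_of_nhds_one _ h1)
          (prod_mem_nhds (mul_singleton_mem_nhds_of_nhds_one _ h1)
            (prod_mem_nhds (mul_singleton_mem_nhds_of_nhds_one _ h1)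
              (mul_singleton_mem_nhds_of_nhds_one _ h1)))))
  obtain ⟨k₁, hk₁⟩ := hphP D G gok hF.gf S₁ K₁ S₂ K₂ cS₁ cK₁ cS₂ cK₂ hP hK
  obtain ⟨k₂, hk₂⟩ := hphP D G gok hF.gf S₁ (Q⁻¹ * K₁) S₂ K₂ cS₁ (cQ.inv.mul cK₁) cS₂ cK₂ hP hQK
  have cW : ∀ (j : t) (x : P), IsCompact (V j.1 * {x}) := fun j x =>
    (cV j.1 (ht j.1 j.2)).mul isCompact_singleton
  refine hCTs D G hok gok 0 t (fun _ => Fin 2 → ℕ) (fun _ => okL 2)
    (fun j => FE D G (V j.1 * {j.1.1}) c (wn (V j.1) j.1.2.1 j.1.2.2.1)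
      (wn (V j.1) j.1.2.2.2.1 j.1.2.2.2.2)) (Fin 2 → ℕ) (okL 2) _ 0
    (fun _ T T' r i h hi => INS_okm h hi) (fun j => hCT j.1 (ht j.1 j.2))
    (fun T T' r i h hi => INS_okm h hi) ?_
  intro R T
  obtain ⟨T₁, hT₁⟩ := hAD4 R k₁
  obtain ⟨T₂, hT₂⟩ := hAD4 R k₂
  refine ⟨1, max T (max T₁ T₂), ENNReal.one_ne_top, fun r hr i hi => ⟨fun _ => i,
    fun j => INS_okm (le_max_left _ _) hi, fun φ hφ => ?_⟩⟩
  rw [one_mul, add_zero]
  have hT1 : ∀ j, T₁ ≤ i j := fun j =>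
    ((le_max_left T₁ T₂).trans (le_max_right _ _)).trans (hr.trans (hi j).1)
  have hT2 : ∀ j, T₂ ≤ i j := fun j =>
    ((le_max_right T₁ T₂).trans (le_max_right _ _)).trans (hr.trans (hi j).1)
  unfold FE
  refine INS_main D G hok (INS_O D hok) φ (egm3 φ hφ) Q (fun j : t => V j.1 * {j.1.1})
    (fun j => cW j _) c _ _
    (fun j : t => D.ke G (wn (V j.1) j.1.2.1 j.1.2.2.1) R (i 0))
    (fun j : t => D.ke G (wn (V j.1) j.1.2.2.2.1 j.1.2.2.2.2) R (i 1))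
    (fun j => egm1 _ _ (cW j _) (cW j _) _ _) (fun j => egm1 _ _ (cW j _) (cW j _) _ _) c₁
    (fun j : t => j.1.2.1) ?_ ?_
  · intro γ hγ g₁ g₂
    have h := INS_cov G D.μ₁ hD1 (ι := t) (fun j => V j.1 * {j.1.2.1})
      (fun j => V j.1 * {j.1.2.2.1}) (fun j => V j.1 * {j.1.2.2.2.1})
      (fun j => V j.1 * {j.1.2.2.2.2}) (fun j => iK (V j.1 * {j.1.1}) γ) S₁ K₁ S₂ K₂ R (i 0) (i 1)
      (fun j => cW j _) (fun j => cW j _) (fun j => cW j _) (fun j => cW j _)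
      (fun s hs k hk t' ht' l hl => by
        have hm : ((γ, s, k, t', l) : P × P × P × P × P) ∈ Q ×ˢ S₁ ×ˢ K₁ ×ˢ S₂ ×ˢ K₂ :=
          ⟨hγ, hs, hk, ht', hl⟩
        obtain ⟨x, hx, hxm⟩ := Set.mem_iUnion₂.1 (htc hm)
        exact ⟨⟨x, hx⟩, (INS_iK1 hxm.1).symm.le, hxm.2.1, hxm.2.2.1, hxm.2.2.2.1, hxm.2.2.2.2⟩)
      g₁.1 g₂.1
    calc D.ke G ⟨c₁, S₁, K₁⟩ R (i 0) g₁ * D.ke G ⟨c₂, S₂, K₂⟩ R (i 1) g₂
        = (eP D.μ₁ G S₁ K₁ R (i 0) g₁.1 * eP D.μ₁ G S₂ K₂ R (i 1) g₂.1) *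
          (D.nu (i 0) g₁.2 * D.nu (i 1) g₂.2) := mul_mul_mul_comm _ _ _ _
      _ ≤ _ * (D.nu (i 0) g₁.2 * D.nu (i 1) g₂.2) := mul_le_mul' h le_rfl
      _ = _ := by
          rw [Finset.sum_mul]
          refine Finset.sum_congr rfl fun j _ => ?_
          rw [mul_assoc, mul_mul_mul_comm]
          rfl
  · intro x z g u v hg hu hv j
    have w1 := INS_tkne D hu
    have w2 := INS_tkne D hv
    have hj : j.1.2.1 ∈ S₁ := (ht j.1 j.2).2.1
    have hj2 : j.1.2.2.2.1 ∈ S₂ := (ht j.1 j.2).2.2.2.1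
    have a1 := (hk₁ x z u v (hT₁ _ (hT1 0) _ _ _ w1) (hT₁ _ (hT1 1) _ _ _ w2) φ hφ
      j.1.2.1 hj _ hj2).1 c₁ hc₁
    have e0 : (x⁻¹ * ((u * g : D.Γ) : P × H) * z).1 =
        (x⁻¹ * (u : P × H) * z).1 * (z⁻¹ * (g : P × H) * z).1 := by
      rw [← Prod.fst_mul]
      congr 1
      push_cast
      group
    have w3 : (x⁻¹ * ((u * g : D.Γ) : P × H) * z).1 ∈ G.W S₁ (Q⁻¹ * K₁) k₂ := by
      rw [e0]
      refine (hWr G gok).2.1 _ _ _ _ _ _ le_rfl (Set.mul_subset_mul_right ?_) le_rfl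
        ((hWr G gok).2.2.2 _ _ _ (z⁻¹ * (g : P × H) * z).1 _ (hT₂ _ (hT2 0) _ _ _ w1))
      exact Set.singleton_subset_iff.2 (Set.inv_mem_inv.2 hg)
    have a2 := (hk₂ x z (u * g) v w3 (hT₂ _ (hT2 1) _ _ _ w2) φ hφ
      j.1.2.1 hj _ hj2).1 c₁ hc₁
    show ph G φ (u * g * v⁻¹) (x.1 * c₁) - ph G φ (u * v⁻¹) (x.1 * c₁) =
      ph G φ (u * g * v⁻¹) (x.1 * j.1.2.1) - ph G φ (u * v⁻¹) (x.1 * j.1.2.1)
    rw [a1, a2]

end Int

variable (P H : Type) [Group P] [Group H] [TopologicalSpace P] [TopologicalSpace H]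
  [IsTopologicalGroup P] [IsTopologicalGroup H] [LocallyCompactSpace P] [LocallyCompactSpace H]
  [T2Space P] [T2Space H] [SecondCountableTopology P] [SecondCountableTopology H]
  [MeasurableSpace P] [MeasurableSpace H] [BorelSpace P] [BorelSpace H]

theorem tINS : S_ZI P H → S_CTs P H → S_phP P H → S_AD2 P → S_AD P → S_Wr P → S_CTc P →
    S_egm P H → S_ton P H → S_inst P H → S_INS P H := by
  intro hZI hCTs hphP _hAD2 hAD hWr hCTc hegm _hton hinst D G hF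
  have gok := hF.gok
  obtain ⟨UZ, hUZ, sZ, hZ⟩ := hZI D G hF
  -- positivity
  have P1' : G.Pos G.w 1 := (gok.Ps _ _).1 gok.P1
  have ho3 : {q : P × P × P | G.Pos (q.1⁻¹ * G.w * q.2.1) q.2.2} ∈ 𝓝 ((1 : P), (1 : P), (1 : P)) := by
    have hc : Continuous fun q : P × P × P => (q.1⁻¹ * G.w * q.2.1, q.2.2) := by fun_prop
    refine (gok.Po.preimage hc).mem_nhds ?_
    show G.Pos ((1 : P)⁻¹ * G.w * 1) 1
    simpa using P1'
  obtain ⟨N₁, hN₁, N', hN', hNN⟩ := mem_nhds_prod_iff.1 ho3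
  obtain ⟨N₂, hN₂, N₃, hN₃, hN23⟩ := mem_nhds_prod_iff.1 hN'
  have ho2 : {q : P × P | G.Pos (q.1 * G.w) q.2} ∈ 𝓝 ((1 : P), (1 : P)) := by
    have hc : Continuous fun q : P × P => (q.1 * G.w, q.2) := by fun_prop
    refine (gok.Po.preimage hc).mem_nhds ?_
    show G.Pos ((1 : P) * G.w) 1
    simpa using P1'
  obtain ⟨A₁, hA₁, A₂, hA₂, hAA⟩ := mem_nhds_prod_iff.1 ho2
  have ho1 : {q : P × P | G.Pos G.w (G.w * q.1⁻¹ * q.2 * G.w)} ∈ 𝓝 ((1 : P), (1 : P)) := by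
    have hc : Continuous fun q : P × P => (G.w, G.w * q.1⁻¹ * q.2 * G.w) := by fun_prop
    refine (gok.Po.preimage hc).mem_nhds ?_
    show G.Pos G.w (G.w * (1 : P)⁻¹ * 1 * G.w)
    simpa [gok.ww] using P1'
  obtain ⟨B₁, hB₁, B₂, hB₂, hBB⟩ := mem_nhds_prod_iff.1 ho1
  obtain ⟨U, hU, sU, cU⟩ := local_compact_nhds (Filter.inter_mem hUZ (Filter.inter_mem hN₁
    (Filter.inter_mem hN₂ (Filter.inter_mem hN₃ (Filter.inter_mem hA₁ (Filter.inter_mem hA₂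
      (Filter.inter_mem hB₁ hB₂)))))))
  have h1U : (1 : P) ∈ U := mem_of_mem_nhds hU
  have p1 : ∀ u ∈ U, ∀ u' ∈ U, G.Pos (u * G.w) u' := fun u hu u' hu' =>
    hAA (Set.mk_mem_prod (sU hu).2.2.2.2.1 (sU hu').2.2.2.2.2.1)
  -- the compact set for CTc
  obtain ⟨kC, hC⟩ := hCTc G gok ({G.w} * U⁻¹ * U * {G.w})
    (((isCompact_singleton.mul cU.inv).mul cU).mul isCompact_singleton) (by
      rintro q ⟨_, ⟨_, ⟨w', hw', a', ha', rfl⟩, b', hb', rfl⟩, w'', hw'', rfl⟩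
      rw [Set.mem_singleton_iff] at hw' hw''
      subst hw' hw''
      have := hBB (Set.mk_mem_prod (sU ha').2.2.2.2.2.2.1 (sU hb').2.2.2.2.2.2.2)
      simpa using this) N₂ hN₂
  refine ⟨U, hU, cU, max sZ kC, fun s hs c => ?_⟩
  have hsZ : sZ ≤ s := (le_max_left _ _).trans hs
  have hsC : kC ≤ s := (le_max_right _ _).trans hs
  have haC : G.a ^ s ∈ G.Dp kC := by
    have hmo : ∀ k l, k ≤ l → G.Dp l ⊆ G.Dp k := by
      intro k l hkl
      induction l, hkl using Nat.le_induction with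
      | base => exact le_rfl
      | succ l _ ih => exact (gok.Dps l).trans ih
    exact hmo _ _ hsC (gok.Dpa s)
  have p2 : ∀ κ ∈ (U * {G.a ^ s} * U)⁻¹ * G.uw U, ∀ l ∈ U, G.Pos κ l := by
    rintro κ ⟨g', hg', k, ⟨e, he, w', hw', rfl⟩, rfl⟩ l hl
    rw [Set.mem_singleton_iff] at hw'
    subst hw'
    obtain ⟨_, ⟨u₁, hu₁, a', ha', rfl⟩, u₂, hu₂, hg2⟩ := Set.mem_inv.1 hg'
    rw [Set.mem_singleton_iff] at ha'
    subst ha'
    simp only at hg2 ⊢
    have hg3 : g' = (u₁ * G.a ^ s * u₂)⁻¹ := by rw [hg2, inv_inv]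
    have hq : G.w * u₁⁻¹ * e * G.w ∈ {G.w} * U⁻¹ * U * {G.w} :=
      Set.mul_mem_mul (Set.mul_mem_mul (Set.mul_mem_mul rfl (Set.inv_mem_inv.2 hu₁)) he) rfl
    obtain ⟨e', he', b, hb, hab⟩ := hC _ haC _ hq
    have hwa : (G.a ^ s)⁻¹ = G.w * G.a ^ s * G.w := by
      have h1 : G.w * G.a ^ s * G.w = (G.w * G.a * G.w) ^ s := by
        have : ∀ n : ℕ, (G.w * G.a * G.w) ^ n = G.w * G.a ^ n * G.w := by
          intro n
          induction n with
          | zero => simp [gok.ww]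
          | succ n ih =>
            rw [pow_succ, ih, pow_succ]
            calc G.w * G.a ^ n * G.w * (G.w * G.a * G.w)
                = G.w * G.a ^ n * (G.w * G.w) * G.a * G.w := by group
              _ = _ := by rw [gok.ww]; group
        exact (this s).symm
      rw [h1, gok.wa, inv_pow]
    have e1 : g' * (e * G.w) = u₂⁻¹ * G.w * e' * b := by
      calc g' * (e * G.w) = u₂⁻¹ * (G.a ^ s)⁻¹ * (u₁⁻¹ * e * G.w) := by rw [hg3]; group
        _ = u₂⁻¹ * G.w * (G.a ^ s * (G.w * u₁⁻¹ * e * G.w)) := by rw [hwa]; group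
        _ = _ := by rw [hab]; group
    rw [e1, gok.Pr _ _ _ hb]
    exact hNN (Set.mk_mem_prod (sU hu₂).2.1 (hN23 (Set.mk_mem_prod he' (sU hl).2.2.2.1)))
  have cuw : IsCompact (G.uw U) := cU.mul isCompact_singleton
  have hD1 : ∀ R, IsCompact (G.D1 ^ R) := by
    intro R
    induction R with
    | zero => rw [pow_zero]; exact isCompact_singleton
    | succ n ih => rw [pow_succ]; exact ih.mul gok.D1c
  have cQ : IsCompact (U * {G.a ^ s} * U) := (cU.mul isCompact_singleton).mul cU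
  have hZ' : ∀ g ∈ U * {G.a ^ s} * U, ∀ k ∈ G.uw U, ∀ l ∈ U, Zer D G g c k l := by
    rintro _ ⟨_, ⟨u₁, hu₁, a', ha', rfl⟩, u₂, hu₂, rfl⟩ _ ⟨e, he, w', hw', rfl⟩ l hl
    rw [Set.mem_singleton_iff] at hw' ha'
    subst hw' ha'
    exact hZ s hsZ u₁ (sU hu₁).1 u₂ (sU hu₂).1 e (sU he).1 l (sU hl).1 c
  have q1 : ∀ κ ∈ G.uw U, ∀ l ∈ U, G.Pos κ l := by
    rintro κ ⟨e, he, w', hw', rfl⟩ l hl
    rw [Set.mem_singleton_iff] at hw'
    subst hw'
    exact p1 e he l hl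
  have hwU : G.w ∈ G.uw U := ⟨1, h1U, G.w, rfl, by simp⟩
  refine ⟨?_, ?_⟩
  · exact INS_gen hCTs hphP hAD hWr hegm hinst D G hF cQ cuw cuw cU cU c hwU hZ' q1 q1 p2 hD1
  · exact INS_gen hCTs hphP hAD hWr hegm hinst D G hF cQ cU cuw cuw cU c h1U hZ'
      (fun s' hs' t ht => (gok.Ps _ _).2 (q1 t ht s' hs')) q1 p2 hD1

end Pool.Agent.MPEF.U
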