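import Pool.Agent.Lib.MP_ef3f0f_gt.U.E.SpecB

/-!
# MP_ef3f0f_gt, Theorem U, Part E: two straight edges with the same end points
-/

set_option autoImplicit false
set_option linter.unusedSectionVars false

namespace Pool.Agent.MPEF.U

open MeasureTheory Topology
open scoped ENNReal Pointwise

section KFP

variable (P : Type) [Group P] [TopologicalSpace P] [IsTopologicalGroup P] [LocallyCompactSpace P]
  [T2Space P] [SecondCountableTopology P] [MeasurableSpace P] [BorelSpace P]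

/-- The kernel of the straight chords. -/
private theorem KFP_eP (G : PG P) (μ : Measure P) (U : Set P) (hU : MeasurableSet U) (n : ℕ)
    (g : P) : eP μ G U (G.uw U) 0 n g = ∫⁻ q in U, iK U ((G.a ^ n)⁻¹ * q⁻¹ * g)⁻¹ ∂μ := by
  unfold eP kk
  rw [← lintegral_indicator hU]
  refine lintegral_congr fun q => ?_
  have h1 : U * G.D1 ^ 0 = U := by rw [pow_zero, mul_one]
  rw [h1]
  have h2 : iK (G.ew (G.uw U)) ((G.a ^ n)⁻¹ * q⁻¹ * g) = iK U ((G.a ^ n)⁻¹ * q⁻¹ * g)⁻¹ := by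
    unfold iK
    have h3 : (G.a ^ n)⁻¹ * q⁻¹ * g ∈ G.ew (G.uw U) ↔ ((G.a ^ n)⁻¹ * q⁻¹ * g)⁻¹ ∈ U := by
      unfold PG.ew PG.uw
      rw [Set.mem_ofPred_eq, Set.mul_singleton, Set.mem_image]
      constructor
      · rintro ⟨u, hu, he⟩
        rwa [← mul_right_cancel he]
      · intro h
        exact ⟨_, h, rfl⟩
    by_cases h : ((G.a ^ n)⁻¹ * q⁻¹ * g)⁻¹ ∈ U
    · rw [Set.indicator_of_mem h, Set.indicator_of_mem (h3.2 h)]
    · rw [Set.indicator_of_notMem h, Set.indicator_of_notMem fun h' => h (h3.1 h')]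
  rw [h2]
  by_cases hq : q ∈ U
  · rw [Set.indicator_of_mem hq]
    unfold iK
    rw [Set.indicator_of_mem hq, one_mul]
  · rw [Set.indicator_of_notMem hq]
    unfold iK
    rw [Set.indicator_of_notMem hq, zero_mul]

/-- The kernel of the straight chords, as an integral over the second window. -/
private theorem KFP_eP' (G : PG P) (μ : Measure P) (hμ : Un μ) (U : Set P) (hU : MeasurableSet U)
    (n : ℕ) (g : P) : eP μ G U (G.uw U) 0 n g = ∫⁻ q in U, iK U (g * q * (G.a ^ n)⁻¹) ∂μ := by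
  have i1 := hμ.haar
  have i2 := hμ.right
  rw [KFP_eP P G μ U hU n g, ← lintegral_indicator hU, ← lintegral_indicator hU]
  rw [← lintegral_mul_left_eq_self _ g]
  rw [← lintegral_mul_right_eq_self _ (G.a ^ n)⁻¹]
  refine lintegral_congr fun q => ?_
  have h : ((G.a ^ n)⁻¹ * (g * (q * (G.a ^ n)⁻¹))⁻¹ * g)⁻¹ = q := by group
  by_cases h1 : q ∈ U
  · by_cases h2 : g * q * (G.a ^ n)⁻¹ ∈ U
    · rw [Set.indicator_of_mem h1, Set.indicator_of_mem (by rwa [← mul_assoc]), h]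
      unfold iK
      rw [Set.indicator_of_mem h1, Set.indicator_of_mem h2]
    · rw [Set.indicator_of_mem h1, Set.indicator_of_notMem (by rwa [← mul_assoc])]
      unfold iK
      rw [Set.indicator_of_notMem h2]
  · rw [Set.indicator_of_notMem h1]
    by_cases h2 : g * (q * (G.a ^ n)⁻¹) ∈ U
    · rw [Set.indicator_of_mem h2, h]
      unfold iK
      rw [Set.indicator_of_notMem h1]
    · rw [Set.indicator_of_notMem h2]

/-- Lower bounds near `a^s`. -/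
private theorem KFP_lo (G : PG P) (μ : Measure P) (hμ : Un μ) (U Uc : Set P)
    (hUc : MeasurableSet Uc) (h1U : (1 : P) ∈ U)
    (hU : ∀ x ∈ U, ∀ y ∈ U, ∀ z ∈ U, x⁻¹ * y * z ∈ Uc) (O : Set P) (hO : IsOpen O)
    (s : ℕ) (hOU : ∀ f ∈ O, f ∈ U ∧ (G.a ^ s)⁻¹ * f * G.a ^ s ∈ U) (x y : P) (hx : x ∈ U)
    (hy : y ∈ U) :
    μ O ≤ eP μ G Uc (G.uw Uc) 0 s (x⁻¹ * y * G.a ^ s) ∧
    μ O ≤ eP μ G Uc (G.uw Uc) 0 s (G.a ^ s * (x⁻¹ * y)) := by
  have i1 := hμ.haar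
  constructor
  · rw [KFP_eP P G μ Uc hUc s _, ← lintegral_indicator hUc,
      ← lintegral_mul_left_eq_self _ (x⁻¹ * y), ← lintegral_indicator_one hO.measurableSet]
    refine lintegral_mono fun f => ?_
    by_cases hf : f ∈ O
    · obtain ⟨h1, h2⟩ := hOU f hf
      have h3 : x⁻¹ * y * f ∈ Uc := hU x hx y hy f h1
      have h4 : ((G.a ^ s)⁻¹ * (x⁻¹ * y * f)⁻¹ * (x⁻¹ * y * G.a ^ s))⁻¹ =
          (1 : P)⁻¹ * 1 * ((G.a ^ s)⁻¹ * f * G.a ^ s) := by group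
      rw [Set.indicator_of_mem hf, Set.indicator_of_mem h3, h4]
      unfold iK
      rw [Set.indicator_of_mem (hU 1 h1U 1 h1U _ h2)]
      exact le_rfl
    · rw [Set.indicator_of_notMem hf]
      exact zero_le
  · rw [KFP_eP P G μ Uc hUc s _, ← lintegral_indicator hUc,
      ← lintegral_indicator_one hO.measurableSet]
    refine lintegral_mono fun f => ?_
    by_cases hf : f ∈ O
    · obtain ⟨h1, h2⟩ := hOU f hf
      have h3 : (1 : P)⁻¹ * 1 * f ∈ Uc := hU 1 h1U 1 h1U f h1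
      rw [inv_one, one_mul, one_mul] at h3
      have h4 : ((G.a ^ s)⁻¹ * f⁻¹ * (G.a ^ s * (x⁻¹ * y)))⁻¹ =
          y⁻¹ * x * ((G.a ^ s)⁻¹ * f * G.a ^ s) := by group
      rw [Set.indicator_of_mem hf, Set.indicator_of_mem h3, h4]
      unfold iK
      rw [Set.indicator_of_mem (hU y hy x hx _ h2)]
      exact le_rfl
    · rw [Set.indicator_of_notMem hf]
      exact zero_le

private theorem KFP_U (Uc : Set P) (hUc : Uc ∈ 𝓝 (1 : P)) : ∃ U ∈ 𝓝 (1 : P), IsCompact U ∧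
    ∀ x ∈ U, ∀ y ∈ U, ∀ z ∈ U, x⁻¹ * y * z ∈ Uc := by
  have hc : Continuous fun p : P × P × P => p.1⁻¹ * p.2.1 * p.2.2 :=
    (continuous_fst.inv.mul (continuous_fst.comp continuous_snd)).mul
      (continuous_snd.comp continuous_snd)
  have h1 : (fun p : P × P × P => p.1⁻¹ * p.2.1 * p.2.2) ⁻¹' Uc ∈ 𝓝 ((1 : P), (1 : P), (1 : P)) := by
    refine hc.continuousAt.preimage_mem_nhds ?_
    simpa using hUc
  rw [nhds_prod_eq, nhds_prod_eq] at h1
  obtain ⟨A, hA, B, hB, hAB⟩ := Filter.mem_prod_iff.1 h1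
  obtain ⟨B1, hB1, B2, hB2, hBB⟩ := Filter.mem_prod_iff.1 hB
  obtain ⟨K, hK, hKs, hKc⟩ := local_compact_nhds (Filter.inter_mem hA (Filter.inter_mem hB1 hB2))
  refine ⟨K, hK, hKc, fun x hx y hy z hz => ?_⟩
  have h2 : ((x, y, z) : P × P × P) ∈ A ×ˢ B :=
    ⟨(hKs hx).1, hBB ⟨(hKs hy).2.1, (hKs hz).2.2⟩⟩
  exact hAB h2

private theorem KFP_mono (G : PG P) (μ : Measure P) {U U' : Set P} (h : U ⊆ U') (n : ℕ) (g : P) :
    eP μ G U (G.uw U) 0 n g ≤ eP μ G U' (G.uw U') 0 n g := by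
  unfold eP kk
  refine lintegral_mono fun q => mul_le_mul' ?_ ?_
  · exact Set.indicator_le_indicator_of_subset (Set.mul_subset_mul_right h)
      (fun _ => zero_le) q
  · refine Set.indicator_le_indicator_of_subset ?_ (fun _ => zero_le) _
    intro r hr
    exact Set.mul_subset_mul_right h hr

private theorem KFP_1 (U : Set P) (g : P) : iK U g ≤ 1 := by
  unfold iK
  by_cases h : g ∈ U
  · rw [Set.indicator_of_mem h]
  · rw [Set.indicator_of_notMem h]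
    exact zero_le

theorem tKFP : S_ck P → S_DF P → S_KFP P := by
  intro _ _ G μ hμ hG Uc' hUc'
  have i1 := hμ.haar
  have i2 := hμ.right
  obtain ⟨Uc, hUc, hUcs, hUcc⟩ := local_compact_nhds hUc'
  obtain ⟨U, hU, hUk, hUU⟩ := KFP_U P Uc hUc
  have hUm : MeasurableSet U := hUk.measurableSet
  have hUcm : MeasurableSet Uc := hUcc.measurableSet
  have h1U : (1 : P) ∈ U := mem_of_mem_nhds hU
  refine ⟨U, hU, hUk, fun x hx => hUcs ?_, fun s => ?_⟩
  · have h := hUU 1 h1U 1 h1U x hx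
    rwa [inv_one, one_mul, one_mul] at h
  obtain ⟨O, hOs, hO, h1O⟩ : ∃ O ⊆ {f | f ∈ U} ∩ {f | (G.a ^ s)⁻¹ * f * G.a ^ s ∈ U},
      IsOpen O ∧ (1 : P) ∈ O := by
    refine mem_nhds_iff.1 (Filter.inter_mem hU ?_)
    have hc : Continuous fun f : P => (G.a ^ s)⁻¹ * f * G.a ^ s :=
      (continuous_const.mul continuous_id).mul continuous_const
    refine hc.continuousAt.preimage_mem_nhds ?_
    simpa using hU
  have hO0 : μ O ≠ 0 := (hO.measure_pos μ ⟨1, h1O⟩).ne'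
  have hOt : μ O ≠ ∞ :=
    ((measure_mono fun f hf => (hOs hf).1).trans_lt hUk.measure_lt_top).ne
  have hOi : (μ O)⁻¹ ≠ ∞ := ENNReal.inv_ne_top.2 hO0
  have hCt : (μ O)⁻¹ * (μ O)⁻¹ ≠ ∞ := ENNReal.mul_ne_top hOi hOi
  refine ⟨(μ O)⁻¹ * (μ O)⁻¹, hCt, fun N g g' => ?_⟩
  rw [KFP_eP' P G μ hμ U hUm (s + N) g, KFP_eP P G μ U hUm (s + N) g', mul_comm]
  have hA : ∫⁻ q in U, iK U (g * q * (G.a ^ (s + N))⁻¹) ∂μ ≠ ∞ := by
    refine ((lintegral_mono fun q => KFP_1 P U _).trans_lt ?_).ne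
    rw [lintegral_one, Measure.restrict_apply_univ]
    exact hUk.measure_lt_top
  rw [← lintegral_mul_const' _ _ hA, ← lintegral_const_mul' _ _ hCt]
  refine setLIntegral_mono' hUm fun q₁ hq₁ => ?_
  have hB : iK U ((G.a ^ (s + N))⁻¹ * q₁⁻¹ * g')⁻¹ ≠ ∞ :=
    ((KFP_1 P U _).trans_lt ENNReal.one_lt_top).ne
  rw [← lintegral_const_mul' _ _ hB, ← lintegral_const_mul' _ _ hCt]
  refine setLIntegral_mono' hUm fun q₂ hq₂ => ?_
  by_cases h1 : ((G.a ^ (s + N))⁻¹ * q₁⁻¹ * g')⁻¹ ∈ U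
  · by_cases h2 : g * q₂ * (G.a ^ (s + N))⁻¹ ∈ U
    · have h3 := (KFP_lo P G μ hμ U Uc hUcm h1U hUU O hO s (fun f hf => hOs hf) q₁ _ hq₁ h2).1
      have h4 := (KFP_lo P G μ hμ U Uc hUcm h1U hUU O hO s (fun f hf => hOs hf) _ q₂ h1 hq₂).2
      have e3 : q₁⁻¹ * (g * q₂ * (G.a ^ (s + N))⁻¹) * G.a ^ s =
          q₁⁻¹ * g * q₂ * (G.a ^ N)⁻¹ := by
        rw [pow_add]
        group
      have e4 : G.a ^ s * ((((G.a ^ (s + N))⁻¹ * q₁⁻¹ * g')⁻¹)⁻¹ * q₂) =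
          (G.a ^ N)⁻¹ * (q₁⁻¹ * g' * q₂) := by
        have h5 : G.a ^ s * (G.a ^ (s + N))⁻¹ = (G.a ^ N)⁻¹ := by
          rw [add_comm, pow_add]
          group
        rw [inv_inv, ← mul_assoc, ← mul_assoc, ← mul_assoc, h5]
        group
      rw [e3] at h3
      rw [e4] at h4
      calc iK U ((G.a ^ (s + N))⁻¹ * q₁⁻¹ * g')⁻¹ * iK U (g * q₂ * (G.a ^ (s + N))⁻¹)
          ≤ 1 * 1 := mul_le_mul' (KFP_1 P U _) (KFP_1 P U _)
        _ = ((μ O)⁻¹ * μ O) * ((μ O)⁻¹ * μ O) := by rw [ENNReal.inv_mul_cancel hO0 hOt]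
        _ = (μ O)⁻¹ * (μ O)⁻¹ * (μ O * μ O) := by ring
        _ ≤ _ := mul_le_mul_right (mul_le_mul' (h3.trans (KFP_mono P G μ hUcs s _))
          (h4.trans (KFP_mono P G μ hUcs s _))) _
    · unfold iK
      rw [Set.indicator_of_notMem h2, mul_zero]
      exact zero_le
  · unfold iK
    rw [Set.indicator_of_notMem h1, zero_mul]
    exact zero_le

end KFP

end Pool.Agent.MPEF.U
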