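import Pool.Agent.Lib.MP_ef3f0f_gt.U.E.SpecA

set_option autoImplicit false
set_option linter.unusedSectionVars false

/-!
# MP_ef3f0f_gt, Theorem U, Part E: the identity for the change of the base point
-/

namespace Pool.Agent.MPEF.U

open MeasureTheory Topology
open scoped ENNReal Pointwise

variable (P H : Type) [Group P] [Group H] [TopologicalSpace P] [TopologicalSpace H]
  [IsTopologicalGroup P] [IsTopologicalGroup H] [LocallyCompactSpace P] [LocallyCompactSpace H]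
  [T2Space P] [T2Space H] [SecondCountableTopology P] [SecondCountableTopology H]
  [MeasurableSpace P] [MeasurableSpace H] [BorelSpace P] [BorelSpace H]

theorem tLX0 : S_phB P H → S_AD P → S_Wr P → S_LX0 P H := by
  intro hphB hAD hWr D G hF Q S K Su Ku Sv Kv hQ hS hK hSu hKu hSv hKv hKS hSS hKK R
  have := hF.ok.haar₁
  have := hF.ok.right₁
  have := hF.ok.inv₁
  have hG := hF.gok
  have hK1 : IsCompact (Q⁻¹ * Ku) := hQ.inv.mul hKu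
  have hKK1 : ∀ κ ∈ Q⁻¹ * Ku, ∀ κ' ∈ Kv, G.Pos κ κ' := by
    intro κ hκ κ' hκ'
    obtain ⟨q, hq, κ₀, hκ₀, rfl⟩ := Set.mem_mul.1 hκ
    have h1 := (hKK κ₀ hκ₀ κ' hκ').2 q⁻¹ (Set.mem_inv.1 hq)
    rwa [inv_inv] at h1
  obtain ⟨k₁, hk₁⟩ := hphB D G hG hF.gf S K Su (Q⁻¹ * Ku) Sv Kv hS hK hSu hK1 hSv hKv hKS hSS hKK1
  obtain ⟨k₂, hk₂⟩ := hphB D G hG hF.gf S K Su Ku Sv Kv hS hK hSu hKu hSv hKv hKS hSS
    fun κ hκ κ' hκ' => (hKK κ hκ κ' hκ').1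
  obtain ⟨-, -, -, hsup, -⟩ := hAD G D.μ₁ hG
  obtain ⟨-, hmono, -, htr⟩ := hWr G hG
  obtain ⟨T₀, hT₀⟩ := hsup 0 (max k₁ k₂)
  obtain ⟨T₁, hT₁⟩ := hsup R (max k₁ k₂)
  refine ⟨max T₀ T₁, fun b n m hb hn hm x x' z χ g u v hχ hu hv hg φ hφ s hs s' hs' => ?_⟩
  have wχ : (x⁻¹ * (χ : P × H) * x').1 ∈ G.W S K (max k₁ k₂) :=
    hT₀ b ((le_max_left _ _).trans hb) S K _ (left_ne_zero_of_mul hχ)
  have wu : (x'⁻¹ * (u : P × H) * z).1 ∈ G.W Su Ku (max k₁ k₂) :=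
    hT₁ n ((le_max_right _ _).trans hn) Su Ku _ (left_ne_zero_of_mul hu)
  have wv : (x⁻¹ * (v : P × H) * z).1 ∈ G.W Sv Kv (max k₁ k₂) :=
    hT₁ m ((le_max_right _ _).trans hm) Sv Kv _ (left_ne_zero_of_mul hv)
  have wug : (x'⁻¹ * ((u * g : D.Γ) : P × H) * z).1 ∈ G.W Su (Q⁻¹ * Ku) (max k₁ k₂) := by
    have h1 := htr Su Ku (max k₁ k₂) (z⁻¹ * (g : P × H) * z).1 _ wu
    have h2 : (x'⁻¹ * ((u * g : D.Γ) : P × H) * z).1 =
        (x'⁻¹ * (u : P × H) * z).1 * (z⁻¹ * (g : P × H) * z).1 := by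
      rw [← Prod.fst_mul, Subgroup.coe_mul]
      congr 1
      group
    rw [h2]
    refine hmono Su ({(z⁻¹ * (g : P × H) * z).1⁻¹} * Ku) Su (Q⁻¹ * Ku) _ _ le_rfl ?_ le_rfl h1
    exact Set.mul_subset_mul_right (Set.singleton_subset_iff.2 (Set.inv_mem_inv.2 hg))
  have m1 : ∀ (S' K' : Set P), G.W S' K' (max k₁ k₂) ⊆ G.W S' K' k₁ := fun S' K' =>
    hmono S' K' S' K' k₁ _ le_rfl le_rfl (le_max_left _ _)
  have m2 : ∀ (S' K' : Set P), G.W S' K' (max k₁ k₂) ⊆ G.W S' K' k₂ := fun S' K' =>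
    hmono S' K' S' K' k₂ _ le_rfl le_rfl (le_max_right _ _)
  have e1 := hk₁ x x' z χ (u * g) v (m1 _ _ wχ) (m1 _ _ wug) (m1 _ _ wv) φ hφ s hs s' hs'
  have e2 := hk₂ x x' z χ u v (m2 _ _ wχ) (m2 _ _ wu) (m2 _ _ wv) φ hφ s hs s' hs'
  unfold Dg
  rw [← e2, ← e1, ← mul_assoc χ u g]

end Pool.Agent.MPEF.U
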