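import Pool.Agent.Lib.MP_ef3f0f_gt.U.E.SpecA
import Pool.Agent.Lib.MP_ef3f0f_gt.U.Z.inst

set_option autoImplicit false
set_option linter.unusedSectionVars false

/-!
# MP_ef3f0f_gt, Theorem U, Part E: change of the base point and of the germs
-/

namespace Pool.Agent.MPEF.U

open MeasureTheory Topology
open scoped ENNReal Pointwise

/-! ### The abstract part -/

section Abs

private theorem LX1_tri (a b c : ℝ) : ab (a - b) ≤ ab (a - c) + ab (c - b) := by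
  unfold ab
  rw [← ENNReal.ofReal_add (abs_nonneg _) (abs_nonneg _)]
  exact ENNReal.ofReal_le_ofReal (abs_sub_le a c b)

private theorem LX1_abm : Measurable ab := by
  unfold ab
  fun_prop

variable {X Γ : Type}

private theorem LX1_sw1 (h : Γ → Γ → Γ → Γ → ℝ≥0∞) :
    ∑' a, ∑' b, ∑' c, ∑' d, h a b c d = ∑' b, ∑' c, ∑' a, ∑' d, h a b c d := by
  rw [ENNReal.tsum_comm]
  exact tsum_congr fun b => ENNReal.tsum_comm

private theorem LX1_sw2 (h : Γ → Γ → Γ → Γ → ℝ≥0∞) :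
    ∑' a, ∑' b, ∑' c, ∑' d, h a b c d = ∑' c, ∑' d, ∑' a, ∑' b, h a b c d := by
  calc ∑' a, ∑' b, ∑' c, ∑' d, h a b c d
      = ∑' a, ∑' c, ∑' b, ∑' d, h a b c d := tsum_congr fun a => ENNReal.tsum_comm
    _ = ∑' c, ∑' a, ∑' b, ∑' d, h a b c d := ENNReal.tsum_comm
    _ = ∑' c, ∑' a, ∑' d, ∑' b, h a b c d :=
        tsum_congr fun c => tsum_congr fun a => ENNReal.tsum_comm
    _ = _ := tsum_congr fun c => ENNReal.tsum_comm

variable [Group Γ]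

/-- The pointwise estimate. -/
private theorem LX1_pt (E e1 e2 e3 e4 : Γ → ℝ≥0∞) (A B : Γ → Γ → ℝ)
    (hid : ∀ χ u' v, E χ ≠ 0 → e3 u' ≠ 0 → e2 v ≠ 0 → A (χ * u') v = B u' (χ⁻¹ * v)) :
    (∑' χ, E χ) * (∑' u, ∑' v, e1 u * e2 v * ∑' u', ∑' v', e3 u' * e4 v' *
      ab (A u v - B u' v')) ≤
    (∑' v', e4 v') * (∑' u, ∑' v, e1 u * e2 v * ∑' χ, ∑' u', E χ * e3 u' *
      ab (A u v - A (χ * u') v)) +
    (∑' u, e1 u) * (∑' u', ∑' v', e3 u' * e4 v' * ∑' χ, ∑' v, E χ * e2 v *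
      ab (B u' (χ⁻¹ * v) - B u' v')) := by
  have key : ∀ χ u v u' v', E χ * (e1 u * e2 v * (e3 u' * e4 v' * ab (A u v - B u' v'))) ≤
      (e1 u * e2 v * (E χ * e3 u' * ab (A u v - A (χ * u') v))) * e4 v' +
      e1 u * (e3 u' * e4 v' * (E χ * e2 v * ab (B u' (χ⁻¹ * v) - B u' v'))) := by
    intro χ u v u' v'
    by_cases h1 : E χ = 0
    · rw [h1, zero_mul]
      exact zero_le
    by_cases h2 : e2 v = 0
    · rw [h2, mul_zero, zero_mul, mul_zero]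
      exact zero_le
    by_cases h3 : e3 u' = 0
    · rw [h3, zero_mul, zero_mul, mul_zero, mul_zero]
      exact zero_le
    calc E χ * (e1 u * e2 v * (e3 u' * e4 v' * ab (A u v - B u' v')))
        ≤ E χ * (e1 u * e2 v * (e3 u' * e4 v' * (ab (A u v - A (χ * u') v) +
          ab (A (χ * u') v - B u' v')))) :=
          mul_le_mul_right (mul_le_mul_right (mul_le_mul_right (LX1_tri _ _ _) _) _) _
      _ = _ := by
          rw [hid χ u' v h1 h3 h2]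
          ring
  have e0 : (∑' χ, E χ) * (∑' u, ∑' v, e1 u * e2 v * ∑' u', ∑' v', e3 u' * e4 v' *
      ab (A u v - B u' v')) = ∑' χ, ∑' u, ∑' v, ∑' u', ∑' v',
        E χ * (e1 u * e2 v * (e3 u' * e4 v' * ab (A u v - B u' v'))) := by
    simp only [ENNReal.tsum_mul_left, ENNReal.tsum_mul_right]
  have s1 : (∑' v', e4 v') * (∑' u, ∑' v, e1 u * e2 v * ∑' χ, ∑' u', E χ * e3 u' *
      ab (A u v - A (χ * u') v)) = ∑' χ, ∑' u, ∑' v, ∑' u', ∑' v',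
        (e1 u * e2 v * (E χ * e3 u' * ab (A u v - A (χ * u') v))) * e4 v' := by
    calc (∑' v', e4 v') * (∑' u, ∑' v, e1 u * e2 v * ∑' χ, ∑' u', E χ * e3 u' *
        ab (A u v - A (χ * u') v))
        = (∑' u, ∑' v, ∑' χ, ∑' u', e1 u * e2 v * (E χ * e3 u' *
          ab (A u v - A (χ * u') v))) * ∑' v', e4 v' := by
          rw [mul_comm]
          simp only [ENNReal.tsum_mul_left]
      _ = (∑' χ, ∑' u, ∑' v, ∑' u', e1 u * e2 v * (E χ * e3 u' *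
          ab (A u v - A (χ * u') v))) * ∑' v', e4 v' := by
          rw [LX1_sw1 fun χ u v u' => e1 u * e2 v * (E χ * e3 u' * ab (A u v - A (χ * u') v))]
      _ = ∑' χ, ∑' u, ∑' v, ∑' u', (e1 u * e2 v * (E χ * e3 u' *
          ab (A u v - A (χ * u') v))) * ∑' v', e4 v' := by
          simp only [ENNReal.tsum_mul_right]
      _ = _ := by
          refine tsum_congr fun χ => tsum_congr fun u => tsum_congr fun v =>
            tsum_congr fun u' => ?_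
          rw [ENNReal.tsum_mul_left]
  have s2 : (∑' u, e1 u) * (∑' u', ∑' v', e3 u' * e4 v' * ∑' χ, ∑' v, E χ * e2 v *
      ab (B u' (χ⁻¹ * v) - B u' v')) = ∑' χ, ∑' u, ∑' v, ∑' u', ∑' v',
        e1 u * (e3 u' * e4 v' * (E χ * e2 v * ab (B u' (χ⁻¹ * v) - B u' v'))) := by
    calc (∑' u, e1 u) * (∑' u', ∑' v', e3 u' * e4 v' * ∑' χ, ∑' v, E χ * e2 v *
        ab (B u' (χ⁻¹ * v) - B u' v'))
        = (∑' u, e1 u) * ∑' u', ∑' v', ∑' χ, ∑' v, e3 u' * e4 v' * (E χ * e2 v *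
          ab (B u' (χ⁻¹ * v) - B u' v')) := by
          simp only [ENNReal.tsum_mul_left]
      _ = (∑' u, e1 u) * ∑' χ, ∑' v, ∑' u', ∑' v', e3 u' * e4 v' * (E χ * e2 v *
          ab (B u' (χ⁻¹ * v) - B u' v')) := by
          rw [LX1_sw2 fun χ v u' v' => e3 u' * e4 v' * (E χ * e2 v *
            ab (B u' (χ⁻¹ * v) - B u' v'))]
      _ = ∑' χ, (∑' u, e1 u) * ∑' v, ∑' u', ∑' v', e3 u' * e4 v' * (E χ * e2 v *
          ab (B u' (χ⁻¹ * v) - B u' v')) := ENNReal.tsum_mul_left.symm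
      _ = ∑' χ, ∑' u, e1 u * ∑' v, ∑' u', ∑' v', e3 u' * e4 v' * (E χ * e2 v *
          ab (B u' (χ⁻¹ * v) - B u' v')) := tsum_congr fun χ => ENNReal.tsum_mul_right.symm
      _ = _ := by
          refine tsum_congr fun χ => tsum_congr fun u => ?_
          rw [← ENNReal.tsum_mul_left]
          refine tsum_congr fun v => ?_
          rw [← ENNReal.tsum_mul_left]
          refine tsum_congr fun u' => ?_
          rw [← ENNReal.tsum_mul_left]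
  rw [e0, s1, s2, ← ENNReal.tsum_add]
  refine ENNReal.tsum_le_tsum fun χ => ?_
  rw [← ENNReal.tsum_add]
  refine ENNReal.tsum_le_tsum fun u => ?_
  rw [← ENNReal.tsum_add]
  refine ENNReal.tsum_le_tsum fun v => ?_
  rw [← ENNReal.tsum_add]
  refine ENNReal.tsum_le_tsum fun u' => ?_
  rw [← ENNReal.tsum_add]
  exact ENNReal.tsum_le_tsum fun v' => key χ u v u' v'

variable [MeasurableSpace X] [Countable Γ]

/-- Merging under the integral. -/
private theorem LX1_int (ρ : Measure X) (E : X → Γ → ℝ≥0∞) (e : X → Γ → ℝ≥0∞) (p q m : Γ → ℝ≥0∞)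
    (Φ : Γ → Γ → Γ → ℝ≥0∞) (op : Γ → Γ → Γ) (C : ℝ≥0∞)
    (mE : ∀ χ, Measurable fun x => E x χ) (me : ∀ u, Measurable fun x => e x u)
    (hm : ∀ F : Γ → ℝ≥0∞, ∫⁻ x, ∑' χ, ∑' u, E x χ * e x u * F (op χ u) ∂ρ ≤
      C * ∑' u, m u * F u) :
    ∫⁻ x, ∑' u, ∑' v, p u * q v * ∑' χ, ∑' w, E x χ * e x w * Φ u v (op χ w) ∂ρ ≤
      C * ∑' u, ∑' w, ∑' v, p u * m w * q v * Φ u v w := by
  have mI : ∀ u v, Measurable fun x => ∑' χ, ∑' w, E x χ * e x w * Φ u v (op χ w) :=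
    fun u v => Measurable.tsum fun χ => Measurable.tsum fun w => ((mE χ).mul (me w)).mul_const _
  rw [lintegral_tsum fun u => (Measurable.tsum fun v => (mI u v).const_mul _).aemeasurable,
    ← ENNReal.tsum_mul_left]
  refine ENNReal.tsum_le_tsum fun u => ?_
  rw [lintegral_tsum fun v => ((mI u v).const_mul _).aemeasurable, ENNReal.tsum_comm,
    ← ENNReal.tsum_mul_left]
  refine ENNReal.tsum_le_tsum fun v => ?_
  rw [lintegral_const_mul _ (mI u v)]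
  refine (mul_le_mul_right (hm (Φ u v)) _).trans (le_of_eq ?_)
  rw [mul_left_comm, ← ENNReal.tsum_mul_left]
  congr 1
  refine tsum_congr fun w => ?_
  ring

private theorem LX1_abs (ρ : Measure X) [SFinite ρ] (E : X → X → Γ → ℝ≥0∞)
    (e1 e2 e3 e4 m1 m2 : X → Γ → ℝ≥0∞) (A B : X → Γ → Γ → ℝ) (c0 Cu C1 C2 : ℝ≥0∞)
    (hCu : Cu ≠ ∞) (hC1 : C1 ≠ ∞) (hC2 : C2 ≠ ∞)
    (mE : ∀ χ, Measurable fun q : X × X => E q.1 q.2 χ)
    (h1 : ∀ u, Measurable fun x => e1 x u) (h2 : ∀ u, Measurable fun x => e2 x u)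
    (h3 : ∀ u, Measurable fun x => e3 x u) (h4 : ∀ u, Measurable fun x => e4 x u)
    (mA : ∀ u v, Measurable fun x => A x u v) (mB : ∀ u v, Measurable fun x => B x u v)
    (hE : ∀ x x', c0 ≤ ∑' χ, E x x' χ) (hu1 : ∀ x, ∑' u, e1 x u ≤ Cu)
    (hu4 : ∀ x, ∑' v, e4 x v ≤ Cu)
    (hid : ∀ x x' χ u' v, E x x' χ ≠ 0 → e3 x' u' ≠ 0 → e2 x v ≠ 0 →
      A x (χ * u') v = B x' u' (χ⁻¹ * v))
    (hm1 : ∀ (x : X) (F : Γ → ℝ≥0∞), ∫⁻ x', ∑' χ, ∑' u, E x x' χ * e3 x' u * F (χ * u) ∂ρ ≤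
      C1 * ∑' u, m1 x u * F u)
    (hm2 : ∀ (x' : X) (F : Γ → ℝ≥0∞), ∫⁻ x, ∑' χ, ∑' v, E x x' χ * e2 x v * F (χ⁻¹ * v) ∂ρ ≤
      C2 * ∑' v, m2 x' v * F v) :
    c0 * ∫⁻ x, ∫⁻ x', ∑' u, ∑' v, e1 x u * e2 x v * ∑' u', ∑' v', e3 x' u' * e4 x' v' *
        ab (A x u v - B x' u' v') ∂ρ ∂ρ ≤
      Cu * C1 * (∫⁻ x, ∑' u, ∑' w, ∑' v, e1 x u * m1 x w * e2 x v *
        ab (A x u v - A x w v) ∂ρ) +
      Cu * C2 * (∫⁻ x, ∑' u, ∑' w, ∑' v, e3 x u * m2 x w * e4 x v *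
        ab (B x u w - B x u v) ∂ρ) := by
  set G1 : X → X → ℝ≥0∞ := fun x x' => ∑' u, ∑' v, e1 x u * e2 x v *
    ∑' χ, ∑' u', E x x' χ * e3 x' u' * ab (A x u v - A x (χ * u') v) with hG1
  set G2 : X → X → ℝ≥0∞ := fun x x' => ∑' u', ∑' v', e3 x' u' * e4 x' v' *
    ∑' χ, ∑' v, E x x' χ * e2 x v * ab (B x' u' (χ⁻¹ * v) - B x' u' v') with hG2
  have mG1 : Measurable fun q : X × X => G1 q.1 q.2 := by
    refine Measurable.tsum fun u => Measurable.tsum fun v =>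
      (((h1 u).comp measurable_fst).mul ((h2 v).comp measurable_fst)).mul
        (Measurable.tsum fun χ => Measurable.tsum fun u' =>
          ((mE χ).mul ((h3 u').comp measurable_snd)).mul (LX1_abm.comp ?_))
    exact ((mA u v).comp measurable_fst).sub ((mA (χ * u') v).comp measurable_fst)
  have mG2 : Measurable fun q : X × X => G2 q.1 q.2 := by
    refine Measurable.tsum fun u => Measurable.tsum fun v =>
      (((h3 u).comp measurable_snd).mul ((h4 v).comp measurable_snd)).mul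
        (Measurable.tsum fun χ => Measurable.tsum fun u' =>
          ((mE χ).mul ((h2 u').comp measurable_fst)).mul (LX1_abm.comp ?_))
    exact ((mB u (χ⁻¹ * u')).comp measurable_snd).sub ((mB u v).comp measurable_snd)
  have hp : ∀ x x', c0 * (∑' u, ∑' v, e1 x u * e2 x v * ∑' u', ∑' v', e3 x' u' * e4 x' v' *
      ab (A x u v - B x' u' v')) ≤ Cu * G1 x x' + Cu * G2 x x' := by
    intro x x'
    refine (mul_le_mul_left (hE x x') _).trans ?_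
    refine (LX1_pt (E x x') (e1 x) (e2 x) (e3 x') (e4 x') (A x) (B x') (hid x x')).trans ?_
    exact add_le_add (mul_le_mul_left (hu4 x') _) (mul_le_mul_left (hu1 x) _)
  have i1 : ∀ x, ∫⁻ x', G1 x x' ∂ρ ≤ C1 * ∑' u, ∑' w, ∑' v, e1 x u * m1 x w * e2 x v *
      ab (A x u v - A x w v) := by
    intro x
    exact LX1_int ρ (fun x' => E x x') e3 (e1 x) (e2 x) (m1 x)
      (fun u v w => ab (A x u v - A x w v)) (fun χ u => χ * u) C1
      (fun χ => (mE χ).comp measurable_prodMk_left) h3 (hm1 x)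
  have i2 : ∀ x', ∫⁻ x, G2 x x' ∂ρ ≤ C2 * ∑' u, ∑' w, ∑' v, e3 x' u * m2 x' w * e4 x' v *
      ab (B x' u w - B x' u v) := by
    intro x'
    exact LX1_int ρ (fun x => E x x') e2 (e3 x') (e4 x') (m2 x')
      (fun u v w => ab (B x' u w - B x' u v)) (fun χ v => χ⁻¹ * v) C2
      (fun χ => (mE χ).comp measurable_prodMk_right) h2 (hm2 x')
  have sw : ∫⁻ x, ∫⁻ x', G2 x x' ∂ρ ∂ρ = ∫⁻ x', ∫⁻ x, G2 x x' ∂ρ ∂ρ :=
    lintegral_lintegral_swap mG2.aemeasurable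
  calc c0 * ∫⁻ x, ∫⁻ x', ∑' u, ∑' v, e1 x u * e2 x v * ∑' u', ∑' v', e3 x' u' * e4 x' v' *
        ab (A x u v - B x' u' v') ∂ρ ∂ρ
      ≤ ∫⁻ x, c0 * ∫⁻ x', ∑' u, ∑' v, e1 x u * e2 x v * ∑' u', ∑' v', e3 x' u' * e4 x' v' *
        ab (A x u v - B x' u' v') ∂ρ ∂ρ := lintegral_const_mul_le _ _
    _ ≤ ∫⁻ x, ∫⁻ x', c0 * (∑' u, ∑' v, e1 x u * e2 x v * ∑' u', ∑' v', e3 x' u' * e4 x' v' *
        ab (A x u v - B x' u' v')) ∂ρ ∂ρ := lintegral_mono fun x => lintegral_const_mul_le _ _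
    _ ≤ ∫⁻ x, ∫⁻ x', (Cu * G1 x x' + Cu * G2 x x') ∂ρ ∂ρ :=
        lintegral_mono fun x => lintegral_mono fun x' => hp x x'
    _ = ∫⁻ x, (Cu * (∫⁻ x', G1 x x' ∂ρ) + Cu * ∫⁻ x', G2 x x' ∂ρ) ∂ρ := by
        refine lintegral_congr fun x => ?_
        have m0 : Measurable fun x' => G1 x x' := mG1.comp measurable_prodMk_left
        rw [lintegral_add_left (m0.const_mul Cu), lintegral_const_mul' _ _ hCu,
          lintegral_const_mul' _ _ hCu]
    _ = Cu * (∫⁻ x, ∫⁻ x', G1 x x' ∂ρ ∂ρ) + Cu * ∫⁻ x, ∫⁻ x', G2 x x' ∂ρ ∂ρ := by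
        have m0 : Measurable fun x => ∫⁻ x', G1 x x' ∂ρ := mG1.lintegral_prod_right'
        rw [lintegral_add_left (m0.const_mul Cu), lintegral_const_mul' _ _ hCu,
          lintegral_const_mul' _ _ hCu]
    _ ≤ Cu * (∫⁻ x, C1 * (∑' u, ∑' w, ∑' v, e1 x u * m1 x w * e2 x v *
          ab (A x u v - A x w v)) ∂ρ) +
        Cu * ∫⁻ x, C2 * (∑' u, ∑' w, ∑' v, e3 x u * m2 x w * e4 x v *
          ab (B x u w - B x u v)) ∂ρ := by
        rw [sw]
        exact add_le_add (mul_le_mul_right (lintegral_mono i1) _)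
          (mul_le_mul_right (lintegral_mono i2) _)
    _ = _ := by
        rw [lintegral_const_mul' _ _ hC1, lintegral_const_mul' _ _ hC2, mul_assoc, mul_assoc]

end Abs

variable (P H : Type) [Group P] [Group H] [TopologicalSpace P] [TopologicalSpace H]
  [IsTopologicalGroup P] [IsTopologicalGroup H] [LocallyCompactSpace P] [LocallyCompactSpace H]
  [T2Space P] [T2Space H] [SecondCountableTopology P] [SecondCountableTopology H]
  [MeasurableSpace P] [MeasurableSpace H] [BorelSpace P] [BorelSpace H]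

section Con

variable {P H}

/-- The probability measure. -/
private noncomputable def LX1_ρ (D : Dat P H) : Measure (P × H) := D.μ.withDensity D.χ

private theorem LX1_IM (D : Dat P H) (hD : D.Ok) (f : P × H → ℝ≥0∞) :
    D.IM f = ∫⁻ x, f x ∂(LX1_ρ D) := by
  unfold LX1_ρ Dat.IM
  rw [lintegral_withDensity_eq_lintegral_mul_non_measurable _ hD.χm]
  · rfl
  · exact Filter.Eventually.of_forall fun x => lt_of_le_of_lt (hD.χ1 x) ENNReal.one_lt_top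

private theorem LX1_prob (D : Dat P H) (hD : D.Ok) : IsProbabilityMeasure (LX1_ρ D) := by
  refine ⟨?_⟩
  have h := LX1_IM D hD (fun _ => 1)
  rw [lintegral_const, one_mul] at h
  rw [← h]
  unfold Dat.IM
  simp only [mul_one]
  exact hD.mass

private theorem LX1_O (D : Dat P H) (hD : D.Ok) (c : ℕ) : MeasurableSet (D.O ^ c) := by
  have hO : IsOpen D.O := isOpen_lt continuous_const hD.νc
  cases c with
  | zero =>
    rw [pow_zero, ← Set.singleton_one]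
    exact measurableSet_singleton _
  | succ n =>
    rw [pow_succ]
    exact hO.mul_left.measurableSet

private theorem LX1_fin (D : Dat P H) (hD : D.Ok) (C : ℝ≥0∞) (hC : C ≠ ∞)
    (T0 T1 T2 : P × H → D.Γ → ℝ≥0∞) (m1 : Measurable fun z => ∑' g, T1 z g)
    (h : ∀ z g, T0 z g ≤ C * (T1 z g + T2 z g)) :
    (D.IM fun z => ∑' g, T0 z g) ≤
      C * ((D.IM fun z => ∑' g, T1 z g) + D.IM fun z => ∑' g, T2 z g) := by
  rw [LX1_IM D hD, LX1_IM D hD, LX1_IM D hD, ← lintegral_add_left m1,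
    ← lintegral_const_mul' _ _ hC]
  refine lintegral_mono fun z => ?_
  rw [← ENNReal.tsum_add, ← ENNReal.tsum_mul_left]
  exact ENNReal.tsum_le_tsum fun g => h z g

private theorem LX1_km {D : Dat P H} {K : P × H → ℝ≥0∞} (hK : Measurable K) {Y : Type}
    [MeasurableSpace Y] {f g : Y → P × H} (hf : Measurable f) (hg : Measurable g) (u : D.Γ) :
    Measurable fun y => K ((f y)⁻¹ * (u : P × H) * g y) :=
  hK.comp ((hf.inv.mul_const _).mul hg)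

/-- Measurability in the end point. -/
private theorem LX1_zm (D : Dat P H) (hD : D.Ok) (hc : Countable D.Γ) {S : Set (P × H)}
    (hS : MeasurableSet S) {K₁ K₂ K₃ : P × H → ℝ≥0∞} (h₁ : Measurable K₁)
    (h₂ : Measurable K₂) (h₃ : Measurable K₃) (A : D.Γ → P × H → D.Γ → D.Γ → ℝ)
    (hA : ∀ g u v, Measurable fun x => A g x u v) :
    Measurable fun z => ∑' g : D.Γ, S.indicator (fun _ => (1 : ℝ≥0∞)) (z⁻¹ * (g : P × H) * z) *
      D.IM fun x => D.st3 K₁ K₂ K₃ x z fun u w v => ab (A g x u v - A g x w v) := by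
  have := LX1_prob D hD
  refine Measurable.tsum fun g => Measurable.mul ?_ ?_
  · exact (measurable_const.indicator hS).comp
      ((measurable_inv.mul_const _).mul measurable_id)
  · simp_rw [LX1_IM D hD]
    have hm : Measurable fun y : (P × H) × (P × H) => D.st3 K₁ K₂ K₃ y.2 y.1
        fun u w v => ab (A g y.2 u v - A g y.2 w v) := by
      unfold Dat.st3
      refine Measurable.tsum fun u => Measurable.tsum fun w => Measurable.tsum fun v => ?_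
      exact (((LX1_km h₁ measurable_snd measurable_fst u).mul
        (LX1_km h₂ measurable_snd measurable_fst w)).mul
        (LX1_km h₃ measurable_snd measurable_fst v)).mul
        (LX1_abm.comp (((hA g u v).comp measurable_snd).sub ((hA g w v).comp measurable_snd)))
    exact hm.lintegral_prod_right'

private theorem LX1_eg (hAD : S_AD P) (D : Dat P H) (hD : D.Ok) (G : PG P) (hG : G.Ok)
    {S S' K K' : Set P} (hS : S ⊆ S') (hK : K ⊆ K') {R R' : ℕ} (hR : R ≤ R') (n : ℕ)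
    (g : P × H) : D.eg G S K R n g ≤ D.eg G S' K' R' n g := by
  have := hD.haar₁
  have := hD.right₁
  have := hD.inv₁
  change eP D.μ₁ G S K R n g.1 * D.nu n g.2 ≤ eP D.μ₁ G S' K' R' n g.1 * D.nu n g.2
  exact mul_le_mul_left ((hAD G D.μ₁ hG).1 _ _ _ _ R R' n hS hK hR g.1) _

/-- Neighbourhoods for positive pairs. -/
private theorem LX1_pos (G : PG P) (hG : G.Ok) (x y g : P) (h : G.Pos (g⁻¹ * x) y) :
    ∃ V ∈ 𝓝 (1 : P), ∀ a ∈ V, ∀ b ∈ V, ∀ d ∈ V, G.Pos ((d * g)⁻¹ * (a * x)) (b * y) := by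
  have hcont : Continuous fun q : P × (P × P) =>
      ((q.2.2 * g)⁻¹ * (q.1 * x), q.2.1 * y) := by fun_prop
  have hn : (fun q : P × (P × P) => ((q.2.2 * g)⁻¹ * (q.1 * x), q.2.1 * y)) ⁻¹'
        {q : P × P | G.Pos q.1 q.2} ∈ 𝓝 ((1 : P), ((1 : P), (1 : P))) := by
    apply (hG.Po.preimage hcont).mem_nhds
    change G.Pos ((1 * g)⁻¹ * (1 * x)) (1 * y)
    rw [one_mul, one_mul, one_mul]
    exact h
  rw [nhds_prod_eq, nhds_prod_eq] at hn
  obtain ⟨A, hA, B, hB, hAB⟩ := Filter.mem_prod_iff.1 hn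
  obtain ⟨B1, hB1, B2, hB2, hB12⟩ := Filter.mem_prod_iff.1 hB
  refine ⟨A ∩ (B1 ∩ B2), Filter.inter_mem hA (Filter.inter_mem hB1 hB2),
    fun a ha b hb d hd => ?_⟩
  exact hAB (Set.mk_mem_prod ha.1 (hB12 (Set.mk_mem_prod hb.2.1 hd.2.2)))

private theorem LX1_pos0 (G : PG P) (hG : G.Ok) (x y : P) (h : G.Pos x y) :
    ∃ V ∈ 𝓝 (1 : P), ∀ U : Set P, U ⊆ V → ∀ a ∈ U * {x}, ∀ b ∈ U * {y}, G.Pos a b := by
  obtain ⟨V, hV, hT⟩ := LX1_pos G hG x y 1 (by rw [inv_one, one_mul]; exact h)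
  refine ⟨V, hV, ?_⟩
  rintro U hU _ ⟨a, ha, _, rfl, rfl⟩ _ ⟨b, hb, _, rfl, rfl⟩
  have h1 := hT a (hU ha) b (hU hb) 1 (mem_of_mem_nhds hV)
  rw [one_mul, inv_one, one_mul] at h1
  exact h1

private theorem LX1_mem (U : Set P) (hU : U ∈ 𝓝 (1 : P)) (s : P) : U * {s} ∈ 𝓝 s := by
  rw [Set.mul_singleton]
  have h := (Homeomorph.mulRight s).isOpenMap.image_mem_nhds hU
  change (fun x => x * s) '' U ∈ 𝓝 (1 * s) at h
  rw [one_mul] at h
  exact h

private theorem LX1_itr (U U' : Set P) (hU : U ⊆ interior U') (s : P) :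
    U * {s} ⊆ interior (U' * {s}) := by
  refine (Set.mul_subset_mul_right hU).trans ?_
  exact interior_maximal (Set.mul_subset_mul_right interior_subset)
    (isOpen_interior.mul_right)

/-- The estimate for one range and one set of lengths. -/
private theorem LX1_est (hAD : S_AD P) (hegm : S_egm P H) (D : Dat P H) (G : PG P)
    (hF : Fc D G) (gc : P) (c : ℕ) (s t s' t' k l k' l' : P) (U U₁ U₂ : Set P)
    (hUc : IsCompact U) (hU₁ : IsCompact U₁) (h1 : U ⊆ U₁)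
    (h2 : U ⊆ U₂) (_h1U : (1 : P) ∈ U) (R R₁ R₂ R' b : ℕ) (hR1 : R₁ ≤ R') (hR2 : R₂ ≤ R')
    (hR : R ≤ R')
    (c0 Cu C1 C2 : ℝ≥0∞) (hc0 : 0 < c0) (hCu : Cu ≠ ∞) (hC1 : C1 ≠ ∞) (hC2 : C2 ≠ ∞)
    (i : Fin 4 → ℕ)
    (hlo : ∀ x x', c0 ≤ D.N (D.eg G (U * {s}) (U * {t'}) 0 b) x x')
    (hu1 : ∀ x z, D.N (D.eg G (U * {s}) (U * {k}) R (i 0)) x z ≤ Cu)
    (hu4 : ∀ x z, D.N (D.eg G (U * {t'}) (U * {l'}) R (i 3)) x z ≤ Cu)
    (hm1 : ∀ (F : D.Γ → ℝ≥0∞) (x z : P × H),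
        (D.IM fun x' => ∑' χ : D.Γ, ∑' u : D.Γ,
          D.eg G (U * {s}) (U * {t'}) 0 b (x⁻¹ * (χ : P × H) * x') *
          D.eg G (U * {s'}) (U * {k'}) R (i 2) (x'⁻¹ * (u : P × H) * z) * F (χ * u)) ≤
        C1 * ∑' u : D.Γ, D.eg G (U₁ * {s}) (U₁ * {k'}) R₁ (b + i 2)
          (x⁻¹ * (u : P × H) * z) * F u)
    (hm2 : ∀ (F : D.Γ → ℝ≥0∞) (x' z : P × H),
        (D.IM fun x => ∑' χ : D.Γ, ∑' v : D.Γ,
          D.eg G (U * {s}) (U * {t'}) 0 b (x⁻¹ * (χ : P × H) * x') *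
          D.eg G (U * {t}) (U * {l}) R (i 1) (x⁻¹ * (v : P × H) * z) * F (χ⁻¹ * v)) ≤
        C2 * ∑' V : D.Γ, D.eg G (U₂ * {t'}) (U₂ * {l}) R₂ (b + i 1)
          (x'⁻¹ * (V : P × H) * z) * F V)
    (φ : D.Γ → P → ℝ) (hφ : Adm D G φ)
    (hid : ∀ (x x' z : P × H) (χ g u v : D.Γ),
      D.eg G (U * {s}) (U * {t'}) 0 b (x⁻¹ * (χ : P × H) * x') ≠ 0 →
      D.eg G (U * {s'}) (U * {k'}) R (i 2) (x'⁻¹ * (u : P × H) * z) ≠ 0 →
      D.eg G (U * {t}) (U * {l}) R (i 1) (x⁻¹ * (v : P × H) * z) ≠ 0 →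
      (z⁻¹ * (g : P × H) * z).1 ∈ U * {gc} →
      Dg G φ s x g (χ * u) v = Dg G φ s' x' g u (χ⁻¹ * v)) :
    FX D G (U * {gc}) c (wn U s k) (wn U t l) (wn U s' k') (wn U t' l') R i φ ≤
      ((min c0 1)⁻¹ * (Cu * C1 + Cu * C2)) *
        (FB D G (U₁ * {gc}) c (wn U₁ s k) (wn U₁ s k') (wn U₁ t l) R' ![i 0, b + i 2, i 1] φ +
          FA D G (U₂ * {gc}) c (wn U₂ s' k') (wn U₂ t' l) (wn U₂ t' l') R'
            ![i 2, b + i 1, i 3] φ) := by
  obtain ⟨_, _, _, hcount, _⟩ := tinst P H D hF.ok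
  have hD := hF.ok
  have hG := hF.gok
  have := LX1_prob D hD
  obtain ⟨g1, _, g3, _⟩ := hegm D G hD hG
  have hmin0 : min c0 1 ≠ 0 := (lt_min hc0 one_pos).ne'
  have hmint : min c0 1 ≠ ∞ := ne_top_of_le_ne_top ENNReal.one_ne_top (min_le_right _ _)
  have hCC : (min c0 1)⁻¹ * (Cu * C1 + Cu * C2) ≠ ∞ :=
    ENNReal.mul_ne_top (ENNReal.inv_ne_top.2 hmin0) (ENNReal.add_ne_top.2
      ⟨ENNReal.mul_ne_top hCu hC1, ENNReal.mul_ne_top hCu hC2⟩)
  have cU : ∀ x : P, IsCompact (U * {x}) := fun x => hUc.mul isCompact_singleton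
  have cU₁ : ∀ x : P, IsCompact (U₁ * {x}) := fun x => hU₁.mul isCompact_singleton
  have mk : ∀ (x y : P) (R n : ℕ), Measurable (D.eg G (U * {x}) (U * {y}) R n) :=
    fun x y R n => g1 _ _ (cU x) (cU y) R n
  have mk₁ : ∀ (x y : P) (R n : ℕ), Measurable (D.eg G (U₁ * {x}) (U₁ * {y}) R n) :=
    fun x y R n => g1 _ _ (cU₁ x) (cU₁ y) R n
  have hS₁ : MeasurableSet ((U₁ * {gc}) ×ˢ (D.O ^ c)) :=
    (cU₁ gc).isClosed.measurableSet.prod (LX1_O D hD c)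
  refine LX1_fin D hD _ hCC _ _ _ (LX1_zm D hD hcount hS₁ (mk₁ _ _ _ _) (mk₁ _ _ _ _)
    (mk₁ _ _ _ _) (fun g x u v => Dg G φ s x g u v) (fun g u v => g3 φ hφ _ g u v)) ?_
  intro z g
  by_cases hg : z⁻¹ * (g : P × H) * z ∈ (U * {gc}) ×ˢ (D.O ^ c)
  swap
  · rw [Set.indicator_of_notMem hg, zero_mul]
    exact zero_le
  have hg1 : z⁻¹ * (g : P × H) * z ∈ (U₁ * {gc}) ×ˢ (D.O ^ c) :=
    Set.prod_mono (Set.mul_subset_mul_right h1) subset_rfl hg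
  have hg2 : z⁻¹ * (g : P × H) * z ∈ (U₂ * {gc}) ×ˢ (D.O ^ c) :=
    Set.prod_mono (Set.mul_subset_mul_right h2) subset_rfl hg
  rw [Set.indicator_of_mem hg, Set.indicator_of_mem hg1, Set.indicator_of_mem hg2, one_mul,
    one_mul, one_mul]
  have key := LX1_abs (LX1_ρ D)
    (fun x x' (χ : D.Γ) => D.eg G (U * {s}) (U * {t'}) 0 b (x⁻¹ * (χ : P × H) * x'))
    (fun x (u : D.Γ) => D.eg G (U * {s}) (U * {k}) R (i 0) (x⁻¹ * (u : P × H) * z))
    (fun x (u : D.Γ) => D.eg G (U * {t}) (U * {l}) R (i 1) (x⁻¹ * (u : P × H) * z))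
    (fun x (u : D.Γ) => D.eg G (U * {s'}) (U * {k'}) R (i 2) (x⁻¹ * (u : P × H) * z))
    (fun x (u : D.Γ) => D.eg G (U * {t'}) (U * {l'}) R (i 3) (x⁻¹ * (u : P × H) * z))
    (fun x (u : D.Γ) => D.eg G (U₁ * {s}) (U₁ * {k'}) R₁ (b + i 2) (x⁻¹ * (u : P × H) * z))
    (fun x (u : D.Γ) => D.eg G (U₂ * {t'}) (U₂ * {l}) R₂ (b + i 1) (x⁻¹ * (u : P × H) * z))
    (fun x u v => Dg G φ s x g u v) (fun x u v => Dg G φ s' x g u v)
    (min c0 1) Cu C1 C2 hCu hC1 hC2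
    (fun χ => LX1_km (mk _ _ _ _) measurable_fst measurable_snd χ)
    (fun u => LX1_km (mk _ _ _ _) measurable_id measurable_const u)
    (fun u => LX1_km (mk _ _ _ _) measurable_id measurable_const u)
    (fun u => LX1_km (mk _ _ _ _) measurable_id measurable_const u)
    (fun u => LX1_km (mk _ _ _ _) measurable_id measurable_const u)
    (fun u v => g3 φ hφ _ g u v) (fun u v => g3 φ hφ _ g u v)
    (fun x x' => (min_le_left _ _).trans (hlo x x')) (fun x => hu1 x z) (fun x => hu4 x z)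
    (fun x x' χ u' v e1 e2 e3 => hid x x' z χ g u' v e1 e2 e3 hg.1)
    (fun x F => by
      have h := hm1 F x z
      rw [LX1_IM D hD] at h
      exact h)
    (fun x' F => by
      have h := hm2 F x' z
      rw [LX1_IM D hD] at h
      exact h)
  have e0 : (D.IM fun x => D.IM fun x' =>
      D.st2 (D.ke G (wn U s k) R (i 0)) (D.ke G (wn U t l) R (i 1)) x z fun u v =>
        D.st2 (D.ke G (wn U s' k') R (i 2)) (D.ke G (wn U t' l') R (i 3)) x' z fun u' v' =>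
          ab (Dg G φ s x g u v - Dg G φ s' x' g u' v')) =
      ∫⁻ x, ∫⁻ x', ∑' u : D.Γ, ∑' v : D.Γ,
        D.eg G (U * {s}) (U * {k}) R (i 0) (x⁻¹ * (u : P × H) * z) *
        D.eg G (U * {t}) (U * {l}) R (i 1) (x⁻¹ * (v : P × H) * z) *
        ∑' u' : D.Γ, ∑' v' : D.Γ,
          D.eg G (U * {s'}) (U * {k'}) R (i 2) (x'⁻¹ * (u' : P × H) * z) *
          D.eg G (U * {t'}) (U * {l'}) R (i 3) (x'⁻¹ * (v' : P × H) * z) *
            ab (Dg G φ s x g u v - Dg G φ s' x' g u' v') ∂(LX1_ρ D) ∂(LX1_ρ D) :=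
    (LX1_IM D hD _).trans (lintegral_congr fun x => LX1_IM D hD _)
  have m1 : (∫⁻ x, ∑' u : D.Γ, ∑' w : D.Γ, ∑' v : D.Γ,
        D.eg G (U * {s}) (U * {k}) R (i 0) (x⁻¹ * (u : P × H) * z) *
        D.eg G (U₁ * {s}) (U₁ * {k'}) R₁ (b + i 2) (x⁻¹ * (w : P × H) * z) *
        D.eg G (U * {t}) (U * {l}) R (i 1) (x⁻¹ * (v : P × H) * z) *
        ab (Dg G φ s x g u v - Dg G φ s x g w v) ∂(LX1_ρ D)) ≤
      D.IM fun x => D.st3 (D.ke G (wn U₁ s k) R' (i 0)) (D.ke G (wn U₁ s k') R' (b + i 2))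
        (D.ke G (wn U₁ t l) R' (i 1)) x z fun u w v =>
          ab (Dg G φ s x g u v - Dg G φ s x g w v) := by
    rw [LX1_IM D hD]
    refine lintegral_mono fun x => ENNReal.tsum_le_tsum fun u => ENNReal.tsum_le_tsum fun w =>
      ENNReal.tsum_le_tsum fun v => mul_le_mul_left (mul_le_mul' (mul_le_mul' ?_ ?_) ?_) _
    · exact LX1_eg hAD D hD G hG (Set.mul_subset_mul_right h1) (Set.mul_subset_mul_right h1)
        hR _ _
    · exact LX1_eg hAD D hD G hG subset_rfl subset_rfl hR1 _ _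
    · exact LX1_eg hAD D hD G hG (Set.mul_subset_mul_right h1) (Set.mul_subset_mul_right h1)
        hR _ _
  have m2 : (∫⁻ x, ∑' u : D.Γ, ∑' w : D.Γ, ∑' v : D.Γ,
        D.eg G (U * {s'}) (U * {k'}) R (i 2) (x⁻¹ * (u : P × H) * z) *
        D.eg G (U₂ * {t'}) (U₂ * {l}) R₂ (b + i 1) (x⁻¹ * (w : P × H) * z) *
        D.eg G (U * {t'}) (U * {l'}) R (i 3) (x⁻¹ * (v : P × H) * z) *
        ab (Dg G φ s' x g u w - Dg G φ s' x g u v) ∂(LX1_ρ D)) ≤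
      D.IM fun x => D.st3 (D.ke G (wn U₂ s' k') R' (i 2)) (D.ke G (wn U₂ t' l) R' (b + i 1))
        (D.ke G (wn U₂ t' l') R' (i 3)) x z fun u w v =>
          ab (Dg G φ s' x g u w - Dg G φ s' x g u v) := by
    rw [LX1_IM D hD]
    refine lintegral_mono fun x => ENNReal.tsum_le_tsum fun u => ENNReal.tsum_le_tsum fun w =>
      ENNReal.tsum_le_tsum fun v => mul_le_mul_left (mul_le_mul' (mul_le_mul' ?_ ?_) ?_) _
    · exact LX1_eg hAD D hD G hG (Set.mul_subset_mul_right h2) (Set.mul_subset_mul_right h2)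
        hR _ _
    · exact LX1_eg hAD D hD G hG subset_rfl subset_rfl hR2 _ _
    · exact LX1_eg hAD D hD G hG (Set.mul_subset_mul_right h2) (Set.mul_subset_mul_right h2)
        hR _ _
  have h3 : (min c0 1)⁻¹ * (min c0 1) = 1 := ENNReal.inv_mul_cancel hmin0 hmint
  have hh : ∀ a b : ℝ≥0∞, min c0 1 * a ≤ b → a ≤ (min c0 1)⁻¹ * b := fun a b hab => by
    calc a = (min c0 1)⁻¹ * (min c0 1 * a) := by rw [← mul_assoc, h3, one_mul]
      _ ≤ _ := mul_le_mul' le_rfl hab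
  rw [mul_assoc]
  refine (le_of_eq e0).trans (hh _ _ (key.trans ?_))
  rw [mul_add]
  exact add_le_add (mul_le_mul' le_self_add m1) (mul_le_mul' le_add_self m2)

end Con

theorem tLX1 : S_AA P H → S_BB P H → S_LX0 P H → S_mrg P H → S_CTs P H → S_ton P H →
    S_egm P H → S_AD P → S_NB P → S_LX1 P H := by
  intro hAA hBB hLX0 hmrg hCTs _hton hegm hAD _hNB D G hF gc c s t s' t' k l k' l' a b hst hst'
    x1 x2 x3 x4 x5 x6 x7 x8
  have hD := hF.ok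
  have hG := hF.gok
  obtain ⟨U₁, hU₁, hU₁c, B1⟩ := hBB D G hF gc c s s t k k' l a hst hst x1 x2 x3 x4
  obtain ⟨U₂, hU₂, hU₂c, A2⟩ := hAA D G hF gc c s' t' t' k' l l' b hst' hst' x5 x6 x7 x8
  have p1 : G.Pos t' s' := (hG.Ps _ _).1 hst'
  have p3 : G.Pos k' l := by
    rw [hG.Ps]
    exact hG.TP _ _ _ (hG.Tc _ _ _ x5)
  have p4 : G.Pos (gc⁻¹ * k') l := by
    rw [hG.Ps]
    exact hG.TP _ _ _ (hG.Tc _ _ _ x6)
  obtain ⟨V1, hV1, W1⟩ := LX1_pos0 G hG t' s' p1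
  obtain ⟨V2, hV2, W2⟩ := LX1_pos0 G hG s t hst
  obtain ⟨V3, hV3, W3⟩ := LX1_pos0 G hG k' l p3
  obtain ⟨V4, hV4, W4⟩ := LX1_pos G hG k' l gc p4
  obtain ⟨U, hU, hUV, hUc⟩ := local_compact_nhds (Filter.inter_mem
    (Filter.inter_mem (interior_mem_nhds.2 hU₁) (interior_mem_nhds.2 hU₂))
    (Filter.inter_mem (Filter.inter_mem hV1 hV2) (Filter.inter_mem hV3 hV4)))
  have hU1 : (1 : P) ∈ U := mem_of_mem_nhds hU
  have i1 : U ⊆ interior U₁ := fun x hx => (hUV hx).1.1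
  have i2 : U ⊆ interior U₂ := fun x hx => (hUV hx).1.2
  have q1 := W1 U fun x hx => (hUV hx).2.1.1
  have q2 := W2 U fun x hx => (hUV hx).2.1.2
  have q3 := W3 U fun x hx => (hUV hx).2.2.1
  have q4 : ∀ κ ∈ U * {k'}, ∀ κ' ∈ U * {l}, ∀ g ∈ U * {gc}, G.Pos (g⁻¹ * κ) κ' := by
    rintro _ ⟨a, ha, _, rfl, rfl⟩ _ ⟨b, hb, _, rfl, rfl⟩ _ ⟨d, hd, _, rfl, rfl⟩
    exact W4 a (hUV ha).2.2.2 b (hUV hb).2.2.2 d (hUV hd).2.2.2
  have cU : ∀ x : P, IsCompact (U * {x}) := fun x => hUc.mul isCompact_singleton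
  obtain ⟨c₁, M1⟩ := (hmrg D G hD hG hF.gf (U * {s}) (U * {t'}) (U * {s'}) (U * {k'}) (cU _)
    (cU _) (cU _) (cU _)).1 (U₁ * {s}) (U₁ * {k'}) (LX1_itr U U₁ i1 s) (LX1_itr U U₁ i1 k') q1
  obtain ⟨c₂, M2⟩ := (hmrg D G hD hG hF.gf (U * {s}) (U * {t'}) (U * {t}) (U * {l}) (cU _)
    (cU _) (cU _) (cU _)).2 (U₂ * {t'}) (U₂ * {l}) (LX1_itr U U₂ i2 t') (LX1_itr U U₂ i2 l) q2
  refine ⟨U, hU, hUc, ?_⟩
  have hanti : ∀ (m : ℕ) (T T' r : ℕ) (i : Fin m → ℕ), T ≤ T' → okL m T' r i → okL m T r i :=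
    fun m T T' r i hTT hi j => ⟨(hi j).1, (Nat.add_le_add_left hTT _).trans (hi j).2⟩
  refine hCTs D G hD hG 0 Bool (fun _ => Fin 3 → ℕ) (fun _ => okL 3)
    (fun j => cond j
      (FB D G (U₁ * {gc}) c (wn U₁ s k) (wn U₁ s k') (wn U₁ t l))
      (FA D G (U₂ * {gc}) c (wn U₂ s' k') (wn U₂ t' l) (wn U₂ t' l')))
    (Fin 4 → ℕ) (okL 4) _ (c₁ + c₂) (fun _ => hanti 3) ?_ (hanti 4) ?_
  · intro j
    cases j
    · exact A2
    · exact B1
  · intro R T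
    obtain ⟨T₁, c0, hc0, hlo⟩ := hF.lo s t' (U * {s}) (LX1_mem U hU s) (U * {t'})
      (LX1_mem U hU t')
    obtain ⟨C1, T₂, hC1, N1⟩ := M1 R
    obtain ⟨C2, T₃, hC2, N2⟩ := M2 R
    obtain ⟨T₄, N3⟩ := hLX0 D G hF (U * {gc}) (U * {s}) (U * {t'}) (U * {s'}) (U * {k'})
      (U * {t}) (U * {l}) (cU _) (cU _) (cU _) (cU _) (cU _) (cU _) (cU _) q1 q2
      (fun κ hκ κ' hκ' => ⟨q3 κ hκ κ' hκ', fun g hg => q4 κ hκ κ' hκ' g hg⟩) R
    obtain ⟨Ca, hCa, Na⟩ := hF.up (U * {s}) (U * {k}) (cU _) (cU _) R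
    obtain ⟨Cb, hCb, Nb⟩ := hF.up (U * {t'}) (U * {l'}) (cU _) (cU _) R
    have hCab : Ca + Cb ≠ ∞ := ENNReal.add_ne_top.2 ⟨hCa, hCb⟩
    refine ⟨(min c0 1)⁻¹ * ((Ca + Cb) * C1 + (Ca + Cb) * C2), T₁ + T₂ + T₃ + T₄ + T,
      ENNReal.mul_ne_top (ENNReal.inv_ne_top.2 (lt_min hc0 one_pos).ne')
        (ENNReal.add_ne_top.2 ⟨ENNReal.mul_ne_top hCab hC1, ENNReal.mul_ne_top hCab hC2⟩),
      fun r hr i' hi' => ?_⟩
    have hi : ∀ j, r ≤ i' j ∧ i' j + (T₁ + T₂ + T₃ + T₄ + T) ≤ 4 * r := fun j => hi' j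
    have hsh : ∀ j, RG T r (T₁ + T₂ + T₃ + T₄ + i' j) := by
      intro j
      have := hi j
      unfold RG
      omega
    have hnn : ∀ j, RG T r (i' j) := by
      intro j
      have := hi j
      unfold RG
      omega
    refine ⟨fun j => cond j ![i' 0, T₁ + T₂ + T₃ + T₄ + i' 2, i' 1]
      ![i' 2, T₁ + T₂ + T₃ + T₄ + i' 1, i' 3], ?_, ?_⟩
    · intro j
      cases j
      · intro m
        fin_cases m
        · exact hnn 2
        · exact hsh 1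
        · exact hnn 3
      · intro m
        fin_cases m
        · exact hnn 0
        · exact hsh 2
        · exact hnn 1
    · intro φ hφ
      have hj1 := hi 1
      have hj2 := hi 2
      rw [Fintype.sum_bool]
      refine LX1_est hAD hegm D G hF gc c s t s' t' k l k' l' U U₁ U₂ hUc hU₁c
        (i1.trans interior_subset) (i2.trans interior_subset) hU1 R (R + c₁) (R + c₂)
        (R + (c₁ + c₂)) (T₁ + T₂ + T₃ + T₄) (by omega) (by omega) (by omega) c0 (Ca + Cb) C1 C2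
        hc0 hCab hC1 hC2 i' (fun x x' => hlo 0 _ (by omega) x x')
        (fun x z => (Na _ x z).trans le_self_add) (fun x z => (Nb _ x z).trans le_add_self)
        (fun F x z => N1 _ _ (by omega) (by omega) F x z)
        (fun F x z => N2 _ _ (by omega) (by omega) F x z) φ hφ ?_
      intro x x' z χ g u v e1 e2 e3 hg
      exact N3 _ _ _ (by omega) (by omega) (by omega) x x' z χ g u v e1 e2 e3 hg φ hφ s
        ⟨1, hU1, s, rfl, one_mul s⟩ s' ⟨1, hU1, s', rfl, one_mul s'⟩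

end Pool.Agent.MPEF.U
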