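import Pool.Agent.Lib.MP_ef3f0f_gt.U.E.SpecA

set_option autoImplicit false
set_option linter.unusedSectionVars false

/-! MP_ef3f0f_gt, Theorem U, Part E, module Loc: local constancy. -/

namespace Pool.Agent.MPEF.U

open MeasureTheory Topology
open scoped ENNReal Pointwise

variable (P H : Type) [Group P] [Group H] [TopologicalSpace P] [TopologicalSpace H]
  [IsTopologicalGroup P] [IsTopologicalGroup H] [LocallyCompactSpace P] [LocallyCompactSpace H]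
  [T2Space P] [T2Space H] [SecondCountableTopology P] [SecondCountableTopology H]
  [MeasurableSpace P] [MeasurableSpace H] [BorelSpace P] [BorelSpace H]

variable {P} in
private theorem Loc_a {G : PG P} (hG : G.Ok) {gc k l : P} (h1 : G.Pos k l)
    (h2 : G.Pos (gc⁻¹ * k) l) : ∃ a : P, G.Tri l a k ∧ G.Tri l (gc⁻¹ * a) (gc⁻¹ * k) := by
  have hC : IsCompact ({k⁻¹ * l, k⁻¹ * (gc * l)} : Set P) := (Set.toFinite _).isCompact
  have hp : ∀ κ ∈ ({k⁻¹ * l, k⁻¹ * (gc * l)} : Set P), G.Pos 1 κ := by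
    rintro κ (rfl | rfl)
    · rw [← hG.Pl k, mul_one, mul_inv_cancel_left]
      exact h1
    · rw [← hG.Pl k, mul_one, mul_inv_cancel_left, ← hG.Pl gc⁻¹, inv_mul_cancel_left]
      exact h2
  obtain ⟨c, hc⟩ := hG.NT _ hC hp
  have h3 := hc _ (Set.mem_insert _ _)
  have h4 := hc _ (Set.mem_insert_of_mem _ (Set.mem_singleton _))
  rw [← hG.Tl k, mul_one, mul_inv_cancel_left] at h3 h4
  refine ⟨k * c, hG.Tc _ _ _ (hG.Tc _ _ _ h3), ?_⟩
  have h5 := hG.Tc _ _ _ (hG.Tc _ _ _ h4)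
  rwa [← hG.Tl gc⁻¹, inv_mul_cancel_left] at h5

variable {P} in
private theorem Loc_b {G : PG P} (hG : G.Ok) {gc k l : P} (h1 : G.Pos k l)
    (h2 : G.Pos (gc⁻¹ * k) l) : ∃ b : P, G.Tri b l k ∧ G.Tri b l (gc⁻¹ * k) := by
  have hC : IsCompact ({l⁻¹ * k, l⁻¹ * (gc⁻¹ * k)} : Set P) := (Set.toFinite _).isCompact
  have hp : ∀ κ ∈ ({l⁻¹ * k, l⁻¹ * (gc⁻¹ * k)} : Set P), G.Pos 1 κ := by
    rintro κ (rfl | rfl)
    · rw [← hG.Pl l, mul_one, mul_inv_cancel_left, hG.Ps]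
      exact h1
    · rw [← hG.Pl l, mul_one, mul_inv_cancel_left, hG.Ps]
      exact h2
  obtain ⟨c, hc⟩ := hG.NT _ hC hp
  have h3 := hc _ (Set.mem_insert _ _)
  have h4 := hc _ (Set.mem_insert_of_mem _ (Set.mem_singleton _))
  rw [← hG.Tl l, mul_one, mul_inv_cancel_left] at h3 h4
  exact ⟨l * c, h3, h4⟩

theorem tLoc : S_LX1 P H → S_Loc P H := by
  intro hLX D G hF gc c k l hkl hgl
  have hG := hF.gok
  obtain ⟨a, ha1, ha2⟩ := Loc_a hG hkl hgl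
  obtain ⟨b, hb1, hb2⟩ := Loc_b hG hkl hgl
  have o1 : IsOpen {p : P × P | G.Tri l a p.1} :=
    hG.To.preimage (f := fun p : P × P => (l, a, p.1)) (by fun_prop)
  have o2 : IsOpen {p : P × P | G.Tri l (gc⁻¹ * a) (gc⁻¹ * p.1)} :=
    hG.To.preimage (f := fun p : P × P => (l, gc⁻¹ * a, gc⁻¹ * p.1)) (by fun_prop)
  have o3 : IsOpen {p : P × P | G.Tri b l p.1} :=
    hG.To.preimage (f := fun p : P × P => (b, l, p.1)) (by fun_prop)
  have o4 : IsOpen {p : P × P | G.Tri b l (gc⁻¹ * p.1)} :=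
    hG.To.preimage (f := fun p : P × P => (b, l, gc⁻¹ * p.1)) (by fun_prop)
  have o5 : IsOpen {p : P × P | G.Tri b p.2 p.1} :=
    hG.To.preimage (f := fun p : P × P => (b, p.2, p.1)) (by fun_prop)
  have o6 : IsOpen {p : P × P | G.Tri b p.2 (gc⁻¹ * p.1)} :=
    hG.To.preimage (f := fun p : P × P => (b, p.2, gc⁻¹ * p.1)) (by fun_prop)
  have ho := ((((o1.inter o2).inter o3).inter o4).inter o5).inter o6
  have hm : (k, l) ∈ ((((({p : P × P | G.Tri l a p.1} ∩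
      {p : P × P | G.Tri l (gc⁻¹ * a) (gc⁻¹ * p.1)}) ∩ {p : P × P | G.Tri b l p.1}) ∩
      {p : P × P | G.Tri b l (gc⁻¹ * p.1)}) ∩ {p : P × P | G.Tri b p.2 p.1}) ∩
      {p : P × P | G.Tri b p.2 (gc⁻¹ * p.1)}) := ⟨⟨⟨⟨⟨ha1, ha2⟩, hb1⟩, hb2⟩, hb1⟩, hb2⟩
  obtain ⟨W, hW, W', hW', hWW⟩ := mem_nhds_prod_iff.1 (ho.mem_nhds hm)
  refine ⟨W, hW, W', hW', fun k' hk' l' hl' => ?_⟩
  obtain ⟨⟨⟨⟨⟨c1, c2⟩, c3⟩, c4⟩, c5⟩, c6⟩ := hWW (Set.mk_mem_prod hk' hl')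
  intro s t s' t' hst hst'
  exact hLX D G hF gc c s t s' t' k l k' l' a b hst hst' ha1 ha2 c1 c2 c3 c4 c5 c6

end Pool.Agent.MPEF.U
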