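import Pool.Agent.Lib.MP_ef3f0f_gt.U.E.SpecB

set_option autoImplicit false

/-!
# MP_ef3f0f_gt, Theorem U, Part E: one step is controlled
-/

namespace Pool.Agent.MPEF.U

open MeasureTheory Topology
open scoped ENNReal Pointwise

section Aux

private theorem Q1_iK {X : Type} {S S' : Set X} (h : S ⊆ S') (g : X) : iK S g ≤ iK S' g :=
  Set.indicator_le_indicator_of_subset h (fun _ => zero_le) g

variable {P H : Type} [Group P] [Group H] [MeasurableSpace P] [MeasurableSpace H]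

private theorem Q1_eg (D : Dat P H) (G : PG P) {S S' K K' : Set P} (hS : S ⊆ S') (hK : K ⊆ K')
    (R n : ℕ) (g : P × H) : D.eg G S K R n g ≤ D.eg G S' K' R n g := by
  refine mul_le_mul' ?_ le_rfl
  refine lintegral_mono fun q => ?_
  refine mul_le_mul' (Q1_iK (Set.mul_subset_mul_right hS) q) (Q1_iK ?_ _)
  intro q hq
  exact hK hq

private theorem Q1_IM (D : Dat P H) {f g : P × H → ℝ≥0∞} (h : ∀ x, f x ≤ g x) :
    D.IM f ≤ D.IM g :=
  lintegral_mono fun x => mul_le_mul' le_rfl (h x)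

private theorem Q1_F5 (D : Dat P H) (G : PG P) {U U' : Set P} (h : U ⊆ U') (s t R n m : ℕ)
    (f : P × H → P × H → P × H → D.Γ → D.Γ → D.Γ → D.Γ → D.Γ → ℝ≥0∞) :
    F5 D G U s t R n m f ≤ F5 D G U' s t R n m f := by
  have huw : G.uw U ⊆ G.uw U' := Set.mul_subset_mul_right h
  unfold F5
  refine Q1_IM D fun x' => Q1_IM D fun x => Q1_IM D fun y => ?_
  refine ENNReal.tsum_le_tsum fun V₁ => ENNReal.tsum_le_tsum fun V₂ =>
    ENNReal.tsum_le_tsum fun c => ENNReal.tsum_le_tsum fun c' => ENNReal.tsum_le_tsum fun γ => ?_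
  exact mul_le_mul' (mul_le_mul' (mul_le_mul' (mul_le_mul' (mul_le_mul' (Q1_eg D G huw huw R n _)
    (Q1_eg D G h h R m _)) (Q1_eg D G h huw 0 s _)) (Q1_eg D G h huw 0 s _))
    (Q1_eg D G h huw 0 t _)) le_rfl

private theorem Q1_ok (k T T' r : ℕ) (i : Fin k → ℕ) (h : T ≤ T') (hi : okL k T' r i) :
    okL k T r i := fun j => ⟨(hi j).1, by have := (hi j).2; omega⟩

end Aux

variable (P H : Type) [Group P] [Group H] [TopologicalSpace P] [TopologicalSpace H]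
  [IsTopologicalGroup P] [IsTopologicalGroup H] [LocallyCompactSpace P] [LocallyCompactSpace H]
  [T2Space P] [T2Space H] [SecondCountableTopology P] [SecondCountableTopology H]
  [MeasurableSpace P] [MeasurableSpace H] [BorelSpace P] [BorelSpace H]

theorem tQ1 : S_INS P H → S_Q1a P H → S_Q1b P H → S_Q1c P H → S_CTs P H → S_Q1 P H := by
  intro hINS hQ1a hQ1b hQ1c hCTs D G hFc
  obtain ⟨U₀, hU₀, -, s₁, hs₁⟩ := hINS D G hFc
  obtain ⟨Ub, hUb, -, hb⟩ := hQ1b D G hFc U₀ hU₀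
  obtain ⟨Uc, hUc, -, hc⟩ := hQ1c D G hFc U₀ hU₀
  obtain ⟨U', hU', hU'c, s₀, ha⟩ := hQ1a D G hFc (Ub ∩ Uc) (Filter.inter_mem hUb hUc)
  refine ⟨U', hU', hU'c, s₀, fun s hs => ?_⟩
  set t : ℕ := max s₀ (max s₁ 1) with ht
  have ht0 : s₀ ≤ t := le_max_left _ _
  have ht1 : s₁ ≤ t := (le_max_left _ _).trans (le_max_right _ _)
  have ht2 : 1 ≤ t := (le_max_right _ _).trans (le_max_right _ _)
  obtain ⟨hF1, hF2⟩ := hs₁ (s + 1 + t) (by omega) (s + 1 + t)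
  let F : Bool → ℕ → (Fin 2 → ℕ) → (D.Γ → P → ℝ) → ℝ≥0∞ := fun j =>
    match j with
    | true => FE D G (U₀ * {G.a ^ (s + 1 + t)} * U₀) (s + 1 + t) ⟨G.w, G.uw U₀, G.uw U₀⟩
        ⟨1, U₀, U₀⟩
    | false => FE D G (U₀ * {G.a ^ (s + 1 + t)} * U₀) (s + 1 + t) ⟨1, U₀, G.uw U₀⟩
        ⟨G.w, G.uw U₀, U₀⟩
  refine hCTs D G hFc.ok hFc.gok 0 Bool (fun _ => Fin 2 → ℕ) (fun _ => okL 2) F (Fin 2 → ℕ)
    (okL 2) (FQ D G U' s) 0 (fun j T T' r i h hi => Q1_ok 2 T T' r i h hi) (fun j => ?_)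
    (fun T T' r i h hi => Q1_ok 2 T T' r i h hi) (fun R T => ?_)
  · cases j
    · exact hF2
    · exact hF1
  · obtain ⟨C₁, T₁, hC₁, h₁⟩ := ha s t hs ht0 R
    obtain ⟨C₂, T₂, hC₂, h₂⟩ := hb (s + 1) t (by omega) ht2 R
    obtain ⟨C₃, T₃, hC₃, h₃⟩ := hc (s + 1) t (by omega) ht2 R
    refine ⟨C₁ * (C₂ + C₃), T₁ + T₂ + T₃ + T + s + 1,
      ENNReal.mul_ne_top hC₁ (ENNReal.add_ne_top.mpr ⟨hC₂, hC₃⟩), fun r hr i' hi' => ?_⟩
    obtain ⟨h01, h02⟩ := hi' 0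
    obtain ⟨h11, h12⟩ := hi' 1
    refine ⟨fun j => match j with
      | true => ![i' 0 + (s + 1), i' 1]
      | false => ![i' 1 + (s + 1), i' 0], fun j => ?_, fun φ hφ => ?_⟩
    · cases j
      · intro l
        fin_cases l
        · exact ⟨by change r ≤ i' 1 + (s + 1); omega,
            by change i' 1 + (s + 1) + T ≤ 4 * r; omega⟩
        · exact ⟨h01, by change i' 0 + T ≤ 4 * r; omega⟩
      · intro l
        fin_cases l
        · exact ⟨by change r ≤ i' 0 + (s + 1); omega,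
            by change i' 0 + (s + 1) + T ≤ 4 * r; omega⟩
        · exact ⟨h11, by change i' 1 + T ≤ 4 * r; omega⟩
    · have e₁ := h₁ (i' 0) (i' 1) (by omega) (by omega) φ hφ i' rfl rfl
      have e₂ := h₂ (i' 0) (i' 1) (by omega) (by omega) φ hφ ![i' 0 + (s + 1), i' 1] rfl rfl
      have e₃ := h₃ (i' 0) (i' 1) (by omega) (by omega) φ hφ ![i' 1 + (s + 1), i' 0] rfl rfl
      rw [Fintype.sum_bool, add_zero]
      change FQ D G U' s R i' φ ≤ C₁ * (C₂ + C₃) *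
        (FE D G (U₀ * {G.a ^ (s + 1 + t)} * U₀) (s + 1 + t) ⟨G.w, G.uw U₀, G.uw U₀⟩
          ⟨1, U₀, U₀⟩ R ![i' 0 + (s + 1), i' 1] φ +
        FE D G (U₀ * {G.a ^ (s + 1 + t)} * U₀) (s + 1 + t) ⟨1, U₀, G.uw U₀⟩
          ⟨G.w, G.uw U₀, U₀⟩ R ![i' 1 + (s + 1), i' 0] φ)
      refine e₁.trans ?_
      rw [mul_assoc]
      refine mul_le_mul' le_rfl ?_
      rw [mul_add, add_mul, add_mul]
      refine (add_le_add ((Q1_F5 D G Set.inter_subset_left _ _ _ _ _ _).trans e₂)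
        ((Q1_F5 D G Set.inter_subset_right _ _ _ _ _ _).trans e₃)).trans ?_
      refine add_le_add le_self_add le_add_self

end Pool.Agent.MPEF.U
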