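import Pool.Agent.Lib.MP_ef3f0f_gt.U.E.SpecB

set_option autoImplicit false
set_option linter.unusedSectionVars false

/-!
# MP_ef3f0f_gt, Theorem U, Part E: one step of the telescoping, insertion of a loop
-/

namespace Pool.Agent.MPEF.U

open MeasureTheory Topology
open scoped ENNReal Pointwise

section Q1aP

variable {P : Type} [Group P] [TopologicalSpace P] [IsTopologicalGroup P] [LocallyCompactSpace P]
  [T2Space P]

private lemma Q1a_uwc (G : PG P) {U : Set P} (h : IsCompact U) : IsCompact (G.uw U) :=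
  h.mul isCompact_singleton

private lemma Q1a_uwi (G : PG P) {U U' : Set P} (h : U ⊆ interior U') :
    G.uw U ⊆ interior (G.uw U') := by
  apply (Set.mul_subset_mul_right h).trans
  apply interior_maximal
  · exact Set.mul_subset_mul_right interior_subset
  · exact isOpen_interior.mul_right

private lemma Q1a_in {U : Set P} (h : U ∈ 𝓝 (1 : P)) :
    ∃ V ∈ 𝓝 (1 : P), IsCompact V ∧ V ⊆ interior U := by
  obtain ⟨K, hK, h1, h2⟩ := exists_compact_subset isOpen_interior (mem_interior_iff_mem_nhds.2 h)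
  exact ⟨K, mem_interior_iff_mem_nhds.1 h1, hK, h2⟩

private lemma Q1a_pos (G : PG P) (hG : G.Ok) {U : Set P} (hU : U ∈ 𝓝 (1 : P)) :
    ∃ V ∈ 𝓝 (1 : P), IsCompact V ∧ V ⊆ U ∧ ∀ κ ∈ G.uw V, ∀ s ∈ V, G.Pos κ s := by
  have h1 : G.Pos (1 * G.w) 1 := by
    rw [one_mul]; exact (hG.Ps _ _).1 hG.P1
  have hO : IsOpen {q : P × P | G.Pos (q.1 * G.w) q.2} := by
    have : Continuous fun q : P × P => (q.1 * G.w, q.2) := by fun_prop
    exact hG.Po.preimage this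
  have hn : {q : P × P | G.Pos (q.1 * G.w) q.2} ∈ 𝓝 ((1 : P), (1 : P)) := hO.mem_nhds h1
  rw [nhds_prod_eq, Filter.mem_prod_iff] at hn
  obtain ⟨A, hA, B, hB, hAB⟩ := hn
  obtain ⟨V, hV, hVc, hVi⟩ := Q1a_in (Filter.inter_mem (Filter.inter_mem hA hB) hU)
  have hVs := hVi.trans interior_subset
  refine ⟨V, hV, hVc, fun x hx => (hVs hx).2, ?_⟩
  rintro κ ⟨u, hu, w', hw', rfl⟩ s hs
  rw [Set.mem_singleton_iff] at hw'
  subst hw'
  exact hAB (a := (u, s)) ⟨(hVs hu).1.1, (hVs hs).1.2⟩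

private lemma Q1a_Dp (G : PG P) (hG : G.Ok) {k l : ℕ} (h : k ≤ l) :
    G.Dp l ⊆ G.Dp k := by
  induction h with
  | refl => exact subset_rfl
  | step _ ih => exact (hG.Dps _).trans ih

private lemma Q1a_W (G : PG P) (hG : G.Ok) {S K S' K' : Set P} {k l : ℕ}
    (hS : S ⊆ S') (hK : K ⊆ K') (h : k ≤ l) : G.W S K l ⊆ G.W S' K' k := by
  rintro g ⟨s, hs, t, ht, q, hq, rfl⟩
  exact ⟨s, hS hs, t, Q1a_Dp G hG h ht, q, hK hq, rfl⟩

/-- Three merges. -/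
private lemma Q1a_mg (hMG : S_MG P) (G : PG P) (hG : G.Ok) (hF : G.OkF) {U₃ : Set P}
    (hU₃ : U₃ ∈ 𝓝 (1 : P)) (hp : ∀ κ ∈ G.uw U₃, ∀ s ∈ U₃, G.Pos κ s) (k : ℕ) :
    ∃ Uc ∈ 𝓝 (1 : P), IsCompact Uc ∧ Uc ⊆ U₃ ∧ ∃ k' : ℕ, k ≤ k' ∧
      ∀ g₁ ∈ G.W (G.uw Uc) (G.uw Uc) k', ∀ g₂ ∈ G.W Uc (G.uw Uc) k', ∀ g₃ ∈ G.W Uc (G.uw Uc) k',
        ∀ g₄ ∈ G.W Uc (G.uw Uc) k', g₁ * g₂ ∈ G.W (G.uw U₃) (G.uw U₃) k ∧
          g₁ * g₂ * g₃ * g₄ ∈ G.W (G.uw U₃) (G.uw U₃) k := by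
  obtain ⟨U₂, hU₂, hU₂c, h23⟩ := Q1a_in hU₃
  obtain ⟨U₁, hU₁, hU₁c, h12⟩ := Q1a_in hU₂
  obtain ⟨Uc, hUc, hUcc, h01⟩ := Q1a_in hU₁
  have s23 := h23.trans interior_subset
  have s12 := h12.trans interior_subset
  have s01 := h01.trans interior_subset
  have s02 : Uc ⊆ U₂ := s01.trans s12
  have s03 : Uc ⊆ U₃ := s02.trans s23
  have uws : ∀ {A B : Set P}, A ⊆ B → G.uw A ⊆ G.uw B := fun h => Set.mul_subset_mul_right h
  have s13 : U₁ ⊆ U₃ := s12.trans s23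
  obtain ⟨a₃, h₃⟩ := hMG G hG hF (G.uw U₂) (G.uw U₂) Uc (G.uw Uc) (G.uw U₃) (G.uw U₃)
    (Q1a_uwc G hU₂c) (Q1a_uwc G hU₂c) hUcc (Q1a_uwc G hUcc) (Q1a_uwi G h23)
    ((uws s02).trans (Q1a_uwi G h23)) (fun κ hκ s hs => hp κ (uws s23 hκ) s (s03 hs)) k
  obtain ⟨a₂, h₂⟩ := hMG G hG hF (G.uw U₁) (G.uw U₁) Uc (G.uw Uc) (G.uw U₂) (G.uw U₂)
    (Q1a_uwc G hU₁c) (Q1a_uwc G hU₁c) hUcc (Q1a_uwc G hUcc) (Q1a_uwi G h12)
    ((uws s01).trans (Q1a_uwi G h12)) (fun κ hκ s hs => hp κ (uws s13 hκ) s (s03 hs)) (max k a₃)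
  obtain ⟨a₁, h₁⟩ := hMG G hG hF (G.uw Uc) (G.uw Uc) Uc (G.uw Uc) (G.uw U₁) (G.uw U₁)
    (Q1a_uwc G hUcc) (Q1a_uwc G hUcc) hUcc (Q1a_uwc G hUcc) (Q1a_uwi G h01)
    (Q1a_uwi G h01) (fun κ hκ s hs => hp κ (uws s03 hκ) s (s03 hs)) (max k a₂)
  refine ⟨Uc, hUc, hUcc, s03, max (max k a₃) (max a₂ a₁), by simp, ?_⟩
  intro g₁ hg₁ g₂ hg₂ g₃ hg₃ g₄ hg₄
  have e12 : g₁ * g₂ ∈ G.W (G.uw U₁) (G.uw U₁) (max k a₂) :=
    h₁ g₁ (Q1a_W G hG subset_rfl subset_rfl (by simp) hg₁) g₂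
      (Q1a_W G hG subset_rfl subset_rfl (by simp) hg₂)
  have e123 : g₁ * g₂ * g₃ ∈ G.W (G.uw U₂) (G.uw U₂) (max k a₃) :=
    h₂ _ (Q1a_W G hG subset_rfl subset_rfl (by simp) e12) g₃
      (Q1a_W G hG subset_rfl subset_rfl (by simp) hg₃)
  exact ⟨Q1a_W G hG (uws s13) (uws s13) (by simp) e12,
    h₃ _ (Q1a_W G hG subset_rfl subset_rfl (by simp) e123) g₄
      (Q1a_W G hG subset_rfl subset_rfl (by simp) hg₄)⟩

end Q1aP

section Q1aK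

variable {P : Type} [Group P] [TopologicalSpace P] [IsTopologicalGroup P] [LocallyCompactSpace P]
  [T2Space P] [SecondCountableTopology P] [MeasurableSpace P] [BorelSpace P]

private lemma Q1a_ik {A B : Set P} {x y : P} (h : x ∈ A → y ∈ B) : iK A x ≤ iK B y := by
  classical
  by_cases hx : x ∈ A
  · simp [iK, hx, h hx]
  · simp [iK, hx]

private lemma Q1a_ew (G : PG P) (U : Set P) (r : P) : r ∈ G.ew (G.uw U) ↔ r⁻¹ ∈ U := by
  show r⁻¹ * G.w ∈ U * {G.w} ↔ _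
  constructor
  · rintro ⟨u, hu, w, hw, h⟩
    rw [Set.mem_singleton_iff] at hw
    subst hw
    have : u = r⁻¹ := mul_right_cancel h
    exact this ▸ hu
  · intro h
    exact ⟨_, h, _, rfl, rfl⟩

private lemma Q1a_D0 (G : PG P) (U : Set P) : U * G.D1 ^ 0 = U := by
  rw [pow_zero, mul_one]

private lemma Q1a_oF (μ : Measure P) (G : PG P) {U' U : Set P} (h : U' ⊆ U)
    (h' : ∀ u ∈ U', G.a⁻¹ * u * G.a ∈ U) (s : ℕ) (g : P) :
    eP μ G U' (G.uw U') 0 s (g * (G.a ^ 1)⁻¹) ≤ eP μ G U (G.uw U) 0 (s + 1) g := by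
  simp only [eP, kk, Q1a_D0]
  apply lintegral_mono
  intro q
  refine mul_le_mul' (Q1a_ik fun hq => h hq) (Q1a_ik fun hq => ?_)
  rw [Q1a_ew] at hq ⊢
  have := h' _ hq
  convert this using 1
  simp only [mul_inv_rev, inv_inv, mul_assoc, inv_mul_cancel_left, pow_succ, pow_zero, one_mul]

private lemma Q1a_oB (μ : Measure P) [μ.IsHaarMeasure] [μ.IsMulRightInvariant] (G : PG P)
    {U' U : Set P} (h : U' ⊆ U)
    (h' : ∀ u ∈ U', G.a * u * G.a⁻¹ ∈ U) (s : ℕ) (g : P) :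
    eP μ G U' (G.uw U') 0 s ((G.a ^ 1)⁻¹ * g) ≤ eP μ G U (G.uw U) 0 (s + 1) g := by
  simp only [eP, kk, Q1a_D0]
  have e : ∫⁻ q, iK U q * iK (G.ew (G.uw U)) ((G.a ^ (s + 1))⁻¹ * q⁻¹ * g) ∂μ =
      ∫⁻ q, iK U (G.a * q * G.a⁻¹) *
        iK (G.ew (G.uw U)) ((G.a ^ (s + 1))⁻¹ * (G.a * q * G.a⁻¹)⁻¹ * g) ∂μ := by
    rw [lintegral_mul_left_eq_self (fun q => iK U (q * G.a⁻¹) *
        iK (G.ew (G.uw U)) ((G.a ^ (s + 1))⁻¹ * (q * G.a⁻¹)⁻¹ * g)) G.a,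
      lintegral_mul_right_eq_self (fun q => iK U q *
        iK (G.ew (G.uw U)) ((G.a ^ (s + 1))⁻¹ * q⁻¹ * g)) G.a⁻¹]
  rw [e]
  apply lintegral_mono
  intro q
  refine mul_le_mul' (Q1a_ik fun hq => h' _ hq) (Q1a_ik fun hq => ?_)
  rw [Q1a_ew] at hq ⊢
  have := h hq
  convert this using 1
  simp only [mul_inv_rev, inv_inv, mul_assoc, pow_succ', pow_zero, one_mul, inv_mul_cancel_left]

end Q1aK

section Q1aD

variable {P H : Type} [Group P] [Group H] [TopologicalSpace P] [TopologicalSpace H]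
  [IsTopologicalGroup P] [IsTopologicalGroup H] [LocallyCompactSpace P] [LocallyCompactSpace H]
  [T2Space P] [T2Space H] [SecondCountableTopology P] [SecondCountableTopology H]
  [MeasurableSpace P] [MeasurableSpace H] [BorelSpace P] [BorelSpace H]

/-- The identity on the support. -/
private lemma Q1a_id {D : Dat P H} (G : PG P) (φ : D.Γ → P → ℝ) (x' x : P × H)
    (V₁ V₂ c c' γ : D.Γ)
    (h₁ : ph G φ (V₁ * c * V₂⁻¹) (x'.1 * G.w) = ph G φ (c * (V₁⁻¹ * V₂)⁻¹) (x.1 * 1))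
    (h₂ : ph G φ (V₁ * c' * V₂⁻¹) (x'.1 * G.w) = ph G φ (c' * (V₁⁻¹ * V₂)⁻¹) (x.1 * 1))
    (h₃ : ph G φ (V₂ * (V₁ * c)⁻¹) (x'.1 * 1) = - ph G φ (V₁ * c * V₂⁻¹) (x'.1 * G.w))
    (h₄ : ph G φ (V₂ * (V₁ * c' * γ * c)⁻¹) (x'.1 * 1) =
      - ph G φ (V₁ * c' * γ * c * V₂⁻¹) (x'.1 * G.w)) :
    ab (pv G φ x c (V₁⁻¹ * V₂) - pv G φ x c' (V₁⁻¹ * V₂)) ≤
      ab (Dg G φ G.w x' (γ * c) (V₁ * c') V₂) +
        ab (Dg G φ 1 x' ((c' * γ)⁻¹) (V₂ * c⁻¹) V₁) := by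
  have e₁ : pv G φ x c (V₁⁻¹ * V₂) = ph G φ (V₁ * c * V₂⁻¹) (x'.1 * G.w) := by
    rw [h₁, mul_one]; rfl
  have e₂ : pv G φ x c' (V₁⁻¹ * V₂) = ph G φ (V₁ * c' * V₂⁻¹) (x'.1 * G.w) := by
    rw [h₂, mul_one]; rfl
  have e₃ : Dg G φ G.w x' (γ * c) (V₁ * c') V₂ =
      ph G φ (V₁ * c' * γ * c * V₂⁻¹) (x'.1 * G.w) - ph G φ (V₁ * c' * V₂⁻¹) (x'.1 * G.w) := by
    unfold Dg
    congr 3
    group
  have e₄ : Dg G φ 1 x' ((c' * γ)⁻¹) (V₂ * c⁻¹) V₁ =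
      - ph G φ (V₁ * c' * γ * c * V₂⁻¹) (x'.1 * G.w) + ph G φ (V₁ * c * V₂⁻¹) (x'.1 * G.w) := by
    unfold Dg
    rw [← h₄, show V₂ * c⁻¹ * (c' * γ)⁻¹ * V₁⁻¹ = V₂ * (V₁ * c' * γ * c)⁻¹ by group,
      show V₂ * c⁻¹ * V₁⁻¹ = V₂ * (V₁ * c)⁻¹ by group, h₃]
    ring
  rw [e₁, e₂, e₃, e₄]
  simp only [ab]
  rw [← ENNReal.ofReal_add (abs_nonneg _) (abs_nonneg _)]
  apply ENNReal.ofReal_le_ofReal
  refine le_trans (le_of_eq ?_) (abs_add_le _ _)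
  congr 1
  ring

/-- The framing: the inequality on the support. -/
private lemma Q1a_fr (hMG : S_MG P) (hB : S_phB P H) (hP : S_phP P H) (D : Dat P H) (G : PG P)
    (hG : G.Ok) (hF : G.OkF) {U : Set P} (hU : U ∈ 𝓝 (1 : P)) :
    ∃ Uc ∈ 𝓝 (1 : P), IsCompact Uc ∧ Uc ⊆ U ∧ ∃ k : ℕ,
      ∀ (x' x y : P × H) (V₁ V₂ c c' γ : D.Γ),
      (x'⁻¹ * (V₁ : P × H) * x).1 ∈ G.W (G.uw Uc) (G.uw Uc) k →
      (x'⁻¹ * (V₂ : P × H) * y).1 ∈ G.W Uc Uc k →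
      (x⁻¹ * (c : P × H) * y).1 ∈ G.W Uc (G.uw Uc) k →
      (x⁻¹ * (c' : P × H) * y).1 ∈ G.W Uc (G.uw Uc) k →
      (y⁻¹ * (γ : P × H) * x).1 ∈ G.W Uc (G.uw Uc) k →
      ∀ φ : D.Γ → P → ℝ, Adm D G φ →
        ab (pv G φ x c (V₁⁻¹ * V₂) - pv G φ x c' (V₁⁻¹ * V₂)) ≤
          ab (Dg G φ G.w x' (γ * c) (V₁ * c') V₂) +
            ab (Dg G φ 1 x' ((c' * γ)⁻¹) (V₂ * c⁻¹) V₁) := by
  obtain ⟨U₃, hU₃, hU₃c, hU₃U, hp⟩ := Q1a_pos G hG hU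
  have uws : ∀ {A B : Set P}, A ⊆ B → G.uw A ⊆ G.uw B := fun h => Set.mul_subset_mul_right h
  obtain ⟨kP, hkP⟩ := hP D G hG hF (G.uw U₃) (G.uw U₃) U₃ U₃ (Q1a_uwc G hU₃c) (Q1a_uwc G hU₃c)
    hU₃c hU₃c hp hp
  obtain ⟨kB, hkB⟩ := hB D G hG hF (G.uw U₃) (G.uw U₃) U₃ (G.uw U₃) U₃ U₃ (Q1a_uwc G hU₃c)
    (Q1a_uwc G hU₃c) hU₃c (Q1a_uwc G hU₃c) hU₃c hU₃c hp hp hp
  obtain ⟨Uc, hUc, hUcc, hUc3, k', hk', hm⟩ := Q1a_mg hMG G hG hF hU₃ hp kP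
  refine ⟨Uc, hUc, hUcc, hUc3.trans hU₃U, max k' kB, ?_⟩
  intro x' x y V₁ V₂ c c' γ g₁ g₂ g₃ g₄ g₅ φ hφ
  have m1 : (1 : P) ∈ U₃ := mem_of_mem_nhds hU₃
  have mw : G.w ∈ G.uw U₃ := ⟨1, m1, G.w, rfl, one_mul _⟩
  have hk'' : kP ≤ max k' kB := hk'.trans (le_max_left _ _)
  have W1 := Q1a_W G hG (subset_rfl : G.uw Uc ⊆ G.uw Uc) (subset_rfl : G.uw Uc ⊆ G.uw Uc)
    (le_max_left k' kB) g₁
  have W3 := Q1a_W G hG (subset_rfl : Uc ⊆ Uc) (subset_rfl : G.uw Uc ⊆ G.uw Uc)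
    (le_max_left k' kB) g₃
  have W4 := Q1a_W G hG (subset_rfl : Uc ⊆ Uc) (subset_rfl : G.uw Uc ⊆ G.uw Uc)
    (le_max_left k' kB) g₄
  have W5 := Q1a_W G hG (subset_rfl : Uc ⊆ Uc) (subset_rfl : G.uw Uc ⊆ G.uw Uc)
    (le_max_left k' kB) g₅
  have q2 : (x'⁻¹ * (V₂ : P × H) * y).1 ∈ G.W U₃ U₃ kP := Q1a_W G hG hUc3 hUc3 hk'' g₂
  have b1 := Q1a_W G hG (uws hUc3) (uws hUc3) (le_max_right k' kB) g₁
  have b2 := Q1a_W G hG hUc3 hUc3 (le_max_right k' kB) g₂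
  have b3 := Q1a_W G hG hUc3 (uws hUc3) (le_max_right k' kB) g₃
  have b4 := Q1a_W G hG hUc3 (uws hUc3) (le_max_right k' kB) g₄
  apply Q1a_id
  · exact hkB x' x y V₁ c V₂ b1 b3 b2 φ hφ G.w mw 1 m1
  · exact hkB x' x y V₁ c' V₂ b1 b4 b2 φ hφ G.w mw 1 m1
  · refine (hkP x' y (V₁ * c) V₂ ?_ q2 φ hφ G.w mw 1 m1).2
    have := (hm _ W1 _ W3 _ W5 _ W3).1
    convert this using 1
    simp only [Subgroup.coe_mul, Prod.fst_mul, Prod.fst_inv]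
    group
  · refine (hkP x' y (V₁ * c' * γ * c) V₂ ?_ q2 φ hφ G.w mw 1 m1).2
    have := (hm _ W1 _ W4 _ W5 _ W3).2
    convert this using 1
    simp only [Subgroup.coe_mul, Prod.fst_mul, Prod.fst_inv]
    group

/-- The integrand of `F5`. -/
private noncomputable def Q1a_S (D : Dat P H) (k₁ k₂ k₃ k₄ k₅ : P × H → ℝ≥0∞)
    (f : P × H → P × H → P × H → D.Γ → D.Γ → D.Γ → D.Γ → D.Γ → ℝ≥0∞) (x' x y : P × H) : ℝ≥0∞ :=
  ∑' V₁ : D.Γ, ∑' V₂ : D.Γ, ∑' c : D.Γ, ∑' c' : D.Γ, ∑' γ : D.Γ,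
    k₁ (x'⁻¹ * (V₁ : P × H) * x) * k₂ (x'⁻¹ * (V₂ : P × H) * y) * k₃ (x⁻¹ * (c : P × H) * y) *
      k₄ (x⁻¹ * (c' : P × H) * y) * k₅ (y⁻¹ * (γ : P × H) * x) * f x' x y V₁ V₂ c c' γ

private lemma Q1a_Sm (D : Dat P H) (hc : Countable D.Γ) {k₁ k₂ k₃ k₄ k₅ : P × H → ℝ≥0∞}
    (h₁ : Measurable k₁) (h₂ : Measurable k₂) (h₃ : Measurable k₃) (h₄ : Measurable k₄)
    (h₅ : Measurable k₅) {f : P × H → P × H → P × H → D.Γ → D.Γ → D.Γ → D.Γ → D.Γ → ℝ≥0∞}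
    (hf : ∀ V₁ V₂ c c' γ, Measurable fun q : (P × H) × (P × H) × (P × H) =>
      f q.1 q.2.1 q.2.2 V₁ V₂ c c' γ) :
    Measurable fun q : (P × H) × (P × H) × (P × H) =>
      Q1a_S D k₁ k₂ k₃ k₄ k₅ f q.1 q.2.1 q.2.2 := by
  unfold Q1a_S
  refine Measurable.tsum fun V₁ => Measurable.tsum fun V₂ =>
    Measurable.tsum fun c => Measurable.tsum fun c' =>
    Measurable.tsum fun γ => ?_
  refine ((((?_ : Measurable _).mul ?_).mul ?_).mul ?_ |>.mul ?_).mul (hf V₁ V₂ c c' γ)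
  · exact h₁.comp (by fun_prop)
  · exact h₂.comp (by fun_prop)
  · exact h₃.comp (by fun_prop)
  · exact h₄.comp (by fun_prop)
  · exact h₅.comp (by fun_prop)

private lemma Q1a_IMm {α : Type} [MeasurableSpace α] (D : Dat P H) (hD : D.Ok) [SFinite D.μ]
    {F : α → P × H → ℝ≥0∞} (hF : Measurable fun q : α × (P × H) => F q.1 q.2) :
    Measurable fun a => D.IM (F a) := by
  unfold Dat.IM
  exact Measurable.lintegral_prod_right' (f := fun q : α × (P × H) => D.χ q.2 * F q.1 q.2)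
    ((hD.χm.comp measurable_snd).mul hF)

private lemma Q1a_IMc (D : Dat P H) {C : ℝ≥0∞} (hC : C ≠ ∞) (f : P × H → ℝ≥0∞) :
    D.IM (fun x => C * f x) = C * D.IM f := by
  unfold Dat.IM
  rw [← lintegral_const_mul' _ _ hC]
  congr 1
  funext x
  ring

private lemma Q1a_IMle (D : Dat P H) {f g : P × H → ℝ≥0∞} (h : ∀ x, f x ≤ g x) :
    D.IM f ≤ D.IM g := lintegral_mono fun x => mul_le_mul_right (h x) _

/-- Splitting of the backward edge. -/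
private lemma Q1a_split (hML : S_ML P) (hRV : S_RV P) (hmer : S_mer P H) (hAD : S_AD P)
    (hnu : S_nu P H) (D : Dat P H) (hD : D.Ok) (G : PG P) (hG : G.Ok) {U' K Uc : Set P}
    (hU'c : IsCompact U') (hKc : IsCompact K) (hUcc : IsCompact Uc) (hUc : Uc ∈ 𝓝 (1 : P))
    (h1 : U' ⊆ interior K) (h2 : K ⊆ interior Uc) (R : ℕ) :
    ∃ (C : ℝ≥0∞) (T : ℕ), C ≠ ∞ ∧ ∀ n m, 1 ≤ n → 1 ≤ m → T ≤ m →
      ∀ (x y : P × H) (F : D.Γ → ℝ≥0∞),
      ∑' V : D.Γ, D.eg G (G.uw U') U' (2 * R) (n + m) (x⁻¹ * (V : P × H) * y) * F V ≤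
        C * D.IM fun x' => ∑' V₁ : D.Γ, ∑' V₂ : D.Γ,
          D.eg G (G.uw Uc) (G.uw Uc) R n (x'⁻¹ * (V₁ : P × H) * x) *
            D.eg G Uc Uc R m (x'⁻¹ * (V₂ : P × H) * y) * F (V₁⁻¹ * V₂) := by
  have := hD.haar₁
  have := hD.right₁
  have := hD.inv₁
  obtain ⟨C₁, T, hC₁, hm⟩ := hML G D.μ₁ hG (G.uw U') U' (G.uw K) Uc (Q1a_uwc G hU'c) hU'c
    (Q1a_uwi G h1) (h1.trans (interior_subset.trans h2)) Uc hUc R R
  obtain ⟨C₂, hC₂, hr⟩ := hRV G D.μ₁ hG (G.uw K) (G.uw Uc) (G.uw Uc) (Q1a_uwc G hKc)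
    (Q1a_uwc G hUcc) (Q1a_uwi G h2) R
  obtain ⟨_, _, _, _, hme, _⟩ := hAD G D.μ₁ hG
  refine ⟨C₁ * C₂, T, ENNReal.mul_ne_top hC₁ hC₂, fun n m hn hm1 hT x y F => ?_⟩
  have mk1 := hme (G.uw K) (G.uw Uc) (Q1a_uwc G hKc) (Q1a_uwc G hUcc) R n
  have mk2 := hme Uc Uc hUcc hUcc R m
  calc ∑' V : D.Γ, D.eg G (G.uw U') U' (2 * R) (n + m) (x⁻¹ * (V : P × H) * y) * F V
      ≤ ∑' V : D.Γ, C₁ * (D.tk (cvP D.μ₁ (eP D.μ₁ G (G.uw K) (G.uw Uc) R n)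
          (eP D.μ₁ G Uc Uc R m)) (n + m) (x⁻¹ * (V : P × H) * y) * F V) := by
        apply ENNReal.tsum_le_tsum
        intro V
        rw [two_mul, ← mul_assoc]
        refine mul_le_mul_left ?_ _
        show eP D.μ₁ G (G.uw U') U' (R + R) (n + m) _ * D.nu (n + m) _ ≤ _
        unfold Dat.tk
        rw [← mul_assoc]
        exact mul_le_mul_left (hm n m hT _) _
    _ = C₁ * D.IM fun x' => ∑' e : D.Γ, ∑' e' : D.Γ,
          D.tk (eP D.μ₁ G (G.uw K) (G.uw Uc) R n) n (x⁻¹ * (e : P × H) * x') *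
          D.tk (eP D.μ₁ G Uc Uc R m) m (x'⁻¹ * (e' : P × H) * y) * F (e * e') := by
        rw [ENNReal.tsum_mul_left, (hmer D hD _ _ n m mk1 mk2 hn hm1 F).1 x y]
    _ ≤ C₁ * D.IM fun x' => C₂ * ∑' V₁ : D.Γ, ∑' V₂ : D.Γ,
          D.eg G (G.uw Uc) (G.uw Uc) R n (x'⁻¹ * (V₁ : P × H) * x) *
            D.eg G Uc Uc R m (x'⁻¹ * (V₂ : P × H) * y) * F (V₁⁻¹ * V₂) := by
        refine mul_le_mul_right (Q1a_IMle D fun x' => ?_) _
        rw [← (Equiv.inv D.Γ).tsum_eq, ← ENNReal.tsum_mul_left]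
        apply ENNReal.tsum_le_tsum
        intro V₁
        rw [← ENNReal.tsum_mul_left]
        apply ENNReal.tsum_le_tsum
        intro V₂
        rw [← mul_assoc, ← mul_assoc]
        refine mul_le_mul_left (mul_le_mul_left ?_ _) _
        have e : x⁻¹ * (((Equiv.inv D.Γ) V₁ : D.Γ) : P × H) * x' =
            (x'⁻¹ * (V₁ : P × H) * x)⁻¹ := by
          simp only [Equiv.inv_apply, Subgroup.coe_inv]
          group
        rw [e]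
        show eP D.μ₁ G (G.uw K) (G.uw Uc) R n (x'⁻¹ * (V₁ : P × H) * x).1⁻¹ *
          D.nu n (x'⁻¹ * (V₁ : P × H) * x).2⁻¹ ≤
          C₂ * (eP D.μ₁ G (G.uw Uc) (G.uw Uc) R n (x'⁻¹ * (V₁ : P × H) * x).1 *
          D.nu n (x'⁻¹ * (V₁ : P × H) * x).2)
        rw [(hnu D hD).2.2.2.1, ← mul_assoc]
        exact mul_le_mul_left (hr n _) _
    _ = _ := by
        rw [Q1a_IMc D hC₂, mul_assoc]

/-- The two chords. -/
private lemma Q1a_ops (hop : S_opI P H) (hAD : S_AD P) (D : Dat P H) (hD : D.Ok) (G : PG P)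
    (hG : G.Ok) {U' Uc : Set P} (hU'c : IsCompact U') (h : U' ⊆ Uc)
    (h1 : ∀ u ∈ U', G.a⁻¹ * u * G.a ∈ Uc) (h2 : ∀ u ∈ U', G.a * u * G.a⁻¹ ∈ Uc) (s : ℕ)
    (hs : 1 ≤ s) (g : P × H) :
    opF D G.a (D.ch G U' s) g ≤ D.ch G Uc (s + 1) g ∧
      opB D G.a (D.ch G U' s) g ≤ D.ch G Uc (s + 1) g := by
  have := hD.haar₁
  have := hD.right₁
  have := hD.inv₁
  obtain ⟨_, _, _, _, hme, _⟩ := hAD G D.μ₁ hG
  obtain ⟨oF, oB, _⟩ := hop D hD G.a (eP D.μ₁ G U' (G.uw U') 0 s) s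
    (hme U' (G.uw U') hU'c (Q1a_uwc G hU'c) 0 s) hs
  have e1 := congrFun (oF 1) g
  have e2 := congrFun (oB 1) g
  constructor
  · refine le_trans (le_of_eq e1) ?_
    exact mul_le_mul_left (Q1a_oF D.μ₁ G h h1 s g.1) _
  · refine le_trans (le_of_eq e2) ?_
    exact mul_le_mul_left (Q1a_oB D.μ₁ G h h2 s g.1) _

/-- Insertion of `V₁`, `V₂`, `γ`, for fixed end points. -/
private lemma Q1a_ins (D : Dat P H) (e₁ e₂ h ht : P × H → ℝ≥0∞) (A : P × H → D.Γ → D.Γ → D.Γ → ℝ≥0∞)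
    {c₀ : ℝ≥0∞} (hc : c₀ ≠ 0) (hc' : c₀ ≠ ∞) (x' x y : P × H) (hN : c₀ ≤ D.N ht y x) :
    ∑' V₁ : D.Γ, ∑' V₂ : D.Γ, e₁ (x'⁻¹ * (V₁ : P × H) * x) * e₂ (x'⁻¹ * (V₂ : P × H) * y) *
        D.st2 h h x y (fun c c' => A x c c' (V₁⁻¹ * V₂)) ≤
      c₀⁻¹ * Q1a_S D e₁ e₂ h h ht (fun _ x _ V₁ V₂ c c' _ => A x c c' (V₁⁻¹ * V₂)) x' x y := by
  have key : ∀ Z : ℝ≥0∞, Z ≤ c₀⁻¹ * ∑' γ : D.Γ, ht (y⁻¹ * (γ : P × H) * x) * Z := by
    intro Z
    rw [ENNReal.tsum_mul_right]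
    calc Z = c₀⁻¹ * c₀ * Z := by rw [ENNReal.inv_mul_cancel hc hc', one_mul]
      _ ≤ c₀⁻¹ * D.N ht y x * Z := by gcongr
      _ = _ := by rw [mul_assoc]; rfl
  unfold Q1a_S Dat.st2
  rw [← ENNReal.tsum_mul_left]
  refine ENNReal.tsum_le_tsum fun V₁ => ?_
  rw [← ENNReal.tsum_mul_left]
  refine ENNReal.tsum_le_tsum fun V₂ => ?_
  rw [← ENNReal.tsum_mul_left, ← ENNReal.tsum_mul_left]
  refine ENNReal.tsum_le_tsum fun c => ?_
  rw [← ENNReal.tsum_mul_left, ← ENNReal.tsum_mul_left]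
  refine ENNReal.tsum_le_tsum fun c' => ?_
  refine (key _).trans (le_of_eq ?_)
  congr 1
  refine tsum_congr fun γ => ?_
  ring

/-- Tonelli for three variables. -/
private lemma Q1a_ton3 (hton : S_ton P H) (D : Dat P H) (hD : D.Ok) [SFinite D.μ]
    {Φ : P × H → P × H → P × H → ℝ≥0∞}
    (hΦ : Measurable fun q : (P × H) × (P × H) × (P × H) => Φ q.1 q.2.1 q.2.2) :
    (D.IM fun x => D.IM fun y => D.IM fun x' => Φ x' x y) =
      D.IM fun x' => D.IM fun x => D.IM fun y => Φ x' x y := by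
  have e1 : ∀ x, (D.IM fun y => D.IM fun x' => Φ x' x y) =
      D.IM fun x' => D.IM fun y => Φ x' x y := by
    intro x
    refine ((hton D hD).1 (fun q => Φ q.2 x q.1) ?_).1
    exact hΦ.comp (g := fun q => Φ q.1 q.2.1 q.2.2)
      (f := fun q : (P × H) × (P × H) => (q.2, x, q.1)) (by fun_prop)
  simp_rw [e1]
  refine ((hton D hD).1 (fun q => D.IM fun y => Φ q.2 q.1 y) ?_).1
  apply Q1a_IMm D hD
  exact hΦ.comp (g := fun q => Φ q.1 q.2.1 q.2.2)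
    (f := fun q : ((P × H) × (P × H)) × (P × H) => (q.1.2, q.1.1, q.2)) (by fun_prop)

/-- Additivity for three variables. -/
private lemma Q1a_add3 (hton : S_ton P H) (D : Dat P H) (hD : D.Ok) [SFinite D.μ]
    {Φ Ψ : P × H → P × H → P × H → ℝ≥0∞}
    (hΦ : Measurable fun q : (P × H) × (P × H) × (P × H) => Φ q.1 q.2.1 q.2.2) :
    (D.IM fun x' => D.IM fun x => D.IM fun y => Φ x' x y + Ψ x' x y) =
      (D.IM fun x' => D.IM fun x => D.IM fun y => Φ x' x y) +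
        D.IM fun x' => D.IM fun x => D.IM fun y => Ψ x' x y := by
  have m1 : ∀ x' x, Measurable (Φ x' x) := fun x' x => by
    have hm : Measurable fun q : P × H => (x', x, q) := by fun_prop
    exact hΦ.comp hm
  have m2 : Measurable fun q : (P × H) × (P × H) => D.IM fun y => Φ q.1 q.2 y := by
    apply Q1a_IMm D hD
    exact hΦ.comp (g := fun q => Φ q.1 q.2.1 q.2.2)
      (f := fun q : ((P × H) × (P × H)) × (P × H) => (q.1.1, q.1.2, q.2)) (by fun_prop)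
  have m3 : Measurable fun x' => D.IM fun x => D.IM fun y => Φ x' x y :=
    Q1a_IMm D hD m2
  have hadd := (hton D hD).2.2.1
  have e1 : ∀ x' x, (D.IM fun y => Φ x' x y + Ψ x' x y) =
      (D.IM fun y => Φ x' x y) + D.IM fun y => Ψ x' x y := fun x' x => hadd _ _ (m1 x' x)
  have e2 : ∀ x', (D.IM fun x => D.IM fun y => Φ x' x y + Ψ x' x y) =
      (D.IM fun x => D.IM fun y => Φ x' x y) + D.IM fun x => D.IM fun y => Ψ x' x y := by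
    intro x'
    simp_rw [e1]
    refine hadd _ _ ?_
    exact m2.comp (g := fun q : (P × H) × (P × H) => D.IM fun y => Φ q.1 q.2 y)
      (f := fun q : P × H => (x', q)) (by fun_prop)
  simp_rw [e2]
  exact hadd _ _ m3

end Q1aD

variable (P H : Type) [Group P] [Group H] [TopologicalSpace P] [TopologicalSpace H]
  [IsTopologicalGroup P] [IsTopologicalGroup H] [LocallyCompactSpace P] [LocallyCompactSpace H]
  [T2Space P] [T2Space H] [SecondCountableTopology P] [SecondCountableTopology H]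
  [MeasurableSpace P] [MeasurableSpace H] [BorelSpace P] [BorelSpace H]

theorem tQ1a : S_ML P → S_RV P → S_MG P → S_mer P H → S_phB P H → S_phP P H → S_opI P H →
    S_ec P → S_egm P H → S_ton P H → S_AD P → S_inst P H → S_nu P H → S_Q1a P H := by
  intro hML hRV hMG hmer hphB hphP hopI _ hegm hton hAD hinst hnu D G hF U hU
  have hD := hF.ok
  have hG := hF.gok
  have := hD.haar₁
  have := hD.right₁
  have := hD.inv₁
  obtain ⟨_, _, hσ, hcΓ, _⟩ := hinst D hD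
  obtain ⟨Uc, hUc, hUcc, hUcU, k, hfr⟩ := Q1a_fr hMG hphB hphP D G hG hF.gf hU
  obtain ⟨K, hK, hKc, hKUc⟩ := Q1a_in hUc
  have hK2 : interior K ∈ 𝓝 (1 : P) := interior_mem_nhds.2 hK
  have hca : {u : P | G.a⁻¹ * u * G.a ∈ Uc} ∈ 𝓝 (1 : P) := by
    have hcont : Continuous fun u : P => G.a⁻¹ * u * G.a := by fun_prop
    apply hcont.continuousAt.preimage_mem_nhds
    simpa using hUc
  have hcb : {u : P | G.a * u * G.a⁻¹ ∈ Uc} ∈ 𝓝 (1 : P) := by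
    have hcont : Continuous fun u : P => G.a * u * G.a⁻¹ := by fun_prop
    apply hcont.continuousAt.preimage_mem_nhds
    simpa using hUc
  obtain ⟨U', hU', hU'c, hU'i⟩ := Q1a_in (Filter.inter_mem (Filter.inter_mem hca hcb) hK2)
  have hU's := hU'i.trans interior_subset
  have hU'K : U' ⊆ interior K := fun u hu => (hU's hu).2
  have hU'Uc : U' ⊆ Uc := hU'K.trans (interior_subset.trans (hKUc.trans interior_subset))
  obtain ⟨had1, _, _, hads, _, _⟩ := hAD G D.μ₁ hG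
  obtain ⟨T₀, hT₀⟩ := hads 0 k
  have hUcw : G.uw Uc ∈ 𝓝 G.w := by
    have : G.uw (interior Uc) ∈ 𝓝 G.w :=
      (isOpen_interior.mul_right).mem_nhds ⟨1, mem_interior_iff_mem_nhds.2 hUc, G.w, rfl,
        one_mul _⟩
    exact Filter.mem_of_superset this (Set.mul_subset_mul_right interior_subset)
  obtain ⟨T₁, c₁, hc₁, hlo⟩ := hF.lo 1 G.w Uc hUc (G.uw Uc) hUcw
  have hmd := (hegm D G hD hG)
  refine ⟨U', hU', hU'c, max 1 (max T₀ T₁), fun s t hs ht R => ?_⟩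
  have hs1 : 1 ≤ s := (le_max_left _ _).trans hs
  have hsT : T₀ ≤ s := ((le_max_left _ _).trans (le_max_right _ _)).trans hs
  have htT : T₀ ≤ t := ((le_max_left _ _).trans (le_max_right _ _)).trans ht
  have htT1 : T₁ ≤ t := ((le_max_right _ _).trans (le_max_right _ _)).trans ht
  obtain ⟨C₂, T₂, hC₂, hsp⟩ := Q1a_split hML hRV hmer hAD hnu D hD G hG hU'c hKc hUcc hUc hU'K
    hKUc R
  obtain ⟨T₃, hT₃⟩ := hads R k
  set c₀ : ℝ≥0∞ := min c₁ 1 with hc₀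
  have hc₀0 : c₀ ≠ 0 := (lt_min hc₁ one_pos).ne'
  have hc₀t : c₀ ≠ ∞ := ne_top_of_le_ne_top ENNReal.one_ne_top (min_le_right _ _)
  refine ⟨C₂ * c₀⁻¹, max 1 (max T₂ T₃), ENNReal.mul_ne_top hC₂ (ENNReal.inv_ne_top.2 hc₀0),
    fun n m hn hm φ hφ i hi0 hi1 => ?_⟩
  have hn1 : 1 ≤ n := (le_max_left _ _).trans hn
  have hm1 : 1 ≤ m := (le_max_left _ _).trans hm
  have hmT : T₂ ≤ m := ((le_max_left _ _).trans (le_max_right _ _)).trans hm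
  have hnT3 : T₃ ≤ n := ((le_max_right _ _).trans (le_max_right _ _)).trans hn
  have hmT3 : T₃ ≤ m := ((le_max_right _ _).trans (le_max_right _ _)).trans hm
  -- the functions
  set A : P × H → D.Γ → D.Γ → D.Γ → ℝ≥0∞ := fun x c c' V => ab (pv G φ x c V - pv G φ x c' V)
    with hA
  set A₁ : P × H → P × H → P × H → D.Γ → D.Γ → D.Γ → D.Γ → D.Γ → ℝ≥0∞ :=
    fun x' _ _ V₁ V₂ c c' γ => ab (Dg G φ G.w x' (γ * c) (V₁ * c') V₂) with hA₁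
  set A₂ : P × H → P × H → P × H → D.Γ → D.Γ → D.Γ → D.Γ → D.Γ → ℝ≥0∞ :=
    fun x' _ _ V₁ V₂ c c' γ => ab (Dg G φ 1 x' ((c' * γ)⁻¹) (V₂ * c⁻¹) V₁) with hA₂
  set e₁ := D.eg G (G.uw Uc) (G.uw Uc) R n with he₁
  set e₂ := D.eg G Uc Uc R m with he₂
  set h := D.ch G Uc (s + 1) with hh
  set ht' := D.ch G Uc t with hht
  have me₁ : Measurable e₁ := hmd.1 _ _ (Q1a_uwc G hUcc) (Q1a_uwc G hUcc) R n
  have me₂ : Measurable e₂ := hmd.1 _ _ hUcc hUcc R m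
  have mh : Measurable h := hmd.1 _ _ hUcc (Q1a_uwc G hUcc) 0 (s + 1)
  have mht : Measurable ht' := hmd.1 _ _ hUcc (Q1a_uwc G hUcc) 0 t
  have mab : Measurable ab := ENNReal.measurable_ofReal.comp measurable_norm
  have mA : ∀ V₁ V₂ c c' γ : D.Γ, Measurable fun q : (P × H) × (P × H) × (P × H) =>
      (fun (_ : P × H) (x : P × H) (_ : P × H) (V₁ V₂ c c' _ : D.Γ) => A x c c' (V₁⁻¹ * V₂))
        q.1 q.2.1 q.2.2 V₁ V₂ c c' γ := by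
    intro V₁ V₂ c c' γ
    have m0 : ∀ u V : D.Γ, Measurable fun x : P × H => pv G φ x u V := by
      intro u V
      have := hmd.2.1 φ hφ 1 (u * V⁻¹)
      simp only [mul_one] at this
      exact this
    exact mab.comp (((m0 _ _).comp (f := fun q : (P × H) × (P × H) × (P × H) => q.2.1)
      (by fun_prop)).sub ((m0 _ _).comp (by fun_prop)))
  have mA₁ : ∀ V₁ V₂ c c' γ : D.Γ, Measurable fun q : (P × H) × (P × H) × (P × H) =>
      A₁ q.1 q.2.1 q.2.2 V₁ V₂ c c' γ := by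
    intro V₁ V₂ c c' γ
    exact mab.comp ((hmd.2.2.1 φ hφ _ _ _ _).comp
      (f := fun q : (P × H) × (P × H) × (P × H) => q.1) (by fun_prop))
  -- the estimate on the support
  have hst : ∀ x' x y, Q1a_S D e₁ e₂ h h ht' (fun _ x _ V₁ V₂ c c' _ => A x c c' (V₁⁻¹ * V₂))
      x' x y ≤ Q1a_S D e₁ e₂ h h ht' A₁ x' x y + Q1a_S D e₁ e₂ h h ht' A₂ x' x y := by
    intro x' x y
    unfold Q1a_S
    rw [← ENNReal.tsum_add]
    refine ENNReal.tsum_le_tsum fun V₁ => ?_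
    rw [← ENNReal.tsum_add]
    refine ENNReal.tsum_le_tsum fun V₂ => ?_
    rw [← ENNReal.tsum_add]
    refine ENNReal.tsum_le_tsum fun c => ?_
    rw [← ENNReal.tsum_add]
    refine ENNReal.tsum_le_tsum fun c' => ?_
    rw [← ENNReal.tsum_add]
    refine ENNReal.tsum_le_tsum fun γ => ?_
    rw [← mul_add]
    by_cases hz : e₁ (x'⁻¹ * (V₁ : P × H) * x) * e₂ (x'⁻¹ * (V₂ : P × H) * y) *
        h (x⁻¹ * (c : P × H) * y) * h (x⁻¹ * (c' : P × H) * y) *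
        ht' (y⁻¹ * (γ : P × H) * x) = 0
    · rw [hz, zero_mul]
      exact zero_le
    · refine mul_le_mul_right ?_ _
      have z5 := right_ne_zero_of_mul hz
      have z4 := right_ne_zero_of_mul (left_ne_zero_of_mul hz)
      have z3 := right_ne_zero_of_mul (left_ne_zero_of_mul (left_ne_zero_of_mul hz))
      have z2 := right_ne_zero_of_mul (left_ne_zero_of_mul (left_ne_zero_of_mul
        (left_ne_zero_of_mul hz)))
      have z1 := left_ne_zero_of_mul (left_ne_zero_of_mul (left_ne_zero_of_mul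
        (left_ne_zero_of_mul hz)))
      exact hfr x' x y V₁ V₂ c c' γ (hT₃ n hnT3 _ _ _ (left_ne_zero_of_mul z1))
        (hT₃ m hmT3 _ _ _ (left_ne_zero_of_mul z2))
        (hT₀ (s + 1) (by omega) _ _ _ (left_ne_zero_of_mul z3))
        (hT₀ (s + 1) (by omega) _ _ _ (left_ne_zero_of_mul z4))
        (hT₀ t htT _ _ _ (left_ne_zero_of_mul z5)) φ hφ
  have huw : G.uw Uc ⊆ G.uw U := Set.mul_subset_mul_right hUcU
  have hkm : ∀ (S K S' K' : Set P) (R n : ℕ) (g : P × H), S ⊆ S' → K ⊆ K' →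
      D.eg G S K R n g ≤ D.eg G S' K' R n g := fun S K S' K' R n g h1 h2 =>
    mul_le_mul_left (had1 S S' K K' R R n h1 h2 le_rfl g.1) _
  have hmono : ∀ (f : P × H → P × H → P × H → D.Γ → D.Γ → D.Γ → D.Γ → D.Γ → ℝ≥0∞) (x' x y : P × H),
      Q1a_S D e₁ e₂ h h ht' f x' x y ≤
      Q1a_S D (D.eg G (G.uw U) (G.uw U) R n) (D.eg G U U R m) (D.ch G U (s + 1))
        (D.ch G U (s + 1)) (D.ch G U t) f x' x y := by
    intro f x' x y
    unfold Q1a_S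
    refine ENNReal.tsum_le_tsum fun V₁ => ENNReal.tsum_le_tsum fun V₂ =>
      ENNReal.tsum_le_tsum fun c => ENNReal.tsum_le_tsum fun c' =>
      ENNReal.tsum_le_tsum fun γ => ?_
    refine mul_le_mul_left (mul_le_mul' (mul_le_mul' (mul_le_mul' (mul_le_mul' ?_ ?_) ?_) ?_)
      ?_) _
    · exact hkm _ _ _ _ _ _ _ huw huw
    · exact hkm _ _ _ _ _ _ _ hUcU hUcU
    · exact hkm _ _ _ _ _ _ _ hUcU huw
    · exact hkm _ _ _ _ _ _ _ hUcU huw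
    · exact hkm _ _ _ _ _ _ _ hUcU huw
  have hci : c₀⁻¹ ≠ ∞ := ENNReal.inv_ne_top.2 hc₀0
  have hfix : ∀ x y, ∑' V : D.Γ, D.eg G (G.uw U') U' (2 * R) (i 0 + i 1)
        (x⁻¹ * (V : P × H) * y) *
        D.st2 (opF D G.a (D.ch G U' s)) (opB D G.a (D.ch G U' s)) x y
          (fun u u' => ab (pv G φ x u V - pv G φ x u' V)) ≤
      C₂ * c₀⁻¹ * D.IM fun x' => Q1a_S D e₁ e₂ h h ht'
        (fun _ x _ V₁ V₂ c c' _ => A x c c' (V₁⁻¹ * V₂)) x' x y := by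
    intro x y
    rw [hi0, hi1]
    calc _ ≤ ∑' V : D.Γ, D.eg G (G.uw U') U' (2 * R) (n + m) (x⁻¹ * (V : P × H) * y) *
          D.st2 h h x y (fun c c' => A x c c' V) := by
          refine ENNReal.tsum_le_tsum fun V => mul_le_mul_right ?_ _
          unfold Dat.st2
          refine ENNReal.tsum_le_tsum fun c => ENNReal.tsum_le_tsum fun c' => ?_
          refine mul_le_mul_left (mul_le_mul' ?_ ?_) _
          · exact (Q1a_ops hopI hAD D hD G hG hU'c hU'Uc (fun u hu => (hU's hu).1.1)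
              (fun u hu => (hU's hu).1.2) s hs1 _).1
          · exact (Q1a_ops hopI hAD D hD G hG hU'c hU'Uc (fun u hu => (hU's hu).1.1)
              (fun u hu => (hU's hu).1.2) s hs1 _).2
      _ ≤ C₂ * D.IM fun x' => ∑' V₁ : D.Γ, ∑' V₂ : D.Γ,
            e₁ (x'⁻¹ * (V₁ : P × H) * x) * e₂ (x'⁻¹ * (V₂ : P × H) * y) *
              D.st2 h h x y (fun c c' => A x c c' (V₁⁻¹ * V₂)) :=
          hsp n m hn1 hm1 hmT x y (fun V => D.st2 h h x y (fun c c' => A x c c' V))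
      _ ≤ C₂ * D.IM fun x' => c₀⁻¹ * Q1a_S D e₁ e₂ h h ht'
            (fun _ x _ V₁ V₂ c c' _ => A x c c' (V₁⁻¹ * V₂)) x' x y := by
          refine mul_le_mul_right (Q1a_IMle D fun x' => ?_) _
          exact Q1a_ins D e₁ e₂ h ht' A hc₀0 hc₀t x' x y
            ((min_le_left _ _).trans (hlo 0 t htT1 y x))
      _ = _ := by rw [Q1a_IMc D hci, mul_assoc]
  have hcc : C₂ * c₀⁻¹ ≠ ∞ := ENNReal.mul_ne_top hC₂ hci
  calc FQ D G U' s R i φ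
      ≤ D.IM fun x => D.IM fun y => C₂ * c₀⁻¹ * D.IM fun x' => Q1a_S D e₁ e₂ h h ht'
        (fun _ x _ V₁ V₂ c c' _ => A x c c' (V₁⁻¹ * V₂)) x' x y :=
        Q1a_IMle D fun x => Q1a_IMle D fun y => hfix x y
    _ = C₂ * c₀⁻¹ * D.IM fun x => D.IM fun y => D.IM fun x' => Q1a_S D e₁ e₂ h h ht'
        (fun _ x _ V₁ V₂ c c' _ => A x c c' (V₁⁻¹ * V₂)) x' x y := by
        simp_rw [Q1a_IMc D hcc]
    _ = C₂ * c₀⁻¹ * D.IM fun x' => D.IM fun x => D.IM fun y => Q1a_S D e₁ e₂ h h ht'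
        (fun _ x _ V₁ V₂ c c' _ => A x c c' (V₁⁻¹ * V₂)) x' x y := by
        rw [Q1a_ton3 hton D hD (Q1a_Sm D hcΓ me₁ me₂ mh mh mht mA)]
    _ ≤ C₂ * c₀⁻¹ * D.IM fun x' => D.IM fun x => D.IM fun y =>
        Q1a_S D e₁ e₂ h h ht' A₁ x' x y + Q1a_S D e₁ e₂ h h ht' A₂ x' x y :=
        mul_le_mul_right (Q1a_IMle D fun x' => Q1a_IMle D fun x => Q1a_IMle D fun y =>
          hst x' x y) _
    _ = C₂ * c₀⁻¹ * ((D.IM fun x' => D.IM fun x => D.IM fun y =>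
        Q1a_S D e₁ e₂ h h ht' A₁ x' x y) + D.IM fun x' => D.IM fun x => D.IM fun y =>
        Q1a_S D e₁ e₂ h h ht' A₂ x' x y) := by
        rw [Q1a_add3 hton D hD (Q1a_Sm D hcΓ me₁ me₂ mh mh mht mA₁)]
    _ ≤ _ := by
        refine mul_le_mul_right (add_le_add ?_ ?_) _
        · exact Q1a_IMle D fun x' => Q1a_IMle D fun x => Q1a_IMle D fun y => hmono A₁ x' x y
        · exact Q1a_IMle D fun x' => Q1a_IMle D fun x => Q1a_IMle D fun y => hmono A₂ x' x y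

end Pool.Agent.MPEF.U
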