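import Pool.Agent.Lib.MP_ef3f0f_gt.U.E.SpecB

set_option autoImplicit false
set_option linter.unusedSectionVars false

/-!
# MP_ef3f0f_gt, Theorem U, Part E, module `Q1b`: one step, first term

`Q1b_GL` is the common part of the modules `Q1b` and `Q1c`.
-/

namespace Pool.Agent.MPEF.U

open MeasureTheory Topology
open scoped ENNReal Pointwise

section Sums

variable {Γ : Type} [Group Γ]

private theorem Q1b_pull5 (a b e f : Γ → ℝ≥0∞) (Ψ : Γ → Γ → Γ → ℝ≥0∞) :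
    (∑' V₁ : Γ, ∑' V₂ : Γ, ∑' c : Γ, ∑' c' : Γ, ∑' γ : Γ,
      a V₁ * b V₂ * e c * e c' * f γ * Ψ (γ * c) (V₁ * c') V₂) =
    ∑' V₁ : Γ, ∑' V₂ : Γ, ∑' c' : Γ, a V₁ * b V₂ * e c' *
      ∑' c : Γ, ∑' γ : Γ, e c * f γ * Ψ (γ * c) (V₁ * c') V₂ := by
  refine tsum_congr fun V₁ => tsum_congr fun V₂ => ?_
  rw [ENNReal.tsum_comm]
  refine tsum_congr fun c' => ?_
  rw [← ENNReal.tsum_mul_left]
  refine tsum_congr fun c => ?_
  rw [← ENNReal.tsum_mul_left]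
  refine tsum_congr fun γ => ?_
  ring

/-- The rearrangement of the five sums. -/
theorem Q1b_sum5 (a b e f ind : Γ → ℝ≥0∞) (Ψ : Γ → Γ → Γ → ℝ≥0∞) (C : ℝ≥0∞)
    (h : ∀ F : Γ → ℝ≥0∞, ∑' c : Γ, ∑' γ : Γ, e c * f γ * F (γ * c) ≤ C * ∑' g : Γ, ind g * F g) :
    (∑' V₁ : Γ, ∑' V₂ : Γ, ∑' c : Γ, ∑' c' : Γ, ∑' γ : Γ,
      a V₁ * b V₂ * e c * e c' * f γ * Ψ (γ * c) (V₁ * c') V₂) ≤
    C * ∑' g : Γ, ind g * ∑' V₂ : Γ, b V₂ * ∑' V₁ : Γ, ∑' c' : Γ,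
      a V₁ * e c' * Ψ g (V₁ * c') V₂ := by
  rw [Q1b_pull5]
  have h1 : (∑' V₁ : Γ, ∑' V₂ : Γ, ∑' c' : Γ, a V₁ * b V₂ * e c' *
      ∑' c : Γ, ∑' γ : Γ, e c * f γ * Ψ (γ * c) (V₁ * c') V₂) ≤
      ∑' V₁ : Γ, ∑' V₂ : Γ, ∑' c' : Γ, a V₁ * b V₂ * e c' *
        (C * ∑' g : Γ, ind g * Ψ g (V₁ * c') V₂) :=
    ENNReal.tsum_le_tsum fun V₁ => ENNReal.tsum_le_tsum fun V₂ => ENNReal.tsum_le_tsum fun c' =>
      mul_le_mul_right (h fun g => Ψ g (V₁ * c') V₂) _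
  refine h1.trans (le_of_eq ?_)
  -- the right side as a sum over `g, V₂, V₁, c'`
  have e1 : C * ∑' g : Γ, ind g * ∑' V₂ : Γ, b V₂ * ∑' V₁ : Γ, ∑' c' : Γ,
      a V₁ * e c' * Ψ g (V₁ * c') V₂ =
      ∑' g : Γ, ∑' V₂ : Γ, ∑' V₁ : Γ, ∑' c' : Γ,
        C * (ind g * (b V₂ * (a V₁ * e c' * Ψ g (V₁ * c') V₂))) := by
    simp only [← ENNReal.tsum_mul_left]
  have e2 : (∑' V₁ : Γ, ∑' V₂ : Γ, ∑' c' : Γ, a V₁ * b V₂ * e c' *
        (C * ∑' g : Γ, ind g * Ψ g (V₁ * c') V₂)) =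
      ∑' V₁ : Γ, ∑' V₂ : Γ, ∑' c' : Γ, ∑' g : Γ,
        C * (ind g * (b V₂ * (a V₁ * e c' * Ψ g (V₁ * c') V₂))) := by
    simp only [← ENNReal.tsum_mul_left]
    refine tsum_congr fun V₁ => tsum_congr fun V₂ => tsum_congr fun c' => tsum_congr fun g => ?_
    ring
  rw [e1, e2]
  -- move `g` to the front
  calc (∑' V₁ : Γ, ∑' V₂ : Γ, ∑' c' : Γ, ∑' g : Γ,
        C * (ind g * (b V₂ * (a V₁ * e c' * Ψ g (V₁ * c') V₂))))
      = ∑' V₁ : Γ, ∑' V₂ : Γ, ∑' g : Γ, ∑' c' : Γ,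
        C * (ind g * (b V₂ * (a V₁ * e c' * Ψ g (V₁ * c') V₂))) :=
        tsum_congr fun V₁ => tsum_congr fun V₂ => ENNReal.tsum_comm
    _ = ∑' V₁ : Γ, ∑' g : Γ, ∑' V₂ : Γ, ∑' c' : Γ,
        C * (ind g * (b V₂ * (a V₁ * e c' * Ψ g (V₁ * c') V₂))) :=
        tsum_congr fun V₁ => ENNReal.tsum_comm
    _ = ∑' g : Γ, ∑' V₁ : Γ, ∑' V₂ : Γ, ∑' c' : Γ,
        C * (ind g * (b V₂ * (a V₁ * e c' * Ψ g (V₁ * c') V₂))) := ENNReal.tsum_comm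
    _ = _ := tsum_congr fun g => ENNReal.tsum_comm

/-- Two chords make a loop. -/
theorem Q1b_loop (e f ind : Γ → ℝ≥0∞) (C₁ C₂ : ℝ≥0∞) (he : ∑' c : Γ, e c ≤ C₁)
    (hf : ∑' γ : Γ, f γ ≤ C₂) (hi : ∀ c γ : Γ, e c ≠ 0 → f γ ≠ 0 → ind (γ * c) = 1)
    (F : Γ → ℝ≥0∞) :
    ∑' c : Γ, ∑' γ : Γ, e c * f γ * F (γ * c) ≤ C₁ * C₂ * ∑' g : Γ, ind g * F g := by
  have e1 : (∑' c : Γ, ∑' γ : Γ, e c * f γ * F (γ * c)) =
      ∑' g : Γ, ∑' γ : Γ, e (γ⁻¹ * g) * f γ * F g := by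
    rw [ENNReal.tsum_comm]
    have : ∀ γ : Γ, ∑' c : Γ, e c * f γ * F (γ * c) = ∑' g : Γ, e (γ⁻¹ * g) * f γ * F g := by
      intro γ
      rw [← (Equiv.mulLeft γ).tsum_eq (fun g => e (γ⁻¹ * g) * f γ * F g)]
      refine tsum_congr fun c => ?_
      simp only [Equiv.coe_mulLeft, inv_mul_cancel_left]
    simp only [this]
    exact ENNReal.tsum_comm
  rw [e1, ← ENNReal.tsum_mul_left]
  refine ENNReal.tsum_le_tsum fun g => ?_
  have e2 : ∑' γ : Γ, e (γ⁻¹ * g) * f γ * F g ≤ ∑' γ : Γ, C₁ * f γ * (ind g * F g) := by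
    refine ENNReal.tsum_le_tsum fun γ => ?_
    by_cases h0 : e (γ⁻¹ * g) = 0
    · rw [h0, zero_mul, zero_mul]
      exact zero_le
    by_cases h1 : f γ = 0
    · rw [h1, mul_zero, zero_mul, mul_zero, zero_mul]
    have hg := hi _ _ h0 h1
    rw [mul_inv_cancel_left] at hg
    rw [hg, one_mul]
    refine mul_le_mul' (mul_le_mul' ?_ le_rfl) le_rfl
    exact (ENNReal.le_tsum (γ⁻¹ * g)).trans he
  refine e2.trans ?_
  rw [ENNReal.tsum_mul_right, ENNReal.tsum_mul_left]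
  exact mul_le_mul' (mul_le_mul' le_rfl hf) le_rfl

end Sums

section Main

variable {P H : Type} [Group P] [Group H] [TopologicalSpace P] [TopologicalSpace H]
  [IsTopologicalGroup P] [IsTopologicalGroup H] [LocallyCompactSpace P] [LocallyCompactSpace H]
  [T2Space P] [T2Space H] [SecondCountableTopology P] [SecondCountableTopology H]
  [MeasurableSpace P] [MeasurableSpace H] [BorelSpace P] [BorelSpace H]

theorem Q1b_mK {K : P × H → ℝ≥0∞} (hK : Measurable K) (u : P × H) :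
    Measurable fun q : (P × H) × (P × H) => K (q.1⁻¹ * u * q.2) :=
  hK.comp (by fun_prop)

/-- The common part of the two modules. -/
theorem Q1b_GL (hmer : S_mer P H) (hton : S_ton P H) (D : Dat P H) (hD : D.Ok)
    (hc : Countable D.Γ) {k₁ k K₁ : P → ℝ≥0∞} {n s : ℕ} (hn : 1 ≤ n) (hs : 1 ≤ s)
    (mk₁ : Measurable k₁) (mk : Measurable k) (m₁ : Measurable (D.tk k₁ n))
    (m : Measurable (D.tk k s)) {K₂ K' : P × H → ℝ≥0∞} (m₂ : Measurable K₂)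
    (m' : Measurable K') (mK₁ : Measurable (D.tk K₁ (n + s))) {S : Set (P × H)}
    (hS : MeasurableSet S) {C₁ C₂ C₃ : ℝ≥0∞} (hN : ∀ x y, D.N (D.tk k s) x y ≤ C₁)
    (hN' : ∀ x y, D.N K' x y ≤ C₂)
    (hsup : ∀ h h', D.tk k s h ≠ 0 → K' h' ≠ 0 → h' * h ∈ S)
    (hcv : ∀ g, cvP D.μ₁ k₁ k g ≤ C₃ * K₁ g)
    (Φ : P × H → D.Γ → D.Γ → D.Γ → ℝ≥0∞) (hΦ : ∀ g u v, Measurable fun x => Φ x g u v) :
    (D.IM fun x' => D.IM fun x => D.IM fun y => ∑' V₁ : D.Γ, ∑' V₂ : D.Γ, ∑' c : D.Γ,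
      ∑' c' : D.Γ, ∑' γ : D.Γ, D.tk k₁ n (x'⁻¹ * (V₁ : P × H) * x) *
        K₂ (x'⁻¹ * (V₂ : P × H) * y) * D.tk k s (x⁻¹ * (c : P × H) * y) *
        D.tk k s (x⁻¹ * (c' : P × H) * y) * K' (y⁻¹ * (γ : P × H) * x) *
        Φ x' (γ * c) (V₁ * c') V₂) ≤
    C₁ * C₂ * C₃ * D.IM fun z => D.lp S z fun g => D.IM fun x' =>
      D.st2 (D.tk K₁ (n + s)) K₂ x' z fun u v => Φ x' g u v := by
  obtain ⟨t1, t2, t3, t4, t5⟩ := hton D hD
  -- the function `R`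
  set R : (P × H) × (P × H) → ℝ≥0∞ := fun q => ∑' g : D.Γ,
    S.indicator (fun _ => (1 : ℝ≥0∞)) (q.2⁻¹ * (g : P × H) * q.2) *
      D.st2 (D.tk K₁ (n + s)) K₂ q.1 q.2 (fun u v => Φ q.1 g u v) with hR
  have mind : ∀ g : D.Γ, Measurable fun z : P × H =>
      S.indicator (fun _ => (1 : ℝ≥0∞)) (z⁻¹ * (g : P × H) * z) := fun g =>
    (measurable_const.indicator hS).comp (by fun_prop)
  have mst : ∀ g : D.Γ, Measurable fun q : (P × H) × (P × H) =>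
      D.st2 (D.tk K₁ (n + s)) K₂ q.1 q.2 (fun u v => Φ q.1 g u v) := by
    intro g
    unfold Dat.st2
    refine Measurable.tsum fun u => Measurable.tsum fun v => ?_
    exact ((Q1b_mK mK₁ u).mul (Q1b_mK m₂ v)).mul ((hΦ g u v).comp measurable_fst)
  have mR : Measurable R := by
    refine Measurable.tsum fun g => ?_
    exact ((mind g).comp measurable_snd).mul (mst g)
  -- for fixed `x'`, `y`
  have key : ∀ x' y : P × H, (D.IM fun x => ∑' V₁ : D.Γ, ∑' V₂ : D.Γ, ∑' c : D.Γ,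
      ∑' c' : D.Γ, ∑' γ : D.Γ, D.tk k₁ n (x'⁻¹ * (V₁ : P × H) * x) *
        K₂ (x'⁻¹ * (V₂ : P × H) * y) * D.tk k s (x⁻¹ * (c : P × H) * y) *
        D.tk k s (x⁻¹ * (c' : P × H) * y) * K' (y⁻¹ * (γ : P × H) * x) *
        Φ x' (γ * c) (V₁ * c') V₂) ≤ C₁ * C₂ * C₃ * R (x', y) := by
    intro x' y
    have s1 : ∀ x, (∑' V₁ : D.Γ, ∑' V₂ : D.Γ, ∑' c : D.Γ,
        ∑' c' : D.Γ, ∑' γ : D.Γ, D.tk k₁ n (x'⁻¹ * (V₁ : P × H) * x) *
        K₂ (x'⁻¹ * (V₂ : P × H) * y) * D.tk k s (x⁻¹ * (c : P × H) * y) *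
        D.tk k s (x⁻¹ * (c' : P × H) * y) * K' (y⁻¹ * (γ : P × H) * x) *
        Φ x' (γ * c) (V₁ * c') V₂) ≤ C₁ * C₂ * ∑' g : D.Γ,
          S.indicator (fun _ => (1 : ℝ≥0∞)) (y⁻¹ * (g : P × H) * y) *
          ∑' V₂ : D.Γ, K₂ (x'⁻¹ * (V₂ : P × H) * y) * ∑' V₁ : D.Γ, ∑' c' : D.Γ,
            D.tk k₁ n (x'⁻¹ * (V₁ : P × H) * x) * D.tk k s (x⁻¹ * (c' : P × H) * y) *
              Φ x' g (V₁ * c') V₂ := by
      intro x
      refine Q1b_sum5 (fun V₁ : D.Γ => D.tk k₁ n (x'⁻¹ * (V₁ : P × H) * x))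
        (fun V₂ : D.Γ => K₂ (x'⁻¹ * (V₂ : P × H) * y))
        (fun c : D.Γ => D.tk k s (x⁻¹ * (c : P × H) * y))
        (fun γ : D.Γ => K' (y⁻¹ * (γ : P × H) * x))
        (fun g : D.Γ => S.indicator (fun _ => (1 : ℝ≥0∞)) (y⁻¹ * (g : P × H) * y))
        (Φ x') (C₁ * C₂) fun F => ?_
      refine Q1b_loop _ _ _ C₁ C₂ (hN x y) (hN' y x) ?_ F
      intro c γ h1 h2
      have h3 := hsup _ _ h1 h2
      refine Set.indicator_of_mem ?_ _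
      have : y⁻¹ * ((γ * c : D.Γ) : P × H) * y =
          y⁻¹ * (γ : P × H) * x * (x⁻¹ * (c : P × H) * y) := by
        rw [Subgroup.coe_mul]
        group
      rw [this]
      exact h3
    refine (t5 _ _ s1).trans ?_
    -- measurability in `x`
    set I : D.Γ → ℝ≥0∞ := fun g => S.indicator (fun _ => (1 : ℝ≥0∞)) (y⁻¹ * (g : P × H) * y)
      with hI
    set B : D.Γ → ℝ≥0∞ := fun V₂ => K₂ (x'⁻¹ * (V₂ : P × H) * y) with hB
    set J : D.Γ → D.Γ → P × H → ℝ≥0∞ := fun g V₂ x => ∑' V₁ : D.Γ, ∑' c' : D.Γ,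
        D.tk k₁ n (x'⁻¹ * (V₁ : P × H) * x) * D.tk k s (x⁻¹ * (c' : P × H) * y) *
              Φ x' g (V₁ * c') V₂ with hJ
    have mJ : ∀ g V₂ : D.Γ, Measurable (J g V₂) := fun g V₂ =>
      Measurable.tsum fun V₁ => Measurable.tsum fun c' =>
        ((m₁.comp (by fun_prop)).mul (m.comp (by fun_prop))).mul_const _
    have mJ2 : ∀ g : D.Γ, Measurable fun x => ∑' V₂ : D.Γ, B V₂ * J g V₂ x := fun g =>
      Measurable.tsum fun V₂ => (mJ g V₂).const_mul _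
    have mJ3 : Measurable fun x => ∑' g : D.Γ, I g * ∑' V₂ : D.Γ, B V₂ * J g V₂ x :=
      Measurable.tsum fun g => (mJ2 g).const_mul _
    have a1 := t2 (C₁ * C₂) _ mJ3
    refine a1.le.trans ?_
    rw [mul_assoc (C₁ * C₂)]
    refine mul_le_mul_right ?_ _
    have a2 := t4 (fun g x => I g * ∑' V₂ : D.Γ, B V₂ * J g V₂ x)
      fun g => (mJ2 g).const_mul _
    refine a2.le.trans ?_
    have hRq : R (x', y) = ∑' g : D.Γ, I g *
      D.st2 (D.tk K₁ (n + s)) K₂ x' y (fun u v => Φ x' g u v) := rfl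
    rw [hRq, ← ENNReal.tsum_mul_left]
    refine ENNReal.tsum_le_tsum fun g => ?_
    have a3 := t2 (I g) _ (mJ2 g)
    refine a3.le.trans ?_
    rw [mul_left_comm C₃]
    refine mul_le_mul_right ?_ _
    have a4 := t4 (fun V₂ x => B V₂ * J g V₂ x) fun V₂ => (mJ g V₂).const_mul _
    refine a4.le.trans ?_
    have e3 : ∀ V₂ : D.Γ, (D.IM fun x => B V₂ * J g V₂ x) ≤
        C₃ * ∑' u : D.Γ, D.tk K₁ (n + s) (x'⁻¹ * (u : P × H) * y) *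
          K₂ (x'⁻¹ * (V₂ : P × H) * y) * Φ x' g u V₂ := by
      intro V₂
      have a5 := t2 (B V₂) _ (mJ g V₂)
      have a6 := (hmer D hD k₁ k n s mk₁ mk hn hs (fun u => Φ x' g u V₂)).1 x' y
      refine a5.le.trans ?_
      have a7 : D.IM (J g V₂) = ∑' u : D.Γ, D.tk (cvP D.μ₁ k₁ k) (n + s)
        (x'⁻¹ * (u : P × H) * y) * Φ x' g u V₂ := a6
      rw [a7, ← ENNReal.tsum_mul_left, ← ENNReal.tsum_mul_left]
      refine ENNReal.tsum_le_tsum fun u => ?_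
      have : D.tk (cvP D.μ₁ k₁ k) (n + s) (x'⁻¹ * (u : P × H) * y) ≤
          C₃ * D.tk K₁ (n + s) (x'⁻¹ * (u : P × H) * y) := by
        unfold Dat.tk
        rw [← mul_assoc]
        exact mul_le_mul' (hcv _) le_rfl
      calc B V₂ *
            (D.tk (cvP D.μ₁ k₁ k) (n + s) (x'⁻¹ * (u : P × H) * y) * Φ x' g u V₂)
          ≤ B V₂ *
            ((C₃ * D.tk K₁ (n + s) (x'⁻¹ * (u : P × H) * y)) * Φ x' g u V₂) :=
            mul_le_mul' le_rfl (mul_le_mul' this le_rfl)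
        _ = _ := by rw [hB]; ring
    refine (ENNReal.tsum_le_tsum e3).trans (le_of_eq ?_)
    rw [ENNReal.tsum_mul_left]
    unfold Dat.st2
    rw [ENNReal.tsum_comm]
  -- the swap of `x` and `y`
  have sw : ∀ x' : P × H, (D.IM fun x => D.IM fun y => ∑' V₁ : D.Γ, ∑' V₂ : D.Γ, ∑' c : D.Γ,
      ∑' c' : D.Γ, ∑' γ : D.Γ, D.tk k₁ n (x'⁻¹ * (V₁ : P × H) * x) *
        K₂ (x'⁻¹ * (V₂ : P × H) * y) * D.tk k s (x⁻¹ * (c : P × H) * y) *
        D.tk k s (x⁻¹ * (c' : P × H) * y) * K' (y⁻¹ * (γ : P × H) * x) *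
        Φ x' (γ * c) (V₁ * c') V₂) ≤ C₁ * C₂ * C₃ * D.IM fun y => R (x', y) := by
    intro x'
    have mh : Measurable fun q : (P × H) × (P × H) => ∑' V₁ : D.Γ, ∑' V₂ : D.Γ, ∑' c : D.Γ,
      ∑' c' : D.Γ, ∑' γ : D.Γ, D.tk k₁ n (x'⁻¹ * (V₁ : P × H) * q.1) *
        K₂ (x'⁻¹ * (V₂ : P × H) * q.2) * D.tk k s (q.1⁻¹ * (c : P × H) * q.2) *
        D.tk k s (q.1⁻¹ * (c' : P × H) * q.2) * K' (q.2⁻¹ * (γ : P × H) * q.1) *
        Φ x' (γ * c) (V₁ * c') V₂ := by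
      refine Measurable.tsum fun V₁ => Measurable.tsum fun V₂ =>
        Measurable.tsum fun c => Measurable.tsum fun c' =>
        Measurable.tsum fun γ => ?_
      refine Measurable.mul_const ?_ _
      exact ((((m₁.comp (by fun_prop)).mul (m₂.comp (by fun_prop))).mul (Q1b_mK m c)).mul
        (Q1b_mK m c')).mul (m'.comp (by fun_prop))
    have h := (t1 _ mh).1
    simp only [] at h
    rw [h]
    refine (t5 _ _ fun y => key x' y).trans (le_of_eq ?_)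
    exact t2 _ _ (mR.comp (by fun_prop))
  refine (t5 _ (fun x' => C₁ * C₂ * C₃ * D.IM fun y => R (x', y)) sw).trans (le_of_eq ?_)
  have b1 : (D.IM fun x' => C₁ * C₂ * C₃ * D.IM fun y => R (x', y)) =
      C₁ * C₂ * C₃ * D.IM fun x' => D.IM fun y => R (x', y) := t2 _ _ (t1 R mR).2
  have b2 : (D.IM fun x' => D.IM fun y => R (x', y)) = D.IM fun y => D.IM fun x' => R (x', y) :=
    (t1 R mR).1
  have b3 : ∀ y : P × H, (D.IM fun x' => R (x', y)) = ∑' g : D.Γ,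
      S.indicator (fun _ => (1 : ℝ≥0∞)) (y⁻¹ * (g : P × H) * y) *
        D.IM fun x' => D.st2 (D.tk K₁ (n + s)) K₂ x' y fun u v => Φ x' g u v := by
    intro y
    have c0 : Measurable fun x' : P × H => (x', y) := measurable_id.prodMk measurable_const
    have c1 : ∀ g : D.Γ, Measurable fun x' : P × H =>
        D.st2 (D.tk K₁ (n + s)) K₂ x' y fun u v => Φ x' g u v := by
      intro g
      have := (mst g).comp c0
      exact this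
    have c2 := t4 (fun g x' => S.indicator (fun _ => (1 : ℝ≥0∞)) (y⁻¹ * (g : P × H) * y) *
      D.st2 (D.tk K₁ (n + s)) K₂ x' y (fun u v => Φ x' g u v)) fun g => (c1 g).const_mul _
    refine c2.trans (tsum_congr fun g => ?_)
    exact t2 _ _ (c1 g)
  refine b1.trans ?_
  rw [b2]
  have b4 : (D.IM fun y => D.IM fun x' => R (x', y)) = D.IM fun y => ∑' g : D.Γ,
      S.indicator (fun _ => (1 : ℝ≥0∞)) (y⁻¹ * (g : P × H) * y) *
        D.IM fun x' => D.st2 (D.tk K₁ (n + s)) K₂ x' y fun u v => Φ x' g u v :=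
    congrArg D.IM (funext b3)
  rw [b4]
  rfl

/-- `FE` is monotone in the windows. -/
theorem Q1b_FE_mono (hAD : S_AD P) (D : Dat P H) (G : PG P) (hD : D.Ok) (hG : G.Ok)
    {Q Q' : Set P} (c : ℕ) {eu eu' ev ev' : Ec P} (hQ : Q ⊆ Q') (hc : eu.c = eu'.c)
    (h1 : eu.S ⊆ eu'.S) (h2 : eu.K ⊆ eu'.K) (h3 : ev.S ⊆ ev'.S) (h4 : ev.K ⊆ ev'.K) (R : ℕ)
    (i : Fin 2 → ℕ) (φ : D.Γ → P → ℝ) :
    FE D G Q c eu ev R i φ ≤ FE D G Q' c eu' ev' R i φ := by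
  have := hD.haar₁
  have := hD.right₁
  have := hD.inv₁
  have hm := (hAD G D.μ₁ hG).1
  have hk : ∀ (e e' : Ec P) (n : ℕ), e.S ⊆ e'.S → e.K ⊆ e'.K → ∀ g, D.ke G e R n g ≤
      D.ke G e' R n g := fun e e' n hS hK g =>
    mul_le_mul' (hm _ _ _ _ _ _ _ hS hK le_rfl _) le_rfl
  have hI : ∀ f g : P × H → ℝ≥0∞, (∀ x, f x ≤ g x) → D.IM f ≤ D.IM g := fun f g h =>
    lintegral_mono fun x => mul_le_mul_right (h x) _
  refine hI _ _ fun z => ENNReal.tsum_le_tsum fun g => mul_le_mul' ?_ (hI _ _ fun x => ?_)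
  · exact Set.indicator_le_indicator_of_subset (Set.prod_mono hQ subset_rfl)
      (fun _ => zero_le) _
  · refine ENNReal.tsum_le_tsum fun u => ENNReal.tsum_le_tsum fun v => ?_
    rw [hc]
    exact mul_le_mul' (mul_le_mul' (hk _ _ _ h1 h2 _) (hk _ _ _ h3 h4 _)) le_rfl

/-- The support of the straight chords. -/
theorem Q1b_ch_ne (hnu : S_nu P H) (D : Dat P H) (G : PG P) (hD : D.Ok) {U : Set P} {s : ℕ}
    (hs : 1 ≤ s) {h : P × H} (hh : D.ch G U s h ≠ 0) :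
    ∃ q ∈ U, ∃ u ∈ U, h.1 = q * G.a ^ s * u⁻¹ ∧ h.2 ∈ D.O ^ s := by
  have hh' : eP D.μ₁ G U (G.uw U) 0 s h.1 * D.nu s h.2 ≠ 0 := hh
  have h2 : h.2 ∈ D.O ^ s :=
    ((hnu D hD).2.2.1 s hs h.2).1 (pos_iff_ne_zero.2 (right_ne_zero_of_mul hh'))
  have h1 := left_ne_zero_of_mul hh'
  have hex : ∃ q, iK (U * G.D1 ^ 0) q * iK (G.ew (G.uw U)) ((G.a ^ s)⁻¹ * q⁻¹ * h.1) ≠ 0 := by
    by_contra hcon
    push Not at hcon
    apply h1
    unfold eP kk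
    simp only [hcon, lintegral_zero]
  obtain ⟨q, hq⟩ := hex
  have hne : ∀ {S : Set P} {x : P}, iK S x ≠ 0 → x ∈ S := by
    intro S x hx
    by_contra hc
    exact hx (Set.indicator_of_notMem hc _)
  obtain ⟨u, hu, d, hd, hud⟩ := hne (left_ne_zero_of_mul hq)
  rw [pow_zero, Set.mem_one] at hd
  have hqu : q = u := by
    rw [← hud, hd]
    exact mul_one u
  obtain ⟨v, hv, w', hw', hvw⟩ := hne (right_ne_zero_of_mul hq)
  rw [Set.mem_singleton_iff.1 hw'] at hvw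
  have hv' : v = ((G.a ^ s)⁻¹ * q⁻¹ * h.1)⁻¹ := mul_right_cancel (b := G.w) hvw
  refine ⟨q, hqu ▸ hu, v, hv, ?_, h2⟩
  rw [hv']
  group

/-- Two neighbourhoods. -/
theorem Q1b_nb {f : P × P → P} (hf : Continuous f) {U : Set P} (hU : U ∈ 𝓝 (1 : P))
    (h1 : f (1, 1) = 1) : ∃ N ∈ 𝓝 (1 : P), ∀ x ∈ N, ∀ y ∈ N, f (x, y) ∈ U := by
  have hm : f ⁻¹' U ∈ 𝓝 ((1 : P), (1 : P)) := hf.continuousAt (by rw [h1]; exact hU)
  rw [nhds_prod_eq, Filter.mem_prod_self_iff] at hm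
  obtain ⟨t, ht, hs⟩ := hm
  exact ⟨t, ht, fun x hx y hy => hs (Set.mk_mem_prod hx hy)⟩

/-- Products of two straight displacements. -/
theorem Q1b_two (G : PG P) (hG : G.Ok) {U₁ : Set P} (hU₁ : U₁ ∈ 𝓝 (1 : P)) :
    ∃ N ∈ 𝓝 (1 : P), ∀ s t : ℕ, ∀ q ∈ N, ∀ r ∈ N, ∀ q' ∈ N, ∀ r' ∈ N,
      q * G.a ^ t * r⁻¹ * (q' * G.a ^ s * r'⁻¹) ∈ U₁ * {G.a ^ (s + t)} * U₁ := by
  obtain ⟨A, hA, a1⟩ := Q1b_nb (f := fun z : P × P => z.1 * z.2) (by fun_prop) hU₁ (by simp)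
  obtain ⟨B, hB, b1⟩ := Q1b_nb (f := fun z : P × P => z.1 * z.2) (by fun_prop) hA (by simp)
  obtain ⟨C, hC, c1⟩ := Q1b_nb (f := fun z : P × P => z.1 * z.2⁻¹) (by fun_prop) hU₁ (by simp)
  obtain ⟨V, hV, hv⟩ := hG.JN1 (A ∩ B ∩ C) (Filter.inter_mem (Filter.inter_mem hA hB) hC)
  obtain ⟨E, hE, e1⟩ := Q1b_nb (f := fun z : P × P => z.1⁻¹ * z.2) (by fun_prop) hV (by simp)
  have ha0 : ∀ n : ℕ, G.a ^ n ∈ G.Dp 0 := by
    intro n
    have : ∀ k : ℕ, G.Dp k ⊆ G.Dp 0 := by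
      intro k
      induction k with
      | zero => exact subset_rfl
      | succ k ih => exact (hG.Dps k).trans ih
    exact this n (hG.Dpa n)
  refine ⟨B ∩ C ∩ E, Filter.inter_mem (Filter.inter_mem hB hC) hE, ?_⟩
  intro s t q hq r hr q' hq' r' hr'
  obtain ⟨e, he, e', he', d, -, hd, E1⟩ := hv (G.a ^ t) (ha0 t) (G.a ^ s) (ha0 s) (r⁻¹ * q')
    (e1 r hr.2 q' hq'.2)
  have h : q * G.a ^ t * r⁻¹ * (q' * G.a ^ s * r'⁻¹) =
      q * e * d * G.a ^ (s + t) * (e' * r'⁻¹) := by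
    calc q * G.a ^ t * r⁻¹ * (q' * G.a ^ s * r'⁻¹)
        = q * (G.a ^ t * (r⁻¹ * q') * G.a ^ s) * r'⁻¹ := by simp only [mul_assoc]
      _ = q * (e * (d * G.a ^ t * G.a ^ s) * e') * r'⁻¹ := by rw [E1]
      _ = _ := by
          rw [add_comm s t, pow_add]
          simp only [mul_assoc]
  rw [h]
  exact Set.mul_mem_mul (Set.mul_mem_mul (a1 _ (b1 _ hq.1.1 _ he.1.2) _ hd.1.1) rfl)
    (c1 _ he'.2 _ hr'.1.2)

theorem Q1b_uw_int (G : PG P) {U U' : Set P} (h : U ⊆ interior U') :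
    G.uw U ⊆ interior (G.uw U') := by
  have h1 : IsOpen (interior U' * {G.w}) := isOpen_interior.mul_right
  exact (Set.mul_subset_mul_right h).trans
    (interior_maximal (Set.mul_subset_mul_right interior_subset) h1)

theorem Q1b_ab {X : Type} [MeasurableSpace X] {f : X → ℝ} (hf : Measurable f) :
    Measurable fun x => ab (f x) :=
  ENNReal.measurable_ofReal.comp (continuous_abs.measurable.comp hf)

end Main

variable (P H : Type) [Group P] [Group H] [TopologicalSpace P] [TopologicalSpace H]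
  [IsTopologicalGroup P] [IsTopologicalGroup H] [LocallyCompactSpace P] [LocallyCompactSpace H]
  [T2Space P] [T2Space H] [SecondCountableTopology P] [SecondCountableTopology H]
  [MeasurableSpace P] [MeasurableSpace H] [BorelSpace P] [BorelSpace H]

theorem tQ1b : S_ms2 P → S_mer P H → S_ec P → S_egm P H → S_ton P H → S_lpn P H → S_O P H →
    S_nu P H → S_AD P → S_inst P H → S_Q1b P H := by
  intro hms2 hmer _hec hegm hton _hlpn hO hnu hAD hinst D G hF U₀ hU₀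
  have hD := hF.ok
  have hG := hF.gok
  have := hD.haar₁
  have := hD.right₁
  have := hD.inv₁
  obtain ⟨-, -, -, hcount, -⟩ := hinst D hD
  have hUn : Un D.μ₁ := ⟨hD.haar₁, hD.right₁, hD.inv₁⟩
  obtain ⟨U₁, hU₁, hU₁s, hU₁c⟩ := local_compact_nhds hU₀
  obtain ⟨Ua, hUa, hUas, hUac⟩ := local_compact_nhds (interior_mem_nhds.2 hU₁)
  have cuw : ∀ {U : Set P}, IsCompact U → IsCompact (G.uw U) := fun h => h.mul isCompact_singleton
  obtain ⟨V, hV, hVc, hms⟩ := hms2 G D.μ₁ hUn hG (G.uw Ua) (G.uw Ua) (G.uw U₁) (G.uw U₁)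
    (cuw hUac) (cuw hUac) (Q1b_uw_int G hUas) (Q1b_uw_int G hUas)
  obtain ⟨N, hN, hn⟩ := Q1b_two G hG hU₁
  obtain ⟨U, hU, hUs, hUc⟩ := local_compact_nhds (Filter.inter_mem (Filter.inter_mem hUa hV) hN)
  have hUUa : U ⊆ Ua := fun x hx => (hUs hx).1.1
  have hUV : U ⊆ V := fun x hx => (hUs hx).1.2
  have hUN : U ⊆ N := fun x hx => (hUs hx).2
  have hUU₁ : U ⊆ U₁ := hUUa.trans (hUas.trans interior_subset)
  refine ⟨U, hU, hUc, fun s t hs ht R => ?_⟩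
  obtain ⟨C₃, T₃, hC₃, hcv⟩ := hms R 0
  obtain ⟨C₁, hC₁, hN₁⟩ := hF.up U (G.uw U) hUc (cuw hUc) 0
  refine ⟨C₁ * C₁ * C₃, max T₃ 1, ENNReal.mul_ne_top (ENNReal.mul_ne_top hC₁ hC₁) hC₃,
    fun n m hn' _ φ hφ i hi0 hi1 => ?_⟩
  have hnT : T₃ ≤ n := (le_max_left _ _).trans hn'
  have hn1 : 1 ≤ n := (le_max_right _ _).trans hn'
  obtain ⟨e1, -, e3, -⟩ := hegm D G hD hG
  obtain ⟨a1, -, -, -, a5, -⟩ := hAD G D.μ₁ hG
  have hQc : IsCompact (U₁ * {G.a ^ (s + t)} * U₁) := (hU₁c.mul isCompact_singleton).mul hU₁c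
  have hS : MeasurableSet ((U₁ * {G.a ^ (s + t)} * U₁) ×ˢ (D.O ^ (s + t))) :=
    hQc.isClosed.measurableSet.prod
      (((hO D hD).1 (s + t) (hs.trans (Nat.le_add_right _ _))).measurableSet)
  have main := Q1b_GL hmer hton D hD hcount (k₁ := eP D.μ₁ G (G.uw U) (G.uw U) R n)
    (k := eP D.μ₁ G U (G.uw U) 0 s) (K₁ := eP D.μ₁ G (G.uw U₁) (G.uw U₁) R (n + s)) hn1 hs
    (a5 _ _ (cuw hUc) (cuw hUc) _ _) (a5 _ _ hUc (cuw hUc) _ _)
    (e1 _ _ (cuw hUc) (cuw hUc) R n) (e1 _ _ hUc (cuw hUc) 0 s) (K₂ := D.eg G U U R m)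
    (K' := D.ch G U t) (e1 _ _ hUc hUc R m) (e1 _ _ hUc (cuw hUc) 0 t)
    (e1 _ _ (cuw hU₁c) (cuw hU₁c) R (n + s)) hS (C₁ := C₁) (C₂ := C₁) (C₃ := C₃)
    (hN₁ s) (hN₁ t) ?_ ?_ (fun x' g u v => ab (Dg G φ G.w x' g u v))
    (fun g u v => Q1b_ab (e3 φ hφ G.w g u v))
  · have hle : F5 D G U s t R n m (fun x' _ _ V₁ V₂ c c' γ =>
        ab (Dg G φ G.w x' (γ * c) (V₁ * c') V₂)) ≤
        C₁ * C₁ * C₃ * FE D G (U₁ * {G.a ^ (s + t)} * U₁) (s + t) ⟨G.w, G.uw U₁, G.uw U₁⟩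
          ⟨1, U, U⟩ R i φ := by
      unfold FE Dat.ke
      rw [hi0, hi1]
      exact main
    have hmo := Q1b_FE_mono hAD D G hD hG (Q := U₁ * {G.a ^ (s + t)} * U₁)
      (Q' := U₀ * {G.a ^ (s + t)} * U₀) (s + t) (eu := ⟨G.w, G.uw U₁, G.uw U₁⟩)
      (eu' := ⟨G.w, G.uw U₀, G.uw U₀⟩) (ev := ⟨1, U, U⟩) (ev' := ⟨1, U₀, U₀⟩)
      (Set.mul_subset_mul (Set.mul_subset_mul hU₁s subset_rfl) hU₁s) rfl
      (Set.mul_subset_mul hU₁s subset_rfl) (Set.mul_subset_mul hU₁s subset_rfl)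
      (hUU₁.trans hU₁s) (hUU₁.trans hU₁s) R i φ
    exact hle.trans (mul_le_mul_right hmo _)
  · intro h h' h1 h2
    obtain ⟨q', hq', r', hr', E1, O1⟩ := Q1b_ch_ne hnu D G hD hs (U := U) h1
    obtain ⟨q, hq, r, hr, E2, O2⟩ := Q1b_ch_ne hnu D G hD ht h2
    refine ⟨?_, ?_⟩
    · change h'.1 * h.1 ∈ _
      rw [E1, E2]
      exact hn s t q (hUN hq) r (hUN hr) q' (hUN hq') r' (hUN hr')
    · change h'.2 * h.2 ∈ _
      rw [add_comm s t, pow_add]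
      exact Set.mul_mem_mul O2 O1
  · intro g
    have h := (hcv n s (Or.inr hnT) (Or.inl rfl) g).1
    refine le_trans ?_ h
    refine lintegral_mono fun q => mul_le_mul' ?_ ?_
    · exact a1 _ _ _ _ _ _ _ (Set.mul_subset_mul hUUa subset_rfl)
        (Set.mul_subset_mul hUV subset_rfl) le_rfl _
    · exact a1 _ _ _ _ _ _ _ hUV (Set.mul_subset_mul hUUa subset_rfl) le_rfl _

end Pool.Agent.MPEF.U
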