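import Pool.Agent.Lib.MP_ef3f0f_gt.U.E.Q1b

set_option autoImplicit false
set_option linter.unusedSectionVars false

/-!
# MP_ef3f0f_gt, Theorem U, Part E, module `Q1c`: one step, second term

The second term is the first one with the roles of `x` and `y` exchanged (`Q1b_GL`), followed by a
shift of the end point.
-/

namespace Pool.Agent.MPEF.U

open MeasureTheory Topology
open scoped ENNReal Pointwise

section Sums

variable {Γ : Type} [Group Γ]

private theorem Q1c_sum (a b e f : Γ → ℝ≥0∞) (Ψ : Γ → Γ → Γ → ℝ≥0∞) :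
    (∑' V₁ : Γ, ∑' V₂ : Γ, ∑' c : Γ, ∑' c' : Γ, ∑' γ : Γ,
      a V₁ * b V₂ * e c * e c' * f γ * Ψ ((c' * γ)⁻¹) (V₂ * c⁻¹) V₁) =
    ∑' W₁ : Γ, ∑' W₂ : Γ, ∑' d : Γ, ∑' d' : Γ, ∑' δ : Γ,
      b W₁ * a W₂ * e d⁻¹ * e d'⁻¹ * f δ⁻¹ * Ψ (δ * d) (W₁ * d') W₂ := by
  rw [ENNReal.tsum_comm]
  refine tsum_congr fun V₂ => tsum_congr fun V₁ => ?_
  rw [ENNReal.tsum_comm, ← (Equiv.inv Γ).tsum_eq]
  refine tsum_congr fun d => ?_
  rw [← (Equiv.inv Γ).tsum_eq]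
  refine tsum_congr fun d' => ?_
  rw [← (Equiv.inv Γ).tsum_eq]
  refine tsum_congr fun δ => ?_
  simp only [Equiv.inv_apply, mul_inv_rev, inv_inv]
  ring

end Sums

section Main

variable {P H : Type} [Group P] [Group H] [TopologicalSpace P] [TopologicalSpace H]
  [IsTopologicalGroup P] [IsTopologicalGroup H] [LocallyCompactSpace P] [LocallyCompactSpace H]
  [T2Space P] [T2Space H] [SecondCountableTopology P] [SecondCountableTopology H]
  [MeasurableSpace P] [MeasurableSpace H] [BorelSpace P] [BorelSpace H]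

/-- The integrand of `FE`. -/
private noncomputable def Q1c_F (D : Dat P H) (G : PG P) (S : Set (P × H))
    (K₁ K₂ : P × H → ℝ≥0∞) (φ : D.Γ → P → ℝ) (z : P × H) : ℝ≥0∞ :=
  D.lp S z fun g => D.IM fun x => D.st2 K₁ K₂ x z fun u v => ab (Dg G φ 1 x g u v)

private theorem Q1c_meas (hegm : S_egm P H) (hton : S_ton P H) (D : Dat P H) (G : PG P)
    (hD : D.Ok) (hG : G.Ok) (hc : Countable D.Γ) {S : Set (P × H)} (hS : MeasurableSet S)
    {K₁ K₂ : P × H → ℝ≥0∞} (h₁ : Measurable K₁) (h₂ : Measurable K₂) {φ : D.Γ → P → ℝ}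
    (hφ : Adm D G φ) : Measurable (Q1c_F D G S K₁ K₂ φ) := by
  refine Measurable.tsum fun g => Measurable.mul ?_ ?_
  · exact (measurable_const.indicator hS).comp (by fun_prop)
  · have hm : Measurable fun q : (P × H) × (P × H) =>
        D.st2 K₁ K₂ q.2 q.1 fun u v => ab (Dg G φ 1 q.2 g u v) := by
      unfold Dat.st2
      refine Measurable.tsum fun u => Measurable.tsum fun v => ?_
      refine ((h₁.comp (by fun_prop)).mul (h₂.comp (by fun_prop))).mul ?_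
      exact (Q1b_ab ((hegm D G hD hG).2.2.1 φ hφ 1 g u v)).comp measurable_snd
    exact ((hton D hD).1 _ hm).2

private theorem Q1c_inv (D : Dat P H) (G : PG P) {S : Set (P × H)}
    {K₁ K₂ : P × H → ℝ≥0∞} {φ : D.Γ → P → ℝ} (γ : D.Γ) (z : P × H) :
    Q1c_F D G S K₁ K₂ φ ((γ : P × H) * z) = Q1c_F D G S K₁ K₂ φ z := by
  unfold Q1c_F Dat.lp
  rw [← (MulAut.conj γ).toEquiv.tsum_eq]
  refine tsum_congr fun g => ?_
  have e0 : (MulAut.conj γ).toEquiv g = γ * g * γ⁻¹ := rfl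
  rw [e0]
  congr 1
  · congr 1
    simp only [Subgroup.coe_mul, Subgroup.coe_inv]
    group
  · refine congrArg D.IM (funext fun x => ?_)
    unfold Dat.st2
    rw [← (Equiv.mulRight γ⁻¹).tsum_eq]
    refine tsum_congr fun u => ?_
    rw [← (Equiv.mulRight γ⁻¹).tsum_eq]
    refine tsum_congr fun v => ?_
    simp only [Equiv.coe_mulRight]
    have e1 : ∀ u : D.Γ, x⁻¹ * ((u * γ⁻¹ : D.Γ) : P × H) * ((γ : P × H) * z) =
        x⁻¹ * (u : P × H) * z := by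
      intro u
      simp only [Subgroup.coe_mul, Subgroup.coe_inv]
      group
    have e2 : Dg G φ 1 x (γ * g * γ⁻¹) (u * γ⁻¹) (v * γ⁻¹) = Dg G φ 1 x g u v := by
      unfold Dg
      have e3 : u * γ⁻¹ * (γ * g * γ⁻¹) * (v * γ⁻¹)⁻¹ = u * g * v⁻¹ := by group
      have e4 : u * γ⁻¹ * (v * γ⁻¹)⁻¹ = u * v⁻¹ := by group
      rw [e3, e4]
    rw [e1, e1, e2]

private theorem Q1c_shift (D : Dat P H) (G : PG P) {S S' : Set (P × H)}
    {K₁ K₂ K₁' K₂' : P × H → ℝ≥0∞} {φ : D.Γ → P → ℝ} (p : P × H)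
    (hS : ∀ h, h ∈ S ↔ p⁻¹ * h * p ∈ S') (h₁ : ∀ g, K₁ g = K₁' (g * p))
    (h₂ : ∀ g, K₂ g = K₂' (g * p)) (z : P × H) :
    Q1c_F D G S K₁ K₂ φ z = Q1c_F D G S' K₁' K₂' φ (z * p) := by
  unfold Q1c_F Dat.lp Dat.st2
  refine tsum_congr fun g => ?_
  have e1 : S.indicator (fun _ => (1 : ℝ≥0∞)) (z⁻¹ * (g : P × H) * z) =
      S'.indicator (fun _ => (1 : ℝ≥0∞)) ((z * p)⁻¹ * (g : P × H) * (z * p)) := by
    have e2 : (z * p)⁻¹ * (g : P × H) * (z * p) = p⁻¹ * (z⁻¹ * (g : P × H) * z) * p := by group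
    rw [e2]
    by_cases h : z⁻¹ * (g : P × H) * z ∈ S
    · rw [Set.indicator_of_mem h, Set.indicator_of_mem ((hS _).1 h)]
    · rw [Set.indicator_of_notMem h, Set.indicator_of_notMem fun h' => h ((hS _).2 h')]
  rw [e1]
  refine congrArg (fun t => S'.indicator (fun _ => (1 : ℝ≥0∞))
    ((z * p)⁻¹ * (g : P × H) * (z * p)) * t) (congrArg D.IM (funext fun x => ?_))
  refine tsum_congr fun u => tsum_congr fun v => ?_
  rw [h₁, h₂, mul_assoc _ z p, mul_assoc _ z p]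

end Main

variable (P H : Type) [Group P] [Group H] [TopologicalSpace P] [TopologicalSpace H]
  [IsTopologicalGroup P] [IsTopologicalGroup H] [LocallyCompactSpace P] [LocallyCompactSpace H]
  [T2Space P] [T2Space H] [SecondCountableTopology P] [SecondCountableTopology H]
  [MeasurableSpace P] [MeasurableSpace H] [BorelSpace P] [BorelSpace H]

theorem tQ1c : S_ms2 P → S_mer3 P H → S_ec P → S_egm P H → S_ton P H → S_lpn P H →
    S_IM P H → S_O P H → S_nu P H → S_AD P → S_mer P H → S_inst P H → S_Q1c P H := by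
  intro hms2 _hmer3 hec hegm hton _hlpn hIM hO hnu hAD hmer hinst D G hF U₀ hU₀
  have hD := hF.ok
  have hG := hF.gok
  have := hD.haar₁
  have := hD.right₁
  have := hD.inv₁
  obtain ⟨-, -, -, hcount, -⟩ := hinst D hD
  have hUn : Un D.μ₁ := ⟨hD.haar₁, hD.right₁, hD.inv₁⟩
  have hww : G.w * G.w = 1 := hG.ww
  have hwi : G.w⁻¹ = G.w := inv_eq_of_mul_eq_one_left hww
  have hwa : ∀ n : ℕ, G.w * (G.a ^ n)⁻¹ * G.w = G.a ^ n := by
    intro n
    have h1 : (G.w * G.a * G.w⁻¹) ^ n = G.w * G.a ^ n * G.w⁻¹ := conj_pow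
    rw [hwi, hG.wa] at h1
    have h2 := congrArg (fun x => x⁻¹) h1
    simp only [mul_inv_rev, inv_pow, inv_inv, hwi] at h2
    exact (mul_assoc _ _ _).trans h2.symm
  have hai : ∀ n : ℕ, (G.a ^ n)⁻¹ = G.w * G.a ^ n * G.w := by
    intro n
    have h1 : (G.a ^ n)⁻¹ = G.w * (G.w * (G.a ^ n)⁻¹ * G.w) * G.w := by
      simp only [← mul_assoc, hww, one_mul]
      rw [mul_assoc, hww, mul_one]
    rw [hwa n] at h1
    exact h1
  -- conjugation by `w`
  have hcw : ∀ {V : Set P}, V ∈ 𝓝 (1 : P) → (fun v : P => G.w * v * G.w) ⁻¹' V ∈ 𝓝 (1 : P) := by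
    intro V hV
    have hc : ContinuousAt (fun v : P => G.w * v * G.w) 1 := by fun_prop
    exact hc (by simpa [hww] using hV)
  obtain ⟨U₁, hU₁, hU₁s, hU₁c⟩ := local_compact_nhds (Filter.inter_mem hU₀ (hcw hU₀))
  obtain ⟨Ua, hUa, hUas, hUac⟩ := local_compact_nhds (interior_mem_nhds.2 hU₁)
  have cuw : ∀ {U : Set P}, IsCompact U → IsCompact (G.uw U) := fun h => h.mul isCompact_singleton
  obtain ⟨V, hV, hVc, hms⟩ := hms2 G D.μ₁ hUn hG Ua Ua U₁ U₁ hUac hUac hUas hUas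
  obtain ⟨N, hN, hn⟩ := Q1b_two G hG hU₁
  obtain ⟨U, hU, hUs, hUc⟩ := local_compact_nhds
    (Filter.inter_mem (Filter.inter_mem hUa hV) (hcw hN))
  have hUUa : U ⊆ Ua := fun x hx => (hUs hx).1.1
  have hUV : U ⊆ V := fun x hx => (hUs hx).1.2
  have hUN : ∀ x ∈ U, G.w * x * G.w ∈ N := fun x hx => (hUs hx).2
  have hUU₁ : U ⊆ U₁ := hUUa.trans (hUas.trans interior_subset)
  refine ⟨U, hU, hUc, fun s t hs ht R => ?_⟩
  obtain ⟨C₃, T₃, hC₃, hcv⟩ := hms R 0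
  obtain ⟨C₁, hC₁, hN₁⟩ := hF.up U (G.uw U) hUc (cuw hUc) 0
  refine ⟨C₁ * C₁ * C₃, max T₃ 1, ENNReal.mul_ne_top (ENNReal.mul_ne_top hC₁ hC₁) hC₃,
    fun n m _ hm' φ hφ i hi0 hi1 => ?_⟩
  have hmT : T₃ ≤ m := (le_max_left _ _).trans hm'
  have hm1 : 1 ≤ m := (le_max_right _ _).trans hm'
  obtain ⟨e1, -, e3, -⟩ := hegm D G hD hG
  obtain ⟨a1, -, -, -, a5, -⟩ := hAD G D.μ₁ hG
  obtain ⟨c1, c2, -, c4, -⟩ := hec G D.μ₁ hUn hG
  have hnui := (hnu D hD).2.2.2.1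
  have hQc : IsCompact (U₁ * {G.a ^ (s + t)} * U₁) := (hU₁c.mul isCompact_singleton).mul hU₁c
  set S' : Set (P × H) := (U₁ * {G.a ^ (s + t)} * U₁) ×ˢ (D.O ^ (s + t)) with hS'
  have mS' : MeasurableSet S' :=
    hQc.isClosed.measurableSet.prod
      (((hO D hD).1 (s + t) (hs.trans (Nat.le_add_right _ _))).measurableSet)
  set p : P × H := (G.w, 1) with hp
  set S : Set (P × H) := (fun h => p⁻¹ * h * p) ⁻¹' S' with hS
  have mS : MeasurableSet S := by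
    have : Measurable fun h : P × H => p⁻¹ * h * p := by fun_prop
    exact this mS'
  -- the reversed kernels
  have hrev : ∀ g : P, eP D.μ₁ G U (G.uw U) 0 s g⁻¹ = eP D.μ₁ G (G.uw U) U 0 s g := by
    intro g
    rw [(c1 U (G.uw U) 1 s g⁻¹).2, c2, hwa, (c1 (G.uw U) U 1 s g).2]
  have hrevE : ∀ g : P × H, D.tk (fun q => eP D.μ₁ G U (G.uw U) 0 s q⁻¹) s g =
      D.ch G U s g⁻¹ := by
    intro g
    change eP D.μ₁ G U (G.uw U) 0 s g.1⁻¹ * D.nu s g.2 =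
      eP D.μ₁ G U (G.uw U) 0 s g.1⁻¹ * D.nu s g.2⁻¹
    rw [hnui]
  have hNr : ∀ r : ℕ, ∀ x y : P × H, ∑' u : D.Γ, D.ch G U r (x⁻¹ * (u : P × H) * y)⁻¹ ≤ C₁ := by
    intro r x y
    refine le_trans (le_of_eq ?_) (hN₁ r y x)
    unfold Dat.N
    rw [← (Equiv.inv D.Γ).tsum_eq (fun u : D.Γ => D.eg G U (G.uw U) 0 r (y⁻¹ * (u : P × H) * x))]
    refine tsum_congr fun u => ?_
    have : (x⁻¹ * (u : P × H) * y)⁻¹ = y⁻¹ * ((Equiv.inv D.Γ) u : P × H) * x := by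
      simp only [Equiv.inv_apply, Subgroup.coe_inv]
      group
    rw [this]
    rfl
  have main := Q1b_GL hmer hton D hD hcount (k₁ := eP D.μ₁ G U U R m)
    (k := fun q => eP D.μ₁ G U (G.uw U) 0 s q⁻¹) (K₁ := eP D.μ₁ G U₁ U₁ R (m + s)) hm1 hs
    (a5 _ _ hUc hUc _ _) ((a5 _ _ hUc (cuw hUc) _ _).comp measurable_inv)
    (e1 _ _ hUc hUc R m) ?_ (K₂ := D.eg G (G.uw U) (G.uw U) R n)
    (K' := fun g => D.ch G U t g⁻¹) (e1 _ _ (cuw hUc) (cuw hUc) R n)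
    ((e1 _ _ hUc (cuw hUc) 0 t).comp measurable_inv)
    (e1 _ _ hU₁c hU₁c R (m + s)) mS (C₁ := C₁) (C₂ := C₁) (C₃ := C₃)
    ?_ (hNr t) ?_ ?_ (fun x' g u v => ab (Dg G φ 1 x' g u v))
    (fun g u v => Q1b_ab (e3 φ hφ 1 g u v))
  · -- the five sums with the roles of `x`, `y` exchanged
    set T : P × H → P × H → P × H → ℝ≥0∞ := fun x' x y => ∑' V₁ : D.Γ, ∑' V₂ : D.Γ,
      ∑' c : D.Γ, ∑' c' : D.Γ, ∑' γ : D.Γ,
        D.eg G (G.uw U) (G.uw U) R n (x'⁻¹ * (V₁ : P × H) * x) *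
        D.eg G U U R m (x'⁻¹ * (V₂ : P × H) * y) * D.ch G U s (x⁻¹ * (c : P × H) * y) *
        D.ch G U s (x⁻¹ * (c' : P × H) * y) * D.ch G U t (y⁻¹ * (γ : P × H) * x) *
        ab (Dg G φ 1 x' ((c' * γ)⁻¹) (V₂ * c⁻¹) V₁) with hT
    set T' : P × H → P × H → P × H → ℝ≥0∞ := fun x' x y => ∑' V₁ : D.Γ, ∑' V₂ : D.Γ,
      ∑' c : D.Γ, ∑' c' : D.Γ, ∑' γ : D.Γ,
        D.tk (eP D.μ₁ G U U R m) m (x'⁻¹ * (V₁ : P × H) * x) *
        D.eg G (G.uw U) (G.uw U) R n (x'⁻¹ * (V₂ : P × H) * y) *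
        D.tk (fun q => eP D.μ₁ G U (G.uw U) 0 s q⁻¹) s (x⁻¹ * (c : P × H) * y) *
        D.tk (fun q => eP D.μ₁ G U (G.uw U) 0 s q⁻¹) s (x⁻¹ * (c' : P × H) * y) *
        D.ch G U t (y⁻¹ * (γ : P × H) * x)⁻¹ *
        ab (Dg G φ 1 x' (γ * c) (V₁ * c') V₂) with hT'
    have mT : ∀ x', Measurable fun q : (P × H) × (P × H) => T x' q.1 q.2 := by
      intro x'
      refine Measurable.tsum fun V₁ => Measurable.tsum fun V₂ =>
        Measurable.tsum fun c => Measurable.tsum fun c' => Measurable.tsum fun γ => ?_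
      refine Measurable.mul_const ?_ _
      have m1 := e1 _ _ (cuw hUc) (cuw hUc) R n
      have m2 := e1 _ _ hUc hUc R m
      have m3 := e1 _ _ hUc (cuw hUc) 0 s
      have m4 := e1 _ _ hUc (cuw hUc) 0 t
      exact ((((m1.comp (by fun_prop)).mul (m2.comp (by fun_prop))).mul (Q1b_mK m3 c)).mul
        (Q1b_mK m3 c')).mul (m4.comp (by fun_prop))
    have hsw : ∀ x', (D.IM fun x => D.IM fun y => T x' x y) =
        D.IM fun y => D.IM fun x => T x' x y := fun x' => ((hton D hD).1 _ (mT x')).1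
    have hTT : ∀ x' x y, T x' x y = T' x' y x := by
      intro x' x y
      have h1 := Q1c_sum (fun V₁ : D.Γ => D.eg G (G.uw U) (G.uw U) R n (x'⁻¹ * (V₁ : P × H) * x))
        (fun V₂ : D.Γ => D.eg G U U R m (x'⁻¹ * (V₂ : P × H) * y))
        (fun c : D.Γ => D.ch G U s (x⁻¹ * (c : P × H) * y))
        (fun γ : D.Γ => D.ch G U t (y⁻¹ * (γ : P × H) * x))
        (fun g u v => ab (Dg G φ 1 x' g u v))
      refine h1.trans ?_
      refine tsum_congr fun W₁ => tsum_congr fun W₂ => tsum_congr fun d => tsum_congr fun d' =>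
        tsum_congr fun δ => ?_
      have i1 : ∀ (x y : P × H) (d : D.Γ), x⁻¹ * ((d⁻¹ : D.Γ) : P × H) * y =
          (y⁻¹ * (d : P × H) * x)⁻¹ := by
        intro x y d
        rw [Subgroup.coe_inv]
        group
      rw [i1, i1, i1, ← hrevE, ← hrevE]
      rfl
    have hle : F5 D G U s t R n m (fun x' _ _ V₁ V₂ c c' γ =>
        ab (Dg G φ 1 x' ((c' * γ)⁻¹) (V₂ * c⁻¹) V₁)) ≤ C₁ * C₁ * C₃ *
        D.IM (Q1c_F D G S (D.tk (eP D.μ₁ G U₁ U₁ R (m + s)) (m + s))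
          (D.eg G (G.uw U) (G.uw U) R n) φ) := by
      have h1 : F5 D G U s t R n m (fun x' _ _ V₁ V₂ c c' γ =>
        ab (Dg G φ 1 x' ((c' * γ)⁻¹) (V₂ * c⁻¹) V₁)) =
          D.IM fun x' => D.IM fun x => D.IM fun y => T x' x y := rfl
      have h2 : (D.IM fun x' => D.IM fun x => D.IM fun y => T x' x y) =
          D.IM fun x' => D.IM fun x => D.IM fun y => T' x' x y := by
        refine congrArg D.IM (funext fun x' => ?_)
        refine (hsw x').trans ?_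
        exact congrArg D.IM (funext fun y => congrArg D.IM (funext fun x => hTT x' x y))
      rw [h1, h2]
      exact main
    have hsh : ∀ z, Q1c_F D G S (D.tk (eP D.μ₁ G U₁ U₁ R (m + s)) (m + s))
          (D.eg G (G.uw U) (G.uw U) R n) φ z =
        Q1c_F D G S' (D.eg G U₁ ({G.w} * U₁) R (m + s))
          (D.eg G (G.uw U) ({G.w} * G.uw U) R n) φ (z * p) := by
      refine Q1c_shift D G p (fun h => Iff.rfl) ?_ ?_
      · intro g
        have h := (c4 U₁ U₁ R (m + s) G.w (g.1 * G.w)).2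
        rw [mul_assoc g.1, hww, mul_one] at h
        change eP D.μ₁ G U₁ U₁ R (m + s) g.1 * D.nu (m + s) g.2 =
          eP D.μ₁ G U₁ ({G.w} * U₁) R (m + s) (g.1 * G.w) * D.nu (m + s) (g.2 * 1)
        rw [h, mul_one]
      · intro g
        have h := (c4 (G.uw U) (G.uw U) R n G.w (g.1 * G.w)).2
        rw [mul_assoc g.1, hww, mul_one] at h
        change eP D.μ₁ G (G.uw U) (G.uw U) R n g.1 * D.nu n g.2 =
          eP D.μ₁ G (G.uw U) ({G.w} * G.uw U) R n (g.1 * G.w) * D.nu n (g.2 * 1)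
        rw [h, mul_one]
    have cw : ∀ {K : Set P}, IsCompact K → IsCompact (({G.w} : Set P) * K) := fun h =>
      isCompact_singleton.mul h
    have hIMs : D.IM (Q1c_F D G S (D.tk (eP D.μ₁ G U₁ U₁ R (m + s)) (m + s))
          (D.eg G (G.uw U) (G.uw U) R n) φ) =
        D.IM (Q1c_F D G S' (D.eg G U₁ ({G.w} * U₁) R (m + s))
          (D.eg G (G.uw U) ({G.w} * G.uw U) R n) φ) := by
      have h1 := (hIM D hD).1 (Q1c_F D G S' (D.eg G U₁ ({G.w} * U₁) R (m + s))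
          (D.eg G (G.uw U) ({G.w} * G.uw U) R n) φ)
        (Q1c_meas hegm hton D G hD hG hcount mS' (e1 _ _ hU₁c (cw hU₁c) R (m + s))
          (e1 _ _ (cuw hUc) (cw (cuw hUc)) R n) hφ)
        (fun γ hγ z => Q1c_inv D G ⟨γ, hγ⟩ z) p
      refine Eq.trans ?_ h1
      exact congrArg D.IM (funext hsh)
    rw [hIMs] at hle
    have hFE : D.IM (Q1c_F D G S' (D.eg G U₁ ({G.w} * U₁) R (m + s))
          (D.eg G (G.uw U) ({G.w} * G.uw U) R n) φ) =
        FE D G (U₁ * {G.a ^ (s + t)} * U₁) (s + t) ⟨1, U₁, {G.w} * U₁⟩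
          ⟨G.w, G.uw U, {G.w} * G.uw U⟩ R i φ := by
      unfold FE Dat.ke Q1c_F
      rw [hi0, hi1]
    rw [hFE] at hle
    have k1 : ({G.w} : Set P) * U₁ ⊆ G.uw U₀ := by
      rintro _ ⟨w', hw', v, hv, rfl⟩
      rw [Set.mem_singleton_iff.1 hw']
      refine ⟨G.w * v * G.w, (hU₁s hv).2, G.w, rfl, ?_⟩
      change G.w * v * G.w * G.w = G.w * v
      rw [mul_assoc _ G.w G.w, hww, mul_one]
    have k2 : ({G.w} : Set P) * G.uw U ⊆ U₀ := by
      rintro _ ⟨w', hw', _, ⟨v, hv, w'', hw'', rfl⟩, rfl⟩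
      rw [Set.mem_singleton_iff.1 hw', Set.mem_singleton_iff.1 hw'']
      change G.w * (v * G.w) ∈ U₀
      rw [← mul_assoc]
      exact (hU₁s (hUU₁ hv)).2
    have hU₁U₀ : U₁ ⊆ U₀ := fun x hx => (hU₁s hx).1
    have hmo := Q1b_FE_mono hAD D G hD hG (Q := U₁ * {G.a ^ (s + t)} * U₁)
      (Q' := U₀ * {G.a ^ (s + t)} * U₀) (s + t) (eu := ⟨1, U₁, {G.w} * U₁⟩)
      (eu' := ⟨1, U₀, G.uw U₀⟩) (ev := ⟨G.w, G.uw U, {G.w} * G.uw U⟩)
      (ev' := ⟨G.w, G.uw U₀, U₀⟩)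
      (Set.mul_subset_mul (Set.mul_subset_mul hU₁U₀ subset_rfl) hU₁U₀) rfl
      hU₁U₀ k1 (Set.mul_subset_mul (hUU₁.trans hU₁U₀) subset_rfl) k2 R i φ
    exact hle.trans (mul_le_mul_right hmo _)
  · have h : Measurable fun g : P × H => D.ch G U s g⁻¹ :=
      (e1 _ _ hUc (cuw hUc) 0 s).comp measurable_inv
    have h2 : (fun g : P × H => D.ch G U s g⁻¹) =
        D.tk (fun q => eP D.μ₁ G U (G.uw U) 0 s q⁻¹) s := funext fun g => (hrevE g).symm
    rw [← h2]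
    exact h
  · intro x y
    refine le_trans (le_of_eq ?_) (hNr s x y)
    exact tsum_congr fun u => hrevE _
  · intro h h' h1 h2
    rw [hrevE] at h1
    obtain ⟨q, hq, r, hr, E1, O1⟩ := Q1b_ch_ne hnu D G hD hs (U := U) h1
    obtain ⟨q', hq', r', hr', E2, O2⟩ := Q1b_ch_ne hnu D G hD ht h2
    have O1' : h.2 ∈ D.O ^ s := by
      have := (hO D hD).2.2.1 s _ O1
      rwa [Prod.snd_inv, inv_inv] at this
    have O2' : h'.2 ∈ D.O ^ t := by
      have := (hO D hD).2.2.1 t _ O2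
      rwa [Prod.snd_inv, inv_inv] at this
    refine ⟨?_, ?_⟩
    · change G.w⁻¹ * (h'.1 * h.1) * G.w ∈ U₁ * {G.a ^ (s + t)} * U₁
      have j1 : h.1 = r * (G.a ^ s)⁻¹ * q⁻¹ := by
        have := congrArg (fun x => x⁻¹) E1
        simp only [Prod.fst_inv, inv_inv, mul_inv_rev] at this
        rw [this, mul_assoc]
      have j2 : h'.1 = r' * (G.a ^ t)⁻¹ * q'⁻¹ := by
        have := congrArg (fun x => x⁻¹) E2
        simp only [Prod.fst_inv, inv_inv, mul_inv_rev] at this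
        rw [this, mul_assoc]
      have j3 : G.w⁻¹ * (h'.1 * h.1) * G.w =
          (G.w * r' * G.w) * G.a ^ t * (G.w * q' * G.w)⁻¹ *
            ((G.w * r * G.w) * G.a ^ s * (G.w * q * G.w)⁻¹) := by
        have x1 : ∀ x : P, G.w * (G.w * x) = x := fun x => by rw [← mul_assoc, hww, one_mul]
        rw [j1, j2, hai s, hai t]
        simp only [mul_inv_rev, hwi, mul_assoc, x1]
      rw [j3]
      exact hn s t _ (hUN _ hr') _ (hUN _ hq') _ (hUN _ hr) _ (hUN _ hq)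
    · change 1⁻¹ * (h'.2 * h.2) * 1 ∈ D.O ^ (s + t)
      rw [inv_one, one_mul, mul_one, add_comm s t, pow_add]
      exact Set.mul_mem_mul O2' O1'
  · intro g
    have h := (hcv m s (Or.inr hmT) (Or.inl rfl) g).2
    refine le_trans ?_ h
    refine lintegral_mono fun q => mul_le_mul' ?_ ?_
    · exact a1 _ _ _ _ _ _ _ hUUa hUV le_rfl _
    · change eP D.μ₁ G U (G.uw U) 0 s (q⁻¹ * g)⁻¹ ≤ _
      rw [hrev]
      exact a1 _ _ _ _ _ _ _ (Set.mul_subset_mul hUV subset_rfl) hUUa le_rfl _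

end Pool.Agent.MPEF.U
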