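import Pool.Agent.Lib.MP_ef3f0f_gt.U.E.SpecA

set_option autoImplicit false

/-!
# MP_ef3f0f_gt, Theorem U, Part E: long insertions (`S_RlI`)
-/

namespace Pool.Agent.MPEF.U

open MeasureTheory Topology
open scoped ENNReal Pointwise

section

variable {P : Type} [Group P] [TopologicalSpace P]

private theorem RlI_pair {S : Set (P × P)} (hS : S ∈ 𝓝 ((1 : P), (1 : P))) :
    ∃ O ∈ 𝓝 (1 : P), ∀ e ∈ O, ∀ e' ∈ O, (e, e') ∈ S := by
  rw [nhds_prod_eq, Filter.mem_prod_iff] at hS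
  obtain ⟨O₁, h1, O₂, h2, h3⟩ := hS
  exact ⟨O₁ ∩ O₂, Filter.inter_mem h1 h2, fun e he e' he' => h3 (Set.mk_mem_prod he.1 he'.2)⟩

private theorem RlI_TrZ {G : PG P} (gok : G.Ok) {x y z : P} (h : G.Tri x y z) {b : P}
    (hb : b ∈ G.Bor) : G.Tri x y (z * b) :=
  gok.Tc _ _ _ ((gok.Tr _ _ _ b hb).2 (gok.Tc _ _ _ (gok.Tc _ _ _ h)))

private theorem RlI_TrY {G : PG P} (gok : G.Ok) {x y z : P} (h : G.Tri x y z) {b : P}
    (hb : b ∈ G.Bor) : G.Tri x (y * b) z :=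
  gok.Tc _ _ _ (gok.Tc _ _ _ ((gok.Tr _ _ _ b hb).2 (gok.Tc _ _ _ h)))

private theorem RlI_apow {G : PG P} (gok : G.Ok) (s : ℕ) :
    (G.a ^ s)⁻¹ = G.w * G.a ^ s * G.w := by
  induction s with
  | zero => rw [pow_zero, inv_one, mul_one, gok.ww]
  | succ s ih =>
    rw [pow_succ', mul_inv_rev, ih, ← gok.wa]
    have h : G.w * G.a ^ s * G.w * (G.w * G.a * G.w) =
        G.w * G.a ^ s * (G.w * G.w) * G.a * G.w := by
      simp only [mul_assoc]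
    rw [h, gok.ww, mul_one, ← pow_succ', pow_succ]
    simp only [mul_assoc]

end

variable (P H : Type) [Group P] [Group H] [TopologicalSpace P] [TopologicalSpace H]
  [IsTopologicalGroup P] [IsTopologicalGroup H] [LocallyCompactSpace P] [LocallyCompactSpace H]
  [T2Space P] [T2Space H] [SecondCountableTopology P] [SecondCountableTopology H]
  [MeasurableSpace P] [MeasurableSpace H] [BorelSpace P] [BorelSpace H]

theorem tRlI : S_LX1 P H → S_CTc P → S_RlI P H := by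
  intro hLX hCT D G F
  have gok := F.gok
  obtain ⟨c₁, hc₁⟩ := gok.NT {G.w} isCompact_singleton (fun k hk => by
    rw [Set.mem_singleton_iff.1 hk]
    exact gok.P1)
  have hb : G.Tri c₁ 1 G.w := hc₁ _ rfl
  have ha : G.Tri 1 (G.w * c₁) G.w := by
    have h := (gok.Tl G.w c₁ 1 G.w).2 hb
    rw [mul_one, gok.ww] at h
    exact gok.Tc _ _ _ (gok.Tc _ _ _ h)
  have hO : ∃ O ∈ 𝓝 (1 : P), ∀ e ∈ O, ∀ e' ∈ O,
      (e, e') ∈ {q : P × P | G.Tri q.1 (G.w * c₁) (q.2 * G.w) ∧ G.Tri c₁ q.1 (q.2 * G.w)} := by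
    apply RlI_pair
    have d1 : Continuous fun q : P × P => (q.1, G.w * c₁, q.2 * G.w) := by fun_prop
    have d2 : Continuous fun q : P × P => (c₁, q.1, q.2 * G.w) := by fun_prop
    have o1 := (gok.To.preimage d1).mem_nhds
      (show ((1 : P), (1 : P)) ∈ _ from by
        change G.Tri 1 (G.w * c₁) (1 * G.w)
        rw [one_mul]
        exact ha)
    have o2 := (gok.To.preimage d2).mem_nhds
      (show ((1 : P), (1 : P)) ∈ _ from by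
        change G.Tri c₁ 1 (1 * G.w)
        rw [one_mul]
        exact hb)
    exact Filter.inter_mem o1 o2
  obtain ⟨O, hO1, hO2⟩ := hO
  have hT1 : ∀ e ∈ O, ∀ e' ∈ O, ∀ β ∈ G.Bor, ∀ β' ∈ G.Bor,
      G.Tri (e * β) (G.w * c₁) (e' * G.w * β') := fun e he e' he' β hβ β' hβ' =>
    RlI_TrZ gok ((gok.Tr _ _ _ β hβ).2 (hO2 e he e' he').1) hβ'
  have hT2 : ∀ e ∈ O, ∀ e' ∈ O, ∀ β ∈ G.Bor, ∀ β' ∈ G.Bor,
      G.Tri c₁ (e * β) (e' * G.w * β') := fun e he e' he' β hβ β' hβ' =>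
    RlI_TrZ gok (RlI_TrY gok (hO2 e he e' he').2 hβ) hβ'
  -- the small neighbourhoods
  obtain ⟨V₁, hV₁, hV₁O⟩ := RlI_pair (P := P) (S := {q : P × P | q.1 * q.2 ∈ O}) (by
    have d : Continuous fun q : P × P => q.1 * q.2 := by fun_prop
    apply d.continuousAt.preimage_mem_nhds
    change O ∈ 𝓝 ((1 : P) * 1)
    rw [mul_one]
    exact hO1)
  have hV : V₁ ∩ (fun e : P => G.w * e * G.w) ⁻¹' V₁ ∈ 𝓝 (1 : P) := by
    refine Filter.inter_mem hV₁ ?_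
    have d : Continuous fun e : P => G.w * e * G.w := by fun_prop
    apply d.continuousAt.preimage_mem_nhds
    change V₁ ∈ 𝓝 (G.w * 1 * G.w)
    rw [mul_one, gok.ww]
    exact hV₁
  have hP : {q : P | G.Pos G.w q} ∈ 𝓝 (1 : P) := by
    have d : Continuous fun q : P => (G.w, q) := by fun_prop
    exact (gok.Po.preimage d).mem_nhds ((gok.Ps _ _).1 gok.P1)
  obtain ⟨Q, hQ1, hQP, hQc⟩ := local_compact_nhds hP
  obtain ⟨k, hk⟩ := hCT G gok Q hQc (fun q hq => hQP hq) _ hV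
  obtain ⟨U₁, hU₁, hU₁Q⟩ := RlI_pair (P := P)
    (S := {q : P × P | q.1 * q.2 ∈ Q} ∩ {q : P × P | G.w * q.1⁻¹ * q.2 * G.w ∈ Q}) (by
    refine Filter.inter_mem ?_ ?_
    · have d : Continuous fun q : P × P => q.1 * q.2 := by fun_prop
      apply d.continuousAt.preimage_mem_nhds
      change Q ∈ 𝓝 ((1 : P) * 1)
      rw [mul_one]
      exact hQ1
    · have d : Continuous fun q : P × P => G.w * q.1⁻¹ * q.2 * G.w := by fun_prop
      apply d.continuousAt.preimage_mem_nhds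
      change Q ∈ 𝓝 (G.w * (1 : P)⁻¹ * 1 * G.w)
      rw [inv_one, mul_one, mul_one, gok.ww]
      exact hQ1)
  have hU : (U₁ ∩ V₁) ∩ ((fun e : P => e⁻¹) ⁻¹' V₁ ∩ O) ∈ 𝓝 (1 : P) := by
    refine Filter.inter_mem (Filter.inter_mem hU₁ hV₁) (Filter.inter_mem ?_ hO1)
    have d : Continuous fun e : P => e⁻¹ := by fun_prop
    apply d.continuousAt.preimage_mem_nhds
    change V₁ ∈ 𝓝 ((1 : P)⁻¹)
    rw [inv_one]
    exact hV₁
  refine ⟨_, hU, k, ?_⟩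
  intro s hs u hu u' hu' e₁ h1 e₂ h2 e₃ h3 e₄ h4 b₁ g1 b₂ g2 b₃ g3 b₄ g4 c s₁ t₁ s₂ t₂ hp1 hp2
  have hDp : G.a ^ s ∈ G.Dp k := by
    have hmono : ∀ j, G.Dp (k + j) ⊆ G.Dp k := by
      intro j
      induction j with
      | zero => exact fun x hx => hx
      | succ j ih => exact fun x hx => ih (gok.Dps _ hx)
    obtain ⟨j, rfl⟩ := Nat.exists_eq_add_of_le hs
    exact hmono j (gok.Dpa _)
  have hg1 : ∀ e ∈ U₁, ∀ β ∈ G.Bor, ∃ e' ∈ O, ∃ β' ∈ G.Bor,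
      (u * G.a ^ s * u') * (e * β) = e' * β' := by
    intro e he β hβ
    obtain ⟨e', he', b', hb', h⟩ := hk _ hDp (u' * e) (hU₁Q u' hu'.1.1 e he).1
    refine ⟨u * e', hV₁O u hu.1.2 e' he'.1, b' * β, G.Bor.mul_mem hb' hβ, ?_⟩
    calc (u * G.a ^ s * u') * (e * β) = u * (G.a ^ s * (u' * e)) * β := by group
      _ = u * (e' * b') * β := by rw [h]
      _ = u * e' * (b' * β) := by group
  have hg2 : ∀ e ∈ U₁, ∀ β ∈ G.Bor, ∃ e' ∈ O, ∃ β' ∈ G.Bor,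
      (u * G.a ^ s * u')⁻¹ * (e * G.w * β) = e' * G.w * β' := by
    intro e he β hβ
    obtain ⟨e', he', b', hb', h⟩ := hk _ hDp (G.w * u⁻¹ * e * G.w) (hU₁Q u hu.1.1 e he).2
    refine ⟨u'⁻¹ * (G.w * e' * G.w), hV₁O u'⁻¹ hu'.2.1 _ he'.2, b' * β,
      G.Bor.mul_mem hb' hβ, ?_⟩
    calc (u * G.a ^ s * u')⁻¹ * (e * G.w * β)
        = u'⁻¹ * (G.a ^ s)⁻¹ * u⁻¹ * e * G.w * β := by group
      _ = u'⁻¹ * (G.w * G.a ^ s * G.w) * u⁻¹ * e * G.w * β := by rw [RlI_apow gok]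
      _ = u'⁻¹ * G.w * (G.a ^ s * (G.w * u⁻¹ * e * G.w)) * β := by
          simp only [mul_assoc]
      _ = u'⁻¹ * G.w * (e' * b') * β := by rw [h]
      _ = u'⁻¹ * G.w * e' * (G.w * G.w) * (b' * β) := by
          rw [gok.ww, mul_one]
          simp only [mul_assoc]
      _ = u'⁻¹ * (G.w * e' * G.w) * G.w * (b' * β) := by
          simp only [mul_assoc]
  have hA : ∀ e ∈ (U₁ ∩ V₁) ∩ ((fun e : P => e⁻¹) ⁻¹' V₁ ∩ O), ∀ β ∈ G.Bor,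
      ∀ e' ∈ (U₁ ∩ V₁) ∩ ((fun e : P => e⁻¹) ⁻¹' V₁ ∩ O), ∀ β' ∈ G.Bor,
      G.Tri (e * β) (G.w * c₁) (e' * G.w * β') ∧
      G.Tri (e * β) ((u * G.a ^ s * u')⁻¹ * (G.w * c₁))
        ((u * G.a ^ s * u')⁻¹ * (e' * G.w * β')) ∧
      G.Tri c₁ (e * β) (e' * G.w * β') ∧
      G.Tri c₁ (e * β) ((u * G.a ^ s * u')⁻¹ * (e' * G.w * β')) := by
    intro e he β hβ e' he' β' hβ'
    refine ⟨hT1 e he.2.2 e' he'.2.2 β hβ β' hβ', ?_, hT2 e he.2.2 e' he'.2.2 β hβ β' hβ', ?_⟩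
    · obtain ⟨f, hf, γ, hγ, h⟩ := hg1 e he.1.1 β hβ
      have h5 := hT1 f hf e' he'.2.2 γ hγ β' hβ'
      rw [← h] at h5
      have h6 := (gok.Tl (u * G.a ^ s * u')⁻¹ _ _ _).2 h5
      rwa [inv_mul_cancel_left] at h6
    · obtain ⟨f, hf, γ, hγ, h⟩ := hg2 e' he'.1.1 β' hβ'
      rw [h]
      exact hT2 e he.2.2 f hf β hβ γ hγ
  obtain ⟨a1, a2, -, -⟩ := hA e₂ h2 b₂ g2 e₁ h1 b₁ g1
  obtain ⟨a3, a4, a5, a6⟩ := hA e₂ h2 b₂ g2 e₃ h3 b₃ g3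
  obtain ⟨-, -, a7, a8⟩ := hA e₄ h4 b₄ g4 e₃ h3 b₃ g3
  exact hLX D G F (u * G.a ^ s * u') c s₁ t₁ s₂ t₂ (e₁ * G.w * b₁) (e₂ * b₂) (e₃ * G.w * b₃)
    (e₄ * b₄) (G.w * c₁) c₁ hp1 hp2 a1 a2 a3 a4 a5 a6 a7 a8

end Pool.Agent.MPEF.U
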