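import Pool.Agent.Lib.MP_ef3f0f_gt.U.E.SpecA

set_option autoImplicit false
set_option linter.unusedSectionVars false

/-! MP_ef3f0f_gt, Theorem U, Part E, module Rls: symmetry and transitivity of `Rel`. -/

namespace Pool.Agent.MPEF.U

open MeasureTheory Topology
open scoped ENNReal Pointwise

/-! ### The abstract part -/

section Abs

variable {X ι : Type} [MeasurableSpace X]

/-- The double integral. -/
private noncomputable def Rls_I (ρ : Measure X) (p q : X → ι → ℝ≥0∞) (a b : X → ι → ℝ) : ℝ≥0∞ :=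
  ∫⁻ x, ∫⁻ x', ∑' i, p x i * ∑' j, q x' j * ab (a x i - b x' j) ∂ρ ∂ρ

private theorem Rls_ab (x y z : ℝ) : ab (x - y) ≤ ab (x - z) + ab (z - y) := by
  unfold ab
  rw [← ENNReal.ofReal_add (abs_nonneg _) (abs_nonneg _)]
  exact ENNReal.ofReal_le_ofReal (abs_sub_le x z y)

private theorem Rls_abc (x y : ℝ) : ab (x - y) = ab (y - x) := by
  unfold ab
  rw [abs_sub_comm]

private theorem Rls_abm : Measurable ab := by
  unfold ab
  fun_prop

private theorem Rls_sum (p q r : ι → ℝ≥0∞) (a b d : ι → ℝ) :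
    (∑' k, r k) * ∑' i, p i * ∑' j, q j * ab (a i - b j) ≤
      (∑' j, q j) * (∑' i, p i * ∑' k, r k * ab (a i - d k)) +
        (∑' i, p i) * ∑' k, r k * ∑' j, q j * ab (d k - b j) := by
  have e0 : (∑' k, r k) * ∑' i, p i * ∑' j, q j * ab (a i - b j) =
      ∑' k, ∑' i, ∑' j, r k * (p i * (q j * ab (a i - b j))) := by
    simp only [ENNReal.tsum_mul_left, ENNReal.tsum_mul_right]
  have e1 : (∑' j, q j) * (∑' i, p i * ∑' k, r k * ab (a i - d k)) =
      ∑' k, ∑' i, ∑' j, q j * (p i * (r k * ab (a i - d k))) := by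
    simp only [ENNReal.tsum_mul_right]
    simp only [ENNReal.tsum_mul_left]
    congr 1
    rw [ENNReal.tsum_comm]
    simp only [ENNReal.tsum_mul_left]
  have e2 : (∑' i, p i) * (∑' k, r k * ∑' j, q j * ab (d k - b j)) =
      ∑' k, ∑' i, ∑' j, p i * (r k * (q j * ab (d k - b j))) := by
    simp only [ENNReal.tsum_mul_left, ENNReal.tsum_mul_right]
  rw [e0, e1, e2, ← ENNReal.tsum_add]
  refine ENNReal.tsum_le_tsum fun k => ?_
  rw [← ENNReal.tsum_add]
  refine ENNReal.tsum_le_tsum fun i => ?_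
  rw [← ENNReal.tsum_add]
  refine ENNReal.tsum_le_tsum fun j => ?_
  calc r k * (p i * (q j * ab (a i - b j)))
      ≤ r k * (p i * (q j * (ab (a i - d k) + ab (d k - b j)))) :=
        mul_le_mul_right (mul_le_mul_right (mul_le_mul_right (Rls_ab _ _ _) _) _) _
    _ = q j * (p i * (r k * ab (a i - d k))) + p i * (r k * (q j * ab (d k - b j))) := by ring

variable [Countable ι]

private theorem Rls_m {Y : Type} [MeasurableSpace Y] {p q : Y → ι → ℝ≥0∞} {a b : Y → ι → ℝ}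
    (hp : ∀ i, Measurable fun x => p x i) (hq : ∀ i, Measurable fun x => q x i)
    (ha : ∀ i, Measurable fun x => a x i) (hb : ∀ i, Measurable fun x => b x i) :
    Measurable fun y => ∑' i, p y i * ∑' j, q y j * ab (a y i - b y j) := by
  refine Measurable.tsum fun i => (hp i).mul ?_
  exact Measurable.tsum fun j => (hq j).mul (Rls_abm.comp ((ha i).sub (hb j)))

private theorem Rls_swap (ρ : Measure X) [SFinite ρ] {p q : X → ι → ℝ≥0∞} {a b : X → ι → ℝ}
    (hp : ∀ i, Measurable fun x => p x i) (hq : ∀ i, Measurable fun x => q x i)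
    (ha : ∀ i, Measurable fun x => a x i) (hb : ∀ i, Measurable fun x => b x i) :
    Rls_I ρ p q a b = Rls_I ρ q p b a := by
  unfold Rls_I
  rw [lintegral_lintegral_swap]
  · refine lintegral_congr fun x' => lintegral_congr fun x => ?_
    simp only [← ENNReal.tsum_mul_left]
    rw [ENNReal.tsum_comm]
    refine tsum_congr fun j => tsum_congr fun i => ?_
    rw [Rls_abc]
    ring
  · refine Measurable.aemeasurable ?_
    exact Rls_m (Y := X × X) (p := fun y => p y.1) (q := fun y => q y.2) (a := fun y => a y.1)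
      (b := fun y => b y.2) (fun i => (hp i).comp measurable_fst)
      (fun i => (hq i).comp measurable_snd) (fun i => (ha i).comp measurable_fst)
      (fun i => (hb i).comp measurable_snd)

private theorem Rls_tri (ρ : Measure X) [IsProbabilityMeasure ρ] {p q r : X → ι → ℝ≥0∞}
    {a b d : X → ι → ℝ} {c A : ℝ≥0∞} (hcA : c ≠ ∞) (hA : A ≠ ∞)
    (_hp : ∀ i, Measurable fun x => p x i) (hq : ∀ i, Measurable fun x => q x i)
    (hr : ∀ i, Measurable fun x => r x i) (_ha : ∀ i, Measurable fun x => a x i)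
    (hb : ∀ i, Measurable fun x => b x i) (hd : ∀ i, Measurable fun x => d x i)
    (hpA : ∀ x, ∑' i, p x i ≤ A) (hqA : ∀ x, ∑' i, q x i ≤ A) (hrc : ∀ x, c ≤ ∑' i, r x i) :
    c * Rls_I ρ p q a b ≤ A * Rls_I ρ p r a d + A * Rls_I ρ r q d b := by
  have mG : ∀ x, Measurable fun x'' => ∑' i, p x i * ∑' k, r x'' k * ab (a x i - d x'' k) :=
    fun x => Rls_m (Y := X) (p := fun _ => p x) (q := r) (a := fun _ => a x) (b := d)
      (fun i => measurable_const) hr (fun i => measurable_const) hd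
  have h1 : ∀ x x', c * ∑' i, p x i * ∑' j, q x' j * ab (a x i - b x' j) ≤
      A * (∫⁻ x'', ∑' i, p x i * ∑' k, r x'' k * ab (a x i - d x'' k) ∂ρ) +
        A * ∫⁻ x'', ∑' k, r x'' k * ∑' j, q x' j * ab (d x'' k - b x' j) ∂ρ := by
    intro x x'
    calc c * ∑' i, p x i * ∑' j, q x' j * ab (a x i - b x' j)
        = ∫⁻ _, c * ∑' i, p x i * ∑' j, q x' j * ab (a x i - b x' j) ∂ρ := by
          rw [lintegral_const, measure_univ, mul_one]
      _ ≤ ∫⁻ x'', (A * (∑' i, p x i * ∑' k, r x'' k * ab (a x i - d x'' k)) +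
            A * ∑' k, r x'' k * ∑' j, q x' j * ab (d x'' k - b x' j)) ∂ρ := by
          refine lintegral_mono fun x'' => ?_
          refine le_trans (mul_le_mul_left (hrc x'') _) ?_
          refine le_trans (Rls_sum (p x) (q x') (r x'') (a x) (b x') (d x'')) ?_
          exact add_le_add (mul_le_mul_left (hqA x') _) (mul_le_mul_left (hpA x) _)
      _ = A * (∫⁻ x'', ∑' i, p x i * ∑' k, r x'' k * ab (a x i - d x'' k) ∂ρ) +
            A * ∫⁻ x'', ∑' k, r x'' k * ∑' j, q x' j * ab (d x'' k - b x' j) ∂ρ := by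
          rw [lintegral_add_left ((mG x).const_mul A), lintegral_const_mul' A _ hA,
            lintegral_const_mul' A _ hA]
  have h2 : ∀ x, c * ∫⁻ x', ∑' i, p x i * ∑' j, q x' j * ab (a x i - b x' j) ∂ρ ≤
      A * (∫⁻ x'', ∑' i, p x i * ∑' k, r x'' k * ab (a x i - d x'' k) ∂ρ) +
        A * ∫⁻ x', ∫⁻ x'', ∑' k, r x'' k * ∑' j, q x' j * ab (d x'' k - b x' j) ∂ρ ∂ρ := by
    intro x
    rw [← lintegral_const_mul' c _ hcA]
    refine le_trans (lintegral_mono fun x' => h1 x x') ?_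
    rw [lintegral_add_left measurable_const, lintegral_const, measure_univ, mul_one,
      lintegral_const_mul' A _ hA]
  have h3 : (∫⁻ x', ∫⁻ x'', ∑' k, r x'' k * ∑' j, q x' j * ab (d x'' k - b x' j) ∂ρ ∂ρ) =
      Rls_I ρ r q d b := by
    unfold Rls_I
    rw [lintegral_lintegral_swap]
    refine Measurable.aemeasurable ?_
    exact Rls_m (Y := X × X) (p := fun y => r y.2) (q := fun y => q y.1) (a := fun y => d y.2)
      (b := fun y => b y.1) (fun i => (hr i).comp measurable_snd)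
      (fun i => (hq i).comp measurable_fst) (fun i => (hd i).comp measurable_snd)
      (fun i => (hb i).comp measurable_fst)
  rw [h3] at h2
  calc c * Rls_I ρ p q a b
      = ∫⁻ x, c * ∫⁻ x', ∑' i, p x i * ∑' j, q x' j * ab (a x i - b x' j) ∂ρ ∂ρ :=
        (lintegral_const_mul' c _ hcA).symm
    _ ≤ ∫⁻ x, (A * (∫⁻ x'', ∑' i, p x i * ∑' k, r x'' k * ab (a x i - d x'' k) ∂ρ) +
          A * Rls_I ρ r q d b) ∂ρ := lintegral_mono fun x => h2 x
    _ = A * Rls_I ρ p r a d + A * Rls_I ρ r q d b := by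
        rw [lintegral_add_right _ measurable_const, lintegral_const, measure_univ, mul_one,
          lintegral_const_mul' A _ hA]
        rfl

end Abs

variable (P H : Type) [Group P] [Group H] [TopologicalSpace P] [TopologicalSpace H]
  [IsTopologicalGroup P] [IsTopologicalGroup H] [LocallyCompactSpace P] [LocallyCompactSpace H]
  [T2Space P] [T2Space H] [SecondCountableTopology P] [SecondCountableTopology H]
  [MeasurableSpace P] [MeasurableSpace H] [BorelSpace P] [BorelSpace H]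

section Con

variable {P H}

/-- The probability measure. -/
private noncomputable def Rls_ρ (D : Dat P H) : Measure (P × H) := D.μ.withDensity D.χ

private theorem Rls_IM (D : Dat P H) (hD : D.Ok) (f : P × H → ℝ≥0∞) :
    D.IM f = ∫⁻ x, f x ∂(Rls_ρ D) := by
  unfold Rls_ρ Dat.IM
  rw [lintegral_withDensity_eq_lintegral_mul_non_measurable _ hD.χm]
  · rfl
  · exact Filter.Eventually.of_forall fun x => lt_of_le_of_lt (hD.χ1 x) ENNReal.one_lt_top

private theorem Rls_prob (D : Dat P H) (hD : D.Ok) : IsProbabilityMeasure (Rls_ρ D) := by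
  refine ⟨?_⟩
  have h := Rls_IM D hD (fun _ => 1)
  rw [lintegral_const, one_mul] at h
  rw [← h]
  unfold Dat.IM
  simp only [mul_one]
  exact hD.mass

/-- The weights of the pairs of edges from `x` to `z`. -/
private noncomputable def Rls_w (D : Dat P H) (K K' : P × H → ℝ≥0∞) (z x : P × H)
    (i : D.Γ × D.Γ) : ℝ≥0∞ :=
  K (x⁻¹ * (i.1 : P × H) * z) * K' (x⁻¹ * (i.2 : P × H) * z)

private theorem Rls_ws (D : Dat P H) (K K' : P × H → ℝ≥0∞) (z x : P × H) :
    ∑' i, Rls_w D K K' z x i = D.N K x z * D.N K' x z := by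
  unfold Rls_w Dat.N
  rw [ENNReal.tsum_prod (f := fun u v : D.Γ => K (x⁻¹ * (u : P × H) * z) *
    K' (x⁻¹ * (v : P × H) * z))]
  simp only [ENNReal.tsum_mul_left, ENNReal.tsum_mul_right]

private theorem Rls_wm (D : Dat P H) {K K' : P × H → ℝ≥0∞} (hK : Measurable K)
    (hK' : Measurable K') {Y : Type} [MeasurableSpace Y] {f g : Y → P × H} (hf : Measurable f)
    (hg : Measurable g) (i : D.Γ × D.Γ) : Measurable fun y => Rls_w D K K' (f y) (g y) i := by
  unfold Rls_w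
  exact (hK.comp ((hg.inv.mul_const _).mul hf)).mul (hK'.comp ((hg.inv.mul_const _).mul hf))

/-- The effect of `g` on the pair `i`. -/
private noncomputable def Rls_d (D : Dat P H) (G : PG P) (φ : D.Γ → P → ℝ) (c : P) (g : D.Γ)
    (x : P × H) (i : D.Γ × D.Γ) : ℝ := Dg G φ c x g i.1 i.2

private theorem Rls_FX (D : Dat P H) (hD : D.Ok) (G : PG P) (Q : Set P) (c : ℕ)
    (e₁ e₂ e₃ e₄ : Ec P) (R : ℕ) (i : Fin 4 → ℕ) (φ : D.Γ → P → ℝ) :
    FX D G Q c e₁ e₂ e₃ e₄ R i φ = ∫⁻ z, ∑' g : D.Γ,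
      (Q ×ˢ (D.O ^ c)).indicator (fun _ => (1 : ℝ≥0∞)) (z⁻¹ * (g : P × H) * z) *
        Rls_I (Rls_ρ D) (Rls_w D (D.ke G e₁ R (i 0)) (D.ke G e₂ R (i 1)) z)
          (Rls_w D (D.ke G e₃ R (i 2)) (D.ke G e₄ R (i 3)) z)
          (Rls_d D G φ e₁.c g) (Rls_d D G φ e₃.c g) ∂(Rls_ρ D) := by
  unfold FX Dat.lp
  rw [Rls_IM D hD]
  refine lintegral_congr fun z => tsum_congr fun g => ?_
  congr 1
  refine (Rls_IM D hD _).trans (lintegral_congr fun x => ?_)
  refine (Rls_IM D hD _).trans (lintegral_congr fun x' => ?_)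
  unfold Dat.st2
  rw [← ENNReal.tsum_prod (f := fun u v : D.Γ =>
    D.ke G e₁ R (i 0) (x⁻¹ * (u : P × H) * z) * D.ke G e₂ R (i 1) (x⁻¹ * (v : P × H) * z) *
      ∑' u' : D.Γ, ∑' v' : D.Γ, D.ke G e₃ R (i 2) (x'⁻¹ * (u' : P × H) * z) *
        D.ke G e₄ R (i 3) (x'⁻¹ * (v' : P × H) * z) *
          ab (Dg G φ e₁.c x g u v - Dg G φ e₃.c x' g u' v'))]
  refine tsum_congr fun p => ?_
  rw [← ENNReal.tsum_prod (f := fun u' v' : D.Γ => D.ke G e₃ R (i 2) (x'⁻¹ * (u' : P × H) * z) *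
        D.ke G e₄ R (i 3) (x'⁻¹ * (v' : P × H) * z) *
          ab (Dg G φ e₁.c x g p.1 p.2 - Dg G φ e₃.c x' g u' v'))]
  rfl

private theorem Rls_O (D : Dat P H) (hD : D.Ok) (c : ℕ) : MeasurableSet (D.O ^ c) := by
  have hO : IsOpen D.O := isOpen_lt continuous_const hD.νc
  cases c with
  | zero =>
    rw [pow_zero, ← Set.singleton_one]
    exact measurableSet_singleton _
  | succ n =>
    rw [pow_succ]
    exact hO.mul_left.measurableSet

/-- Measurability in the end point `z`. -/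
private theorem Rls_zm (D : Dat P H) (hD : D.Ok) (hc : Countable D.Γ) {S : Set (P × H)}
    (hS : MeasurableSet S) {K₁ K₂ K₃ K₄ : P × H → ℝ≥0∞} (h₁ : Measurable K₁)
    (h₂ : Measurable K₂) (h₃ : Measurable K₃) (h₄ : Measurable K₄)
    {a b : D.Γ → P × H → D.Γ × D.Γ → ℝ} (ha : ∀ g i, Measurable fun x => a g x i)
    (hb : ∀ g i, Measurable fun x => b g x i) :
    Measurable fun z => ∑' g : D.Γ, S.indicator (fun _ => (1 : ℝ≥0∞)) (z⁻¹ * (g : P × H) * z) *
      Rls_I (Rls_ρ D) (Rls_w D K₁ K₂ z) (Rls_w D K₃ K₄ z) (a g) (b g) := by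
  have := Rls_prob D hD
  refine Measurable.tsum fun g => Measurable.mul ?_ ?_
  · exact (measurable_const.indicator hS).comp
      ((measurable_inv.mul_const _).mul measurable_id)
  · unfold Rls_I
    have hm : Measurable fun y : ((P × H) × (P × H)) × (P × H) =>
        ∑' i, Rls_w D K₁ K₂ y.1.1 y.1.2 i * ∑' j, Rls_w D K₃ K₄ y.1.1 y.2 j *
          ab (a g y.1.2 i - b g y.2 j) :=
      Rls_m (Y := ((P × H) × (P × H)) × (P × H)) (p := fun y => Rls_w D K₁ K₂ y.1.1 y.1.2)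
        (q := fun y => Rls_w D K₃ K₄ y.1.1 y.2) (a := fun y => a g y.1.2) (b := fun y => b g y.2)
        (fun i => Rls_wm D h₁ h₂ (measurable_fst.comp measurable_fst)
          (measurable_snd.comp measurable_fst) i)
        (fun i => Rls_wm D h₃ h₄ (measurable_fst.comp measurable_fst) measurable_snd i)
        (fun i => (ha g i).comp (measurable_snd.comp measurable_fst))
        (fun i => (hb g i).comp measurable_snd)
    exact (hm.lintegral_prod_right').lintegral_prod_right'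

private theorem Rls_mono (hAD : S_AD P) (D : Dat P H) (hD : D.Ok) (G : PG P) (hG : G.Ok)
    {U U' : Set P} (hU : U ⊆ U') (gc : P) (c : ℕ) (s k t k' s' m t' m' : P) (R : ℕ)
    (i : Fin 4 → ℕ) (φ : D.Γ → P → ℝ) :
    FX D G (U * {gc}) c (wn U s k) (wn U t k') (wn U s' m) (wn U t' m') R i φ ≤
      FX D G (U' * {gc}) c (wn U' s k) (wn U' t k') (wn U' s' m) (wn U' t' m') R i φ := by
  have := hD.haar₁
  have := hD.right₁
  have := hD.inv₁
  have hk : ∀ (s k : P) (n : ℕ) (g : P × H), D.ke G (wn U s k) R n g ≤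
      D.ke G (wn U' s k) R n g := by
    intro s k n g
    change eP D.μ₁ G (U * {s}) (U * {k}) R n g.1 * D.nu n g.2 ≤
      eP D.μ₁ G (U' * {s}) (U' * {k}) R n g.1 * D.nu n g.2
    exact mul_le_mul_left ((hAD G D.μ₁ hG).1 _ _ _ _ R R n (Set.mul_subset_mul_right hU)
      (Set.mul_subset_mul_right hU) le_rfl g.1) _
  unfold FX Dat.IM Dat.lp Dat.st2
  refine lintegral_mono fun z => mul_le_mul_right (ENNReal.tsum_le_tsum fun g =>
    mul_le_mul' ?_ ?_) _
  · exact Set.indicator_le_indicator_of_subset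
      (Set.prod_mono (Set.mul_subset_mul_right hU) subset_rfl) (fun _ => zero_le) _
  · refine lintegral_mono fun x => mul_le_mul_right (lintegral_mono fun x' =>
      mul_le_mul_right (ENNReal.tsum_le_tsum fun u => ENNReal.tsum_le_tsum fun v =>
        mul_le_mul' (mul_le_mul' (hk _ _ _ _) (hk _ _ _ _)) (ENNReal.tsum_le_tsum fun u' =>
          ENNReal.tsum_le_tsum fun v' => mul_le_mul_left (mul_le_mul' (hk _ _ _ _)
            (hk _ _ _ _)) _)) _) _

private theorem Rls_RG {T T' r n : ℕ} (h : T ≤ T') (h' : RG T' r n) : RG T r n := by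
  unfold RG at *
  omega

private theorem Rls_okm {T T' r : ℕ} {i : Fin 4 → ℕ} (h : T ≤ T') (h' : okL 4 T' r i) :
    okL 4 T r i := fun j => Rls_RG h (h' j)

private theorem Rls_dm (hegm : S_egm P H) (D : Dat P H) (hD : D.Ok) (G : PG P) (hG : G.Ok)
    {φ : D.Γ → P → ℝ} (hφ : Adm D G φ) (c : P) (g : D.Γ) (i : D.Γ × D.Γ) :
    Measurable fun x => Rls_d D G φ c g x i := (hegm D G hD hG).2.2.1 φ hφ c g i.1 i.2

private theorem Rls_km (hegm : S_egm P H) (D : Dat P H) (hD : D.Ok) (G : PG P) (hG : G.Ok)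
    {U : Set P} (hU : IsCompact U) (s k : P) (R n : ℕ) : Measurable (D.ke G (wn U s k) R n) :=
  (hegm D G hD hG).1 _ _ (hU.mul isCompact_singleton) (hU.mul isCompact_singleton) R n

private theorem Rls_sym (hegm : S_egm P H) (hinst : S_inst P H) (D : Dat P H) (G : PG P)
    (hF : Fc D G) (gc : P) (c : ℕ) (k k' l l' : P) (h : Rel D G gc c k k' l l') :
    Rel D G gc c l l' k k' := by
  have hD := hF.ok
  have hG := hF.gok
  have hcount : Countable D.Γ := (hinst D hD).2.2.2.1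
  have := Rls_prob D hD
  intro s t s' t' hst hst'
  obtain ⟨U, hU, hUc, L, c₀, hL, h1⟩ := h s' t' s t hst' hst
  refine ⟨U, hU, hUc, L, c₀, hL, fun R => ?_⟩
  obtain ⟨C, T, hC, h2⟩ := h1 R
  refine ⟨C, T, hC, fun r hr i hi φ hφ => ?_⟩
  have h3 := h2 r hr ![i 2, i 3, i 0, i 1] (by
    intro j
    fin_cases j
    · exact hi 2
    · exact hi 3
    · exact hi 0
    · exact hi 1) φ hφ
  refine le_trans (le_of_eq ?_) h3
  rw [Rls_FX D hD, Rls_FX D hD]
  refine lintegral_congr fun z => tsum_congr fun g => ?_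
  congr 1
  exact Rls_swap (Rls_ρ D)
    (fun i => Rls_wm D (Rls_km hegm D hD G hG hUc _ _ _ _) (Rls_km hegm D hD G hG hUc _ _ _ _)
      measurable_const measurable_id i)
    (fun i => Rls_wm D (Rls_km hegm D hD G hG hUc _ _ _ _) (Rls_km hegm D hD G hG hUc _ _ _ _)
      measurable_const measurable_id i)
    (fun i => Rls_dm hegm D hD G hG hφ _ g i) (fun i => Rls_dm hegm D hD G hG hφ _ g i)

end Con

theorem tRls : S_CTs P H → S_ton P H → S_egm P H → S_AD P → S_inst P H → S_Rls P H := by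
  intro hCTs _ hegm hAD hinst D G hF gc c k k' l l' m m'
  refine ⟨Rls_sym hegm hinst D G hF gc c k k' l l', fun hR1 hR2 => ?_⟩
  have hD := hF.ok
  have hG := hF.gok
  have hcount : Countable D.Γ := (hinst D hD).2.2.2.1
  have hprob := Rls_prob D hD
  intro s t s' t' hst hst'
  obtain ⟨U₁, hU₁, hU₁c, hCT₁⟩ := hR1 s t 1 G.w hst hG.P1
  obtain ⟨U₂, hU₂, hU₂c, hCT₂⟩ := hR2 1 G.w s' t' hG.P1 hst'
  have hU : U₁ ∩ U₂ ∈ 𝓝 (1 : P) := Filter.inter_mem hU₁ hU₂
  have hUc : IsCompact (U₁ ∩ U₂) := hU₁c.inter hU₂c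
  obtain ⟨U, hUe⟩ : ∃ U, U = U₁ ∩ U₂ := ⟨_, rfl⟩
  have hs₁ : U ⊆ U₁ := hUe ▸ Set.inter_subset_left
  have hs₂ : U ⊆ U₂ := hUe ▸ Set.inter_subset_right
  rw [← hUe] at hU hUc
  clear hUe
  have hnh : ∀ k : P, U * {k} ∈ 𝓝 k := by
    intro k
    rw [Set.mul_singleton]
    have h := (Homeomorph.mulRight k).isOpenMap.image_mem_nhds hU
    simpa using h
  have hcm : ∀ k : P, IsCompact (U * {k}) := fun k => hUc.mul isCompact_singleton
  obtain ⟨T₁, c₁, hc₁, hl₁⟩ := hF.lo 1 l _ (hnh 1) _ (hnh l)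
  obtain ⟨T₂, c₂, hc₂, hl₂⟩ := hF.lo G.w l' _ (hnh G.w) _ (hnh l')
  refine ⟨U, hU, hUc, hCTs D G hD hG 0 (Fin 2) (fun _ => Fin 4 → ℕ) (fun _ => okL 4)
    ![FX D G (U₁ * {gc}) c (wn U₁ s k) (wn U₁ t k') (wn U₁ 1 l) (wn U₁ G.w l'),
      FX D G (U₂ * {gc}) c (wn U₂ 1 l) (wn U₂ G.w l') (wn U₂ s' m) (wn U₂ t' m')]
    (Fin 4 → ℕ) (okL 4) _ 0 (fun _ _ _ _ _ h h' => Rls_okm h h') ?_
    (fun _ _ _ _ h h' => Rls_okm h h') ?_⟩
  · intro j
    fin_cases j
    · exact hCT₁
    · exact hCT₂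
  intro R T
  obtain ⟨A₁, hA₁, ha₁⟩ := hF.up _ _ (hcm s) (hcm k) R
  obtain ⟨A₂, hA₂, ha₂⟩ := hF.up _ _ (hcm t) (hcm k') R
  obtain ⟨A₃, hA₃, ha₃⟩ := hF.up _ _ (hcm s') (hcm m) R
  obtain ⟨A₄, hA₄, ha₄⟩ := hF.up _ _ (hcm t') (hcm m') R
  obtain ⟨A, hAe⟩ : ∃ A, A = A₁ * A₂ + A₃ * A₄ := ⟨_, rfl⟩
  have hA : A ≠ ∞ := by
    rw [hAe]
    exact ENNReal.add_ne_top.2 ⟨ENNReal.mul_ne_top hA₁ hA₂, ENNReal.mul_ne_top hA₃ hA₄⟩
  obtain ⟨κ, hκe⟩ : ∃ κ, κ = min (c₁ * c₂) 1 := ⟨_, rfl⟩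
  have hκ0 : κ ≠ 0 := by
    rw [hκe]
    exact (lt_min (ENNReal.mul_pos hc₁.ne' hc₂.ne') one_pos).ne'
  have hκt : κ ≠ ∞ := by
    rw [hκe]
    exact ne_top_of_le_ne_top ENNReal.one_ne_top (min_le_right _ _)
  refine ⟨κ⁻¹ * A, max T (max T₁ T₂), ENNReal.mul_ne_top (ENNReal.inv_ne_top.2 hκ0) hA, ?_⟩
  intro r hr i hi
  refine ⟨fun j => ![![i 0, i 1, 2 * r, 2 * r], ![2 * r, 2 * r, i 2, i 3]] j, ?_, ?_⟩
  · have hi0 := hi 0
    have hi1 := hi 1
    have hi2 := hi 2
    have hi3 := hi 3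
    unfold RG at hi0 hi1 hi2 hi3
    intro j j'
    fin_cases j <;> fin_cases j' <;> simp [RG] <;> omega
  · intro φ hφ
    rw [Fin.sum_univ_two]
    have hFX : κ * FX D G (U * {gc}) c (wn U s k) (wn U t k') (wn U s' m) (wn U t' m') R i φ ≤
        A * FX D G (U * {gc}) c (wn U s k) (wn U t k') (wn U 1 l) (wn U G.w l') R
          ![i 0, i 1, 2 * r, 2 * r] φ +
        A * FX D G (U * {gc}) c (wn U 1 l) (wn U G.w l') (wn U s' m) (wn U t' m') R
          ![2 * r, 2 * r, i 2, i 3] φ := by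
      rw [Rls_FX D hD, Rls_FX D hD, Rls_FX D hD]
      have hSm : MeasurableSet ((U * {gc}) ×ˢ (D.O ^ c)) :=
        (hcm gc).measurableSet.prod (Rls_O D hD c)
      have hkm := Rls_km hegm D hD G hG hUc
      have hdm := Rls_dm hegm D hD G hG hφ
      rw [← lintegral_const_mul' κ _ hκt, ← lintegral_const_mul' A _ hA,
        ← lintegral_const_mul' A _ hA, ← lintegral_add_left]
      · refine lintegral_mono fun z => ?_
        simp only [← ENNReal.tsum_mul_left]
        rw [← ENNReal.tsum_add]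
        refine ENNReal.tsum_le_tsum fun g => ?_
        have h4 := Rls_tri (Rls_ρ D) (c := κ) (A := A)
          (p := Rls_w D (D.ke G (wn U s k) R (i 0)) (D.ke G (wn U t k') R (i 1)) z)
          (q := Rls_w D (D.ke G (wn U s' m) R (i 2)) (D.ke G (wn U t' m') R (i 3)) z)
          (r := Rls_w D (D.ke G (wn U 1 l) R (2 * r)) (D.ke G (wn U G.w l') R (2 * r)) z)
          (a := Rls_d D G φ s g) (b := Rls_d D G φ s' g) (d := Rls_d D G φ 1 g) hκt hA
          (fun i => Rls_wm D (hkm _ _ _ _) (hkm _ _ _ _) measurable_const measurable_id i)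
          (fun i => Rls_wm D (hkm _ _ _ _) (hkm _ _ _ _) measurable_const measurable_id i)
          (fun i => Rls_wm D (hkm _ _ _ _) (hkm _ _ _ _) measurable_const measurable_id i)
          (fun i => hdm s g i) (fun i => hdm s' g i) (fun i => hdm 1 g i)
          (fun x => by
            rw [Rls_ws, hAe]
            exact le_trans (mul_le_mul' (ha₁ _ x z) (ha₂ _ x z)) le_self_add)
          (fun x => by
            rw [Rls_ws, hAe]
            exact le_trans (mul_le_mul' (ha₃ _ x z) (ha₄ _ x z)) le_add_self)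
          (fun x => by
            rw [Rls_ws, hκe]
            have hr₁ : T₁ ≤ 2 * r := by omega
            have hr₂ : T₂ ≤ 2 * r := by omega
            exact le_trans (min_le_left _ _) (mul_le_mul' (hl₁ R _ hr₁ x z) (hl₂ R _ hr₂ x z)))
        rw [mul_left_comm κ, mul_left_comm A, mul_left_comm A, ← mul_add]
        exact mul_le_mul_right h4 _
      · exact (Rls_zm D hD hcount hSm (hkm _ _ _ _) (hkm _ _ _ _) (hkm _ _ _ _) (hkm _ _ _ _)
          (fun g i => hdm _ g i) (fun g i => hdm _ g i)).const_mul A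
    have m0 := Rls_mono hAD D hD G hG hs₁ gc c s k t k' 1 l G.w l' R
      ![i 0, i 1, 2 * r, 2 * r] φ
    have m1 := Rls_mono hAD D hD G hG hs₂ gc c 1 l G.w l' s' m t' m' R
      ![2 * r, 2 * r, i 2, i 3] φ
    calc FX D G (U * {gc}) c (wn U s k) (wn U t k') (wn U s' m) (wn U t' m') R i φ
        = κ⁻¹ * (κ * FX D G (U * {gc}) c (wn U s k) (wn U t k') (wn U s' m) (wn U t' m')
            R i φ) := by
          rw [← mul_assoc, ENNReal.inv_mul_cancel hκ0 hκt, one_mul]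
      _ ≤ κ⁻¹ * (A * FX D G (U₁ * {gc}) c (wn U₁ s k) (wn U₁ t k') (wn U₁ 1 l) (wn U₁ G.w l') R
            ![i 0, i 1, 2 * r, 2 * r] φ +
          A * FX D G (U₂ * {gc}) c (wn U₂ 1 l) (wn U₂ G.w l') (wn U₂ s' m) (wn U₂ t' m') R
            ![2 * r, 2 * r, i 2, i 3] φ) :=
          mul_le_mul_right (le_trans hFX (add_le_add (mul_le_mul_right m0 _)
            (mul_le_mul_right m1 _))) _
      _ = κ⁻¹ * A * (FX D G (U₁ * {gc}) c (wn U₁ s k) (wn U₁ t k') (wn U₁ 1 l) (wn U₁ G.w l') R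
            ![i 0, i 1, 2 * r, 2 * r] φ +
          FX D G (U₂ * {gc}) c (wn U₂ 1 l) (wn U₂ G.w l') (wn U₂ s' m) (wn U₂ t' m') R
            ![2 * r, 2 * r, i 2, i 3] φ) := by
          rw [← mul_add, mul_assoc]

end Pool.Agent.MPEF.U
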