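import Pool.Agent.Lib.MP_ef3f0f_gt.U.E.SpecB

set_option autoImplicit false

/-!
# MP_ef3f0f_gt, Theorem U, Part E: the first step of the telescoping
-/

namespace Pool.Agent.MPEF.U

open MeasureTheory Topology
open scoped ENNReal Pointwise

variable (P H : Type) [Group P] [Group H] [TopologicalSpace P] [TopologicalSpace H]
  [IsTopologicalGroup P] [IsTopologicalGroup H] [LocallyCompactSpace P] [LocallyCompactSpace H]
  [T2Space P] [T2Space H] [SecondCountableTopology P] [SecondCountableTopology H]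
  [MeasurableSpace P] [MeasurableSpace H] [BorelSpace P] [BorelSpace H]

omit [IsTopologicalGroup P] [IsTopologicalGroup H] [LocallyCompactSpace P] [LocallyCompactSpace H]
  [T2Space P] [T2Space H] [SecondCountableTopology P] [SecondCountableTopology H]
  [BorelSpace P] [BorelSpace H] in
private theorem Sma_swap1 (D : Dat P H) (hD : D.Ok) [SFinite D.μ] {α : Type} [MeasurableSpace α]
    (ρ : Measure α) [SFinite ρ] (Φ : α → P × H → ℝ≥0∞)
    (hΦ : Measurable fun z : α × (P × H) => Φ z.1 z.2) :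
    (D.IM fun x => ∫⁻ a, Φ a x ∂ρ) = ∫⁻ a, (D.IM fun x => Φ a x) ∂ρ := by
  unfold Dat.IM
  have h1 : ∀ x, D.χ x * ∫⁻ a, Φ a x ∂ρ = ∫⁻ a, D.χ x * Φ a x ∂ρ := fun x =>
    (lintegral_const_mul _ (hΦ.comp measurable_prodMk_right)).symm
  simp_rw [h1]
  rw [lintegral_lintegral_swap]
  have h2 : Measurable fun z : (P × H) × α => D.χ z.1 * Φ z.2 z.1 :=
    (hD.χm.comp measurable_fst).mul (hΦ.comp measurable_swap)
  exact h2.aemeasurable

omit [IsTopologicalGroup P] [IsTopologicalGroup H] [LocallyCompactSpace P] [LocallyCompactSpace H]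
  [T2Space P] [T2Space H] [SecondCountableTopology P] [SecondCountableTopology H]
  [BorelSpace P] [BorelSpace H] in
private theorem Sma_swap2 (D : Dat P H) (hD : D.Ok) [SFinite D.μ] {α : Type} [MeasurableSpace α]
    (ρ : Measure α) [SFinite ρ] (Ψ : α → P × H → P × H → ℝ≥0∞)
    (hΨ : Measurable fun z : (α × (P × H)) × (P × H) => Ψ z.1.1 z.1.2 z.2) :
    (D.IM fun x => D.IM fun y => ∫⁻ a, Ψ a x y ∂ρ) =
      ∫⁻ a, (D.IM fun x => D.IM fun y => Ψ a x y) ∂ρ := by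
  have h1 : ∀ x, (D.IM fun y => ∫⁻ a, Ψ a x y ∂ρ) = ∫⁻ a, (D.IM fun y => Ψ a x y) ∂ρ := by
    intro x
    refine Sma_swap1 P H D hD ρ (fun a y => Ψ a x y) ?_
    exact hΨ.comp ((measurable_fst.prodMk measurable_const).prodMk measurable_snd)
  simp_rw [h1]
  refine Sma_swap1 P H D hD ρ (fun a x => D.IM fun y => Ψ a x y) ?_
  unfold Dat.IM
  exact ((hD.χm.comp measurable_snd).mul hΨ).lintegral_prod_right'

private theorem Sma_main (D : Dat P H) (hD : D.Ok) (hTTs : S_TTs P H) (hin : S_inst P H)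
    (ρ : Measure (P × P)) [SFinite ρ] (S : Set (P × P)) (hS : ∀ᵐ a ∂ρ, a ∈ S)
    (kV kU KV K₁ K₂ : P × H → ℝ≥0∞) (hKV : Measurable KV) (hK₁ : Measurable K₁)
    (hK₂ : Measurable K₂) (ψ : P × H → D.Γ → D.Γ → ℝ) (hψm : ∀ u v, Measurable fun x => ψ x u v)
    (hψi : ∀ (γ γ' : D.Γ) (x) (u v : D.Γ),
      ψ ((γ : P × H) * x) (γ * u * γ') (γ * v * γ') = ψ x u v)
    (C : ℝ≥0∞)
    (h1 : ∀ g g' : P × H, kU g * kU g' ≤ C * ∫⁻ a, K₁ ((a.1, (1 : H))⁻¹ * g * (a.2, (1 : H))) *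
      K₂ ((a.1, (1 : H))⁻¹ * g' * (a.2, (1 : H))) ∂ρ)
    (h2 : ∀ a ∈ S, ∀ g, kV g ≤ KV ((a.1, (1 : H))⁻¹ * g * (a.2, (1 : H))))
    (h3 : ∀ (x y : P × H) (V u : D.Γ), kV (x⁻¹ * (V : P × H) * y) ≠ 0 →
      kU (x⁻¹ * (u : P × H) * y) ≠ 0 → ∀ a ∈ S, ψ (x * (a.1, (1 : H))) u V = ψ x u V) :
    TT D kV kU kU ψ ≤ C * (ρ Set.univ * TT D KV K₁ K₂ ψ) := by
  obtain ⟨-, -, hsf, hct, -⟩ := hin D hD
  have hP : ∀ a : P × P, TT D KV K₁ K₂ ψ = D.IM fun x => D.IM fun y => ∑' V : D.Γ,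
      KV ((a.1, (1 : H))⁻¹ * (x⁻¹ * (V : P × H) * y) * (a.2, (1 : H))) *
        D.st2 (fun g => K₁ ((a.1, (1 : H))⁻¹ * g * (a.2, (1 : H))))
          (fun g => K₂ ((a.1, (1 : H))⁻¹ * g * (a.2, (1 : H)))) x y
          fun u u' => ab (ψ (x * (a.1, (1 : H))) u V - ψ (x * (a.1, (1 : H))) u' V) := by
    intro a
    exact (hTTs D hD KV K₁ K₂ hKV hK₁ hK₂ ψ hψm hψi).1 (a.1, 1) (a.2, 1)
  have hsh : ∀ (K : P × H → ℝ≥0∞), Measurable K → ∀ u : D.Γ,
      Measurable fun z : ((P × P) × (P × H)) × (P × H) =>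
        K ((z.1.1.1, (1 : H))⁻¹ * (z.1.2⁻¹ * (u : P × H) * z.2) * (z.1.1.2, (1 : H))) := by
    intro K hK u
    refine hK.comp ?_
    have : Continuous fun z : ((P × P) × (P × H)) × (P × H) =>
        (z.1.1.1, (1 : H))⁻¹ * (z.1.2⁻¹ * (u : P × H) * z.2) * (z.1.1.2, (1 : H)) := by
      fun_prop
    exact this.measurable
  have hps : ∀ u V : D.Γ, Measurable fun z : ((P × P) × (P × H)) × (P × H) =>
      ψ (z.1.2 * (z.1.1.1, (1 : H))) u V := by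
    intro u V
    refine (hψm u V).comp ?_
    have : Continuous fun z : ((P × P) × (P × H)) × (P × H) => z.1.2 * (z.1.1.1, (1 : H)) := by
      fun_prop
    exact this.measurable
  have hab : ∀ u u' V : D.Γ, Measurable fun z : ((P × P) × (P × H)) × (P × H) =>
      ab (ψ (z.1.2 * (z.1.1.1, (1 : H))) u V - ψ (z.1.2 * (z.1.1.1, (1 : H))) u' V) := by
    intro u u' V
    unfold ab
    exact ENNReal.measurable_ofReal.comp (continuous_abs.measurable.comp ((hps u V).sub (hps u' V)))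
  -- the summands
  have hm3 : ∀ u u' V : D.Γ, Measurable fun z : ((P × P) × (P × H)) × (P × H) =>
      K₁ ((z.1.1.1, (1 : H))⁻¹ * (z.1.2⁻¹ * (u : P × H) * z.2) * (z.1.1.2, (1 : H))) *
      K₂ ((z.1.1.1, (1 : H))⁻¹ * (z.1.2⁻¹ * (u' : P × H) * z.2) * (z.1.1.2, (1 : H))) *
      ab (ψ (z.1.2 * (z.1.1.1, (1 : H))) u V - ψ (z.1.2 * (z.1.1.1, (1 : H))) u' V) := fun u u' V =>
    ((hsh K₁ hK₁ u).mul (hsh K₂ hK₂ u')).mul (hab u u' V)
  have hm2 : ∀ V : D.Γ, Measurable fun z : ((P × P) × (P × H)) × (P × H) =>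
      D.st2 (fun g => K₁ ((z.1.1.1, (1 : H))⁻¹ * g * (z.1.1.2, (1 : H))))
          (fun g => K₂ ((z.1.1.1, (1 : H))⁻¹ * g * (z.1.1.2, (1 : H)))) z.1.2 z.2
          fun u u' => ab (ψ (z.1.2 * (z.1.1.1, (1 : H))) u V -
            ψ (z.1.2 * (z.1.1.1, (1 : H))) u' V) := by
    intro V
    unfold Dat.st2
    exact Measurable.ennreal_tsum fun u => Measurable.ennreal_tsum fun u' => hm3 u u' V
  have hm1 : ∀ V : D.Γ, Measurable fun z : ((P × P) × (P × H)) × (P × H) =>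
      KV ((z.1.1.1, (1 : H))⁻¹ * (z.1.2⁻¹ * (V : P × H) * z.2) * (z.1.1.2, (1 : H))) *
      D.st2 (fun g => K₁ ((z.1.1.1, (1 : H))⁻¹ * g * (z.1.1.2, (1 : H))))
          (fun g => K₂ ((z.1.1.1, (1 : H))⁻¹ * g * (z.1.1.2, (1 : H)))) z.1.2 z.2
          fun u u' => ab (ψ (z.1.2 * (z.1.1.1, (1 : H))) u V -
            ψ (z.1.2 * (z.1.1.1, (1 : H))) u' V) := fun V => (hsh KV hKV V).mul (hm2 V)
  have hm0 := Measurable.ennreal_tsum hm1
  -- slices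
  have hsl : ∀ (x y : P × H) (f : ((P × P) × (P × H)) × (P × H) → ℝ≥0∞), Measurable f →
      Measurable fun a : P × P => f ((a, x), y) := fun x y f hf =>
    hf.comp ((measurable_id.prodMk measurable_const).prodMk measurable_const)
  have key : ∀ x y : P × H, (∑' V : D.Γ, kV (x⁻¹ * (V : P × H) * y) *
      D.st2 kU kU x y fun u u' => ab (ψ x u V - ψ x u' V)) ≤
      C * ∫⁻ a, (∑' V : D.Γ,
        KV ((a.1, (1 : H))⁻¹ * (x⁻¹ * (V : P × H) * y) * (a.2, (1 : H))) *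
        D.st2 (fun g => K₁ ((a.1, (1 : H))⁻¹ * g * (a.2, (1 : H))))
          (fun g => K₂ ((a.1, (1 : H))⁻¹ * g * (a.2, (1 : H)))) x y
          fun u u' => ab (ψ (x * (a.1, (1 : H))) u V - ψ (x * (a.1, (1 : H))) u' V)) ∂ρ := by
    intro x y
    rw [lintegral_tsum fun V => (hsl x y _ (hm1 V)).aemeasurable, ← ENNReal.tsum_mul_left]
    refine ENNReal.tsum_le_tsum fun V => ?_
    unfold Dat.st2
    simp_rw [← ENNReal.tsum_mul_left]
    have hq3 : ∀ u u' : D.Γ, Measurable fun a : P × P =>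
        KV ((a.1, (1 : H))⁻¹ * (x⁻¹ * (V : P × H) * y) * (a.2, (1 : H))) *
        (K₁ ((a.1, (1 : H))⁻¹ * (x⁻¹ * (u : P × H) * y) * (a.2, (1 : H))) *
        K₂ ((a.1, (1 : H))⁻¹ * (x⁻¹ * (u' : P × H) * y) * (a.2, (1 : H))) *
        ab (ψ (x * (a.1, (1 : H))) u V - ψ (x * (a.1, (1 : H))) u' V)) := fun u u' =>
      (hsl x y _ (hsh KV hKV V)).mul (hsl x y _ (hm3 u u' V))
    rw [lintegral_tsum fun u => (Measurable.ennreal_tsum fun u' => hq3 u u').aemeasurable,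
      ← ENNReal.tsum_mul_left]
    refine ENNReal.tsum_le_tsum fun u => ?_
    rw [lintegral_tsum fun u' => (hq3 u u').aemeasurable, ← ENNReal.tsum_mul_left]
    refine ENNReal.tsum_le_tsum fun u' => ?_
    by_cases hv : kV (x⁻¹ * (V : P × H) * y) = 0
    · simp [hv]
    by_cases hu : kU (x⁻¹ * (u : P × H) * y) = 0
    · simp [hu]
    by_cases hu' : kU (x⁻¹ * (u' : P × H) * y) = 0
    · simp [hu']
    have e1 : kV (x⁻¹ * (V : P × H) * y) * (kU (x⁻¹ * (u : P × H) * y) *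
        kU (x⁻¹ * (u' : P × H) * y) * ab (ψ x u V - ψ x u' V)) =
        kU (x⁻¹ * (u : P × H) * y) * kU (x⁻¹ * (u' : P × H) * y) *
        (kV (x⁻¹ * (V : P × H) * y) * ab (ψ x u V - ψ x u' V)) := by ring
    rw [e1]
    refine (mul_le_mul_left (h1 _ _) _).trans ?_
    rw [mul_assoc]
    refine mul_le_mul_right ?_ C
    have hq2 : Measurable fun a : P × P =>
        K₁ ((a.1, (1 : H))⁻¹ * (x⁻¹ * (u : P × H) * y) * (a.2, (1 : H))) *
        K₂ ((a.1, (1 : H))⁻¹ * (x⁻¹ * (u' : P × H) * y) * (a.2, (1 : H))) :=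
      (hsl x y _ (hsh K₁ hK₁ u)).mul (hsl x y _ (hsh K₂ hK₂ u'))
    rw [mul_comm, ← lintegral_const_mul _ hq2]
    refine lintegral_mono_ae ?_
    filter_upwards [hS] with a ha
    rw [h3 x y V u hv hu a ha, h3 x y V u' hv hu' a ha]
    calc _ = kV (x⁻¹ * (V : P × H) * y) * (K₁ ((a.1, (1 : H))⁻¹ * (x⁻¹ * (u : P × H) * y) *
          (a.2, (1 : H))) * K₂ ((a.1, (1 : H))⁻¹ * (x⁻¹ * (u' : P × H) * y) * (a.2, (1 : H))) *
          ab (ψ x u V - ψ x u' V)) := by ring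
      _ ≤ _ := mul_le_mul_left (h2 a ha _) _
  have hfin : TT D kV kU kU ψ ≤ D.IM fun x => D.IM fun y => C * ∫⁻ a, (∑' V : D.Γ,
        KV ((a.1, (1 : H))⁻¹ * (x⁻¹ * (V : P × H) * y) * (a.2, (1 : H))) *
        D.st2 (fun g => K₁ ((a.1, (1 : H))⁻¹ * g * (a.2, (1 : H))))
          (fun g => K₂ ((a.1, (1 : H))⁻¹ * g * (a.2, (1 : H)))) x y
          fun u u' => ab (ψ (x * (a.1, (1 : H))) u V - ψ (x * (a.1, (1 : H))) u' V)) ∂ρ := by
    unfold TT Dat.IM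
    refine lintegral_mono fun x => mul_le_mul_right (lintegral_mono fun y =>
      mul_le_mul_right (key x y) _) _
  refine hfin.trans ?_
  have hmI : Measurable fun z : (P × H) × (P × H) => ∫⁻ a, (∑' V : D.Γ,
        KV ((a.1, (1 : H))⁻¹ * (z.1⁻¹ * (V : P × H) * z.2) * (a.2, (1 : H))) *
        D.st2 (fun g => K₁ ((a.1, (1 : H))⁻¹ * g * (a.2, (1 : H))))
          (fun g => K₂ ((a.1, (1 : H))⁻¹ * g * (a.2, (1 : H)))) z.1 z.2
          fun u u' => ab (ψ (z.1 * (a.1, (1 : H))) u V - ψ (z.1 * (a.1, (1 : H))) u' V)) ∂ρ := by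
    have : Measurable fun w : ((P × H) × (P × H)) × (P × P) => (∑' V : D.Γ,
        KV ((w.2.1, (1 : H))⁻¹ * (w.1.1⁻¹ * (V : P × H) * w.1.2) * (w.2.2, (1 : H))) *
        D.st2 (fun g => K₁ ((w.2.1, (1 : H))⁻¹ * g * (w.2.2, (1 : H))))
          (fun g => K₂ ((w.2.1, (1 : H))⁻¹ * g * (w.2.2, (1 : H)))) w.1.1 w.1.2
          fun u u' => ab (ψ (w.1.1 * (w.2.1, (1 : H))) u V -
            ψ (w.1.1 * (w.2.1, (1 : H))) u' V)) :=
      hm0.comp ((measurable_snd.prodMk (measurable_fst.comp measurable_fst)).prodMk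
        (measurable_snd.comp measurable_fst))
    exact this.lintegral_prod_right'
  have hcm : ∀ f : (P × H) × (P × H) → ℝ≥0∞, Measurable f →
      (D.IM fun x => D.IM fun y => C * f (x, y)) = C * D.IM fun x => D.IM fun y => f (x, y) := by
    intro f hf
    unfold Dat.IM
    have e : ∀ x, ∫⁻ y, D.χ y * (C * f (x, y)) ∂D.μ = C * ∫⁻ y, D.χ y * f (x, y) ∂D.μ := by
      intro x
      have hm : Measurable fun y => D.χ y * f (x, y) :=
        hD.χm.mul (hf.comp measurable_prodMk_left)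
      rw [← lintegral_const_mul _ hm]
      refine lintegral_congr fun y => ?_
      ring
    simp_rw [e]
    have hm' : Measurable fun x => D.χ x * ∫⁻ y, D.χ y * f (x, y) ∂D.μ :=
      hD.χm.mul ((hD.χm.comp measurable_snd).mul hf).lintegral_prod_right'
    rw [← lintegral_const_mul _ hm']
    refine lintegral_congr fun y => ?_
    ring
  rw [hcm _ hmI]
  refine mul_le_mul_right (le_of_eq ?_) C
  rw [Sma_swap2 P H D hD ρ (fun a x y => ∑' V : D.Γ,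
        KV ((a.1, (1 : H))⁻¹ * (x⁻¹ * (V : P × H) * y) * (a.2, (1 : H))) *
        D.st2 (fun g => K₁ ((a.1, (1 : H))⁻¹ * g * (a.2, (1 : H))))
          (fun g => K₂ ((a.1, (1 : H))⁻¹ * g * (a.2, (1 : H)))) x y
          fun u u' => ab (ψ (x * (a.1, (1 : H))) u V - ψ (x * (a.1, (1 : H))) u' V)) hm0]
  simp_rw [← hP]
  rw [lintegral_const, mul_comm]

omit [TopologicalSpace P] [TopologicalSpace H] [IsTopologicalGroup P] [IsTopologicalGroup H]
  [LocallyCompactSpace P] [LocallyCompactSpace H] [T2Space P] [T2Space H]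
  [SecondCountableTopology P] [SecondCountableTopology H] [BorelSpace P] [BorelSpace H] in
private theorem Sma_TTmono (D : Dat P H) (KV K₁ K₂ KV' K₁' K₂' : P × H → ℝ≥0∞)
    (ψ : P × H → D.Γ → D.Γ → ℝ) (h : ∀ g, KV g ≤ KV' g) (h₁ : ∀ g, K₁ g ≤ K₁' g)
    (h₂ : ∀ g, K₂ g ≤ K₂' g) : TT D KV K₁ K₂ ψ ≤ TT D KV' K₁' K₂' ψ := by
  unfold TT Dat.IM Dat.st2
  exact lintegral_mono fun x => mul_le_mul_right (lintegral_mono fun y =>
    mul_le_mul_right (ENNReal.tsum_le_tsum fun V => mul_le_mul' (h _)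
      (ENNReal.tsum_le_tsum fun u => ENNReal.tsum_le_tsum fun u' =>
        mul_le_mul' (mul_le_mul' (h₁ _) (h₂ _)) le_rfl)) _) _

private theorem Sma_iter {X : Type} (F : (X → ℝ≥0∞) → X → ℝ≥0∞)
    (hF : ∀ K K' : X → ℝ≥0∞, (∀ g, K g ≤ K' g) → ∀ g, F K g ≤ F K' g) :
    ∀ (N : ℕ) (K K' : X → ℝ≥0∞), (∀ g, K g ≤ K' g) → ∀ g, F^[N] K g ≤ F^[N] K' g := by
  intro N
  induction N with
  | zero => exact fun K K' h => h
  | succ N ih =>
    intro K K' h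
    rw [Function.iterate_succ_apply, Function.iterate_succ_apply]
    exact ih _ _ (hF _ _ h)

/-- **Sma.** The first step of the telescoping. -/
theorem tSma : S_KFP P → S_opI P H → S_phP P H → S_pvp P H → S_TTs P H → S_ton P H → S_ec P →
    S_AD P → S_inst P H → S_nu P H → S_Sma P H := by
  intro hKFP hopI hphP hpvp hTTs _hton hec hAD hin hnu D G hF Uc hUc Uv hUv
  have hD := hF.ok
  have hG := hF.gok
  have := hD.haar₁
  have := hD.right₁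
  have := hD.inv₁
  have hUn : Un D.μ₁ := ⟨hD.haar₁, hD.right₁, hD.inv₁⟩
  have hnm := (hnu D hD).1
  obtain ⟨Uv₁, hUv₁n, hUv₁s, hUv₁c⟩ := local_compact_nhds hUv
  have hPn : {q : P × P | G.Pos q.1 (q.2 * G.w)} ∈ 𝓝 ((1 : P), (1 : P)) := by
    have hc : Continuous fun q : P × P => (q.1, q.2 * G.w) := by fun_prop
    have ho : IsOpen {q : P × P | G.Pos q.1 (q.2 * G.w)} := hG.Po.preimage hc
    refine ho.mem_nhds ?_
    change G.Pos 1 (1 * G.w)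
    rw [one_mul]
    exact hG.P1
  obtain ⟨A, hA, B, hB, hAB⟩ := mem_nhds_prod_iff.1 hPn
  have hVn : {q : P × P | q.1⁻¹ * q.2 ∈ Uv₁} ∈ 𝓝 ((1 : P), (1 : P)) := by
    have hc : Continuous fun q : P × P => q.1⁻¹ * q.2 := by fun_prop
    refine hc.continuousAt.preimage_mem_nhds ?_
    simpa using hUv₁n
  obtain ⟨A', hA', B', hB', hAB'⟩ := mem_nhds_prod_iff.1 hVn
  obtain ⟨Uc₁, hn, hs, hc⟩ := local_compact_nhds
    (Filter.inter_mem hUc (Filter.inter_mem (Filter.inter_mem hA hB) (Filter.inter_mem hA' hB')))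
  obtain ⟨U, hU1, hUk, hUs, hK⟩ := hKFP G D.μ₁ hUn hG Uc₁ hn
  have hUP : ∀ e ∈ U, ∀ e' ∈ U, G.Pos e (e' * G.w) := fun e he e' he' =>
    hAB (Set.mk_mem_prod (hs (hUs he)).2.1.1 (hs (hUs he')).2.1.2)
  have hUV : ∀ e ∈ U, ∀ e' ∈ U, e⁻¹ * e' ∈ Uv₁ := fun e he e' he' =>
    hAB' (Set.mk_mem_prod (hs (hUs he)).2.2.1 (hs (hUs he')).2.2.2)
  have h1U : (1 : P) ∈ U := mem_of_mem_nhds hU1
  have hwk : IsCompact (G.uw U) := hUk.mul isCompact_singleton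
  refine ⟨U, hU1, hUk, fun s hs1 R => ?_⟩
  obtain ⟨C, hC, hKF⟩ := hK s
  obtain ⟨k, hk⟩ := hphP D G hG hF.gf U (G.uw U) (G.uw U) U hUk hwk hwk hUk
    (by
      rintro e he _ ⟨e', he', w', hw', rfl⟩
      rw [Set.mem_singleton_iff] at hw'
      subst hw'
      exact hUP e he e' he')
    (by
      rintro _ ⟨e', he', w', hw', rfl⟩ e he
      rw [Set.mem_singleton_iff] at hw'
      subst hw'
      exact (hG.Ps _ _).1 (hUP e he e' he'))
  obtain ⟨adm, -, -, ads, admeas, -⟩ := hAD G D.μ₁ hG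
  obtain ⟨T₁, hT₁⟩ := ads 0 k
  obtain ⟨T₂, hT₂⟩ := ads (2 * R) k
  refine ⟨C * (D.μ₁ U * D.μ₁ U), max T₁ T₂,
    ENNReal.mul_ne_top hC (ENNReal.mul_ne_top hUk.measure_ne_top hUk.measure_ne_top),
    fun N m hN hm φ hφ i hi0 hi1 => ?_⟩
  obtain ⟨pm, pe, -⟩ := hpvp D G hD hG φ hφ
  unfold FS
  rw [hi0, hi1]
  have hk1 : Measurable (eP D.μ₁ G Uc₁ (G.uw Uc₁) 0 s) :=
    admeas Uc₁ (G.uw Uc₁) hc (hc.mul isCompact_singleton) 0 s
  have htk : ∀ (f : P → ℝ≥0∞) (n : ℕ), Measurable f → Measurable (D.tk f n) := fun f n hf =>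
    (hf.comp measurable_fst).mul ((hnm n).comp measurable_snd)
  obtain ⟨oF, oB, -, -, -⟩ := hopI D hD G.a (eP D.μ₁ G Uc₁ (G.uw Uc₁) 0 s) s hk1 hs1
  have eF : (opF D G.a)^[N] (D.ch G Uc₁ s) =
      D.tk (fun g => eP D.μ₁ G Uc₁ (G.uw Uc₁) 0 s (g * (G.a ^ N)⁻¹)) (s + N) := oF N
  have eB : (opB D G.a)^[N] (D.ch G Uc₁ s) =
      D.tk (fun g => eP D.μ₁ G Uc₁ (G.uw Uc₁) 0 s ((G.a ^ N)⁻¹ * g)) (s + N) := oB N
  have mF : Measurable ((opF D G.a)^[N] (D.ch G Uc₁ s)) := by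
    rw [eF]
    exact htk _ _ (hk1.comp (measurable_mul_const _))
  have mB : Measurable ((opB D G.a)^[N] (D.ch G Uc₁ s)) := by
    rw [eB]
    exact htk _ _ (hk1.comp (measurable_const_mul _))
  have mV : Measurable (D.eg G (G.uw Uv₁) Uv₁ (2 * R) m) :=
    htk _ _ (admeas _ _ (hUv₁c.mul isCompact_singleton) hUv₁c _ _)
  have hmono : TT D (D.eg G (G.uw Uv₁) Uv₁ (2 * R) m) ((opF D G.a)^[N] (D.ch G Uc₁ s))
      ((opB D G.a)^[N] (D.ch G Uc₁ s)) (pv G φ) ≤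
      TT D (D.eg G (G.uw Uv) Uv (2 * R) m) ((opF D G.a)^[N] (D.ch G Uc s))
        ((opB D G.a)^[N] (D.ch G Uc s)) (pv G φ) := by
    have hUcs : Uc₁ ⊆ Uc := fun e he => (hs he).1
    have hch : ∀ g, D.ch G Uc₁ s g ≤ D.ch G Uc s g := fun g =>
      mul_le_mul_left (adm _ _ _ _ 0 0 s hUcs (Set.mul_subset_mul_right hUcs) le_rfl g.1) _
    refine Sma_TTmono P H D _ _ _ _ _ _ _ ?_ ?_ ?_
    · exact fun g => mul_le_mul_left
        (adm _ _ _ _ _ _ m (Set.mul_subset_mul_right hUv₁s) hUv₁s le_rfl g.1) _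
    · refine Sma_iter (opF D G.a) (fun K K' h g => ?_) N _ _ hch
      exact lintegral_mono fun _ => mul_le_mul_right (h _) _
    · refine Sma_iter (opB D G.a) (fun K K' h g => ?_) N _ _ hch
      exact lintegral_mono fun _ => mul_le_mul_right (h _) _
  have main := Sma_main P H D hD hTTs hin ((D.μ₁.prod D.μ₁).restrict (U ×ˢ U)) (U ×ˢ U)
    (ae_restrict_mem (hUk.measurableSet.prod hUk.measurableSet))
    (D.eg G (G.uw U) U (2 * R) m) (D.ch G U (s + N)) (D.eg G (G.uw Uv₁) Uv₁ (2 * R) m)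
    ((opF D G.a)^[N] (D.ch G Uc₁ s)) ((opB D G.a)^[N] (D.ch G Uc₁ s)) mV mF mB (pv G φ) pm pe C
    ?_ ?_ ?_
  · refine main.trans ?_
    rw [Measure.restrict_apply_univ, Measure.prod_prod, ← mul_assoc]
    exact mul_le_mul_right hmono _
  · intro g g'
    have e1 : ∀ a : P × P, (opF D G.a)^[N] (D.ch G Uc₁ s) ((a.1, (1 : H))⁻¹ * g * (a.2, (1 : H))) *
        (opB D G.a)^[N] (D.ch G Uc₁ s) ((a.1, (1 : H))⁻¹ * g' * (a.2, (1 : H))) =
        (D.nu (s + N) g.2 * D.nu (s + N) g'.2) *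
        (eP D.μ₁ G Uc₁ (G.uw Uc₁) 0 s (a.1⁻¹ * g.1 * a.2 * (G.a ^ N)⁻¹) *
          eP D.μ₁ G Uc₁ (G.uw Uc₁) 0 s ((G.a ^ N)⁻¹ * (a.1⁻¹ * g'.1 * a.2))) := by
      intro a
      rw [eF, eB]
      have e2 : ((a.1, (1 : H))⁻¹ * g * (a.2, (1 : H))) = (a.1⁻¹ * g.1 * a.2, g.2) := by
        ext <;> simp
      have e3 : ((a.1, (1 : H))⁻¹ * g' * (a.2, (1 : H))) = (a.1⁻¹ * g'.1 * a.2, g'.2) := by
        ext <;> simp
      rw [e2, e3]
      unfold Dat.tk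
      ring
    have hm2 : Measurable fun a : P × P =>
        eP D.μ₁ G Uc₁ (G.uw Uc₁) 0 s (a.1⁻¹ * g.1 * a.2 * (G.a ^ N)⁻¹) *
          eP D.μ₁ G Uc₁ (G.uw Uc₁) 0 s ((G.a ^ N)⁻¹ * (a.1⁻¹ * g'.1 * a.2)) := by
      have c1 : Continuous fun a : P × P => a.1⁻¹ * g.1 * a.2 * (G.a ^ N)⁻¹ := by fun_prop
      have c2 : Continuous fun a : P × P => (G.a ^ N)⁻¹ * (a.1⁻¹ * g'.1 * a.2) := by fun_prop
      exact (hk1.comp c1.measurable).mul (hk1.comp c2.measurable)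
    simp_rw [e1]
    rw [lintegral_const_mul _ hm2, ← Measure.prod_restrict, lintegral_prod _ hm2.aemeasurable]
    have := hKF N g.1 g'.1
    calc _ = (D.nu (s + N) g.2 * D.nu (s + N) g'.2) *
          (eP D.μ₁ G U (G.uw U) 0 (s + N) g.1 * eP D.μ₁ G U (G.uw U) 0 (s + N) g'.1) := by
          change (eP D.μ₁ G U (G.uw U) 0 (s + N) g.1 * D.nu (s + N) g.2) *
            (eP D.μ₁ G U (G.uw U) 0 (s + N) g'.1 * D.nu (s + N) g'.2) = _
          ring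
      _ ≤ _ := mul_le_mul_right this _
      _ = _ := by ring
  · rintro ⟨q, q'⟩ ⟨hq, hq'⟩ g
    have e2 : (((q, q').1, (1 : H))⁻¹ * g * ((q, q').2, (1 : H))) = (q⁻¹ * g.1 * q', g.2) := by
      ext <;> simp
    rw [e2]
    change eP D.μ₁ G (G.uw U) U (2 * R) m g.1 * D.nu m g.2 ≤
      eP D.μ₁ G (G.uw Uv₁) Uv₁ (2 * R) m (q⁻¹ * g.1 * q') * D.nu m g.2
    refine mul_le_mul_left ?_ _
    have h4 := (hec G D.μ₁ hUn hG).2.2.2.1
    rw [(h4 _ _ _ _ q' _).2, (h4 _ _ _ _ q⁻¹ _).1, inv_inv]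
    refine adm _ _ _ _ _ _ m ?_ ?_ le_rfl g.1
    · rintro _ ⟨e, he, w', hw', rfl⟩
      rw [Set.mem_singleton_iff] at hw'
      subst hw'
      exact ⟨q, rfl, q⁻¹ * e * G.w, ⟨q⁻¹ * e, hUV q hq e he, G.w, rfl, rfl⟩, by
        simp only [mul_assoc, mul_inv_cancel_left]⟩
    · intro e he
      exact ⟨q', rfl, q'⁻¹ * e, hUV q' hq' e he, by simp⟩
  · intro x y V u hv hu a ha
    have hW1 : (x⁻¹ * (u : P × H) * y).1 ∈ G.W U (G.uw U) k := by
      refine hT₁ (s + N) ?_ U (G.uw U) _ (left_ne_zero_of_mul hu)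
      have := le_max_left T₁ T₂
      omega
    have hW2 : (x⁻¹ * (V : P × H) * y).1 ∈ G.W (G.uw U) U k := by
      refine hT₂ m ?_ (G.uw U) U _ (left_ne_zero_of_mul hv)
      exact (le_max_right T₁ T₂).trans hm
    have h5 := (hk x y u V hW1 hW2 φ hφ 1 h1U G.w ⟨1, h1U, G.w, rfl, one_mul _⟩).1 a.1 ha.1
    rw [mul_one] at h5
    exact h5

end Pool.Agent.MPEF.U
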