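import Pool.Agent.Lib.MP_ef3f0f_gt.U.E.SpecA

set_option autoImplicit false

/-!
# MP_ef3f0f_gt, Theorem U, Part E: the theta bound
-/

namespace Pool.Agent.MPEF.U

open MeasureTheory Topology
open scoped ENNReal Pointwise

section aux

variable {P H : Type} [Group P] [Group H] [MeasurableSpace P] [MeasurableSpace H]

/-- `u ↦ ins b u g` as a permutation. -/
private def TBd_eq {Γ : Type} [Group Γ] (b : Bool) (g : Γ) : Γ ≃ Γ :=
  if b then Equiv.mulRight g else Equiv.refl Γ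

private theorem TBd_eq_apply {Γ : Type} [Group Γ] (b : Bool) (u g : Γ) :
    TBd_eq b g u = ins b u g := by
  cases b <;> rfl

private theorem TBd_st3 (D : Dat P H) (K₀ K₁ K₂ K₀' K₁' K₂' : P × H → ℝ≥0∞) (C : ℝ≥0∞)
    (x y : P × H) (b : Fin 3 → Bool) (g : D.Γ)
    (h0 : ∀ u : D.Γ, K₀ (x⁻¹ * (u : P × H) * y) ≤
      C * K₀' (x⁻¹ * ((ins (b 0) u g : D.Γ) : P × H) * y))
    (h1 : ∀ u : D.Γ, K₁ (x⁻¹ * (u : P × H) * y) ≤
      C * K₁' (x⁻¹ * ((ins (b 1) u g : D.Γ) : P × H) * y))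
    (h2 : ∀ u : D.Γ, K₂ (x⁻¹ * (u : P × H) * y) ≤
      C * K₂' (x⁻¹ * ((ins (b 2) u g : D.Γ) : P × H) * y))
    (f : D.Γ → D.Γ → D.Γ → ℝ≥0∞) :
    D.st3 K₀ K₁ K₂ x y (fun u v w => f (ins (b 0) u g) (ins (b 1) v g) (ins (b 2) w g)) ≤
      C ^ 3 * D.st3 K₀' K₁' K₂' x y f := by
  have e1 : D.st3 K₀ K₁ K₂ x y
      (fun u v w => f (ins (b 0) u g) (ins (b 1) v g) (ins (b 2) w g)) ≤
      ∑' u : D.Γ, ∑' v : D.Γ, ∑' w : D.Γ,
        C ^ 3 * (K₀' (x⁻¹ * ((TBd_eq (b 0) g u : D.Γ) : P × H) * y) *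
          K₁' (x⁻¹ * ((TBd_eq (b 1) g v : D.Γ) : P × H) * y) *
          K₂' (x⁻¹ * ((TBd_eq (b 2) g w : D.Γ) : P × H) * y) *
          f (TBd_eq (b 0) g u) (TBd_eq (b 1) g v) (TBd_eq (b 2) g w)) := by
    unfold Dat.st3
    refine ENNReal.tsum_le_tsum fun u => ENNReal.tsum_le_tsum fun v =>
      ENNReal.tsum_le_tsum fun w => ?_
    simp only [TBd_eq_apply]
    calc K₀ (x⁻¹ * (u : P × H) * y) * K₁ (x⁻¹ * (v : P × H) * y) * K₂ (x⁻¹ * (w : P × H) * y) *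
          f (ins (b 0) u g) (ins (b 1) v g) (ins (b 2) w g)
        ≤ (C * K₀' (x⁻¹ * ((ins (b 0) u g : D.Γ) : P × H) * y)) *
          (C * K₁' (x⁻¹ * ((ins (b 1) v g : D.Γ) : P × H) * y)) *
          (C * K₂' (x⁻¹ * ((ins (b 2) w g : D.Γ) : P × H) * y)) *
          f (ins (b 0) u g) (ins (b 1) v g) (ins (b 2) w g) := by
          gcongr
          · exact h0 u
          · exact h1 v
          · exact h2 w
      _ = _ := by ring
  refine e1.trans (le_of_eq ?_)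
  unfold Dat.st3
  rw [(TBd_eq (b 0) g).tsum_eq (fun u => ∑' v : D.Γ, ∑' w : D.Γ,
    C ^ 3 * (K₀' (x⁻¹ * ((u : D.Γ) : P × H) * y) *
          K₁' (x⁻¹ * ((TBd_eq (b 1) g v : D.Γ) : P × H) * y) *
          K₂' (x⁻¹ * ((TBd_eq (b 2) g w : D.Γ) : P × H) * y) *
          f u (TBd_eq (b 1) g v) (TBd_eq (b 2) g w)))]
  rw [← ENNReal.tsum_mul_left]
  refine tsum_congr fun u => ?_
  rw [(TBd_eq (b 1) g).tsum_eq (fun v => ∑' w : D.Γ,
    C ^ 3 * (K₀' (x⁻¹ * ((u : D.Γ) : P × H) * y) *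
          K₁' (x⁻¹ * ((v : D.Γ) : P × H) * y) *
          K₂' (x⁻¹ * ((TBd_eq (b 2) g w : D.Γ) : P × H) * y) *
          f u v (TBd_eq (b 2) g w)))]
  rw [← ENNReal.tsum_mul_left]
  refine tsum_congr fun v => ?_
  rw [(TBd_eq (b 2) g).tsum_eq (fun w =>
    C ^ 3 * (K₀' (x⁻¹ * ((u : D.Γ) : P × H) * y) *
          K₁' (x⁻¹ * ((v : D.Γ) : P × H) * y) *
          K₂' (x⁻¹ * ((w : D.Γ) : P × H) * y) *
          f u v w))]
  rw [← ENNReal.tsum_mul_left]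

private theorem TBd_main (D : Dat P H) (S : Set (P × H)) (z : P × H)
    (K K' : Fin 3 → P × H → ℝ≥0∞) (C C₂ : ℝ≥0∞) (ε : Fin 3 → Bool)
    (F : P × H → D.Γ → D.Γ → D.Γ → ℝ≥0∞)
    (hK : ∀ (j : Fin 3) (x : P × H) (g : D.Γ), z⁻¹ * (g : P × H) * z ∈ S →
      ∀ u : D.Γ, K j (x⁻¹ * (u : P × H) * z) ≤
        C * K' j (x⁻¹ * ((ins (ε j) u g : D.Γ) : P × H) * z))
    (hlp : D.lp S z (fun _ => 1) ≤ C₂)
    (ton2 : ∀ (c : ℝ≥0∞) (f : P × H → ℝ≥0∞), Measurable f →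
      (D.IM fun x => c * f x) = c * D.IM f)
    (ton5 : ∀ f g : P × H → ℝ≥0∞, (∀ x, f x ≤ g x) → D.IM f ≤ D.IM g)
    (hm : Measurable fun x => D.st3 (K' 0) (K' 1) (K' 2) x z (F x)) :
    (D.lp S z fun g => D.IM fun x => D.st3 (K 0) (K 1) (K 2) x z
      fun u v w => F x (ins (ε 0) u g) (ins (ε 1) v g) (ins (ε 2) w g)) ≤
      (C₂ * C ^ 3) * D.IM fun x => D.st3 (K' 0) (K' 1) (K' 2) x z (F x) := by
  have h1 : ∀ g : D.Γ, z⁻¹ * (g : P × H) * z ∈ S →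
      (D.IM fun x => D.st3 (K 0) (K 1) (K 2) x z
        fun u v w => F x (ins (ε 0) u g) (ins (ε 1) v g) (ins (ε 2) w g)) ≤
      C ^ 3 * D.IM fun x => D.st3 (K' 0) (K' 1) (K' 2) x z (F x) := by
    intro g hg
    rw [← ton2 _ _ hm]
    refine ton5 _ _ fun x => ?_
    exact TBd_st3 D _ _ _ (K' 0) (K' 1) (K' 2) C x z ε g (hK 0 x g hg)
      (hK 1 x g hg) (hK 2 x g hg) (F x)
  have h2 : (D.lp S z fun g => D.IM fun x => D.st3 (K 0) (K 1) (K 2) x z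
      fun u v w => F x (ins (ε 0) u g) (ins (ε 1) v g) (ins (ε 2) w g)) ≤
      (D.lp S z (fun _ => 1)) *
        (C ^ 3 * D.IM fun x => D.st3 (K' 0) (K' 1) (K' 2) x z (F x)) := by
    unfold Dat.lp
    rw [← ENNReal.tsum_mul_right]
    refine ENNReal.tsum_le_tsum fun g => ?_
    by_cases hg : z⁻¹ * (g : P × H) * z ∈ S
    · rw [Set.indicator_of_mem hg, one_mul, one_mul, one_mul]
      exact h1 g hg
    · rw [Set.indicator_of_notMem hg, zero_mul]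
      exact zero_le
  refine h2.trans ?_
  rw [mul_assoc]
  gcongr

end aux

section aux2

variable {P H : Type} [Group P] [Group H] [MeasurableSpace P] [MeasurableSpace H]

/-- The theta type. -/
private def TBd_t (Q : Set P) (ε : Fin 3 → Bool) (e : Fin 3 → Ec P) : Th P where
  c := fun i => (e i).c
  S := fun i => (e i).S
  K := fun i => if ε i then Q⁻¹ * (e i).K else (e i).K

/-- The lengths. -/
private def TBd_n (c : ℕ) (ε : Fin 3 → Bool) (i : Fin 3 → ℕ) (j : Fin 3) : ℕ :=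
  if ε j then i j + (c + 1) else i j

omit [MeasurableSpace P] in
private theorem TBd_shf (Q K : Set P) (q₀ : P) (hq : q₀ ∈ Q) (b : Bool) (k : P)
    (hk : k ∈ (if b then Q⁻¹ * K else K : Set P)) :
    ∃ g ∈ Q, ∃ κ ∈ K, k = shf b g κ := by
  cases b with
  | false => exact ⟨q₀, hq, k, by simpa using hk, rfl⟩
  | true =>
    rw [if_pos rfl] at hk
    obtain ⟨q, hq', κ, hκ, rfl⟩ := Set.mem_mul.1 hk
    refine ⟨q⁻¹, hq', κ, hκ, ?_⟩
    simp [shf]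

private theorem TBd_X3 (D : Dat P H) (G : PG P) (t : Th P) (R r : ℕ) (φ : D.Γ → P → ℝ)
    (n : Fin 3 → ℕ) (hn : ∀ j, n j ∈ Finset.Icc r (4 * r)) :
    D.X3 (D.eg G (t.S 0) (t.K 0) R (n 0)) (D.eg G (t.S 1) (t.K 1) R (n 1))
      (D.eg G (t.S 2) (t.K 2) R (n 2))
      (fun x u v w => ab (dl G φ (t.c 0) (t.c 1) (t.c 2) x u v w)) ≤ D.EE G t R r φ := by
  unfold Dat.EE
  refine le_trans ?_ (Finset.single_le_sum (fun _ _ => zero_le) (hn 0))
  refine le_trans ?_ (Finset.single_le_sum (fun _ _ => zero_le) (hn 1))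
  exact Finset.single_le_sum (f := fun n₂ => D.X3 (D.eg G (t.S 0) (t.K 0) R (n 0))
    (D.eg G (t.S 1) (t.K 1) R (n 1)) (D.eg G (t.S 2) (t.K 2) R n₂)
    (fun x u v w => ab (dl G φ (t.c 0) (t.c 1) (t.c 2) x u v w))) (fun _ _ => zero_le) (hn 2)

end aux2

variable (P H : Type) [Group P] [Group H] [TopologicalSpace P] [TopologicalSpace H]
  [IsTopologicalGroup P] [IsTopologicalGroup H] [LocallyCompactSpace P] [LocallyCompactSpace H]
  [T2Space P] [T2Space H] [SecondCountableTopology P] [SecondCountableTopology H]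
  [MeasurableSpace P] [MeasurableSpace H] [BorelSpace P] [BorelSpace H]

theorem tTBd : S_shE P H → S_lpn P H → S_egm P H → S_ton P H → S_AD P → S_MQ P H →
    S_TBd P H := by
  intro hsh hlp hem hton hAD hMQ D G hD hG Q c ε e hQ he hTS hTK
  have := hD.haar₁
  have := hD.right₁
  have := hD.inv₁
  obtain ⟨ton1, ton2, -, -, ton5⟩ := hton D hD
  rcases Q.eq_empty_or_nonempty with hQe | ⟨q₀, hq₀⟩
  · -- no loops
    refine ⟨[], 0, by simp, fun R => ⟨0, 0, by simp, fun r _ i _ φ _ => ?_⟩⟩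
    have h0 : FT D G Q c ε e R i φ = 0 := by
      unfold FT Dat.IM Dat.lp
      simp [hQe]
    rw [h0]
    exact zero_le
  obtain ⟨c', C₁, hC₁, hsh⟩ := hsh D G hD hG c
  obtain ⟨C₂, hC₂, hlp1, -⟩ := hlp D hD Q hQ c
  obtain ⟨em1, -, -, em4⟩ := hem D G hD hG
  obtain ⟨mono, -⟩ := hAD G D.μ₁ hG
  have htok : (TBd_t Q ε e).Ok G := by
    refine ⟨fun i => (he i).cS, fun i => (he i).Sc, fun i => ?_, hTS, ?_⟩
    · show IsCompact (if ε i then Q⁻¹ * (e i).K else (e i).K : Set P)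
      split_ifs
      · exact hQ.inv.mul (he i).Kc
      · exact (he i).Kc
    · intro k₀ hk₀ k₁ hk₁ k₂ hk₂
      obtain ⟨g₀, hg₀, κ₀, hκ₀, rfl⟩ := TBd_shf Q _ q₀ hq₀ (ε 0) k₀ hk₀
      obtain ⟨g₁, hg₁, κ₁, hκ₁, rfl⟩ := TBd_shf Q _ q₀ hq₀ (ε 1) k₁ hk₁
      obtain ⟨g₂, hg₂, κ₂, hκ₂, rfl⟩ := TBd_shf Q _ q₀ hq₀ (ε 2) k₂ hk₂
      exact hTK κ₀ hκ₀ κ₁ hκ₁ κ₂ hκ₂ g₀ hg₀ g₁ hg₁ g₂ hg₂
  refine ⟨[TBd_t Q ε e], c', ?_, fun R => ⟨C₂ * (C₁ + 1) ^ 3, c + 1, ?_, ?_⟩⟩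
  · intro t ht
    rw [List.mem_singleton] at ht
    rw [ht]
    exact htok
  · exact ENNReal.mul_ne_top hC₂ (ENNReal.pow_ne_top (ENNReal.add_ne_top.2 ⟨hC₁, by simp⟩))
  intro r hr i hi φ hφ
  -- the lengths
  have hn : ∀ j, TBd_n c ε i j ∈ Finset.Icc r (4 * r) := by
    intro j
    have h1 := (hi j).1
    have h2 := (hi j).2
    rw [Finset.mem_Icc]
    unfold TBd_n
    split_ifs <;> constructor <;> omega
  -- comparison of the kernels
  have hK : ∀ (j : Fin 3) (x z : P × H) (g : D.Γ), z⁻¹ * (g : P × H) * z ∈ Q ×ˢ (D.O ^ c) →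
      ∀ u : D.Γ, D.ke G (e j) R (i j) (x⁻¹ * (u : P × H) * z) ≤
        (C₁ + 1) * D.eg G ((TBd_t Q ε e).S j) ((TBd_t Q ε e).K j) (R + c') (TBd_n c ε i j)
          (x⁻¹ * ((ins (ε j) u g : D.Γ) : P × H) * z) := by
    intro j x z g hg u
    have hij : 1 ≤ i j := le_trans (by omega) (hi j).1
    show D.eg G (e j).S (e j).K R (i j) (x⁻¹ * (u : P × H) * z) ≤
        (C₁ + 1) * D.eg G (e j).S (if ε j then Q⁻¹ * (e j).K else (e j).K) (R + c')
          (if ε j then i j + (c + 1) else i j)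
          (x⁻¹ * (((if ε j then u * g else u : D.Γ)) : P × H) * z)
    cases hε : ε j with
    | true =>
      simp only [if_true]
      have h := hsh Q (e j).S (e j).K R (i j) hij (x⁻¹ * (u : P × H) * z) _ hg
      have e2 : x⁻¹ * (u : P × H) * z * (z⁻¹ * (g : P × H) * z) =
          x⁻¹ * ((u * g : D.Γ) : P × H) * z := by
        push_cast
        group
      rw [e2] at h
      refine h.trans ?_
      gcongr
      exact le_self_add
    | false =>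
      simp only [Bool.false_eq_true, if_false]
      have h : D.eg G (e j).S (e j).K R (i j) (x⁻¹ * (u : P × H) * z) ≤
          D.eg G (e j).S (e j).K (R + c') (i j) (x⁻¹ * (u : P × H) * z) := by
        have := mono (e j).S (e j).S (e j).K (e j).K R (R + c') (i j) le_rfl le_rfl (by omega)
          (x⁻¹ * (u : P × H) * z).1
        show eP D.μ₁ G (e j).S (e j).K R (i j) (x⁻¹ * (u : P × H) * z).1 *
            D.nu (i j) (x⁻¹ * (u : P × H) * z).2 ≤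
          eP D.μ₁ G (e j).S (e j).K (R + c') (i j) (x⁻¹ * (u : P × H) * z).1 *
            D.nu (i j) (x⁻¹ * (u : P × H) * z).2
        gcongr
      refine h.trans ?_
      calc _ = 1 * D.eg G (e j).S (e j).K (R + c') (i j) (x⁻¹ * (u : P × H) * z) :=
            (one_mul _).symm
        _ ≤ _ := by
            gcongr
            exact le_add_self
  -- the theta sum of the type `t`
  obtain ⟨K', hK'⟩ : ∃ K' : Fin 3 → P × H → ℝ≥0∞, K' = fun j =>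
    D.eg G ((TBd_t Q ε e).S j) ((TBd_t Q ε e).K j) (R + c') (TBd_n c ε i j) := ⟨_, rfl⟩
  obtain ⟨F, hF⟩ : ∃ F : P × H → D.Γ → D.Γ → D.Γ → ℝ≥0∞, F = fun x u v w =>
    ab (dl G φ (e 0).c (e 1).c (e 2).c x u v w) := ⟨_, rfl⟩
  have hK'm : ∀ j, Measurable (K' j) := by
    intro j
    rw [hK']
    exact em1 _ _ (htok.Sc j) (htok.Kc j) _ _
  have hFm : ∀ u v w, Measurable fun x => F x u v w := by
    intro u v w
    rw [hF]
    have := em4 φ hφ (e 0).c (e 1).c (e 2).c u v w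
    exact ENNReal.measurable_ofReal.comp this.abs
  have hM0 : Measurable fun q : (P × H) × (P × H) => D.st3 (K' 0) (K' 1) (K' 2) q.1 q.2 (F q.1) :=
    ((hMQ D hD (K' 0) (K' 1) (K' 2) (hK'm 0) (hK'm 1) (hK'm 2)).2.2 F hFm).1
  obtain ⟨f0, hf0⟩ : ∃ f0 : P × H → P × H → ℝ≥0∞,
      f0 = fun x z => D.st3 (K' 0) (K' 1) (K' 2) x z (F x) := ⟨_, rfl⟩
  have hM : Measurable fun q : (P × H) × (P × H) => f0 q.1 q.2 := by
    rw [hf0]
    exact hM0
  have hM2 : Measurable fun q : (P × H) × (P × H) => f0 q.2 q.1 :=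
    hM.comp (measurable_snd.prodMk measurable_fst)
  have hB : Measurable fun z => D.IM fun x => f0 x z := (ton1 (fun q => f0 q.2 q.1) hM2).2
  have hX : D.X3 (K' 0) (K' 1) (K' 2) F ≤ D.EE G (TBd_t Q ε e) (R + c') r φ := by
    rw [hK', hF]
    exact TBd_X3 D G (TBd_t Q ε e) (R + c') r φ (TBd_n c ε i) hn
  have hFT : FT D G Q c ε e R i φ ≤ D.IM fun z => (C₂ * (C₁ + 1) ^ 3) *
          D.IM fun x => f0 x z := by
    unfold FT
    refine ton5 _ _ fun z => ?_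
    have hmz : Measurable fun x => f0 x z := hM.comp (measurable_prodMk_right (y := z))
    rw [hf0] at hmz ⊢
    have h := TBd_main D (Q ×ˢ (D.O ^ c)) z (fun j => D.ke G (e j) R (i j)) K' (C₁ + 1) C₂ ε F
      (fun j x g hg u => by rw [hK']; exact hK j x z g hg u) (hlp1 z) ton2 ton5 hmz
    rw [hF] at h ⊢
    exact h
  calc FT D G Q c ε e R i φ
      ≤ D.IM fun z => (C₂ * (C₁ + 1) ^ 3) * D.IM fun x => f0 x z := hFT
    _ = (C₂ * (C₁ + 1) ^ 3) * D.IM fun z => D.IM fun x => f0 x z := ton2 _ _ hB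
    _ = (C₂ * (C₁ + 1) ^ 3) * D.IM fun x => D.IM fun z => f0 x z := by
        congr 1
        exact (ton1 (fun q => f0 q.1 q.2) hM).1.symm
    _ = (C₂ * (C₁ + 1) ^ 3) * D.X3 (K' 0) (K' 1) (K' 2) F := by
        rw [hf0]
        rfl
    _ ≤ (C₂ * (C₁ + 1) ^ 3) * D.EE G (TBd_t Q ε e) (R + c') r φ := by
        gcongr
    _ = (C₂ * (C₁ + 1) ^ 3) * (r : ℝ≥0∞) ^ 0 * D.EL G [TBd_t Q ε e] (R + c') r φ := by
        unfold Dat.EL
        simp

end Pool.Agent.MPEF.U
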