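import Pool.Agent.Lib.MP_ef3f0f_gt.U.E.SpecB

set_option autoImplicit false
set_option linter.unusedSectionVars false

/-!
# MP_ef3f0f_gt, Theorem U, Part E: `TTs`
-/

namespace Pool.Agent.MPEF.U

open MeasureTheory Topology
open scoped ENNReal Pointwise

variable (P H : Type) [Group P] [Group H] [TopologicalSpace P] [TopologicalSpace H]
  [IsTopologicalGroup P] [IsTopologicalGroup H] [LocallyCompactSpace P] [LocallyCompactSpace H]
  [T2Space P] [T2Space H] [SecondCountableTopology P] [SecondCountableTopology H]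
  [MeasurableSpace P] [MeasurableSpace H] [BorelSpace P] [BorelSpace H]

/-- The inner sum. -/
private noncomputable def TTs_g (D : Dat P H) (KV K₁ K₂ : P × H → ℝ≥0∞)
    (ψ : P × H → D.Γ → D.Γ → ℝ) (q : (P × H) × (P × H)) : ℝ≥0∞ :=
  ∑' V : D.Γ, KV (q.1⁻¹ * (V : P × H) * q.2) *
    D.st2 K₁ K₂ q.1 q.2 fun u u' => ab (ψ q.1 u V - ψ q.1 u' V)

private theorem TTs_meas (hinst : S_inst P H) (hMQ : S_MQ P H) (D : Dat P H) (hD : D.Ok)
    {KV K₁ K₂ : P × H → ℝ≥0∞} (h0 : Measurable KV) (h1 : Measurable K₁) (h2 : Measurable K₂)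
    {ψ : P × H → D.Γ → D.Γ → ℝ} (hψ : ∀ u v, Measurable fun x => ψ x u v) :
    Measurable (TTs_g P H D KV K₁ K₂ ψ) := by
  obtain ⟨-, -, -, hcount, -⟩ := hinst D hD
  unfold TTs_g
  refine Measurable.ennreal_tsum fun V => ?_
  refine Measurable.mul ?_ ?_
  · exact h0.comp ((measurable_fst.inv.mul_const _).mul measurable_snd)
  · refine ((hMQ D hD K₁ K₂ K₂ h1 h2 h2).2.1
      (fun x u u' => ab (ψ x u V - ψ x u' V)) fun u u' => ?_).1
    unfold ab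
    exact ((hψ u V).sub (hψ u' V)).abs.ennreal_ofReal

private theorem TTs_invy (D : Dat P H) (KV K₁ K₂ : P × H → ℝ≥0∞)
    (ψ : P × H → D.Γ → D.Γ → ℝ)
    (he : ∀ (γ γ' : D.Γ) (x) (u v : D.Γ),
      ψ ((γ : P × H) * x) (γ * u * γ') (γ * v * γ') = ψ x u v) (x y : P × H) (γ : D.Γ) :
    TTs_g P H D KV K₁ K₂ ψ (x, (γ : P × H) * y) = TTs_g P H D KV K₁ K₂ ψ (x, y) := by
  unfold TTs_g Dat.st2
  have e1 : ∀ u v : D.Γ, ψ x (u * γ⁻¹) (v * γ⁻¹) = ψ x u v := fun u v => by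
    have := he 1 γ⁻¹ x u v
    simpa using this
  rw [← (Equiv.mulRight γ⁻¹).tsum_eq (fun V : D.Γ => KV ((x, (γ : P × H) * y).1⁻¹ *
    (V : P × H) * (x, (γ : P × H) * y).2) * ∑' u : D.Γ, ∑' u' : D.Γ,
      K₁ ((x, (γ : P × H) * y).1⁻¹ * (u : P × H) * (x, (γ : P × H) * y).2) *
      K₂ ((x, (γ : P × H) * y).1⁻¹ * (u' : P × H) * (x, (γ : P × H) * y).2) *
      ab (ψ (x, (γ : P × H) * y).1 u V - ψ (x, (γ : P × H) * y).1 u' V))]
  refine tsum_congr fun V => ?_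
  have e2 : ∀ V : D.Γ, x⁻¹ * ((V * γ⁻¹ : D.Γ) : P × H) * ((γ : P × H) * y) =
      x⁻¹ * (V : P × H) * y := fun V => by
    simp only [Subgroup.coe_mul, Subgroup.coe_inv]
    group
  change KV (x⁻¹ * ((V * γ⁻¹ : D.Γ) : P × H) * ((γ : P × H) * y)) * ∑' u : D.Γ, ∑' u' : D.Γ,
      K₁ (x⁻¹ * (u : P × H) * ((γ : P × H) * y)) *
      K₂ (x⁻¹ * (u' : P × H) * ((γ : P × H) * y)) *
      ab (ψ x u (V * γ⁻¹) - ψ x u' (V * γ⁻¹)) = _
  rw [e2]
  congr 1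
  rw [← (Equiv.mulRight γ⁻¹).tsum_eq (fun u : D.Γ => ∑' u' : D.Γ,
      K₁ (x⁻¹ * (u : P × H) * ((γ : P × H) * y)) *
      K₂ (x⁻¹ * (u' : P × H) * ((γ : P × H) * y)) *
      ab (ψ x u (V * γ⁻¹) - ψ x u' (V * γ⁻¹)))]
  refine tsum_congr fun u => ?_
  rw [← (Equiv.mulRight γ⁻¹).tsum_eq (fun u' : D.Γ =>
      K₁ (x⁻¹ * (((Equiv.mulRight γ⁻¹) u : D.Γ) : P × H) * ((γ : P × H) * y)) *
      K₂ (x⁻¹ * (u' : P × H) * ((γ : P × H) * y)) *
      ab (ψ x ((Equiv.mulRight γ⁻¹) u) (V * γ⁻¹) - ψ x u' (V * γ⁻¹)))]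
  refine tsum_congr fun u' => ?_
  change K₁ (x⁻¹ * ((u * γ⁻¹ : D.Γ) : P × H) * ((γ : P × H) * y)) *
      K₂ (x⁻¹ * ((u' * γ⁻¹ : D.Γ) : P × H) * ((γ : P × H) * y)) *
      ab (ψ x (u * γ⁻¹) (V * γ⁻¹) - ψ x (u' * γ⁻¹) (V * γ⁻¹)) = _
  rw [e2, e2, e1, e1]

private theorem TTs_invx (D : Dat P H) (KV K₁ K₂ : P × H → ℝ≥0∞)
    (ψ : P × H → D.Γ → D.Γ → ℝ)
    (he : ∀ (γ γ' : D.Γ) (x) (u v : D.Γ),
      ψ ((γ : P × H) * x) (γ * u * γ') (γ * v * γ') = ψ x u v) (x y : P × H) (γ : D.Γ) :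
    TTs_g P H D KV K₁ K₂ ψ ((γ : P × H) * x, y) = TTs_g P H D KV K₁ K₂ ψ (x, y) := by
  unfold TTs_g Dat.st2
  have e1 : ∀ u v : D.Γ, ψ ((γ : P × H) * x) (γ * u) (γ * v) = ψ x u v := fun u v => by
    have := he γ 1 x u v
    simpa using this
  rw [← (Equiv.mulLeft γ).tsum_eq (fun V : D.Γ => KV (((γ : P × H) * x, y).1⁻¹ *
    (V : P × H) * ((γ : P × H) * x, y).2) * ∑' u : D.Γ, ∑' u' : D.Γ,
      K₁ (((γ : P × H) * x, y).1⁻¹ * (u : P × H) * ((γ : P × H) * x, y).2) *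
      K₂ (((γ : P × H) * x, y).1⁻¹ * (u' : P × H) * ((γ : P × H) * x, y).2) *
      ab (ψ ((γ : P × H) * x, y).1 u V - ψ ((γ : P × H) * x, y).1 u' V))]
  refine tsum_congr fun V => ?_
  have e2 : ∀ V : D.Γ, ((γ : P × H) * x)⁻¹ * ((γ * V : D.Γ) : P × H) * y =
      x⁻¹ * (V : P × H) * y := fun V => by
    simp only [Subgroup.coe_mul]
    group
  change KV (((γ : P × H) * x)⁻¹ * ((γ * V : D.Γ) : P × H) * y) * ∑' u : D.Γ, ∑' u' : D.Γ,
      K₁ (((γ : P × H) * x)⁻¹ * (u : P × H) * y) *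
      K₂ (((γ : P × H) * x)⁻¹ * (u' : P × H) * y) *
      ab (ψ ((γ : P × H) * x) u (γ * V) - ψ ((γ : P × H) * x) u' (γ * V)) = _
  rw [e2]
  congr 1
  rw [← (Equiv.mulLeft γ).tsum_eq (fun u : D.Γ => ∑' u' : D.Γ,
      K₁ (((γ : P × H) * x)⁻¹ * (u : P × H) * y) *
      K₂ (((γ : P × H) * x)⁻¹ * (u' : P × H) * y) *
      ab (ψ ((γ : P × H) * x) u (γ * V) - ψ ((γ : P × H) * x) u' (γ * V)))]
  refine tsum_congr fun u => ?_
  rw [← (Equiv.mulLeft γ).tsum_eq (fun u' : D.Γ =>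
      K₁ (((γ : P × H) * x)⁻¹ * (((Equiv.mulLeft γ) u : D.Γ) : P × H) * y) *
      K₂ (((γ : P × H) * x)⁻¹ * (u' : P × H) * y) *
      ab (ψ ((γ : P × H) * x) ((Equiv.mulLeft γ) u) (γ * V) -
        ψ ((γ : P × H) * x) u' (γ * V)))]
  refine tsum_congr fun u' => ?_
  change K₁ (((γ : P × H) * x)⁻¹ * ((γ * u : D.Γ) : P × H) * y) *
      K₂ (((γ : P × H) * x)⁻¹ * ((γ * u' : D.Γ) : P × H) * y) *
      ab (ψ ((γ : P × H) * x) (γ * u) (γ * V) - ψ ((γ : P × H) * x) (γ * u') (γ * V)) = _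
  rw [e2, e2, e1, e1]

theorem tTTs : S_IM P H → S_inst P H → S_MQ P H → S_ton P H → S_TTs P H := by
  intro hIM hinst hMQ hton D hD KV K₁ K₂ h0 h1 h2 ψ hψ he
  have hm := TTs_meas P H hinst hMQ D hD h0 h1 h2 hψ
  have hIM1 := (hIM D hD).1
  constructor
  · intro p q
    have s1 : TT D KV K₁ K₂ ψ = D.IM fun x => D.IM fun y => TTs_g P H D KV K₁ K₂ ψ (x, y) := rfl
    have s2 : TT D (fun g => KV (p⁻¹ * g * q)) (fun g => K₁ (p⁻¹ * g * q))
        (fun g => K₂ (p⁻¹ * g * q)) (fun x => ψ (x * p)) =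
        D.IM fun x => D.IM fun y => TTs_g P H D KV K₁ K₂ ψ (x * p, y * q) := by
      unfold TT TTs_g Dat.st2
      have e2 : ∀ (x y : P × H) (V : D.Γ), p⁻¹ * (x⁻¹ * (V : P × H) * y) * q =
          (x * p)⁻¹ * (V : P × H) * (y * q) := fun x y V => by group
      simp only [e2]
    rw [s1, s2]
    have s3 : ∀ x, (D.IM fun y => TTs_g P H D KV K₁ K₂ ψ (x, y * q)) =
        D.IM fun y => TTs_g P H D KV K₁ K₂ ψ (x, y) := fun x =>
      hIM1 (fun y => TTs_g P H D KV K₁ K₂ ψ (x, y)) (hm.comp measurable_prodMk_left)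
        (fun γ hγ y => TTs_invy P H D KV K₁ K₂ ψ he x y ⟨γ, hγ⟩) q
    have s4 : (D.IM fun x => D.IM fun y => TTs_g P H D KV K₁ K₂ ψ (x * p, y * q)) =
        D.IM fun x => D.IM fun y => TTs_g P H D KV K₁ K₂ ψ (x * p, y) := by
      congr 1
      funext x
      exact s3 (x * p)
    rw [s4]
    symm
    refine hIM1 (fun x => D.IM fun y => TTs_g P H D KV K₁ K₂ ψ (x, y))
      (((hton D hD).1 _ hm).2) (fun γ hγ x => ?_) p
    change (D.IM fun y => TTs_g P H D KV K₁ K₂ ψ (γ * x, y)) =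
      D.IM fun y => TTs_g P H D KV K₁ K₂ ψ (x, y)
    congr 1
    funext y
    exact TTs_invx P H D KV K₁ K₂ ψ he x y ⟨γ, hγ⟩
  · intro KV' K₁' K₂' ψ' C hC hK hψ'
    have key : ∀ x y, (∑' V : D.Γ, KV (x⁻¹ * (V : P × H) * y) *
        D.st2 K₁ K₂ x y fun u u' => ab (ψ x u V - ψ x u' V)) ≤
        C * ∑' V : D.Γ, KV' (x⁻¹ * (V : P × H) * y) *
          D.st2 K₁' K₂' x y fun u u' => ab (ψ' x u V - ψ' x u' V) := by
      intro x y
      rw [← ENNReal.tsum_mul_left]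
      refine ENNReal.tsum_le_tsum fun V => ?_
      unfold Dat.st2
      rw [← ENNReal.tsum_mul_left, ← ENNReal.tsum_mul_left, ← ENNReal.tsum_mul_left]
      refine ENNReal.tsum_le_tsum fun u => ?_
      rw [← ENNReal.tsum_mul_left, ← ENNReal.tsum_mul_left, ← ENNReal.tsum_mul_left]
      refine ENNReal.tsum_le_tsum fun u' => ?_
      by_cases c0 : KV (x⁻¹ * (V : P × H) * y) = 0
      · rw [c0, zero_mul]; exact zero_le
      by_cases c1 : K₁ (x⁻¹ * (u : P × H) * y) = 0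
      · rw [c1, zero_mul, zero_mul, mul_zero]; exact zero_le
      by_cases c2 : K₂ (x⁻¹ * (u' : P × H) * y) = 0
      · rw [c2, mul_zero, zero_mul, mul_zero]; exact zero_le
      change KV (x⁻¹ * (V : P × H) * y) * (K₁ (x⁻¹ * (u : P × H) * y) *
        K₂ (x⁻¹ * (u' : P × H) * y) * ab (ψ x u V - ψ x u' V)) ≤
        C * (KV' (x⁻¹ * (V : P × H) * y) * (K₁' (x⁻¹ * (u : P × H) * y) *
        K₂' (x⁻¹ * (u' : P × H) * y) * ab (ψ' x u V - ψ' x u' V)))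
      rw [hψ' x y V u u' c0 c1 c2]
      calc KV (x⁻¹ * (V : P × H) * y) * (K₁ (x⁻¹ * (u : P × H) * y) *
            K₂ (x⁻¹ * (u' : P × H) * y) * ab (ψ' x u V - ψ' x u' V)) =
            KV (x⁻¹ * (V : P × H) * y) * (K₁ (x⁻¹ * (u : P × H) * y) *
            K₂ (x⁻¹ * (u' : P × H) * y)) * ab (ψ' x u V - ψ' x u' V) := by ring
        _ ≤ C * (KV' (x⁻¹ * (V : P × H) * y) * (K₁' (x⁻¹ * (u : P × H) * y) *
            K₂' (x⁻¹ * (u' : P × H) * y))) * ab (ψ' x u V - ψ' x u' V) :=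
            mul_le_mul_left (hK _ _ _) _
        _ = _ := by ring
    have hcon : ∀ f : P × H → ℝ≥0∞, (D.IM fun x => C * f x) = C * D.IM f := fun f => by
      unfold Dat.IM
      rw [← lintegral_const_mul' C _ hC]
      congr 1
      funext x
      ring
    have hmono : ∀ f g : P × H → ℝ≥0∞, (∀ x, f x ≤ g x) → D.IM f ≤ D.IM g := fun f g h => by
      unfold Dat.IM
      exact lintegral_mono fun x => mul_le_mul_right (h x) _
    calc TT D KV K₁ K₂ ψ ≤ D.IM fun x => D.IM fun y => C *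
          ∑' V : D.Γ, KV' (x⁻¹ * (V : P × H) * y) *
            D.st2 K₁' K₂' x y fun u u' => ab (ψ' x u V - ψ' x u' V) :=
          hmono _ _ fun x => hmono _ _ fun y => key x y
      _ = C * TT D KV' K₁' K₂' ψ' := by
          simp only [hcon]
          rfl

end Pool.Agent.MPEF.U
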