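import Pool.Agent.Lib.MP_ef3f0f_gt.U.E.SpecA

set_option autoImplicit false
set_option linter.unusedSectionVars false

/-!
# MP_ef3f0f_gt, Theorem U, Part E, module Trz: transport of the vanishing of the effects
-/

namespace Pool.Agent.MPEF.U

open MeasureTheory Topology
open scoped ENNReal Pointwise

variable (P H : Type) [Group P] [Group H] [TopologicalSpace P] [TopologicalSpace H]
  [IsTopologicalGroup P] [IsTopologicalGroup H] [LocallyCompactSpace P] [LocallyCompactSpace H]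
  [T2Space P] [T2Space H] [SecondCountableTopology P] [SecondCountableTopology H]
  [MeasurableSpace P] [MeasurableSpace H] [BorelSpace P] [BorelSpace H]

section Gen

variable {P H : Type} [Group P] [Group H] [TopologicalSpace P] [TopologicalSpace H]
  [IsTopologicalGroup P] [IsTopologicalGroup H] [LocallyCompactSpace P] [LocallyCompactSpace H]
  [T2Space P] [T2Space H] [SecondCountableTopology P] [SecondCountableTopology H]
  [MeasurableSpace P] [MeasurableSpace H] [BorelSpace P] [BorelSpace H]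

private theorem Trz_IMm (D : Dat P H) {f g : P × H → ℝ≥0∞} (h : ∀ x, f x ≤ g x) :
    D.IM f ≤ D.IM g := by
  unfold Dat.IM
  exact lintegral_mono fun x => mul_le_mul_right (h x) _

private theorem Trz_lpm (D : Dat P H) {S S' : Set (P × H)} (hS : S ⊆ S') (z : P × H)
    {f g : D.Γ → ℝ≥0∞} (h : ∀ x, f x ≤ g x) : D.lp S z f ≤ D.lp S' z g := by
  unfold Dat.lp
  exact ENNReal.tsum_le_tsum fun u => mul_le_mul'
    (Set.indicator_le_indicator_of_subset hS (fun _ => zero_le) _) (h u)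

private theorem Trz_st2m (D : Dat P H) {K₁ K₂ K₁' K₂' : P × H → ℝ≥0∞} (h₁ : ∀ x, K₁ x ≤ K₁' x)
    (h₂ : ∀ x, K₂ x ≤ K₂' x) (x z : P × H) {f g : D.Γ → D.Γ → ℝ≥0∞} (h : ∀ u v, f u v ≤ g u v) :
    D.st2 K₁ K₂ x z f ≤ D.st2 K₁' K₂' x z g := by
  unfold Dat.st2
  exact ENNReal.tsum_le_tsum fun u => ENNReal.tsum_le_tsum fun v =>
    mul_le_mul' (mul_le_mul' (h₁ _) (h₂ _)) (h u v)

private theorem Trz_st2N (D : Dat P H) (K₁ K₂ : P × H → ℝ≥0∞) (x z : P × H) (a : ℝ≥0∞) :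
    D.st2 K₁ K₂ x z (fun _ _ => a) = D.N K₁ x z * D.N K₂ x z * a := by
  unfold Dat.st2 Dat.N
  rw [← ENNReal.tsum_mul_right, ← ENNReal.tsum_mul_right]
  refine tsum_congr fun u => ?_
  rw [← ENNReal.tsum_mul_left, ← ENNReal.tsum_mul_right]

private theorem Trz_st2a (D : Dat P H) (K₁ K₂ : P × H → ℝ≥0∞) (x z : P × H)
    (f g : D.Γ → D.Γ → ℝ≥0∞) :
    D.st2 K₁ K₂ x z (fun u v => f u v + g u v) = D.st2 K₁ K₂ x z f + D.st2 K₁ K₂ x z g := by
  unfold Dat.st2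
  rw [← ENNReal.tsum_add]
  refine tsum_congr fun u => ?_
  rw [← ENNReal.tsum_add]
  exact tsum_congr fun v => mul_add _ _ _

private theorem Trz_st2c (D : Dat P H) (K₁ K₂ : P × H → ℝ≥0∞) (x z : P × H)
    (f : D.Γ → D.Γ → ℝ≥0∞) (a : ℝ≥0∞) :
    D.st2 K₁ K₂ x z (fun u v => a * f u v) = a * D.st2 K₁ K₂ x z f := by
  unfold Dat.st2
  rw [← ENNReal.tsum_mul_left]
  refine tsum_congr fun u => ?_
  rw [← ENNReal.tsum_mul_left]
  exact tsum_congr fun v => mul_left_comm _ _ _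

private theorem Trz_IMc (D : Dat P H) {a : ℝ≥0∞} (ha : a ≠ ∞) (f : P × H → ℝ≥0∞) :
    (D.IM fun x => a * f x) = a * D.IM f := by
  unfold Dat.IM
  rw [← lintegral_const_mul' _ _ ha]
  exact lintegral_congr fun x => mul_left_comm _ _ _

private theorem Trz_IM1 {D : Dat P H} (hD : D.Ok) (a : ℝ≥0∞) : (D.IM fun _ => a) = a := by
  unfold Dat.IM
  rw [lintegral_mul_const _ hD.χm, hD.mass, one_mul]

private theorem Trz_ab (s t : ℝ) : ab t ≤ ab s + ab (s - t) := by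
  unfold ab
  rw [← ENNReal.ofReal_add (abs_nonneg _) (abs_nonneg _)]
  refine ENNReal.ofReal_le_ofReal ?_
  have h := abs_sub s (s - t)
  have h1 : s - (s - t) = t := by ring
  rw [h1] at h
  exact h

/-- The pointwise estimate. -/
private theorem Trz_pt (D : Dat P H) {K₁ K₂ K₁' K₂' : P × H → ℝ≥0∞} {ε C : ℝ≥0∞}
    (hε : ∀ x z, ε ≤ D.N K₁ x z * D.N K₂ x z) (hC : ∀ x z, D.N K₁' x z * D.N K₂' x z ≤ C)
    (a a' : D.Γ → D.Γ → ℝ) (x x' z : P × H) :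
    ε * D.st2 K₁' K₂' x' z (fun u v => ab (a' u v)) ≤
      C * D.st2 K₁ K₂ x z (fun u v => ab (a u v)) +
        D.st2 K₁ K₂ x z (fun u v => D.st2 K₁' K₂' x' z fun u' v' => ab (a u v - a' u' v')) := by
  calc ε * D.st2 K₁' K₂' x' z (fun u v => ab (a' u v))
      ≤ D.N K₁ x z * D.N K₂ x z * D.st2 K₁' K₂' x' z (fun u v => ab (a' u v)) :=
        mul_le_mul_left (hε x z) _
    _ = D.st2 K₁ K₂ x z (fun _ _ => D.st2 K₁' K₂' x' z (fun u v => ab (a' u v))) :=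
        (Trz_st2N D K₁ K₂ x z _).symm
    _ ≤ D.st2 K₁ K₂ x z (fun u v => C * ab (a u v) +
          D.st2 K₁' K₂' x' z fun u' v' => ab (a u v - a' u' v')) := by
        refine Trz_st2m D (fun _ => le_rfl) (fun _ => le_rfl) x z fun u v => ?_
        refine le_trans (Trz_st2m D (fun _ => le_rfl) (fun _ => le_rfl) x' z
          (g := fun u' v' => ab (a u v) + ab (a u v - a' u' v')) fun u' v' => Trz_ab _ _) ?_
        rw [Trz_st2a, Trz_st2N]
        exact add_le_add (mul_le_mul_left (hC x' z) _) le_rfl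
    _ = _ := by rw [Trz_st2a, Trz_st2c]

/-- The integrated estimate for fixed `z` and `g`. -/
private theorem Trz_zg (hton : S_ton P H) {D : Dat P H} (hD : D.Ok)
    {K₁ K₂ K₁' K₂' : P × H → ℝ≥0∞} {ε C : ℝ≥0∞} (hεt : ε ≠ ∞)
    (hε : ∀ x z, ε ≤ D.N K₁ x z * D.N K₂ x z) (hC : ∀ x z, D.N K₁' x z * D.N K₂' x z ≤ C)
    (a a' : P × H → D.Γ → D.Γ → ℝ) (z : P × H)
    (hm : Measurable fun x => D.st2 K₁ K₂ x z (fun u v => ab (a x u v))) :
    (ε * D.IM fun x => D.st2 K₁' K₂' x z (fun u v => ab (a' x u v))) ≤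
      (C * D.IM fun x => D.st2 K₁ K₂ x z (fun u v => ab (a x u v))) +
        D.IM fun x => D.IM fun x' => D.st2 K₁ K₂ x z
          (fun u v => D.st2 K₁' K₂' x' z fun u' v' => ab (a x u v - a' x' u' v')) := by
  obtain ⟨-, hmul, hadd, -, -⟩ := hton D hD
  calc (ε * D.IM fun x => D.st2 K₁' K₂' x z (fun u v => ab (a' x u v)))
      = D.IM fun _ => ε * D.IM fun x => D.st2 K₁' K₂' x z (fun u v => ab (a' x u v)) :=
        (Trz_IM1 hD _).symm
    _ ≤ D.IM fun x => (C * D.st2 K₁ K₂ x z (fun u v => ab (a x u v))) +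
        D.IM fun x' => D.st2 K₁ K₂ x z
          (fun u v => D.st2 K₁' K₂' x' z fun u' v' => ab (a x u v - a' x' u' v')) := by
        refine Trz_IMm D fun x => ?_
        rw [← Trz_IMc D hεt]
        refine le_trans (Trz_IMm D fun x' => Trz_pt D hε hC (a x) (a' x') x x' z) ?_
        rw [hadd _ _ measurable_const, Trz_IM1 hD]
    _ = _ := by
        rw [hadd _ _ (hm.const_mul C), hmul _ _ hm]

private theorem Trz_lpl (D : Dat P H) (S : Set (P × H)) (z : P × H) {ε C : ℝ≥0∞}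
    {f g h : D.Γ → ℝ≥0∞} (hh : ∀ u, ε * f u ≤ C * g u + h u) :
    ε * D.lp S z f ≤ C * D.lp S z g + D.lp S z h := by
  unfold Dat.lp
  rw [← ENNReal.tsum_mul_left, ← ENNReal.tsum_mul_left, ← ENNReal.tsum_add]
  refine ENNReal.tsum_le_tsum fun u => ?_
  rw [mul_left_comm, mul_left_comm C, ← mul_add]
  exact mul_le_mul_right (hh u) _

/-- The integrated estimate. -/
private theorem Trz_core (hton : S_ton P H) (hinst : S_inst P H) {D : Dat P H} (hD : D.Ok)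
    {K₁ K₂ K₁' K₂' : P × H → ℝ≥0∞} (hK₁ : Measurable K₁) (hK₂ : Measurable K₂)
    {ε C : ℝ≥0∞} (hεt : ε ≠ ∞)
    (hε : ∀ x z, ε ≤ D.N K₁ x z * D.N K₂ x z) (hC : ∀ x z, D.N K₁' x z * D.N K₂' x z ≤ C)
    (a a' : P × H → D.Γ → D.Γ → D.Γ → ℝ) (ha : ∀ g u v, Measurable fun x => a x g u v)
    {S : Set (P × H)} (hS : MeasurableSet S) :
    (ε * D.IM fun z => D.lp S z fun g => D.IM fun x =>
      D.st2 K₁' K₂' x z (fun u v => ab (a' x g u v))) ≤
      (C * D.IM fun z => D.lp S z fun g => D.IM fun x =>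
        D.st2 K₁ K₂ x z (fun u v => ab (a x g u v))) +
      D.IM fun z => D.lp S z fun g => D.IM fun x => D.IM fun x' => D.st2 K₁ K₂ x z
          (fun u v => D.st2 K₁' K₂' x' z fun u' v' => ab (a x g u v - a' x' g u' v')) := by
  obtain ⟨-, -, -, hcount, -⟩ := hinst D hD
  obtain ⟨h1, hmul, hadd, -, -⟩ := hton D hD
  have hj : ∀ g : D.Γ, Measurable fun q : (P × H) × (P × H) =>
      D.st2 K₁ K₂ q.2 q.1 (fun u v => ab (a q.2 g u v)) := by
    intro g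
    unfold Dat.st2
    refine Measurable.tsum fun u => Measurable.tsum fun v => ?_
    refine ((hK₁.comp ?_).mul (hK₂.comp ?_)).mul ?_
    · exact ((measurable_snd.inv.mul_const _).mul measurable_fst)
    · exact ((measurable_snd.inv.mul_const _).mul measurable_fst)
    · unfold ab
      exact ENNReal.measurable_ofReal.comp
        (((ha g u v).comp measurable_snd).norm)
  have hm : ∀ (g : D.Γ) (z : P × H),
      Measurable fun x => D.st2 K₁ K₂ x z (fun u v => ab (a x g u v)) := fun g z =>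
    (hj g).comp (measurable_const.prodMk measurable_id)
  have hlp : Measurable fun z => D.lp S z fun g => D.IM fun x =>
      D.st2 K₁ K₂ x z (fun u v => ab (a x g u v)) := by
    unfold Dat.lp
    refine Measurable.tsum fun g => ?_
    refine Measurable.mul ?_ (h1 _ (hj g)).2
    exact (measurable_const.indicator hS).comp
      ((measurable_id.inv.mul_const _).mul measurable_id)
  rw [← Trz_IMc D hεt, ← hmul _ _ hlp, ← hadd _ _ (hlp.const_mul C)]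
  refine Trz_IMm D fun z => Trz_lpl D S z fun g => ?_
  exact Trz_zg hton hD hεt hε hC (fun x => a x g) (fun x => a' x g) z (hm g z)

private theorem Trz_Om {D : Dat P H} (hD : D.Ok) (c : ℕ) : MeasurableSet (D.O ^ c) := by
  have hO : IsOpen D.O := isOpen_lt continuous_const hD.νc
  cases c with
  | zero =>
    rw [pow_zero]
    exact (Set.finite_one).measurableSet
  | succ c =>
    rw [pow_succ]
    exact (hO.mul_left).measurableSet

private theorem Trz_eg (hAD : S_AD P) {D : Dat P H} (hD : D.Ok) {G : PG P} (hG : G.Ok)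
    {S S' K K' : Set P} (hS : S ⊆ S') (hK : K ⊆ K') (R n : ℕ) (g : P × H) :
    D.eg G S K R n g ≤ D.eg G S' K' R n g := by
  have := hD.haar₁
  have := hD.right₁
  have := hD.inv₁
  show eP D.μ₁ G S K R n g.1 * D.nu n g.2 ≤ eP D.μ₁ G S' K' R n g.1 * D.nu n g.2
  exact mul_le_mul_left ((hAD G D.μ₁ hG).1 S S' K K' R R n hS hK le_rfl g.1) _

end Gen

/-- Two controlled functionals. -/
private theorem Trz_CT2 (hCTs : S_CTs P H) {D : Dat P H} (hD : D.Ok) {G : PG P} (hG : G.Ok)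
    {p : ℕ} {ι₁ ι₂ ι' : Type} {ok₁ : ℕ → ℕ → ι₁ → Prop} {ok₂ : ℕ → ℕ → ι₂ → Prop}
    {ok' : ℕ → ℕ → ι' → Prop} {F₁ : ℕ → ι₁ → (D.Γ → P → ℝ) → ℝ≥0∞}
    {F₂ : ℕ → ι₂ → (D.Γ → P → ℝ) → ℝ≥0∞} {F' : ℕ → ι' → (D.Γ → P → ℝ) → ℝ≥0∞}
    (h₁ : ∀ T T' r i, T ≤ T' → ok₁ T' r i → ok₁ T r i)
    (h₂ : ∀ T T' r i, T ≤ T' → ok₂ T' r i → ok₂ T r i)
    (h' : ∀ T T' r i, T ≤ T' → ok' T' r i → ok' T r i)
    (c₁ : CT D G p ok₁ F₁) (c₂ : CT D G p ok₂ F₂)
    (hm : ∀ R T, ∃ (C : ℝ≥0∞) (T' : ℕ), C ≠ ∞ ∧ ∀ r, T' ≤ r → ∀ i', ok' T' r i' →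
      ∃ i₁ i₂, ok₁ T r i₁ ∧ ok₂ T r i₂ ∧ ∀ φ, Adm D G φ →
        F' R i' φ ≤ C * (F₁ R i₁ φ + F₂ R i₂ φ)) : CT D G p ok' F' := by
  refine hCTs D G hD hG p Bool (fun b => cond b ι₁ ι₂)
    (fun b => Bool.rec (motive := fun b => ℕ → ℕ → cond b ι₁ ι₂ → Prop) ok₂ ok₁ b)
    (fun b => Bool.rec (motive := fun b => ℕ → cond b ι₁ ι₂ → (D.Γ → P → ℝ) → ℝ≥0∞) F₂ F₁ b)
    ι' ok' F' 0 ?_ ?_ h' ?_
  · intro j
    cases j with
    | false => exact h₂
    | true => exact h₁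
  · intro j
    cases j with
    | false => exact c₂
    | true => exact c₁
  · intro R T
    obtain ⟨C, T', hC, hb⟩ := hm R T
    refine ⟨C, T', hC, fun r hr i' hi' => ?_⟩
    obtain ⟨i₁, i₂, ho₁, ho₂, hφ⟩ := hb r hr i' hi'
    refine ⟨fun b => Bool.rec (motive := fun b => cond b ι₁ ι₂) i₂ i₁ b, ?_, ?_⟩
    · intro j
      cases j with
      | false => exact ho₂
      | true => exact ho₁
    · intro φ h
      refine le_trans (hφ φ h) ?_
      rw [Fintype.sum_bool]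
      exact le_rfl

theorem tTrz : S_CTs P H → S_ton P H → S_egm P H → S_AD P → S_inst P H → S_Trz P H := by
  intro hCTs hton hegm hAD hinst D G hFc gc c k l k' l' hZ hR s' t' hst
  obtain ⟨U₁, hU₁, hU₁c, hCT₁⟩ := hZ 1 G.w hFc.gok.P1
  obtain ⟨U₂, hU₂, hU₂c, hCT₂⟩ := hR 1 G.w s' t' hFc.gok.P1 hst
  have hUc : IsCompact (U₁ ∩ U₂) := hU₁c.inter hU₂c
  have hU : U₁ ∩ U₂ ∈ 𝓝 (1 : P) := Filter.inter_mem hU₁ hU₂
  refine ⟨U₁ ∩ U₂, hU, hUc, ?_⟩
  obtain ⟨hk, -, hDg, -⟩ := hegm D G hFc.ok hFc.gok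
  have hn : ∀ s : P, (U₁ ∩ U₂) * {s} ∈ 𝓝 s := fun s => by
    have h := (isOpenMap_mul_right s).image_mem_nhds hU
    rw [one_mul] at h
    rw [Set.mul_singleton]
    exact h
  have hcs : ∀ s : P, IsCompact ((U₁ ∩ U₂) * {s}) := fun s => hUc.mul isCompact_singleton
  have hok : ∀ (m : ℕ) (T T' r : ℕ) (i : Fin m → ℕ), T ≤ T' → okL m T' r i → okL m T r i :=
    fun m T T' r i hT h j => ⟨(h j).1, by have := (h j).2; omega⟩
  obtain ⟨T₁, e₁, he₁, hlo₁⟩ := hFc.lo 1 k _ (hn 1) _ (hn k)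
  obtain ⟨T₂, e₂, he₂, hlo₂⟩ := hFc.lo G.w l _ (hn G.w) _ (hn l)
  refine Trz_CT2 P H hCTs hFc.ok hFc.gok (hok 2) (hok 4) (hok 2) hCT₁ hCT₂ ?_
  intro R T
  obtain ⟨C₁, hC₁, hup₁⟩ := hFc.up _ _ (hcs s') (hcs k') R
  obtain ⟨C₂, hC₂, hup₂⟩ := hFc.up _ _ (hcs t') (hcs l') R
  have hε0 : min e₁ 1 * min e₂ 1 ≠ 0 :=
    mul_ne_zero (lt_min he₁ zero_lt_one).ne' (lt_min he₂ zero_lt_one).ne'
  have hεt : min e₁ 1 * min e₂ 1 ≠ ∞ := ENNReal.mul_ne_top
    (ne_top_of_le_ne_top ENNReal.one_ne_top (min_le_right _ _))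
    (ne_top_of_le_ne_top ENNReal.one_ne_top (min_le_right _ _))
  refine ⟨(min e₁ 1 * min e₂ 1)⁻¹ * (C₁ * C₂ + 1), max T (max T₁ T₂),
    ENNReal.mul_ne_top (ENNReal.inv_ne_top.2 hε0)
      (ENNReal.add_ne_top.2 ⟨ENNReal.mul_ne_top hC₁ hC₂, ENNReal.one_ne_top⟩), ?_⟩
  intro r hr i hi
  have hrT : T ≤ r := le_trans (le_max_left _ _) hr
  have hr₁ : T₁ ≤ 2 * r := by
    have := le_trans (le_max_left T₁ T₂) (le_trans (le_max_right T _) hr)
    omega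
  have hr₂ : T₂ ≤ 2 * r := by
    have := le_trans (le_max_right T₁ T₂) (le_trans (le_max_right T _) hr)
    omega
  refine ⟨fun _ => 2 * r, ![2 * r, 2 * r, i 0, i 1], ?_, ?_, ?_⟩
  · intro j
    have h2 : RG T r (2 * r) := ⟨by omega, by omega⟩
    exact h2
  · have h2 : RG T r (2 * r) := ⟨by omega, by omega⟩
    have hi0 : RG T r (i 0) := ⟨(hi 0).1, by have := (hi 0).2; omega⟩
    have hi1 : RG T r (i 1) := ⟨(hi 1).1, by have := (hi 1).2; omega⟩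
    intro j
    fin_cases j
    · exact h2
    · exact h2
    · exact hi0
    · exact hi1
  intro φ hφ
  have hS : MeasurableSet (((U₁ ∩ U₂) * {gc}) ×ˢ (D.O ^ c) : Set (P × H)) :=
    (hcs gc).isClosed.measurableSet.prod (Trz_Om hFc.ok c)
  have key := Trz_core hton hinst hFc.ok
    (K₁ := D.eg G ((U₁ ∩ U₂) * {1}) ((U₁ ∩ U₂) * {k}) R (2 * r))
    (K₂ := D.eg G ((U₁ ∩ U₂) * {G.w}) ((U₁ ∩ U₂) * {l}) R (2 * r))
    (K₁' := D.eg G ((U₁ ∩ U₂) * {s'}) ((U₁ ∩ U₂) * {k'}) R (i 0))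
    (K₂' := D.eg G ((U₁ ∩ U₂) * {t'}) ((U₁ ∩ U₂) * {l'}) R (i 1))
    (hk _ _ (hcs 1) (hcs k) R _) (hk _ _ (hcs G.w) (hcs l) R _) hεt
    (fun x z => mul_le_mul' (le_trans (min_le_left _ _) (hlo₁ R _ hr₁ x z))
      (le_trans (min_le_left _ _) (hlo₂ R _ hr₂ x z)))
    (fun x z => mul_le_mul' (hup₁ _ x z) (hup₂ _ x z))
    (fun x g u v => Dg G φ 1 x g u v) (fun x g u v => Dg G φ s' x g u v)
    (fun g u v => hDg φ hφ 1 g u v) hS
  have hsub₁ : ∀ s : P, (U₁ ∩ U₂) * {s} ⊆ U₁ * {s} := fun s =>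
    Set.mul_subset_mul_right Set.inter_subset_left
  have hsub₂ : ∀ s : P, (U₁ ∩ U₂) * {s} ⊆ U₂ * {s} := fun s =>
    Set.mul_subset_mul_right Set.inter_subset_right
  have hE : (D.IM fun z => D.lp (((U₁ ∩ U₂) * {gc}) ×ˢ (D.O ^ c)) z fun g => D.IM fun x =>
      D.st2 (D.eg G ((U₁ ∩ U₂) * {1}) ((U₁ ∩ U₂) * {k}) R (2 * r))
        (D.eg G ((U₁ ∩ U₂) * {G.w}) ((U₁ ∩ U₂) * {l}) R (2 * r)) x z
        fun u v => ab (Dg G φ 1 x g u v)) ≤
      FE D G (U₁ * {gc}) c (wn U₁ 1 k) (wn U₁ G.w l) R (fun _ => 2 * r) φ := by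
    unfold FE
    refine Trz_IMm D fun z => Trz_lpm D (Set.prod_mono_left (hsub₁ gc)) z fun g =>
      Trz_IMm D fun x => Trz_st2m D ?_ ?_ x z fun u v => le_rfl
    · exact Trz_eg hAD hFc.ok hFc.gok (hsub₁ 1) (hsub₁ k) R (2 * r)
    · exact Trz_eg hAD hFc.ok hFc.gok (hsub₁ G.w) (hsub₁ l) R (2 * r)
  have hX : (D.IM fun z => D.lp (((U₁ ∩ U₂) * {gc}) ×ˢ (D.O ^ c)) z fun g => D.IM fun x =>
      D.IM fun x' => D.st2 (D.eg G ((U₁ ∩ U₂) * {1}) ((U₁ ∩ U₂) * {k}) R (2 * r))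
        (D.eg G ((U₁ ∩ U₂) * {G.w}) ((U₁ ∩ U₂) * {l}) R (2 * r)) x z
        fun u v => D.st2 (D.eg G ((U₁ ∩ U₂) * {s'}) ((U₁ ∩ U₂) * {k'}) R (i 0))
          (D.eg G ((U₁ ∩ U₂) * {t'}) ((U₁ ∩ U₂) * {l'}) R (i 1)) x' z
          fun u' v' => ab (Dg G φ 1 x g u v - Dg G φ s' x' g u' v')) ≤
      FX D G (U₂ * {gc}) c (wn U₂ 1 k) (wn U₂ G.w l) (wn U₂ s' k') (wn U₂ t' l') R
        ![2 * r, 2 * r, i 0, i 1] φ := by
    unfold FX
    refine Trz_IMm D fun z => Trz_lpm D (Set.prod_mono_left (hsub₂ gc)) z fun g =>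
      Trz_IMm D fun x => Trz_IMm D fun x' => Trz_st2m D ?_ ?_ x z fun u v =>
        Trz_st2m D ?_ ?_ x' z fun u' v' => le_rfl
    · exact Trz_eg hAD hFc.ok hFc.gok (hsub₂ 1) (hsub₂ k) R (2 * r)
    · exact Trz_eg hAD hFc.ok hFc.gok (hsub₂ G.w) (hsub₂ l) R (2 * r)
    · exact Trz_eg hAD hFc.ok hFc.gok (hsub₂ s') (hsub₂ k') R (i 0)
    · exact Trz_eg hAD hFc.ok hFc.gok (hsub₂ t') (hsub₂ l') R (i 1)
  have key2 := le_trans key (add_le_add (mul_le_mul_right hE (C₁ * C₂)) hX)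
  rw [mul_assoc]
  refine (ENNReal.mul_le_iff_le_inv hε0 hεt).1 (le_trans key2 ?_)
  rw [mul_add]
  refine add_le_add ?_ ?_
  · exact mul_le_mul_left (le_self_add) _
  · exact le_mul_of_one_le_left zero_le le_add_self

end Pool.Agent.MPEF.U
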