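import Pool.Agent.Lib.MP_ef3f0f_gt.U.E.SpecA

set_option autoImplicit false
set_option linter.unusedSectionVars false

/-!
# MP_ef3f0f_gt, Theorem U, Part E, module Van: vanishing by `J`
-/

namespace Pool.Agent.MPEF.U

open MeasureTheory Topology
open scoped ENNReal Pointwise

section Alg

variable {P H : Type} [Group P] [Group H] [MeasurableSpace P] [MeasurableSpace H]

private theorem Van_ab (a b : ℝ) : 2 * ab a ≤ ab (a + b) + ab (a - b) := by
  unfold ab
  rw [← ENNReal.ofReal_add (abs_nonneg _) (abs_nonneg _)]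
  have h2 : (2 : ℝ≥0∞) = ENNReal.ofReal 2 := by simp
  rw [h2, ← ENNReal.ofReal_mul (by norm_num)]
  apply ENNReal.ofReal_le_ofReal
  have h := abs_add_le (a + b) (a - b)
  have e : a + b + (a - b) = 2 * a := by ring
  rw [e, abs_mul, abs_two] at h
  exact h

private theorem Van_abm : Measurable ab := by
  unfold ab
  exact ENNReal.measurable_ofReal.comp continuous_abs.measurable

private theorem Van_mono (D : Dat P H) {K₁ K₁' K₂ K₂' : P × H → ℝ≥0∞} (h₁ : ∀ g, K₁ g ≤ K₁' g)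
    (h₂ : ∀ g, K₂ g ≤ K₂' g) (x y : P × H) {f f' : D.Γ → D.Γ → ℝ≥0∞}
    (h : ∀ u v, f u v ≤ f' u v) : D.st2 K₁ K₂ x y f ≤ D.st2 K₁' K₂' x y f' :=
  ENNReal.tsum_le_tsum fun u => ENNReal.tsum_le_tsum fun v =>
    mul_le_mul' (mul_le_mul' (h₁ _) (h₂ _)) (h u v)

private theorem Van_mul (D : Dat P H) (K₁ K₂ : P × H → ℝ≥0∞) (x y : P × H) (a : ℝ≥0∞)
    (f : D.Γ → D.Γ → ℝ≥0∞) :
    D.st2 K₁ K₂ x y (fun u v => a * f u v) = a * D.st2 K₁ K₂ x y f := by
  unfold Dat.st2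
  rw [← ENNReal.tsum_mul_left]
  refine tsum_congr fun u => ?_
  rw [← ENNReal.tsum_mul_left]
  exact tsum_congr fun v => by ring

private theorem Van_add (D : Dat P H) (K₁ K₂ : P × H → ℝ≥0∞) (x y : P × H)
    (f f' : D.Γ → D.Γ → ℝ≥0∞) :
    D.st2 K₁ K₂ x y (fun u v => f u v + f' u v) =
      D.st2 K₁ K₂ x y f + D.st2 K₁ K₂ x y f' := by
  unfold Dat.st2
  rw [← ENNReal.tsum_add]
  refine tsum_congr fun u => ?_
  rw [← ENNReal.tsum_add]
  exact tsum_congr fun v => by ring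

private theorem Van_const (D : Dat P H) (K₁ K₂ : P × H → ℝ≥0∞) (x y : P × H) (a : ℝ≥0∞) :
    D.st2 K₁ K₂ x y (fun _ _ => a) = D.N K₁ x y * D.N K₂ x y * a := by
  unfold Dat.st2 Dat.N
  rw [← ENNReal.tsum_mul_right, ← ENNReal.tsum_mul_right]
  refine tsum_congr fun u => ?_
  rw [ENNReal.tsum_mul_right, ENNReal.tsum_mul_left]

private theorem Van_IMmono (D : Dat P H) {f g : P × H → ℝ≥0∞} (h : ∀ x, f x ≤ g x) :
    D.IM f ≤ D.IM g :=
  lintegral_mono fun x => mul_le_mul' le_rfl (h x)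

private theorem Van_IMmul (D : Dat P H) {c : ℝ≥0∞} (hc : c ≠ ∞) (f : P × H → ℝ≥0∞) :
    D.IM (fun x => c * f x) = c * D.IM f := by
  unfold Dat.IM
  rw [← lintegral_const_mul' c _ hc]
  exact lintegral_congr fun x => by ring

private theorem Van_IMconst (D : Dat P H) (hχ : Measurable D.χ) (hm : ∫⁻ x, D.χ x ∂D.μ = 1)
    (a : ℝ≥0∞) : D.IM (fun _ => a) = a := by
  unfold Dat.IM
  rw [lintegral_mul_const a hχ, hm, one_mul]

private theorem Van_IMadd (D : Dat P H) (hχ : Measurable D.χ) {f g : P × H → ℝ≥0∞}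
    (hf : Measurable f) : D.IM (fun x => f x + g x) = D.IM f + D.IM g := by
  have h := lintegral_add_left (μ := D.μ) (f := fun x => D.χ x * f x) (hχ.mul hf)
    (fun x => D.χ x * g x)
  unfold Dat.IM
  rw [← h]
  exact lintegral_congr fun x => mul_add _ _ _

private theorem Van_IMmeas (D : Dat P H) [SFinite D.μ] (hχ : Measurable D.χ) {α : Type}
    [MeasurableSpace α] {f : α → P × H → ℝ≥0∞}
    (hf : Measurable fun q : α × (P × H) => f q.1 q.2) : Measurable fun a => D.IM (f a) := by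
  unfold Dat.IM
  exact Measurable.lintegral_prod_right' (f := fun q : α × (P × H) => D.χ q.2 * f q.1 q.2)
    ((hχ.comp measurable_snd).mul hf)

private theorem Van_lpmono (D : Dat P H) {S S' : Set (P × H)} (hS : S ⊆ S') (z : P × H)
    {f f' : D.Γ → ℝ≥0∞} (h : ∀ g, f g ≤ f' g) : D.lp S z f ≤ D.lp S' z f' :=
  ENNReal.tsum_le_tsum fun g =>
    mul_le_mul' (Set.indicator_le_indicator_of_subset hS (fun _ => bot_le) _) (h g)

private theorem Van_lpmul (D : Dat P H) (S : Set (P × H)) (z : P × H) (a : ℝ≥0∞)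
    (f : D.Γ → ℝ≥0∞) : D.lp S z (fun g => a * f g) = a * D.lp S z f := by
  unfold Dat.lp
  rw [← ENNReal.tsum_mul_left]
  exact tsum_congr fun g => by ring

private theorem Van_lpadd (D : Dat P H) (S : Set (P × H)) (z : P × H)
    (f f' : D.Γ → ℝ≥0∞) : D.lp S z (fun g => f g + f' g) = D.lp S z f + D.lp S z f' := by
  unfold Dat.lp
  rw [← ENNReal.tsum_add]
  exact tsum_congr fun g => by ring

/-- The generic functional. -/
private noncomputable def Van_F (D : Dat P H) (S : Set (P × H)) (K₁ K₂ K₃ K₄ : P × H → ℝ≥0∞)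
    (b : P × H → P × H → D.Γ → D.Γ → D.Γ → D.Γ → D.Γ → ℝ≥0∞) : ℝ≥0∞ :=
  D.IM fun z => D.lp S z fun g => D.IM fun x => D.IM fun x' =>
    D.st2 K₁ K₂ x z fun u v => D.st2 K₃ K₄ x' z fun u' v' => b x x' g u v u' v'

private theorem Van_Fmono (D : Dat P H) {S S' : Set (P × H)}
    {K₁ K₂ K₃ K₄ K₁' K₂' K₃' K₄' : P × H → ℝ≥0∞}
    {b b' : P × H → P × H → D.Γ → D.Γ → D.Γ → D.Γ → D.Γ → ℝ≥0∞} (hS : S ⊆ S')
    (h₁ : ∀ g, K₁ g ≤ K₁' g) (h₂ : ∀ g, K₂ g ≤ K₂' g) (h₃ : ∀ g, K₃ g ≤ K₃' g)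
    (h₄ : ∀ g, K₄ g ≤ K₄' g) (hb : ∀ x x' g u v u' v', b x x' g u v u' v' ≤ b' x x' g u v u' v') :
    Van_F D S K₁ K₂ K₃ K₄ b ≤ Van_F D S' K₁' K₂' K₃' K₄' b' :=
  Van_IMmono D fun z => Van_lpmono D hS z fun g => Van_IMmono D fun x => Van_IMmono D fun x' =>
    Van_mono D h₁ h₂ x z fun u v => Van_mono D h₃ h₄ x' z fun u' v' => hb x x' g u v u' v'

end Alg

section Meas

variable {P H : Type} [Group P] [Group H] [TopologicalSpace P] [TopologicalSpace H]
  [IsTopologicalGroup P] [IsTopologicalGroup H] [LocallyCompactSpace P] [LocallyCompactSpace H]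
  [T2Space P] [T2Space H] [SecondCountableTopology P] [SecondCountableTopology H]
  [MeasurableSpace P] [MeasurableSpace H] [BorelSpace P] [BorelSpace H]

private theorem Van_Km {α : Type} [MeasurableSpace α] {K : P × H → ℝ≥0∞} (hK : Measurable K)
    {x z : α → P × H} (hx : Measurable x) (hz : Measurable z) (u : P × H) :
    Measurable fun q => K ((x q)⁻¹ * u * z q) :=
  hK.comp ((hx.inv.fun_mul measurable_const).fun_mul hz)

private theorem Van_st2m (D : Dat P H) [Countable D.Γ] {α : Type} [MeasurableSpace α]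
    {K₁ K₂ : P × H → ℝ≥0∞} (h₁ : Measurable K₁) (h₂ : Measurable K₂) {x z : α → P × H}
    (hx : Measurable x) (hz : Measurable z) {f : α → D.Γ → D.Γ → ℝ≥0∞}
    (hf : ∀ u v, Measurable fun q => f q u v) :
    Measurable fun q => D.st2 K₁ K₂ (x q) (z q) (f q) := by
  unfold Dat.st2
  have k : ∀ u v : D.Γ, Measurable fun q => K₁ ((x q)⁻¹ * (u : P × H) * z q) *
      K₂ ((x q)⁻¹ * (v : P × H) * z q) * f q u v := by
    intro u v
    have k1 := Van_Km h₁ hx hz (u : P × H)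
    have k2 := Van_Km h₂ hx hz (v : P × H)
    exact (k1.fun_mul k2).fun_mul (hf u v)
  exact Measurable.tsum fun u => Measurable.tsum fun v => k u v

private theorem Van_main (D : Dat P H) [SFinite D.μ] [Countable D.Γ] (hD : D.Ok)
    (S : Set (P × H)) (hS : MeasurableSet S) {K₁ K₂ K₃ K₄ : P × H → ℝ≥0∞}
    (h₁ : Measurable K₁) (h₂ : Measurable K₂) (h₃ : Measurable K₃) (h₄ : Measurable K₄)
    {c₀ : ℝ≥0∞} (hc₀ : c₀ ≠ ∞) (hN : ∀ x z, c₀ ≤ D.N K₃ x z * D.N K₄ x z)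
    (a : P × H → D.Γ → D.Γ → D.Γ → ℝ≥0∞)
    (b b' : P × H → P × H → D.Γ → D.Γ → D.Γ → D.Γ → D.Γ → ℝ≥0∞)
    (hb : ∀ g u v u' v', Measurable fun q : (P × H) × (P × H) => b q.1 q.2 g u v u' v')
    (h : ∀ x x' g u v u' v', 2 * a x g u v ≤ b x x' g u v u' v' + b' x x' g u v u' v') :
    c₀ * (2 * (D.IM fun z => D.lp S z fun g => D.IM fun x =>
      D.st2 K₁ K₂ x z fun u v => a x g u v)) ≤
      Van_F D S K₁ K₂ K₃ K₄ b + Van_F D S K₁ K₂ K₃ K₄ b' := by
  -- step 1: the pointwise inequality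
  have s1 : ∀ z g x, c₀ * (2 * D.st2 K₁ K₂ x z fun u v => a x g u v) ≤
      D.IM fun x' => D.st2 K₁ K₂ x z fun u v => D.st2 K₃ K₄ x' z fun u' v' =>
        b x x' g u v u' v' + b' x x' g u v u' v' := by
    intro z g x
    rw [← Van_IMconst D hD.χm hD.mass (c₀ * (2 * D.st2 K₁ K₂ x z fun u v => a x g u v))]
    refine Van_IMmono D fun x' => ?_
    rw [← Van_mul, ← Van_mul]
    refine Van_mono D (fun _ => le_rfl) (fun _ => le_rfl) x z fun u v => ?_
    calc c₀ * (2 * a x g u v) ≤ D.N K₃ x' z * D.N K₄ x' z * (2 * a x g u v) :=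
          mul_le_mul' (hN x' z) le_rfl
      _ = D.st2 K₃ K₄ x' z (fun _ _ => 2 * a x g u v) := (Van_const D K₃ K₄ x' z _).symm
      _ ≤ _ := Van_mono D (fun _ => le_rfl) (fun _ => le_rfl) x' z fun u' v' =>
          h x x' g u v u' v'
  -- step 2: measurability
  have m1 : ∀ g, Measurable fun q : ((P × H) × (P × H)) × (P × H) =>
      D.st2 K₁ K₂ q.1.2 q.1.1 fun u v => D.st2 K₃ K₄ q.2 q.1.1 fun u' v' =>
        b q.1.2 q.2 g u v u' v' := by
    intro g
    have q1 : Measurable fun q : ((P × H) × (P × H)) × (P × H) => q.1.1 :=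
      measurable_fst.comp measurable_fst
    have q2 : Measurable fun q : ((P × H) × (P × H)) × (P × H) => q.1.2 :=
      measurable_snd.comp measurable_fst
    have q3 : Measurable fun q : ((P × H) × (P × H)) × (P × H) => q.2 := measurable_snd
    exact Van_st2m D h₁ h₂ q2 q1 fun u v => Van_st2m D h₃ h₄ q3 q1 fun u' v' =>
      (hb g u v u' v').comp (q2.prodMk q3)
  have m2 : ∀ g, Measurable fun q : (P × H) × (P × H) => D.IM fun x' =>
      D.st2 K₁ K₂ q.2 q.1 fun u v => D.st2 K₃ K₄ x' q.1 fun u' v' =>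
        b q.2 x' g u v u' v' := fun g => Van_IMmeas D hD.χm (m1 g)
  have m3 : ∀ g, Measurable fun z : P × H => D.IM fun x => D.IM fun x' =>
      D.st2 K₁ K₂ x z fun u v => D.st2 K₃ K₄ x' z fun u' v' =>
        b x x' g u v u' v' := fun g => Van_IMmeas D hD.χm (m2 g)
  have m4 : Measurable fun z : P × H => D.lp S z fun g => D.IM fun x => D.IM fun x' =>
      D.st2 K₁ K₂ x z fun u v => D.st2 K₃ K₄ x' z fun u' v' =>
        b x x' g u v u' v' := by
    unfold Dat.lp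
    refine Measurable.tsum fun g => ?_
    refine Measurable.fun_mul ?_ (m3 g)
    exact Van_Km (K := S.indicator fun _ => (1 : ℝ≥0∞)) (measurable_const.indicator hS)
      measurable_id measurable_id (g : P × H)
  have m2' : ∀ g z, Measurable fun x : P × H => D.IM fun x' =>
      D.st2 K₁ K₂ x z fun u v => D.st2 K₃ K₄ x' z fun u' v' =>
        b x x' g u v u' v' := by
    intro g z
    have e : Measurable fun x : P × H => (z, x) := measurable_const.prodMk measurable_id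
    have e' := (m2 g).comp e
    exact e'
  have m1' : ∀ g z x, Measurable fun x' : P × H =>
      D.st2 K₁ K₂ x z fun u v => D.st2 K₃ K₄ x' z fun u' v' =>
        b x x' g u v u' v' := by
    intro g z x
    have e : Measurable fun x' : P × H => (((z, x), x') : ((P × H) × (P × H)) × (P × H)) :=
      measurable_const.prodMk measurable_id
    have e' := (m1 g).comp e
    exact e'
  calc c₀ * (2 * (D.IM fun z => D.lp S z fun g => D.IM fun x =>
      D.st2 K₁ K₂ x z fun u v => a x g u v))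
      = D.IM fun z => D.lp S z fun g => D.IM fun x =>
          c₀ * (2 * D.st2 K₁ K₂ x z fun u v => a x g u v) := by
        rw [← Van_IMmul D (by norm_num), ← Van_IMmul D hc₀]
        congr 1
        funext z
        rw [← Van_lpmul, ← Van_lpmul]
        congr 1
        funext g
        rw [← Van_IMmul D (by norm_num), ← Van_IMmul D hc₀]
    _ ≤ D.IM fun z => D.lp S z fun g => D.IM fun x => D.IM fun x' =>
          D.st2 K₁ K₂ x z fun u v => D.st2 K₃ K₄ x' z fun u' v' =>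
          b x x' g u v u' v' + b' x x' g u v u' v' :=
        Van_IMmono D fun z => Van_lpmono D le_rfl z fun g => Van_IMmono D fun x => s1 z g x
    _ = Van_F D S K₁ K₂ K₃ K₄ b + Van_F D S K₁ K₂ K₃ K₄ b' := by
        unfold Van_F
        rw [← Van_IMadd D hD.χm m4]
        congr 1
        funext z
        rw [← Van_lpadd]
        congr 1
        funext g
        rw [← Van_IMadd D hD.χm (m2' g z)]
        congr 1
        funext x
        rw [← Van_IMadd D hD.χm (m1' g z x)]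
        congr 1
        funext x'
        rw [← Van_add]
        congr 1
        funext u v
        rw [← Van_add]

/-- The kernels with the windows shifted by `J`. -/
private theorem Van_J (D : Dat P H) (hD : D.Ok) (G : PG P) (hG : G.Ok) (S K : Set P) (R n : ℕ)
    (g : P × H) : D.eg G (S * {G.J}) (K * {G.J}) R n g = D.eg G S K R n g := by
  have := hD.right₁
  have hJi : (G.J)⁻¹ = G.J := inv_eq_of_mul_eq_one_right hG.JJ
  have hJD : ∀ R : ℕ, ∀ d ∈ G.D1 ^ R, G.J * d = d * G.J := by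
    intro R
    induction R with
    | zero =>
      intro d hd
      rw [pow_zero, Set.mem_one] at hd
      rw [hd, mul_one, one_mul]
    | succ R ih =>
      intro d hd
      rw [pow_succ] at hd
      obtain ⟨d₁, h₁, d₂, h₂, rfl⟩ := Set.mem_mul.1 hd
      rw [← mul_assoc, ih d₁ h₁, mul_assoc, hG.JA d₂ (hG.D1A h₂), mul_assoc]
  have hJa : ∀ n : ℕ, G.J * (G.a ^ n)⁻¹ = (G.a ^ n)⁻¹ * G.J := fun n =>
    hG.JA _ (G.A.inv_mem (G.A.pow_mem hG.aA n))
  change (∫⁻ q, iK (S * {G.J} * G.D1 ^ R) q * iK (G.ew (K * {G.J})) ((G.a ^ n)⁻¹ * q⁻¹ * g.1)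
    ∂D.μ₁) * D.nu n g.2 = (∫⁻ q, iK (S * G.D1 ^ R) q * iK (G.ew K) ((G.a ^ n)⁻¹ * q⁻¹ * g.1)
    ∂D.μ₁) * D.nu n g.2
  congr 1
  rw [← lintegral_mul_right_eq_self (μ := D.μ₁) (fun q : P => iK (S * ({G.J} : Set P) * G.D1 ^ R) q *
    iK (G.ew (K * ({G.J} : Set P))) ((G.a ^ n)⁻¹ * q⁻¹ * g.1)) G.J]
  refine lintegral_congr fun q => ?_
  have e1 : (q * G.J ∈ S * {G.J} * G.D1 ^ R) ↔ (q ∈ S * G.D1 ^ R) := by
    constructor
    · intro h
      obtain ⟨x, hx, d, hd, he⟩ := Set.mem_mul.1 h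
      obtain ⟨s, hs, j, hj, rfl⟩ := Set.mem_mul.1 hx
      rw [Set.mem_singleton_iff] at hj
      subst hj
      rw [mul_assoc, hJD R d hd, ← mul_assoc] at he
      have h2 := mul_right_cancel he
      exact h2 ▸ Set.mul_mem_mul hs hd
    · intro h
      obtain ⟨s, hs, d, hd, he⟩ := Set.mem_mul.1 h
      have e : q * G.J = s * G.J * d := by
        rw [← he, mul_assoc, ← hJD R d hd, ← mul_assoc]
      rw [e]
      exact Set.mul_mem_mul (Set.mul_mem_mul hs rfl) hd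
  have e2 : ((G.a ^ n)⁻¹ * (q * G.J)⁻¹ * g.1 ∈ G.ew (K * {G.J})) ↔
      ((G.a ^ n)⁻¹ * q⁻¹ * g.1 ∈ G.ew K) := by
    have e3 : (G.a ^ n)⁻¹ * (q * G.J)⁻¹ * g.1 = G.J * ((G.a ^ n)⁻¹ * q⁻¹ * g.1) := by
      rw [mul_inv_rev, hJi, ← mul_assoc, ← hJa n]
      simp only [mul_assoc]
    unfold PG.ew
    rw [Set.mem_ofPred_eq, Set.mem_ofPred_eq, e3, mul_inv_rev, hJi, mul_assoc _ G.J G.w, hG.Jw,
      ← mul_assoc]
    constructor
    · intro h
      obtain ⟨k, hk, j, hj, he⟩ := Set.mem_mul.1 h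
      rw [Set.mem_singleton_iff] at hj
      subst hj
      exact (mul_right_cancel he) ▸ hk
    · intro h
      exact Set.mul_mem_mul h rfl
  have f1 : iK (S * {G.J} * G.D1 ^ R) (q * G.J) = iK (S * G.D1 ^ R) q := by
    unfold iK
    by_cases h : q ∈ S * G.D1 ^ R
    · rw [Set.indicator_of_mem h, Set.indicator_of_mem (e1.2 h)]
    · rw [Set.indicator_of_notMem h, Set.indicator_of_notMem (fun h' => h (e1.1 h'))]
  have f2 : iK (G.ew (K * {G.J})) ((G.a ^ n)⁻¹ * (q * G.J)⁻¹ * g.1) =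
      iK (G.ew K) ((G.a ^ n)⁻¹ * q⁻¹ * g.1) := by
    unfold iK
    by_cases h : (G.a ^ n)⁻¹ * q⁻¹ * g.1 ∈ G.ew K
    · rw [Set.indicator_of_mem h, Set.indicator_of_mem (e2.2 h)]
    · rw [Set.indicator_of_notMem h, Set.indicator_of_notMem (fun h' => h (e2.1 h'))]
  rw [f1, f2]

private theorem Van_nhds {U : Set P} (hU : U ∈ 𝓝 (1 : P)) (s : P) : U * {s} ∈ 𝓝 s := by
  have h1 : Filter.Tendsto (fun x : P => x * s⁻¹) (𝓝 s) (𝓝 1) := by
    have h2 : Continuous fun x : P => x * s⁻¹ := continuous_id.mul continuous_const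
    have h3 := h2.tendsto s
    rwa [mul_inv_cancel] at h3
  filter_upwards [h1 hU] with x hx
  refine Set.mem_mul.2 ⟨x * s⁻¹, hx, s, rfl, ?_⟩
  group

private theorem Van_open (D : Dat P H) (hD : D.Ok) : ∀ c : ℕ, MeasurableSet (D.O ^ c)
  | 0 => by
    rw [pow_zero]
    exact (isClosed_singleton (x := (1 : H))).measurableSet
  | c + 1 => by
    rw [pow_succ]
    have h : IsOpen D.O := isOpen_lt continuous_const hD.νc
    exact h.mul_left.measurableSet

end Meas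

variable (P H : Type) [Group P] [Group H] [TopologicalSpace P] [TopologicalSpace H]
  [IsTopologicalGroup P] [IsTopologicalGroup H] [LocallyCompactSpace P] [LocallyCompactSpace H]
  [T2Space P] [T2Space H] [SecondCountableTopology P] [SecondCountableTopology H]
  [MeasurableSpace P] [MeasurableSpace H] [BorelSpace P] [BorelSpace H]

theorem tVan : S_CTs P H → S_ton P H → S_egm P H → S_phV P H → S_AD P → S_inst P H →
    S_Van P H := by
  intro hCTs _hton hegm hphV hAD hinst D G hF gc c k l hR1 hR2 s t hst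
  have hD := hF.ok
  have hG := hF.gok
  obtain ⟨-, -, hσ, hcΓ, -⟩ := hinst D hD
  have := hD.haar₁
  have := hD.right₁
  have := hD.inv₁
  have hstJ : G.Pos (s * G.J) (t * G.J) := (hG.PJ s t).2 hst
  obtain ⟨U₁, hU₁, hc₁, hC₁⟩ := hR1 s t (s * G.J) (t * G.J) hst hstJ
  obtain ⟨U₂, hU₂, hc₂, hC₂⟩ := hR2 s t s t hst hst
  refine ⟨U₁ ∩ U₂, Filter.inter_mem hU₁ hU₂, hc₁.inter hc₂, ?_⟩
  set U : Set P := U₁ ∩ U₂ with hUdef
  have hU : U ∈ 𝓝 (1 : P) := Filter.inter_mem hU₁ hU₂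
  have hUc : IsCompact U := hc₁.inter hc₂
  have hw : ∀ x : P, IsCompact (U * {x}) := fun x => hUc.mul isCompact_singleton
  have hm1 : ∀ x : P, U * {x} ⊆ U₁ * {x} := fun x => Set.mul_subset_mul_right Set.inter_subset_left
  have hm2 : ∀ x : P, U * {x} ⊆ U₂ * {x} := fun x => Set.mul_subset_mul_right Set.inter_subset_right
  have hmono : ∀ {S S' K K' : Set P} (R n : ℕ), S ⊆ S' → K ⊆ K' → ∀ g,
      D.eg G S K R n g ≤ D.eg G S' K' R n g := by
    intro S S' K K' R n hS hK g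
    change eP D.μ₁ G S K R n g.1 * D.nu n g.2 ≤ eP D.μ₁ G S' K' R n g.1 * D.nu n g.2
    exact mul_le_mul' ((hAD G D.μ₁ hG).1 S S' K K' R R n hS hK le_rfl g.1) le_rfl
  obtain ⟨T₁, a₁, ha₁, hL₁⟩ := hF.lo s k (U * {s}) (Van_nhds hU s) (U * {k}) (Van_nhds hU k)
  obtain ⟨T₂, a₂, ha₂, hL₂⟩ := hF.lo t l (U * {t}) (Van_nhds hU t) (U * {l}) (Van_nhds hU l)
  set c₀ : ℝ≥0∞ := min a₁ 1 * min a₂ 1 with hc₀def
  have hc₀p : c₀ ≠ 0 := by
    rw [hc₀def]
    exact mul_ne_zero (lt_min ha₁ one_pos).ne' (lt_min ha₂ one_pos).ne'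
  have hc₀t : c₀ ≠ ∞ := by
    rw [hc₀def]
    exact ENNReal.mul_ne_top (ne_top_of_le_ne_top ENNReal.one_ne_top (min_le_right _ _))
      (ne_top_of_le_ne_top ENNReal.one_ne_top (min_le_right _ _))
  have hCC : ∀ b : Bool, CT D G 0 (okL 4) (if b then
      FX D G (U₁ * {gc}) c (wn U₁ s k) (wn U₁ t l) (wn U₁ (s * G.J) (k * G.J))
        (wn U₁ (t * G.J) (l * G.J))
      else FX D G (U₂ * {gc}) c (wn U₂ s k) (wn U₂ t l) (wn U₂ s k) (wn U₂ t l)) := by
    intro b
    cases b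
    · exact hC₂
    · exact hC₁
  refine hCTs D G hD hG 0 Bool (fun _ => Fin 4 → ℕ) (fun _ => okL 4) (fun b => if b then
      FX D G (U₁ * {gc}) c (wn U₁ s k) (wn U₁ t l) (wn U₁ (s * G.J) (k * G.J))
        (wn U₁ (t * G.J) (l * G.J))
      else FX D G (U₂ * {gc}) c (wn U₂ s k) (wn U₂ t l) (wn U₂ s k) (wn U₂ t l))
    (Fin 2 → ℕ) (okL 2) (FE D G (U * {gc}) c (wn U s k) (wn U t l)) 0
    (fun _ T T' r i hT hi j => ⟨(hi j).1, by have := (hi j).2; omega⟩) hCC
    (fun T T' r i hT hi j => ⟨(hi j).1, by have := (hi j).2; omega⟩) ?_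
  intro R T
  refine ⟨(c₀ * 2)⁻¹, T + T₁ + T₂, ENNReal.inv_ne_top.2 (mul_ne_zero hc₀p two_ne_zero), ?_⟩
  intro r hr i' hi'
  refine ⟨fun _ => ![i' 0, i' 1, 2 * r, 2 * r], fun _ j => ?_, fun φ hφ => ?_⟩
  · have h0 := hi' 0
    have h1 := hi' 1
    unfold RG at h0 h1 ⊢
    fin_cases j
    · exact ⟨h0.1, by have := h0.2; change i' 0 + T ≤ 4 * r; omega⟩
    · exact ⟨h1.1, by have := h1.2; change i' 1 + T ≤ 4 * r; omega⟩
    · exact ⟨by change r ≤ 2 * r; omega, by change 2 * r + T ≤ 4 * r; omega⟩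
    · exact ⟨by change r ≤ 2 * r; omega, by change 2 * r + T ≤ 4 * r; omega⟩
  · obtain ⟨hm, -, hDg, -⟩ := hegm D G hD hG
    have hphJ : ∀ (x : P × H) (g u v : D.Γ), Dg G φ (s * G.J) x g u v = - Dg G φ s x g u v := by
      intro x g u v
      have h4 := (hphV D G hG φ hφ).2.2.2.1
      unfold Dg
      rw [← mul_assoc, h4, h4]
      ring
    have hmain := Van_main D hD ((U * {gc}) ×ˢ (D.O ^ c))
      ((hw gc).isClosed.measurableSet.prod (Van_open D hD c))
      (hm (U * {s}) (U * {k}) (hw s) (hw k) R (i' 0))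
      (hm (U * {t}) (U * {l}) (hw t) (hw l) R (i' 1))
      (hm (U * {s}) (U * {k}) (hw s) (hw k) R (2 * r))
      (hm (U * {t}) (U * {l}) (hw t) (hw l) R (2 * r)) hc₀t
      (fun x z => mul_le_mul' ((min_le_left _ _).trans (hL₁ R (2 * r) (by omega) x z))
        ((min_le_left _ _).trans (hL₂ R (2 * r) (by omega) x z)))
      (fun x g u v => ab (Dg G φ s x g u v))
      (fun x x' g u v u' v' => ab (Dg G φ s x g u v - Dg G φ (s * G.J) x' g u' v'))
      (fun x x' g u v u' v' => ab (Dg G φ s x g u v - Dg G φ s x' g u' v'))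
      (fun g u v u' v' => Van_abm.comp (((hDg φ hφ s g u v).comp measurable_fst).sub
        ((hDg φ hφ (s * G.J) g u' v').comp measurable_snd)))
      (fun x x' g u v u' v' => by
        rw [hphJ, sub_neg_eq_add]
        exact Van_ab _ _)
    have hF1 : Van_F D ((U * {gc}) ×ˢ (D.O ^ c)) (D.eg G (U * {s}) (U * {k}) R (i' 0))
        (D.eg G (U * {t}) (U * {l}) R (i' 1)) (D.eg G (U * {s}) (U * {k}) R (2 * r))
        (D.eg G (U * {t}) (U * {l}) R (2 * r))
        (fun x x' g u v u' v' => ab (Dg G φ s x g u v - Dg G φ (s * G.J) x' g u' v')) ≤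
        FX D G (U₁ * {gc}) c (wn U₁ s k) (wn U₁ t l) (wn U₁ (s * G.J) (k * G.J))
          (wn U₁ (t * G.J) (l * G.J)) R ![i' 0, i' 1, 2 * r, 2 * r] φ := by
      refine Van_Fmono D (Set.prod_mono (hm1 gc) le_rfl) (hmono R _ (hm1 s) (hm1 k))
        (hmono R _ (hm1 t) (hm1 l)) (fun g => ?_) (fun g => ?_)
        (fun x x' g u v u' v' => le_rfl)
      · refine (hmono R (2 * r) (hm1 s) (hm1 k) g).trans ?_
        rw [← Van_J D hD G hG (U₁ * {s}) (U₁ * {k}) R (2 * r) g, mul_assoc, mul_assoc,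
          Set.singleton_mul_singleton, Set.singleton_mul_singleton]
        exact le_rfl
      · refine (hmono R (2 * r) (hm1 t) (hm1 l) g).trans ?_
        rw [← Van_J D hD G hG (U₁ * {t}) (U₁ * {l}) R (2 * r) g, mul_assoc, mul_assoc,
          Set.singleton_mul_singleton, Set.singleton_mul_singleton]
        exact le_rfl
    have hF2 : Van_F D ((U * {gc}) ×ˢ (D.O ^ c)) (D.eg G (U * {s}) (U * {k}) R (i' 0))
        (D.eg G (U * {t}) (U * {l}) R (i' 1)) (D.eg G (U * {s}) (U * {k}) R (2 * r))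
        (D.eg G (U * {t}) (U * {l}) R (2 * r))
        (fun x x' g u v u' v' => ab (Dg G φ s x g u v - Dg G φ s x' g u' v')) ≤
        FX D G (U₂ * {gc}) c (wn U₂ s k) (wn U₂ t l) (wn U₂ s k) (wn U₂ t l) R
          ![i' 0, i' 1, 2 * r, 2 * r] φ :=
      Van_Fmono D (Set.prod_mono (hm2 gc) le_rfl) (hmono R _ (hm2 s) (hm2 k))
        (hmono R _ (hm2 t) (hm2 l)) (hmono R _ (hm2 s) (hm2 k)) (hmono R _ (hm2 t) (hm2 l))
        (fun x x' g u v u' v' => le_rfl)
    have hfin := hmain.trans (add_le_add hF1 hF2)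
    rw [← mul_assoc] at hfin
    rw [Fintype.sum_bool]
    have h2 : (c₀ * 2) ≠ 0 := mul_ne_zero hc₀p two_ne_zero
    have h3 : (c₀ * 2) ≠ ∞ := ENNReal.mul_ne_top hc₀t (by norm_num)
    calc FE D G (U * {gc}) c (wn U s k) (wn U t l) R i' φ
        = (c₀ * 2)⁻¹ * ((c₀ * 2) * FE D G (U * {gc}) c (wn U s k) (wn U t l) R i' φ) := by
          rw [← mul_assoc, ENNReal.inv_mul_cancel h2 h3, one_mul]
      _ ≤ _ := mul_le_mul' le_rfl hfin

end Pool.Agent.MPEF.U
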