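import Pool.Agent.Lib.MP_ef3f0f_gt.U.E.SpecA

set_option autoImplicit false

/-!
# MP_ef3f0f_gt, Theorem U, Part E: `S_ZI` (the effect of long insertions vanishes)
-/

namespace Pool.Agent.MPEF.U

open MeasureTheory Topology
open scoped ENNReal Pointwise

private theorem ZI_Dp {P : Type} [Group P] [TopologicalSpace P] {G : PG P} (hG : G.Ok) (k : ℕ) :
    ∀ s, k ≤ s → G.a ^ s ∈ G.Dp k := by
  have mono : ∀ j, G.Dp (k + j) ⊆ G.Dp k := by
    intro j
    induction j with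
    | zero => exact subset_rfl
    | succ j ih => exact (hG.Dps (k + j)).trans ih
  intro s hs
  obtain ⟨j, rfl⟩ := Nat.exists_eq_add_of_le hs
  exact mono j (hG.Dpa (k + j))

variable (P H : Type) [Group P] [Group H] [TopologicalSpace P] [TopologicalSpace H]
  [IsTopologicalGroup P] [IsTopologicalGroup H] [LocallyCompactSpace P] [LocallyCompactSpace H]
  [T2Space P] [T2Space H] [SecondCountableTopology P] [SecondCountableTopology H]
  [MeasurableSpace P] [MeasurableSpace H] [BorelSpace P] [BorelSpace H]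

theorem tZI : S_RlI P H → S_Orb P H → S_Van P H → S_Loc P H → S_Trz P H → S_LXc P →
    S_ZI P H := by
  intro hRlI hOrb hVan hLoc hTrz hLX D G hF
  have hG := hF.gok
  have hwi : G.w⁻¹ = G.w := inv_eq_of_mul_eq_one_left hG.ww
  obtain ⟨U, hU, s₀, hR⟩ := hRlI D G hF
  obtain ⟨U', hU'o, hU'1, hU'U⟩ : ∃ U' : Set P, IsOpen U' ∧ (1 : P) ∈ U' ∧ U' * U' ⊆ U :=
    exists_open_nhds_one_mul_subset hU
  have hw1 : G.Pos G.w 1 := (hG.Ps _ _).1 hG.P1
  obtain ⟨V, hV, k, hz⟩ := hLX G hG {1} isCompact_singleton (by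
    intro q hq
    rw [Set.mem_singleton_iff] at hq
    rw [hq]
    exact hw1) U' (hU'o.mem_nhds hU'1)
  refine ⟨U' ∩ V, Filter.inter_mem (hU'o.mem_nhds hU'1) hV, max s₀ k, ?_⟩
  intro s hs u hu u' hu' e₁ he₁ e₂ he₂ c
  obtain ⟨z, hzA, ⟨e, he, b, hb, hze⟩, e', he', b', hb', hzw⟩ :=
    hz (G.a ^ s) (ZI_Dp hG k s (le_trans (le_max_right _ _) hs)) 1 rfl u' hu'.2 u hu.2
  have sub : U' ⊆ U := fun x hx => hU'U ⟨x, hx, 1, hU'1, mul_one x⟩
  obtain ⟨d, hd⟩ : ∃ d, d = z⁻¹ * (G.a ^ s * (u' * 1 * u)) * z := ⟨_, rfl⟩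
  rw [← hd] at hzA
  have hdA : d ∈ G.A := hG.AppA hzA
  have hgc : u * G.a ^ s * u' = u * z * d * (u * z)⁻¹ := by
    rw [hd]; group
  have hzw' : u * z * G.w = (u * e') * G.w * b' := by
    rw [mul_assoc u z, hzw]; group
  have hz' : u * z = (u * e) * b := by rw [hze]; group
  have hP1 : G.Pos (u * z * G.w) (u * z) := by
    have h1 := (hG.Pl (u * z) G.w 1).2 hw1
    rwa [mul_one] at h1
  have hP2 : G.Pos ((u * z * d * (u * z)⁻¹)⁻¹ * (u * z * G.w)) (u * z) := by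
    have e1 : (u * z * d * (u * z)⁻¹)⁻¹ * (u * z * G.w) =
        (u * z) * (G.w * (G.w * d⁻¹ * G.w)) := by
      have h2 : G.w * (G.w * d⁻¹ * G.w) = d⁻¹ * G.w := by
        rw [← mul_assoc, ← mul_assoc, hG.ww, one_mul]
      rw [h2]; group
    rw [e1]
    have h3 : G.Pos (G.w * (G.w * d⁻¹ * G.w)) 1 :=
      (hG.Pr _ _ _ (hG.AB (hG.wA _ (inv_mem hdA)))).2 hw1
    have h4 := (hG.Pl (u * z) _ _).2 h3
    rwa [mul_one] at h4
  obtain ⟨W, hW, W', hW', hRel⟩ := hLoc D G hF (u * z * d * (u * z)⁻¹) c (u * z * G.w) (u * z)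
    hP1 hP2
  have hself := hRel _ (mem_of_mem_nhds hW) _ (mem_of_mem_nhds hW')
  have horb := hOrb D G hF c (u * z) d hdA
  have hZer := hVan D G hF (u * z * d * (u * z)⁻¹) c (u * z * G.w) (u * z) horb hself
  refine hTrz D G hF _ c (u * z * G.w) (u * z) (e₁ * G.w) e₂ (hgc ▸ hZer) ?_
  have h5 := hR s (le_trans (le_max_left _ _) hs) u (sub hu.1) u' (sub hu'.1) (u * e')
    (hU'U (Set.mul_mem_mul hu.1 he')) (u * e) (hU'U (Set.mul_mem_mul hu.1 he)) e₁ (sub he₁.1)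
    e₂ (sub he₂.1) b' hb' b hb 1 (one_mem _) 1 (one_mem _) c
  rw [← hzw', ← hz', mul_one, mul_one] at h5
  exact h5

end Pool.Agent.MPEF.U
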