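import Pool.Agent.Lib.MP_ef3f0f_gt.U.E.SpecB

set_option autoImplicit false
set_option linter.unusedSectionVars false

/-!
# MP_ef3f0f_gt, Theorem U, Part E, module `dual`: duality of the operators
-/

namespace Pool.Agent.MPEF.U

open MeasureTheory Topology
open scoped ENNReal Pointwise

variable (P H : Type) [Group P] [Group H] [TopologicalSpace P] [TopologicalSpace H]
  [IsTopologicalGroup P] [IsTopologicalGroup H] [LocallyCompactSpace P] [LocallyCompactSpace H]
  [T2Space P] [T2Space H] [SecondCountableTopology P] [SecondCountableTopology H]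
  [MeasurableSpace P] [MeasurableSpace H] [BorelSpace P] [BorelSpace H]

private theorem dual_L2 (D : Dat P H) [SFinite D.μ] [SFinite D.μ₂] (hχ : Measurable D.χ)
    (hν : Measurable D.ν) (Φ : H → P × H → ℝ≥0∞)
    (hΦ : Measurable fun q : (P × H) × H => Φ q.2 q.1) :
    (D.IM fun x => ∫⁻ h, D.ν h * Φ h x ∂D.μ₂) = ∫⁻ h, D.ν h * D.IM (Φ h) ∂D.μ₂ := by
  have m1 : ∀ x, Measurable fun h => D.ν h * Φ h x := fun x =>
    hν.mul (hΦ.comp measurable_prodMk_left)
  have m2 : ∀ h, Measurable fun x => D.χ x * Φ h x := fun h =>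
    hχ.mul (hΦ.comp measurable_prodMk_right)
  unfold Dat.IM
  calc ∫⁻ x, D.χ x * ∫⁻ h, D.ν h * Φ h x ∂D.μ₂ ∂D.μ
      = ∫⁻ x, ∫⁻ h, D.χ x * (D.ν h * Φ h x) ∂D.μ₂ ∂D.μ := by
        refine lintegral_congr fun x => ?_
        rw [lintegral_const_mul _ (m1 x)]
    _ = ∫⁻ h, ∫⁻ x, D.χ x * (D.ν h * Φ h x) ∂D.μ ∂D.μ₂ := by
        refine lintegral_lintegral_swap ?_
        exact ((hχ.comp measurable_fst).mul
          ((hν.comp measurable_snd).mul hΦ)).aemeasurable
    _ = ∫⁻ h, D.ν h * ∫⁻ x, D.χ x * Φ h x ∂D.μ ∂D.μ₂ := by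
        refine lintegral_congr fun h => ?_
        rw [← lintegral_const_mul _ (m2 h)]
        refine lintegral_congr fun x => ?_
        ring

private theorem dual_L0 (D : Dat P H) [Countable D.Γ] (hν : Measurable D.ν) (c : D.Γ → ℝ≥0∞)
    (f : D.Γ → H → ℝ≥0∞) (hf : ∀ V, Measurable (f V)) :
    ∑' V, c V * ∫⁻ h, D.ν h * f V h ∂D.μ₂ = ∫⁻ h, D.ν h * ∑' V, c V * f V h ∂D.μ₂ := by
  have h1 : ∀ h, D.ν h * ∑' V, c V * f V h = ∑' V, c V * (D.ν h * f V h) := by
    intro h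
    rw [← ENNReal.tsum_mul_left]
    exact tsum_congr fun V => by ring
  simp only [h1]
  rw [lintegral_tsum (f := fun V h => c V * (D.ν h * f V h))
    fun V => ((hν.mul (hf V)).const_mul (c V)).aemeasurable]
  exact tsum_congr fun V => (lintegral_const_mul _ (hν.mul (hf V))).symm

private theorem dual_L1 (D : Dat P H) [Countable D.Γ] (hν : Measurable D.ν) (c : D.Γ → ℝ≥0∞)
    (k : D.Γ → H → ℝ≥0∞) (hk : ∀ V, Measurable (k V)) :
    ∑' V, (∫⁻ h, D.ν h * k V h ∂D.μ₂) * c V = ∫⁻ h, D.ν h * ∑' V, k V h * c V ∂D.μ₂ := by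
  have h1 := dual_L0 P H D hν c k hk
  have h2 : ∀ V, (∫⁻ h, D.ν h * k V h ∂D.μ₂) * c V = c V * ∫⁻ h, D.ν h * k V h ∂D.μ₂ :=
    fun V => mul_comm _ _
  simp only [h2]
  rw [h1]
  refine lintegral_congr fun h => ?_
  congr 1
  exact tsum_congr fun V => mul_comm _ _

theorem tdual : S_IM P H → S_ton P H → S_inst P H → S_dual P H := by
  intro hIM hton hinst D hD a KV hKV F hF hF1 hF2
  obtain ⟨i1, i2, i3, i4, -⟩ := hinst D hD
  obtain ⟨im1, -⟩ := hIM D hD
  obtain ⟨t1, -⟩ := hton D hD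
  have hν : Measurable D.ν := hD.νc.measurable
  have hχ := hD.χm
  -- Φ and Ψ for the first part
  have mm : ∀ V : D.Γ, Measurable fun q : (P × H) × (P × H) =>
      KV (q.1⁻¹ * (V : P × H) * q.2) := fun V =>
    hKV.comp (by fun_prop : Continuous fun q : (P × H) × (P × H) =>
      q.1⁻¹ * (V : P × H) * q.2).measurable
  have ma : Measurable fun q : ((P × H) × (P × H)) × H => ((a, q.2) : P × H) :=
    measurable_const.prodMk measurable_snd
  have m11 : Measurable fun q : ((P × H) × (P × H)) × H => q.1.1 :=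
    measurable_fst.comp measurable_fst
  have m12 : Measurable fun q : ((P × H) × (P × H)) × H => q.1.2 :=
    measurable_snd.comp measurable_fst
  have mΦ : ∀ V : D.Γ, Measurable fun q : ((P × H) × (P × H)) × H =>
      KV (q.1.1⁻¹ * (V : P × H) * q.1.2) * F V (q.1.1 * (a, q.2)) q.1.2 := fun V =>
    ((mm V).comp measurable_fst).mul ((hF V).comp ((m11.mul ma).prodMk m12))
  have mΨ : ∀ V : D.Γ, Measurable fun q : ((P × H) × (P × H)) × H =>
      KV ((a, q.2) * (q.1.1⁻¹ * (V : P × H) * q.1.2)) * F V q.1.1 q.1.2 := fun V =>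
    (hKV.comp (ma.mul ((m11.inv.mul_const _).mul m12))).mul ((hF V).comp measurable_fst)
  have mΦ' : ∀ V : D.Γ, Measurable fun q : ((P × H) × (P × H)) × H =>
      KV (q.1.1⁻¹ * (V : P × H) * q.1.2) * F V q.1.1 (q.1.2 * (a, q.2)⁻¹) := fun V =>
    ((mm V).comp measurable_fst).mul ((hF V).comp (m11.prodMk (m12.mul ma.inv)))
  have mΨ' : ∀ V : D.Γ, Measurable fun q : ((P × H) × (P × H)) × H =>
      KV ((q.1.1⁻¹ * (V : P × H) * q.1.2) * (a, q.2)) * F V q.1.1 q.1.2 := fun V =>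
    (hKV.comp (((m11.inv.mul_const _).mul m12).mul ma)).mul ((hF V).comp measurable_fst)
  have sΦ : Measurable fun q : ((P × H) × (P × H)) × H => ∑' V : D.Γ,
      KV (q.1.1⁻¹ * (V : P × H) * q.1.2) * F V (q.1.1 * (a, q.2)) q.1.2 :=
    Measurable.tsum mΦ
  have sΨ : Measurable fun q : ((P × H) × (P × H)) × H => ∑' V : D.Γ,
      KV ((a, q.2) * (q.1.1⁻¹ * (V : P × H) * q.1.2)) * F V q.1.1 q.1.2 :=
    Measurable.tsum mΨ
  have sΦ' : Measurable fun q : ((P × H) × (P × H)) × H => ∑' V : D.Γ,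
      KV (q.1.1⁻¹ * (V : P × H) * q.1.2) * F V q.1.1 (q.1.2 * (a, q.2)⁻¹) :=
    Measurable.tsum mΦ'
  have sΨ' : Measurable fun q : ((P × H) × (P × H)) × H => ∑' V : D.Γ,
      KV ((q.1.1⁻¹ * (V : P × H) * q.1.2) * (a, q.2)) * F V q.1.1 q.1.2 :=
    Measurable.tsum mΨ'
  have emb1 : ∀ y : P × H, Measurable fun q : (P × H) × H => ((q.1, y), q.2) := fun y =>
    (measurable_fst.prodMk measurable_const).prodMk measurable_snd
  have emb2 : ∀ x : P × H, Measurable fun q : (P × H) × H => ((x, q.1), q.2) := fun x =>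
    (measurable_const.prodMk measurable_fst).prodMk measurable_snd
  -- the two sides as integrals over `h`
  have eL : ∀ x y : P × H, ∑' V : D.Γ, KV (x⁻¹ * (V : P × H) * y) *
        ∫⁻ h, D.ν h * F V (x * (a, h)) y ∂D.μ₂ =
      ∫⁻ h, D.ν h * ∑' V : D.Γ, KV (x⁻¹ * (V : P × H) * y) * F V (x * (a, h)) y ∂D.μ₂ := by
    intro x y
    refine dual_L0 P H D hν _ _ fun V => ?_
    have h1 : Measurable fun h : H => ((x * (a, h), y) : (P × H) × (P × H)) :=
      (measurable_const.mul (measurable_const.prodMk measurable_id)).prodMk measurable_const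
    exact (hF V).comp h1
  have eR : ∀ x y : P × H, ∑' V : D.Γ, opL D a KV (x⁻¹ * (V : P × H) * y) * F V x y =
      ∫⁻ h, D.ν h * ∑' V : D.Γ, KV ((a, h) * (x⁻¹ * (V : P × H) * y)) * F V x y ∂D.μ₂ := by
    intro x y
    refine dual_L1 P H D hν _ _ fun V => ?_
    have h1 : Measurable fun h : H => (a, h) * (x⁻¹ * (V : P × H) * y) :=
      (measurable_const.prodMk measurable_id).mul measurable_const
    exact hKV.comp h1
  have eL' : ∀ x y : P × H, ∑' V : D.Γ, KV (x⁻¹ * (V : P × H) * y) *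
        ∫⁻ h, D.ν h * F V x (y * (a, h)⁻¹) ∂D.μ₂ =
      ∫⁻ h, D.ν h * ∑' V : D.Γ, KV (x⁻¹ * (V : P × H) * y) * F V x (y * (a, h)⁻¹) ∂D.μ₂ := by
    intro x y
    refine dual_L0 P H D hν _ _ fun V => ?_
    have h1 : Measurable fun h : H => ((x, y * (a, h)⁻¹) : (P × H) × (P × H)) :=
      measurable_const.prodMk
        (measurable_const.mul (measurable_const.prodMk measurable_id).inv)
    exact (hF V).comp h1
  have eR' : ∀ x y : P × H, ∑' V : D.Γ, opR D a KV (x⁻¹ * (V : P × H) * y) * F V x y =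
      ∫⁻ h, D.ν h * ∑' V : D.Γ, KV ((x⁻¹ * (V : P × H) * y) * (a, h)) * F V x y ∂D.μ₂ := by
    intro x y
    refine dual_L1 P H D hν _ _ fun V => ?_
    have h1 : Measurable fun h : H => (x⁻¹ * (V : P × H) * y) * (a, h) :=
      measurable_const.mul (measurable_const.prodMk measurable_id)
    exact hKV.comp h1
  constructor
  · simp only [eL, eR]
    have s1 := (t1 (fun q : (P × H) × (P × H) => ∫⁻ h, D.ν h * ∑' V : D.Γ,
      KV (q.1⁻¹ * (V : P × H) * q.2) * F V (q.1 * (a, h)) q.2 ∂D.μ₂)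
      (((hν.comp measurable_snd).mul sΦ).lintegral_prod_right')).1
    have s2 := (t1 (fun q : (P × H) × (P × H) => ∫⁻ h, D.ν h * ∑' V : D.Γ,
      KV ((a, h) * (q.1⁻¹ * (V : P × H) * q.2)) * F V q.1 q.2 ∂D.μ₂)
      (((hν.comp measurable_snd).mul sΨ).lintegral_prod_right')).1
    refine s1.trans (Eq.trans ?_ s2.symm)
    congr 1
    funext y
    have u1 := dual_L2 P H D hχ hν
      (fun h x => ∑' V : D.Γ, KV (x⁻¹ * (V : P × H) * y) * F V (x * (a, h)) y)
      (sΦ.comp (emb1 y))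
    have u2 := dual_L2 P H D hχ hν
      (fun h x => ∑' V : D.Γ, KV ((a, h) * (x⁻¹ * (V : P × H) * y)) * F V x y)
      (sΨ.comp (emb1 y))
    refine u1.trans (Eq.trans ?_ u2.symm)
    refine lintegral_congr fun h => ?_
    congr 1
    have v1 := im1 (fun x => ∑' V : D.Γ, KV ((a, h) * (x⁻¹ * (V : P × H) * y)) * F V x y)
      (sΨ.comp ((measurable_id.prodMk measurable_const).prodMk measurable_const)) ?_ (a, h)
    · refine Eq.trans ?_ v1
      congr 1
      funext x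
      refine tsum_congr fun V => ?_
      congr 2
      group
    · intro γ hγ x
      refine ((Equiv.mulLeft (⟨γ, hγ⟩ : D.Γ)).tsum_eq
        (fun V : D.Γ => KV ((a, h) * ((γ * x)⁻¹ * (V : P × H) * y)) * F V (γ * x) y)).symm.trans
        (tsum_congr fun V => ?_)
      have h1 : (γ * x)⁻¹ * (γ * (V : P × H)) * y = x⁻¹ * (V : P × H) * y := by group
      have h2 : F ((⟨γ, hγ⟩ : D.Γ) * V) (γ * x) y = F V x y := hF1 ⟨γ, hγ⟩ V x y
      change KV ((a, h) * ((γ * x)⁻¹ * (γ * (V : P × H)) * y)) *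
        F ((⟨γ, hγ⟩ : D.Γ) * V) (γ * x) y = _
      rw [h1, h2]
  · simp only [eL', eR']
    congr 1
    funext x
    have w1 := sΦ'.comp (emb2 x)
    have w2 := sΨ'.comp (emb2 x)
    have u1 := dual_L2 P H D hχ hν
      (fun h y => ∑' V : D.Γ, KV (x⁻¹ * (V : P × H) * y) * F V x (y * (a, h)⁻¹)) w1
    have u2 := dual_L2 P H D hχ hν
      (fun h y => ∑' V : D.Γ, KV ((x⁻¹ * (V : P × H) * y) * (a, h)) * F V x y) w2
    refine u1.trans (Eq.trans ?_ u2.symm)
    refine lintegral_congr fun h => ?_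
    congr 1
    have mh : Measurable fun y : P × H => (((x, y), h) : ((P × H) × (P × H)) × H) :=
      (measurable_const.prodMk measurable_id).prodMk measurable_const
    have mh2 := sΨ'.comp mh
    have v1 := im1 (fun y => ∑' V : D.Γ, KV ((x⁻¹ * (V : P × H) * y) * (a, h)) * F V x y)
      mh2 ?_ (a, h)⁻¹
    · refine Eq.trans ?_ v1
      congr 1
      funext y
      refine tsum_congr fun V => ?_
      congr 2
      group
    · intro γ hγ y
      refine ((Equiv.mulRight (⟨γ, hγ⟩ : D.Γ)⁻¹).tsum_eq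
        (fun V : D.Γ => KV ((x⁻¹ * (V : P × H) * (γ * y)) * (a, h)) * F V x (γ * y))).symm.trans
        (tsum_congr fun V => ?_)
      have h1 : x⁻¹ * ((V : P × H) * γ⁻¹) * (γ * y) = x⁻¹ * (V : P × H) * y := by group
      have h2 : F (V * (⟨γ, hγ⟩ : D.Γ)⁻¹) x (γ * y) = F V x y := hF2 ⟨γ, hγ⟩ V x y
      change KV ((x⁻¹ * ((V : P × H) * γ⁻¹) * (γ * y)) * (a, h)) *
        F (V * (⟨γ, hγ⟩ : D.Γ)⁻¹) x (γ * y) = _
      rw [h1, h2]

end Pool.Agent.MPEF.U
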