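import Pool.Agent.Lib.MP_ef3f0f_gt.U.E.SpecB

set_option autoImplicit false

/-!
# MP_ef3f0f_gt, Theorem U, Part E, module ec: algebra of the kernels `ec`
-/

namespace Pool.Agent.MPEF.U

open MeasureTheory Topology
open scoped ENNReal Pointwise

variable (P : Type) [Group P] [TopologicalSpace P] [IsTopologicalGroup P] [LocallyCompactSpace P]
  [T2Space P] [SecondCountableTopology P] [MeasurableSpace P] [BorelSpace P]

omit [Group P] [TopologicalSpace P] [IsTopologicalGroup P] [LocallyCompactSpace P] [T2Space P]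
  [SecondCountableTopology P] [MeasurableSpace P] [BorelSpace P] in
private theorem ec_iff {A B : Set P} {x y : P} (h : x ∈ A ↔ y ∈ B) : iK A x = iK B y := by
  by_cases hx : x ∈ A
  · rw [iK, iK, Set.indicator_of_mem hx, Set.indicator_of_mem (h.1 hx)]
  · rw [iK, iK, Set.indicator_of_notMem hx, Set.indicator_of_notMem (fun hy => hx (h.2 hy))]

omit [Group P] [TopologicalSpace P] [IsTopologicalGroup P] [LocallyCompactSpace P] [T2Space P]
  [SecondCountableTopology P] [MeasurableSpace P] [BorelSpace P] in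
private theorem ec_le {A B : Set P} {x y : P} (h : x ∈ A → y ∈ B) : iK A x ≤ iK B y := by
  by_cases hx : x ∈ A
  · rw [iK, iK, Set.indicator_of_mem hx, Set.indicator_of_mem (h hx)]
  · rw [iK, Set.indicator_of_notMem hx]
    exact bot_le

omit [Group P] [TopologicalSpace P] [IsTopologicalGroup P] [LocallyCompactSpace P] [T2Space P]
  [SecondCountableTopology P] [MeasurableSpace P] [BorelSpace P] in
private theorem ec_le1 (A : Set P) (x : P) : iK A x ≤ 1 := by
  by_cases hx : x ∈ A
  · rw [iK, Set.indicator_of_mem hx]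
  · rw [iK, Set.indicator_of_notMem hx]
    exact bot_le

omit [TopologicalSpace P] [IsTopologicalGroup P] [LocallyCompactSpace P] [T2Space P]
  [SecondCountableTopology P] [MeasurableSpace P] [BorelSpace P] in
private theorem ec_singL (x q : P) (S : Set P) : q ∈ {x} * S ↔ x⁻¹ * q ∈ S := by
  rw [Set.singleton_mul, Set.mem_image]
  constructor
  · rintro ⟨s, hs, rfl⟩
    rwa [inv_mul_cancel_left]
  · intro h
    exact ⟨_, h, mul_inv_cancel_left _ _⟩

omit [TopologicalSpace P] [IsTopologicalGroup P] [LocallyCompactSpace P] [T2Space P]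
  [SecondCountableTopology P] [MeasurableSpace P] [BorelSpace P] in
private theorem ec_singR (x q : P) (S : Set P) : q ∈ S * {x} ↔ q * x⁻¹ ∈ S := by
  rw [Set.mul_singleton, Set.mem_image]
  constructor
  · rintro ⟨s, hs, rfl⟩
    rwa [mul_inv_cancel_right]
  · intro h
    exact ⟨_, h, inv_mul_cancel_right _ _⟩

omit [TopologicalSpace P] [IsTopologicalGroup P] [LocallyCompactSpace P] [T2Space P]
  [SecondCountableTopology P] [MeasurableSpace P] [BorelSpace P] in
private theorem ec_ew (G : PG P) (K : Set P) (q : P) : q ∈ G.ew K ↔ q⁻¹ * G.w ∈ K := Iff.rfl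

omit [TopologicalSpace P] [IsTopologicalGroup P] [LocallyCompactSpace P] [T2Space P]
  [SecondCountableTopology P] [MeasurableSpace P] [BorelSpace P] in
private theorem ec_ewR (G : PG P) (K : Set P) (r x : P) :
    iK (G.ew K) (r * x) = iK (G.ew ({x} * K)) r := by
  apply ec_iff
  rw [ec_ew, ec_ew, ec_singL, mul_inv_rev, mul_assoc]

omit [LocallyCompactSpace P] [T2Space P] [SecondCountableTopology P] in
/-- Translation in the shape needed for ranges. -/
private theorem ec_tr (μ : Measure P) [μ.IsMulRightInvariant] (f k : P → ℝ≥0∞) (d : P) :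
    ∫⁻ q, f q * k (q * d) ∂μ = ∫⁻ q, f (q * d⁻¹) * k q ∂μ := by
  rw [← lintegral_mul_right_eq_self (fun q => f (q * d⁻¹) * k q) d]
  refine lintegral_congr fun q => ?_
  rw [mul_inv_cancel_right]

theorem tec : S_ck P → S_NT1 P → S_TB P → S_ec P := by
  intro hck hNT hTB G μ hμ hG
  haveI := hμ.haar
  haveI := hμ.right
  haveI := hμ.inv
  have hww : G.w⁻¹ = G.w := inv_eq_of_mul_eq_one_left hG.ww
  -- `ec` with the factor `d` of the range moved into the window
  have hmv : ∀ (S K : Set P) (d g : P) (n : ℕ), ec μ G S K (d * G.a ^ n) g =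
      ∫⁻ q, iK S (q * d⁻¹) * iK (G.ew K) ((G.a ^ n)⁻¹ * q⁻¹ * g) ∂μ := by
    intro S K d g n
    have h := ec_tr P μ (iK S) (fun q => iK (G.ew K) ((G.a ^ n)⁻¹ * q⁻¹ * g)) d
    rw [← h]
    refine lintegral_congr fun q => ?_
    change iK S q * iK (G.ew K) ((d * G.a ^ n)⁻¹ * q⁻¹ * g) = _
    rw [mul_inv_rev, mul_inv_rev]
    simp only [mul_assoc]
  refine ⟨?_, ?_, ?_, ?_, ?_, ?_, ?_, ?_⟩
  · -- (1)
    intro S K d n g
    constructor
    · rw [hmv]
      refine lintegral_congr fun q => ?_
      congr 1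
      apply ec_iff
      rw [pow_zero, mul_one, ec_singR]
    · refine lintegral_congr fun q => ?_
      congr 1
      apply ec_iff
      rw [pow_zero, mul_one]
  · -- (2)
    intro S K s g
    have h := lintegral_mul_left_eq_self (μ := μ)
      (fun κ => iK K κ * iK (G.ew S) ((G.w * s⁻¹ * G.w)⁻¹ * κ⁻¹ * g)) g
    have h2 := lintegral_mul_right_eq_self (μ := μ)
      (fun κ => iK K (g * κ) * iK (G.ew S) ((G.w * s⁻¹ * G.w)⁻¹ * (g * κ)⁻¹ * g)) (s * G.w)
    change ∫⁻ q, iK S q * iK (G.ew K) (s⁻¹ * q⁻¹ * g⁻¹) ∂μ =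
      ∫⁻ κ, iK K κ * iK (G.ew S) ((G.w * s⁻¹ * G.w)⁻¹ * κ⁻¹ * g) ∂μ
    rw [← h, ← h2]
    refine lintegral_congr fun q => ?_
    rw [mul_comm (iK S q)]
    congr 1
    · apply ec_iff
      rw [ec_ew, mul_inv_rev, mul_inv_rev, inv_inv, inv_inv, inv_inv]
      simp only [mul_assoc]
    · apply ec_iff
      rw [ec_ew]
      have : ((G.w * s⁻¹ * G.w)⁻¹ * (g * (q * (s * G.w)))⁻¹ * g)⁻¹ * G.w = q := by
        rw [mul_inv_rev, mul_inv_rev, inv_inv, inv_inv]
        calc g⁻¹ * (g * (q * (s * G.w)) * (G.w * s⁻¹ * G.w)) * G.w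
            = q * (s * (G.w * G.w) * s⁻¹ * (G.w * G.w)) := by group
          _ = q := by rw [hG.ww]; group
      rw [this]
  · -- (3)
    intro S K s x g
    constructor
    · have h := lintegral_mul_left_eq_self (μ := μ)
        (fun q => iK S q * iK (G.ew K) (s⁻¹ * q⁻¹ * (x * g))) x
      change ∫⁻ q, iK S q * iK (G.ew K) (s⁻¹ * q⁻¹ * (x * g)) ∂μ =
        ∫⁻ q, iK ({x⁻¹} * S) q * iK (G.ew K) (s⁻¹ * q⁻¹ * g) ∂μ
      rw [← h]
      refine lintegral_congr fun q => ?_
      congr 1
      · apply ec_iff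
        rw [ec_singL, inv_inv]
      · congr 1
        group
    · refine lintegral_congr fun q => ?_
      congr 1
      rw [← ec_ewR]
      congr 1
      simp only [mul_assoc]
  · -- (4)
    intro S K R n x g
    constructor
    · have h := lintegral_mul_left_eq_self (μ := μ)
        (fun q => iK (S * G.D1 ^ R) q * iK (G.ew K) ((G.a ^ n)⁻¹ * q⁻¹ * (x * g))) x
      change ∫⁻ q, iK (S * G.D1 ^ R) q * iK (G.ew K) ((G.a ^ n)⁻¹ * q⁻¹ * (x * g)) ∂μ =
        ∫⁻ q, iK ({x⁻¹} * S * G.D1 ^ R) q * iK (G.ew K) ((G.a ^ n)⁻¹ * q⁻¹ * g) ∂μ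
      rw [← h]
      refine lintegral_congr fun q => ?_
      congr 1
      · apply ec_iff
        rw [mul_assoc {x⁻¹}, ec_singL, inv_inv]
      · congr 1
        rw [mul_inv_rev]
        simp only [mul_assoc, inv_mul_cancel_left]
    · refine lintegral_congr fun q => ?_
      congr 1
      rw [← ec_ewR]
      congr 1
      simp only [mul_assoc]
  · -- (5)
    intro S K S' K' s g hS hK
    refine lintegral_mono fun q => ?_
    exact mul_le_mul' (ec_le P fun h => hS h) (ec_le P fun h => hK h)
  · -- (6)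
    intro S K R n d g hd
    rw [hmv]
    refine lintegral_mono fun q => ?_
    refine mul_le_mul' (ec_le P fun h => ?_) le_rfl
    exact Set.mem_mul.2 ⟨_, h, d, hd, inv_mul_cancel_right _ _⟩
  · -- (7)
    intro S S' hS hSS' R
    obtain ⟨U, hU, hU2⟩ := (hTB G hG S (interior S') hS (by rwa [interior_interior])).1
    have hDc : IsCompact (G.D1 ^ R) := by
      induction R with
      | zero => rw [pow_zero]; exact isCompact_singleton
      | succ R ih => rw [pow_succ]; exact ih.mul hG.D1c
    obtain ⟨F, hF, hF2⟩ := hNT (G.D1 ^ R) hDc U hU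
    refine ⟨F, hF, fun K n g => ?_⟩
    obtain ⟨f, hfm, hfle, hfe⟩ := exists_measurable_le_lintegral_eq (μ := μ)
      (fun q => iK (S * G.D1 ^ R) q * iK (G.ew K) ((G.a ^ n)⁻¹ * q⁻¹ * g))
    change ∫⁻ q, iK (S * G.D1 ^ R) q * iK (G.ew K) ((G.a ^ n)⁻¹ * q⁻¹ * g) ∂μ ≤ _
    rw [hfe]
    have hm : ∀ d : P, Measurable fun q => iK (interior S') (q * d⁻¹) * f q := by
      intro d
      have h1 : Measurable (iK (interior S') : P → ℝ≥0∞) :=
        measurable_const.indicator isOpen_interior.measurableSet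
      exact (h1.comp (measurable_mul_const d⁻¹)).mul hfm
    calc ∫⁻ q, f q ∂μ ≤ ∫⁻ q, ∑ d ∈ F, iK (interior S') (q * d⁻¹) * f q ∂μ := by
          refine lintegral_mono fun q => ?_
          by_cases hq : q ∈ S * G.D1 ^ R
          · obtain ⟨s, hs, d, hd, rfl⟩ := Set.mem_mul.1 hq
            obtain ⟨d', hd', v, hv, hdv⟩ := hF2 d hd
            have h1 : iK (interior S') (s * d * d'⁻¹) = 1 := by
              rw [iK, Set.indicator_of_mem]
              have h2 := hU2 1 (mem_of_mem_nhds hU) s hs v hv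
              rwa [hdv, ← mul_assoc, mul_inv_cancel_right, ← one_mul s]
            calc f (s * d) = iK (interior S') (s * d * d'⁻¹) * f (s * d) := by
                  rw [h1, one_mul]
              _ ≤ _ := Finset.single_le_sum
                  (f := fun d' => iK (interior S') (s * d * d'⁻¹) * f (s * d))
                  (fun _ _ => bot_le) hd'
          · have h1 : f q ≤ 0 := by
              refine (hfle q).trans ?_
              have h2 : iK (S * G.D1 ^ R) q = 0 := by
                rw [iK, Set.indicator_of_notMem hq]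
              change iK (S * G.D1 ^ R) q * _ ≤ 0
              rw [h2, zero_mul]
            exact h1.trans bot_le
      _ = ∑ d ∈ F, ∫⁻ q, iK (interior S') (q * d⁻¹) * f q ∂μ :=
          lintegral_finset_sum F fun d _ => hm d
      _ ≤ ∑ d ∈ F, ec μ G S' K (d * G.a ^ n) g := by
          refine Finset.sum_le_sum fun d _ => ?_
          rw [hmv]
          refine lintegral_mono fun q => ?_
          refine mul_le_mul' (ec_le P fun h => interior_subset h) ?_
          refine (hfle q).trans ?_
          change iK (S * G.D1 ^ R) q * _ ≤ _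
          exact mul_le_of_le_one_left bot_le (ec_le1 P _ _)
  · -- (8)
    intro S K hS hK s
    have hSm : Measurable (iK S : P → ℝ≥0∞) :=
      measurable_const.indicator hS.isClosed.measurableSet
    have hKm : Measurable (iK (G.ew K) : P → ℝ≥0∞) := by
      refine measurable_const.indicator ?_
      have : IsClosed (G.ew K) := hK.isClosed.preimage (f := fun q : P => q⁻¹ * G.w)
        (by fun_prop)
      exact this.measurableSet
    refine ⟨(hck μ hμ).1 _ _ hSm hKm s, fun g => ?_⟩
    calc ec μ G S K s g ≤ ∫⁻ q, iK S q ∂μ := by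
          refine lintegral_mono fun q => ?_
          exact mul_le_of_le_one_right bot_le (ec_le1 P _ _)
      _ = μ S := lintegral_indicator_one hS.isClosed.measurableSet

end Pool.Agent.MPEF.U
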