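import Pool.Agent.Lib.MP_ef3f0f_gt.U.E.SpecA

set_option autoImplicit false
set_option linter.unusedSectionVars false

/-!
# MP_ef3f0f_gt, Theorem U, Part E, module egm: measurability
-/

namespace Pool.Agent.MPEF.U

open MeasureTheory Topology
open scoped ENNReal Pointwise

variable (P H : Type) [Group P] [Group H] [TopologicalSpace P] [TopologicalSpace H]
  [IsTopologicalGroup P] [IsTopologicalGroup H] [LocallyCompactSpace P] [LocallyCompactSpace H]
  [T2Space P] [T2Space H] [SecondCountableTopology P] [SecondCountableTopology H]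
  [MeasurableSpace P] [MeasurableSpace H] [BorelSpace P] [BorelSpace H]

theorem tegm : S_AD P → S_nu P H → S_phV P H → S_egm P H := by
  intro hAD hnu hphV D G hD hG
  have := hD.haar₁
  have := hD.right₁
  have := hD.inv₁
  have hph : ∀ φ : D.Γ → P → ℝ, Adm D G φ → ∀ (c : P) (l : D.Γ),
      Measurable fun x : P × H => ph G φ l (x.1 * c) := by
    intro φ hφ c l
    have h := (hphV D G hG φ hφ).2.2.2.2.2 l
    exact h.comp (measurable_fst.mul_const c)
  refine ⟨?_, hph, ?_, ?_⟩
  · intro S K hS hK R n
    change Measurable fun g : P × H => eP D.μ₁ G S K R n g.1 * D.nu n g.2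
    exact (((hAD G D.μ₁ hG).2.2.2.2.1 S K hS hK R n).comp measurable_fst).mul
      (((hnu D hD).1 n).comp measurable_snd)
  · intro φ hφ c g u v
    exact (hph φ hφ c _).sub (hph φ hφ c _)
  · intro φ hφ c₀ c₁ c₂ u v w
    exact ((hph φ hφ c₀ _).add (hph φ hφ c₁ _)).add (hph φ hφ c₂ _)

end Pool.Agent.MPEF.U
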