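import Pool.Agent.Lib.MP_ef3f0f_gt.U.E.SpecC

set_option autoImplicit false
set_option linter.unusedSectionVars false

/-!
# MP_ef3f0f_gt, Theorem U, Part E, module `lod`: bounds for the kernels `bk`
-/

namespace Pool.Agent.MPEF.U

open MeasureTheory Topology
open scoped ENNReal Pointwise

variable (P H : Type) [Group P] [Group H] [TopologicalSpace P] [TopologicalSpace H]
  [IsTopologicalGroup P] [IsTopologicalGroup H] [LocallyCompactSpace P] [LocallyCompactSpace H]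
  [T2Space P] [T2Space H] [SecondCountableTopology P] [SecondCountableTopology H]
  [MeasurableSpace P] [MeasurableSpace H] [BorelSpace P] [BorelSpace H]

private theorem lod_pow {S : Set P} (hS : IsCompact S) (n : ℕ) : IsCompact (S ^ n) := by
  induction n with
  | zero =>
    rw [pow_zero]
    exact isCompact_singleton
  | succ n ih =>
    rw [pow_succ]
    exact ih.mul hS

private theorem lod_N (D : Dat P H) {K K' : P × H → ℝ≥0∞} (h : ∀ g, K g ≤ K' g) (x y : P × H) :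
    D.N K x y ≤ D.N K' x y :=
  ENNReal.tsum_le_tsum fun _ => h _

theorem tlod : S_NT1 P → S_ec P → S_lod P H := by
  intro hNT hec D G hF U hU cU R
  have hD := hF.ok
  have hG := hF.gok
  have hUn : Un D.μ₁ := ⟨hD.haar₁, hD.right₁, hD.inv₁⟩
  obtain ⟨e1, -, -, -, e5, e6, -, -⟩ := hec G D.μ₁ hUn hG
  have huw : IsCompact (G.uw U) := cU.mul isCompact_singleton
  have huwn : G.uw U ∈ 𝓝 G.w := mul_singleton_mem_nhds_of_nhds_one G.w hU
  -- the kernels `bk` are below the kernels of range `2 R`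
  have hbk : ∀ d ∈ G.D1 ^ (2 * R), ∀ m g, D.bk G U d m g ≤ D.eg G (G.uw U) U (2 * R) m g := by
    intro d hd m g
    have h1 : eP D.μ₁ G (G.uw U * {d}) U 0 m g.1 ≤ eP D.μ₁ G (G.uw U) U (2 * R) m g.1 := by
      rw [(e1 (G.uw U) U d m g.1).1]
      exact e6 (G.uw U) U (2 * R) m d g.1 hd
    exact mul_le_mul_left h1 (D.nu m g.2)
  obtain ⟨C₁, hC₁, hN₁⟩ := hF.up (G.uw U) U huw cU (2 * R)
  obtain ⟨C₂, hC₂, hN₂⟩ := hF.up U (G.uw U) cU huw 0
  -- the finite net
  obtain ⟨V, hVo, hV1, hVV⟩ := exists_open_nhds_one_mul_subset hU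
  have hVn : V ∈ 𝓝 (1 : P) := hVo.mem_nhds hV1
  have hV' : {v : P | G.w * v⁻¹ * G.w ∈ V} ∈ 𝓝 (1 : P) := by
    have h1 : Continuous fun v : P => G.w * v⁻¹ * G.w := by fun_prop
    refine (hVo.preimage h1).mem_nhds ?_
    change G.w * (1 : P)⁻¹ * G.w ∈ V
    rw [inv_one, mul_one, hG.ww]
    exact hV1
  obtain ⟨F, hFD, hFn⟩ := hNT (G.D1 ^ (2 * R)) (lod_pow P hG.D1c _) _ hV'
  have hlo : ∀ d' : P, ∃ (T : ℕ) (c : ℝ≥0∞), 0 < c ∧ ∀ n, T ≤ n → ∀ x y,
      c ≤ D.N (D.eg G (V * {G.w * d'}) U 0 n) x y := by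
    intro d'
    obtain ⟨T, c, hc, h⟩ := hF.lo (G.w * d') 1 (V * {G.w * d'})
      (mul_singleton_mem_nhds_of_nhds_one _ hVn) U hU
    exact ⟨T, c, hc, fun n hn x y => h 0 n hn x y⟩
  choose T c hc hTc using hlo
  obtain ⟨T₂, c₂, hc₂, hTc₂⟩ := hF.lo 1 G.w U hU (G.uw U) huwn
  refine ⟨min (F.inf c) c₂, max C₁ C₂, max (F.sup T) T₂, ?_, ?_, ?_⟩
  · rw [lt_min_iff]
    refine ⟨?_, hc₂⟩
    rw [Finset.lt_inf_iff ENNReal.zero_lt_top]
    exact fun b _ => hc b
  · rcases max_choice C₁ C₂ with h | h <;> rw [h] <;> assumption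
  · intro d hd x y
    refine ⟨?_, ?_, ?_, ?_, hbk d hd⟩
    · intro m hm
      obtain ⟨d', hd', v, hv, hdv⟩ := hFn d hd
      have hsub : V * {G.w * d'} ⊆ G.uw U * {d} := by
        rintro _ ⟨u, hu, _, rfl, rfl⟩
        have h1 : u * (G.w * v⁻¹ * G.w) ∈ U := hVV (Set.mul_mem_mul hu hv)
        have h2 : u * (G.w * v⁻¹ * G.w) * G.w * d = u * (G.w * d') := by
          have h3 : u * (G.w * v⁻¹ * G.w) * G.w * d = u * (G.w * (v⁻¹ * ((G.w * G.w) * d))) := by
            group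
          rw [h3, hG.ww, one_mul, hdv, inv_mul_cancel_left]
        change u * (G.w * d') ∈ G.uw U * {d}
        rw [← h2]
        exact Set.mul_mem_mul (Set.mul_mem_mul h1 rfl) rfl
      have hle : ∀ g, D.eg G (V * {G.w * d'}) U 0 m g ≤ D.bk G U d m g := by
        intro g
        have h1 : eP D.μ₁ G (V * {G.w * d'}) U 0 m g.1 ≤
            eP D.μ₁ G (G.uw U * {d}) U 0 m g.1 := by
          rw [(e1 (V * {G.w * d'}) U d m g.1).2, (e1 (G.uw U * {d}) U d m g.1).2]
          exact e5 _ _ _ _ _ _ hsub le_rfl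
        exact mul_le_mul_left h1 (D.nu m g.2)
      calc min (F.inf c) c₂ ≤ c d' := (min_le_left _ _).trans (Finset.inf_le hd')
        _ ≤ D.N (D.eg G (V * {G.w * d'}) U 0 m) x y :=
            hTc d' m ((Finset.le_sup hd').trans ((le_max_left _ _).trans hm)) x y
        _ ≤ _ := lod_N P H D hle x y
    · intro m
      exact (lod_N P H D (hbk d hd m) x y).trans ((hN₁ m x y).trans (le_max_left _ _))
    · intro n hn
      exact (min_le_right _ _).trans (hTc₂ 0 n ((le_max_right _ _).trans hn) x y)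
    · intro n
      exact (hN₂ n x y).trans (le_max_right _ _)

end Pool.Agent.MPEF.U
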