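import Pool.Agent.Lib.MP_ef3f0f_gt.U.E.SpecA

set_option autoImplicit false

/-!
# MP_ef3f0f_gt, Theorem U, Part E: the number of loops (`S_lpn`)
-/

namespace Pool.Agent.MPEF.U

open MeasureTheory Topology
open scoped ENNReal Pointwise

variable (P H : Type) [Group P] [Group H] [TopologicalSpace P] [TopologicalSpace H]
  [IsTopologicalGroup P] [IsTopologicalGroup H] [LocallyCompactSpace P] [LocallyCompactSpace H]
  [T2Space P] [T2Space H] [SecondCountableTopology P] [SecondCountableTopology H]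
  [MeasurableSpace P] [MeasurableSpace H] [BorelSpace P] [BorelSpace H]

theorem tlpn : S_O P H → S_nu P H → S_Up P H → S_lpn P H := by
  intro hO hnu hUp D hD Q hQ c
  obtain ⟨-, hO1, -, -, hOc, hOK, -⟩ := hO D hD
  obtain ⟨-, hlsc, hpos, -, -, -, ⟨C₀, hC₀, hbd⟩, -⟩ := hnu D hD
  have hne : (closure (D.O ^ c)).Nonempty := ⟨1, subset_closure (hO1 c)⟩
  obtain ⟨h₀, hh₀, hmin⟩ := LowerSemicontinuousOn.exists_isMinOn hne (hOK c)
    ((hlsc (c + 1)).lowerSemicontinuousOn (closure (D.O ^ c)))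
  have hε0 : D.nu (c + 1) h₀ ≠ 0 :=
    ((hpos (c + 1) (Nat.le_add_left 1 c) h₀).2 (hOc c hh₀)).ne'
  have hεt : D.nu (c + 1) h₀ ≠ ∞ := ne_top_of_le_ne_top hC₀ (hbd (c + 1) h₀)
  have hQm : MeasurableSet Q := hQ.isClosed.measurableSet
  obtain ⟨C₁, hC₁, hUp1⟩ := hUp D hD (iK Q) (measurable_const.indicator hQm)
    ⟨1, ENNReal.one_ne_top, fun g => by
      unfold iK
      exact Set.indicator_le (fun _ _ => le_refl _) g⟩
    ⟨Q, hQ, fun g hg => Set.indicator_of_notMem hg _⟩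
  have hbase : ∀ z, D.lp (Q ×ˢ (D.O ^ c)) z (fun _ => 1) ≤ (D.nu (c + 1) h₀)⁻¹ * C₁ := by
    intro z
    refine le_trans ?_ (mul_le_mul_right (hUp1 (c + 1) z z) (D.nu (c + 1) h₀)⁻¹)
    unfold Dat.lp Dat.N
    rw [← ENNReal.tsum_mul_left]
    apply ENNReal.tsum_le_tsum
    intro g
    rw [mul_one]
    by_cases hg : z⁻¹ * (g : P × H) * z ∈ Q ×ˢ (D.O ^ c)
    · rw [Set.indicator_of_mem hg]
      have h1 : iK Q (z⁻¹ * (g : P × H) * z).1 = 1 := Set.indicator_of_mem hg.1 _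
      have h2 : D.nu (c + 1) h₀ ≤ D.nu (c + 1) (z⁻¹ * (g : P × H) * z).2 :=
        hmin (subset_closure hg.2)
      unfold Dat.tk
      rw [h1, one_mul]
      calc (1 : ℝ≥0∞) = (D.nu (c + 1) h₀)⁻¹ * D.nu (c + 1) h₀ :=
            (ENNReal.inv_mul_cancel hε0 hεt).symm
        _ ≤ _ := mul_le_mul_right h2 _
    · rw [Set.indicator_of_notMem hg]
      exact zero_le
  refine ⟨(D.nu (c + 1) h₀)⁻¹ * C₁, ENNReal.mul_ne_top (ENNReal.inv_ne_top.2 hε0) hC₁, hbase, ?_⟩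
  intro z f B hf
  refine le_trans ?_ (mul_le_mul_left (hbase z) B)
  unfold Dat.lp
  rw [← ENNReal.tsum_mul_right]
  apply ENNReal.tsum_le_tsum
  intro g
  rw [mul_one]
  exact mul_le_mul_right (hf g) _

end Pool.Agent.MPEF.U
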