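import Pool.Agent.Lib.MP_ef3f0f_gt.U.E.SpecB

set_option autoImplicit false

/-!
# MP_ef3f0f_gt, Theorem U, Part E: merging, third form
-/

namespace Pool.Agent.MPEF.U

open MeasureTheory Topology
open scoped ENNReal Pointwise

variable (P H : Type) [Group P] [Group H] [TopologicalSpace P] [TopologicalSpace H]
  [IsTopologicalGroup P] [IsTopologicalGroup H] [LocallyCompactSpace P] [LocallyCompactSpace H]
  [T2Space P] [T2Space H] [SecondCountableTopology P] [SecondCountableTopology H]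
  [MeasurableSpace P] [MeasurableSpace H] [BorelSpace P] [BorelSpace H]

/-- **Merging, third form.** -/
theorem tmer3 : S_mg P H → S_nu P H → S_mer3 P H := by
  intro hmg hnu D hD k k' n m hk hk' hn hm F x z
  obtain ⟨-, -, -, h4, h5, -, -, -⟩ := hmg D hD
  obtain ⟨hnm, -, -, hni, -, -, -, -⟩ := hnu D hD
  have htk : ∀ (k : P → ℝ≥0∞) (n : ℕ), Measurable k → Measurable (D.tk k n) := by
    intro k n hk
    exact (hk.comp measurable_fst).mul ((hnm n).comp measurable_snd)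
  have hk'' : Measurable fun g => k' g⁻¹ := hk'.comp measurable_inv
  have key : (D.IM fun y => ∑' v : D.Γ, ∑' e : D.Γ, D.tk k n (x⁻¹ * (v : P × H) * y) *
        D.tk (fun g => k' g⁻¹) m (y⁻¹ * (e : P × H) * z) * F (v * e)) =
      ∑' V : D.Γ, D.tk (cvP D.μ₁ k fun g => k' g⁻¹) (n + m) (x⁻¹ * (V : P × H) * z) * F V := by
    rw [h4 _ _ (htk k n hk) (htk _ m hk'') x z F]
    refine tsum_congr fun u => ?_
    rw [h5 k _ n m hk hk'' hn hm]
    rfl
  rw [← key]
  unfold Dat.IM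
  refine lintegral_congr fun y => ?_
  congr 1
  beta_reduce
  refine tsum_congr fun v => ?_
  rw [← Equiv.tsum_eq (Equiv.inv D.Γ)]
  refine tsum_congr fun e => ?_
  have e1 : z⁻¹ * (((Equiv.inv D.Γ) e : D.Γ) : P × H) * y = (y⁻¹ * (e : P × H) * z)⁻¹ := by
    rw [Equiv.inv_apply, Subgroup.coe_inv]
    group
  have e2 : D.tk k' m (z⁻¹ * (((Equiv.inv D.Γ) e : D.Γ) : P × H) * y) =
      D.tk (fun g => k' g⁻¹) m (y⁻¹ * (e : P × H) * z) := by
    rw [e1]
    show k' ((y⁻¹ * (e : P × H) * z)⁻¹).1 * D.nu m ((y⁻¹ * (e : P × H) * z)⁻¹).2 = _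
    rw [Prod.snd_inv, hni]
    rfl
  rw [e2, Equiv.inv_apply, inv_inv]

end Pool.Agent.MPEF.U
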