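import Pool.Agent.Lib.MP_ef3f0f_gt.U.E.SpecC

set_option autoImplicit false

/-!
# MP_ef3f0f_gt, Theorem U, Part E, module `mn`: the mean value lemma
-/

namespace Pool.Agent.MPEF.U

open MeasureTheory Topology
open scoped ENNReal Pointwise

private theorem mn_IM_mono {P H : Type} [Group P] [Group H] [MeasurableSpace P]
    [MeasurableSpace H] (D : Dat P H) {f g : P × H → ℝ≥0∞} (h : ∀ x, f x ≤ g x) :
    D.IM f ≤ D.IM g := by
  unfold Dat.IM
  exact lintegral_mono fun x => by
    have := h x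
    gcongr

private theorem mn_IM_add {P H : Type} [Group P] [Group H] [MeasurableSpace P]
    [MeasurableSpace H] (D : Dat P H) (hχ : Measurable D.χ) {f : P × H → ℝ≥0∞}
    (hf : Measurable f) (g : P × H → ℝ≥0∞) : D.IM (fun x => f x + g x) = D.IM f + D.IM g := by
  have hm : Measurable fun x => D.χ x * f x := hχ.mul hf
  unfold Dat.IM
  rw [← lintegral_add_left hm]
  simp only [mul_add]

private theorem mn_IM_mul {P H : Type} [Group P] [Group H] [MeasurableSpace P]
    [MeasurableSpace H] (D : Dat P H) (hχ : Measurable D.χ) {f : P × H → ℝ≥0∞}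
    (hf : Measurable f) (c : ℝ≥0∞) : D.IM (fun x => f x * c) = D.IM f * c := by
  have hm : Measurable fun x => D.χ x * f x := hχ.mul hf
  unfold Dat.IM
  rw [← lintegral_mul_const c hm]
  simp only [mul_assoc]

private theorem mn_key (s f : ℝ) (hs : 0 ≤ s) :
    ENNReal.ofReal s + ENNReal.ofReal (-f) ≤ ENNReal.ofReal |s - f| + ENNReal.ofReal f := by
  rcases le_total 0 f with hf | hf
  · rw [ENNReal.ofReal_of_nonpos (by linarith : -f ≤ 0), add_zero,
      ← ENNReal.ofReal_add (abs_nonneg _) hf]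
    apply ENNReal.ofReal_le_ofReal
    have := le_abs_self (s - f)
    linarith
  · rw [ENNReal.ofReal_of_nonpos hf, add_zero, ← ENNReal.ofReal_add hs (by linarith)]
    apply ENNReal.ofReal_le_ofReal
    have := le_abs_self (s - f)
    linarith

variable (P H : Type) [Group P] [Group H] [TopologicalSpace P] [TopologicalSpace H]
  [IsTopologicalGroup P] [IsTopologicalGroup H] [LocallyCompactSpace P] [LocallyCompactSpace H]
  [T2Space P] [T2Space H] [SecondCountableTopology P] [SecondCountableTopology H]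
  [MeasurableSpace P] [MeasurableSpace H] [BorelSpace P] [BorelSpace H]

theorem tmn : S_MQ P H → S_mn P H := by
  intro hMQ D hD K₁ K₂ m1 m2 f hf hfin heq t
  have hχ := hD.χm
  have hM := (hMQ D hD K₁ K₂ K₂ m1 m2 m2).2.1
  have hmono : ∀ F G : P × H → D.Γ → D.Γ → ℝ≥0∞, (∀ x u v, F x u v ≤ G x u v) →
      D.X2 K₁ K₂ F ≤ D.X2 K₁ K₂ G := by
    intro F G hFG
    refine mn_IM_mono D fun x => mn_IM_mono D fun y => ?_
    exact ENNReal.tsum_le_tsum fun u => ENNReal.tsum_le_tsum fun v => mul_le_mul_right (hFG _ _ _) _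
  have hadd : ∀ F G : P × H → D.Γ → D.Γ → ℝ≥0∞, (∀ u v, Measurable fun x => F x u v) →
      D.X2 K₁ K₂ (fun x u v => F x u v + G x u v) = D.X2 K₁ K₂ F + D.X2 K₁ K₂ G := by
    intro F G hF
    obtain ⟨hq, hx⟩ := hM F hF
    change D.IM (fun x => D.IM fun y => D.st2 K₁ K₂ x y fun u v => F x u v + G x u v) =
      D.IM (fun x => D.IM fun y => D.st2 K₁ K₂ x y (F x)) +
        D.IM (fun x => D.IM fun y => D.st2 K₁ K₂ x y (G x))
    rw [← mn_IM_add D hχ hx]
    congr 1
    funext x
    have hy : Measurable fun y => D.st2 K₁ K₂ x y (F x) := hq.comp measurable_prodMk_left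
    rw [← mn_IM_add D hχ hy]
    congr 1
    funext y
    unfold Dat.st2
    simp only [mul_add, ENNReal.tsum_add]
  have hc : ∀ c : ℝ≥0∞, D.X2 K₁ K₂ (fun _ _ _ => c) = D.X2 K₁ K₂ (fun _ _ _ => 1) * c := by
    intro c
    obtain ⟨hq, hx⟩ := hM (fun _ _ _ => 1) (fun _ _ => measurable_const)
    change D.IM (fun x => D.IM fun y => D.st2 K₁ K₂ x y fun _ _ => c) =
      D.IM (fun x => D.IM fun y => D.st2 K₁ K₂ x y fun _ _ => 1) * c
    rw [← mn_IM_mul D hχ hx]
    congr 1
    funext x
    have hy : Measurable fun y => D.st2 K₁ K₂ x y (fun _ _ => 1) :=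
      hq.comp (measurable_prodMk_left (x := x))
    rw [← mn_IM_mul D hχ hy]
    congr 1
    funext y
    unfold Dat.st2
    simp only [mul_one, ENNReal.tsum_mul_right]
  have gen : ∀ (G : P × H → D.Γ → D.Γ → ℝ) (s : ℝ), 0 ≤ s →
      (∀ u v, Measurable fun x => G x u v) →
      D.X2 K₁ K₂ (fun x u v => ENNReal.ofReal (- G x u v)) ≠ ∞ →
      D.X2 K₁ K₂ (fun x u v => ENNReal.ofReal (G x u v)) ≤
        D.X2 K₁ K₂ (fun x u v => ENNReal.ofReal (- G x u v)) →
      D.X2 K₁ K₂ (fun _ _ _ => 1) * ENNReal.ofReal s ≤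
        D.X2 K₁ K₂ (fun x u v => ENNReal.ofReal |s - G x u v|) := by
    intro G s hs hG hfinG hle
    have h3 : D.X2 K₁ K₂ (fun _ _ _ => 1) * ENNReal.ofReal s +
        D.X2 K₁ K₂ (fun x u v => ENNReal.ofReal (- G x u v)) ≤
        D.X2 K₁ K₂ (fun x u v => ENNReal.ofReal |s - G x u v|) +
        D.X2 K₁ K₂ (fun x u v => ENNReal.ofReal (G x u v)) := by
      rw [← hc, ← hadd _ _ fun _ _ => measurable_const, ← hadd _ _ fun u v => ?_]
      · exact hmono _ _ fun x u v => mn_key s (G x u v) hs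
      · exact ((measurable_const.sub (hG u v)).abs).ennreal_ofReal
    exact (ENNReal.add_le_add_iff_right hfinG).1 (le_trans h3 (add_le_add le_rfl hle))
  unfold ab
  rcases le_total 0 t with ht | ht
  · rw [abs_of_nonneg ht]
    exact gen f t ht hf (by rw [← heq]; exact hfin) (le_of_eq heq)
  · rw [abs_of_nonpos ht]
    have h5 := gen (fun x u v => - f x u v) (-t) (by linarith) (fun u v => (hf u v).neg)
      (by simpa only [neg_neg] using hfin) (by simpa only [neg_neg] using le_of_eq heq.symm)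
    refine le_trans h5 (le_of_eq ?_)
    congr 1
    funext x u v
    congr 1
    rw [← abs_neg]
    congr 1
    ring

end Pool.Agent.MPEF.U
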