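import Pool.Agent.Lib.MP_ef3f0f_gt.U.E.SpecA

set_option autoImplicit false
set_option linter.unusedSectionVars false

/-!
# MP_ef3f0f_gt, Theorem U, Part E, module mrg: merging a chord and an edge
-/

namespace Pool.Agent.MPEF.U

open MeasureTheory Topology
open scoped ENNReal Pointwise

variable (P H : Type) [Group P] [Group H] [TopologicalSpace P] [TopologicalSpace H]
  [IsTopologicalGroup P] [IsTopologicalGroup H] [LocallyCompactSpace P] [LocallyCompactSpace H]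
  [T2Space P] [T2Space H] [SecondCountableTopology P] [SecondCountableTopology H]
  [MeasurableSpace P] [MeasurableSpace H] [BorelSpace P] [BorelSpace H]

/-- Comparison of sums over edges. -/
private theorem mrg_sum (D : Dat P H) (C : ℝ≥0∞) (k k' : P → ℝ≥0∞) (N : ℕ)
    (h : ∀ g, k g ≤ C * k' g) (F : D.Γ → ℝ≥0∞) (x z : P × H) :
    ∑' u : D.Γ, D.tk k N (x⁻¹ * (u : P × H) * z) * F u ≤
      C * ∑' u : D.Γ, D.tk k' N (x⁻¹ * (u : P × H) * z) * F u := by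
  rw [← ENNReal.tsum_mul_left]
  refine ENNReal.tsum_le_tsum fun u => ?_
  unfold Dat.tk
  obtain ⟨g, hg⟩ : ∃ g, g = x⁻¹ * (u : P × H) * z := ⟨_, rfl⟩
  rw [← hg]
  calc k g.1 * D.nu N g.2 * F u ≤ C * k' g.1 * D.nu N g.2 * F u :=
        mul_le_mul_left (mul_le_mul_left (h _) _) _
    _ = C * (k' g.1 * D.nu N g.2 * F u) := by
        rw [mul_assoc C, mul_assoc C]

/-- Monotonicity of the convolution in the first factor. -/
private theorem mrg_cv (μ : Measure P) (C : ℝ≥0∞) (hC : C ≠ ∞) (k k₁ k' : P → ℝ≥0∞)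
    (h : ∀ g, k g ≤ C * k₁ g) (g : P) : cvP μ k k' g ≤ C * cvP μ k₁ k' g := by
  unfold cvP
  rw [← lintegral_const_mul' _ _ hC]
  refine lintegral_mono fun q => ?_
  show k q * k' (q⁻¹ * g) ≤ C * (k₁ q * k' (q⁻¹ * g))
  rw [← mul_assoc]
  exact mul_le_mul_left (h q) _

theorem tmrg : S_mer P H → S_MU P → S_RV P → S_NB P → S_AD P → S_mrg P H := by
  intro hmer hMU hRV hNB hAD D G hD hG hGF S₁ K₁ S₂ K₂ hS₁ hK₁ hS₂ hK₂
  have i1 := hD.haar₁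
  have i2 := hD.right₁
  have i3 := hD.inv₁
  obtain ⟨-, -, -, -, ad5, -⟩ := hAD G D.μ₁ hG
  refine ⟨fun S₁' K₂' h1 h2 hpos => ?_, fun K₁' K₂' h1 h2 hpos => ?_⟩
  · obtain ⟨c, hc⟩ := hMU G D.μ₁ hG hGF S₁ K₁ S₂ K₂ S₁' K₂' hS₁ hK₁ hS₂ hK₂ h1 h2 hpos
    refine ⟨c, fun R => ?_⟩
    obtain ⟨C, T, hC, hT⟩ := hc 0 R
    refine ⟨C, max T 1, hC, fun b n hb hn F x z => ?_⟩
    have h3 := (hmer D hD (eP D.μ₁ G S₁ K₁ 0 b) (eP D.μ₁ G S₂ K₂ R n) b n (ad5 _ _ hS₁ hK₁ 0 b)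
      (ad5 _ _ hS₂ hK₂ R n) ((le_max_right T 1).trans hb) ((le_max_right T 1).trans hn) F).1 x z
    have h4 : ∀ g, cvP D.μ₁ (eP D.μ₁ G S₁ K₁ 0 b) (eP D.μ₁ G S₂ K₂ R n) g ≤
        C * eP D.μ₁ G S₁' K₂' (R + c) (b + n) g := by
      intro g
      have h5 := hT b n ((le_max_left T 1).trans hb) ((le_max_left T 1).trans hn) g
      rwa [zero_add] at h5
    exact h3.le.trans (mrg_sum P H D C _ _ (b + n) h4 F x z)
  · obtain ⟨A, B, hA, -, hSA, hSB, hAB⟩ := (hNB G hG).1 S₁ S₂ hS₁ hS₂ hpos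
    obtain ⟨C₁, hC₁, hr⟩ := hRV G D.μ₁ hG S₁ K₁ A hS₁ hK₁ hSA 0
    obtain ⟨c, hc⟩ := hMU G D.μ₁ hG hGF K₁ A S₂ K₂ K₁' K₂' hK₁ hA hS₂ hK₂ h1 h2
      (fun κ hκ s hs => hAB κ hκ s (interior_subset (hSB hs)))
    refine ⟨c, fun R => ?_⟩
    obtain ⟨C, T, hC, hT⟩ := hc 0 R
    refine ⟨C₁ * C, max T 1, ENNReal.mul_ne_top hC₁ hC, fun b n hb hn F x' z => ?_⟩
    have h3 := (hmer D hD (eP D.μ₁ G S₁ K₁ 0 b) (eP D.μ₁ G S₂ K₂ R n) b n (ad5 _ _ hS₁ hK₁ 0 b)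
      (ad5 _ _ hS₂ hK₂ R n) ((le_max_right T 1).trans hb) ((le_max_right T 1).trans hn) F).2 x' z
    have h4 : ∀ g, cvP D.μ₁ (fun g => eP D.μ₁ G S₁ K₁ 0 b g⁻¹) (eP D.μ₁ G S₂ K₂ R n) g ≤
        C₁ * C * eP D.μ₁ G K₁' K₂' (R + c) (b + n) g := by
      intro g
      have h5 := hT b n ((le_max_left T 1).trans hb) ((le_max_left T 1).trans hn) g
      rw [zero_add] at h5
      have h6 := mrg_cv P D.μ₁ C₁ hC₁ (fun g => eP D.μ₁ G S₁ K₁ 0 b g⁻¹)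
        (eP D.μ₁ G K₁ A 0 b) (eP D.μ₁ G S₂ K₂ R n) (fun g => hr b g) g
      refine h6.trans ?_
      rw [mul_assoc]
      exact mul_le_mul_right h5 _
    exact h3.le.trans (mrg_sum P H D (C₁ * C) _ _ (b + n) h4 F x' z)

end Pool.Agent.MPEF.U
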