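import Pool.Agent.Lib.MP_ef3f0f_gt.U.E.SpecB

set_option autoImplicit false
set_option linter.unusedSectionVars false

/-!
# MP_ef3f0f_gt, Theorem U, Part E, module ms1: straight merge of the kernels `ec`
-/

namespace Pool.Agent.MPEF.U

open MeasureTheory Topology
open scoped ENNReal Pointwise

variable (P : Type) [Group P] [TopologicalSpace P] [IsTopologicalGroup P] [LocallyCompactSpace P]
  [T2Space P] [SecondCountableTopology P] [MeasurableSpace P] [BorelSpace P]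

private theorem ms1_iK {A B : Set P} {x y : P} (h : x ∈ A → y ∈ B) : iK A x ≤ iK B y := by
  classical
  unfold iK
  by_cases hx : x ∈ A
  · rw [Set.indicator_of_mem hx, Set.indicator_of_mem (h hx)]
  · rw [Set.indicator_of_notMem hx]
    exact zero_le

private theorem ms1_mem {A : Set P} {x : P} (h : iK A x ≠ 0) : x ∈ A := by
  classical
  by_contra hx
  exact h (Set.indicator_of_notMem hx _)

private theorem ms1_meas {A : Set P} (h : IsCompact A) : Measurable (iK A) :=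
  measurable_const.indicator h.isClosed.measurableSet

private theorem ms1_fin (μ : Measure P) (hμ : Un μ) {A : Set P} (h : IsCompact A) :
    ∫⁻ q, iK A q ∂μ ≠ ∞ := by
  have := hμ.haar
  unfold iK
  rw [lintegral_indicator_const h.isClosed.measurableSet, one_mul]
  exact h.measure_lt_top.ne

private theorem ms1_ew (G : PG P) {K : Set P} (h : IsCompact K) : IsCompact (G.ew K) := by
  have h1 : G.ew K = ((Homeomorph.inv P).trans (Homeomorph.mulRight G.w)) ⁻¹' K := rfl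
  rw [h1]
  exact (Homeomorph.isCompact_preimage _).2 h

theorem tms1 : S_ckU P → S_TB P → S_ms1 P := by
  intro hck hTB G μ hμ hG S₁ K₂ S₁' K₂' hS₁ hK₂ hSS hKK
  obtain ⟨U₁, hU₁, tb1⟩ := (hTB G hG S₁ S₁' hS₁ hSS).1
  obtain ⟨U₃, hU₃, tb3⟩ := (hTB G hG K₂ K₂' hK₂ hKK).2.2
  obtain ⟨W, hW, hWW⟩ := exists_nhds_one_split hU₁
  obtain ⟨V₀, hV₀, hJ⟩ := hG.JN1 (W ∩ U₃) (Filter.inter_mem hW hU₃)
  have hwi : G.w⁻¹ = G.w := inv_eq_of_mul_eq_one_left hG.ww
  -- the neighbourhood `V`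
  have hV1 : {v : P | G.w * v * G.w ∈ V₀} ∈ 𝓝 (1 : P) := by
    have h1 : Continuous fun v : P => G.w * v * G.w := by fun_prop
    have h2 := h1.tendsto 1
    rw [mul_one, hG.ww] at h2
    exact h2 hV₀
  have hV2 : {p : P × P | p.1⁻¹ * p.2 ∈ V₀ ∩ {v : P | G.w * v * G.w ∈ V₀}} ∈
      𝓝 ((1 : P), (1 : P)) := by
    have h1 : Continuous fun p : P × P => p.1⁻¹ * p.2 := by fun_prop
    have h2 := h1.tendsto ((1 : P), (1 : P))
    rw [inv_mul_cancel] at h2
    exact h2 (Filter.inter_mem hV₀ hV1)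
  rw [nhds_prod_eq, Filter.mem_prod_self_iff] at hV2
  obtain ⟨V₁, hV₁, hV₁s⟩ := hV2
  obtain ⟨V, hVn, hVc, hVs⟩ := exists_mem_nhds_isCompact_mapsTo
    (continuous_id (X := P)) (x := (1 : P)) hV₁
  have hVV : ∀ v ∈ V, ∀ v' ∈ V, v⁻¹ * v' ∈ V₀ ∧ G.w * (v⁻¹ * v') * G.w ∈ V₀ := by
    intro v hv v' hv'
    exact hV₁s (Set.mk_mem_prod (hVs hv) (hVs hv'))
  have hwc : IsCompact (G.uw V) := hVc.mul isCompact_singleton
  -- the key estimate
  have key : ∀ A B : Set P, IsCompact A → IsCompact B → (∀ p ∈ A, ∀ r ∈ B, p * r ∈ V₀) →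
      ∀ s ∈ G.Dp 0, ∀ s' ∈ G.Dp 0, ∀ g,
        cv μ (ck μ (iK S₁) (iK A) s) (ck μ (iK B) (iK (G.ew K₂)) s') g ≤
          (∫⁻ q, iK A q ∂μ) * (∫⁻ q, iK B q ∂μ) *
            ck μ (iK S₁') (iK (G.ew K₂')) (s * s') g := by
    intro A B hA hB hAB s hs s' hs' g
    refine hck μ hμ (iK S₁) (iK A) (iK B) (iK (G.ew K₂)) (iK S₁') (iK (G.ew K₂'))
      (ms1_meas P hS₁) (ms1_meas P hA) (ms1_meas P hB) (ms1_meas P (ms1_ew P G hK₂))
      s s' (s * s') ?_ g
    intro p r hp hr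
    obtain ⟨e, he, e', he', d, -, hd, h1⟩ := hJ s hs s' hs' (p * r)
      (hAB p (ms1_mem P hp) r (ms1_mem P hr))
    refine ⟨e * d, e', ?_, ?_, ?_⟩
    · rw [h1]
      group
    · intro q
      refine ms1_iK P fun hq => ?_
      have h2 := tb1 1 (mem_of_mem_nhds hU₁) _ hq (e * d) (hWW e he.1 d hd.1)
      rwa [one_mul, inv_mul_cancel_right] at h2
    · intro q
      refine ms1_iK P fun hq => ?_
      have h2 := tb3 e' he'.2 _ hq 1 (mem_of_mem_nhds hU₃)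
      rwa [mul_one, mul_inv_cancel_left] at h2
  have hA1 : IsCompact (G.ew (G.uw V)) := ms1_ew P G hwc
  have hA2 : IsCompact (G.ew V) := ms1_ew P G hVc
  refine ⟨V, hVn, hVc, (∫⁻ q, iK (G.ew (G.uw V)) q ∂μ) * (∫⁻ q, iK V q ∂μ) +
    (∫⁻ q, iK (G.ew V) q ∂μ) * (∫⁻ q, iK (G.uw V) q ∂μ), ?_, fun s hs s' hs' g => ⟨?_, ?_⟩⟩
  · exact ENNReal.add_ne_top.2 ⟨ENNReal.mul_ne_top (ms1_fin P μ hμ hA1) (ms1_fin P μ hμ hVc),
      ENNReal.mul_ne_top (ms1_fin P μ hμ hA2) (ms1_fin P μ hμ hwc)⟩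
  · refine (key _ _ hA1 hVc ?_ s hs s' hs' g).trans (mul_le_mul_left le_self_add _)
    intro p hp r hr
    obtain ⟨v, hv, w', hw', h1⟩ := Set.mem_mul.1 (show p⁻¹ * G.w ∈ G.uw V from hp)
    rw [Set.mem_singleton_iff] at hw'
    rw [hw'] at h1
    have h2 : p = v⁻¹ := by
      rw [mul_right_cancel h1, inv_inv]
    rw [h2]
    exact (hVV v hv r hr).1
  · refine (key _ _ hA2 hwc ?_ s hs s' hs' g).trans (mul_le_mul_left le_add_self _)
    intro p hp r hr
    obtain ⟨v, hv, w', hw', h1⟩ := Set.mem_mul.1 hr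
    rw [Set.mem_singleton_iff] at hw'
    rw [hw'] at h1
    have hp' : p⁻¹ * G.w ∈ V := hp
    have h2 : p * r = G.w * ((p⁻¹ * G.w)⁻¹ * v) * G.w := by
      rw [← h1, mul_inv_rev, inv_inv, hwi]
      have h3 : G.w * (G.w * p * v) * G.w = (G.w * G.w) * (p * (v * G.w)) := by group
      rw [h3, hG.ww, one_mul]
    rw [h2]
    exact (hVV _ hp' v hv).2

end Pool.Agent.MPEF.U
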