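import Pool.Agent.Lib.MP_ef3f0f_gt.U.E.SpecB

set_option autoImplicit false

/-!
# MP_ef3f0f_gt, Theorem U, Part E, module ms2: straight merge with ranges
-/

namespace Pool.Agent.MPEF.U

open MeasureTheory Topology
open scoped ENNReal Pointwise

section

variable (P : Type) [Group P] [TopologicalSpace P] [IsTopologicalGroup P] [LocallyCompactSpace P]
  [T2Space P] [SecondCountableTopology P] [MeasurableSpace P] [BorelSpace P]

variable {P} in
omit [LocallyCompactSpace P] [T2Space P] [SecondCountableTopology P] in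
/-- Convolution of finite sums. -/
private theorem ms2_sum {μ : Measure P} {f f' : P → ℝ≥0∞} {F F' : Finset P}
    {k k' : P → P → ℝ≥0∞} (h1 : ∀ g, f g ≤ ∑ d ∈ F, k d g) (h2 : ∀ g, f' g ≤ ∑ d ∈ F', k' d g)
    (hk : ∀ d, Measurable (k d)) (hk' : ∀ d, Measurable (k' d)) {g : P} {E : ℝ≥0∞}
    (h : ∀ d ∈ F, ∀ d' ∈ F', cvP μ (k d) (k' d') g ≤ E) :
    cvP μ f f' g ≤ F.card * F'.card * E := by
  have hm : ∀ d d' : P, Measurable fun q => k d q * k' d' (q⁻¹ * g) := fun d d' =>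
    (hk d).mul ((hk' d').comp (measurable_inv.mul_const g))
  calc cvP μ f f' g
      ≤ ∫⁻ q, ∑ d ∈ F, ∑ d' ∈ F', k d q * k' d' (q⁻¹ * g) ∂μ := by
        refine lintegral_mono fun q => ?_
        refine (mul_le_mul' (h1 q) (h2 (q⁻¹ * g))).trans ?_
        rw [Finset.sum_mul_sum]
    _ = ∑ d ∈ F, ∑ d' ∈ F', cvP μ (k d) (k' d') g := by
        rw [lintegral_finsetSum _ fun d _ => Finset.measurable_fun_sum _ fun d' _ => hm d d']
        refine Finset.sum_congr rfl fun d _ => ?_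
        rw [lintegral_finsetSum _ fun d' _ => hm d d']
        rfl
    _ ≤ ∑ d ∈ F, ∑ d' ∈ F', E :=
        Finset.sum_le_sum fun d hd => Finset.sum_le_sum fun d' hd' => h d hd d' hd'
    _ = F.card * F'.card * E := by
        rw [Finset.sum_const, Finset.sum_const, nsmul_eq_mul, nsmul_eq_mul, mul_assoc]

theorem tms2 : S_ms1 P → S_ec P → S_DF P → S_ms2 P := by
  intro hms hec hDF G μ hμ hG S₁ K₂ S₁' K₂' hS₁ hK₂ hSS hKK
  obtain ⟨e1, e2, e3, e4, e5, e6, e7, e8⟩ := hec G μ hμ hG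
  obtain ⟨D1, D2, D3, D4, D5, D6, D7, D8, D9, D10, D11⟩ := hDF G hG
  obtain ⟨Sp, hSp, hS1, hS2⟩ := exists_compact_between hS₁ isOpen_interior hSS
  obtain ⟨V, hV, hVc, C, hC, hms'⟩ := hms G μ hμ hG Sp K₂ S₁' K₂' hSp hK₂ hS2 hKK
  obtain ⟨V', hVc', hV1', hVV⟩ := exists_compact_subset isOpen_interior
    (mem_interior_iff_mem_nhds.2 hV)
  have hV'V : V' ⊆ V := hVV.trans interior_subset
  have huw : G.uw V' ⊆ G.uw V := Set.mul_subset_mul_right hV'V
  have huwi : G.uw V' ⊆ interior (G.uw V) :=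
    (Set.mul_subset_mul_right hVV).trans
      (interior_maximal (Set.mul_subset_mul_right interior_subset) isOpen_interior.mul_right)
  have huwc' : IsCompact (G.uw V') := hVc'.mul isCompact_singleton
  have huwc : IsCompact (G.uw V) := hVc.mul isCompact_singleton
  refine ⟨V', mem_interior_iff_mem_nhds.1 hV1', hVc', ?_⟩
  intro R R'
  obtain ⟨F, hF, hFe⟩ := e7 S₁ Sp hS₁ hS1 R
  obtain ⟨F₁, hF₁, hFe₁⟩ := e7 V' V hVc' hVV R'
  obtain ⟨F₂, hF₂, hFe₂⟩ := e7 (G.uw V') (G.uw V) huwc' huwi R'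
  obtain ⟨T, hT⟩ := D11 R 0
  obtain ⟨T', hT'⟩ := D11 R' 0
  have hDp : ∀ (R T : ℕ), (∀ n, T ≤ n → ∀ d ∈ G.D1 ^ R, d * G.a ^ n ∈ G.Dp 0) → ∀ n,
      (R = 0 ∨ T ≤ n) → ∀ d ∈ G.D1 ^ R, d * G.a ^ n ∈ G.Dp 0 := by
    intro R T hT n hn d hd
    rcases hn with rfl | hn
    · rw [pow_zero, Set.mem_one] at hd
      rw [hd, one_mul]
      exact D10 0 n (Nat.zero_le n) (hG.Dpa n)
    · exact hT n hn d hd
  refine ⟨F.card * F₁.card * C + F.card * F₂.card * C, max T T', ?_, ?_⟩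
  · refine ENNReal.add_ne_top.2 ⟨?_, ?_⟩
    · exact ENNReal.mul_ne_top (ENNReal.mul_ne_top (ENNReal.natCast_ne_top _)
        (ENNReal.natCast_ne_top _)) hC
    · exact ENNReal.mul_ne_top (ENNReal.mul_ne_top (ENNReal.natCast_ne_top _)
        (ENNReal.natCast_ne_top _)) hC
  · intro n m hn hm g
    have hn' : ∀ d ∈ G.D1 ^ R, d * G.a ^ n ∈ G.Dp 0 :=
      hDp R T hT n (hn.imp_right (le_trans (le_max_left _ _)))
    have hm' : ∀ d ∈ G.D1 ^ R', d * G.a ^ m ∈ G.Dp 0 :=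
      hDp R' T' hT' m (hm.imp_right (le_trans (le_max_right _ _)))
    have hfin : ∀ d ∈ G.D1 ^ R, ∀ d' ∈ G.D1 ^ R',
        C * ec μ G S₁' K₂' (d * G.a ^ n * (d' * G.a ^ m)) g ≤
          C * eP μ G S₁' K₂' (R + R') (n + m) g := by
      intro d hd d' hd'
      have e : d * G.a ^ n * (d' * G.a ^ m) = d * d' * G.a ^ (n + m) := by
        have hc : G.a ^ n * d' = d' * G.a ^ n := hG.comm _ (D8 n) _ (D2 R' hd')
        rw [pow_add, mul_assoc, ← mul_assoc (G.a ^ n), hc]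
        group
      rw [e]
      exact mul_le_mul_right (e6 _ _ _ _ _ _ (D7 R R' d hd d' hd')) C
    have hcv : ∀ f f₁ f' : P → ℝ≥0∞, (∀ g, f g ≤ f₁ g) → cvP μ f f' g ≤ cvP μ f₁ f' g := by
      intro f f₁ f' h
      exact lintegral_mono fun q => mul_le_mul_left (h q) _
    constructor
    · refine (ms2_sum (fun g => hFe (G.uw V') n g) (fun g => hFe₁ K₂ m g)
        (fun d => (e8 Sp (G.uw V') hSp huwc' _).1) (fun d => (e8 V K₂ hVc hK₂ _).1)
        (E := C * eP μ G S₁' K₂' (R + R') (n + m) g) ?_).trans ?_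
      · intro d hd d' hd'
        refine le_trans ?_ (hfin d (hF d hd) d' (hF₁ d' hd'))
        refine (hcv _ _ _ fun q => e5 _ _ Sp (G.uw V) _ q subset_rfl huw).trans ?_
        exact (hms' _ (hn' d (hF d hd)) _ (hm' d' (hF₁ d' hd')) g).1
      · rw [← mul_assoc]
        exact mul_le_mul_left le_self_add _
    · refine (ms2_sum (fun g => hFe V' n g) (fun g => hFe₂ K₂ m g)
        (fun d => (e8 Sp V' hSp hVc' _).1) (fun d => (e8 (G.uw V) K₂ huwc hK₂ _).1)
        (E := C * eP μ G S₁' K₂' (R + R') (n + m) g) ?_).trans ?_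
      · intro d hd d' hd'
        refine le_trans ?_ (hfin d (hF d hd) d' (hF₂ d' hd'))
        refine (hcv _ _ _ fun q => e5 _ _ Sp V _ q subset_rfl hV'V).trans ?_
        exact (hms' _ (hn' d (hF d hd)) _ (hm' d' (hF₂ d' hd')) g).2
      · rw [← mul_assoc]
        exact mul_le_mul_left le_add_self _

end

end Pool.Agent.MPEF.U
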