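import Pool.Agent.Lib.MP_ef3f0f_gt.U.E.SpecB

set_option autoImplicit false

/-!
# MP_ef3f0f_gt, Theorem U, Part E: iterates of the operators opF, opB, opL, opR
-/

namespace Pool.Agent.MPEF.U

open MeasureTheory Topology
open scoped ENNReal Pointwise

variable (P H : Type) [Group P] [Group H] [TopologicalSpace P] [TopologicalSpace H]
  [IsTopologicalGroup P] [IsTopologicalGroup H] [LocallyCompactSpace P] [LocallyCompactSpace H]
  [T2Space P] [T2Space H] [SecondCountableTopology P] [SecondCountableTopology H]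
  [MeasurableSpace P] [MeasurableSpace H] [BorelSpace P] [BorelSpace H]

/-- **Iterates of the operators.** -/
theorem topI : S_nu P H → S_opI P H := by
  intro hnu D hD a k n hk hn
  obtain ⟨hnm, -, -, hni, -, hnc, -, -⟩ := hnu D hD
  have := hD.haar₂
  have := hD.inv₂
  have : SigmaFinite D.μ₂ := inferInstance
  have hν1 : ∀ h, D.ν h = D.nu 1 h := fun h => rfl
  have hνm : Measurable D.ν := hD.νc.measurable
  -- the four one-step identities on `H`
  have iB : ∀ m, 1 ≤ m → ∀ g, ∫⁻ h, D.ν h * D.nu m (h⁻¹ * g) ∂D.μ₂ = D.nu (m + 1) g := by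
    intro m hm g
    rw [Nat.add_comm m 1]
    exact hnc 1 m le_rfl hm g
  have iF : ∀ m, 1 ≤ m → ∀ g, ∫⁻ h, D.ν h * D.nu m (g * h⁻¹) ∂D.μ₂ = D.nu (m + 1) g := by
    intro m hm g
    rw [← hni (m + 1) g, ← iB m hm g⁻¹]
    rw [← lintegral_inv_eq_self (μ := D.μ₂) (fun h => D.ν h * D.nu m (g * h⁻¹))]
    refine lintegral_congr fun h => ?_
    rw [hD.νi h, inv_inv, ← hni m (g * h), mul_inv_rev]
  have iL : ∀ m, 1 ≤ m → ∀ g, ∫⁻ h, D.ν h * D.nu m (h * g) ∂D.μ₂ = D.nu (m + 1) g := by
    intro m hm g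
    rw [← iB m hm g, ← lintegral_inv_eq_self (μ := D.μ₂) (fun h => D.ν h * D.nu m (h * g))]
    refine lintegral_congr fun h => ?_
    rw [hD.νi h]
  have iR : ∀ m, 1 ≤ m → ∀ g, ∫⁻ h, D.ν h * D.nu m (g * h) ∂D.μ₂ = D.nu (m + 1) g := by
    intro m hm g
    rw [← hni (m + 1) g, ← iB m hm g⁻¹]
    refine lintegral_congr fun h => ?_
    rw [← hni m (g * h), mul_inv_rev]
  -- one step on `P × H`
  have sF : ∀ (k : P → ℝ≥0∞) (m : ℕ), 1 ≤ m →
      opF D a (D.tk k m) = D.tk (fun g => k (g * a⁻¹)) (m + 1) := by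
    intro k m hm
    funext g
    show ∫⁻ h, D.ν h * (k (g.1 * a⁻¹) * D.nu m (g.2 * h⁻¹)) ∂D.μ₂ =
      k (g.1 * a⁻¹) * D.nu (m + 1) g.2
    have hf : Measurable fun h : H => D.ν h * D.nu m (g.2 * h⁻¹) :=
      hνm.mul ((hnm m).comp (measurable_const.mul measurable_inv))
    rw [← iF m hm g.2, ← lintegral_const_mul _ hf]
    exact lintegral_congr fun h => by ring
  have sB : ∀ (k : P → ℝ≥0∞) (m : ℕ), 1 ≤ m →
      opB D a (D.tk k m) = D.tk (fun g => k (a⁻¹ * g)) (m + 1) := by
    intro k m hm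
    funext g
    show ∫⁻ h, D.ν h * (k (a⁻¹ * g.1) * D.nu m (h⁻¹ * g.2)) ∂D.μ₂ =
      k (a⁻¹ * g.1) * D.nu (m + 1) g.2
    have hf : Measurable fun h : H => D.ν h * D.nu m (h⁻¹ * g.2) :=
      hνm.mul ((hnm m).comp (measurable_inv.mul measurable_const))
    rw [← iB m hm g.2, ← lintegral_const_mul _ hf]
    exact lintegral_congr fun h => by ring
  have sL : ∀ (k : P → ℝ≥0∞) (m : ℕ), 1 ≤ m →
      opL D a (D.tk k m) = D.tk (fun g => k (a * g)) (m + 1) := by
    intro k m hm
    funext g
    show ∫⁻ h, D.ν h * (k (a * g.1) * D.nu m (h * g.2)) ∂D.μ₂ =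
      k (a * g.1) * D.nu (m + 1) g.2
    have hf : Measurable fun h : H => D.ν h * D.nu m (h * g.2) :=
      hνm.mul ((hnm m).comp (measurable_id.mul measurable_const))
    rw [← iL m hm g.2, ← lintegral_const_mul _ hf]
    exact lintegral_congr fun h => by ring
  have sR : ∀ (k : P → ℝ≥0∞) (m : ℕ), 1 ≤ m →
      opR D a (D.tk k m) = D.tk (fun g => k (g * a)) (m + 1) := by
    intro k m hm
    funext g
    show ∫⁻ h, D.ν h * (k (g.1 * a) * D.nu m (g.2 * h)) ∂D.μ₂ =
      k (g.1 * a) * D.nu (m + 1) g.2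
    have hf : Measurable fun h : H => D.ν h * D.nu m (g.2 * h) :=
      hνm.mul ((hnm m).comp (measurable_const.mul measurable_id))
    rw [← iR m hm g.2, ← lintegral_const_mul _ hf]
    exact lintegral_congr fun h => by ring
  -- the iterates
  have nF : ∀ (N : ℕ) (k : P → ℝ≥0∞) (m : ℕ), 1 ≤ m →
      (opF D a)^[N] (D.tk k m) = D.tk (fun g => k (g * (a ^ N)⁻¹)) (m + N) := by
    intro N
    induction N with
    | zero => intro k m _; simp
    | succ N ih =>
      intro k m hm
      rw [Function.iterate_succ_apply, sF k m hm, ih _ _ (by omega)]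
      have e : m + 1 + N = m + (N + 1) := by omega
      rw [e]
      congr 1
      funext g
      rw [pow_succ' a N, mul_inv_rev, mul_assoc]
  have nB : ∀ (N : ℕ) (k : P → ℝ≥0∞) (m : ℕ), 1 ≤ m →
      (opB D a)^[N] (D.tk k m) = D.tk (fun g => k ((a ^ N)⁻¹ * g)) (m + N) := by
    intro N
    induction N with
    | zero => intro k m _; simp
    | succ N ih =>
      intro k m hm
      rw [Function.iterate_succ_apply, sB k m hm, ih _ _ (by omega)]
      have e : m + 1 + N = m + (N + 1) := by omega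
      rw [e]
      congr 1
      funext g
      rw [pow_succ a N, mul_inv_rev, mul_assoc]
  have nL : ∀ (N : ℕ) (k : P → ℝ≥0∞) (m : ℕ), 1 ≤ m →
      (opL D a)^[N] (D.tk k m) = D.tk (fun g => k (a ^ N * g)) (m + N) := by
    intro N
    induction N with
    | zero => intro k m _; simp
    | succ N ih =>
      intro k m hm
      rw [Function.iterate_succ_apply, sL k m hm, ih _ _ (by omega)]
      have e : m + 1 + N = m + (N + 1) := by omega
      rw [e]
      congr 1
      funext g
      rw [pow_succ' a N, mul_assoc]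
  have nR : ∀ (N : ℕ) (k : P → ℝ≥0∞) (m : ℕ), 1 ≤ m →
      (opR D a)^[N] (D.tk k m) = D.tk (fun g => k (g * a ^ N)) (m + N) := by
    intro N
    induction N with
    | zero => intro k m _; simp
    | succ N ih =>
      intro k m hm
      rw [Function.iterate_succ_apply, sR k m hm, ih _ _ (by omega)]
      have e : m + 1 + N = m + (N + 1) := by omega
      rw [e]
      congr 1
      funext g
      rw [pow_succ a N, mul_assoc]
  refine ⟨fun N => nF N k n hn, fun N => nB N k n hn, fun N => nL N k n hn,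
    fun N => nR N k n hn, fun K hK => ?_⟩
  -- measurability
  have hp : Measurable fun p : (P × H) × H => ((a, p.2) : P × H) :=
    measurable_const.prodMk measurable_snd
  have hν2 : Measurable fun p : (P × H) × H => D.ν p.2 := hνm.comp measurable_snd
  refine ⟨?_, ?_, ?_, ?_⟩
  · exact (hν2.mul (hK.comp (measurable_fst.mul hp.inv))).lintegral_prod_right'
  · exact (hν2.mul (hK.comp (hp.inv.mul measurable_fst))).lintegral_prod_right'
  · exact (hν2.mul (hK.comp (hp.mul measurable_fst))).lintegral_prod_right'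
  · exact (hν2.mul (hK.comp (measurable_fst.mul hp))).lintegral_prod_right'

end Pool.Agent.MPEF.U
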