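import Pool.Agent.Lib.MP_ef3f0f_gt.U.E.SpecA
import Pool.Agent.Lib.MP_ef3f0f_gt.U.F.ph

set_option autoImplicit false

/-!
# MP_ef3f0f_gt, Theorem U, Part E: `phV`, `phP`, `phB`, `shE`
-/

namespace Pool.Agent.MPEF.U

open MeasureTheory Topology
open scoped ENNReal Pointwise

variable (P H : Type) [Group P] [Group H] [TopologicalSpace P] [TopologicalSpace H]
  [IsTopologicalGroup P] [IsTopologicalGroup H] [LocallyCompactSpace P] [LocallyCompactSpace H]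
  [T2Space P] [T2Space H] [SecondCountableTopology P] [SecondCountableTopology H]
  [MeasurableSpace P] [MeasurableSpace H] [BorelSpace P] [BorelSpace H]

theorem tphV : S_phV P H := by
  intro D G hG φ hφ
  exact ⟨ph_pos hG hφ, fun l k b hb => ph_bor hG hφ l k b hb, ph_conj hG hφ, ph_J hG hφ,
    ph_I hG hφ, ph_meas hG hφ⟩

theorem tphP : S_phV P H → S_FR P → S_phP P H := by
  intro hV hFR D G hG hF S₁ K₁ S₂ K₂ c1 c2 c3 c4 hS hK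
  obtain ⟨k, hk⟩ := hFR G hG hF S₁ K₁ S₂ K₂ c1 c2 c3 c4 hS hK
  refine ⟨k, fun x y u v hu hv φ hφ s hs s' hs' => ?_⟩
  obtain ⟨z₀, hz, h1, h2⟩ := hk _ hu _ hv
  have e : (x⁻¹ * (u : P × H) * y).1 * ((x⁻¹ * (v : P × H) * y).1)⁻¹ =
      x.1⁻¹ * ((u * v⁻¹ : D.Γ) : P × H).1 * x.1 := by
    change (x.1⁻¹ * (u : P × H).1 * y.1) * (x.1⁻¹ * (v : P × H).1 * y.1)⁻¹ =
      x.1⁻¹ * ((u : P × H).1 * ((v : P × H).1)⁻¹) * x.1
    group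
  rw [e] at hz
  have hfr : Fr G ((u * v⁻¹ : D.Γ) : P × H).1 (x.1 * z₀) := by
    unfold Fr at *
    have h2 : (x.1 * z₀)⁻¹ * ((u * v⁻¹ : D.Γ) : P × H).1 * (x.1 * z₀) =
      z₀⁻¹ * (x.1⁻¹ * ((u * v⁻¹ : D.Γ) : P × H).1 * x.1) * z₀ := by group
    rw [h2]
    exact hz
  have p1 : ∀ s ∈ S₁, G.Pos (x.1 * s) (x.1 * z₀ * G.w) := fun s hs => by
    rw [mul_assoc]
    exact (hG.Pl _ _ _).2 (h1 s hs)
  have p2 : ∀ s' ∈ S₂, G.Pos (x.1 * s') (x.1 * z₀) := fun s hs => (hG.Pl _ _ _).2 (h2 s hs)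
  obtain ⟨v1, -, -, -, v5, -⟩ := hV D G hG φ hφ
  refine ⟨fun s₁ hs₁ => ?_, ?_⟩
  · rw [v1 _ _ _ hfr (p1 s₁ hs₁), v1 _ _ _ hfr (p1 s hs)]
  · have e2 : v * u⁻¹ = (u * v⁻¹)⁻¹ := by group
    rw [e2]
    exact v5 _ _ _ _ hfr (p1 s hs) (p2 s' hs')

theorem tphB : S_phV P H → S_BCg P → S_phB P H := by
  intro hph hB D G hG hF S K Su Ku Sv Kv hS hK hSu hKu hSv hKv h1 h2 h3
  obtain ⟨k, hk⟩ := hB G hG hF S K Su Ku Sv Kv hS hK hSu hKu hSv hKv h1 h2 h3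
  refine ⟨k, ?_⟩
  intro x x' z χ u v hχ hu hv φ hφ s hs s' hs'
  obtain ⟨z', hz1, hz2, hz3⟩ := hk _ hχ _ hu _ hv
  have hp := hph D G hG φ hφ
  have e0 : u * (χ⁻¹ * v)⁻¹ = u * v⁻¹ * χ := by group
  rw [e0]
  -- the loop at `x'`
  have e1 : (x'⁻¹ * (u : P × H) * z).1 * ((x⁻¹ * (v : P × H) * z).1)⁻¹ *
      (x⁻¹ * (χ : P × H) * x').1 = x'.1⁻¹ * ((u * v⁻¹ * χ : D.Γ) : P × H).1 * x'.1 := by
    simp only [Subgroup.coe_mul, Subgroup.coe_inv, Prod.fst_mul, Prod.fst_inv]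
    group
  have e2 : ((χ * u * v⁻¹ : D.Γ)) = χ * (u * v⁻¹ * χ) * χ⁻¹ := by group
  have f1 : Fr G ((u * v⁻¹ * χ : D.Γ) : P × H).1 (x'.1 * z') := by
    unfold Fr at hz1 ⊢
    rw [e1] at hz1
    have e : (x'.1 * z')⁻¹ * ((u * v⁻¹ * χ : D.Γ) : P × H).1 * (x'.1 * z') =
        z'⁻¹ * (x'.1⁻¹ * ((u * v⁻¹ * χ : D.Γ) : P × H).1 * x'.1) * z' := by group
    rw [e]
    exact hz1
  have p1 : G.Pos (x'.1 * s') (x'.1 * z' * G.w) := by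
    rw [mul_assoc]
    exact (hG.Pl _ _ _).2 (hz2 s' hs')
  have q1 := hp.1 (u * v⁻¹ * χ) (x'.1 * z') (x'.1 * s') f1 p1
  have f2 : Fr G ((χ * u * v⁻¹ : D.Γ) : P × H).1 ((χ : P × H).1 * (x'.1 * z')) := by
    have e : ((χ : P × H).1 * (x'.1 * z'))⁻¹ * ((χ * u * v⁻¹ : D.Γ) : P × H).1 *
        ((χ : P × H).1 * (x'.1 * z')) =
        (x'.1 * z')⁻¹ * ((u * v⁻¹ * χ : D.Γ) : P × H).1 * (x'.1 * z') := by
      simp only [Subgroup.coe_mul, Subgroup.coe_inv, Prod.fst_mul, Prod.fst_inv]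
      group
    unfold Fr at f1 ⊢
    rw [e]
    exact f1
  have p2 : G.Pos (x.1 * s) ((χ : P × H).1 * (x'.1 * z') * G.w) := by
    have e : (χ : P × H).1 * (x'.1 * z') * G.w =
        x.1 * ((x⁻¹ * (χ : P × H) * x').1 * z' * G.w) := by
      simp only [Prod.fst_mul, Prod.fst_inv]
      group
    rw [e]
    exact (hG.Pl _ _ _).2 (hz3 s hs)
  have q2 := hp.1 (χ * u * v⁻¹) ((χ : P × H).1 * (x'.1 * z')) (x.1 * s) f2 p2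
  rw [q1, q2, e2]
  exact hφ.conj χ (u * v⁻¹ * χ) (x'.1 * z')

theorem tshE : S_SHP P → S_Harn P H → S_shE P H := by
  intro hP hH D G hD hG c
  have := hD.haar₁
  have := hD.right₁
  have := hD.inv₁
  obtain ⟨c', hc'⟩ := hP G D.μ₁ hG (c + 1)
  obtain ⟨C, hC, hN⟩ := hH D hD c
  refine ⟨c', C, hC, fun Q S K R n hn g s hs => ?_⟩
  obtain ⟨h1, h2⟩ := hc' Q S K R n g.1 s.1 hs.1
  obtain ⟨h3, h4⟩ := hN n hn g.2 s.2 hs.2
  have h5 : ∀ a b c : ℝ≥0∞, a * (b * c) = b * (a * c) := fun a b c => by ring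
  calc D.eg G S K R n g = eP D.μ₁ G S K R n g.1 * D.nu n g.2 := rfl
    _ ≤ eP D.μ₁ G S (Q⁻¹ * K) (R + c') (n + (c + 1)) (g.1 * s.1) *
        (C * D.nu (n + c + 1) (g.2 * s.2)) := mul_le_mul' h1 h3
    _ = C * (eP D.μ₁ G S (Q⁻¹ * K) (R + c') (n + (c + 1)) (g.1 * s.1) *
        D.nu (n + (c + 1)) (g.2 * s.2)) := h5 _ _ _
    _ = C * D.eg G S (Q⁻¹ * K) (R + c') (n + (c + 1)) (g * s) := rfl

end Pool.Agent.MPEF.U
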