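import Pool.Agent.Lib.MP_ef3f0f_gt.U.E.SpecB

set_option autoImplicit false

/-!
# MP_ef3f0f_gt, Theorem U, Part E: `pvp`
-/

namespace Pool.Agent.MPEF.U

open MeasureTheory Topology
open scoped ENNReal Pointwise

variable (P H : Type) [Group P] [Group H] [TopologicalSpace P] [TopologicalSpace H]
  [IsTopologicalGroup P] [IsTopologicalGroup H] [LocallyCompactSpace P] [LocallyCompactSpace H]
  [T2Space P] [T2Space H] [SecondCountableTopology P] [SecondCountableTopology H]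
  [MeasurableSpace P] [MeasurableSpace H] [BorelSpace P] [BorelSpace H]

theorem tpvp : S_phV P H → S_egm P H → S_pvp P H := by
  intro hV hE D G hD hG φ hφ
  obtain ⟨-, v2, v3, -, -, v6⟩ := hV D G hG φ hφ
  refine ⟨fun u v => (v6 (u * v⁻¹)).comp measurable_fst, fun γ γ' x u v => ?_, fun x h u v => ?_⟩
  · change ph G φ (γ * u * γ' * (γ * v * γ')⁻¹) ((γ : P × H).1 * x.1) = ph G φ (u * v⁻¹) x.1
    have e : γ * u * γ' * (γ * v * γ')⁻¹ = γ * (u * v⁻¹) * γ⁻¹ := by group
    rw [e]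
    exact v3 γ (u * v⁻¹) x.1
  · change ph G φ (u * v⁻¹) (x.1 * G.a) = ph G φ (u * v⁻¹) x.1
    exact v2 _ _ _ (hG.AB hG.aA)

end Pool.Agent.MPEF.U
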