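import Pool.Agent.Lib.MP_ef3f0f_gt.U.E.SpecB

set_option autoImplicit false
set_option linter.unusedSectionVars false

/-!
# MP_ef3f0f_gt, Theorem U, Part E: telescoping
-/

namespace Pool.Agent.MPEF.U

open MeasureTheory Topology
open scoped ENNReal Pointwise

/-- Triangle inequality for normalised averages. -/
private theorem tele_tri {α : Type} (f g h : α → ℝ≥0∞) (d₁ d₂ d₃ : α → α → ℝ≥0∞)
    (hd : ∀ a b c, d₁ a c ≤ d₂ a b + d₃ b c) (hf0 : ∑' a, f a ≠ 0) (hft : ∑' a, f a ≠ ∞)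
    (hg0 : ∑' a, g a ≠ 0) (hgt : ∑' a, g a ≠ ∞) (hh0 : ∑' a, h a ≠ 0) (hht : ∑' a, h a ≠ ∞) :
    (∑' a, f a)⁻¹ * (∑' a, h a)⁻¹ * ∑' a, ∑' c, f a * h c * d₁ a c ≤
      (∑' a, f a)⁻¹ * (∑' a, g a)⁻¹ * ∑' a, ∑' b, f a * g b * d₂ a b +
        (∑' a, g a)⁻¹ * (∑' a, h a)⁻¹ * ∑' b, ∑' c, g b * h c * d₃ b c := by
  set F := ∑' a, f a with hF
  set G := ∑' a, g a with hG
  set S := ∑' a, h a with hS
  have key : G * ∑' a, ∑' c, f a * h c * d₁ a c ≤
      S * ∑' a, ∑' b, f a * g b * d₂ a b + F * ∑' b, ∑' c, g b * h c * d₃ b c := by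
    calc G * ∑' a, ∑' c, f a * h c * d₁ a c
        = ∑' b, ∑' a, ∑' c, g b * (f a * h c * d₁ a c) := by
          rw [hG, ← ENNReal.tsum_mul_right]
          refine tsum_congr fun b => ?_
          rw [← ENNReal.tsum_mul_left]
          refine tsum_congr fun a => ?_
          rw [← ENNReal.tsum_mul_left]
      _ ≤ ∑' b, ∑' a, ∑' c, (h c * (f a * g b * d₂ a b) + f a * (g b * h c * d₃ b c)) := by
          refine ENNReal.tsum_le_tsum fun b => ENNReal.tsum_le_tsum fun a =>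
            ENNReal.tsum_le_tsum fun c => ?_
          calc g b * (f a * h c * d₁ a c) ≤ g b * (f a * h c * (d₂ a b + d₃ b c)) := by
                gcongr
                exact hd a b c
            _ = h c * (f a * g b * d₂ a b) + f a * (g b * h c * d₃ b c) := by ring
      _ = ∑' b, ∑' a, (S * (f a * g b * d₂ a b) + f a * ∑' c, g b * h c * d₃ b c) := by
          refine tsum_congr fun b => tsum_congr fun a => ?_
          rw [ENNReal.tsum_add, ENNReal.tsum_mul_right, ENNReal.tsum_mul_left]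
      _ = S * (∑' b, ∑' a, f a * g b * d₂ a b) + F * ∑' b, ∑' c, g b * h c * d₃ b c := by
          rw [← ENNReal.tsum_mul_left, ← ENNReal.tsum_mul_left, ← ENNReal.tsum_add]
          refine tsum_congr fun b => ?_
          rw [ENNReal.tsum_add, ENNReal.tsum_mul_left, ENNReal.tsum_mul_right]
      _ = _ := by rw [ENNReal.tsum_comm]
  calc F⁻¹ * S⁻¹ * ∑' a, ∑' c, f a * h c * d₁ a c
      = F⁻¹ * S⁻¹ * G⁻¹ * (G * ∑' a, ∑' c, f a * h c * d₁ a c) := by
        rw [mul_assoc (F⁻¹ * S⁻¹), ← mul_assoc G⁻¹, ENNReal.inv_mul_cancel hg0 hgt, one_mul]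
    _ ≤ F⁻¹ * S⁻¹ * G⁻¹ * (S * ∑' a, ∑' b, f a * g b * d₂ a b +
          F * ∑' b, ∑' c, g b * h c * d₃ b c) := by gcongr
    _ = (S⁻¹ * S) * (F⁻¹ * G⁻¹ * ∑' a, ∑' b, f a * g b * d₂ a b) +
          (F⁻¹ * F) * (G⁻¹ * S⁻¹ * ∑' b, ∑' c, g b * h c * d₃ b c) := by ring
    _ = _ := by
        rw [ENNReal.inv_mul_cancel hh0 hht, ENNReal.inv_mul_cancel hf0 hft, one_mul, one_mul]

section
variable {P H : Type} [Group P] [Group H] [TopologicalSpace P] [TopologicalSpace H]
  [IsTopologicalGroup P] [IsTopologicalGroup H] [LocallyCompactSpace P] [LocallyCompactSpace H]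
  [T2Space P] [T2Space H] [SecondCountableTopology P] [SecondCountableTopology H]
  [MeasurableSpace P] [MeasurableSpace H] [BorelSpace P] [BorelSpace H]

/-- The law of the product of `n + 1` independent elements with the density `ν`. -/
private noncomputable def teleW (D : Dat P H) : ℕ → Measure H
  | 0 => D.μ₂.withDensity D.ν
  | n + 1 => (D.μ₂.withDensity D.ν) ∗ₘ teleW D n

/-- `a ^ (n + 1)`. -/
private def teleA (a : P) : ℕ → P
  | 0 => a
  | n + 1 => a * teleA a n

/-- The point `(a ^ (n + 1), h)`. -/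
private def telePt (a : P) (n : ℕ) (h : H) : P × H := (teleA a n, h)

private theorem telePt_mul (a : P) (n : ℕ) (h q : H) :
    telePt a 0 h * telePt a n q = telePt a (n + 1) (h * q) := rfl

private theorem tele_pm (a : P) (n : ℕ) : Measurable fun h : H => telePt a n h :=
  measurable_const.prodMk measurable_id

private theorem tele_lint0 (D : Dat P H) (hD : D.Ok) (f : H → ℝ≥0∞) (hf : Measurable f) :
    ∫⁻ p, f p ∂(teleW D 0) = ∫⁻ p, D.ν p * f p ∂D.μ₂ := by
  have h1 : teleW D 0 = D.μ₂.withDensity D.ν := rfl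
  rw [h1, lintegral_withDensity_eq_lintegral_mul _ hD.νc.measurable hf]
  rfl

private theorem tele_prob (D : Dat P H) (hD : D.Ok) (n : ℕ) :
    IsProbabilityMeasure (teleW D n) := by
  have h0 : IsProbabilityMeasure (D.μ₂.withDensity D.ν) := by
    refine ⟨?_⟩
    rw [withDensity_apply _ MeasurableSet.univ, Measure.restrict_univ]
    exact hD.νint
  induction n with
  | zero => exact h0
  | succ n ih =>
    change IsProbabilityMeasure ((D.μ₂.withDensity D.ν) ∗ₘ teleW D n)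
    infer_instance

/-- Convolution. -/
private theorem tele_conv (D : Dat P H) (hD : D.Ok) (n : ℕ) (f : H → ℝ≥0∞) (hf : Measurable f) :
    ∫⁻ p, f p ∂(teleW D (n + 1)) = ∫⁻ p, ∫⁻ q, f (p * q) ∂(teleW D n) ∂(teleW D 0) := by
  have := tele_prob D hD n
  have h1 : teleW D (n + 1) = (teleW D 0) ∗ₘ teleW D n := rfl
  rw [h1, Measure.lintegral_mconv hf]

private theorem tele_conv' (D : Dat P H) (hD : D.Ok) (n : ℕ) (f : H → ℝ≥0∞) (hf : Measurable f) :
    ∫⁻ q, ∫⁻ p, f (p * q) ∂(teleW D 0) ∂(teleW D n) = ∫⁻ p, f p ∂(teleW D (n + 1)) := by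
  have := tele_prob D hD n
  have := tele_prob D hD 0
  rw [tele_conv D hD n f hf, lintegral_lintegral_swap]
  exact (hf.comp (measurable_snd.mul measurable_fst)).aemeasurable

/-- `E`. -/
@[irreducible] private noncomputable def teleE (D : Dat P H) (K : P × H → ℝ≥0∞)
    (ψ : P × H → D.Γ → D.Γ → ℝ) (V : D.Γ) (a a' a₁ a₁' : P × H) : ℝ≥0∞ :=
  ∑' c : D.Γ, ∑' c' : D.Γ, K (a⁻¹ * (c : P × H) * a') * K (a₁⁻¹ * (c' : P × H) * a₁') *
    ab (ψ a c V - ψ a₁ c' V)

/-- `Δ`. -/
@[irreducible] private noncomputable def teleD (D : Dat P H) (K : P × H → ℝ≥0∞)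
    (ψ : P × H → D.Γ → D.Γ → ℝ) (V : D.Γ) (a a' a₁ a₁' : P × H) : ℝ≥0∞ :=
  (D.N K a a')⁻¹ * (D.N K a₁ a₁')⁻¹ * teleE D K ψ V a a' a₁ a₁'

private theorem tele_ab (x y z : ℝ) : ab (x - z) ≤ ab (x - y) + ab (y - z) := by
  unfold ab
  rw [← ENNReal.ofReal_add (abs_nonneg _) (abs_nonneg _)]
  exact ENNReal.ofReal_le_ofReal (abs_sub_le x y z)

private theorem tele_D_tri (D : Dat P H) (K : P × H → ℝ≥0∞) (ψ : P × H → D.Γ → D.Γ → ℝ)
    (h0 : ∀ x y, D.N K x y ≠ 0) (ht : ∀ x y, D.N K x y ≠ ∞) (V : D.Γ)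
    (a a' b b' c c' : P × H) :
    teleD D K ψ V a a' c c' ≤ teleD D K ψ V a a' b b' + teleD D K ψ V b b' c c' := by
  unfold teleD teleE Dat.N
  exact tele_tri (fun u : D.Γ => K (a⁻¹ * (u : P × H) * a'))
    (fun u : D.Γ => K (b⁻¹ * (u : P × H) * b')) (fun u : D.Γ => K (c⁻¹ * (u : P × H) * c'))
    (fun u v => ab (ψ a u V - ψ c v V)) (fun u v => ab (ψ a u V - ψ b v V))
    (fun u v => ab (ψ b u V - ψ c v V)) (fun u v w => tele_ab _ _ _)
    (h0 a a') (ht a a') (h0 b b') (ht b b') (h0 c c') (ht c c')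

private theorem tele_abm {α : Type} [MeasurableSpace α] (f : α → ℝ) (hf : Measurable f) :
    Measurable fun t => ab (f t) := by
  unfold ab
  exact ENNReal.measurable_ofReal.comp hf.abs

private theorem tele_E_meas (D : Dat P H) (hc : Countable D.Γ) (K : P × H → ℝ≥0∞)
    (hK : Measurable K) (ψ : P × H → D.Γ → D.Γ → ℝ) (hm : ∀ u v, Measurable fun x => ψ x u v)
    (V : D.Γ) {α : Type} [MeasurableSpace α]
    (a a' b b' : α → P × H) (ha : Measurable a) (ha' : Measurable a') (hb : Measurable b)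
    (hb' : Measurable b') : Measurable fun t => teleE D K ψ V (a t) (a' t) (b t) (b' t) := by
  unfold teleE
  refine Measurable.tsum fun c => Measurable.tsum fun c' => ?_
  refine ((hK.comp ((ha.inv.mul_const _).mul ha')).mul
    (hK.comp ((hb.inv.mul_const _).mul hb'))).mul ?_
  exact tele_abm _ (((hm c V).comp ha).sub ((hm c' V).comp hb))

private theorem tele_N_meas (D : Dat P H) (hc : Countable D.Γ) (K : P × H → ℝ≥0∞)
    (hK : Measurable K) {α : Type} [MeasurableSpace α]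
    (a a' : α → P × H) (ha : Measurable a) (ha' : Measurable a') :
    Measurable fun t => D.N K (a t) (a' t) := by
  unfold Dat.N
  exact Measurable.tsum fun c => hK.comp ((ha.inv.mul_const _).mul ha')

private theorem tele_D_meas (D : Dat P H) (hc : Countable D.Γ) (K : P × H → ℝ≥0∞)
    (hK : Measurable K) (ψ : P × H → D.Γ → D.Γ → ℝ) (hm : ∀ u v, Measurable fun x => ψ x u v)
    (V : D.Γ) {α : Type} [MeasurableSpace α]
    (a a' b b' : α → P × H) (ha : Measurable a) (ha' : Measurable a') (hb : Measurable b)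
    (hb' : Measurable b') : Measurable fun t => teleD D K ψ V (a t) (a' t) (b t) (b' t) := by
  unfold teleD
  exact ((tele_N_meas D hc K hK a a' ha ha').inv.mul (tele_N_meas D hc K hK b b' hb hb').inv).mul
    (tele_E_meas D hc K hK ψ hm V a a' b b' ha ha' hb hb')

/-- `S_N`. -/
@[irreducible] private noncomputable def teleS (D : Dat P H) (a : P) (K : P × H → ℝ≥0∞)
    (ψ : P × H → D.Γ → D.Γ → ℝ) (N : ℕ) (V : D.Γ) (x y : P × H) : ℝ≥0∞ :=
  ∫⁻ p, ∫⁻ q, teleD D K ψ V x (y * (telePt a N q)⁻¹) (x * telePt a N p) y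
    ∂(teleW D N) ∂(teleW D N)

private theorem tele_S_meas (D : Dat P H) (hD : D.Ok) (hc : Countable D.Γ) (a : P)
    (K : P × H → ℝ≥0∞) (hK : Measurable K) (ψ : P × H → D.Γ → D.Γ → ℝ)
    (hm : ∀ u v, Measurable fun x => ψ x u v) (N : ℕ) (V : D.Γ) :
    Measurable fun q : (P × H) × (P × H) => teleS D a K ψ N V q.1 q.2 := by
  have := tele_prob D hD N
  unfold teleS
  have h1 : Measurable fun t : (((P × H) × (P × H)) × H) × H =>
      teleD D K ψ V t.1.1.1 (t.1.1.2 * (telePt a N t.2)⁻¹) (t.1.1.1 * telePt a N t.1.2)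
        t.1.1.2 := by
    refine tele_D_meas D hc K hK ψ hm V _ _ _ _ ?_ ?_ ?_ ?_
    · exact measurable_fst.comp (measurable_fst.comp measurable_fst)
    · exact (measurable_snd.comp (measurable_fst.comp measurable_fst)).mul
        ((tele_pm a N).comp measurable_snd).inv
    · exact (measurable_fst.comp (measurable_fst.comp measurable_fst)).mul
        ((tele_pm a N).comp (measurable_snd.comp measurable_fst))
    · exact measurable_snd.comp (measurable_fst.comp measurable_fst)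
  exact (h1.lintegral_prod_right').lintegral_prod_right'

/-- Left equivariance. -/
private theorem tele_D_L (D : Dat P H) (K : P × H → ℝ≥0∞) (ψ : P × H → D.Γ → D.Γ → ℝ)
    (hψ : ∀ (γ γ' : D.Γ) (x : P × H) (u v : D.Γ),
      ψ ((γ : P × H) * x) (γ * u * γ') (γ * v * γ') = ψ x u v) (γ V : D.Γ) (a a' b b' : P × H) :
    teleD D K ψ (γ * V) ((γ : P × H) * a) a' ((γ : P × H) * b) b' = teleD D K ψ V a a' b b' := by
  have hψ' : ∀ x c, ψ ((γ : P × H) * x) (γ * c) (γ * V) = ψ x c V := by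
    intro x c
    have := hψ γ 1 x c V
    rwa [mul_one, mul_one] at this
  have e1 : ∀ (a : P × H) (c : D.Γ), (((γ : P × H) * a)⁻¹ * ((γ * c : D.Γ) : P × H)) =
      a⁻¹ * (c : P × H) := by
    intro a c
    rw [Subgroup.coe_mul]
    group
  have eN : ∀ a a' : P × H, D.N K ((γ : P × H) * a) a' = D.N K a a' := by
    intro a a'
    unfold Dat.N
    rw [← (Equiv.mulLeft γ).tsum_eq]
    refine tsum_congr fun c => ?_
    change K (((γ : P × H) * a)⁻¹ * ((γ * c : D.Γ) : P × H) * a') = _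
    rw [e1]
  unfold teleD
  rw [eN, eN]
  congr 1
  unfold teleE
  rw [← (Equiv.mulLeft γ).tsum_eq]
  refine tsum_congr fun c => ?_
  rw [← (Equiv.mulLeft γ).tsum_eq]
  refine tsum_congr fun c' => ?_
  change K (((γ : P × H) * a)⁻¹ * ((γ * c : D.Γ) : P × H) * a') *
    K (((γ : P × H) * b)⁻¹ * ((γ * c' : D.Γ) : P × H) * b') *
      ab (ψ ((γ : P × H) * a) (γ * c) (γ * V) - ψ ((γ : P × H) * b) (γ * c') (γ * V)) = _
  rw [e1, e1, hψ', hψ']

/-- Right equivariance. -/
private theorem tele_D_R (D : Dat P H) (K : P × H → ℝ≥0∞) (ψ : P × H → D.Γ → D.Γ → ℝ)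
    (hψ : ∀ (γ γ' : D.Γ) (x : P × H) (u v : D.Γ),
      ψ ((γ : P × H) * x) (γ * u * γ') (γ * v * γ') = ψ x u v) (γ V : D.Γ) (a a' b b' : P × H) :
    teleD D K ψ (V * γ⁻¹) a ((γ : P × H) * a') b ((γ : P × H) * b') =
      teleD D K ψ V a a' b b' := by
  have hψ' : ∀ x c, ψ x (c * γ⁻¹) (V * γ⁻¹) = ψ x c V := by
    intro x c
    have := hψ 1 γ⁻¹ x c V
    rwa [one_mul, one_mul, OneMemClass.coe_one, one_mul] at this
  have e1 : ∀ (a a' : P × H) (c : D.Γ), a⁻¹ * ((c * γ⁻¹ : D.Γ) : P × H) * ((γ : P × H) * a') =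
      a⁻¹ * (c : P × H) * a' := by
    intro a a' c
    rw [Subgroup.coe_mul, Subgroup.coe_inv]
    group
  have eN : ∀ a a' : P × H, D.N K a ((γ : P × H) * a') = D.N K a a' := by
    intro a a'
    unfold Dat.N
    rw [← (Equiv.mulRight γ⁻¹).tsum_eq]
    refine tsum_congr fun c => ?_
    change K (a⁻¹ * ((c * γ⁻¹ : D.Γ) : P × H) * ((γ : P × H) * a')) = _
    rw [e1]
  unfold teleD
  rw [eN, eN]
  congr 1
  unfold teleE
  rw [← (Equiv.mulRight γ⁻¹).tsum_eq]
  refine tsum_congr fun c => ?_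
  rw [← (Equiv.mulRight γ⁻¹).tsum_eq]
  refine tsum_congr fun c' => ?_
  change K (a⁻¹ * ((c * γ⁻¹ : D.Γ) : P × H) * ((γ : P × H) * a')) *
    K (b⁻¹ * ((c' * γ⁻¹ : D.Γ) : P × H) * ((γ : P × H) * b')) *
      ab (ψ a (c * γ⁻¹) (V * γ⁻¹) - ψ b (c' * γ⁻¹) (V * γ⁻¹)) = _
  rw [e1, e1, hψ', hψ']

private theorem tele_S_L (D : Dat P H) (a : P) (K : P × H → ℝ≥0∞) (ψ : P × H → D.Γ → D.Γ → ℝ)
    (hψ : ∀ (γ γ' : D.Γ) (x : P × H) (u v : D.Γ),
      ψ ((γ : P × H) * x) (γ * u * γ') (γ * v * γ') = ψ x u v) (N : ℕ) (γ V : D.Γ)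
    (x y : P × H) :
    teleS D a K ψ N (γ * V) ((γ : P × H) * x) y = teleS D a K ψ N V x y := by
  unfold teleS
  refine lintegral_congr fun p => lintegral_congr fun q => ?_
  rw [mul_assoc, tele_D_L D K ψ hψ]

private theorem tele_S_R (D : Dat P H) (a : P) (K : P × H → ℝ≥0∞) (ψ : P × H → D.Γ → D.Γ → ℝ)
    (hψ : ∀ (γ γ' : D.Γ) (x : P × H) (u v : D.Γ),
      ψ ((γ : P × H) * x) (γ * u * γ') (γ * v * γ') = ψ x u v) (N : ℕ) (γ V : D.Γ)
    (x y : P × H) :
    teleS D a K ψ N (V * γ⁻¹) x ((γ : P × H) * y) = teleS D a K ψ N V x y := by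
  unfold teleS
  refine lintegral_congr fun p => lintegral_congr fun q => ?_
  rw [mul_assoc, tele_D_R D K ψ hψ]

/-- The integrated quantity. -/
private noncomputable def teleJ (D : Dat P H) (KV : P × H → ℝ≥0∞)
    (F : D.Γ → P × H → P × H → ℝ≥0∞) : ℝ≥0∞ :=
  D.IM fun x => D.IM fun y => ∑' V : D.Γ, KV (x⁻¹ * (V : P × H) * y) * F V x y

private theorem tele_opL_m (D : Dat P H) (hD : D.Ok) (hσ : SigmaFinite D.μ₂) (a : P)
    (K : P × H → ℝ≥0∞) (hK : Measurable K) : Measurable (opL D a K) := by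
  unfold opL
  have h0 : Measurable fun t : (P × H) × H => ((a, t.2) : P × H) :=
    measurable_const.prodMk measurable_snd
  have h1 : Measurable fun t : (P × H) × H => D.ν t.2 * K ((a, t.2) * t.1) :=
    (hD.νc.measurable.comp measurable_snd).mul (hK.comp (h0.mul measurable_fst))
  exact h1.lintegral_prod_right'

private theorem tele_opR_m (D : Dat P H) (hD : D.Ok) (hσ : SigmaFinite D.μ₂) (a : P)
    (K : P × H → ℝ≥0∞) (hK : Measurable K) : Measurable (opR D a K) := by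
  unfold opR
  have h0 : Measurable fun t : (P × H) × H => ((a, t.2) : P × H) :=
    measurable_const.prodMk measurable_snd
  have h1 : Measurable fun t : (P × H) × H => D.ν t.2 * K (t.1 * (a, t.2)) :=
    (hD.νc.measurable.comp measurable_snd).mul (hK.comp (measurable_fst.mul h0))
  exact h1.lintegral_prod_right'

private theorem tele_opF_m (D : Dat P H) (hD : D.Ok) (hσ : SigmaFinite D.μ₂) (a : P)
    (K : P × H → ℝ≥0∞) (hK : Measurable K) : Measurable (opF D a K) := by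
  unfold opF
  have h0 : Measurable fun t : (P × H) × H => ((a, t.2) : P × H) :=
    measurable_const.prodMk measurable_snd
  have h1 : Measurable fun t : (P × H) × H => D.ν t.2 * K (t.1 * (a, t.2)⁻¹) :=
    (hD.νc.measurable.comp measurable_snd).mul (hK.comp (measurable_fst.mul h0.inv))
  exact h1.lintegral_prod_right'

private theorem tele_opR_im (D : Dat P H) (hD : D.Ok) (hσ : SigmaFinite D.μ₂) (a : P) (n : ℕ) :
    ∀ K : P × H → ℝ≥0∞, Measurable K → Measurable ((opR D a)^[n] K) := by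
  induction n with
  | zero => exact fun K hK => hK
  | succ n ih =>
    intro K hK
    rw [Function.iterate_succ_apply]
    exact ih _ (tele_opR_m D hD hσ a K hK)

/-- The operators commute. -/
private theorem tele_comm (D : Dat P H) (hD : D.Ok) (hσ : SigmaFinite D.μ₂) (a : P)
    (K : P × H → ℝ≥0∞) (hK : Measurable K) :
    opR D a (opL D a K) = opL D a (opR D a K) := by
  funext g
  unfold opR opL
  have e1 : ∀ h, D.ν h * ∫⁻ h', D.ν h' * K ((a, h') * (g * (a, h))) ∂D.μ₂ =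
      ∫⁻ h', D.ν h * (D.ν h' * K ((a, h') * (g * (a, h)))) ∂D.μ₂ := fun h =>
    (lintegral_const_mul' _ _ (hD.νt h)).symm
  have e2 : ∀ h', D.ν h' * ∫⁻ h, D.ν h * K ((a, h') * g * (a, h)) ∂D.μ₂ =
      ∫⁻ h, D.ν h' * (D.ν h * K ((a, h') * g * (a, h))) ∂D.μ₂ := fun h' =>
    (lintegral_const_mul' _ _ (hD.νt h')).symm
  simp_rw [e1, e2]
  rw [lintegral_lintegral_swap]
  · refine lintegral_congr fun h' => lintegral_congr fun h => ?_
    rw [mul_assoc (a, h') g]
    ring
  · have h0 : Measurable fun t : H × H => ((a, t.1) : P × H) :=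
      measurable_const.prodMk measurable_fst
    have h1 : Measurable fun t : H × H => ((a, t.2) : P × H) :=
      measurable_const.prodMk measurable_snd
    have hν := hD.νc.measurable
    exact ((hν.comp measurable_fst).mul ((hν.comp measurable_snd).mul
      (hK.comp (h1.mul (h0.const_mul g))))).aemeasurable

private theorem tele_comm' (D : Dat P H) (hD : D.Ok) (hσ : SigmaFinite D.μ₂) (a : P) (n : ℕ) :
    ∀ K : P × H → ℝ≥0∞, Measurable K →
      (opR D a)^[n] (opL D a K) = opL D a ((opR D a)^[n] K) := by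
  induction n with
  | zero => exact fun K hK => rfl
  | succ n ih =>
    intro K hK
    rw [Function.iterate_succ_apply, Function.iterate_succ_apply, tele_comm D hD hσ a K hK]
    exact ih _ (tele_opR_m D hD hσ a K hK)

/-- Shift in `x`. -/
private theorem tele_JA (D : Dat P H) (hD : D.Ok) (hdual : S_dual P H) (a : P)
    (KV : P × H → ℝ≥0∞) (hKV : Measurable KV) (F : D.Γ → P × H → P × H → ℝ≥0∞)
    (hF : ∀ V, Measurable fun q : (P × H) × (P × H) => F V q.1 q.2)
    (hL : ∀ (γ V : D.Γ) (x y), F (γ * V) ((γ : P × H) * x) y = F V x y)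
    (hR : ∀ (γ V : D.Γ) (x y), F (V * γ⁻¹) x ((γ : P × H) * y) = F V x y) :
    teleJ D KV (fun V x y => ∫⁻ p, F V (x * telePt a 0 p) y ∂(teleW D 0)) =
      teleJ D (opL D a KV) F := by
  refine Eq.trans ?_ (hdual D hD a KV hKV F hF hL hR).1
  unfold teleJ
  congr 1
  funext x
  congr 1
  funext y
  refine tsum_congr fun V => ?_
  congr 1
  have h0 : Measurable fun p : H => ((x * telePt a 0 p, y) : (P × H) × (P × H)) :=
    ((tele_pm a 0).const_mul x).prodMk measurable_const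
  exact tele_lint0 D hD _ ((hF V).comp h0)

/-- Shift in `y`. -/
private theorem tele_JB0 (D : Dat P H) (hD : D.Ok) (hdual : S_dual P H) (a : P)
    (KV : P × H → ℝ≥0∞) (hKV : Measurable KV) (F : D.Γ → P × H → P × H → ℝ≥0∞)
    (hF : ∀ V, Measurable fun q : (P × H) × (P × H) => F V q.1 q.2)
    (hL : ∀ (γ V : D.Γ) (x y), F (γ * V) ((γ : P × H) * x) y = F V x y)
    (hR : ∀ (γ V : D.Γ) (x y), F (V * γ⁻¹) x ((γ : P × H) * y) = F V x y) :
    teleJ D KV (fun V x y => ∫⁻ p, F V x (y * (telePt a 0 p)⁻¹) ∂(teleW D 0)) =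
      teleJ D (opR D a KV) F := by
  refine Eq.trans ?_ (hdual D hD a KV hKV F hF hL hR).2
  unfold teleJ
  congr 1
  funext x
  congr 1
  funext y
  refine tsum_congr fun V => ?_
  congr 1
  have h0 : Measurable fun p : H => ((x, y * (telePt a 0 p)⁻¹) : (P × H) × (P × H)) :=
    measurable_const.prodMk (((tele_pm a 0).inv).const_mul y)
  exact tele_lint0 D hD _ ((hF V).comp h0)

private theorem tele_B_m (D : Dat P H) (hD : D.Ok) (a : P) (n : ℕ)
    (F : D.Γ → P × H → P × H → ℝ≥0∞)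
    (hF : ∀ V, Measurable fun q : (P × H) × (P × H) => F V q.1 q.2) (V : D.Γ) :
    Measurable fun q : (P × H) × (P × H) =>
      ∫⁻ p, F V q.1 (q.2 * (telePt a n p)⁻¹) ∂(teleW D n) := by
  have := tele_prob D hD n
  have h1 : Measurable fun t : ((P × H) × (P × H)) × H => t.1.2 * (telePt a n t.2)⁻¹ :=
    (measurable_snd.comp measurable_fst).mul ((tele_pm a n).comp measurable_snd).inv
  have h2 : Measurable fun t : ((P × H) × (P × H)) × H => t.1.1 :=
    measurable_fst.comp measurable_fst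
  exact ((hF V).comp (h2.prodMk h1)).lintegral_prod_right'

private theorem tele_JB (D : Dat P H) (hD : D.Ok) (hσ : SigmaFinite D.μ₂) (hdual : S_dual P H)
    (a : P) (KV : P × H → ℝ≥0∞) (hKV : Measurable KV) (n : ℕ) :
    ∀ F : D.Γ → P × H → P × H → ℝ≥0∞,
    (∀ V, Measurable fun q : (P × H) × (P × H) => F V q.1 q.2) →
    (∀ (γ V : D.Γ) (x y), F (γ * V) ((γ : P × H) * x) y = F V x y) →
    (∀ (γ V : D.Γ) (x y), F (V * γ⁻¹) x ((γ : P × H) * y) = F V x y) →
    teleJ D KV (fun V x y => ∫⁻ p, F V x (y * (telePt a n p)⁻¹) ∂(teleW D n)) =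
      teleJ D ((opR D a)^[n + 1] KV) F := by
  induction n with
  | zero =>
    intro F hF hL hR
    exact tele_JB0 D hD hdual a KV hKV F hF hL hR
  | succ n ih =>
    intro F hF hL hR
    rw [Function.iterate_succ_apply', ← tele_JB0 D hD hdual a _
      (tele_opR_im D hD hσ a (n + 1) KV hKV) F hF hL hR]
    rw [← ih (fun V x y => ∫⁻ p, F V x (y * (telePt a 0 p)⁻¹) ∂(teleW D 0))
      (tele_B_m D hD a 0 F hF)
      (fun γ V x y => lintegral_congr fun p => hL γ V x _)
      (fun γ V x y => lintegral_congr fun p => by rw [mul_assoc, hR])]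
    unfold teleJ
    congr 1
    funext x
    congr 1
    funext y
    refine tsum_congr fun V => ?_
    congr 1
    have h0 : Measurable fun p : H => F V x (y * (telePt a (n + 1) p)⁻¹) := by
      have h1 : Measurable fun p : H => ((x, y * (telePt a (n + 1) p)⁻¹) : (P × H) × (P × H)) :=
        measurable_const.prodMk (((tele_pm a (n + 1)).inv).const_mul y)
      exact (hF V).comp h1
    refine Eq.trans (tele_conv' D hD n _ h0).symm ?_
    refine lintegral_congr fun q => lintegral_congr fun p => ?_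
    rw [← telePt_mul, mul_inv_rev, mul_assoc]

/-- One step. -/
private theorem tele_step (D : Dat P H) (hD : D.Ok) (hc : Countable D.Γ) (a : P)
    (K : P × H → ℝ≥0∞) (hK : Measurable K) (ψ : P × H → D.Γ → D.Γ → ℝ)
    (hm : ∀ u v, Measurable fun x => ψ x u v)
    (h0 : ∀ x y, D.N K x y ≠ 0) (ht : ∀ x y, D.N K x y ≠ ∞) (N : ℕ)
    (V : D.Γ) (x y : P × H) :
    teleS D a K ψ (N + 1) V x y ≤
      (∫⁻ q, teleS D a K ψ 0 V x (y * (telePt a N q)⁻¹) ∂(teleW D N)) +
      ∫⁻ p, teleS D a K ψ N V (x * telePt a 0 p) y ∂(teleW D 0) := by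
  have := tele_prob D hD N
  have := tele_prob D hD 0
  have := tele_prob D hD (N + 1)
  have hSd : ∀ (N : ℕ) (x y : P × H), teleS D a K ψ N V x y = ∫⁻ p, ∫⁻ q,
      teleD D K ψ V x (y * (telePt a N q)⁻¹) (x * telePt a N p) y ∂(teleW D N) ∂(teleW D N) := by
    intro N x y
    unfold teleS
    rfl
  have cc : ∀ {α : Type} [MeasurableSpace α] (z : P × H), Measurable fun _ : α => z :=
    fun z => measurable_const
  have m0 : Measurable fun t : H × H =>
      teleD D K ψ V x (y * (telePt a (N + 1) t.2)⁻¹) (x * telePt a (N + 1) t.1) y :=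
    tele_D_meas D hc K hK ψ hm V (fun _ => x) (fun t : H × H => y * (telePt a (N + 1) t.2)⁻¹)
      (fun t => x * telePt a (N + 1) t.1) (fun _ => y) (cc x)
      (((tele_pm a (N + 1)).comp measurable_snd).inv.const_mul y)
      (((tele_pm a (N + 1)).comp measurable_fst).const_mul x) (cc y)
  have m1 : ∀ p : H, Measurable fun q : H =>
      teleD D K ψ V x (y * (telePt a (N + 1) q)⁻¹) (x * telePt a (N + 1) p) y := by
    intro p
    have h1 : Measurable fun q : H => ((p, q) : H × H) := measurable_const.prodMk measurable_id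
    exact m0.comp h1
  have e1 : teleS D a K ψ (N + 1) V x y = ∫⁻ p₁, ∫⁻ p₂, ∫⁻ q₁, ∫⁻ h,
      teleD D K ψ V x (y * (telePt a N q₁)⁻¹ * (telePt a 0 h)⁻¹)
        (x * telePt a 0 p₁ * telePt a N p₂) y
        ∂(teleW D 0) ∂(teleW D N) ∂(teleW D N) ∂(teleW D 0) := by
    have m2 : Measurable fun p => ∫⁻ q, teleD D K ψ V x (y * (telePt a (N + 1) q)⁻¹)
        (x * telePt a (N + 1) p) y ∂(teleW D (N + 1)) := m0.lintegral_prod_right'
    rw [hSd, tele_conv D hD N _ m2]
    refine lintegral_congr fun p₁ => lintegral_congr fun p₂ => ?_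
    rw [← tele_conv' D hD N _ (m1 (p₁ * p₂))]
    refine lintegral_congr fun q => lintegral_congr fun h => ?_
    rw [← telePt_mul, ← telePt_mul, mul_inv_rev, mul_assoc, mul_assoc]
  -- the triangle inequality
  have e4 : ∀ p₁ p₂ q₁ h : H,
      teleD D K ψ V x (y * (telePt a N q₁)⁻¹ * (telePt a 0 h)⁻¹)
        (x * telePt a 0 p₁ * telePt a N p₂) y ≤
        teleD D K ψ V x (y * (telePt a N q₁)⁻¹ * (telePt a 0 h)⁻¹) (x * telePt a 0 p₁)
          (y * (telePt a N q₁)⁻¹) +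
        teleD D K ψ V (x * telePt a 0 p₁) (y * (telePt a N q₁)⁻¹)
          (x * telePt a 0 p₁ * telePt a N p₂) y := by
    intro p₁ p₂ q₁ h
    exact tele_D_tri D K ψ h0 ht V _ _ _ _ _ _
  have mB : ∀ p₁, Measurable fun t : H × H => teleD D K ψ V (x * telePt a 0 p₁)
      (y * (telePt a N t.2)⁻¹) (x * telePt a 0 p₁ * telePt a N t.1) y := by
    intro p₁
    exact tele_D_meas D hc K hK ψ hm V (fun _ => x * telePt a 0 p₁)
      (fun t : H × H => y * (telePt a N t.2)⁻¹)
      (fun t => x * telePt a 0 p₁ * telePt a N t.1) (fun _ => y) (cc _)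
      (((tele_pm a N).comp measurable_snd).inv.const_mul y)
      (((tele_pm a N).comp measurable_fst).const_mul _) (cc y)
  have mS : Measurable fun p₁ : H => teleS D a K ψ N V (x * telePt a 0 p₁) y := by
    have h1 : Measurable fun p₁ : H => ((x * telePt a 0 p₁, y) : (P × H) × (P × H)) :=
      ((tele_pm a 0).const_mul x).prodMk measurable_const
    exact (tele_S_meas D hD hc a K hK ψ hm N V).comp h1
  rw [e1]
  calc ∫⁻ p₁, ∫⁻ p₂, ∫⁻ q₁, ∫⁻ h,
      teleD D K ψ V x (y * (telePt a N q₁)⁻¹ * (telePt a 0 h)⁻¹)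
        (x * telePt a 0 p₁ * telePt a N p₂) y
        ∂(teleW D 0) ∂(teleW D N) ∂(teleW D N) ∂(teleW D 0)
      ≤ ∫⁻ p₁, ∫⁻ p₂, ∫⁻ q₁, ∫⁻ h,
        (teleD D K ψ V x (y * (telePt a N q₁)⁻¹ * (telePt a 0 h)⁻¹) (x * telePt a 0 p₁)
          (y * (telePt a N q₁)⁻¹) +
        teleD D K ψ V (x * telePt a 0 p₁) (y * (telePt a N q₁)⁻¹)
          (x * telePt a 0 p₁ * telePt a N p₂) y)
        ∂(teleW D 0) ∂(teleW D N) ∂(teleW D N) ∂(teleW D 0) :=
        lintegral_mono fun p₁ => lintegral_mono fun p₂ => lintegral_mono fun q₁ =>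
          lintegral_mono fun h => e4 p₁ p₂ q₁ h
    _ = ∫⁻ p₁, ∫⁻ p₂, ∫⁻ q₁, ((∫⁻ h,
        teleD D K ψ V x (y * (telePt a N q₁)⁻¹ * (telePt a 0 h)⁻¹) (x * telePt a 0 p₁)
          (y * (telePt a N q₁)⁻¹) ∂(teleW D 0)) +
        teleD D K ψ V (x * telePt a 0 p₁) (y * (telePt a N q₁)⁻¹)
          (x * telePt a 0 p₁ * telePt a N p₂) y)
        ∂(teleW D N) ∂(teleW D N) ∂(teleW D 0) := by
        refine lintegral_congr fun p₁ => lintegral_congr fun p₂ => lintegral_congr fun q₁ => ?_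
        rw [lintegral_add_right _ measurable_const, lintegral_const, measure_univ, mul_one]
    _ = ∫⁻ p₁, ∫⁻ p₂, ((∫⁻ q₁, ∫⁻ h,
        teleD D K ψ V x (y * (telePt a N q₁)⁻¹ * (telePt a 0 h)⁻¹) (x * telePt a 0 p₁)
          (y * (telePt a N q₁)⁻¹) ∂(teleW D 0) ∂(teleW D N)) +
        ∫⁻ q₁, teleD D K ψ V (x * telePt a 0 p₁) (y * (telePt a N q₁)⁻¹)
          (x * telePt a 0 p₁ * telePt a N p₂) y ∂(teleW D N))
        ∂(teleW D N) ∂(teleW D 0) := by
        refine lintegral_congr fun p₁ => lintegral_congr fun p₂ => ?_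
        have h1 : Measurable fun q₁ : H => ((p₂, q₁) : H × H) :=
          measurable_const.prodMk measurable_id
        have h2 : Measurable fun q₁ : H => teleD D K ψ V (x * telePt a 0 p₁)
            (y * (telePt a N q₁)⁻¹) (x * telePt a 0 p₁ * telePt a N p₂) y := (mB p₁).comp h1
        exact lintegral_add_right _ h2
    _ = ∫⁻ p₁, ((∫⁻ q₁, ∫⁻ h,
        teleD D K ψ V x (y * (telePt a N q₁)⁻¹ * (telePt a 0 h)⁻¹) (x * telePt a 0 p₁)
          (y * (telePt a N q₁)⁻¹) ∂(teleW D 0) ∂(teleW D N)) +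
        teleS D a K ψ N V (x * telePt a 0 p₁) y) ∂(teleW D 0) := by
        refine lintegral_congr fun p₁ => ?_
        rw [lintegral_add_left measurable_const, lintegral_const, measure_univ, mul_one, hSd]
    _ = (∫⁻ p₁, ∫⁻ q₁, ∫⁻ h,
        teleD D K ψ V x (y * (telePt a N q₁)⁻¹ * (telePt a 0 h)⁻¹) (x * telePt a 0 p₁)
          (y * (telePt a N q₁)⁻¹) ∂(teleW D 0) ∂(teleW D N) ∂(teleW D 0)) +
        ∫⁻ p₁, teleS D a K ψ N V (x * telePt a 0 p₁) y ∂(teleW D 0) := by
        rw [lintegral_add_right _ mS]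
    _ = _ := by
        congr 1
        rw [lintegral_lintegral_swap]
        · exact lintegral_congr fun q => (hSd 0 x (y * (telePt a N q)⁻¹)).symm
        have h1 : Measurable fun t : (H × H) × H => teleD D K ψ V x
            (y * (telePt a N t.1.2)⁻¹ * (telePt a 0 t.2)⁻¹) (x * telePt a 0 t.1.1)
              (y * (telePt a N t.1.2)⁻¹) := by
          have d3 : Measurable fun t : (H × H) × H => y * (telePt a N t.1.2)⁻¹ :=
            (((tele_pm a N).comp (measurable_snd.comp measurable_fst)).inv).const_mul y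
          have d1 : Measurable fun t : (H × H) × H =>
              y * (telePt a N t.1.2)⁻¹ * (telePt a 0 t.2)⁻¹ :=
            d3.mul ((tele_pm a 0).comp measurable_snd).inv
          have d2 : Measurable fun t : (H × H) × H => x * telePt a 0 t.1.1 :=
            ((tele_pm a 0).comp (measurable_fst.comp measurable_fst)).const_mul x
          exact tele_D_meas D hc K hK ψ hm V (fun _ : (H × H) × H => x)
            (fun t => y * (telePt a N t.1.2)⁻¹ * (telePt a 0 t.2)⁻¹)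
            (fun t => x * telePt a 0 t.1.1) (fun t => y * (telePt a N t.1.2)⁻¹)
            (cc x) d1 d2 d3
        exact (h1.lintegral_prod_right' (ν := teleW D 0)).aemeasurable

private theorem tele_J_mono (D : Dat P H) (KV : P × H → ℝ≥0∞)
    (F G : D.Γ → P × H → P × H → ℝ≥0∞) (h : ∀ V x y, F V x y ≤ G V x y) :
    teleJ D KV F ≤ teleJ D KV G := by
  unfold teleJ Dat.IM
  refine lintegral_mono fun x => mul_le_mul_right (lintegral_mono fun y => mul_le_mul_right
    (ENNReal.tsum_le_tsum fun V => mul_le_mul_right (h V x y) _) _) _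

private theorem tele_J_add (D : Dat P H) (hD : D.Ok) (hc : Countable D.Γ) (hton : S_ton P H)
    (KV : P × H → ℝ≥0∞) (hKV : Measurable KV) (F G : D.Γ → P × H → P × H → ℝ≥0∞)
    (hF : ∀ V, Measurable fun q : (P × H) × (P × H) => F V q.1 q.2) :
    teleJ D KV (fun V x y => F V x y + G V x y) = teleJ D KV F + teleJ D KV G := by
  obtain ⟨t1, -, t3, -, -⟩ := hton D hD
  have mm : Measurable fun t : (P × H) × (P × H) => ∑' V : D.Γ,
      KV (t.1⁻¹ * (V : P × H) * t.2) * F V t.1 t.2 :=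
    Measurable.tsum fun V => (hKV.comp ((measurable_fst.inv.mul_const _).mul measurable_snd)).mul
      (hF V)
  have h2 : ∀ x, Measurable fun y : P × H => ∑' V : D.Γ,
      KV (x⁻¹ * (V : P × H) * y) * F V x y := by
    intro x
    have h3 : Measurable fun y : P × H => ((x, y) : (P × H) × (P × H)) :=
      measurable_const.prodMk measurable_id
    exact mm.comp h3
  have e1 : ∀ x, D.IM (fun y => ∑' V : D.Γ, KV (x⁻¹ * (V : P × H) * y) *
      (F V x y + G V x y)) =
      D.IM (fun y => ∑' V : D.Γ, KV (x⁻¹ * (V : P × H) * y) * F V x y) +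
      D.IM (fun y => ∑' V : D.Γ, KV (x⁻¹ * (V : P × H) * y) * G V x y) := by
    intro x
    rw [← t3 _ _ (h2 x)]
    congr 1
    funext y
    rw [← ENNReal.tsum_add]
    exact tsum_congr fun V => mul_add _ _ _
  unfold teleJ
  simp_rw [e1]
  exact t3 _ _ (t1 _ mm).2

private theorem tele_J_scale (D : Dat P H) (KV : P × H → ℝ≥0∞) (c : ℝ≥0∞) (hcf : c ≠ ∞)
    (F : D.Γ → P × H → P × H → ℝ≥0∞) :
    teleJ D KV (fun V x y => c * F V x y) = c * teleJ D KV F := by
  unfold teleJ Dat.IM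
  rw [← lintegral_const_mul' _ _ hcf]
  refine lintegral_congr fun x => ?_
  rw [← mul_assoc, mul_comm c (D.χ x), mul_assoc, ← lintegral_const_mul' _ _ hcf]
  congr 1
  refine lintegral_congr fun y => ?_
  rw [← mul_assoc, mul_comm c (D.χ y), mul_assoc]
  refine congrArg (fun t => D.χ y * t) ?_
  change ∑' V : D.Γ, KV (x⁻¹ * (V : P × H) * y) * (c * F V x y) =
    c * ∑' V : D.Γ, KV (x⁻¹ * (V : P × H) * y) * F V x y
  rw [← ENNReal.tsum_mul_left]
  refine tsum_congr fun V => ?_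
  ring

private theorem tele_ind (D : Dat P H) (hD : D.Ok) (hc : Countable D.Γ)
    (hσ : SigmaFinite D.μ₂) (hdual : S_dual P H) (hton : S_ton P H) (a : P)
    (K : P × H → ℝ≥0∞) (hK : Measurable K) (ψ : P × H → D.Γ → D.Γ → ℝ)
    (hm : ∀ u v, Measurable fun x => ψ x u v)
    (hψ : ∀ (γ γ' : D.Γ) (x : P × H) (u v : D.Γ),
      ψ ((γ : P × H) * x) (γ * u * γ') (γ * v * γ') = ψ x u v)
    (h0 : ∀ x y, D.N K x y ≠ 0) (ht : ∀ x y, D.N K x y ≠ ∞) (N : ℕ) :
    ∀ KV : P × H → ℝ≥0∞, Measurable KV → teleJ D KV (teleS D a K ψ N) ≤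
      ∑ j ∈ Finset.range (N + 1),
        teleJ D ((opL D a)^[j] ((opR D a)^[N - j] KV)) (teleS D a K ψ 0) := by
  induction N with
  | zero =>
    intro KV hKV
    simp
  | succ N ih =>
    intro KV hKV
    have e1 := tele_J_mono D KV (teleS D a K ψ (N + 1))
      (fun V x y => (∫⁻ q, teleS D a K ψ 0 V x (y * (telePt a N q)⁻¹) ∂(teleW D N)) +
        ∫⁻ p, teleS D a K ψ N V (x * telePt a 0 p) y ∂(teleW D 0))
      (fun V x y => tele_step D hD hc a K hK ψ hm h0 ht N V x y)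
    have mS := fun N => tele_S_meas D hD hc a K hK ψ hm N
    rw [tele_J_add D hD hc hton KV hKV _ _ (tele_B_m D hD a N _ (mS 0)),
      tele_JB D hD hσ hdual a KV hKV N (teleS D a K ψ 0) (mS 0) (tele_S_L D a K ψ hψ 0)
        (tele_S_R D a K ψ hψ 0),
      tele_JA D hD hdual a KV hKV (teleS D a K ψ N) (mS N) (tele_S_L D a K ψ hψ N)
        (tele_S_R D a K ψ hψ N)] at e1
    refine e1.trans ?_
    rw [Finset.sum_range_succ' _ (N + 1), add_comm]
    refine add_le_add ?_ le_rfl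
    refine (ih (opL D a KV) (tele_opL_m D hD hσ a KV hKV)).trans (le_of_eq ?_)
    refine Finset.sum_congr rfl fun j _ => ?_
    rw [tele_comm' D hD hσ a (N - j) KV hKV, Nat.add_sub_add_right,
      Function.iterate_succ_apply]

/-- Iterates of the operators. -/
private theorem tele_itF (D : Dat P H) (hD : D.Ok) (hσ : SigmaFinite D.μ₂) (a : P) (n : ℕ) :
    ∀ K : P × H → ℝ≥0∞, Measurable K → ∀ g, (opF D a)^[n + 1] K g =
      ∫⁻ q, K (g * (telePt a n q)⁻¹) ∂(teleW D n) := by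
  have key : ∀ K : P × H → ℝ≥0∞, Measurable K → ∀ g, opF D a K g =
      ∫⁻ q, K (g * (telePt a 0 q)⁻¹) ∂(teleW D 0) := by
    intro K hK g
    have h1 : Measurable fun q : H => K (g * (telePt a 0 q)⁻¹) :=
      hK.comp ((tele_pm a 0).inv.const_mul g)
    rw [tele_lint0 D hD _ h1]
    rfl
  induction n with
  | zero => exact fun K hK g => key K hK g
  | succ n ih =>
    intro K hK g
    rw [Function.iterate_succ_apply, ih _ (tele_opF_m D hD hσ a K hK)]
    have h1 : Measurable fun q : H => K (g * (telePt a (n + 1) q)⁻¹) :=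
      hK.comp ((tele_pm a (n + 1)).inv.const_mul g)
    rw [← tele_conv' D hD n _ h1]
    refine lintegral_congr fun q => ?_
    rw [key K hK]
    refine lintegral_congr fun p => ?_
    rw [← telePt_mul, mul_inv_rev, mul_assoc]

private theorem tele_itB (D : Dat P H) (hD : D.Ok) (a : P) (n : ℕ) :
    ∀ K : P × H → ℝ≥0∞, Measurable K → ∀ g, (opB D a)^[n + 1] K g =
      ∫⁻ q, K ((telePt a n q)⁻¹ * g) ∂(teleW D n) := by
  have key : ∀ (K : P × H → ℝ≥0∞) (g : P × H), (Measurable fun q : H => K ((telePt a 0 q)⁻¹ * g)) →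
      opB D a K g = ∫⁻ q, K ((telePt a 0 q)⁻¹ * g) ∂(teleW D 0) := by
    intro K g h1
    rw [tele_lint0 D hD _ h1]
    rfl
  induction n with
  | zero => exact fun K hK g => key K g (hK.comp ((tele_pm a 0).inv.mul_const g))
  | succ n ih =>
    intro K hK g
    have := tele_prob D hD n
    have h1 : Measurable fun q : H => K ((telePt a (n + 1) q)⁻¹ * g) :=
      hK.comp ((tele_pm a (n + 1)).inv.mul_const g)
    rw [Function.iterate_succ_apply', tele_conv D hD n _ h1]
    have e1 : ∀ p q : H, K ((telePt a n q)⁻¹ * ((telePt a 0 p)⁻¹ * g)) =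
        K ((telePt a (n + 1) (p * q))⁻¹ * g) := by
      intro p q
      rw [← telePt_mul, mul_inv_rev, mul_assoc]
    have e2 : ∀ p : H, (opB D a)^[n + 1] K ((telePt a 0 p)⁻¹ * g) =
        ∫⁻ q, K ((telePt a (n + 1) (p * q))⁻¹ * g) ∂(teleW D n) := by
      intro p
      rw [ih K hK]
      exact lintegral_congr fun q => e1 p q
    rw [key _ g]
    · exact lintegral_congr fun p => e2 p
    · simp_rw [e2]
      have h2 : Measurable fun t : H × H => K ((telePt a (n + 1) (t.1 * t.2))⁻¹ * g) :=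
        h1.comp (measurable_fst.mul measurable_snd)
      exact h2.lintegral_prod_right'

private theorem tele_inv (D : Dat P H) (a : P) (ψ : P × H → D.Γ → D.Γ → ℝ)
    (hψ : ∀ (x : P × H) (h : H) (u v : D.Γ), ψ (x * (a, h)) u v = ψ x u v) (n : ℕ) :
    ∀ (x : P × H) (h : H) (u v : D.Γ), ψ (x * telePt a n h) u v = ψ x u v := by
  induction n with
  | zero => exact hψ
  | succ n ih =>
    intro x h u v
    have h1 : telePt a (n + 1) h = telePt a 0 1 * telePt a n h := by
      rw [telePt_mul, one_mul]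
    rw [h1, ← mul_assoc, ih]
    exact hψ x 1 u v

/-- The averages of `E`. -/
private theorem tele_E_int (D : Dat P H) (hD : D.Ok) (hc : Countable D.Γ)
    (hσ : SigmaFinite D.μ₂) (a : P) (K : P × H → ℝ≥0∞) (hK : Measurable K)
    (ψ : P × H → D.Γ → D.Γ → ℝ)
    (hψ : ∀ (x : P × H) (h : H) (u v : D.Γ), ψ (x * (a, h)) u v = ψ x u v) (n : ℕ)
    (V : D.Γ) (x y : P × H) :
    ∫⁻ p, ∫⁻ q, teleE D K ψ V x (y * (telePt a n q)⁻¹) (x * telePt a n p) y
        ∂(teleW D n) ∂(teleW D n) =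
      D.st2 ((opF D a)^[n + 1] K) ((opB D a)^[n + 1] K) x y
        (fun u u' => ab (ψ x u V - ψ x u' V)) := by
  have := tele_prob D hD n
  have mq : ∀ u : P × H, Measurable fun q : H => K (x⁻¹ * u * (y * (telePt a n q)⁻¹)) := by
    intro u
    exact hK.comp (((tele_pm a n).inv.const_mul y).const_mul _)
  have mp : ∀ u : P × H, Measurable fun p : H => K ((x * telePt a n p)⁻¹ * u * y) := by
    intro u
    exact hK.comp ((((tele_pm a n).const_mul x).inv.mul_const _).mul_const _)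
  have eq1 : ∀ u : P × H, (opF D a)^[n + 1] K (x⁻¹ * u * y) =
      ∫⁻ q, K (x⁻¹ * u * (y * (telePt a n q)⁻¹)) ∂(teleW D n) := by
    intro u
    rw [tele_itF D hD hσ a n K hK]
    refine lintegral_congr fun q => ?_
    rw [mul_assoc (x⁻¹ * u) y]
  have eq2 : ∀ u : P × H, (opB D a)^[n + 1] K (x⁻¹ * u * y) =
      ∫⁻ p, K ((x * telePt a n p)⁻¹ * u * y) ∂(teleW D n) := by
    intro u
    rw [tele_itB D hD a n K hK]
    refine lintegral_congr fun p => ?_
    rw [mul_inv_rev, mul_assoc, mul_assoc, mul_assoc]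
  unfold Dat.st2 teleE
  have s1 : ∀ p : H, ∫⁻ q, ∑' c : D.Γ, ∑' c' : D.Γ,
      K (x⁻¹ * (c : P × H) * (y * (telePt a n q)⁻¹)) *
        K ((x * telePt a n p)⁻¹ * (c' : P × H) * y) * ab (ψ x c V - ψ (x * telePt a n p) c' V)
        ∂(teleW D n) = ∑' c : D.Γ, ∑' c' : D.Γ,
      (opF D a)^[n + 1] K (x⁻¹ * (c : P × H) * y) *
        K ((x * telePt a n p)⁻¹ * (c' : P × H) * y) * ab (ψ x c V - ψ x c' V) := by
    intro p
    rw [lintegral_tsum]
    · refine tsum_congr fun c => ?_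
      rw [lintegral_tsum]
      · refine tsum_congr fun c' => ?_
        rw [lintegral_mul_const _ ((mq c).mul_const _), lintegral_mul_const _ (mq c), ← eq1,
          tele_inv D a ψ hψ n]
      · intro c'
        exact (((mq c).mul_const _).mul_const _).aemeasurable
    · intro c
      exact (Measurable.tsum fun c' => (((mq c).mul_const _).mul_const _)).aemeasurable
  simp_rw [s1]
  rw [lintegral_tsum]
  · refine tsum_congr fun c => ?_
    rw [lintegral_tsum]
    · refine tsum_congr fun c' => ?_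
      rw [lintegral_mul_const _ ((mp c').const_mul _), lintegral_const_mul _ (mp c'), ← eq2]
    · intro c'
      exact (((mp c').const_mul _).mul_const _).aemeasurable
  · intro c
    exact (Measurable.tsum fun c' : D.Γ => (((mp c').const_mul _).mul_const _)).aemeasurable

/-- Lower bound for the normalisation. -/
private theorem tele_q (D : Dat P H) (hD : D.Ok) (hc : Countable D.Γ)
    (hσ : SigmaFinite D.μ₂) (a : P) (K : P × H → ℝ≥0∞) (hK : Measurable K)
    (ψ : P × H → D.Γ → D.Γ → ℝ)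
    (hψ : ∀ (x : P × H) (h : H) (u v : D.Γ), ψ (x * (a, h)) u v = ψ x u v)
    (cm : ℝ≥0∞) (hcm : 0 < cm) (hN : ∀ x y, cm ≤ D.N K x y) (V : D.Γ) (x y : P × H) :
    teleS D a K ψ 0 V x y ≤ cm⁻¹ * cm⁻¹ * D.st2 (opF D a K) (opB D a K) x y
      (fun u u' => ab (ψ x u V - ψ x u' V)) := by
  have hcm' : cm⁻¹ ≠ ∞ := ENNReal.inv_ne_top.mpr hcm.ne'
  have hcm2 : cm⁻¹ * cm⁻¹ ≠ ∞ := ENNReal.mul_ne_top hcm' hcm'
  have e0 := tele_E_int D hD hc hσ a K hK ψ hψ 0 V x y
  rw [Function.iterate_succ_apply, Function.iterate_succ_apply] at e0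
  have e1 : D.st2 (opF D a K) (opB D a K) x y (fun u u' => ab (ψ x u V - ψ x u' V)) =
      ∫⁻ p, ∫⁻ q, teleE D K ψ V x (y * (telePt a 0 q)⁻¹) (x * telePt a 0 p) y
        ∂(teleW D 0) ∂(teleW D 0) := e0.symm
  rw [e1]
  unfold teleS
  rw [← lintegral_const_mul' _ _ hcm2]
  refine lintegral_mono fun p => ?_
  rw [← lintegral_const_mul' _ _ hcm2]
  refine lintegral_mono fun q => ?_
  unfold teleD
  gcongr
  · exact hN _ _
  · exact hN _ _

/-- Upper bound. -/
private theorem tele_up (D : Dat P H) (hD : D.Ok) (hc : Countable D.Γ)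
    (hσ : SigmaFinite D.μ₂) (a : P) (K : P × H → ℝ≥0∞) (hK : Measurable K)
    (ψ : P × H → D.Γ → D.Γ → ℝ)
    (hψ : ∀ (x : P × H) (h : H) (u v : D.Γ), ψ (x * (a, h)) u v = ψ x u v) (N : ℕ)
    (cp : ℝ≥0∞) (hcp : cp ≠ ∞) (h0 : ∀ x y, D.N K x y ≠ 0)
    (hNc : ∀ x y, D.N K x y ≤ cp) (V : D.Γ) (x y : P × H) :
    D.st2 ((opF D a)^[N + 1] K) ((opB D a)^[N + 1] K) x y
        (fun u u' => ab (ψ x u V - ψ x u' V)) ≤
      cp ^ 2 * teleS D a K ψ N V x y := by
  have ht : ∀ x y, D.N K x y ≠ ∞ := fun x y => ne_top_of_le_ne_top hcp (hNc x y)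
  rw [← tele_E_int D hD hc hσ a K hK ψ hψ N V x y]
  unfold teleS
  have hcp2 : cp ^ 2 ≠ ∞ := ENNReal.pow_ne_top hcp
  rw [← lintegral_const_mul' _ _ hcp2]
  refine lintegral_mono fun p => ?_
  rw [← lintegral_const_mul' _ _ hcp2]
  refine lintegral_mono fun q => ?_
  unfold teleD
  set n1 := D.N K x (y * (telePt a N q)⁻¹) with hn1
  set n2 := D.N K (x * telePt a N p) y with hn2
  set E := teleE D K ψ V x (y * (telePt a N q)⁻¹) (x * telePt a N p) y with hE
  calc E = (n1⁻¹ * n1) * (n2⁻¹ * n2) * E := by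
        rw [ENNReal.inv_mul_cancel (h0 _ _) (ht _ _), ENNReal.inv_mul_cancel (h0 _ _) (ht _ _),
          one_mul, one_mul]
    _ = n1 * n2 * (n1⁻¹ * n2⁻¹ * E) := by ring
    _ ≤ cp ^ 2 * (n1⁻¹ * n2⁻¹ * E) := by
        rw [sq]
        gcongr
        · exact hNc _ _
        · exact hNc _ _

end

section
variable (P H : Type) [Group P] [Group H] [TopologicalSpace P] [TopologicalSpace H]
  [IsTopologicalGroup P] [IsTopologicalGroup H] [LocallyCompactSpace P] [LocallyCompactSpace H]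
  [T2Space P] [T2Space H] [SecondCountableTopology P] [SecondCountableTopology H]
  [MeasurableSpace P] [MeasurableSpace H] [BorelSpace P] [BorelSpace H]

/-- **tele.** -/
theorem ttele : S_dual P H → S_ton P H → S_inst P H → S_tele P H := by
  intro hdual hton hi D hD a KV K hKV hK N cm cp hN hcm hcp hNK ψ hm hψ hψa
  obtain ⟨-, hσ₂, hσ, hc, -⟩ := hi D hD
  obtain ⟨n, rfl⟩ : ∃ n, N = n + 1 := ⟨N - 1, by omega⟩
  have h0 : ∀ x y, D.N K x y ≠ 0 := fun x y => (lt_of_lt_of_le hcm (hNK x y).1).ne'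
  have ht : ∀ x y, D.N K x y ≠ ∞ := fun x y => ne_top_of_le_ne_top hcp (hNK x y).2
  have hcm' : cm⁻¹ ≠ ∞ := ENNReal.inv_ne_top.mpr hcm.ne'
  have hcp2 : cp ^ 2 ≠ ∞ := ENNReal.pow_ne_top hcp
  have hcm2 : cm⁻¹ * cm⁻¹ ≠ ∞ := ENNReal.mul_ne_top hcm' hcm'
  have s1 : TT D KV ((opF D a)^[n + 1] K) ((opB D a)^[n + 1] K) ψ ≤
      cp ^ 2 * teleJ D KV (teleS D a K ψ n) := by
    rw [← tele_J_scale D KV (cp ^ 2) hcp2]
    exact tele_J_mono D KV (fun V x y => D.st2 ((opF D a)^[n + 1] K) ((opB D a)^[n + 1] K) x y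
      fun u u' => ab (ψ x u V - ψ x u' V)) _ fun V x y =>
        tele_up D hD hc hσ₂ a K hK ψ hψa n cp hcp h0 (fun x y => (hNK x y).2) V x y
  have s2 := tele_ind D hD hc hσ₂ hdual hton a K hK ψ hm hψ h0 ht n KV hKV
  have s3 : ∀ KV' : P × H → ℝ≥0∞, teleJ D KV' (teleS D a K ψ 0) ≤ cm⁻¹ * cm⁻¹ *
      TT D KV' (opF D a K) (opB D a K) ψ := by
    intro KV'
    have e1 := tele_J_scale D KV' (cm⁻¹ * cm⁻¹) hcm2 (fun V x y =>
      D.st2 (opF D a K) (opB D a K) x y (fun u u' => ab (ψ x u V - ψ x u' V)))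
    refine le_trans ?_ (le_of_eq e1)
    exact tele_J_mono D KV' _ _ fun V x y =>
      tele_q D hD hc hσ₂ a K hK ψ hψa cm hcm (fun x y => (hNK x y).1) V x y
  calc TT D KV ((opF D a)^[n + 1] K) ((opB D a)^[n + 1] K) ψ
      ≤ cp ^ 2 * teleJ D KV (teleS D a K ψ n) := s1
    _ ≤ cp ^ 2 * ∑ j ∈ Finset.range (n + 1), (cm⁻¹ * cm⁻¹ *
        TT D ((opL D a)^[j] ((opR D a)^[n - j] KV)) (opF D a K) (opB D a K) ψ) := by
        gcongr
        exact s2.trans (Finset.sum_le_sum fun j _ => s3 _)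
    _ = (cp / cm) ^ 2 * ∑ j ∈ Finset.range (n + 1),
        TT D ((opL D a)^[j] ((opR D a)^[n - j] KV)) (opF D a K) (opB D a K) ψ := by
        rw [← Finset.mul_sum, ENNReal.div_eq_inv_mul, mul_pow]
        ring
    _ = _ := rfl

end

end Pool.Agent.MPEF.U
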