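import Pool.Agent.Lib.MP_ef3f0f_gt.U.E.SpecA

set_option autoImplicit false

/-!
# MP_ef3f0f_gt, Theorem U, Part E: Tonelli and linearity for `IM`
-/

namespace Pool.Agent.MPEF.U

open MeasureTheory Topology
open scoped ENNReal Pointwise

variable (P H : Type) [Group P] [Group H] [TopologicalSpace P] [TopologicalSpace H]
  [IsTopologicalGroup P] [IsTopologicalGroup H] [LocallyCompactSpace P] [LocallyCompactSpace H]
  [T2Space P] [T2Space H] [SecondCountableTopology P] [SecondCountableTopology H]
  [MeasurableSpace P] [MeasurableSpace H] [BorelSpace P] [BorelSpace H]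

theorem tton : S_inst P H → S_ton P H := by
  intro hinst D hD
  obtain ⟨-, -, hσ, hcount, -⟩ := hinst D hD
  have hχ : Measurable D.χ := hD.χm
  refine ⟨?_, ?_, ?_, ?_, ?_⟩
  · intro f hf
    constructor
    · unfold Dat.IM
      have h1 : ∀ x : P × H, D.χ x * ∫⁻ y, D.χ y * f (x, y) ∂D.μ =
          ∫⁻ y, D.χ x * (D.χ y * f (x, y)) ∂D.μ := by
        intro x
        rw [lintegral_const_mul]
        exact hχ.mul (hf.comp measurable_prodMk_left)
      have h2 : ∀ y : P × H, D.χ y * ∫⁻ x, D.χ x * f (x, y) ∂D.μ =
          ∫⁻ x, D.χ x * (D.χ y * f (x, y)) ∂D.μ := by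
        intro y
        rw [← lintegral_const_mul]
        · refine lintegral_congr fun x => ?_
          rw [mul_left_comm]
        · exact hχ.mul (hf.comp measurable_prodMk_right)
      rw [lintegral_congr h1, lintegral_congr h2]
      refine lintegral_lintegral_swap ?_
      refine Measurable.aemeasurable ?_
      exact (hχ.comp measurable_fst).mul ((hχ.comp measurable_snd).mul hf)
    · unfold Dat.IM
      exact Measurable.lintegral_prod_right' (f := fun q : (P × H) × (P × H) => D.χ q.2 * f q)
        ((hχ.comp measurable_snd).mul hf)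
  · intro c f hf
    unfold Dat.IM
    rw [← lintegral_const_mul]
    · refine lintegral_congr fun x => ?_
      rw [mul_left_comm]
    · exact hχ.mul hf
  · intro f g hf
    unfold Dat.IM
    have h1 := lintegral_add_left (μ := D.μ) (f := fun x => D.χ x * f x) (hχ.mul hf)
      (fun x => D.χ x * g x)
    rw [← h1]
    refine lintegral_congr fun x => ?_
    exact mul_add _ _ _
  · intro f hf
    unfold Dat.IM
    rw [← lintegral_tsum]
    · refine lintegral_congr fun x => ?_
      rw [ENNReal.tsum_mul_left]
    · intro u
      exact (hχ.mul (hf u)).aemeasurable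
  · intro f g h
    unfold Dat.IM
    refine lintegral_mono fun x => ?_
    exact mul_le_mul_right (h x) (D.χ x)

end Pool.Agent.MPEF.U
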