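import Pool.Agent.Lib.MP_ef3f0f_gt.U.F.All
import Pool.Agent.Lib.MP_ef3f0f_gt.U.Ck.ck
import Pool.Agent.Lib.MP_ef3f0f_gt.U.Ck.ckU
import Pool.Agent.Lib.MP_ef3f0f_gt.U.E.Fca
import Pool.Agent.Lib.MP_ef3f0f_gt.U.E.CTs
import Pool.Agent.Lib.MP_ef3f0f_gt.U.E.CUs
import Pool.Agent.Lib.MP_ef3f0f_gt.U.E.phV
import Pool.Agent.Lib.MP_ef3f0f_gt.U.E.ton
import Pool.Agent.Lib.MP_ef3f0f_gt.U.E.egm
import Pool.Agent.Lib.MP_ef3f0f_gt.U.E.lpn
import Pool.Agent.Lib.MP_ef3f0f_gt.U.E.mer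
import Pool.Agent.Lib.MP_ef3f0f_gt.U.E.mer3
import Pool.Agent.Lib.MP_ef3f0f_gt.U.E.mrg
import Pool.Agent.Lib.MP_ef3f0f_gt.U.E.opI
import Pool.Agent.Lib.MP_ef3f0f_gt.U.E.dual
import Pool.Agent.Lib.MP_ef3f0f_gt.U.E.pvp
import Pool.Agent.Lib.MP_ef3f0f_gt.U.E.tele
import Pool.Agent.Lib.MP_ef3f0f_gt.U.E.TTs
import Pool.Agent.Lib.MP_ef3f0f_gt.U.E.ec
import Pool.Agent.Lib.MP_ef3f0f_gt.U.E.ms1
import Pool.Agent.Lib.MP_ef3f0f_gt.U.E.ms2
import Pool.Agent.Lib.MP_ef3f0f_gt.U.E.KVd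
import Pool.Agent.Lib.MP_ef3f0f_gt.U.E.KFP
import Pool.Agent.Lib.MP_ef3f0f_gt.U.E.TBd
import Pool.Agent.Lib.MP_ef3f0f_gt.U.E.Al
import Pool.Agent.Lib.MP_ef3f0f_gt.U.E.Be
import Pool.Agent.Lib.MP_ef3f0f_gt.U.E.AA
import Pool.Agent.Lib.MP_ef3f0f_gt.U.E.BB
import Pool.Agent.Lib.MP_ef3f0f_gt.U.E.LX0
import Pool.Agent.Lib.MP_ef3f0f_gt.U.E.LX1
import Pool.Agent.Lib.MP_ef3f0f_gt.U.E.Rls
import Pool.Agent.Lib.MP_ef3f0f_gt.U.E.Loc
import Pool.Agent.Lib.MP_ef3f0f_gt.U.E.Orb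
import Pool.Agent.Lib.MP_ef3f0f_gt.U.E.Van
import Pool.Agent.Lib.MP_ef3f0f_gt.U.E.Trz
import Pool.Agent.Lib.MP_ef3f0f_gt.U.E.RlI
import Pool.Agent.Lib.MP_ef3f0f_gt.U.E.ZI
import Pool.Agent.Lib.MP_ef3f0f_gt.U.E.INS
import Pool.Agent.Lib.MP_ef3f0f_gt.U.E.Q1a
import Pool.Agent.Lib.MP_ef3f0f_gt.U.E.Q1b
import Pool.Agent.Lib.MP_ef3f0f_gt.U.E.Q1c
import Pool.Agent.Lib.MP_ef3f0f_gt.U.E.Q1
import Pool.Agent.Lib.MP_ef3f0f_gt.U.E.Sma
import Pool.Agent.Lib.MP_ef3f0f_gt.U.E.Smb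
import Pool.Agent.Lib.MP_ef3f0f_gt.U.E.FSc
import Pool.Agent.Lib.MP_ef3f0f_gt.U.E.FUc
import Pool.Agent.Lib.MP_ef3f0f_gt.U.E.FVc
import Pool.Agent.Lib.MP_ef3f0f_gt.U.E.lod
import Pool.Agent.Lib.MP_ef3f0f_gt.U.E.F7ac
import Pool.Agent.Lib.MP_ef3f0f_gt.U.E.F7bc
import Pool.Agent.Lib.MP_ef3f0f_gt.U.E.F7cc
import Pool.Agent.Lib.MP_ef3f0f_gt.U.E.mn
import Pool.Agent.Lib.MP_ef3f0f_gt.U.E.I7c

set_option autoImplicit false

/-!
# MP_ef3f0f_gt, Theorem U, Part E: the statements without hypotheses, and coercivity (`I7c`)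
-/

namespace Pool.Agent.MPEF.U

open MeasureTheory Topology
open scoped ENNReal Pointwise

section OnPE

variable (P : Type) [Group P] [TopologicalSpace P] [IsTopologicalGroup P] [LocallyCompactSpace P]
  [T2Space P] [SecondCountableTopology P] [MeasurableSpace P] [BorelSpace P]

theorem ack : S_ck P := tck P

theorem ackU : S_ckU P := tckU P (ack P)

theorem aec : S_ec P := tec P (ack P) (aNT1 P) (aTB P)

theorem ams1 : S_ms1 P := tms1 P (ackU P) (aTB P)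

theorem ams2 : S_ms2 P := tms2 P (ams1 P) (aec P) (aDF P)

theorem aKVd : S_KVd P := tKVd P (ack P) (aTB P) (aDF P)

theorem aKFP : S_KFP P := tKFP P (ack P) (aDF P)

end OnPE

section OnPHE

variable (P H : Type) [Group P] [Group H] [TopologicalSpace P] [TopologicalSpace H]
  [IsTopologicalGroup P] [IsTopologicalGroup H] [LocallyCompactSpace P] [LocallyCompactSpace H]
  [T2Space P] [T2Space H] [SecondCountableTopology P] [SecondCountableTopology H]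
  [MeasurableSpace P] [MeasurableSpace H] [BorelSpace P] [BorelSpace H]

theorem aphV : S_phV P H := tphV P H

theorem aphP : S_phP P H := tphP P H (aphV P H) (aFR P)

theorem aphB : S_phB P H := tphB P H (aphV P H) (aBCg P)

theorem ashE : S_shE P H := tshE P H (aSHP P) (aHarn P H)

theorem aton : S_ton P H := tton P H (ainst P H)

theorem aegm : S_egm P H := tegm P H (aAD P) (anu P H) (aphV P H)

theorem alpn : S_lpn P H := tlpn P H (aO P H) (anu P H) (aUp P H)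

theorem amer : S_mer P H := tmer P H (amg P H) (anu P H)

theorem amer3 : S_mer3 P H := tmer3 P H (amg P H) (anu P H)

theorem amrg : S_mrg P H := tmrg P H (amer P H) (aMU P) (aRV P) (aNB P) (aAD P)

theorem aCTs : S_CTs P H := tCTs P H (aAD P)

theorem aCUs : S_CUs P H := tCUs P H (aAD P)

theorem aLX0 : S_LX0 P H := tLX0 P H (aphB P H) (aAD P) (aWr P)

theorem aRls : S_Rls P H := tRls P H (aCTs P H) (aton P H) (aegm P H) (aAD P) (ainst P H)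

theorem aTrz : S_Trz P H := tTrz P H (aCTs P H) (aton P H) (aegm P H) (aAD P) (ainst P H)

theorem aopI : S_opI P H := topI P H (anu P H)

theorem adual : S_dual P H := tdual P H (aIM P H) (aton P H) (ainst P H)

theorem apvp : S_pvp P H := tpvp P H (aphV P H) (aegm P H)

theorem atele : S_tele P H := ttele P H (adual P H) (aton P H) (ainst P H)

theorem aTTs : S_TTs P H := tTTs P H (aIM P H) (ainst P H) (aMQ P H) (aton P H)

theorem aQ1a : S_Q1a P H :=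
  tQ1a P H (aML P) (aRV P) (aMG P) (amer P H) (aphB P H) (aphP P H) (aopI P H) (aec P)
    (aegm P H) (aton P H) (aAD P) (ainst P H) (anu P H)

theorem aQ1b : S_Q1b P H :=
  tQ1b P H (ams2 P) (amer P H) (aec P) (aegm P H) (aton P H) (alpn P H) (aO P H) (anu P H)
    (aAD P) (ainst P H)

theorem aSma : S_Sma P H :=
  tSma P H (aKFP P) (aopI P H) (aphP P H) (apvp P H) (aTTs P H) (aton P H) (aec P) (aAD P)
    (ainst P H) (anu P H)

theorem aSmb : S_Smb P H :=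
  tSmb P H (aKVd P) (aopI P H) (aphP P H) (apvp P H) (aTTs P H) (aton P H) (aec P) (aAD P)
    (aDF P) (ainst P H) (aegm P H)

theorem alod : S_lod P H := tlod P H (aNT1 P) (aec P)

theorem amn : S_mn P H := tmn P H (aMQ P H)

theorem aTBd : S_TBd P H :=
  tTBd P H (ashE P H) (alpn P H) (aegm P H) (aton P H) (aAD P) (aMQ P H)

theorem aAl : S_Al P H :=
  tAl P H (aTBd P H) (aphP P H) (aCTs P H) (aAD P) (aWr P) (aegm P H) (aton P H)

theorem aBe : S_Be P H :=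
  tBe P H (aTBd P H) (aphP P H) (aCTs P H) (aAD P) (aWr P) (aegm P H) (aton P H)

theorem aAA : S_AA P H :=
  tAA P H (aAl P H) (aCTs P H) (aegm P H) (aton P H) (aAD P)

theorem aBB : S_BB P H :=
  tBB P H (aBe P H) (aCTs P H) (aegm P H) (aton P H) (aAD P) (ainst P H) (aMQ P H)

theorem aLX1 : S_LX1 P H :=
  tLX1 P H (aAA P H) (aBB P H) (aLX0 P H) (amrg P H) (aCTs P H) (aton P H) (aegm P H) (aAD P)
    (aNB P)

theorem aLoc : S_Loc P H :=
  tLoc P H (aLX1 P H)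

theorem aOrb : S_Orb P H :=
  tOrb P H (aRls P H) (aLoc P H)

theorem aVan : S_Van P H :=
  tVan P H (aCTs P H) (aton P H) (aegm P H) (aphV P H) (aAD P) (ainst P H)

theorem aRlI : S_RlI P H :=
  tRlI P H (aLX1 P H) (aCTc P)

theorem aZI : S_ZI P H :=
  tZI P H (aRlI P H) (aOrb P H) (aVan P H) (aLoc P H) (aTrz P H) (aLXc P)

theorem aINS : S_INS P H :=
  tINS P H (aZI P H) (aCTs P H) (aphP P H) (aAD2 P) (aAD P) (aWr P) (aCTc P) (aegm P H) (aton P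
    H) (ainst P H)

theorem aQ1c : S_Q1c P H :=
  tQ1c P H (ams2 P) (amer3 P H) (aec P) (aegm P H) (aton P H) (alpn P H) (aIM P H) (aO P H) (anu
    P H) (aAD P) (amer P H) (ainst P H)

theorem aQ1 : S_Q1 P H :=
  tQ1 P H (aINS P H) (aQ1a P H) (aQ1b P H) (aQ1c P H) (aCTs P H)

theorem aFSc : S_FSc P H :=
  tFSc P H (aQ1 P H) (aSma P H) (aSmb P H) (atele P H) (apvp P H) (aegm P H)

theorem aFUc : S_FUc P H :=
  tFUc P H (aFSc P H) (aec P)

theorem aFVc : S_FVc P H :=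
  tFVc P H (aFSc P H) (aec P) (aphP P H) (aphV P H) (aIM P H) (aAD P) (aDF P) (aTB P) (aTTs P H)
    (apvp P H) (aegm P H)

theorem aF7ac : S_F7ac P H :=
  tF7ac P H (aCUs P H) (aFUc P H) (aFVc P H) (amer P H) (ams1 P) (aec P) (aphB P H) (alod P H)
    (aegm P H) (aton P H) (aDF P) (aAD P) (ainst P H)

theorem aF7bc : S_F7bc P H :=
  tF7bc P H (aCUs P H) (aFUc P H) (aFVc P H) (amer P H) (amer3 P H) (ams1 P) (aec P) (alod P H)
    (aegm P H) (aton P H) (aDF P)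

theorem aF7cc : S_F7cc P H :=
  tF7cc P H (aCUs P H) (aF7ac P H) (aF7bc P H) (alod P H) (aegm P H) (aton P H) (ainst P H)

theorem aI7c : S_I7c P H :=
  tI7c P H (aF7cc P H) (amn P H) (alod P H) (aBAL P H) (aFin P H) (aegm P H) (aton P H) (aMQ P
    H) (aec P)

end OnPHE

end Pool.Agent.MPEF.U
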