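import Pool.Agent.Lib.MP_ef3f0f_gt.U.F.Defs

set_option autoImplicit false

/-!
# MP_ef3f0f_gt, Theorem U, Part E (coercivity): definitions
-/

namespace Pool.Agent.MPEF.U

open MeasureTheory Topology
open scoped ENNReal Pointwise

/-- An edge class: a start window `S` with a centre `c`, and an end window `K`. -/
structure Ec (P : Type) where
  c : P
  S : Set P
  K : Set P

/-- Compact edge classes. -/
structure Ec.Ok {P : Type} [TopologicalSpace P] (e : Ec P) : Prop where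
  cS : e.c ∈ e.S
  Sc : IsCompact e.S
  Kc : IsCompact e.K

/-- The edge class of the germs near the frames `s` (start) and `k` (end). -/
def wn {P : Type} [Group P] (U : Set P) (s k : P) : Ec P := ⟨s, U * {s}, U * {k}⟩

/-- The kernel on `P` with the windows `S`, `K` and the `A`-part `s`:
`1_S * δ_s * 1_(ew K)`; `eP μ G (S * {d}) K 0 n = ec μ G S K (d * a^n)`. -/
noncomputable def ec {P : Type} [Group P] [MeasurableSpace P] (μ : Measure P) (G : PG P)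
    (S K : Set P) (s : P) : P → ℝ≥0∞ :=
  fun g => ∫⁻ q, iK S q * iK (G.ew K) (s⁻¹ * q⁻¹ * g) ∂μ

section

variable {P H : Type} [Group P] [Group H] [TopologicalSpace P] [MeasurableSpace P]
  [MeasurableSpace H]

/-- The edges of class `e`, range `R`, length `n`. -/
noncomputable def Dat.ke (D : Dat P H) (G : PG P) (e : Ec P) (R n : ℕ) : P × H → ℝ≥0∞ :=
  D.eg G e.S e.K R n

/-- Controlled functionals: `F R i φ ≤ C r^p E(φ)` for `r ≥ T` and the indices `i` with `ok T r i`; the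
list of theta types and the shift of the range do not depend on `R`. -/
def CT (D : Dat P H) (G : PG P) (p : ℕ) {ι : Type} (ok : ℕ → ℕ → ι → Prop)
    (F : ℕ → ι → (D.Γ → P → ℝ) → ℝ≥0∞) : Prop :=
  ∃ (L : List (Th P)) (c₀ : ℕ), (∀ t ∈ L, t.Ok G) ∧
    ∀ R : ℕ, ∃ (C : ℝ≥0∞) (T : ℕ), C ≠ ∞ ∧
      ∀ r, T ≤ r → ∀ i, ok T r i → ∀ φ, Adm D G φ →
        F R i φ ≤ C * (r : ℝ≥0∞) ^ p * D.EL G L (R + c₀) r φ

/-- Controlled functionals with small windows `U` depending on the range, and indices `(d, n, m)` with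
`d ∈ D1 ^ (2 R)`. -/
def CU (D : Dat P H) (G : PG P) (p : ℕ) (ok : ℕ → ℕ → ℕ → ℕ → Prop)
    (F : Set P → P → ℕ → ℕ → ℕ → (D.Γ → P → ℝ) → ℝ≥0∞) : Prop :=
  ∃ (L : List (Th P)) (c₀ : ℕ), (∀ t ∈ L, t.Ok G) ∧
    ∀ R : ℕ, ∃ U ∈ 𝓝 (1 : P), IsCompact U ∧ ∃ b₀ : ℕ, ∀ b, b₀ ≤ b → ∃ (C : ℝ≥0∞) (T : ℕ),
      C ≠ ∞ ∧ ∀ r, T ≤ r → ∀ d ∈ G.D1 ^ (2 * R), ∀ n m, ok T r n m → ∀ φ, Adm D G φ →
        F U d b n m φ ≤ C * (r : ℝ≥0∞) ^ p * D.EL G L (R + c₀) r φ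

/-- All lengths in `[r, 4r - T]`. -/
def okL (k : ℕ) (T r : ℕ) (i : Fin k → ℕ) : Prop := ∀ j, RG T r (i j)

/-- Lengths `≥ T` with sum in `[2r + T, 8r - T]`. -/
def okS (T r n m : ℕ) : Prop := T ≤ n ∧ T ≤ m ∧ 2 * r + T ≤ n + m ∧ n + m + T ≤ 8 * r

/-- The same for pairs of lengths. -/
def okS2 (T r : ℕ) (i : Fin 2 → ℕ) : Prop := okS T r (i 0) (i 1)

/-- `u g` if `b`, else `u`. -/
def ins {Γ : Type} [Group Γ] (b : Bool) (u g : Γ) : Γ := if b then u * g else u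

/-- The end germ seen from behind the loop `g`: `g⁻¹ k` if `b`, else `k`. -/
def shf {P : Type} [Group P] (b : Bool) (g k : P) : P := if b then g⁻¹ * k else k

/-- Thetas `(u g^ε₀, v g^ε₁, w g^ε₂)` from `x` to `z`, with a loop `g` at `z` in `Q × O^c`. -/
noncomputable def FT (D : Dat P H) (G : PG P) (Q : Set P) (c : ℕ) (ε : Fin 3 → Bool)
    (e : Fin 3 → Ec P) (R : ℕ) (i : Fin 3 → ℕ) (φ : D.Γ → P → ℝ) : ℝ≥0∞ :=
  D.IM fun z => D.lp (Q ×ˢ (D.O ^ c)) z fun g => D.IM fun x =>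
    D.st3 (D.ke G (e 0) R (i 0)) (D.ke G (e 1) R (i 1)) (D.ke G (e 2) R (i 2)) x z
      fun u v w => ab (dl G φ (e 0).c (e 1).c (e 2).c x (ins (ε 0) u g) (ins (ε 1) v g)
        (ins (ε 2) w g))

/-- The effect of the insertion of the loop `g` at the end of `u`. -/
noncomputable def FE (D : Dat P H) (G : PG P) (Q : Set P) (c : ℕ) (eu ev : Ec P) (R : ℕ)
    (i : Fin 2 → ℕ) (φ : D.Γ → P → ℝ) : ℝ≥0∞ :=
  D.IM fun z => D.lp (Q ×ˢ (D.O ^ c)) z fun g => D.IM fun x =>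
    D.st2 (D.ke G eu R (i 0)) (D.ke G ev R (i 1)) x z fun u v => ab (Dg G φ eu.c x g u v)

/-- Change of `v` in the effect. -/
noncomputable def FA (D : Dat P H) (G : PG P) (Q : Set P) (c : ℕ) (eu ev ev' : Ec P) (R : ℕ)
    (i : Fin 3 → ℕ) (φ : D.Γ → P → ℝ) : ℝ≥0∞ :=
  D.IM fun z => D.lp (Q ×ˢ (D.O ^ c)) z fun g => D.IM fun x =>
    D.st3 (D.ke G eu R (i 0)) (D.ke G ev R (i 1)) (D.ke G ev' R (i 2)) x z
      fun u v v' => ab (Dg G φ eu.c x g u v - Dg G φ eu.c x g u v')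

/-- Change of `u` in the effect. -/
noncomputable def FB (D : Dat P H) (G : PG P) (Q : Set P) (c : ℕ) (eu eu' ev : Ec P) (R : ℕ)
    (i : Fin 3 → ℕ) (φ : D.Γ → P → ℝ) : ℝ≥0∞ :=
  D.IM fun z => D.lp (Q ×ˢ (D.O ^ c)) z fun g => D.IM fun x =>
    D.st3 (D.ke G eu R (i 0)) (D.ke G eu' R (i 1)) (D.ke G ev R (i 2)) x z
      fun u u' v => ab (Dg G φ eu.c x g u v - Dg G φ eu'.c x g u' v)

/-- Change of the base point and of both edges in the effect. -/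
noncomputable def FX (D : Dat P H) (G : PG P) (Q : Set P) (c : ℕ) (eu ev eu' ev' : Ec P) (R : ℕ)
    (i : Fin 4 → ℕ) (φ : D.Γ → P → ℝ) : ℝ≥0∞ :=
  D.IM fun z => D.lp (Q ×ˢ (D.O ^ c)) z fun g => D.IM fun x => D.IM fun x' =>
    D.st2 (D.ke G eu R (i 0)) (D.ke G ev R (i 1)) x z fun u v =>
      D.st2 (D.ke G eu' R (i 2)) (D.ke G ev' R (i 3)) x' z fun u' v' =>
        ab (Dg G φ eu.c x g u v - Dg G φ eu'.c x' g u' v')

/-- The effects of the loops near `gc` at the pairs of end germs near `(k, k')` and near `(l, l')` are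
equal up to controlled errors, for all pairs of start germs. -/
def Rel (D : Dat P H) (G : PG P) (gc : P) (c : ℕ) (k k' l l' : P) : Prop :=
  ∀ s t s' t' : P, G.Pos s t → G.Pos s' t' → ∃ U ∈ 𝓝 (1 : P), IsCompact U ∧
    CT D G 0 (okL 4) (FX D G (U * {gc}) c (wn U s k) (wn U t k') (wn U s' l) (wn U t' l'))

/-- Convolution of `K` with `δ_a ⊗ ν` on the right. -/
noncomputable def opF (D : Dat P H) (a : P) (K : P × H → ℝ≥0∞) : P × H → ℝ≥0∞ :=
  fun g => ∫⁻ h, D.ν h * K (g * (a, h)⁻¹) ∂D.μ₂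

/-- Convolution of `K` with `δ_a ⊗ ν` on the left. -/
noncomputable def opB (D : Dat P H) (a : P) (K : P × H → ℝ≥0∞) : P × H → ℝ≥0∞ :=
  fun g => ∫⁻ h, D.ν h * K ((a, h)⁻¹ * g) ∂D.μ₂

/-- The kernel of an edge seen from the point `x (a, h)`. -/
noncomputable def opL (D : Dat P H) (a : P) (K : P × H → ℝ≥0∞) : P × H → ℝ≥0∞ :=
  fun g => ∫⁻ h, D.ν h * K ((a, h) * g) ∂D.μ₂

/-- The kernel of an edge seen from the end point `y (a, h)⁻¹`. -/
noncomputable def opR (D : Dat P H) (a : P) (K : P × H → ℝ≥0∞) : P × H → ℝ≥0∞ :=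
  fun g => ∫⁻ h, D.ν h * K (g * (a, h)) ∂D.μ₂

/-- `∫_{M²} ∑_V ∑_{u,u'} |ψ(x; u, V) - ψ(x; u', V)|`. -/
noncomputable def TT (D : Dat P H) (KV K₁ K₂ : P × H → ℝ≥0∞)
    (ψ : P × H → D.Γ → D.Γ → ℝ) : ℝ≥0∞ :=
  D.IM fun x => D.IM fun y => ∑' V : D.Γ, KV (x⁻¹ * (V : P × H) * y) *
    D.st2 K₁ K₂ x y fun u u' => ab (ψ x u V - ψ x u' V)

/-- The value of `φ` on the loop `u v⁻¹` (framing near `x`). -/
noncomputable def pv {D : Dat P H} (G : PG P) (φ : D.Γ → P → ℝ) : P × H → D.Γ → D.Γ → ℝ :=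
  fun x u v => ph G φ (u * v⁻¹) x.1

/-- Straight chords of length `s`. -/
noncomputable def Dat.ch (D : Dat P H) (G : PG P) (U : Set P) (s : ℕ) : P × H → ℝ≥0∞ :=
  D.eg G U (G.uw U) 0 s

/-- One step of the telescoping. -/
noncomputable def FQ (D : Dat P H) (G : PG P) (U : Set P) (s : ℕ) (R : ℕ) (i : Fin 2 → ℕ)
    (φ : D.Γ → P → ℝ) : ℝ≥0∞ :=
  TT D (D.eg G (G.uw U) U (2 * R) (i 0 + i 1)) (opF D G.a (D.ch G U s))
    (opB D G.a (D.ch G U s)) (pv G φ)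

/-- Five edges: `V₁ : x' → x`, `V₂ : x' → y`, `c, c' : x → y`, `γ : y → x`. -/
noncomputable def F5 (D : Dat P H) (G : PG P) (U : Set P) (s t : ℕ) (R n m : ℕ)
    (f : P × H → P × H → P × H → D.Γ → D.Γ → D.Γ → D.Γ → D.Γ → ℝ≥0∞) : ℝ≥0∞ :=
  D.IM fun x' => D.IM fun x => D.IM fun y => ∑' V₁ : D.Γ, ∑' V₂ : D.Γ, ∑' c : D.Γ, ∑' c' : D.Γ,
    ∑' γ : D.Γ, D.eg G (G.uw U) (G.uw U) R n (x'⁻¹ * (V₁ : P × H) * x) *
      D.eg G U U R m (x'⁻¹ * (V₂ : P × H) * y) * D.ch G U s (x⁻¹ * (c : P × H) * y) *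
      D.ch G U s (x⁻¹ * (c' : P × H) * y) * D.ch G U t (y⁻¹ * (γ : P × H) * x) *
      f x' x y V₁ V₂ c c' γ

/-- Comparison of two edges of the straight class, for a backward edge of range `2 R`. -/
noncomputable def FS (D : Dat P H) (G : PG P) (U : Set P) (R : ℕ) (i : Fin 2 → ℕ)
    (φ : D.Γ → P → ℝ) : ℝ≥0∞ :=
  TT D (D.eg G (G.uw U) U (2 * R) (i 1)) (D.ch G U (i 0)) (D.ch G U (i 0)) (pv G φ)

/-- The backward edges with the `A`-part `d`. -/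
noncomputable def Dat.bk (D : Dat P H) (G : PG P) (U : Set P) (d : P) (m : ℕ) : P × H → ℝ≥0∞ :=
  D.eg G (G.uw U * {d}) U 0 m

/-- Two backward edges. -/
noncomputable def FV (D : Dat P H) (G : PG P) (U : Set P) (d : P) (_b n m : ℕ)
    (φ : D.Γ → P → ℝ) : ℝ≥0∞ :=
  D.IM fun x => D.IM fun y => ∑' u : D.Γ, D.ch G U n (x⁻¹ * (u : P × H) * y) *
    D.st2 (D.bk G U d m) (D.bk G U d m) x y fun V V' => ab (pv G φ x u V - pv G φ x u V')

/-- Two forward edges. -/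
noncomputable def FU (D : Dat P H) (G : PG P) (U : Set P) (d : P) (_b n m : ℕ)
    (φ : D.Γ → P → ℝ) : ℝ≥0∞ :=
  D.IM fun x => D.IM fun y => ∑' V : D.Γ, D.bk G U d m (x⁻¹ * (V : P × H) * y) *
    D.st2 (D.ch G U n) (D.ch G U n) x y fun u u' => ab (pv G φ x u V - pv G φ x u' V)

/-- Two standard pairs, `(x, y)` with the lengths `n + b, m` and `(x', y)` with the lengths `n, m + b`. -/
noncomputable def F7a (D : Dat P H) (G : PG P) (U : Set P) (d : P) (b n m : ℕ)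
    (φ : D.Γ → P → ℝ) : ℝ≥0∞ :=
  D.IM fun x => D.IM fun x' => D.IM fun y =>
    D.st2 (D.ch G U (n + b)) (D.bk G U d m) x y fun u V =>
      D.st2 (D.ch G U n) (D.bk G U d (m + b)) x' y fun u' V' =>
        ab (pv G φ x u V - pv G φ x' u' V')

/-- Two standard pairs, `(x, y)` with the lengths `n + b, m` and `(x, y')` with the lengths `n, m + b`. -/
noncomputable def F7b (D : Dat P H) (G : PG P) (U : Set P) (d : P) (b n m : ℕ)
    (φ : D.Γ → P → ℝ) : ℝ≥0∞ :=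
  D.IM fun x => D.IM fun y => D.IM fun y' =>
    D.st2 (D.ch G U (n + b)) (D.bk G U d m) x y fun u V =>
      D.st2 (D.ch G U n) (D.bk G U d (m + b)) x y' fun u' V' =>
        ab (pv G φ x u V - pv G φ x u' V')

/-- Two independent standard pairs with the same lengths. -/
noncomputable def F7c (D : Dat P H) (G : PG P) (U : Set P) (d : P) (b n m : ℕ)
    (φ : D.Γ → P → ℝ) : ℝ≥0∞ :=
  D.IM fun x => D.IM fun y => D.IM fun x' => D.IM fun y' =>
    D.st2 (D.ch G U (n + b)) (D.bk G U d m) x y fun u V =>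
      D.st2 (D.ch G U (n + b)) (D.bk G U d m) x' y' fun u' V' =>
        ab (pv G φ x u V - pv G φ x' u' V')

/-- The mass of `φ` on the standard pairs. -/
noncomputable def F7 (D : Dat P H) (G : PG P) (U : Set P) (d : P) (b n m : ℕ)
    (φ : D.Γ → P → ℝ) : ℝ≥0∞ :=
  D.PX G 1 (D.ch G U (n + b)) (D.bk G U d m) φ

end

end Pool.Agent.MPEF.U
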