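import Pool.Agent.Lib.MP_ef3f0f_gt.U.E.SpecB

set_option autoImplicit false
set_option linter.unusedSectionVars false

/-!
# MP_ef3f0f_gt, Theorem U, Part E, module `KVd`: smoothing of a backward edge
-/

namespace Pool.Agent.MPEF.U

open MeasureTheory Topology
open scoped ENNReal Pointwise

section KVdaux

variable {P : Type} [Group P]

private theorem KVd_iK_mono {S S' : Set P} {x y : P} (h : x ∈ S → y ∈ S') :
    iK S x ≤ iK S' y := by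
  unfold iK
  by_cases hx : x ∈ S
  · rw [Set.indicator_of_mem hx, Set.indicator_of_mem (h hx)]
  · rw [Set.indicator_of_notMem hx]
    exact zero_le

variable [TopologicalSpace P] [IsTopologicalGroup P] [LocallyCompactSpace P]
  [T2Space P] [SecondCountableTopology P] [MeasurableSpace P] [BorelSpace P]

private theorem KVd_ew (G : PG P) {K : Set P} (hK : IsCompact K) : IsCompact (G.ew K) := by
  have h : G.ew K = (fun κ => G.w * κ⁻¹) '' K := by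
    ext q
    constructor
    · intro h
      exact ⟨q⁻¹ * G.w, h, by group⟩
    · rintro ⟨κ, hκ, rfl⟩
      change (G.w * κ⁻¹)⁻¹ * G.w ∈ K
      rwa [show (G.w * κ⁻¹)⁻¹ * G.w = κ by group]
  rw [h]
  exact hK.image (by fun_prop)

private theorem KVd_meas {S : Set P} (hS : IsCompact S) : Measurable (iK S) :=
  measurable_const.indicator hS.isClosed.measurableSet

private theorem KVd_int {μ : Measure P} {S : Set P} (hS : IsCompact S) :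
    ∫⁻ g, iK S g ∂μ = μ S := by
  unfold iK
  rw [lintegral_indicator_const hS.isClosed.measurableSet, one_mul]

private theorem KVd_set {μ : Measure P} {S : Set P} (hS : IsCompact S) (f : P → ℝ≥0∞) :
    ∫⁻ q in S, f q ∂μ = ∫⁻ q, iK S q * f q ∂μ := by
  rw [← lintegral_indicator hS.isClosed.measurableSet]
  refine lintegral_congr fun q => ?_
  unfold iK
  by_cases hq : q ∈ S
  · rw [Set.indicator_of_mem hq, Set.indicator_of_mem hq, one_mul]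
  · rw [Set.indicator_of_notMem hq, Set.indicator_of_notMem hq, zero_mul]

private theorem KVd_sw {μ : Measure P} [SFinite μ] {f g : P → ℝ≥0∞} (hf : Measurable f)
    (hg : Measurable g) {K : P × P → ℝ≥0∞} (hK : Measurable K) :
    ∫⁻ x, f x * ∫⁻ y, g y * K (x, y) ∂μ ∂μ = ∫⁻ y, g y * ∫⁻ x, f x * K (x, y) ∂μ ∂μ := by
  have e1 : ∀ x, f x * ∫⁻ y, g y * K (x, y) ∂μ = ∫⁻ y, f x * (g y * K (x, y)) ∂μ := fun x =>
    (lintegral_const_mul _ (hg.mul (hK.comp (measurable_const.prodMk measurable_id)))).symm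
  have e2 : ∀ y, g y * ∫⁻ x, f x * K (x, y) ∂μ = ∫⁻ x, f x * (g y * K (x, y)) ∂μ := by
    intro y
    have := lintegral_const_mul (μ := μ) (g y)
      (hf.mul (hK.comp (measurable_id.prodMk (measurable_const (a := y)))))
    refine this.symm.trans (lintegral_congr fun x => ?_)
    exact mul_left_comm _ _ _
  simp only [e1, e2]
  refine lintegral_lintegral_swap (f := fun x y => f x * (g y * K (x, y))) ?_
  exact ((hf.comp measurable_fst).mul ((hg.comp measurable_snd).mul hK)).aemeasurable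

private theorem KVd_core {μ : Measure P} [SFinite μ] [μ.IsMulLeftInvariant] [μ.IsInvInvariant]
    {k₁ k₂ k₃ : P → ℝ≥0∞} (h₁ : Measurable k₁) (h₂ : Measurable k₂) (h₃ : Measurable k₃)
    (A B C g : P) :
    ∫⁻ q, k₃ q * ∫⁻ q', k₃ q' *
      ∫⁻ p, k₁ p * k₂ (A⁻¹ * p⁻¹ * (B * q * g * q'⁻¹ * C)) ∂μ ∂μ ∂μ =
    ∫⁻ p, k₁ p * ∫⁻ t, k₂ t *
      ∫⁻ q, k₃ q * k₃ (C * t⁻¹ * A⁻¹ * p⁻¹ * B * q * g) ∂μ ∂μ ∂μ := by
  have e1 : ∀ q, ∫⁻ q', k₃ q' *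
      ∫⁻ p, k₁ p * k₂ (A⁻¹ * p⁻¹ * (B * q * g * q'⁻¹ * C)) ∂μ ∂μ =
      ∫⁻ p, k₁ p * ∫⁻ t, k₂ t * k₃ (C * t⁻¹ * A⁻¹ * p⁻¹ * B * q * g) ∂μ ∂μ := by
    intro q
    have := KVd_sw (μ := μ) (f := k₃) (g := k₁) h₃ h₁
      (K := fun z : P × P => k₂ (A⁻¹ * z.2⁻¹ * (B * q * g * z.1⁻¹ * C)))
      (h₂.comp (by fun_prop))
    refine this.trans (lintegral_congr fun p => ?_)
    congr 1
    set X : P := A⁻¹ * p⁻¹ * B * q * g with hX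
    set F : P → ℝ≥0∞ := fun t => k₂ t * k₃ (C * t⁻¹ * X) with hF
    have hF' : ∀ t, k₂ t * k₃ (C * t⁻¹ * A⁻¹ * p⁻¹ * B * q * g) = F t := by
      intro t
      rw [hF, hX]
      simp only [mul_assoc]
    simp only [hF']
    have s1 : ∫⁻ t, F t ∂μ = ∫⁻ t, F (X * t) ∂μ := (lintegral_mul_left_eq_self F X).symm
    have s2 : ∫⁻ t, F (X * t) ∂μ = ∫⁻ t, F (X * t⁻¹) ∂μ :=
      (lintegral_inv_eq_self (fun t => F (X * t))).symm
    have s3 : ∫⁻ t, F (X * t⁻¹) ∂μ = ∫⁻ t, F (X * (C⁻¹ * t)⁻¹) ∂μ :=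
      (lintegral_mul_left_eq_self (fun t => F (X * t⁻¹)) C⁻¹).symm
    rw [s1, s2, s3]
    refine lintegral_congr fun y => ?_
    have t1 : A⁻¹ * (y, p).2⁻¹ * (B * q * g * (y, p).1⁻¹ * C) = X * (C⁻¹ * y)⁻¹ := by
      rw [hX]
      group
    have t2 : C * (X * (C⁻¹ * y)⁻¹)⁻¹ * X = y := by group
    change k₃ y * k₂ (A⁻¹ * (y, p).2⁻¹ * (B * q * g * (y, p).1⁻¹ * C)) =
      k₂ (X * (C⁻¹ * y)⁻¹) * k₃ (C * (X * (C⁻¹ * y)⁻¹)⁻¹ * X)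
    rw [t1, t2, mul_comm]
  simp only [e1]
  have m3 : Measurable fun z : (P × P) × P =>
      k₂ z.2 * k₃ (C * z.2⁻¹ * A⁻¹ * z.1.2⁻¹ * B * z.1.1 * g) :=
    (h₂.comp measurable_snd).mul (h₃.comp (by fun_prop))
  have e2 := KVd_sw (μ := μ) (f := k₃) (g := k₁) h₃ h₁
    (K := fun z : P × P => ∫⁻ t, k₂ t * k₃ (C * t⁻¹ * A⁻¹ * z.2⁻¹ * B * z.1 * g) ∂μ)
    m3.lintegral_prod_right'
  refine e2.trans (lintegral_congr fun p => ?_)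
  congr 1
  exact KVd_sw (μ := μ) (f := k₃) (g := k₂) h₃ h₂
    (K := fun z : P × P => k₃ (C * z.2⁻¹ * A⁻¹ * p⁻¹ * B * z.1 * g)) (h₃.comp (by fun_prop))

private theorem KVd_nb {f : P × P → P} (hf : Continuous f) {U : Set P} (hU : U ∈ 𝓝 (1 : P))
    (h1 : f (1, 1) = 1) : ∃ N ∈ 𝓝 (1 : P), ∀ x ∈ N, ∀ y ∈ N, f (x, y) ∈ U := by
  have hm : f ⁻¹' U ∈ 𝓝 ((1 : P), (1 : P)) := hf.continuousAt (by rw [h1]; exact hU)
  rw [nhds_prod_eq, Filter.mem_prod_self_iff] at hm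
  obtain ⟨t, ht, hs⟩ := hm
  exact ⟨t, ht, fun x hx y hy => hs (Set.mk_mem_prod hx hy)⟩

end KVdaux

variable (P : Type) [Group P] [TopologicalSpace P] [IsTopologicalGroup P] [LocallyCompactSpace P]
  [T2Space P] [SecondCountableTopology P] [MeasurableSpace P] [BorelSpace P]

theorem tKVd : S_ck P → S_TB P → S_DF P → S_KVd P := by
  intro _h1 _h2 hDF G μ hμ hG U hU
  have := hμ.haar
  have := hμ.right
  have := hμ.inv
  obtain ⟨dC, dA, d1, -, -, -, dM, dan, dwa, dmon, dT⟩ := hDF G hG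
  have hww : G.w * G.w = 1 := hG.ww
  have hwi : G.w⁻¹ = G.w := inv_eq_of_mul_eq_one_left hww
  have ha0 : ∀ n : ℕ, G.a ^ n ∈ G.Dp 0 := fun n => dmon 0 n (Nat.zero_le n) (hG.Dpa n)
  -- the neighbourhood `N`
  obtain ⟨N, hN, hn⟩ : ∃ N ∈ 𝓝 (1 : P), (∀ u ∈ N, ∀ e₁ ∈ N, ∀ e₂ ∈ N, ∀ δ₁ ∈ N, ∀ δ₂ ∈ N,
      u⁻¹ * (G.w * (e₁ * e₂ * (δ₂ * δ₁)) * G.w) ∈ U) ∧
      ∀ u ∈ N, ∀ e ∈ N, u⁻¹ * (G.w * e⁻¹ * G.w) ∈ U := by
    obtain ⟨A, hA, a1⟩ := KVd_nb (f := fun z : P × P => z.1⁻¹ * (G.w * z.2 * G.w))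
      (by fun_prop) hU (by simp [hww])
    obtain ⟨B, hB, b1⟩ := KVd_nb (f := fun z : P × P => z.1 * z.2) (by fun_prop) hA (by simp)
    obtain ⟨C, hC, c1⟩ := KVd_nb (f := fun z : P × P => z.1 * z.2) (by fun_prop) hB (by simp)
    obtain ⟨D, hD, d1⟩ := KVd_nb (f := fun z : P × P => z.1⁻¹ * (G.w * z.2⁻¹ * G.w))
      (by fun_prop) hU (by simp [hww])
    refine ⟨A ∩ C ∩ D, Filter.inter_mem (Filter.inter_mem hA hC) hD, ?_, ?_⟩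
    · intro u hu e₁ he₁ e₂ he₂ δ₁ hδ₁ δ₂ hδ₂
      exact a1 u hu.1.1 _ (b1 _ (c1 _ he₁.1.2 _ he₂.1.2) _ (c1 _ hδ₂.1.2 _ hδ₁.1.2))
    · intro u hu e he
      exact d1 u hu.2 e he.2
  obtain ⟨V₂, hV₂, hv₂⟩ := hG.JN1 N hN
  obtain ⟨VD, hVD, hvD⟩ := hG.D1n
  obtain ⟨N₁, hN₁, hn₁⟩ : ∃ N₁ ∈ 𝓝 (1 : P), ∀ e ∈ N₁, ∀ v ∈ N₁,
      e * (G.w * v⁻¹ * G.w) ∈ V₂ :=
    KVd_nb (f := fun z : P × P => z.1 * (G.w * z.2⁻¹ * G.w)) (by fun_prop) hV₂ (by simp [hww])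
  obtain ⟨V₁, hV₁, hv₁⟩ := hG.JN1 (N ∩ N₁ ∩ VD)
    (Filter.inter_mem (Filter.inter_mem hN hN₁) hVD)
  obtain ⟨Uv, hUv, hUvc, hUvs⟩ : ∃ Uv ∈ 𝓝 (1 : P), IsCompact Uv ∧
      ∀ v ∈ Uv, v ∈ N₁ ∧ G.w * v * G.w ∈ V₁ := by
    have hc : ContinuousAt (fun v : P => G.w * v * G.w) 1 := by fun_prop
    have hm : (fun v : P => G.w * v * G.w) ⁻¹' V₁ ∈ 𝓝 (1 : P) :=
      hc (by simpa [hww] using hV₁)
    obtain ⟨K, hK, hKs, hKc⟩ := local_compact_nhds (Filter.inter_mem hN₁ hm)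
    exact ⟨K, hK, hKc, fun v hv => hKs hv⟩
  obtain ⟨Us, hUs, hUss, hUsc⟩ := local_compact_nhds hN
  refine ⟨Uv, hUv, hUvc, Us, hUs, hUsc, fun R => ?_⟩
  obtain ⟨T₁, hT₁⟩ := dT (2 * R) 0
  obtain ⟨T₂, hT₂⟩ := dT (1 + 2 * R) 0
  have cD := dC (2 * R)
  have c1 : IsCompact (G.uw Uv * G.D1 ^ (2 * R)) := (hUvc.mul isCompact_singleton).mul cD
  have c2 := KVd_ew G hUvc
  refine ⟨μ (G.uw Uv * G.D1 ^ (2 * R)) * μ (G.ew Uv), max T₁ T₂,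
    ENNReal.mul_ne_top c1.measure_lt_top.ne c2.measure_lt_top.ne, fun m hm j l g => ?_⟩
  have hm1 : T₁ ≤ m := (le_max_left _ _).trans hm
  have hm2 : T₂ ≤ m := (le_max_right _ _).trans hm
  rw [KVd_set hUsc]
  simp only [KVd_set hUsc]
  unfold eP kk
  rw [KVd_core (KVd_meas c1) (KVd_meas c2) (KVd_meas hUsc)]
  set E : ℝ≥0∞ := ∫⁻ q, iK (G.uw U * G.D1 ^ (2 * R)) q *
    iK (G.ew U) ((G.a ^ (j + m + l))⁻¹ * q⁻¹ * g) ∂μ with hE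
  have key : ∀ p ∈ G.uw Uv * G.D1 ^ (2 * R), ∀ t ∈ G.ew Uv,
      ∫⁻ q, iK Us q * iK Us (G.a ^ l * t⁻¹ * (G.a ^ m)⁻¹ * p⁻¹ * G.a ^ j * q * g) ∂μ ≤ E := by
    rintro p ⟨pw, ⟨v, hv, w', hw', rfl⟩, d, hd, rfl⟩ t ht
    rw [Set.mem_singleton_iff.1 hw']
    have hv' : t⁻¹ * G.w ∈ Uv := ht
    obtain ⟨v', hv'e⟩ : ∃ v', v' = t⁻¹ * G.w := ⟨_, rfl⟩
    rw [← hv'e] at hv'
    have ht' : t = G.w * v'⁻¹ := by rw [hv'e]; group
    have hdA : d ∈ G.A := dA _ hd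
    obtain ⟨e₁, he₁, e₁', he₁', δ₁, hδ₁A, hδ₁, E1⟩ := hv₁ (G.a ^ j) (ha0 j) (d * G.a ^ m)
      (hT₁ m hm1 d hd) (G.w * v * G.w) (hUvs v hv).2
    have hδ₁D : δ₁ ∈ G.D1 ^ 1 := by
      rw [pow_one]
      exact hvD ⟨hδ₁.2, hδ₁A⟩
    have hs : δ₁ * G.a ^ j * (d * G.a ^ m) = δ₁ * d * G.a ^ (j + m) := by
      rw [pow_add]
      calc δ₁ * G.a ^ j * (d * G.a ^ m) = δ₁ * (G.a ^ j * d) * G.a ^ m := by
            simp only [mul_assoc]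
        _ = δ₁ * (d * G.a ^ j) * G.a ^ m := by rw [hG.comm _ (dan j) _ hdA]
        _ = _ := by simp only [mul_assoc]
    have hs0 : δ₁ * G.a ^ j * (d * G.a ^ m) ∈ G.Dp 0 := by
      rw [hs]
      exact hT₂ (j + m) (hm2.trans (Nat.le_add_left _ _)) _ (dM 1 (2 * R) _ hδ₁D _ hd)
    obtain ⟨e₂, he₂, e₂', he₂', δ₂, hδ₂A, hδ₂, E2⟩ := hv₂ _ hs0 (G.a ^ l) (ha0 l)
      (e₁' * (G.w * v'⁻¹ * G.w)) (hn₁ _ he₁'.1.2 _ (hUvs v' hv').1)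
    obtain ⟨Y, hY⟩ : ∃ Y, Y = e₁ * e₂ * (δ₂ * δ₁) * d := ⟨_, rfl⟩
    have hai : ∀ n : ℕ, (G.a ^ n)⁻¹ = G.w * G.a ^ n * G.w := by
      intro n
      rw [dwa n, mul_assoc, hww, mul_one]
    have hh : (G.a ^ j)⁻¹ * (v * G.w * d) * G.a ^ m * t * (G.a ^ l)⁻¹ =
        G.w * Y * G.a ^ (j + m + l) * e₂' * G.w := by
      calc (G.a ^ j)⁻¹ * (v * G.w * d) * G.a ^ m * t * (G.a ^ l)⁻¹
          = G.w * (G.a ^ j * (G.w * v * G.w) * (d * G.a ^ m)) * (G.w * v'⁻¹ * G.w) *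
              G.a ^ l * G.w := by
            rw [hai j, hai l, ht']
            simp only [mul_assoc]
        _ = G.w * e₁ * (δ₁ * G.a ^ j * (d * G.a ^ m) * (e₁' * (G.w * v'⁻¹ * G.w)) * G.a ^ l) *
              G.w := by
            rw [E1]
            simp only [mul_assoc]
        _ = G.w * e₁ * (e₂ * (δ₂ * (δ₁ * d * G.a ^ (j + m)) * G.a ^ l) * e₂') * G.w := by
            rw [E2, hs]
        _ = G.w * Y * G.a ^ (j + m + l) * e₂' * G.w := by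
            rw [hY, pow_add G.a (j + m) l]
            simp only [mul_assoc]
    have hhi : G.a ^ l * t⁻¹ * (G.a ^ m)⁻¹ * (v * G.w * d)⁻¹ * G.a ^ j =
        G.w * e₂'⁻¹ * (G.a ^ (j + m + l))⁻¹ * Y⁻¹ * G.w := by
      have h2 := congrArg (fun x => x⁻¹) hh
      simp only [mul_inv_rev, inv_inv, hwi] at h2 ⊢
      simp only [mul_assoc] at h2 ⊢
      exact h2
    set F : P → ℝ≥0∞ := fun q => iK Us q *
      iK Us (G.w * e₂'⁻¹ * (G.a ^ (j + m + l))⁻¹ * Y⁻¹ * G.w * q * g) with hF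
    have hF0 : ∀ q, iK Us q * iK Us (G.a ^ l * t⁻¹ * (G.a ^ m)⁻¹ * (v * G.w * d)⁻¹ *
        G.a ^ j * q * g) = F q := by
      intro q
      rw [hhi]
    change ∫⁻ q, iK Us q * iK Us (G.a ^ l * t⁻¹ * (G.a ^ m)⁻¹ * (v * G.w * d)⁻¹ *
        G.a ^ j * q * g) ∂μ ≤ E
    simp only [hF0]
    rw [← lintegral_mul_left_eq_self F (G.w * Y),
      ← lintegral_inv_eq_self (fun q => F (G.w * Y * q)), hE]
    refine lintegral_mono fun q => mul_le_mul' (KVd_iK_mono fun hq => ?_)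
      (KVd_iK_mono fun hq => ?_)
    · -- `q = u⁻¹ w Y`
      obtain ⟨u, hu⟩ : ∃ u, u = G.w * Y * q⁻¹ := ⟨_, rfl⟩
      rw [← hu] at hq
      have hq' : q = (u⁻¹ * (G.w * (e₁ * e₂ * (δ₂ * δ₁)) * G.w) * G.w) * d := by
        have : q = u⁻¹ * (G.w * Y) := by rw [hu]; group
        rw [this, hY]
        simp only [mul_assoc]
        rw [← mul_assoc G.w G.w, hww, one_mul]
      rw [hq']
      exact Set.mul_mem_mul (Set.mul_mem_mul (hn.1 u (hUss hq) _ he₁.1.1 _ he₂ _ hδ₁.1.1 _ hδ₂)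
        rfl) hd
    · obtain ⟨u, hu⟩ : ∃ u, u = G.w * e₂'⁻¹ * (G.a ^ (j + m + l))⁻¹ * Y⁻¹ * G.w *
          (G.w * Y * q⁻¹) * g := ⟨_, rfl⟩
      rw [← hu] at hq
      have hu' : u = G.w * e₂'⁻¹ * ((G.a ^ (j + m + l))⁻¹ * q⁻¹ * g) := by
        rw [hu]
        simp only [mul_assoc]
        rw [← mul_assoc G.w G.w, hww, one_mul, inv_mul_cancel_left]
      change ((G.a ^ (j + m + l))⁻¹ * q⁻¹ * g)⁻¹ * G.w ∈ U
      have : ((G.a ^ (j + m + l))⁻¹ * q⁻¹ * g)⁻¹ * G.w = u⁻¹ * (G.w * e₂'⁻¹ * G.w) := by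
        rw [hu']
        group
      rw [this]
      exact hn.2 u (hUss hq) _ he₂'
  have b1 : ∀ p, iK (G.uw Uv * G.D1 ^ (2 * R)) p * ∫⁻ t, iK (G.ew Uv) t *
      ∫⁻ q, iK Us q * iK Us (G.a ^ l * t⁻¹ * (G.a ^ m)⁻¹ * p⁻¹ * G.a ^ j * q * g) ∂μ ∂μ ≤
      iK (G.uw Uv * G.D1 ^ (2 * R)) p * (μ (G.ew Uv) * E) := by
    intro p
    by_cases hp : p ∈ G.uw Uv * G.D1 ^ (2 * R)
    · refine mul_le_mul_right ?_ _
      rw [← KVd_int c2, ← lintegral_mul_const _ (KVd_meas c2)]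
      refine lintegral_mono fun t => ?_
      by_cases ht : t ∈ G.ew Uv
      · exact mul_le_mul_right (key p hp t ht) _
      · have : iK (G.ew Uv) t = 0 := Set.indicator_of_notMem ht _
        rw [this, zero_mul, zero_mul]
    · have : iK (G.uw Uv * G.D1 ^ (2 * R)) p = 0 := Set.indicator_of_notMem hp _
      rw [this, zero_mul, zero_mul]
  refine (lintegral_mono b1).trans ?_
  rw [lintegral_mul_const _ (KVd_meas c1), KVd_int c1, mul_assoc]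

end Pool.Agent.MPEF.U
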