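import Pool.Agent.Lib.MP_ef3f0f_gt.U.E.SpecA

set_option autoImplicit false
set_option linter.unusedSectionVars false

/-!
# MP_ef3f0f_gt, Theorem U, Part E: the orbit
-/

namespace Pool.Agent.MPEF.U

open MeasureTheory Topology
open scoped ENNReal Pointwise

variable (P H : Type) [Group P] [Group H] [TopologicalSpace P] [TopologicalSpace H]
  [IsTopologicalGroup P] [IsTopologicalGroup H] [LocallyCompactSpace P] [LocallyCompactSpace H]
  [T2Space P] [T2Space H] [SecondCountableTopology P] [SecondCountableTopology H]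
  [MeasurableSpace P] [MeasurableSpace H] [BorelSpace P] [BorelSpace H]

theorem tOrb : S_Rls P H → S_Loc P H → S_Orb P H := by
  intro hR hL D G hF c z d hd
  have hG := hF.gok
  let r : P → P → Prop := fun t t' =>
    Rel D G (z * d * z⁻¹) c (z * t * G.w) (z * t) (z * t' * G.w) (z * t')
  have hr : r 1 G.J := by
    refine hG.K0c.induction₂ r ?_ ?_ ?_ hG.K01 hG.K0J
    · intro t ht
      have h1 : G.Pos (z * t * G.w) (z * t) := by
        have h := (hG.Pl (z * t) G.w 1).2 ((hG.Ps _ _).1 hG.P1)
        rwa [mul_one] at h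
      have h2 : G.Pos ((z * d * z⁻¹)⁻¹ * (z * t * G.w)) (z * t) := by
        have e : (z * d * z⁻¹)⁻¹ * (z * t * G.w) = z * (d⁻¹ * t * G.w) := by group
        rw [e]
        exact (hG.Pl z _ _).2 (hG.PD t ht _ (inv_mem hd))
      obtain ⟨W, hW, W', hW', h⟩ := hL D G hF (z * d * z⁻¹) c _ _ h1 h2
      have c1 : Filter.Tendsto (fun y : P => z * y * G.w) (𝓝[G.K0] t) (𝓝 (z * t * G.w)) :=
        ((continuous_const.mul continuous_id).mul continuous_const).continuousWithinAt
      have c2 : Filter.Tendsto (fun y : P => z * y) (𝓝[G.K0] t) (𝓝 (z * t)) :=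
        (continuous_const.mul continuous_id).continuousWithinAt
      filter_upwards [c1 hW, c2 hW'] with y hy hy'
      exact h _ hy _ hy'
    · intro x y y' _ _ _ h1 h2
      exact (hR D G hF _ c _ _ _ _ _ _).2 h1 h2
    · intro x y _ _ h1
      exact (hR D G hF _ c _ _ _ _ 1 1).1 h1
  have e1 : z * (1 : P) * G.w = z * G.w := by rw [mul_one]
  have e2 : z * G.J * G.w = z * G.w * G.J := by rw [mul_assoc, hG.Jw, ← mul_assoc]
  have h := hr
  change Rel D G (z * d * z⁻¹) c (z * 1 * G.w) (z * 1) (z * G.J * G.w) (z * G.J) at h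
  rwa [e1, e2, mul_one] at h

end Pool.Agent.MPEF.U
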