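import Pool.Agent.Lib.MP_ef3f0f_gt.U.E.SpecB

/-! # Theorem U, Part E, module Smb (helper47): smoothing of one term -/

set_option autoImplicit false
set_option linter.unusedSectionVars false

namespace Pool.Agent.MPEF.U

open MeasureTheory Topology
open scoped ENNReal Pointwise

variable (P H : Type) [Group P] [Group H] [TopologicalSpace P] [TopologicalSpace H]
  [IsTopologicalGroup P] [IsTopologicalGroup H] [LocallyCompactSpace P] [LocallyCompactSpace H]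
  [T2Space P] [T2Space H] [SecondCountableTopology P] [SecondCountableTopology H]
  [MeasurableSpace P] [MeasurableSpace H] [BorelSpace P] [BorelSpace H]

private theorem Smb_near (f : P × P → P) (hf : Continuous f) (h1 : f (1, 1) = 1) {U : Set P}
    (hU : U ∈ 𝓝 (1 : P)) : ∃ N ∈ 𝓝 (1 : P), ∀ x ∈ N, ∀ y ∈ N, f (x, y) ∈ U := by
  have h2 : f ⁻¹' U ∈ 𝓝 ((1 : P), (1 : P)) :=
    hf.continuousAt.preimage_mem_nhds (by rw [h1]; exact hU)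
  rw [nhds_prod_eq, Filter.mem_prod_self_iff] at h2
  obtain ⟨t, ht, hsub⟩ := h2
  exact ⟨t, ht, fun x hx y hy => hsub (Set.mk_mem_prod hx hy)⟩

/-- The displacements of the backward edges. -/
private theorem Smb_V (hDF : S_DF P) (G : PG P) (hG : G.Ok) (k : ℕ) (Up : Set P)
    (hUp : Up ∈ 𝓝 (1 : P)) : ∃ M ∈ 𝓝 (1 : P), ∃ k' : ℕ, ∀ v ∈ M, ∀ v' ∈ M, ∀ q ∈ M, ∀ q' ∈ M,
      ∀ j l : ℕ, ∀ t ∈ G.Dp k', ∀ g : P,
        G.a ^ j * q * g * q'⁻¹ * G.a ^ l = v * G.w * t * (G.w * v'⁻¹) →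
        g ∈ G.W (G.uw Up) Up k := by
  obtain ⟨VD, hVD, hVD'⟩ := hG.D1n
  obtain ⟨c, hc⟩ := hG.Dpd 1
  have hww := hG.ww
  obtain ⟨-, -, -, -, -, -, -, haA, hwa, hmono, -⟩ := hDF G hG
  obtain ⟨N₀, hN₀, h₀⟩ := Smb_near P (fun p => p.1⁻¹ * p.2) (by fun_prop) (by simp) hUp
  obtain ⟨N₁, hN₁, h₁⟩ := Smb_near P (fun p => G.w * (p.1 * p.2) * G.w) (by fun_prop)
    (by simp [hww]) hN₀
  obtain ⟨N₂, hN₂, h₂⟩ := Smb_near P (fun p => G.w * p.1⁻¹ * G.w) (by fun_prop)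
    (by simp [hww]) hN₀
  obtain ⟨V₀, hV₀, hJ₀⟩ := hG.JN1 (N₀ ∩ N₁ ∩ N₂ ∩ VD)
    (Filter.inter_mem (Filter.inter_mem (Filter.inter_mem hN₀ hN₁) hN₂) hVD)
  obtain ⟨N₃, hN₃, h₃⟩ := Smb_near P (fun p => p.1 * (G.w * p.2⁻¹ * G.w)) (by fun_prop)
    (by simp [hww]) hV₀
  obtain ⟨V₁, hV₁, hJ₁⟩ := hG.JN1 (N₁ ∩ VD ∩ N₃)
    (Filter.inter_mem (Filter.inter_mem hN₁ hVD) hN₃)
  obtain ⟨N₄, hN₄, h₄⟩ := Smb_near P (fun p => G.w * p.1 * G.w) (by fun_prop)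
    (by simp [hww]) hV₁
  refine ⟨N₀ ∩ N₃ ∩ N₄, Filter.inter_mem (Filter.inter_mem hN₀ hN₃) hN₄, k + c + c, ?_⟩
  rintro v ⟨⟨-, -⟩, hv4⟩ v' ⟨⟨-, hv'3⟩, -⟩ q ⟨⟨hq0, -⟩, -⟩ q' ⟨⟨hq'0, -⟩, -⟩ j l t ht g hg
  have haj : ∀ n : ℕ, G.a ^ n ∈ G.Dp 0 := fun n => hmono 0 n (Nat.zero_le n) (hG.Dpa n)
  obtain ⟨e₁, he₁, e₁', he₁', δ₁, hδ₁A, hδ₁, heq₁⟩ := hJ₁ (G.a ^ j) (haj j) t
    (hmono 0 _ (Nat.zero_le _) ht) (G.w * v * G.w) (h₄ v hv4 v hv4)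
  have hδ₁D : δ₁ ∈ G.D1 ^ 1 := by
    rw [pow_one]
    exact hVD' ⟨hδ₁.1.2, hδ₁A⟩
  have hajt : G.a ^ j * t ∈ G.Dp (k + c + c) :=
    hmono _ _ (Nat.le_add_left _ _) (hG.Dpm j _ _ (hG.Dpa j) _ ht)
  have hs₂ : δ₁ * G.a ^ j * t ∈ G.Dp (k + c) := by
    have h5 := hc (k + c) (G.a ^ j * t) hajt δ₁ hδ₁D
    rw [hG.comm _ (hG.DpA _ hajt) _ hδ₁A, ← mul_assoc] at h5
    exact h5
  obtain ⟨e₂, he₂, e₂', he₂', δ₂, hδ₂A, hδ₂, heq₂⟩ := hJ₀ (δ₁ * G.a ^ j * t)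
    (hmono 0 _ (Nat.zero_le _) hs₂) (G.a ^ l) (haj l) (e₁' * (G.w * v'⁻¹ * G.w))
    (h₃ e₁' he₁'.2 v' hv'3)
  have hδ₂D : δ₂ ∈ G.D1 ^ 1 := by
    rw [pow_one]
    exact hVD' ⟨hδ₂.2, hδ₂A⟩
  have hs₂l : δ₁ * G.a ^ j * t * G.a ^ l ∈ G.Dp (k + c) :=
    hmono _ _ (Nat.le_add_right _ _) (hG.Dpm _ l _ hs₂ _ (hG.Dpa l))
  have hs₃ : δ₂ * (δ₁ * G.a ^ j * t) * G.a ^ l ∈ G.Dp k := by
    have h5 := hc k _ hs₂l δ₂ hδ₂D
    rw [hG.comm _ (hG.DpA _ hs₂l) _ hδ₂A, ← mul_assoc] at h5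
    exact h5
  -- the element `g`
  have hinv : G.w⁻¹ = G.w := inv_eq_of_mul_eq_one_left hww
  have hja : ∀ n : ℕ, (G.a ^ n)⁻¹ = G.w * G.a ^ n * G.w := by
    intro n
    rw [hwa n, mul_assoc, hww, mul_one]
  have hg' : g = q⁻¹ * ((G.a ^ j)⁻¹ * (v * G.w * t * (G.w * v'⁻¹)) * (G.a ^ l)⁻¹) * q' := by
    rw [← hg]
    group
  have hg'' : g = q⁻¹ * G.w * ((G.a ^ j * (G.w * v * G.w) * t) * (G.w * v'⁻¹ * G.w) * G.a ^ l) *
      G.w * q' := by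
    rw [hg', hja j, hja l]
    simp only [mul_assoc]
  have heq₂' : δ₁ * G.a ^ j * t * e₁' * (G.w * v'⁻¹ * G.w) * G.a ^ l =
      e₂ * (δ₂ * (δ₁ * G.a ^ j * t) * G.a ^ l) * e₂' := by
    rw [← heq₂]
    simp only [mul_assoc]
  have hmain : g = (q⁻¹ * (G.w * (e₁ * e₂) * G.w)) * G.w *
      (δ₂ * (δ₁ * G.a ^ j * t) * G.a ^ l) * (e₂' * G.w * q') := by
    rw [hg'', heq₁]
    calc q⁻¹ * G.w * (e₁ * (δ₁ * G.a ^ j * t) * e₁' * (G.w * v'⁻¹ * G.w) * G.a ^ l) * G.w * q' =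
        q⁻¹ * G.w * e₁ * (δ₁ * G.a ^ j * t * e₁' * (G.w * v'⁻¹ * G.w) * G.a ^ l) * G.w * q' := by
          simp only [mul_assoc]
      _ = q⁻¹ * G.w * e₁ * (e₂ * (δ₂ * (δ₁ * G.a ^ j * t) * G.a ^ l) * e₂') * G.w * q' := by
          rw [heq₂']
      _ = (q⁻¹ * (G.w * (e₁ * e₂) * (G.w * G.w))) *
          (δ₂ * (δ₁ * G.a ^ j * t) * G.a ^ l) * (e₂' * G.w * q') := by
          rw [hww]
          simp only [mul_assoc, mul_one]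
      _ = _ := by simp only [mul_assoc]
  refine ⟨q⁻¹ * (G.w * (e₁ * e₂) * G.w) * G.w, ?_, _, hs₃, e₂' * G.w * q', ?_, hmain⟩
  · exact Set.mul_mem_mul (h₀ q hq0 _ (h₁ e₁ he₁.1.1 e₂ he₂.1.1.2)) rfl
  · change (e₂' * G.w * q')⁻¹ * G.w ∈ Up
    have h6 : (e₂' * G.w * q')⁻¹ * G.w = q'⁻¹ * (G.w * e₂'⁻¹ * G.w) := by
      rw [mul_inv_rev, mul_inv_rev, hinv]
      simp only [mul_assoc]
    rw [h6]
    exact h₀ q' hq'0 _ (h₂ e₂' he₂'.1.2 e₂' he₂'.1.2)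

/-- `TT` is linear in the first kernel. -/
private theorem Smb_lin (hinst : S_inst P H) (D : Dat P H) (hD : D.Ok) {Q : Type}
    [MeasurableSpace Q] (ρ : Measure Q) [SFinite ρ] (KV : Q → P × H → ℝ≥0∞)
    (hKV : Measurable fun p : Q × (P × H) => KV p.1 p.2) (K₁ K₂ : P × H → ℝ≥0∞)
    (h₁ : Measurable K₁) (h₂ : Measurable K₂) (ψ : P × H → D.Γ → D.Γ → ℝ)
    (hψ : ∀ u v, Measurable fun x => ψ x u v) :
    ∫⁻ q, TT D (KV q) K₁ K₂ ψ ∂ρ = TT D (fun g => ∫⁻ q, KV q g ∂ρ) K₁ K₂ ψ := by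
  obtain ⟨-, -, hs, hcount, -⟩ := hinst D hD
  have hχ := hD.χm
  have hdis : ∀ V : D.Γ, Measurable fun p : (P × H) × (P × H) =>
      p.1⁻¹ * (V : P × H) * p.2 := fun V =>
    (measurable_fst.inv.mul_const _).mul measurable_snd
  obtain ⟨F, hFdef⟩ : ∃ F : D.Γ → (P × H) × (P × H) → ℝ≥0∞, F = fun V p =>
      D.st2 K₁ K₂ p.1 p.2 fun u u' => ab (ψ p.1 u V - ψ p.1 u' V) := ⟨_, rfl⟩
  have hF : ∀ V, Measurable (F V) := by
    intro V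
    rw [hFdef]
    unfold Dat.st2
    refine Measurable.tsum fun u => Measurable.tsum fun u' => ?_
    refine ((h₁.comp (hdis u)).mul (h₂.comp (hdis u'))).mul ?_
    unfold ab
    refine ENNReal.measurable_ofReal.comp ?_
    exact (((hψ u V).comp measurable_fst).sub ((hψ u' V).comp measurable_fst)).abs
  have hG : ∀ V : D.Γ, Measurable fun p : Q × ((P × H) × (P × H)) =>
      KV p.1 (p.2.1⁻¹ * (V : P × H) * p.2.2) := fun V =>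
    hKV.comp (measurable_fst.prodMk ((hdis V).comp measurable_snd))
  have hΦ : Measurable fun p : Q × ((P × H) × (P × H)) =>
      ∑' V : D.Γ, KV p.1 (p.2.1⁻¹ * (V : P × H) * p.2.2) * F V p.2 :=
    Measurable.tsum fun V => (hG V).mul ((hF V).comp measurable_snd)
  have hΦ' : Measurable fun p : (Q × (P × H)) × (P × H) => D.χ p.2 *
      ∑' V : D.Γ, KV p.1.1 (p.1.2⁻¹ * (V : P × H) * p.2) * F V (p.1.2, p.2) :=
    (hχ.comp measurable_snd).mul (hΦ.comp ((measurable_fst.comp measurable_fst).prodMk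
      ((measurable_snd.comp measurable_fst).prodMk measurable_snd)))
  have hI : Measurable fun p : Q × (P × H) => ∫⁻ y, D.χ y *
      ∑' V : D.Γ, KV p.1 (p.2⁻¹ * (V : P × H) * y) * F V (p.2, y) ∂D.μ :=
    hΦ'.lintegral_prod_right'
  have hL : ∀ q, TT D (KV q) K₁ K₂ ψ = ∫⁻ x, D.χ x * ∫⁻ y, D.χ y *
      ∑' V : D.Γ, KV q (x⁻¹ * (V : P × H) * y) * F V (x, y) ∂D.μ ∂D.μ := by
    intro q
    rw [hFdef]
    rfl
  have hR : TT D (fun g => ∫⁻ q, KV q g ∂ρ) K₁ K₂ ψ = ∫⁻ x, D.χ x * ∫⁻ y, D.χ y *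
      ∑' V : D.Γ, (∫⁻ q, KV q (x⁻¹ * (V : P × H) * y) ∂ρ) * F V (x, y) ∂D.μ ∂D.μ := by
    rw [hFdef]
    rfl
  rw [hR, lintegral_congr hL, lintegral_lintegral_swap]
  · refine lintegral_congr fun x => ?_
    have hmx : Measurable fun q => ∫⁻ y, D.χ y *
        ∑' V : D.Γ, KV q (x⁻¹ * (V : P × H) * y) * F V (x, y) ∂D.μ :=
      hI.comp (measurable_id.prodMk measurable_const)
    rw [lintegral_const_mul _ hmx, lintegral_lintegral_swap]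
    · congr 1
      refine lintegral_congr fun y => ?_
      have hmy : ∀ V : D.Γ, Measurable fun q =>
          KV q (x⁻¹ * (V : P × H) * y) * F V (x, y) := fun V =>
        (hKV.comp (measurable_id.prodMk measurable_const)).mul_const _
      rw [lintegral_const_mul _ (Measurable.tsum hmy),
        lintegral_tsum fun V => (hmy V).aemeasurable]
      congr 1
      refine tsum_congr fun V => ?_
      exact lintegral_mul_const _ (hKV.comp (measurable_id.prodMk measurable_const))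
    · exact (hΦ'.comp ((measurable_fst.prodMk measurable_const).prodMk
        measurable_snd)).aemeasurable
  · exact ((hχ.comp measurable_snd).mul hI).aemeasurable

/-- Windows of a translated straight kernel. -/
private theorem Smb_win (hec : S_ec P) (hAD : S_AD P) (G : PG P) (μ : Measure P) (hU : Un μ)
    (hG : G.Ok) (Uc Up : Set P) (x x' : P) (hx : ∀ e ∈ Uc, x⁻¹ * e ∈ Up)
    (hx' : ∀ e ∈ Uc, x' * e ∈ Up) (s : ℕ) (g : P) :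
    eP μ G Uc (G.uw Uc) 0 s (x * g * x') ≤ eP μ G Up (G.uw Up) 0 s g := by
  obtain ⟨-, -, -, h4, -⟩ := hec G μ hU hG
  have := hU.haar
  have := hU.right
  have := hU.inv
  obtain ⟨hm, -⟩ := hAD G μ hG
  rw [(h4 Uc (G.uw Uc) 0 s x' (x * g)).2, (h4 Uc _ 0 s x g).1]
  refine hm _ _ _ _ _ _ _ ?_ ?_ (le_refl 0) g
  · rintro y ⟨a, rfl, e, he, rfl⟩
    exact hx e he
  · rintro y ⟨a, ha, b, ⟨e, he, w, hw, rfl⟩, rfl⟩
    have ha' : a = x' := ha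
    subst ha'
    exact ⟨a * e, hx' e he, w, hw, by simp only [mul_assoc]⟩

/-- The element `g` in the straight window, with a factor `a` at the end. -/
private theorem Smb_W1 (G : PG P) (hG : G.Ok) (k : ℕ) (Uc Up : Set P) (q q' g : P)
    (h1 : ∀ e ∈ Uc, q⁻¹ * e ∈ Up) (h2 : ∀ e ∈ Uc, q'⁻¹ * (G.a⁻¹ * e * G.a) ∈ Up)
    (hmono : ∀ k l, k ≤ l → G.Dp l ⊆ G.Dp k)
    (h : q * g * q'⁻¹ * (G.a ^ 1)⁻¹ ∈ G.W Uc (G.uw Uc) k) : g ∈ G.W Up (G.uw Up) k := by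
  obtain ⟨e, he, t, ht, q₁, hq₁, heq⟩ := h
  rw [pow_one] at heq
  obtain ⟨e₁, he₁, w, hw, hew⟩ := hq₁
  have hw' : w = G.w := hw
  subst hw'
  have he₁' : q₁⁻¹ = e₁ := by
    have h5 : e₁ * G.w = q₁⁻¹ * G.w := hew
    exact (mul_right_cancel h5).symm
  have hta : t * G.a ∈ G.Dp k := by
    have h5 := hG.Dpm k 1 t ht (G.a ^ 1) (hG.Dpa 1)
    rw [pow_one] at h5
    exact hmono _ _ (Nat.le_add_right _ _) h5
  refine ⟨q⁻¹ * e, h1 e he, t * G.a, hta, G.a⁻¹ * q₁ * G.a * q', ?_, ?_⟩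
  · change (G.a⁻¹ * q₁ * G.a * q')⁻¹ * G.w ∈ Up * {G.w}
    refine Set.mul_mem_mul ?_ rfl
    have h6 : (G.a⁻¹ * q₁ * G.a * q')⁻¹ = q'⁻¹ * (G.a⁻¹ * q₁⁻¹ * G.a) := by group
    rw [h6, he₁']
    exact h2 e₁ he₁
  · have h7 : g = q⁻¹ * (q * g * q'⁻¹ * G.a⁻¹) * G.a * q' := by group
    rw [h7, heq]
    group

/-- The element `g` in the straight window, with a factor `a` at the start. -/
private theorem Smb_W2 (G : PG P) (hG : G.Ok) (k : ℕ) (Uc Up : Set P) (q q' g : P)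
    (h1 : ∀ e ∈ Uc, q⁻¹ * (G.a * e * G.a⁻¹) ∈ Up) (h2 : ∀ e ∈ Uc, q'⁻¹ * e ∈ Up)
    (hmono : ∀ k l, k ≤ l → G.Dp l ⊆ G.Dp k)
    (h : (G.a ^ 1)⁻¹ * (q * g * q'⁻¹) ∈ G.W Uc (G.uw Uc) k) : g ∈ G.W Up (G.uw Up) k := by
  obtain ⟨e, he, t, ht, q₁, hq₁, heq⟩ := h
  rw [pow_one] at heq
  obtain ⟨e₁, he₁, w, hw, hew⟩ := hq₁
  have hw' : w = G.w := hw
  subst hw'
  have he₁' : q₁⁻¹ = e₁ := by
    have h5 : e₁ * G.w = q₁⁻¹ * G.w := hew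
    exact (mul_right_cancel h5).symm
  have hta : G.a * t ∈ G.Dp k := by
    have h5 := hG.Dpm k 1 t ht (G.a ^ 1) (hG.Dpa 1)
    rw [pow_one, hG.comm t (hG.DpA k ht) G.a hG.aA] at h5
    exact hmono _ _ (Nat.le_add_right _ _) h5
  refine ⟨q⁻¹ * (G.a * e * G.a⁻¹), h1 e he, G.a * t, hta, q₁ * q', ?_, ?_⟩
  · change (q₁ * q')⁻¹ * G.w ∈ Up * {G.w}
    refine Set.mul_mem_mul ?_ rfl
    rw [mul_inv_rev, he₁']
    exact h2 e₁ he₁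
  · have h7 : g = q⁻¹ * G.a * (G.a⁻¹ * (q * g * q'⁻¹)) * q' := by group
    rw [h7, heq]
    group

/-- The main theorem of the module: smoothing of one term. -/
theorem tSmb : S_KVd P → S_opI P H → S_phP P H → S_pvp P H → S_TTs P H → S_ton P H → S_ec P →
    S_AD P → S_DF P → S_inst P H → S_egm P H → S_Smb P H := by
  intro hKVd hopI hphP hpvp hTTs _hton hec hAD hDF hinst hegm D G hF U hU
  have hD := hF.ok
  have hG := hF.gok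
  obtain ⟨hσ₁, hσ₂, hσ, hcount, hH, hHl, hHr, hHi, -⟩ := hinst D hD
  have hh₁ := hD.haar₁
  have hr₁ := hD.right₁
  have hi₁ := hD.inv₁
  have hUn : Un D.μ₁ := ⟨hh₁, hr₁, hi₁⟩
  obtain ⟨-, -, -, -, -, -, -, haA, hwa, hmono, -⟩ := hDF G hG
  have hww := hG.ww
  -- the window Up
  have hpos : {p : P × P | G.Pos p.1 (p.2 * G.w)} ∈ 𝓝 ((1 : P), (1 : P)) := by
    have hopen : IsOpen {p : P × P | G.Pos p.1 (p.2 * G.w)} :=
      hG.Po.preimage (continuous_fst.prodMk (continuous_snd.mul continuous_const))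
    refine hopen.mem_nhds ?_
    change G.Pos 1 (1 * G.w)
    rw [one_mul]
    exact hG.P1
  rw [nhds_prod_eq, Filter.mem_prod_self_iff] at hpos
  obtain ⟨V₀, hV₀, hV₀'⟩ := hpos
  obtain ⟨Up, hUp, hUpsub, hUpc⟩ := local_compact_nhds (Filter.inter_mem hV₀ hU)
  have hUpU : Up ⊆ U := fun x hx => (hUpsub hx).2
  have hPos : ∀ s ∈ Up, ∀ s' ∈ G.uw Up, G.Pos s s' := by
    rintro s hs s' ⟨e, he, w, rfl, rfl⟩
    exact hV₀' (Set.mk_mem_prod (hUpsub hs).1 (hUpsub he).1)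
  have hPos' : ∀ κ ∈ G.uw Up, ∀ κ' ∈ Up, G.Pos κ κ' := fun κ hκ κ' hκ' =>
    (hG.Ps _ _).1 (hPos κ' hκ' κ hκ)
  have hUwc : ∀ V : Set P, IsCompact V → IsCompact (G.uw V) := fun V hV =>
    hV.mul isCompact_singleton
  obtain ⟨k, hk⟩ := hphP D G hG hF.gf Up (G.uw Up) (G.uw Up) Up hUpc (hUwc _ hUpc)
    (hUwc _ hUpc) hUpc hPos hPos'
  -- the other windows
  obtain ⟨Uv₁, hUv₁, -, Us₁, hUs₁, -, hKV⟩ := hKVd G D.μ₁ hUn hG Up hUp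
  obtain ⟨M, hM, k', hMk⟩ := Smb_V P hDF G hG k Up hUp
  obtain ⟨N₁, hN₁, f₁⟩ := Smb_near P (fun p => p.1⁻¹ * p.2) (by fun_prop) (by simp) hUp
  obtain ⟨N₂, hN₂, f₂⟩ := Smb_near P (fun p => G.a * p.1⁻¹ * G.a⁻¹ * p.2) (by fun_prop)
    (by simp) hUp
  obtain ⟨N₃, hN₃, f₃⟩ := Smb_near P (fun p => G.a⁻¹ * p.1⁻¹ * G.a * p.2) (by fun_prop)
    (by simp) hUp
  obtain ⟨N₄, hN₄, f₄⟩ := Smb_near P (fun p => p.1⁻¹ * (G.a⁻¹ * p.2 * G.a)) (by fun_prop)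
    (by simp) hUp
  obtain ⟨N₅, hN₅, f₅⟩ := Smb_near P (fun p => p.1⁻¹ * (G.a * p.2 * G.a⁻¹)) (by fun_prop)
    (by simp) hUp
  have hN : N₁ ∩ N₂ ∩ N₃ ∩ N₄ ∩ N₅ ∈ 𝓝 (1 : P) :=
    Filter.inter_mem (Filter.inter_mem (Filter.inter_mem (Filter.inter_mem hN₁ hN₂) hN₃) hN₄) hN₅
  obtain ⟨Uc, hUc, hUcN, hUcc⟩ := local_compact_nhds hN
  obtain ⟨Uv, hUv, hUvM, hUvc⟩ := local_compact_nhds (Filter.inter_mem hUv₁ hM)
  obtain ⟨Us, hUs, hUsN, hUsc⟩ := local_compact_nhds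
    (Filter.inter_mem (Filter.inter_mem hUs₁ hM) hN)
  have hUsM : ∀ q ∈ Us, q ∈ M := fun q hq => (hUsN hq).1.2
  have g₁ : ∀ q ∈ Us, ∀ e ∈ Uc, q⁻¹ * e ∈ Up := fun q hq e he =>
    f₁ q (hUsN hq).2.1.1.1.1 e (hUcN he).1.1.1.1
  have g₂ : ∀ q ∈ Us, ∀ e ∈ Uc, G.a * q⁻¹ * G.a⁻¹ * e ∈ Up := fun q hq e he =>
    f₂ q (hUsN hq).2.1.1.1.2 e (hUcN he).1.1.1.2
  have g₃ : ∀ q ∈ Us, ∀ e ∈ Uc, G.a⁻¹ * q⁻¹ * G.a * e ∈ Up := fun q hq e he =>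
    f₃ q (hUsN hq).2.1.1.2 e (hUcN he).1.1.2
  have g₄ : ∀ q ∈ Us, ∀ e ∈ Uc, q⁻¹ * (G.a⁻¹ * e * G.a) ∈ Up := fun q hq e he =>
    f₄ q (hUsN hq).2.1.2 e (hUcN he).1.2
  have g₅ : ∀ q ∈ Us, ∀ e ∈ Uc, q⁻¹ * (G.a * e * G.a⁻¹) ∈ Up := fun q hq e he =>
    f₅ q (hUsN hq).2.2 e (hUcN he).2
  have h1c : (1 : P) ∈ Uc := mem_of_mem_nhds hUc
  have g₀ : ∀ q ∈ Us, q⁻¹ ∈ Up := fun q hq => by
    have h5 := g₁ q hq 1 h1c
    rwa [mul_one] at h5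
  obtain ⟨hAD1, -, -, hAD4, hAD5, -⟩ := hAD G D.μ₁ hG
  obtain ⟨T₀, hT₀⟩ := hAD4 0 k
  refine ⟨Uv, hUv, hUvc, Uc, hUc, hUcc, max T₀ 1, fun s hs R => ?_⟩
  obtain ⟨C, T₁, hC, hCT⟩ := hKV R
  obtain ⟨T₂, hT₂⟩ := hAD4 (2 * R) k'
  have hμ0 : D.μ₁ Us ≠ 0 := (Measure.measure_pos_of_mem_nhds D.μ₁ hUs).ne'
  have hμt : D.μ₁ Us ≠ ∞ := hUsc.measure_lt_top.ne
  refine ⟨C * (D.μ₁ Us * D.μ₁ Us)⁻¹, max (max T₁ T₂) 1, ENNReal.mul_ne_top hC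
    (ENNReal.inv_ne_top.2 (mul_ne_zero hμ0 hμ0)), fun m hm j l φ hφ i hi => ?_⟩
  have hm1 : 1 ≤ m := le_trans (le_max_right _ _) hm
  have hmT₁ : T₁ ≤ m := le_trans (le_trans (le_max_left _ _) (le_max_left _ _)) hm
  have hmT₂ : T₂ ≤ m := le_trans (le_trans (le_max_right _ _) (le_max_left _ _)) hm
  have hs1 : 1 ≤ s := le_trans (le_max_right _ _) hs
  have hsT₀ : T₀ ≤ s := le_trans (le_max_left _ _) hs
  obtain ⟨hψm, hψe, -⟩ := hpvp D G hD hG φ hφ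
  -- the kernels
  have hkV : Measurable (eP D.μ₁ G (G.uw Uv) Uv (2 * R) m) :=
    hAD5 _ _ (hUwc _ hUvc) hUvc _ _
  have hkc : Measurable (eP D.μ₁ G Uc (G.uw Uc) 0 s) := hAD5 _ _ hUcc (hUwc _ hUcc) _ _
  have hkp : Measurable (eP D.μ₁ G Up (G.uw Up) 0 s) := hAD5 _ _ hUpc (hUwc _ hUpc) _ _
  have hKj : (opL D G.a)^[j] ((opR D G.a)^[l] (D.eg G (G.uw Uv) Uv (2 * R) m)) =
      D.tk (fun g => eP D.μ₁ G (G.uw Uv) Uv (2 * R) m (G.a ^ j * g * G.a ^ l)) (m + l + j) := by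
    have h5 : (opR D G.a)^[l] (D.eg G (G.uw Uv) Uv (2 * R) m) =
        D.tk (fun g => eP D.μ₁ G (G.uw Uv) Uv (2 * R) m (g * G.a ^ l)) (m + l) :=
      (hopI D hD G.a _ m hkV hm1).2.2.2.1 l
    have h6 : Measurable fun g => eP D.μ₁ G (G.uw Uv) Uv (2 * R) m (g * G.a ^ l) :=
      hkV.comp (measurable_mul_const _)
    rw [h5]
    exact (hopI D hD G.a _ (m + l) h6 (le_trans hm1 (Nat.le_add_right _ _))).2.2.1 j
  have hK₁ : ∀ V : Set P, Measurable (eP D.μ₁ G V (G.uw V) 0 s) → opF D G.a (D.ch G V s) =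
      D.tk (fun g => eP D.μ₁ G V (G.uw V) 0 s (g * (G.a ^ 1)⁻¹)) (s + 1) := fun V hV =>
    (hopI D hD G.a _ s hV hs1).1 1
  have hK₂ : ∀ V : Set P, Measurable (eP D.μ₁ G V (G.uw V) 0 s) → opB D G.a (D.ch G V s) =
      D.tk (fun g => eP D.μ₁ G V (G.uw V) 0 s ((G.a ^ 1)⁻¹ * g)) (s + 1) := fun V hV =>
    (hopI D hD G.a _ s hV hs1).2.1 1
  have hegm' := (hegm D G hD hG).1
  have hopm := fun (K : P × H → ℝ≥0∞) (hK : Measurable K) =>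
    (hopI D hD G.a _ s hkc hs1).2.2.2.2 K hK
  have hchm : ∀ V : Set P, IsCompact V → Measurable (D.ch G V s) := fun V hV =>
    hegm' V (G.uw V) hV (hUwc _ hV) 0 s
  obtain ⟨kV, hkVdef⟩ : ∃ kV : P → ℝ≥0∞, kV = eP D.μ₁ G (G.uw Uv) Uv (2 * R) m := ⟨_, rfl⟩
  rw [hKj, ← hkVdef]
  rw [← hkVdef] at hkV
  obtain ⟨KV, hKVdef⟩ : ∃ KV : P × H → ℝ≥0∞,
      KV = D.tk (fun g => kV (G.a ^ j * g * G.a ^ l)) (m + l + j) := ⟨_, rfl⟩
  have hitL : ∀ (n : ℕ) (K : P × H → ℝ≥0∞), Measurable K → Measurable ((opL D G.a)^[n] K) := by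
    intro n
    induction n with
    | zero => intro K hK; exact hK
    | succ n ih => intro K hK; exact ih _ (hopm K hK).2.2.1
  have hitR : ∀ (n : ℕ) (K : P × H → ℝ≥0∞), Measurable K → Measurable ((opR D G.a)^[n] K) := by
    intro n
    induction n with
    | zero => intro K hK; exact hK
    | succ n ih => intro K hK; exact ih _ (hopm K hK).2.2.2
  have hKVm : Measurable KV := by
    rw [hKVdef, hkVdef, ← hKj]
    exact hitL j _ (hitR l _ (hegm' _ _ (hUwc _ hUvc) hUvc _ _))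
  rw [← hKVdef]
  -- one translate
  have hone : ∀ q ∈ Us, ∀ q' ∈ Us,
      TT D KV (opF D G.a (D.ch G Uc s)) (opB D G.a (D.ch G Uc s)) (pv G φ) ≤
        TT D (fun g => KV ((q, 1) * g * (q'⁻¹, 1))) (opF D G.a (D.ch G Up s))
          (opB D G.a (D.ch G Up s)) (pv G φ) := by
    intro q hq q' hq'
    have e₁ : ((q⁻¹, 1) : P × H)⁻¹ = (q, 1) := by
      rw [Prod.inv_mk, inv_inv, inv_one]
    rw [(hTTs D hD KV _ _ hKVm (hopm _ (hchm Uc hUcc)).1 (hopm _ (hchm Uc hUcc)).2.1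
      (pv G φ) hψm hψe).1 (q⁻¹, 1) (q'⁻¹, 1), e₁]
    have hsh : ∀ K : P × H → ℝ≥0∞, Measurable K →
        Measurable fun g : P × H => K ((q, 1) * g * (q'⁻¹, 1)) := fun K hK =>
      hK.comp ((measurable_const_mul _).mul_const _)
    refine ((hTTs D hD _ _ _ (hsh _ hKVm) (hsh _ (hopm _ (hchm Uc hUcc)).1)
      (hsh _ (hopm _ (hchm Uc hUcc)).2.1) (fun x => pv G φ (x * (q⁻¹, 1)))
      (fun u v => (hψm u v).comp (measurable_mul_const _))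
      (fun γ γ' x u v => by rw [mul_assoc]; exact hψe γ γ' _ u v)).2
      (fun g => KV ((q, 1) * g * (q'⁻¹, 1))) (opF D G.a (D.ch G Up s))
          (opB D G.a (D.ch G Up s)) (pv G φ) 1 ENNReal.one_ne_top ?_ ?_).trans (one_mul _).le
    · intro g g' g''
      rw [one_mul, hK₁ Uc hkc, hK₂ Uc hkc, hK₁ Up hkp, hK₂ Up hkp]
      refine mul_le_mul_right (mul_le_mul' ?_ ?_) _
      · change eP D.μ₁ G Uc (G.uw Uc) 0 s (q * g'.1 * q'⁻¹ * (G.a ^ 1)⁻¹) *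
          D.nu (s + 1) (1 * g'.2 * 1) ≤ eP D.μ₁ G Up (G.uw Up) 0 s (g'.1 * (G.a ^ 1)⁻¹) *
            D.nu (s + 1) g'.2
        rw [one_mul, mul_one]
        refine mul_le_mul_left ?_ _
        have h5 := Smb_win P hec hAD G D.μ₁ hUn hG Uc Up q (G.a * q'⁻¹ * G.a⁻¹)
          (g₁ q hq) (g₂ q' hq') s (g'.1 * (G.a ^ 1)⁻¹)
        have h6 : q * (g'.1 * (G.a ^ 1)⁻¹) * (G.a * q'⁻¹ * G.a⁻¹) =
            q * g'.1 * q'⁻¹ * (G.a ^ 1)⁻¹ := by group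
        rwa [h6] at h5
      · change eP D.μ₁ G Uc (G.uw Uc) 0 s ((G.a ^ 1)⁻¹ * (q * g''.1 * q'⁻¹)) *
          D.nu (s + 1) (1 * g''.2 * 1) ≤ eP D.μ₁ G Up (G.uw Up) 0 s ((G.a ^ 1)⁻¹ * g''.1) *
            D.nu (s + 1) g''.2
        rw [one_mul, mul_one]
        refine mul_le_mul_left ?_ _
        have h5 := Smb_win P hec hAD G D.μ₁ hUn hG Uc Up (G.a⁻¹ * q * G.a) q'⁻¹
          (fun e he => by
            have h7 := g₃ q hq e he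
            have h8 : (G.a⁻¹ * q * G.a)⁻¹ = G.a⁻¹ * q⁻¹ * G.a := by group
            rwa [h8]) (g₁ q' hq') s ((G.a ^ 1)⁻¹ * g''.1)
        have h6 : G.a⁻¹ * q * G.a * ((G.a ^ 1)⁻¹ * g''.1) * q'⁻¹ =
            (G.a ^ 1)⁻¹ * (q * g''.1 * q'⁻¹) := by group
        rwa [h6] at h5
    · intro x y V u u' h₀ h₁ h₂
      rw [hKVdef] at h₀
      rw [hK₁ Uc hkc] at h₁
      rw [hK₂ Uc hkc] at h₂
      have h₀' : kV (G.a ^ j * (q * (x⁻¹ * (V : P × H) * y).1 * q'⁻¹) * G.a ^ l) ≠ 0 :=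
        left_ne_zero_of_mul h₀
      have h₁' : eP D.μ₁ G Uc (G.uw Uc) 0 s
          (q * (x⁻¹ * (u : P × H) * y).1 * q'⁻¹ * (G.a ^ 1)⁻¹) ≠ 0 := left_ne_zero_of_mul h₁
      have h₂' : eP D.μ₁ G Uc (G.uw Uc) 0 s
          ((G.a ^ 1)⁻¹ * (q * (x⁻¹ * (u' : P × H) * y).1 * q'⁻¹)) ≠ 0 := left_ne_zero_of_mul h₂
      have w₁ := Smb_W1 P G hG k Uc Up q q' _ (g₁ q hq) (g₄ q' hq') hmono
        (hT₀ s hsT₀ _ _ _ h₁')
      have w₂ := Smb_W2 P G hG k Uc Up q q' _ (g₅ q hq) (g₁ q' hq') hmono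
        (hT₀ s hsT₀ _ _ _ h₂')
      have w₀ : (x⁻¹ * (V : P × H) * y).1 ∈ G.W (G.uw Up) Up k := by
        rw [hkVdef] at h₀'
        obtain ⟨s₀, hs₀, t, ht, q₁, hq₁, heq⟩ := hT₂ m hmT₂ _ _ _ h₀'
        obtain ⟨v, hv, w, hw, hvw⟩ := hs₀
        have hw' : w = G.w := hw
        subst hw'
        have hvw' : v * G.w = s₀ := hvw
        refine hMk v (hUvM hv).2 (q₁⁻¹ * G.w) (hUvM hq₁).2 q (hUsM q hq) q' (hUsM q' hq') j l t ht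
          _ ?_
        have h5 : G.w * (q₁⁻¹ * G.w)⁻¹ = q₁ := by
          have h6 : G.w⁻¹ = G.w := inv_eq_of_mul_eq_one_left hww
          rw [mul_inv_rev, inv_inv, h6, ← mul_assoc, hww, one_mul]
        rw [h5, hvw', ← heq]
        simp only [mul_assoc]
      have hpv : ∀ u₀ : D.Γ, (x⁻¹ * (u₀ : P × H) * y).1 ∈ G.W Up (G.uw Up) k →
          pv G φ (x * (q⁻¹, 1)) u₀ V = pv G φ x u₀ V := by
        intro u₀ hu₀
        have h1p : (1 : P) ∈ Up := mem_of_mem_nhds hUp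
        have h5 := (hk x y u₀ V hu₀ w₀ φ hφ 1 h1p (1 * G.w)
          (Set.mul_mem_mul h1p rfl)).1 q⁻¹ (g₀ q hq)
        rw [mul_one] at h5
        exact h5
      rw [hpv u w₁, hpv u' w₂]
  -- the average
  have hUsm : MeasurableSet Us := hUsc.measurableSet
  obtain ⟨ρ, hρ⟩ : ∃ ρ : Measure (P × P),
      ρ = (D.μ₁.restrict Us).prod (D.μ₁.restrict Us) := ⟨_, rfl⟩
  have hρ' : ρ = (D.μ₁.prod D.μ₁).restrict (Us ×ˢ Us) := by rw [hρ, Measure.prod_restrict]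
  have hρs : SFinite ρ := by rw [hρ]; infer_instance
  obtain ⟨KQ, hKQ⟩ : ∃ KQ : P × P → P × H → ℝ≥0∞,
      KQ = fun q g => KV ((q.1, 1) * g * (q.2⁻¹, 1)) := ⟨_, rfl⟩
  have hKQm : Measurable fun p : (P × P) × (P × H) => KQ p.1 p.2 := by
    rw [hKQ]
    exact hKVm.comp ((((measurable_fst.comp measurable_fst).prodMk measurable_const).mul
      measurable_snd).mul ((measurable_snd.comp measurable_fst).inv.prodMk measurable_const))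
  have hm₁ := (hopm _ (hchm Up hUpc)).1
  have hm₂ := (hopm _ (hchm Up hUpc)).2.1
  have hlin := Smb_lin P H hinst D hD ρ KQ hKQm _ _ hm₁ hm₂ (pv G φ) hψm
  have hlow : TT D KV (opF D G.a (D.ch G Uc s)) (opB D G.a (D.ch G Uc s)) (pv G φ) *
      (D.μ₁ Us * D.μ₁ Us) ≤ ∫⁻ q, TT D (KQ q) (opF D G.a (D.ch G Up s))
        (opB D G.a (D.ch G Up s)) (pv G φ) ∂ρ := by
    rw [hρ', ← Measure.prod_prod, ← setLIntegral_const]
    refine setLIntegral_mono' (hUsm.prod hUsm) fun q hq => ?_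
    rw [hKQ]
    exact hone q.1 hq.1 q.2 hq.2
  have hup : TT D (fun g => ∫⁻ q, KQ q g ∂ρ) (opF D G.a (D.ch G Up s))
      (opB D G.a (D.ch G Up s)) (pv G φ) ≤ C * FQ D G U s R i φ := by
    have hKI : Measurable fun g => ∫⁻ q, KQ q g ∂ρ :=
      (hKQm.comp measurable_swap).lintegral_prod_right'
    refine (hTTs D hD _ _ _ hKI hm₁ hm₂ (pv G φ) hψm hψe).2 _ _ _ (pv G φ) C hC ?_
      (fun _ _ _ _ _ _ _ _ => rfl)
    intro g g' g''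
    have hwU : G.uw Up ⊆ G.uw U := Set.mul_subset_mul_right hUpU
    have hch : ∀ x, D.ch G Up s x ≤ D.ch G U s x := fun x =>
      mul_le_mul_left (hAD1 _ _ _ _ 0 0 s hUpU hwU (le_refl 0) x.1) _
    have k₁ : opF D G.a (D.ch G Up s) g' ≤ opF D G.a (D.ch G U s) g' :=
      lintegral_mono fun h => mul_le_mul_right (hch _) _
    have k₂ : opB D G.a (D.ch G Up s) g'' ≤ opB D G.a (D.ch G U s) g'' :=
      lintegral_mono fun h => mul_le_mul_right (hch _) _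
    have k₀ : ∫⁻ q, KQ q g ∂ρ ≤ C * D.eg G (G.uw U) U (2 * R) (i 0 + i 1) g := by
      have hkk : Measurable fun q : P × P =>
          kV (G.a ^ j * (q.1 * g.1 * q.2⁻¹) * G.a ^ l) :=
        hkV.comp ((((measurable_fst.mul_const _).mul measurable_snd.inv).const_mul _).mul_const _)
      have h5 : ∀ q, KQ q g = kV (G.a ^ j * (q.1 * g.1 * q.2⁻¹) * G.a ^ l) *
          D.nu (i 0 + i 1) g.2 := by
        intro q
        rw [hKQ, hKVdef, hi]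
        change kV (G.a ^ j * (q.1 * g.1 * q.2⁻¹) * G.a ^ l) *
          D.nu (m + l + j) (1 * g.2 * 1) = _
        rw [one_mul, mul_one, show m + l + j = j + m + l by ring]
      rw [lintegral_congr h5, lintegral_mul_const _ hkk, hρ,
        lintegral_prod _ hkk.aemeasurable]
      change _ ≤ C * (eP D.μ₁ G (G.uw U) U (2 * R) (i 0 + i 1) g.1 * D.nu (i 0 + i 1) g.2)
      rw [← mul_assoc]
      refine mul_le_mul_left ?_ _
      have hUs₁' : Us ⊆ Us₁ := fun q hq => (hUsN hq).1.1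
      have hUv₁' : Uv ⊆ Uv₁ := fun q hq => (hUvM hq).1
      calc ∫⁻ q in Us, ∫⁻ q' in Us, kV (G.a ^ j * (q * g.1 * q'⁻¹) * G.a ^ l) ∂D.μ₁ ∂D.μ₁
          ≤ ∫⁻ q in Us, ∫⁻ q' in Us₁, eP D.μ₁ G (G.uw Uv₁) Uv₁ (2 * R) m
              (G.a ^ j * q * g.1 * q'⁻¹ * G.a ^ l) ∂D.μ₁ ∂D.μ₁ := by
            refine lintegral_mono fun q => (lintegral_mono_set hUs₁').trans
              (lintegral_mono fun q' => ?_)
            have h6 : G.a ^ j * (q * g.1 * q'⁻¹) * G.a ^ l =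
              G.a ^ j * q * g.1 * q'⁻¹ * G.a ^ l := by simp only [mul_assoc]
            rw [h6, hkVdef]
            exact hAD1 _ _ _ _ _ _ _ (Set.mul_subset_mul_right hUv₁') hUv₁' (le_refl _) _
        _ ≤ ∫⁻ q in Us₁, ∫⁻ q' in Us₁, eP D.μ₁ G (G.uw Uv₁) Uv₁ (2 * R) m
              (G.a ^ j * q * g.1 * q'⁻¹ * G.a ^ l) ∂D.μ₁ ∂D.μ₁ := lintegral_mono_set hUs₁'
        _ ≤ C * eP D.μ₁ G (G.uw Up) Up (2 * R) (j + m + l) g.1 := hCT m hmT₁ j l g.1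
        _ ≤ C * eP D.μ₁ G (G.uw U) U (2 * R) (i 0 + i 1) g.1 := by
            rw [hi]
            exact mul_le_mul_right (hAD1 _ _ _ _ _ _ _ hwU hUpU (le_refl _) _) _
    exact (mul_le_mul' k₀ (mul_le_mul' k₁ k₂)).trans_eq (mul_assoc _ _ _)
  have hfin : TT D KV (opF D G.a (D.ch G Uc s)) (opB D G.a (D.ch G Uc s)) (pv G φ) *
      (D.μ₁ Us * D.μ₁ Us) ≤ C * FQ D G U s R i φ := hlow.trans (hlin.le.trans hup)
  have hμμ0 : D.μ₁ Us * D.μ₁ Us ≠ 0 := mul_ne_zero hμ0 hμ0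
  have hμμt : D.μ₁ Us * D.μ₁ Us ≠ ∞ := ENNReal.mul_ne_top hμt hμt
  calc TT D KV (opF D G.a (D.ch G Uc s)) (opB D G.a (D.ch G Uc s)) (pv G φ)
      = TT D KV (opF D G.a (D.ch G Uc s)) (opB D G.a (D.ch G Uc s)) (pv G φ) *
          (D.μ₁ Us * D.μ₁ Us) * (D.μ₁ Us * D.μ₁ Us)⁻¹ := by
        rw [mul_assoc, ENNReal.mul_inv_cancel hμμ0 hμμt, mul_one]
    _ ≤ C * FQ D G U s R i φ * (D.μ₁ Us * D.μ₁ Us)⁻¹ := mul_le_mul_left hfin _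
    _ = C * (D.μ₁ Us * D.μ₁ Us)⁻¹ * FQ D G U s R i φ := by
        rw [mul_assoc, mul_comm (FQ D G U s R i φ), ← mul_assoc]

end Pool.Agent.MPEF.U
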