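import Pool.Agent.Lib.MP_ef3f0f_gt.U.E.Defs
import Pool.Agent.Lib.MP_ef3f0f_gt.U.F.SpecC

set_option autoImplicit false

/-!
# MP_ef3f0f_gt, Theorem U, Part E (coercivity): the statements A (effects of insertions)

Modules `U/E/X.lean`: `theorem tX : S_Y P H → ... → S_X P H` (the statements named in the docstring as
hypotheses; also `S_inst P H`, `S_mg P H`, `S_IM P H`, `S_nu P H`, `S_O P H`, `S_Harn P H`, `S_Up P H` of `U/Z/Spec` and the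
statements of `U/F/SpecA`, `SpecB` (`S_DF P`, `S_TB P`, `S_NB P`, `S_AD P`, `S_Wr P`, ...) when needed), in a section with the same `variable` line (explicit
`P H`), namespace `Pool.Agent.MPEF.U`. `w w = 1`, `uw U = U * {w}`, `ew K = {q | q⁻¹ w ∈ K}`,
`D.eg G S K R n = D.tk (eP D.μ₁ G S K R n) n` (`rfl`). `Dg φ c x g u v = ph (u g v⁻¹) (x c) - ph (u v⁻¹) (x c)`.
In all estimates the kernels are nonzero only if the displacements are in `W S K k` (`S_AD`, lengths `≥ T(R, k)`).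
-/

namespace Pool.Agent.MPEF.U

open MeasureTheory Topology
open scoped ENNReal Pointwise

section

variable {P H : Type} [Group P] [Group H] [TopologicalSpace P] [TopologicalSpace H]
  [MeasurableSpace P] [MeasurableSpace H]

/-- Upper bound for the number of edges. -/
def UpG (D : Dat P H) (G : PG P) : Prop :=
  ∀ S K : Set P, IsCompact S → IsCompact K → ∀ R : ℕ, ∃ C : ℝ≥0∞, C ≠ ∞ ∧
    ∀ n x y, D.N (D.eg G S K R n) x y ≤ C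

/-- The standing hypotheses. -/
structure Fc (D : Dat P H) (G : PG P) : Prop where
  ok : D.Ok
  gok : G.Ok
  gf : G.OkF
  up : UpG D G
  lo : LoG D G

/-- The effect of the loops near `gc` at the end germs near `k`, `l` is controlled. -/
def Zer (D : Dat P H) (G : PG P) (gc : P) (c : ℕ) (k l : P) : Prop :=
  ∀ s t : P, G.Pos s t → ∃ U ∈ 𝓝 (1 : P), IsCompact U ∧
    CT D G 0 (okL 2) (FE D G (U * {gc}) c (wn U s k) (wn U t l))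

end

variable (P H : Type) [Group P] [Group H] [TopologicalSpace P] [TopologicalSpace H]
  [IsTopologicalGroup P] [IsTopologicalGroup H] [LocallyCompactSpace P] [LocallyCompactSpace H]
  [T2Space P] [T2Space H] [SecondCountableTopology P] [SecondCountableTopology H]
  [MeasurableSpace P] [MeasurableSpace H] [BorelSpace P] [BorelSpace H]

/-- **CTs.** Sums of controlled functionals. Proof. Lists `L j`, shifts `c j` (choice); `L` = concatenation over `Finset.univ` (e.g. `(Finset.univ.toList.map L).flatten`),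
`c₀ = c + ∑ c j`. `EL` is monotone in the range (`eg` is monotone in `R`: `S_AD` (1), so `X3` is monotone) and `EL` of a member
list is at most `EL` of the concatenation. Given `R`: constants `C j`, `T j` for `R + c`, `T = max T j`
(`ok j` is antitone in `T`), then the hypothesis for `R`, `T` gives `C'`, `T'`; `C = C' * ∑ C j`; for `r ≥ max T T'`. -/
def S_CTs : Prop :=
  ∀ (D : Dat P H) (G : PG P), D.Ok → G.Ok → ∀ (p : ℕ) (J : Type) [Fintype J] (ι : J → Type)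
    (ok : ∀ j, ℕ → ℕ → ι j → Prop) (F : ∀ j, ℕ → ι j → (D.Γ → P → ℝ) → ℝ≥0∞) (ι' : Type)
    (ok' : ℕ → ℕ → ι' → Prop) (F' : ℕ → ι' → (D.Γ → P → ℝ) → ℝ≥0∞) (c : ℕ),
    (∀ j T T' r i, T ≤ T' → ok j T' r i → ok j T r i) →
    (∀ j, CT D G p (ok j) (F j)) →
    (∀ T T' r i, T ≤ T' → ok' T' r i → ok' T r i) →
    (∀ R T, ∃ (C : ℝ≥0∞) (T' : ℕ), C ≠ ∞ ∧ ∀ r, T' ≤ r → ∀ i', ok' T' r i' →
      ∃ i : ∀ j, ι j, (∀ j, ok j T r (i j)) ∧ ∀ φ, Adm D G φ →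
        F' R i' φ ≤ C * ∑ j, F j (R + c) (i j) φ) →
    CT D G p ok' F'

/-- **phV.** The values of `ph`. Proof. (1) `h.choose` and `z` are frames with `Pos k (· w)`, so `z⁻¹ z' ∈ A` (`UQ`), `scale`. (2) `Pr`: the same
predicate. (3) `z ↦ g z` is a bijection between the frames, `Pl`, `conj`, (1). (4) `z J` is a frame of `l` (`JA`), `Pos (k J) (z J w) ↔ Pos k (z w)` (`Jw`,
`PJ`, `JJ`), `jodd`. (5) `z w` is a frame of `l⁻¹` (`Appw`), `Pos k' (z w w)`; `inv`. (6) `k ↦ ph l k` is locally constant on the open set of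
the `k` with a frame (`Po`), and `0` outside: preimages of sets without `0` are open. -/
def S_phV : Prop :=
  ∀ (D : Dat P H) (G : PG P), G.Ok → ∀ φ : D.Γ → P → ℝ, Adm D G φ →
    (∀ (l : D.Γ) (z k : P), Fr G (l : P × H).1 z → G.Pos k (z * G.w) → ph G φ l k = φ l z) ∧
    (∀ (l : D.Γ) (k b : P), b ∈ G.Bor → ph G φ l (k * b) = ph G φ l k) ∧
    (∀ (g l : D.Γ) (k : P), ph G φ (g * l * g⁻¹) ((g : P × H).1 * k) = ph G φ l k) ∧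
    (∀ (l : D.Γ) (k : P), ph G φ l (k * G.J) = - ph G φ l k) ∧
    (∀ (l : D.Γ) (z k k' : P), Fr G (l : P × H).1 z → G.Pos k (z * G.w) → G.Pos k' z →
      ph G φ l⁻¹ k' = - ph G φ l k) ∧
    (∀ l : D.Γ, Measurable fun k : P => ph G φ l k)

/-- **phP** (from phV, `S_FR P`). Pairs of edges. Proof. `g = (x⁻¹ u y).1`, `h = (x⁻¹ v y).1`, `g h⁻¹ = x⁻¹ (u v⁻¹) x`: a frame `z` with `Pos s (z w)` for
all `s ∈ S₁` and `Pos s' z` for all `s' ∈ S₂`; `x z` is a frame of `u v⁻¹`; (1) and (5) of `S_phV`; `v u⁻¹ = (u v⁻¹)⁻¹`. -/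
def S_phP : Prop :=
  ∀ (D : Dat P H) (G : PG P), G.Ok → G.OkF → ∀ S₁ K₁ S₂ K₂ : Set P, IsCompact S₁ → IsCompact K₁ →
    IsCompact S₂ → IsCompact K₂ → (∀ s ∈ S₁, ∀ s' ∈ S₂, G.Pos s s') →
    (∀ κ ∈ K₁, ∀ κ' ∈ K₂, G.Pos κ κ') → ∃ k : ℕ, ∀ (x y : P × H) (u v : D.Γ),
      (x⁻¹ * (u : P × H) * y).1 ∈ G.W S₁ K₁ k → (x⁻¹ * (v : P × H) * y).1 ∈ G.W S₂ K₂ k →
      ∀ φ : D.Γ → P → ℝ, Adm D G φ → ∀ s ∈ S₁, ∀ s' ∈ S₂,
        (∀ s₁ ∈ S₁, ph G φ (u * v⁻¹) (x.1 * s₁) = ph G φ (u * v⁻¹) (x.1 * s)) ∧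
        ph G φ (v * u⁻¹) (x.1 * s') = - ph G φ (u * v⁻¹) (x.1 * s)

/-- **phB** (from phV, `S_BCg P`). Base change along the chord `χ : x → x'`. Proof. `g = (x⁻¹ χ x').1`, `gu = (x'⁻¹ u y).1`, `gv = (x⁻¹ v y).1`, so
`gu gv⁻¹ g = x'⁻¹ (u v⁻¹ χ) x'`; `z'` from `S_BCg`: `x' z'` is a frame of `u v⁻¹ χ = u (χ⁻¹ v)⁻¹` with `Pos (x' s') (x' z' w)`, and
`χ x' z' = x g z'` is a frame of `χ u v⁻¹ = χ (u v⁻¹ χ) χ⁻¹` with `Pos (x s) (x g z' w)`. (1) of `S_phV`, `conj`. -/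
def S_phB : Prop :=
  ∀ (D : Dat P H) (G : PG P), G.Ok → G.OkF → ∀ S K Su Ku Sv Kv : Set P, IsCompact S → IsCompact K →
    IsCompact Su → IsCompact Ku → IsCompact Sv → IsCompact Kv →
    (∀ κ ∈ K, ∀ s ∈ Su, G.Pos κ s) → (∀ s ∈ S, ∀ s' ∈ Sv, G.Pos s s') →
    (∀ κ ∈ Ku, ∀ κ' ∈ Kv, G.Pos κ κ') → ∃ k : ℕ, ∀ (x x' y : P × H) (χ u v : D.Γ),
      (x⁻¹ * (χ : P × H) * x').1 ∈ G.W S K k → (x'⁻¹ * (u : P × H) * y).1 ∈ G.W Su Ku k →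
      (x⁻¹ * (v : P × H) * y).1 ∈ G.W Sv Kv k → ∀ φ : D.Γ → P → ℝ, Adm D G φ →
      ∀ s ∈ S, ∀ s' ∈ Su,
        ph G φ (χ * u * v⁻¹) (x.1 * s) = ph G φ (u * (χ⁻¹ * v)⁻¹) (x'.1 * s')

/-- **ton.** Tonelli and linearity for `IM`. Proof. `μ` is σ-finite (`S_inst`), `χ` measurable; `lintegral_lintegral_swap`, `Measurable.lintegral_prod_right'`,
`lintegral_const_mul`, `lintegral_tsum` (`Γ` is countable). -/
def S_ton : Prop :=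
  ∀ D : Dat P H, D.Ok →
    (∀ f : (P × H) × (P × H) → ℝ≥0∞, Measurable f →
      (D.IM fun x => D.IM fun y => f (x, y)) = (D.IM fun y => D.IM fun x => f (x, y)) ∧
      Measurable fun x => D.IM fun y => f (x, y)) ∧
    (∀ (c : ℝ≥0∞) (f : P × H → ℝ≥0∞), Measurable f → (D.IM fun x => c * f x) = c * D.IM f) ∧
    (∀ f g : P × H → ℝ≥0∞, Measurable f → (D.IM fun x => f x + g x) = D.IM f + D.IM g) ∧
    (∀ f : D.Γ → P × H → ℝ≥0∞, (∀ u, Measurable (f u)) →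
      (D.IM fun x => ∑' u : D.Γ, f u x) = ∑' u : D.Γ, D.IM (f u)) ∧
    (∀ f g : P × H → ℝ≥0∞, (∀ x, f x ≤ g x) → D.IM f ≤ D.IM g)

/-- **egm.** The kernels are measurable, and the functions in all functionals of Part E are measurable. Proof. `eg = tk (eP ..) n`,
`S_AD` (5), `S_nu` (1). `ph`: `S_phV` (6). -/
def S_egm : Prop :=
  ∀ (D : Dat P H) (G : PG P), D.Ok → G.Ok →
    (∀ S K : Set P, IsCompact S → IsCompact K → ∀ R n : ℕ, Measurable (D.eg G S K R n)) ∧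
    (∀ φ : D.Γ → P → ℝ, Adm D G φ → ∀ (c : P) (l : D.Γ),
      Measurable fun x : P × H => ph G φ l (x.1 * c)) ∧
    (∀ φ : D.Γ → P → ℝ, Adm D G φ → ∀ (c : P) (g u v : D.Γ),
      Measurable fun x : P × H => Dg G φ c x g u v) ∧
    (∀ φ : D.Γ → P → ℝ, Adm D G φ → ∀ (c₀ c₁ c₂ : P) (u v w : D.Γ),
      Measurable fun x : P × H => dl G φ c₀ c₁ c₂ x u v w)

/-- **lpn.** The number of loops. Proof. `{(q, h)} = Q × O^c`: on it the kernel `tk (iK Q) (c + 1)` is `≥ ε > 0` (`ν^(c+1)` is lower semicontinuous and positive on the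
compact set `closure (O^c) ⊆ O^(c+1)`, `S_nu`, `S_O`), so `lp (Q × O^c) z 1 ≤ ε⁻¹ N (tk (iK Q) (c+1)) z z ≤ C` (`S_Up`). -/
def S_lpn : Prop :=
  ∀ D : Dat P H, D.Ok → ∀ Q : Set P, IsCompact Q → ∀ c : ℕ, ∃ C : ℝ≥0∞, C ≠ ∞ ∧
    (∀ z, D.lp (Q ×ˢ (D.O ^ c)) z (fun _ => 1) ≤ C) ∧
    ∀ (z) (f : D.Γ → ℝ≥0∞) (B : ℝ≥0∞), (∀ g, f g ≤ B) → D.lp (Q ×ˢ (D.O ^ c)) z f ≤ C * B

/-- **shE** (from `S_SHP P`, `S_Harn`). Shift of the end point and of the length. Proof. `S_SHP` with `c + 1` for the part in `P`, `S_Harn` for `ν^(n)`. -/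
def S_shE : Prop :=
  ∀ (D : Dat P H) (G : PG P), D.Ok → G.Ok → ∀ c : ℕ, ∃ (c' : ℕ) (C : ℝ≥0∞), C ≠ ∞ ∧
    ∀ (Q S K : Set P) (R n : ℕ), 1 ≤ n → ∀ g s : P × H, s ∈ Q ×ˢ (D.O ^ c) →
      D.eg G S K R n g ≤ C * D.eg G S (Q⁻¹ * K) (R + c') (n + (c + 1)) (g * s)

/-- **mer** (from `S_mg`, `S_nu`). Merging. Proof. (1) is (4), (5) of `S_mg`. (2) reindex `χ ↦ χ⁻¹` (`k (g⁻¹)`, `ν^(n) h⁻¹ = ν^(n) h`), and (1). -/
def S_mer : Prop :=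
  ∀ D : Dat P H, D.Ok → ∀ (k k' : P → ℝ≥0∞) (n m : ℕ), Measurable k → Measurable k' → 1 ≤ n → 1 ≤ m →
    ∀ (F : D.Γ → ℝ≥0∞),
    (∀ x y, (D.IM fun z => ∑' e : D.Γ, ∑' e' : D.Γ, D.tk k n (x⁻¹ * (e : P × H) * z) *
      D.tk k' m (z⁻¹ * (e' : P × H) * y) * F (e * e')) =
      ∑' u : D.Γ, D.tk (cvP D.μ₁ k k') (n + m) (x⁻¹ * (u : P × H) * y) * F u) ∧
    (∀ x' z, (D.IM fun x => ∑' χ : D.Γ, ∑' v : D.Γ, D.tk k n (x⁻¹ * (χ : P × H) * x') *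
      D.tk k' m (x⁻¹ * (v : P × H) * z) * F (χ⁻¹ * v)) =
      ∑' V : D.Γ, D.tk (cvP D.μ₁ (fun g => k g⁻¹) k') (n + m) (x'⁻¹ * (V : P × H) * z) * F V)

/-- **mrg** (from mer, `S_MU P`, `S_RV P`, `S_NB P`, `S_AD P`). Merging a chord (range `0`, length `b`) and an edge. Proof. (1) `S_mer` (1) and `S_MU` (`R = 0`). (2) `S_mer` (2); the
reversed kernel is `≤ C eP K₁ S₁⁺ 0 b` (`S_RV`) with a compact `S₁⁺ ⊇ S₁` such that still `Pos` on `S₁⁺ × S₂` (`S_NB`); `S_MU` with the windows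
`K₁, S₁⁺, S₂, K₂`. -/
def S_mrg : Prop :=
  ∀ (D : Dat P H) (G : PG P), D.Ok → G.Ok → G.OkF → ∀ S₁ K₁ S₂ K₂ : Set P, IsCompact S₁ →
    IsCompact K₁ → IsCompact S₂ → IsCompact K₂ →
    (∀ S₁' K₂' : Set P, S₁ ⊆ interior S₁' → K₂ ⊆ interior K₂' → (∀ κ ∈ K₁, ∀ s ∈ S₂, G.Pos κ s) →
      ∃ c : ℕ, ∀ R : ℕ, ∃ (C : ℝ≥0∞) (T : ℕ), C ≠ ∞ ∧ ∀ b n, T ≤ b → T ≤ n →
        ∀ (F : D.Γ → ℝ≥0∞) (x z : P × H),
        (D.IM fun x' => ∑' χ : D.Γ, ∑' u : D.Γ, D.eg G S₁ K₁ 0 b (x⁻¹ * (χ : P × H) * x') *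
          D.eg G S₂ K₂ R n (x'⁻¹ * (u : P × H) * z) * F (χ * u)) ≤
        C * ∑' U : D.Γ, D.eg G S₁' K₂' (R + c) (b + n) (x⁻¹ * (U : P × H) * z) * F U) ∧
    (∀ K₁' K₂' : Set P, K₁ ⊆ interior K₁' → K₂ ⊆ interior K₂' → (∀ s ∈ S₁, ∀ s' ∈ S₂, G.Pos s s') →
      ∃ c : ℕ, ∀ R : ℕ, ∃ (C : ℝ≥0∞) (T : ℕ), C ≠ ∞ ∧ ∀ b n, T ≤ b → T ≤ n →
        ∀ (F : D.Γ → ℝ≥0∞) (x' z : P × H),
        (D.IM fun x => ∑' χ : D.Γ, ∑' v : D.Γ, D.eg G S₁ K₁ 0 b (x⁻¹ * (χ : P × H) * x') *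
          D.eg G S₂ K₂ R n (x⁻¹ * (v : P × H) * z) * F (χ⁻¹ * v)) ≤
        C * ∑' V : D.Γ, D.eg G K₁' K₂' (R + c) (b + n) (x'⁻¹ * (V : P × H) * z) * F V)

/-- **TBd** (from shE, lpn, egm, ton). The theta bound. Proof. `t := (c i, S i, K i')` with `K i' = Q⁻¹ * K i` if `ε i`, else `K i` (compact; `t.Ok`). `L = [t]`, `c₀ = c'` of
`S_shE`. For `z⁻¹ g z ∈ Q × O^c` and fixed `x`: `x⁻¹ (u g) z = (x⁻¹ u z) (z⁻¹ g z)`, so the weight of `u` is at most `C` times the weight of `u g` for the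
windows of `t`, range `R + c'`, length `n + (c + 1)` (`S_shE`), resp. (no `g`) at most the weight of `u` with the range `R + c'` (`S_AD` (1)); reindex the sums
(`u ↦ u g`). So the sum over `u, v, w` is at most `C³` times the `st3` of `t` at `(x, z)`, for each `g`; the number of `g` is bounded (`S_lpn`). `IM z IM x = X3`
(Tonelli). A single term of the sum `EE` (`r ≤ n + (c + 1) ≤ 4 r` for `T ≥ c + 1`). -/
def S_TBd : Prop :=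
  ∀ (D : Dat P H) (G : PG P), D.Ok → G.Ok → ∀ (Q : Set P) (c : ℕ) (ε : Fin 3 → Bool)
    (e : Fin 3 → Ec P), IsCompact Q → (∀ i, (e i).Ok) →
    (∀ s₀ ∈ (e 0).S, ∀ s₁ ∈ (e 1).S, ∀ s₂ ∈ (e 2).S, G.Tri s₀ s₁ s₂) →
    (∀ k₀ ∈ (e 0).K, ∀ k₁ ∈ (e 1).K, ∀ k₂ ∈ (e 2).K, ∀ g₀ ∈ Q, ∀ g₁ ∈ Q, ∀ g₂ ∈ Q,
      G.Tri (shf (ε 2) g₂ k₂) (shf (ε 1) g₁ k₁) (shf (ε 0) g₀ k₀)) →
    CT D G 0 (okL 3) (FT D G Q c ε e)

/-- **Al** (from TBd, phP, CTs). Change of `v`. Proof. If a `K` is empty the kernel is `0`. The windows are pairwise positive (`TP`, `Tc`, `Ps`). For lengths `≥ T` on the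
support: `Dg(u,v) - Dg(u,v') = δ(ug,v,v') - δ(u,v,v')`, because `ph (v' (u g)⁻¹) (x c'') = - ph (u g v'⁻¹) (x c)` and the same without `g` (`S_phP` for the windows of
`u` (resp. `(S, Q⁻¹ K)` for `u g`: `(x⁻¹ u g z).1 = (x⁻¹ u z).1 (z⁻¹ g z).1 ∈ W S (Q⁻¹ K) k`, `S_Wr`) and `v'`). So `FA ≤ FT(ε = (1,0,0)) + FT(ε = 0)`. -/
def S_Al : Prop :=
  ∀ (D : Dat P H) (G : PG P), Fc D G → ∀ (Q : Set P) (c : ℕ) (eu ev ev' : Ec P), IsCompact Q →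
    eu.Ok → ev.Ok → ev'.Ok →
    (∀ s ∈ eu.S, ∀ s' ∈ ev.S, ∀ s'' ∈ ev'.S, G.Tri s s' s'') →
    (∀ k ∈ eu.K, ∀ k' ∈ ev.K, ∀ k'' ∈ ev'.K, G.Tri k'' k' k ∧ ∀ g ∈ Q, G.Tri k'' k' (g⁻¹ * k)) →
    CT D G 0 (okL 3) (FA D G Q c eu ev ev')

/-- **Be** (from TBd, phP, CTs). Change of `u`. Proof. As `S_Al`: `Dg(u,v) - Dg(u',v) = δ(u,u',v) - δ(ug,u'g,v)` (`u g (u' g)⁻¹ = u u'⁻¹`; reversal for the pairs `(u, v)`,
`(u g, v)`): `FB ≤ FT(ε = 0) + FT(ε = (1,1,0))`. -/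
def S_Be : Prop :=
  ∀ (D : Dat P H) (G : PG P), Fc D G → ∀ (Q : Set P) (c : ℕ) (eu eu' ev : Ec P), IsCompact Q →
    eu.Ok → eu'.Ok → ev.Ok →
    (∀ s ∈ eu.S, ∀ s' ∈ eu'.S, ∀ s'' ∈ ev.S, G.Tri s s' s'') →
    (∀ k ∈ eu.K, ∀ k' ∈ eu'.K, ∀ k'' ∈ ev.K, G.Tri k'' k' k ∧
      ∀ g ∈ Q, ∀ g' ∈ Q, G.Tri k'' (g'⁻¹ * k') (g⁻¹ * k)) →
    CT D G 0 (okL 3) (FB D G Q c eu eu' ev)

/-- **AA** (from Al, CTs). Change of `v` between germs which are not ordered, with a third edge of the germs `(s₂, b)`. Proof. `s₂` with `Tri s t s₂`, `Tri s t' s₂`: `NT` for `{s⁻¹ t, s⁻¹ t'}`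
gives `c` with `Tri c 1 (s⁻¹ t)`, `s₂ := s c`, `Tl`, `Tc`. All conditions of `S_Al` for `(eu, ev, e₂)` and `(eu, ev', e₂)`, `e₂ = wn U s₂ b`, hold for a compact neighbourhood `U` of `1`
(`To`, continuity, `Q = U * {gc}`). Insert `e₂` of length `2 r`: `N ≥ c > 0` (`lo`), `FA(u,v,v') ≤ c⁻¹ C (FA(u,v,e₂) + FA(u,v',e₂))` (drop the edge which does not occur, `up`). `S_CTs`. -/
def S_AA : Prop :=
  ∀ (D : Dat P H) (G : PG P), Fc D G → ∀ (gc : P) (c : ℕ) (s t t' k l l' b : P),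
    G.Pos s t → G.Pos s t' → G.Tri b l k → G.Tri b l (gc⁻¹ * k) → G.Tri b l' k →
    G.Tri b l' (gc⁻¹ * k) → ∃ U ∈ 𝓝 (1 : P), IsCompact U ∧
      CT D G 0 (okL 3) (FA D G (U * {gc}) c (wn U s k) (wn U t l) (wn U t' l'))

/-- **BB** (from Be, CTs). Change of `u` between germs which are not ordered, with a third edge of the germs `(s₁, a)`. Proof. `s₁` with `Tri s s₁ t`, `Tri s' s₁ t`: `NT` for `{t⁻¹ s, t⁻¹ s'}`, `s₁ := t c`: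
`Tri s₁ t s`, so `Tri s s₁ t`. As `S_AA` with `S_Be` for `(u, e₁, v)` and `(u', e₁, v)`, `e₁ = wn U s₁ a`. -/
def S_BB : Prop :=
  ∀ (D : Dat P H) (G : PG P), Fc D G → ∀ (gc : P) (c : ℕ) (s s' t k k' l a : P),
    G.Pos s t → G.Pos s' t → G.Tri l a k → G.Tri l (gc⁻¹ * a) (gc⁻¹ * k) → G.Tri l a k' →
    G.Tri l (gc⁻¹ * a) (gc⁻¹ * k') → ∃ U ∈ 𝓝 (1 : P), IsCompact U ∧
      CT D G 0 (okL 3) (FB D G (U * {gc}) c (wn U s k) (wn U s' k') (wn U t l))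

/-- **LX0** (from phB, egm, ton). The identity for the change of the base point. Proof. `S_phB` for `u := u' g` and `u := u'` (windows `Ku := Q⁻¹ * Ku` and `Ku`; `(x'⁻¹ u' g z).1 ∈ W Su (Q⁻¹ Ku) k`). -/
def S_LX0 : Prop :=
  ∀ (D : Dat P H) (G : PG P), Fc D G → ∀ (Q S K Su Ku Sv Kv : Set P), IsCompact Q → IsCompact S →
    IsCompact K → IsCompact Su → IsCompact Ku → IsCompact Sv → IsCompact Kv →
    (∀ κ ∈ K, ∀ s ∈ Su, G.Pos κ s) → (∀ s ∈ S, ∀ s' ∈ Sv, G.Pos s s') →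
    (∀ κ ∈ Ku, ∀ κ' ∈ Kv, G.Pos κ κ' ∧ ∀ g ∈ Q, G.Pos (g⁻¹ * κ) κ') →
    ∀ R : ℕ, ∃ T : ℕ, ∀ b n m, T ≤ b → T ≤ n → T ≤ m → ∀ (x x' z : P × H) (χ g u v : D.Γ),
      D.eg G S K 0 b (x⁻¹ * (χ : P × H) * x') ≠ 0 →
      D.eg G Su Ku R n (x'⁻¹ * (u : P × H) * z) ≠ 0 →
      D.eg G Sv Kv R m (x⁻¹ * (v : P × H) * z) ≠ 0 → (z⁻¹ * (g : P × H) * z).1 ∈ Q →
      ∀ φ : D.Γ → P → ℝ, Adm D G φ → ∀ s ∈ S, ∀ s' ∈ Su,
        Dg G φ s x g (χ * u) v = Dg G φ s' x' g u (χ⁻¹ * v)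

/-- **LX1** (from AA, BB, LX0, mrg, CTs, ton, egm). Change of the base point and of the germs. Proof. `U₁` from `S_BB` for `(s, k), (s, k'), (t, l)`, `a`; `U₂` from `S_AA` for `(s', k'), (t', l), (t', l')`, `b`. Chord
`χ : x → x'` of the class `wn U s t'` (germs `s` at `x`, `t'` at `x'`). Choose a compact neighbourhood `U` of `1` in the interior of `U₁ ∩ U₂` such that the positivity conditions of `S_LX0` hold for
`Q = U * {gc}`, `S = U s`, `K = U t'`, `Su = U s'`, `Ku = U k'`, `Sv = U t`, `Kv = U l` (they hold at the centres: `Pos t' s'`, `Pos s t`, `Pos k' l` (`TP` etc.), `Pos (gc⁻¹ k') l`), and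
`U s ⊆ interior (U₁ s)` etc. Given `R` choose `b = b(R)` large (`lo` for `χ`, `mrg`, `LX0`). Insert `χ` (`N ≥ c`): `|Dg(u,v) - Dg(u',v')| ≤ |Dg_x(u,v) - Dg_x(χu',v)| + |Dg_x'(u',χ⁻¹v) - Dg_x'(u',v')|` on the
support. First term: drop `v'` (`up`), `IM x' ∑_χ ∑_u'` is merged by `mrg` (1) into one sum over `U = χ u'` of class `wn U₁ s k'`, range `R + c`, length `b + n'`: `≤ C FB`. Second term: drop `u`, `IM x ∑_χ ∑_v` merged by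
`mrg` (2) into `V = χ⁻¹ v` of class `wn U₂ t' l`: `≤ C FA`. (Range `R + c`; `FA`, `FB` monotone in the windows and the range.) `S_CTs`; the lengths: `b + n ≤ 4 r - T` for `n ≤ 4 r - T'`. -/
def S_LX1 : Prop :=
  ∀ (D : Dat P H) (G : PG P), Fc D G → ∀ (gc : P) (c : ℕ) (s t s' t' k l k' l' a b : P),
    G.Pos s t → G.Pos s' t' → G.Tri l a k → G.Tri l (gc⁻¹ * a) (gc⁻¹ * k) → G.Tri l a k' →
    G.Tri l (gc⁻¹ * a) (gc⁻¹ * k') → G.Tri b l k' → G.Tri b l (gc⁻¹ * k') → G.Tri b l' k' →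
    G.Tri b l' (gc⁻¹ * k') → ∃ U ∈ 𝓝 (1 : P), IsCompact U ∧
      CT D G 0 (okL 4) (FX D G (U * {gc}) c (wn U s k) (wn U t l) (wn U s' k') (wn U t' l'))

/-- **Rls** (from CTs, ton, egm). Symmetry and transitivity. Proof. Symmetry: exchange `IM x`, `IM x'` (`ab (-t) = ab t`), permute the lengths. Transitivity: middle germs `(1, w)` (`P1`) at `x''`,
`U = U₁ ∩ U₂`, insert `x''; u'', v''` of the class `(wn U 1 l), (wn U w l')`, lengths `2 r`, `IM x'' st2 ≥ c` (`lo`; `IM 1 = 1`); the triangle inequality; drop `(x'; u', v')` resp. `(x; u, v)` (`up`). -/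
def S_Rls : Prop :=
  ∀ (D : Dat P H) (G : PG P), Fc D G → ∀ (gc : P) (c : ℕ) (k k' l l' m m' : P),
    (Rel D G gc c k k' l l' → Rel D G gc c l l' k k') ∧
    (Rel D G gc c k k' l l' → Rel D G gc c l l' m m' → Rel D G gc c k k' m m')

/-- **Loc** (from LX1). Local constancy. Proof. `NT` for `{k⁻¹ l, k⁻¹ gc l}` (`Pos k l`; `Pos (gc⁻¹ k) l`) gives `c` with `Tri c 1 (k⁻¹ l)`, `Tri c 1 (k⁻¹ gc l)`; `a := k c`: `Tri a k l`, `Tri a k (gc l)`, so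
`Tri l a k` and `Tri (gc l) a k`, i.e. `Tri l (gc⁻¹ a) (gc⁻¹ k)`. `NT` for `{l⁻¹ k, l⁻¹ gc⁻¹ k}`, `b := l c'`: `Tri b l k`, `Tri b l (gc⁻¹ k)`. The conditions of `S_LX1` hold for `k' = k`, `l' = l`, so (`To`) for
`k'` near `k`, `l'` near `l`. -/
def S_Loc : Prop :=
  ∀ (D : Dat P H) (G : PG P), Fc D G → ∀ (gc : P) (c : ℕ) (k l : P), G.Pos k l →
    G.Pos (gc⁻¹ * k) l → ∃ W ∈ 𝓝 k, ∃ W' ∈ 𝓝 l, ∀ k' ∈ W, ∀ l' ∈ W', Rel D G gc c k l k' l'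

/-- **Orb** (from Rls, Loc). The orbit. Proof. `r(t, t') := Rel gc c (z₀ t w) (z₀ t) (z₀ t' w) (z₀ t')` on the preconnected set `K0`; `Pos (z₀ t w) (z₀ t)` (`P1`), `Pos (gc⁻¹ z₀ t w) (z₀ t) = Pos (z₀ d⁻¹ t w) (z₀ t)` (`PD` for
`d⁻¹`), `S_Loc` and continuity of `t ↦ z₀ t w`; `IsPreconnected.induction₂` (with `S_Rls`). Take `t = 1`, `t' = J`: `J w = w J`. -/
def S_Orb : Prop :=
  ∀ (D : Dat P H) (G : PG P), Fc D G → ∀ (c : ℕ) (z d : P), d ∈ G.A →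
    Rel D G (z * d * z⁻¹) c (z * G.w) z (z * G.w * G.J) (z * G.J)

/-- **Van** (from CTs, ton, egm, phV). Vanishing. Proof. Given `s, t`: `U₁` from `Rel gc c k l (k J) (l J)` for the germs `s, t, s J, t J` (`PJ`), `U₂` from `Rel gc c k l k l` for `s, t, s, t`; `U = U₁ ∩ U₂`. The kernels
`eg (U s J) (U k J) R n` and `eg (U s) (U k) R n` are equal: substitute `q ↦ q J` (right invariance of `μ₁`): `q J ∈ U s J D1^R ↔ q ∈ U s D1^R` (`J` commutes with `A`), `(a^n)⁻¹ J⁻¹ q⁻¹ g = J ((a^n)⁻¹ q⁻¹ g)`, and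
`J r ∈ ew (U k J) ↔ r⁻¹ J w ∈ U k J ↔ r⁻¹ w ∈ U k`. `Dg φ (s J) x' = - Dg φ s x'` (`S_phV` (4)). So with a second copy `(x'; u', v')` of the class `(wn U s k), (wn U t l)`, lengths `2 r` (mass `≥ c`, `lo`):
`2 |Dg(u,v)| ≤ |Dg(u,v) - Dg(u',v')| + |Dg(u,v) + Dg(u',v')|`. -/
def S_Van : Prop :=
  ∀ (D : Dat P H) (G : PG P), Fc D G → ∀ (gc : P) (c : ℕ) (k l : P),
    Rel D G gc c k l (k * G.J) (l * G.J) → Rel D G gc c k l k l → Zer D G gc c k l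

/-- **Trz** (from CTs, ton, egm). Transport. Proof. Insert a copy `(x; u, v)` of the class `(wn U 1 k), (wn U w l)`, lengths `2 r` (mass `≥ c`), `|Dg(u',v')| ≤ |Dg(u,v)| + |Dg(u,v) - Dg(u',v')|`; drop `(x'; u', v')` in the
first term. -/
def S_Trz : Prop :=
  ∀ (D : Dat P H) (G : PG P), Fc D G → ∀ (gc : P) (c : ℕ) (k l k' l' : P),
    Zer D G gc c k l → Rel D G gc c k l k' l' → Zer D G gc c k' l'

/-- **RlI** (from LX1, `S_CTc P`). Long insertions. Proof. `NT` for `{w}`: `c₁` with `Tri c₁ 1 w`; `b := c₁`; `a := w c₁`: `Tri (w c₁) w 1`, so `Tri 1 a w`. Choose an open `O ∋ 1` such that `Tri l a k`, `Tri b l k` for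
`l ∈ O Bor`, `k ∈ O w Bor` (`To`, `Tr`, `Tc`). `g = u a^s u'`: `g l = u (a^s (u' e)) b'` for `l = e b'`, and `a^s (u' e) ∈ O' Bor` (`S_CTc` with `Q` a small compact neighbourhood of `1`, `Pos w 1`), so `g l ∈ O Bor` for `s ≥ s₀`, `U₁`
small; `g⁻¹ k = u'⁻¹ a^(-s) u⁻¹ e w b' = u'⁻¹ w (a^s (w u⁻¹ e w)) b' ∈ O w Bor`. So the conditions of `S_LX1` hold: `Tri l (g⁻¹ a) (g⁻¹ k) ↔ Tri (g l) a k`, `Tri b l (g⁻¹ k)`. -/
def S_RlI : Prop :=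
  ∀ (D : Dat P H) (G : PG P), Fc D G → ∃ U ∈ 𝓝 (1 : P), ∃ s₀ : ℕ, ∀ s, s₀ ≤ s → ∀ u ∈ U, ∀ u' ∈ U,
    ∀ e₁ ∈ U, ∀ e₂ ∈ U, ∀ e₃ ∈ U, ∀ e₄ ∈ U, ∀ b₁ ∈ G.Bor, ∀ b₂ ∈ G.Bor, ∀ b₃ ∈ G.Bor, ∀ b₄ ∈ G.Bor,
    ∀ c : ℕ, Rel D G (u * G.a ^ s * u') c (e₁ * G.w * b₁) (e₂ * b₂) (e₃ * G.w * b₃) (e₄ * b₄)

/-- **ZI** (from RlI, Orb, Van, Loc, Trz, `S_LXc P`). Proof. `u a^s u' = u (a^s (u' u)) u⁻¹`; `S_LXc` (or (LX) with `q = 1`, `Pos w 1`): a frame `z` of `a^s (u' u)` with `z = e b`, `z w = e' w b'`; `z₀ = u z`: `u a^s u' = z₀ d z₀⁻¹`,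
`d ∈ App ⊆ A`, `z₀ w ∈ U w Bor`, `z₀ ∈ U Bor` (`U₁` small). `S_Orb`, `S_Loc` (for `Rel gc c k l k l`), `S_Van`: `Zer` at `(z₀ w, z₀)`; `S_RlI`, `S_Trz`. -/
def S_ZI : Prop :=
  ∀ (D : Dat P H) (G : PG P), Fc D G → ∃ U ∈ 𝓝 (1 : P), ∃ s₀ : ℕ, ∀ s, s₀ ≤ s → ∀ u ∈ U, ∀ u' ∈ U,
    ∀ e₁ ∈ U, ∀ e₂ ∈ U, ∀ c : ℕ, Zer D G (u * G.a ^ s * u') c (e₁ * G.w) e₂

/-- **INS** (from ZI, CTs, phP). Proof. `U₀` a compact neighbourhood of `1` in the interior of `U` (of `S_ZI`), so small that all positivity conditions below hold. For fixed `s`, `c`: the set of the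
`(u, u', s₁, k, t₁, l) ∈ U₀ × U₀ × (start window of u) × uw U₀ × (start window of v) × U₀` is compact; for each point `S_ZI` gives a `U`; the sets `(U gc) × (U s₁) × (U k) × (U t₁) × (U l)` (`gc = u a^s u'`) are neighbourhoods; a
finite subcover. `iK` of a union is at most the sum, so `FE` is at most the finite sum of the `FE` of the boxes (`S_AD` (2) or directly). The centre: on the support `Dg φ h x g u v = Dg φ s₁ x g u v` for `h, s₁` in the compact start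
window (`S_phP` for the windows `(U₀, uw U₀)` etc. and for `u g`: end window `Q⁻¹ K`; `Pos` holds on `(Q⁻¹ (U₀ w)) × U₀` because `g⁻¹ (e w) ∈ O w Bor`, see `S_RlI`; `S_CTc`). `S_CTs` (lists: finite sum over the boxes). -/
def S_INS : Prop :=
  ∀ (D : Dat P H) (G : PG P), Fc D G → ∃ U ∈ 𝓝 (1 : P), IsCompact U ∧ ∃ s₀ : ℕ, ∀ s, s₀ ≤ s →
    ∀ c : ℕ,
    CT D G 0 (okL 2) (FE D G (U * {G.a ^ s} * U) c ⟨G.w, G.uw U, G.uw U⟩ ⟨1, U, U⟩) ∧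
    CT D G 0 (okL 2) (FE D G (U * {G.a ^ s} * U) c ⟨1, U, G.uw U⟩ ⟨G.w, G.uw U, U⟩)

end Pool.Agent.MPEF.U
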