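import Pool.Agent.Lib.MP_ef3f0f_gt.U.E.SpecA
import Pool.Agent.Lib.MP_ef3f0f_gt.U.Ck.Spec

set_option autoImplicit false

/-!
# MP_ef3f0f_gt, Theorem U, Part E (coercivity): the statements B (kernels, telescoping)

Conventions as in `U/E/SpecA`. `ch U s = eg U (uw U) 0 s`; `bk U d m = eg (uw U * {d}) U 0 m`; `pv φ x u v = ph (u v⁻¹) x.1`;
`ec μ G S K s = ck μ (iK S) (iK (ew K)) s` (`rfl`), `cvP = cv` (`rfl`).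
-/

namespace Pool.Agent.MPEF.U

open MeasureTheory Topology
open scoped ENNReal Pointwise

section

variable (P : Type) [Group P] [TopologicalSpace P] [IsTopologicalGroup P] [LocallyCompactSpace P]
  [T2Space P] [SecondCountableTopology P] [MeasurableSpace P] [BorelSpace P]

/-- **ec.** Algebra of the kernels `ec`. Proof. (1) `q ↦ q d⁻¹` (right invariance), `D1 ^ 0 = {1}`. (2) `∫ 1_S(q) 1[s⁻¹ q⁻¹ g⁻¹ ∈ ew K] dq`; put `κ = (s⁻¹ q⁻¹ g⁻¹)⁻¹ w = g q s w` (left and right invariance), `κ ∈ K`, `q = g⁻¹ κ w s⁻¹`, and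
`q ∈ S ↔ (w s w) κ⁻¹ g ∈ ew S` as `((w s w) κ⁻¹ g)⁻¹ w = g⁻¹ κ w s⁻¹`. (3) `q ↦ x q`; `r x ∈ ew K ↔ x⁻¹ r⁻¹ w ∈ K ↔ r ∈ ew ({x} * K)`. The same for `eP`. (4) monotone; (1) and `S * {d} ⊆ S * D1^R`. (5) `D1^R` is covered by finitely many `V d'`, `d' ∈ D1^R`
(`S_NT1`), `s v ∈ S'` for `s ∈ S`, `v ∈ V` (`S_TB`): `q = s v d'`, so `1_(S D1^R) ≤ ∑_(d') 1_(S' d')`. (6) `S_ck`; `ec ≤ μ S`. -/
def S_ec : Prop :=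
  ∀ (G : PG P) (μ : Measure P), Un μ → G.Ok →
    (∀ (S K : Set P) (d : P) (n : ℕ) (g : P), eP μ G (S * {d}) K 0 n g = ec μ G S K (d * G.a ^ n) g ∧
      eP μ G S K 0 n g = ec μ G S K (G.a ^ n) g) ∧
    (∀ (S K : Set P) (s g : P), ec μ G S K s g⁻¹ = ec μ G K S (G.w * s⁻¹ * G.w) g) ∧
    (∀ (S K : Set P) (s x g : P), ec μ G S K s (x * g) = ec μ G ({x⁻¹} * S) K s g ∧
      ec μ G S K s (g * x) = ec μ G S ({x} * K) s g) ∧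
    (∀ (S K : Set P) (R n : ℕ) (x g : P), eP μ G S K R n (x * g) = eP μ G ({x⁻¹} * S) K R n g ∧
      eP μ G S K R n (g * x) = eP μ G S ({x} * K) R n g) ∧
    (∀ (S K S' K' : Set P) (s g : P), S ⊆ S' → K ⊆ K' → ec μ G S K s g ≤ ec μ G S' K' s g) ∧
    (∀ (S K : Set P) (R n : ℕ) (d g : P), d ∈ G.D1 ^ R →
      ec μ G S K (d * G.a ^ n) g ≤ eP μ G S K R n g) ∧
    (∀ S S' : Set P, IsCompact S → S ⊆ interior S' → ∀ R : ℕ, ∃ F : Finset P,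
      (∀ d ∈ F, d ∈ G.D1 ^ R) ∧ ∀ (K : Set P) (n : ℕ) (g : P),
        eP μ G S K R n g ≤ ∑ d ∈ F, ec μ G S' K (d * G.a ^ n) g) ∧
    (∀ S K : Set P, IsCompact S → IsCompact K → ∀ s : P, Measurable (ec μ G S K s) ∧
      ∀ g, ec μ G S K s g ≤ μ S)

/-- **ms1** (from `S_ckU P`, `S_TB P`). Straight merge of the kernels `ec`, uniformly in `s, s' ∈ Dp 0`; second part: with the end window near `1` and the start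
window near `w` in the middle. Proof. (JN1) with `U` small such that `S₁ (e d) ⊆ S₁'` for `e ∈ U`, `d ∈ U` and `e' ew K₂ ⊆ ew K₂'` for `e' ∈ U` (`S_TB`): `V₀`. `V` a compact
neighbourhood of `1` with `V⁻¹ V ⊆ V₀` and `w (V⁻¹ V) w ⊆ V₀`. `p ∈ ew (uw V)` iff `p⁻¹ ∈ V`; `r ∈ V`: `s (p r) s' = e (d s s') e' = (e d) (s s') e'`; `S_ckU` with `h₁ = e d`, `h₂ = e'`. Second part: `p ∈ ew V`: `p = w v⁻¹`,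
`r ∈ uw V`: `p r = w v⁻¹ v' w`. `C = μ(ew V) μ(V)` etc. -/
def S_ms1 : Prop :=
  ∀ (G : PG P) (μ : Measure P), Un μ → G.Ok → ∀ S₁ K₂ S₁' K₂' : Set P, IsCompact S₁ →
    IsCompact K₂ → S₁ ⊆ interior S₁' → K₂ ⊆ interior K₂' → ∃ V ∈ 𝓝 (1 : P), IsCompact V ∧
      ∃ C : ℝ≥0∞, C ≠ ∞ ∧ ∀ s ∈ G.Dp 0, ∀ s' ∈ G.Dp 0, ∀ g,
        cvP μ (ec μ G S₁ (G.uw V) s) (ec μ G V K₂ s') g ≤ C * ec μ G S₁' K₂' (s * s') g ∧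
        cvP μ (ec μ G S₁ V s) (ec μ G (G.uw V) K₂ s') g ≤ C * ec μ G S₁' K₂' (s * s') g

/-- **ms2** (from ms1, ec, `S_DF P`). The same with ranges; `V` does not depend on the ranges. Proof. `S₁ ⊆ interior S₁⁺`, `S₁⁺` compact `⊆ interior S₁'` and a smaller `V' ⊆ interior V`. `S_ec` (7) for
`S₁ → S₁⁺`, and for `V' → V` (`uw V' → uw V`), then `S_ms1` with `s = d a^n ∈ Dp 0`, `s' = d' a^m ∈ Dp 0` (`S_DF`, `n, m ≥ T`; if `R = 0` then `d = 1`, `a^n ∈ Dp n ⊆ Dp 0`);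
`s s' = (d d') a^(n+m)`, `d d' ∈ D1^(R+R')`, `S_ec` (6). -/
def S_ms2 : Prop :=
  ∀ (G : PG P) (μ : Measure P), Un μ → G.Ok → ∀ S₁ K₂ S₁' K₂' : Set P, IsCompact S₁ →
    IsCompact K₂ → S₁ ⊆ interior S₁' → K₂ ⊆ interior K₂' → ∃ V ∈ 𝓝 (1 : P), IsCompact V ∧
      ∀ R R' : ℕ, ∃ (C : ℝ≥0∞) (T : ℕ), C ≠ ∞ ∧ ∀ n m, (R = 0 ∨ T ≤ n) → (R' = 0 ∨ T ≤ m) → ∀ g,
        cvP μ (eP μ G S₁ (G.uw V) R n) (eP μ G V K₂ R' m) g ≤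
          C * eP μ G S₁' K₂' (R + R') (n + m) g ∧
        cvP μ (eP μ G S₁ V R n) (eP μ G (G.uw V) K₂ R' m) g ≤
          C * eP μ G S₁' K₂' (R + R') (n + m) g

/-- **KVd** (from `S_ck P`, `S_TB P`, `S_DF P`). Smoothing of a backward edge, prolonged at both ends. Proof. `eP (uw Uv) Uv (2R) m (a^j q g q'⁻¹ a^l) = ∫_p 1[p ∈ Uv w D] 1[t ∈ ew Uv]`, `t = (a^m)⁻¹ p⁻¹ a^j q g q'⁻¹ a^l`, `D = D1^(2R)`. For fixed `p, q` substitute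
`q' ↦ t` (`q' = a^l t⁻¹ (a^m)⁻¹ p⁻¹ a^j q g`; inversion and translations): the left side is `∫_p ∫_t 1 1 ∫_q 1_Us(q) 1_Us(h⁻¹ q g)`, `h = a^(-j) p a^m t a^(-l)`. `p = v w d`, `t = w v'⁻¹`: `h = w a^j (w v w) (d a^m) (w v'⁻¹ w) a^l w`; (JN1) twice
(`a^j, d a^m, a^l ∈ Dp 0` for `m ≥ T`; the first gives `e₁ (δ₁ d a^(j+m)) e₁'` with `δ₁ ∈ A` in a small `U`, so in `D1` (`D1n`), so `δ₁ d a^(j+m) ∈ Dp 0`): `h = w e (δ d a^L) e' w`, `L = j + m + l`, `e, e', δ` small. `∫_q 1_Us(q) 1_Us(h⁻¹ q g) dq = ∫_q₂ 1[w e δ d q₂⁻¹ ∈ Us] 1[w e'⁻¹ (a^L)⁻¹ q₂⁻¹ g ∈ Us]`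
(`q = w e δ d q₂⁻¹`); `q₂ = q⁻¹ w e δ d = (q⁻¹ (w e δ w)) w d ∈ U w D` and `(a^L)⁻¹ q₂⁻¹ g ∈ e' w Us = w (w e' w) Us ⊆ w U⁻¹ = ew U`. So `≤ eP (uw U) U (2R) L g`. Constant `μ(Uv w D) μ(ew Uv)`. -/
def S_KVd : Prop :=
  ∀ (G : PG P) (μ : Measure P), Un μ → G.Ok → ∀ U ∈ 𝓝 (1 : P), ∃ Uv ∈ 𝓝 (1 : P), IsCompact Uv ∧
    ∃ Us ∈ 𝓝 (1 : P), IsCompact Us ∧ ∀ R : ℕ, ∃ (C : ℝ≥0∞) (T : ℕ), C ≠ ∞ ∧ ∀ m, T ≤ m →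
      ∀ (j l : ℕ) (g : P),
        ∫⁻ q in Us, ∫⁻ q' in Us, eP μ G (G.uw Uv) Uv (2 * R) m (G.a ^ j * q * g * q'⁻¹ * G.a ^ l)
          ∂μ ∂μ ≤ C * eP μ G (G.uw U) U (2 * R) (j + m + l) g

/-- **KFP** (from `S_ck P`, `S_DF P`). Two straight edges with the same end points. Proof. Let `n = s + N`, `Ũ = U⁻¹ U`. `eP U (uw U) 0 n g' = ∫_(q₁ ∈ U) 1[t' ∈ U⁻¹]`, `t' = (a^n)⁻¹ q₁⁻¹ g'`; and `eP U (uw U) 0 n g = ∫_(q₂ ∈ U) 1[s' ∈ U]`, `s' = g q₂ (a^n)⁻¹` (substitute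
`q₁ = g q₂ (a^n)⁻¹`; `ew (uw U) = U⁻¹`). In the product: `q₁⁻¹ g q₂ (a^N)⁻¹ = (q₁⁻¹ s') a^s ∈ Ũ a^s`, `(a^N)⁻¹ q₁⁻¹ g' q₂ = a^s (t' q₂) ∈ a^s Ũ`. For `e ∈ Ũ`: `eP Uc (uw Uc) 0 s (e a^s) = μ {q ∈ Uc | (a^s)⁻¹ q⁻¹ e a^s ∈ Uc⁻¹} ≥ μ F` (`q = e f`, `f ∈ F`,
`F` a small neighbourhood of `1` depending on `s`; `Ũ ⊆ interior Uc`), `eP Uc (uw Uc) 0 s (a^s e) ≥ μ F'` (`q = f ∈ F'`: `(a^s)⁻¹ f⁻¹ a^s e ∈ Uc⁻¹`). So `C = (μ F μ F')⁻¹`. -/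
def S_KFP : Prop :=
  ∀ (G : PG P) (μ : Measure P), Un μ → G.Ok → ∀ Uc ∈ 𝓝 (1 : P), ∃ U ∈ 𝓝 (1 : P), IsCompact U ∧
    U ⊆ Uc ∧ ∀ s : ℕ, ∃ C : ℝ≥0∞, C ≠ ∞ ∧ ∀ (N : ℕ) (g g' : P),
      eP μ G U (G.uw U) 0 (s + N) g * eP μ G U (G.uw U) 0 (s + N) g' ≤
        C * ∫⁻ q in U, ∫⁻ q' in U, eP μ G Uc (G.uw Uc) 0 s (q⁻¹ * g * q' * (G.a ^ N)⁻¹) *
          eP μ G Uc (G.uw Uc) 0 s ((G.a ^ N)⁻¹ * (q⁻¹ * g' * q')) ∂μ ∂μ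

end

variable (P H : Type) [Group P] [Group H] [TopologicalSpace P] [TopologicalSpace H]
  [IsTopologicalGroup P] [IsTopologicalGroup H] [LocallyCompactSpace P] [LocallyCompactSpace H]
  [T2Space P] [T2Space H] [SecondCountableTopology P] [SecondCountableTopology H]
  [MeasurableSpace P] [MeasurableSpace H] [BorelSpace P] [BorelSpace H]

/-- **mer3.** The third form of merging. Proof. As `S_mer` (2): reindex `e ↦ e⁻¹`, `S_mg` (4), (5), symmetry of `ν^(m)`. -/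
def S_mer3 : Prop :=
  ∀ D : Dat P H, D.Ok → ∀ (k k' : P → ℝ≥0∞) (n m : ℕ), Measurable k → Measurable k' → 1 ≤ n → 1 ≤ m →
    ∀ (F : D.Γ → ℝ≥0∞) (x z : P × H),
    (D.IM fun y => ∑' v : D.Γ, ∑' e : D.Γ, D.tk k n (x⁻¹ * (v : P × H) * y) *
      D.tk k' m (z⁻¹ * (e : P × H) * y) * F (v * e⁻¹)) =
      ∑' V : D.Γ, D.tk (cvP D.μ₁ k fun g => k' g⁻¹) (n + m) (x⁻¹ * (V : P × H) * z) * F V

/-- **opI.** Iterates of the operators. Proof. Induction on `N`; one step: `∫ν(h) ν^(n)(g₂ h⁻¹) dh = ν^(n+1)(g₂)` etc. (`S_nu`, symmetry and inversion invariance). -/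
def S_opI : Prop :=
  ∀ D : Dat P H, D.Ok → ∀ (a : P) (k : P → ℝ≥0∞) (n : ℕ), Measurable k → 1 ≤ n →
    (∀ N : ℕ, (opF D a)^[N] (D.tk k n) = D.tk (fun g => k (g * (a ^ N)⁻¹)) (n + N)) ∧
    (∀ N : ℕ, (opB D a)^[N] (D.tk k n) = D.tk (fun g => k ((a ^ N)⁻¹ * g)) (n + N)) ∧
    (∀ N : ℕ, (opL D a)^[N] (D.tk k n) = D.tk (fun g => k (a ^ N * g)) (n + N)) ∧
    (∀ N : ℕ, (opR D a)^[N] (D.tk k n) = D.tk (fun g => k (g * a ^ N)) (n + N)) ∧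
    (∀ K : P × H → ℝ≥0∞, Measurable K → Measurable (opF D a K) ∧ Measurable (opB D a K) ∧
      Measurable (opL D a K) ∧ Measurable (opR D a K))

/-- **dual.** Proof. Tonelli; for fixed `h` shift `x ↦ x (a, h)⁻¹` resp. `y ↦ y (a, h)` (`S_IM` (1): the sum over `V` is an invariant function of `x` resp. `y`, by the equivariance of `F` and reindexing). -/
def S_dual : Prop :=
  ∀ D : Dat P H, D.Ok → ∀ (a : P) (KV : P × H → ℝ≥0∞), Measurable KV →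
    ∀ F : D.Γ → P × H → P × H → ℝ≥0∞,
    (∀ V, Measurable fun q : (P × H) × (P × H) => F V q.1 q.2) →
    (∀ (γ V : D.Γ) (x y), F (γ * V) ((γ : P × H) * x) y = F V x y) →
    (∀ (γ V : D.Γ) (x y), F (V * γ⁻¹) x ((γ : P × H) * y) = F V x y) →
    (D.IM fun x => D.IM fun y => ∑' V : D.Γ, KV (x⁻¹ * (V : P × H) * y) *
        ∫⁻ h, D.ν h * F V (x * (a, h)) y ∂D.μ₂) =
      (D.IM fun x => D.IM fun y => ∑' V : D.Γ, opL D a KV (x⁻¹ * (V : P × H) * y) * F V x y) ∧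
    (D.IM fun x => D.IM fun y => ∑' V : D.Γ, KV (x⁻¹ * (V : P × H) * y) *
        ∫⁻ h, D.ν h * F V x (y * (a, h)⁻¹) ∂D.μ₂) =
      (D.IM fun x => D.IM fun y => ∑' V : D.Γ, opR D a KV (x⁻¹ * (V : P × H) * y) * F V x y)

/-- **tele** (from dual, ton; model: `I/tele.lean`). Telescoping. Proof. Fix `V`. `Δ(x, y'; x', y) := N_K(x,y')⁻¹ N_K(x',y)⁻¹ ∑_(c,c') K(x⁻¹ c y') K(x'⁻¹ c' y) |ψ x c V - ψ x' c' V|`; the triangle inequality `Δ(1;3) ≤ Δ(1;2) + Δ(2;3)` holds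
(`N_K ∈ [cm, cp]`, `cm > 0`). For `f ≥ 0` let `(A f)(x) = ∫ν(h) f(x (a,h))`, `(B f)(y) = ∫ν(h) f(y (a,h)⁻¹)`. `S_N(x, y) :=` the function `(x', y') ↦ Δ(x, y'; x', y)` averaged by `B^N` in `y'` at `y` and by `A^N` in `x'` at `x` (`N ≥ 1`; `S_1 = q`). Since `ψ (x (a,h)) = ψ x`:
`TT KV (opF^N K) (opB^N K) ψ ≤ cp² IM IM ∑_V KV S_N^V`. Induction: `S_(N+1)(x,y) ≤ (B^N q)(x,y) + (A S_N)(x,y)`, the middle point is `(x₁, y_N)`, `x₁ = x (a,h)`, `y_N` the point after `N` steps;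
`q(x,y) = ∫∫ν(h)ν(h') Δ(x, y (a,h)⁻¹; x (a,h'), y) ≤ cm⁻² ∑_(c,c') (opF K)(x⁻¹cy) (opB K)(x⁻¹c'y) |ψ x c V - ψ x c' V|`. So `S_N ≤ ∑_(j<N) A^j B^(N-1-j) q`, and by `S_dual` (iterated, `A` and `B` commute) the term `j` gives
`TT (opL^j (opR^(N-1-j) KV)) (opF K) (opB K) ψ`. -/
def S_tele : Prop :=
  ∀ D : Dat P H, D.Ok → ∀ (a : P) (KV K : P × H → ℝ≥0∞), Measurable KV → Measurable K →
    ∀ (N : ℕ) (cm cp : ℝ≥0∞), 1 ≤ N → 0 < cm → cp ≠ ∞ →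
    (∀ x y, cm ≤ D.N K x y ∧ D.N K x y ≤ cp) →
    ∀ ψ : P × H → D.Γ → D.Γ → ℝ, (∀ u v, Measurable fun x => ψ x u v) →
      (∀ (γ γ' : D.Γ) (x) (u v : D.Γ), ψ ((γ : P × H) * x) (γ * u * γ') (γ * v * γ') = ψ x u v) →
      (∀ (x) (h : H) (u v : D.Γ), ψ (x * (a, h)) u v = ψ x u v) →
      TT D KV ((opF D a)^[N] K) ((opB D a)^[N] K) ψ ≤
        (cp / cm) ^ 2 * ∑ j ∈ Finset.range N,
          TT D ((opL D a)^[j] ((opR D a)^[N - 1 - j] KV)) (opF D a K) (opB D a K) ψ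

/-- **pvp** (from phV). The hypotheses of `S_tele` for `pv`. Proof. `γ u γ' (γ v γ')⁻¹ = γ (u v⁻¹) γ⁻¹`, `S_phV` (3); `x (a, h)` has the first component `x.1 a`, `a ∈ A ≤ Bor`, `S_phV` (2). -/
def S_pvp : Prop :=
  ∀ (D : Dat P H) (G : PG P), D.Ok → G.Ok → ∀ φ : D.Γ → P → ℝ, Adm D G φ →
    (∀ u v, Measurable fun x => pv G φ x u v) ∧
    (∀ (γ γ' : D.Γ) (x : P × H) (u v : D.Γ),
      pv G φ ((γ : P × H) * x) (γ * u * γ') (γ * v * γ') = pv G φ x u v) ∧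
    (∀ (x : P × H) (h : H) (u v : D.Γ), pv G φ (x * (G.a, h)) u v = pv G φ x u v)

/-- **TTs.** Shift and monotonicity of `TT`. Proof. (1) `S_IM` (1) in `x` and in `y` (equivariance). (2) obvious. -/
def S_TTs : Prop :=
  ∀ D : Dat P H, D.Ok → ∀ KV K₁ K₂ : P × H → ℝ≥0∞, Measurable KV → Measurable K₁ → Measurable K₂ →
    ∀ ψ : P × H → D.Γ → D.Γ → ℝ, (∀ u v, Measurable fun x => ψ x u v) →
      (∀ (γ γ' : D.Γ) (x) (u v : D.Γ), ψ ((γ : P × H) * x) (γ * u * γ') (γ * v * γ') = ψ x u v) →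
      (∀ p q : P × H, TT D KV K₁ K₂ ψ =
        TT D (fun g => KV (p⁻¹ * g * q)) (fun g => K₁ (p⁻¹ * g * q)) (fun g => K₂ (p⁻¹ * g * q))
          (fun x => ψ (x * p))) ∧
      (∀ (KV' K₁' K₂' : P × H → ℝ≥0∞) (ψ' : P × H → D.Γ → D.Γ → ℝ) (C : ℝ≥0∞), C ≠ ∞ →
        (∀ g g' g'', KV g * (K₁ g' * K₂ g'') ≤ C * (KV' g * (K₁' g' * K₂' g''))) →
        (∀ x y (V u u' : D.Γ), KV (x⁻¹ * (V : P × H) * y) ≠ 0 → K₁ (x⁻¹ * (u : P × H) * y) ≠ 0 →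
          K₂ (x⁻¹ * (u' : P × H) * y) ≠ 0 → ψ x u V - ψ x u' V = ψ' x u V - ψ' x u' V) →
        TT D KV K₁ K₂ ψ ≤ C * TT D KV' K₁' K₂' ψ')

/-- **Sma** (from KFP, opI, phP, pvp, TTs, ton, ec, `S_AD P`). First step. Proof. `U ⊆ U_KFP(Uc)` small with `U⁻¹ U ⊆ Uv` and `q⁻¹ (uw U) ⊆ uw Uv` etc. `KFP` for the parts in `P`, the parts in `H` are the same (`S_opI` (1), (2): length `s + N`): `ch U n g * ch U n g' ≤ C ∫_q ∫_q' (opF^N Kc)(q⁻¹ g q') (opB^N Kc)(q⁻¹ g' q')`,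
`q, q' ∈ U` (as elements `(q, 1)`). The weight of `V`: `eg (uw U) U (2R) m g ≤ eg (uw Uv) Uv (2R) m (q⁻¹ g q')` (`S_ec` (4)). So `FS ≤ C ∫∫ TT(KV(q⁻¹ · q'), K₁(q⁻¹ · q'), K₂(q⁻¹ · q')) pv = C ∫∫ TT(KV, K₁, K₂) (x ↦ pv (x q⁻¹))` (`S_TTs` (1) with `p = q`) and
`pv (x q⁻¹) u V = pv x u V` on the support (`x = x₀ q`: `ph (u V⁻¹) (x₀ 1) = ph (u V⁻¹) (x₀ q)`: `S_phP` for the windows `(Uv, uw Uv)`, `(uw Uv, Uv)` at `x₀`, where the weights at `x₀` are those of `FS`; do this before the shift). -/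
def S_Sma : Prop :=
  ∀ (D : Dat P H) (G : PG P), Fc D G → ∀ Uc ∈ 𝓝 (1 : P), ∀ Uv ∈ 𝓝 (1 : P), ∃ U ∈ 𝓝 (1 : P),
    IsCompact U ∧ ∀ s : ℕ, 1 ≤ s → ∀ R : ℕ, ∃ (C : ℝ≥0∞) (T : ℕ), C ≠ ∞ ∧ ∀ N m, T ≤ N → T ≤ m →
      ∀ φ, Adm D G φ → ∀ i : Fin 2 → ℕ, i 0 = s + N → i 1 = m → FS D G U R i φ ≤
        C * TT D (D.eg G (G.uw Uv) Uv (2 * R) m) ((opF D G.a)^[N] (D.ch G Uc s))
          ((opB D G.a)^[N] (D.ch G Uc s)) (pv G φ)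

/-- **Smb** (from KVd, opI, phP, pvp, TTs, ton, ec, `S_AD P`). Smoothing of one term. Proof. WLOG `U` compact and small (positivity of the windows `U`, `uw U`). `KV_j = opL^j (opR^l KV) = tk (g ↦ k(a^j g a^l)) (j + m + l)` (`S_opI`). For `q, q' ∈ Us`: `K₁(q g q'⁻¹) ≤ K₁⁺(g)` for `K₁ = opF (ch Uc s)`, `K₁⁺ = opF (ch U s)`
(`opF (ch Uc s) = tk (g ↦ eP .. (g a⁻¹)) (s+1)`, `q g q'⁻¹ a⁻¹ = q (g a⁻¹) (a q'⁻¹ a⁻¹)`, `S_ec` (4), windows `q⁻¹ Uc ⊆ U`, `(a q'⁻¹ a⁻¹) uw Uc ⊆ uw U`), the same for `K₂`. `S_TTs` (1) with `p = q⁻¹`, `q'⁻¹`: `TT(KV_j, K₁, K₂) pv = TT(KV_j(q · q'⁻¹), K₁(q · q'⁻¹), ..)(x ↦ pv (x q⁻¹))`, and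
`pv (x q⁻¹) u V = pv x u V` on the support for `s ≥ s₀` (`S_phP`, windows of `u`: displacement `x⁻¹ u y ∈ W U⁺ (uw U⁺) k`; of `V`: `q g q'⁻¹ ∈` support of `KV_j`, so `g ∈ W (uw U⁺) U⁺ k` by (JN1) as in `S_KVd`). Average over `q, q' ∈ Us` (`μ Us > 0`): `S_KVd`: `∫∫ KV_j(q g q'⁻¹) ≤ C eg (uw U) U (2R) (j+m+l) g`. -/
def S_Smb : Prop :=
  ∀ (D : Dat P H) (G : PG P), Fc D G → ∀ U ∈ 𝓝 (1 : P), ∃ Uv ∈ 𝓝 (1 : P), IsCompact Uv ∧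
    ∃ Uc ∈ 𝓝 (1 : P), IsCompact Uc ∧ ∃ s₀ : ℕ, ∀ s, s₀ ≤ s → ∀ R : ℕ, ∃ (C : ℝ≥0∞) (T : ℕ),
      C ≠ ∞ ∧ ∀ m, T ≤ m → ∀ (j l : ℕ) (φ : D.Γ → P → ℝ), Adm D G φ → ∀ i : Fin 2 → ℕ,
        i 0 + i 1 = j + m + l →
        TT D ((opL D G.a)^[j] ((opR D G.a)^[l] (D.eg G (G.uw Uv) Uv (2 * R) m)))
          (opF D G.a (D.ch G Uc s)) (opB D G.a (D.ch G Uc s)) (pv G φ) ≤ C * FQ D G U s R i φ

/-- **Q1a** (from `S_ML P`, `S_RV P`, `S_MG P`, mer, phB, phP, opI, ec, egm, ton). One step, insertion of `γ`. Proof. WLOG `U` compact and small. `opF (ch U' s) ≤ ch U (s+1)`, `opB (ch U' s) ≤ ch U (s+1)` (`S_opI`: `s t` with `s ∈ U'`, `a^s`, `t a`: the windows become `(U', uw (a⁻¹ U' a))` and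
`(a U' a⁻¹, uw U')`). Insert `γ : y → x` of kernel `ch U t`, `N ≥ c` (`lo`, `t ≥ s₀`). Split `V` (`S_ML`, windows `uw U' → uw U''`, `U' → U`, middle neighbourhood `Um ⊆ U`; ranges `R, R`; lengths `n, m`): `V = V₁⁻¹ V₂`, `V₁ : x' → x`, `V₂ : x' → y` (`S_mer` (1), reindexing `e = V₁⁻¹`), and `S_RV` for `V₁⁻¹`. Identities on the
support: `pv x c V = ph (c (V₁⁻¹ V₂)⁻¹) x = ph (V₁ c V₂⁻¹) (x' w)` (`S_phB`: chord `V₁`, `u = c`, `v = V₂`; `s = w`, `s' = 1`), the same for `c'`; `ph (V₁ c' γ c V₂⁻¹) (x' w) - ph (V₁ c' V₂⁻¹) (x' w) = Dg w x' (γ c) (V₁ c') V₂`; by reversal (`S_phP`, displacements of `V₁ c' γ c`, `V₁ c` in `W (uw U⁺) (uw U⁺) k`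
by `S_MG`) `ph (V₁ c' γ c V₂⁻¹) (x' w) - ph (V₁ c V₂⁻¹) (x' w) = - Dg 1 x' ((c' γ)⁻¹) (V₂ c⁻¹) V₁`. -/
def S_Q1a : Prop :=
  ∀ (D : Dat P H) (G : PG P), Fc D G → ∀ U ∈ 𝓝 (1 : P), ∃ U' ∈ 𝓝 (1 : P), IsCompact U' ∧
    ∃ s₀ : ℕ, ∀ s t, s₀ ≤ s → s₀ ≤ t → ∀ R : ℕ, ∃ (C : ℝ≥0∞) (T : ℕ), C ≠ ∞ ∧ ∀ n m, T ≤ n → T ≤ m →
      ∀ φ, Adm D G φ → ∀ i : Fin 2 → ℕ, i 0 = n → i 1 = m → FQ D G U' s R i φ ≤
        C * (F5 D G U (s + 1) t R n m (fun x' _ _ V₁ V₂ c c' γ =>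
            ab (Dg G φ G.w x' (γ * c) (V₁ * c') V₂)) +
          F5 D G U (s + 1) t R n m (fun x' _ _ V₁ V₂ c c' γ =>
            ab (Dg G φ 1 x' ((c' * γ)⁻¹) (V₂ * c⁻¹) V₁)))

/-- **Q1b** (from ms2, mer, ec, egm, ton, lpn, `S_O`, `S_nu`). The first term. Proof. WLOG `U₀` compact. `U` small. Fix `x'`, `y`. `g = γ c` satisfies `y⁻¹ g y = (y⁻¹γx)(x⁻¹cy) ∈ U a^t U⁻¹ U a^s U⁻¹ ⊆ U₀ a^(s+t) U₀` ((JN1), `a^t, a^s ∈ Dp 0`), second component in `O^t O^s = O^(s+t)`. For fixed `x, V₁, c'` (`IM x` outside):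
`∑_γ ∑_c ch(y⁻¹γx) ch(x⁻¹cy) f(γ c) = ∑_g f(g) ∑_γ ... ≤ C lp (..) y f` (reindex `c = γ⁻¹ g`; `ch ≤ C`, `∑_γ ch (y⁻¹γx) ≤ C`). Then `IM x ∑_(V₁) ∑_(c') eg (uw U) (uw U) R n (x'⁻¹V₁x) ch U s (x⁻¹c'y) F(V₁ c') ≤ C ∑_u eg (uw U₀) (uw U₀) R (n+s) (x'⁻¹uy) F(u)` (`S_mer` (1), `S_ms2`, `R' = 0`). `V₂`: windows `U ⊆ U₀`. -/
def S_Q1b : Prop :=
  ∀ (D : Dat P H) (G : PG P), Fc D G → ∀ U₀ ∈ 𝓝 (1 : P), ∃ U ∈ 𝓝 (1 : P), IsCompact U ∧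
    ∀ s t, 1 ≤ s → 1 ≤ t → ∀ R : ℕ, ∃ (C : ℝ≥0∞) (T : ℕ), C ≠ ∞ ∧ ∀ n m, T ≤ n → T ≤ m →
      ∀ φ, Adm D G φ → ∀ i : Fin 2 → ℕ, i 0 = n + s → i 1 = m →
        F5 D G U s t R n m (fun x' _ _ V₁ V₂ c c' γ =>
          ab (Dg G φ G.w x' (γ * c) (V₁ * c') V₂)) ≤
        C * FE D G (U₀ * {G.a ^ (s + t)} * U₀) (s + t) ⟨G.w, G.uw U₀, G.uw U₀⟩ ⟨1, U₀, U₀⟩ R i φ

/-- **Q1c** (from ms2, mer3, ec, egm, ton, lpn, `S_IM`, `S_O`, `S_nu`). The second term. Proof. As Q1b with `g = (c' γ)⁻¹`, a loop at `x`, `u = V₂ c⁻¹ : x' → y → x`, and the end point `z = x w` (`S_IM` (1): `IM x F(x) = IM z F(z w)`, `w w = 1`). `x⁻¹ g x ∈ (U a^s U⁻¹ U a^t U⁻¹)⁻¹`, `z⁻¹ g z = w (x⁻¹ g x) w ∈ U₀ a^(s+t) U₀` (`w a^(-s) w = a^s`).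
`IM y ∑_(V₂) ∑_c eg U U R m (x'⁻¹V₂y) ch U s (x⁻¹cy) F(V₂c⁻¹)`: `S_mer3`, the reversed kernel of `ch U s` is `eP (uw U) U 0 s` (`S_ec` (2)), merged by the second part of `S_ms2` (end window near `1`, start window near `w`): class `(U⁺, U⁺)`, range `R`, length `m + s`, at `(x', x)`; at `z = x w` the end window is `w U⁺ ⊆ uw U₀`
(`S_ec` (4)). `V₁` has the class `(uw U, uw U)` at `(x', x)`, so `(uw U, w U w)` at `(x', z)`. -/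
def S_Q1c : Prop :=
  ∀ (D : Dat P H) (G : PG P), Fc D G → ∀ U₀ ∈ 𝓝 (1 : P), ∃ U ∈ 𝓝 (1 : P), IsCompact U ∧
    ∀ s t, 1 ≤ s → 1 ≤ t → ∀ R : ℕ, ∃ (C : ℝ≥0∞) (T : ℕ), C ≠ ∞ ∧ ∀ n m, T ≤ n → T ≤ m →
      ∀ φ, Adm D G φ → ∀ i : Fin 2 → ℕ, i 0 = m + s → i 1 = n →
        F5 D G U s t R n m (fun x' _ _ V₁ V₂ c c' γ =>
          ab (Dg G φ 1 x' ((c' * γ)⁻¹) (V₂ * c⁻¹) V₁)) ≤
        C * FE D G (U₀ * {G.a ^ (s + t)} * U₀) (s + t) ⟨1, U₀, G.uw U₀⟩ ⟨G.w, G.uw U₀, U₀⟩ R i φ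

/-- **Q1** (from INS, Q1a, Q1b, Q1c, CTs). One step is controlled. Proof. `U₀, s₁` from `S_INS`; `U` = the intersection of the neighbourhoods of `S_Q1b`, `S_Q1c` for `U₀` (`F5` is monotone in `U`); `U', s₀` from `S_Q1a` for `U`. For `s ≥ s₀`: `t = max s₀ s₁`, so `s + 1 + t ≥ s₁`. `S_CTs` with two functionals; the lengths
`n + s + 1 ≤ 4 r - T` if `n ≤ 4 r - T'`. -/
def S_Q1 : Prop :=
  ∀ (D : Dat P H) (G : PG P), Fc D G → ∃ U ∈ 𝓝 (1 : P), IsCompact U ∧ ∃ s₀ : ℕ, ∀ s, s₀ ≤ s →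
    CT D G 0 (okL 2) (FQ D G U s)

/-- **FSc** (from Q1, Sma, Smb, tele, pvp, egm). Telescoping. Proof. `U_Q, s₁` from `S_Q1`; `Uv, Uc, s₂` from `S_Smb` for `U_Q`; `s ≥ 1, s₁, s₂` fixed with `N (ch Uc s) ≥ cm > 0` (`lo`), `≤ cp` (`up`); `U` from `S_Sma` for `Uc, Uv`. `FS(n, m) ≤ C TT(KV, opF^N, opB^N)` (`N = n - s`)
`≤ C' ∑_(j < N) TT(opL^j (opR^(N-1-j) KV), opF, opB) ≤ C'' ∑_(j<N) FQ U_Q s R (i₀, i₁)` with `i₀ + i₁ = N - 1 + m`, `i₀ = ⌊(N-1+m)/2⌋ ∈ [r, 4r - T]`; `N ≤ 8 r`. -/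
def S_FSc : Prop :=
  ∀ (D : Dat P H) (G : PG P), Fc D G → ∃ U ∈ 𝓝 (1 : P), IsCompact U ∧
    CT D G 1 okS2 (FS D G U)

/-- **FUc** (from FSc, ec). Proof. `bk U d m ≤ eg (uw U) U (2R) m` for `d ∈ D1^(2R)` (`S_ec` (1), (6)). `U` of `S_FSc` for all `R`. -/
def S_FUc : Prop := ∀ (D : Dat P H) (G : PG P), Fc D G → CU D G 1 okS (FU D G)

/-- **FVc** (from FSc, ec, phP, phV, TTs or `S_IM`). Exchange of the two roles. Proof. `U₂` from `S_FSc`; given `R` choose `U = U_R` compact with `w U w ⊆ U₂`, `d⁻¹ (w U w) d ⊆ U₂` for `d ∈ D1^(2R)` (tube lemma). Put `x = x̃ (w d)⁻¹`, `y = ỹ w` (`S_IM` (1)): `x⁻¹ V y = (w d) (x̃⁻¹ V ỹ) w`. By `S_ec`: `bk U d m ((w d) g w) =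
ec (d⁻¹ w U w) (w U) (d a^m) g = ec (d⁻¹ (w U w) d) (w U) (a^m) g ≤ ch U₂ m g` (`w U = (w U w) w`); `ch U n ((w d) g w) = ec (d⁻¹ w U) (w U w) (a^n) g`, `d⁻¹ w U = (d⁻¹ (w U w) d) w (w d⁻¹ w) ⊆ uw U₂ * D1^(2R)`, so `≤ eg (uw U₂) U₂ (2R) n g`.
`pv x u V = - ph (V u⁻¹) (x w d) = - pv x̃ V u` (`S_phP` for the windows `(U, uw U)`, `(uw U * D1^(2R), U)`; lengths `≥ T(R)`). So `FV(n, m) ≤ FS(m, n)`. -/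
def S_FVc : Prop := ∀ (D : Dat P H) (G : PG P), Fc D G → CU D G 1 okS (FV D G)

end Pool.Agent.MPEF.U
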