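import Pool.Agent.Lib.MP_ef3f0f_gt.U.E.SpecA

set_option autoImplicit false

/-!
# MP_ef3f0f_gt, Theorem U, Part E: merging of edges
-/

namespace Pool.Agent.MPEF.U

open MeasureTheory Topology
open scoped ENNReal Pointwise

variable (P H : Type) [Group P] [Group H] [TopologicalSpace P] [TopologicalSpace H]
  [IsTopologicalGroup P] [IsTopologicalGroup H] [LocallyCompactSpace P] [LocallyCompactSpace H]
  [T2Space P] [T2Space H] [SecondCountableTopology P] [SecondCountableTopology H]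
  [MeasurableSpace P] [MeasurableSpace H] [BorelSpace P] [BorelSpace H]

/-- **Merging of edges.** -/
theorem tmer : S_mg P H → S_nu P H → S_mer P H := by
  intro hmg hnu D hD k k' n m hk hk' hn hm F
  obtain ⟨-, -, -, h4, h5, -, -, -⟩ := hmg D hD
  obtain ⟨hnm, -, -, hni, -, -, -, -⟩ := hnu D hD
  have htk : ∀ (k : P → ℝ≥0∞) (n : ℕ), Measurable k → Measurable (D.tk k n) := by
    intro k n hk
    exact (hk.comp measurable_fst).mul ((hnm n).comp measurable_snd)
  have key : ∀ (k : P → ℝ≥0∞), Measurable k → ∀ x y : P × H,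
      (D.IM fun z => ∑' e : D.Γ, ∑' e' : D.Γ, D.tk k n (x⁻¹ * (e : P × H) * z) *
        D.tk k' m (z⁻¹ * (e' : P × H) * y) * F (e * e')) =
      ∑' u : D.Γ, D.tk (cvP D.μ₁ k k') (n + m) (x⁻¹ * (u : P × H) * y) * F u := by
    intro k hk x y
    rw [h4 _ _ (htk k n hk) (htk k' m hk') x y F]
    refine tsum_congr fun u => ?_
    rw [h5 k k' n m hk hk' hn hm]
    rfl
  refine ⟨key k hk, fun x' z => ?_⟩
  rw [← key (fun g => k g⁻¹) (hk.comp measurable_inv) x' z]
  unfold Dat.IM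
  refine lintegral_congr fun x => ?_
  congr 1
  beta_reduce
  rw [← Equiv.tsum_eq (Equiv.inv D.Γ)]
  refine tsum_congr fun e => tsum_congr fun v => ?_
  have e1 : x⁻¹ * (((Equiv.inv D.Γ) e : D.Γ) : P × H) * x' = (x'⁻¹ * (e : P × H) * x)⁻¹ := by
    rw [Equiv.inv_apply, Subgroup.coe_inv]
    group
  have e2 : D.tk k n (x⁻¹ * (((Equiv.inv D.Γ) e : D.Γ) : P × H) * x') =
      D.tk (fun g => k g⁻¹) n (x'⁻¹ * (e : P × H) * x) := by
    rw [e1]
    show k ((x'⁻¹ * (e : P × H) * x)⁻¹).1 * D.nu n ((x'⁻¹ * (e : P × H) * x)⁻¹).2 = _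
    rw [Prod.snd_inv, hni]
    rfl
  rw [e2, Equiv.inv_apply, inv_inv]

end Pool.Agent.MPEF.U
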